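import Pool.Agent.W_828d9b_h4.Z5

/-!
# The unitary group of the form diag(1, 1, -tau) over Z5 and its explicit elements
-/

namespace W828

open Matrix

/-- 3 x 3 matrices over Z5 -/
abbrev Mat := Matrix (Fin 3) (Fin 3) Z5

/-- the Hermitian form diag(1, 1, -tau) -/
def H : Mat := !![1, 0, 0; 0, 1, 0; 0, 0, -Z5.tau]
/-- its inverse diag(1, 1, -phi) -/
def Hi : Mat := !![1, 0, 0; 0, 1, 0; 0, 0, -Z5.phi]

theorem Hi_mul_H : Hi * H = 1 := by decide
theorem H_mul_Hi : H * Hi = 1 := by decide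

/-- The full unitary group of the form H over Z5 (as a subgroup of GL 3). -/
def GHat : Subgroup Matˣ where
  carrier := {g | (g : Mat)ᴴ * H * (g : Mat) = H}
  mul_mem' := by
    intro x y hx hy
    simp only [Set.mem_ofPred_eq] at *
    rw [Units.val_mul, conjTranspose_mul]
    calc (y : Mat)ᴴ * (x : Mat)ᴴ * H * ((x : Mat) * (y : Mat))
        = (y : Mat)ᴴ * ((x : Mat)ᴴ * H * (x : Mat)) * (y : Mat) := by
          simp only [Matrix.mul_assoc]
      _ = H := by rw [hx]; exact hy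
  one_mem' := by simp
  inv_mem' := by
    intro x hx
    simp only [Set.mem_ofPred_eq] at *
    have h1 : (x : Mat) * ((x⁻¹ : Matˣ) : Mat) = 1 := by
      rw [← Units.val_mul, mul_inv_cancel, Units.val_one]
    have h2 : ((x⁻¹ : Matˣ) : Mat)ᴴ * (x : Mat)ᴴ = 1 := by
      rw [← conjTranspose_mul, h1, conjTranspose_one]
    calc ((x⁻¹ : Matˣ) : Mat)ᴴ * H * ((x⁻¹ : Matˣ) : Mat)
        = ((x⁻¹ : Matˣ) : Mat)ᴴ * ((x : Mat)ᴴ * H * (x : Mat)) * ((x⁻¹ : Matˣ) : Mat) := by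
          rw [hx]
      _ = (((x⁻¹ : Matˣ) : Mat)ᴴ * (x : Mat)ᴴ) * H * ((x : Mat) * ((x⁻¹ : Matˣ) : Mat)) := by
          simp only [Matrix.mul_assoc]
      _ = H := by rw [h1, h2]; simp

/-- The matrix of an element of GHat. -/
def toMat (g : GHat) : Mat := ((g : Matˣ) : Mat)

@[simp] theorem toMat_mul (g h : GHat) : toMat (g * h) = toMat g * toMat h := rfl
@[simp] theorem toMat_one : toMat 1 = 1 := rfl

theorem toMat_unitary (g : GHat) : (toMat g)ᴴ * H * toMat g = H := g.2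

theorem toMat_injective : Function.Injective toMat := by
  intro g h hgh
  exact Subtype.ext (Units.ext hgh)

/-- Build an element of GHat from a matrix M with Mᴴ H M = H. -/
def mkG (M : Mat) (hM : Mᴴ * H * M = H) : GHat :=
  ⟨⟨M, Hi * Mᴴ * H,
    by
      apply mul_eq_one_comm.mp
      calc Hi * Mᴴ * H * M = Hi * (Mᴴ * H * M) := by simp only [Matrix.mul_assoc]
        _ = 1 := by rw [hM, Hi_mul_H],
    by
      calc Hi * Mᴴ * H * M = Hi * (Mᴴ * H * M) := by simp only [Matrix.mul_assoc]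
        _ = 1 := by rw [hM, Hi_mul_H]⟩, hM⟩

@[simp] theorem toMat_mkG (M : Mat) (hM : Mᴴ * H * M = H) : toMat (mkG M hM) = M := rfl

theorem toMat_inv (g : GHat) : toMat g⁻¹ = Hi * (toMat g)ᴴ * H := by
  have h : toMat g⁻¹ * toMat g = 1 := by rw [← toMat_mul, inv_mul_cancel, toMat_one]
  have h2 : (Hi * (toMat g)ᴴ * H) * toMat g = 1 := by
    calc Hi * (toMat g)ᴴ * H * toMat g = Hi * ((toMat g)ᴴ * H * toMat g) := by
          simp only [Matrix.mul_assoc]
      _ = 1 := by rw [toMat_unitary, Hi_mul_H]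
  have h3 : toMat g * toMat g⁻¹ = 1 := by rw [← toMat_mul, mul_inv_cancel, toMat_one]
  calc toMat g⁻¹ = ((Hi * (toMat g)ᴴ * H) * toMat g) * toMat g⁻¹ := by rw [h2, one_mul]
    _ = (Hi * (toMat g)ᴴ * H) * (toMat g * toMat g⁻¹) := by rw [Matrix.mul_assoc]
    _ = Hi * (toMat g)ᴴ * H := by rw [h3, mul_one]

/-! ### The four generating reflections (of order ten) -/

def RM : Fin 4 → Mat := ![
  !![⟨0, 0, -1, 0⟩, 0, 0; 0, 1, 0; 0, 0, 1],
  !![⟨0, -1, -1, 0⟩, ⟨-1, -1, -1, 0⟩, ⟨1, 1, 1, 0⟩;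
     ⟨-1, -1, -1, 0⟩, ⟨0, -1, -1, 0⟩, ⟨1, 1, 1, 0⟩;
     ⟨-1, -2, -1, 0⟩, ⟨-1, -2, -1, 0⟩, ⟨2, 2, 1, 0⟩],
  !![1, 0, 0; 0, ⟨0, 0, -1, 0⟩, 0; 0, 0, 1],
  !![1, 0, 0; 0, ⟨0, -1, -1, 0⟩, ⟨0, 1, 0, 0⟩; 0, ⟨-1, -1, -1, 0⟩, ⟨1, 1, 0, 0⟩]]

theorem RM_unitary : ∀ i, (RM i)ᴴ * H * RM i = H := by decide

/-- the reflections R 0, R 1, R 2, R 3 (half twists of a five-strand sphere braid) -/
def R (i : Fin 4) : GHat := mkG (RM i) (RM_unitary i)

/-- powers of eta indexed by ZMod 10 -/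
def et (a : ZMod 10) : Z5 := Z5.eta ^ a.val

/-- scalar matrices -/
def sc (u : ZMod 10) : GHat :=
  mkG !![et u, 0, 0; 0, et u, 0; 0, 0, et u] (by revert u; decide)

/-- diag (eta^a, eta^b, 1) -/
def dg (a b : ZMod 10) : GHat :=
  mkG !![et a, 0, 0; 0, et b, 0; 0, 0, 1] (by revert a b; decide)

/-- the element W0 = scalar multiple of R1 R0 R2 R1, exchanging the first two axes -/
def W0 : GHat := mkG !![0, et 9, 0; et 9, 0, 0; 0, 0, 1] (by decide)

/-- The group of order 200 which is the stabiliser of the base point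
(modulo scalars): pairs of exponents and a flag. -/
@[ext] structure KK where
  a : ZMod 10
  b : ZMod 10
  c : Bool
deriving DecidableEq

namespace KK

instance : Fintype KK :=
  Fintype.ofEquiv (ZMod 10 × ZMod 10 × Bool)
    { toFun := fun x => ⟨x.1, x.2.1, x.2.2⟩
      invFun := fun k => (k.a, k.b, k.c)
      left_inv := fun _ => rfl
      right_inv := fun _ => rfl }

instance : One KK := ⟨⟨0, 0, false⟩⟩
instance : Mul KK := ⟨fun x y =>
  match x.c, y.c with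
  | false, c => ⟨x.a + y.a, x.b + y.b, c⟩
  | true, false => ⟨x.a + y.b, x.b + y.a, true⟩
  | true, true => ⟨x.a + y.b - 2, x.b + y.a - 2, false⟩⟩
instance : Inv KK := ⟨fun x =>
  match x.c with
  | false => ⟨-x.a, -x.b, false⟩
  | true => ⟨2 - x.b, 2 - x.a, true⟩⟩

theorem mul_ff (a b a' b' : ZMod 10) :
    (⟨a, b, false⟩ : KK) * ⟨a', b', false⟩ = ⟨a + a', b + b', false⟩ := rfl
theorem mul_ft (a b a' b' : ZMod 10) :
    (⟨a, b, false⟩ : KK) * ⟨a', b', true⟩ = ⟨a + a', b + b', true⟩ := rfl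
theorem mul_tf (a b a' b' : ZMod 10) :
    (⟨a, b, true⟩ : KK) * ⟨a', b', false⟩ = ⟨a + b', b + a', true⟩ := rfl
theorem mul_tt (a b a' b' : ZMod 10) :
    (⟨a, b, true⟩ : KK) * ⟨a', b', true⟩ = ⟨a + b' - 2, b + a' - 2, false⟩ := rfl
theorem one_def : (1 : KK) = ⟨0, 0, false⟩ := rfl
theorem inv_f (a b : ZMod 10) : (⟨a, b, false⟩ : KK)⁻¹ = ⟨-a, -b, false⟩ := rfl
theorem inv_t (a b : ZMod 10) : (⟨a, b, true⟩ : KK)⁻¹ = ⟨2 - b, 2 - a, true⟩ := rfl

instance : Group KK where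
  mul_assoc := by
    rintro ⟨a, b, c⟩ ⟨a', b', c'⟩ ⟨a'', b'', c''⟩
    cases c <;> cases c' <;> cases c'' <;>
      simp only [mul_ff, mul_ft, mul_tf, mul_tt, KK.mk.injEq, and_true] <;>
      constructor <;> ring
  one_mul := by
    rintro ⟨a, b, c⟩
    cases c <;> simp [one_def, mul_ff, mul_ft]
  mul_one := by
    rintro ⟨a, b, c⟩
    cases c <;> simp [one_def, mul_ff, mul_tf]
  inv_mul_cancel := by
    rintro ⟨a, b, c⟩
    cases c <;> simp [one_def, mul_ff, mul_tt, inv_f, inv_t]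

end KK

/-- the matrix group element attached to an element of KK -/
def kap (k : KK) : GHat := if k.c then dg k.a k.b * W0 else dg k.a k.b

/-- The seven double coset representatives G 0 = 1, R3, R3^2, R1 R3^{-1}, R1, R3^3, R3^{-3}. -/
def G : Fin 7 → GHat :=
  ![1, R 3, R 3 ^ 2, R 1 * (R 3)⁻¹, R 1, R 3 ^ 3, (R 3 ^ 3)⁻¹]

/-- tau as a real number -/
noncomputable def tr : ℝ := (Real.sqrt 5 - 1) / 2

/-- the squared absolute value (standard embedding) of an element of Z5 -/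
noncomputable def nsq (x : Z5) : ℝ := (Z5.nA x : ℝ) + (Z5.nB x : ℝ) * tr
/-- the squared absolute value in the other embedding -/
noncomputable def nsq' (x : Z5) : ℝ := (Z5.nA x : ℝ) - (Z5.nB x : ℝ) * (tr + 1)

/-- the elements g of GHat with |g_33|^2 at most 13.34 -/
def Small (g : GHat) : Prop := nsq (toMat g 2 2) ≤ 13.34

end W828
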