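import Pool.Agent.W_828d9b_h4.BPCheck
import Pool.Agent.W_828d9b_h4.Grp

/-!
# Block monomial matrices with sixty blocks of size six
-/

namespace W828

open Matrix

/-- An element permutes 60 blocks (block c goes to block p c) by the 6 x 6 matrices m c. -/
@[ext] structure BP (R : Type*) where
  p : Fin 60 → Fin 60
  m : Fin 60 → Matrix (Fin 6) (Fin 6) R

namespace BP

variable {R : Type*} [CommRing R]

instance : One (BP R) := ⟨⟨id, fun _ => 1⟩⟩
instance : Mul (BP R) := ⟨fun x y => ⟨fun c => x.p (y.p c), fun c => x.m (y.p c) * y.m c⟩⟩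

@[simp] theorem one_p (c : Fin 60) : (1 : BP R).p c = c := rfl
@[simp] theorem one_m (c : Fin 60) : (1 : BP R).m c = 1 := rfl
@[simp] theorem mul_p (x y : BP R) (c : Fin 60) : (x * y).p c = x.p (y.p c) := rfl
@[simp] theorem mul_m (x y : BP R) (c : Fin 60) : (x * y).m c = x.m (y.p c) * y.m c := rfl

instance : Monoid (BP R) where
  mul_assoc x y z := by
    apply BP.ext
    · funext c; rfl
    · funext c; exact Matrix.mul_assoc _ _ _
  one_mul x := by
    apply BP.ext
    · funext c; rfl
    · funext c; exact Matrix.one_mul _
  mul_one x := by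
    apply BP.ext
    · funext c; rfl
    · funext c; exact Matrix.mul_one _

/-- entrywise application of a ring homomorphism -/
def map {R' : Type*} [CommRing R'] (f : R →+* R') : BP R →* BP R' where
  toFun x := ⟨x.p, fun c => (x.m c).map f⟩
  map_one' := by
    apply BP.ext
    · rfl
    · funext c; exact Matrix.map_one _ f.map_zero f.map_one
  map_mul' x y := by
    apply BP.ext
    · rfl
    · funext c; exact Matrix.map_mul

@[simp] theorem map_p {R' : Type*} [CommRing R'] (f : R →+* R') (x : BP R) (c : Fin 60) :
    (map f x).p c = x.p c := rfl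
@[simp] theorem map_m {R' : Type*} [CommRing R'] (f : R →+* R') (x : BP R) (c : Fin 60) :
    (map f x).m c = (x.m c).map f := rfl

end BP

/-- Evaluation data: a root z of the fifth cyclotomic polynomial, an inverse f of 5 and
a value w of the parameter. -/
structure ED (R : Type*) [CommRing R] where
  z : R
  hz : z ^ 4 + z ^ 3 + z ^ 2 + z + 1 = 0
  f : R
  hf : 5 * f = 1
  w : R

/-- base change of evaluation data -/
def ED.map {R R' : Type*} [CommRing R] [CommRing R'] (φ : R →+* R') (E : ED R) : ED R' where
  z := φ E.z
  hz := by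
    have h := congrArg φ E.hz
    simpa using h
  f := φ E.f
  hf := by
    have h := congrArg φ E.hf
    rw [map_mul, map_one, map_ofNat] at h
    exact h
  w := φ E.w

variable {R : Type*} [CommRing R]

/-- value of an element of Z5 -/
def ED.io (E : ED R) : Z5 →+* R := Z5.lift E.z E.hz

/-- value of a coefficient list -/
def ED.pz (E : ED R) : PZ → R
  | [] => 0
  | a :: p => E.io a + E.w * E.pz p

/-- the value of the sparse row at column j -/
def ED.row (E : ED R) : List (ℕ × PZ) → ℕ → R
  | [], _ => 0
  | (i, a) :: r, j => (if i = j then E.pz a else 0) + E.row r j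

/-- the matrix given by a sparse matrix -/
def ED.sm (E : ED R) (A : SM) : Matrix (Fin 6) (Fin 6) R :=
  fun i j => E.row (A.getD i.val []) j.val

/-- the block monomial matrix of the generator number i -/
def ED.gen (E : ED R) (i : ℕ) : BP R where
  p c := Fin.ofNat 60 (permG i c.val)
  m c := E.f ^ expG i c.val • E.sm (matG i c.val)

/-- the block monomial matrix of a word (the first letter acts first) -/
def ED.word (E : ED R) : List ℕ → BP R
  | [] => 1
  | i :: l => E.word l * E.gen i

@[simp] theorem ED.word_nil (E : ED R) : E.word [] = 1 := rfl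
@[simp] theorem ED.word_cons (E : ED R) (i : ℕ) (l : List ℕ) :
    E.word (i :: l) = E.word l * E.gen i := rfl

theorem ED.word_append (E : ED R) (k l : List ℕ) : E.word (k ++ l) = E.word l * E.word k := by
  induction k with
  | nil => rw [List.nil_append, ED.word_nil, mul_one]
  | cons i k ih => rw [List.cons_append, ED.word_cons, ED.word_cons, ih, mul_assoc]

theorem ED.word_replicate (E : ED R) (i n : ℕ) :
    E.word (List.replicate n i) = E.gen i ^ n := by
  induction n with
  | zero => rfl
  | succ n ih => rw [List.replicate_succ, ED.word_cons, ih, pow_succ]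

section map
variable {R' : Type*} [CommRing R'] (φ : R →+* R') (E : ED R)

theorem ED.map_io (x : Z5) : (E.map φ).io x = φ (E.io x) := by
  simp [ED.io, ED.map, Z5.lift_apply]

theorem ED.map_pz (p : PZ) : (E.map φ).pz p = φ (E.pz p) := by
  induction p with
  | nil => simp [ED.pz]
  | cons a p ih =>
    rw [ED.pz, ED.pz, ih, ED.map_io, map_add, map_mul]
    rfl

theorem ED.map_row (r : List (ℕ × PZ)) (j : ℕ) : (E.map φ).row r j = φ (E.row r j) := by
  induction r with
  | nil => simp [ED.row]
  | cons a r ih =>
    obtain ⟨i, a⟩ := a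
    rw [ED.row, ED.row, ih, map_add]
    split_ifs with h
    · rw [ED.map_pz]
    · rw [map_zero]

theorem ED.map_gen (i : ℕ) : (E.map φ).gen i = BP.map φ (E.gen i) := by
  apply BP.ext
  · rfl
  · funext c
    ext a b
    show φ E.f ^ expG i c.val * (E.map φ).row _ _ = φ (E.f ^ expG i c.val * E.row _ _)
    rw [ED.map_row, map_mul, map_pow]

theorem ED.map_word (l : List ℕ) : (E.map φ).word l = BP.map φ (E.word l) := by
  induction l with
  | nil => rw [ED.word_nil, ED.word_nil, map_one]
  | cons i l ih => rw [ED.word_cons, ED.word_cons, ih, ED.map_gen, map_mul]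

end map

end W828
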