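import Pool.Agent.W_828d9b_h4.BPData

/-!
# Kernel check of the relations of the block monomial representation
-/

namespace W828

/-- addition of coefficient lists -/
def padd : PZ → PZ → PZ
  | [], q => q
  | a :: p, [] => a :: p
  | a :: p, b :: q => (a + b) :: padd p q

/-- prepend a zero coefficient unless the list is empty -/
def pshift : PZ → PZ
  | [] => []
  | a :: p => 0 :: a :: p

/-- multiplication of coefficient lists -/
def pmul : PZ → PZ → PZ
  | [], _ => []
  | a :: p, q => padd (q.map (a * ·)) (pshift (pmul p q))

/-- sparse row times vector -/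
def rdot (v : List PZ) : List (ℕ × PZ) → PZ
  | [] => []
  | (j, a) :: r =>
    match v.getD j [] with
    | [] => rdot v r
    | b :: q => padd (pmul a (b :: q)) (rdot v r)

/-- remove vanishing leading coefficients -/
def ptrim : PZ → PZ
  | [] => []
  | a :: p =>
    match ptrim p with
    | [] => if a = 0 then [] else [a]
    | b :: q => a :: b :: q

/-- sparse matrix times vector -/
def appS (A : SM) (v : List PZ) : List PZ := A.map (fun r => ptrim (rdot v r))

/-- all coefficients vanish -/
def pzero (p : PZ) : Bool := p.all (fun a => decide (a = 0))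

/-- scaling by an integer -/
def pscale (n : ℤ) (p : PZ) : PZ := p.map (fun a => ⟨n * a.a, n * a.b, n * a.c, n * a.d⟩)

/-- n * v = m * w entrywise (vectors of length six) -/
def eqV (n m : ℤ) : List PZ → List PZ → Bool
  | [], [] => true
  | p :: v, q :: w => pzero (padd (pscale n p) (pscale (-m) q)) && eqV n m v w
  | _, _ => false

def permG (i c : ℕ) : ℕ := (permD.getD i []).getD c 0
def matG (i c : ℕ) : SM := mats.getD ((midD.getD i []).getD c 0) []
def expG (i c : ℕ) : ℕ := (expD.getD i []).getD c 0

/-- run a word (first letter acts first) starting at block c with vector v and exponent e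
of 5 in the denominator -/
def runB : List ℕ → ℕ → List PZ → ℕ → ℕ × List PZ × ℕ
  | [], c, v, e => (c, v, e)
  | i :: w, c, v, e => runB w (permG i c) (appS (matG i c) v) (e + expG i c)

/-- the six basis vectors -/
def basisV : List (List PZ) :=
  [[[1], [], [], [], [], []], [[], [1], [], [], [], []], [[], [], [1], [], [], []],
   [[], [], [], [1], [], []], [[], [], [], [], [1], []], [[], [], [], [], [], [1]]]

/-- the two words act in the same way on block c -/
def relAt (u v : List ℕ) (c : ℕ) : Bool :=
  basisV.all fun b =>
    let x := runB u c b 0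
    let y := runB v c b 0
    (x.1 == y.1) && eqV ((5 : ℤ) ^ y.2.2) ((5 : ℤ) ^ x.2.2) x.2.1 y.2.1

/-- the two words act in the same way on the blocks lo, ..., lo + n - 1 -/
def relOn (u v : List ℕ) (lo n : ℕ) : Bool := (List.range' lo n).all (relAt u v)

theorem relOn_at {u v : List ℕ} {lo n : ℕ} (h : relOn u v lo n = true) (c : ℕ) (h1 : lo ≤ c)
    (h2 : c < lo + n) : relAt u v c = true := by
  have h3 := List.all_eq_true.1 h c
  refine h3 ?_
  rw [List.mem_range']
  exact ⟨c - lo, by omega, by omega⟩

theorem relAll_of {u v : List ℕ} (h0 : relOn u v 0 10 = true) (h1 : relOn u v 10 10 = true)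
    (h2 : relOn u v 20 10 = true) (h3 : relOn u v 30 10 = true)
    (h4 : relOn u v 40 10 = true) (h5 : relOn u v 50 10 = true) (c : ℕ) (hc : c < 60) :
    relAt u v c = true := by
  rcases lt_or_ge c 10 with h | h
  · exact relOn_at h0 c (by omega) (by omega)
  rcases lt_or_ge c 20 with h | h
  · exact relOn_at h1 c (by omega) (by omega)
  rcases lt_or_ge c 30 with h | h
  · exact relOn_at h2 c (by omega) (by omega)
  rcases lt_or_ge c 40 with h | h
  · exact relOn_at h3 c (by omega) (by omega)
  rcases lt_or_ge c 50 with h | h
  · exact relOn_at h4 c (by omega) (by omega)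
  · exact relOn_at h5 c (by omega) (by omega)

end W828
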