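import Pool.Agent.W_828d9b_h4.Z5

/-!
# Data of the block monomial representation

`mats` is a list of sparse 6 x 6 matrices whose entries are polynomials in w with coefficients in
Z5 (lists of coefficients, constant term first).  The generator number i maps the block
number c to the block `permD i c` by the matrix number `midD i c`, divided by 5 if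
`expD i c = 1`.
-/

namespace W828

abbrev PZ := List Z5
/-- sparse matrices: rows are lists of (column, entry) -/
abbrev SM := List (List (ℕ × PZ))

def mats0 : List SM := [
  [[(0, [⟨1,1,2,1⟩,⟨0,0,-1,0⟩]), (1, [⟨0,0,0,0⟩,⟨-1,0,0,0⟩]), (2, [⟨-1,-1,-1,-1⟩])],
   [(0, [⟨-1,-1,1,1⟩,⟨1,1,1,0⟩]), (1, [⟨2,2,1,0⟩,⟨0,-1,-1,0⟩]), (3, [⟨-1,-1,-1,-1⟩])],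
   [(0, [⟨-1,-1,-1,-1⟩])],
   [(1, [⟨-1,-1,-1,-1⟩])],
   [(4, [⟨-1,-1,-1,-1⟩])],
   [(5, [⟨-1,-1,-1,-1⟩])]],
  [[(0, [⟨-1,-1,-1,-1⟩])],
   [(1, [⟨-1,-1,-1,-1⟩])],
   [(2, [⟨0,1,0,-1⟩,⟨-1,-1,-1,-1⟩]), (3, [⟨0,0,0,0⟩,⟨-1,0,-1,-1⟩]), (4, [⟨0,0,0,1⟩])],
   [(2, [⟨0,1,2,2⟩,⟨1,1,0,0⟩]), (3, [⟨-1,-2,-1,-1⟩,⟨1,1,1,1⟩]), (5, [⟨0,1,0,0⟩])],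
   [(2, [⟨-1,-1,-1,-1⟩])],
   [(3, [⟨-1,-1,-1,-1⟩])]],
  [[(0, [⟨1,0,0,0⟩]), (4, [⟨-1,0,1,0⟩])],
   [(1, [⟨1,0,0,0⟩]), (4, [⟨2,1,1,1⟩]), (5, [⟨0,-1,1,0⟩])],
   [(2, [⟨1,0,0,0⟩]), (4, [⟨-1,0,1,0⟩])],
   [(3, [⟨1,0,0,0⟩]), (5, [⟨-1,0,1,0⟩])],
   [(4, [⟨0,0,1,0⟩])],
   [(5, [⟨-1,-1,-1,-1⟩])]],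
  [[(0, [⟨-5,-5,-5,0⟩]), (2, [⟨5,0,0,0⟩]), (4, [⟨0,0,5,0⟩])],
   [(1, [⟨0,-5,-5,0⟩]), (3, [⟨-5,-5,0,-5⟩]), (4, [⟨5,5,0,5⟩]), (5, [⟨5,5,0,5⟩])],
   [(0, [⟨0,0,0,5⟩,⟨-2,1,-1,-3⟩]), (1, [⟨0,0,0,0⟩,⟨-2,1,-1,-3⟩]), (2, [⟨0,-5,-5,-5⟩,⟨-2,1,-1,2⟩]), (3, [⟨0,0,0,0⟩,⟨1,2,-2,4⟩]), (4, [⟨0,0,5,0⟩])],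
   [(0, [⟨0,-5,-5,0⟩,⟨1,2,3,4⟩]), (1, [⟨0,-5,-5,0⟩,⟨1,2,3,4⟩]), (2, [⟨5,5,5,0⟩,⟨1,-3,-2,-1⟩]), (3, [⟨-5,-5,0,0⟩,⟨2,-1,1,-2⟩]), (5, [⟨5,0,0,0⟩])],
   [(0, [⟨0,0,0,5⟩,⟨2,4,1,3⟩]), (1, [⟨0,0,0,0⟩,⟨2,4,1,3⟩]), (2, [⟨5,0,0,0⟩,⟨2,-1,1,3⟩]), (3, [⟨0,0,0,0⟩,⟨4,-2,2,1⟩]), (4, [⟨-5,-5,0,-5⟩])],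
   [(0, [⟨0,-5,-5,-5⟩,⟨-1,-2,2,1⟩]), (1, [⟨0,-5,-5,-5⟩,⟨-1,-2,2,1⟩]), (2, [⟨0,5,5,0⟩,⟨-1,-2,-3,-4⟩]), (3, [⟨0,0,0,5⟩,⟨-2,1,-1,-3⟩]), (5, [⟨0,-5,0,-5⟩])]],
  [[(0, [⟨0,1,0,-1⟩,⟨-1,-1,-1,-1⟩]), (1, [⟨0,0,0,0⟩,⟨-1,0,-1,-1⟩]), (2, [⟨0,0,0,1⟩])],
   [(0, [⟨0,1,2,2⟩,⟨1,1,0,0⟩]), (1, [⟨-1,-2,-1,-1⟩,⟨1,1,1,1⟩]), (3, [⟨0,1,0,0⟩])],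
   [(0, [⟨-1,-1,-1,-1⟩])],
   [(1, [⟨-1,-1,-1,-1⟩])],
   [(4, [⟨-1,-1,-1,-1⟩])],
   [(5, [⟨-1,-1,-1,-1⟩])]],
  [[(0, [⟨1,0,0,0⟩,⟨0,0,0,1⟩]), (1, [⟨0,0,0,0⟩,⟨1,0,0,1⟩])],
   [(0, [⟨1,2,2,0⟩,⟨0,-1,-1,-1⟩]), (1, [⟨0,0,1,0⟩,⟨0,0,0,-1⟩])],
   [(2, [⟨1,1,2,1⟩]), (4, [⟨-1,-1,-1,-1⟩])],
   [(2, [⟨0,1,-1,0⟩]), (3, [⟨0,1,-1,0⟩]), (5, [⟨-1,-1,-1,-1⟩])],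
   [(2, [⟨0,0,1,0⟩])],
   [(3, [⟨1,0,0,0⟩])]],
  [[(0, [⟨1,0,0,0⟩]), (4, [⟨-1,0,1,0⟩,⟨1,0,0,0⟩]), (5, [⟨0,0,0,0⟩,⟨1,0,0,0⟩])],
   [(1, [⟨1,0,0,0⟩]), (4, [⟨-2,-2,-1,0⟩,⟨0,1,1,0⟩]), (5, [⟨-2,-2,-1,0⟩,⟨0,1,1,0⟩])],
   [(2, [⟨1,0,0,0⟩]), (4, [⟨-1,0,1,0⟩,⟨0,0,0,-1⟩]), (5, [⟨0,0,0,0⟩,⟨0,0,0,-1⟩])],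
   [(3, [⟨1,0,0,0⟩]), (4, [⟨-1,-2,-2,0⟩,⟨0,1,1,1⟩]), (5, [⟨-1,-2,-2,0⟩,⟨0,1,1,1⟩])],
   [(4, [⟨0,0,1,0⟩])],
   [(5, [⟨-1,-1,-1,-1⟩])]],
  [[(0, [⟨-5,-5,-5,0⟩,⟨-2,1,-1,-3⟩]), (1, [⟨0,0,0,0⟩,⟨-4,2,-2,-1⟩]), (2, [⟨5,0,0,0⟩,⟨0,0,0,5⟩]), (3, [⟨0,0,0,0⟩,⟨5,0,0,5⟩]), (4, [⟨0,0,5,0⟩,⟨3,1,-1,2⟩]), (5, [⟨0,0,0,0⟩,⟨-2,1,-1,2⟩])],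
   [(0, [⟨0,-5,-5,0⟩,⟨1,2,3,4⟩]), (1, [⟨0,-5,-5,0⟩,⟨2,-1,1,3⟩]), (2, [⟨5,10,10,0⟩,⟨0,-5,-5,-5⟩]), (3, [⟨0,0,5,0⟩,⟨0,0,0,-5⟩]), (4, [⟨-5,-5,0,0⟩,⟨1,2,3,-1⟩]), (5, [⟨5,5,5,0⟩,⟨1,-3,-2,-1⟩])],
   [(0, [⟨0,0,0,5⟩,⟨2,4,1,3⟩]), (1, [⟨0,0,0,0⟩,⟨4,3,2,6⟩]), (2, [⟨0,-5,-5,-5⟩,⟨0,-5,0,0⟩]), (3, [⟨0,0,0,0⟩,⟨0,-5,0,-5⟩]), (4, [⟨0,0,5,0⟩,⟨2,-1,1,-2⟩]), (5, [⟨0,0,0,0⟩,⟨2,-1,1,3⟩])],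
   [(0, [⟨0,-5,-5,-5⟩,⟨-1,-2,2,1⟩]), (1, [⟨5,0,0,0⟩,⟨-2,-4,-1,-3⟩]), (2, [⟨0,10,10,5⟩,⟨0,0,-5,-5⟩]), (3, [⟨-5,-5,0,0⟩,⟨0,5,0,0⟩]), (4, [⟨-5,-5,-5,0⟩,⟨-1,3,2,1⟩]), (5, [⟨0,5,5,0⟩,⟨-1,-2,-3,-4⟩])],
   [(0, [⟨0,0,0,5⟩]), (2, [⟨5,0,0,0⟩]), (4, [⟨-5,-5,0,-5⟩])],
   [(1, [⟨5,0,0,5⟩]), (2, [⟨-5,0,0,-5⟩]), (3, [⟨-5,0,0,-5⟩]), (5, [⟨0,-5,0,-5⟩])]],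
  [[(0, [⟨1,0,-1,0⟩]), (2, [⟨0,0,1,0⟩])],
   [(0, [⟨0,0,1,-1⟩]), (1, [⟨0,0,1,-1⟩]), (3, [⟨1,0,0,0⟩])],
   [(0, [⟨0,0,1,0⟩])],
   [(1, [⟨1,0,0,0⟩])],
   [(4, [⟨1,0,0,0⟩,⟨0,0,0,1⟩]), (5, [⟨0,0,0,0⟩,⟨1,0,0,1⟩])],
   [(4, [⟨1,2,2,0⟩,⟨0,-1,-1,-1⟩]), (5, [⟨0,0,1,0⟩,⟨0,0,0,-1⟩])]],
  [[(0, [⟨-1,-1,-1,-1⟩])],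
   [(1, [⟨-1,-1,-1,-1⟩])],
   [(2, [⟨1,1,2,1⟩,⟨0,0,-1,0⟩]), (3, [⟨0,0,0,0⟩,⟨-1,0,0,0⟩]), (4, [⟨-1,-1,-1,-1⟩])],
   [(2, [⟨-1,-1,1,1⟩,⟨1,1,1,0⟩]), (3, [⟨2,2,1,0⟩,⟨0,-1,-1,0⟩]), (5, [⟨-1,-1,-1,-1⟩])],
   [(2, [⟨0,0,1,0⟩])],
   [(3, [⟨1,0,0,0⟩])]],
  [[(0, [⟨1,0,0,0⟩]), (4, [⟨-1,0,1,0⟩,⟨0,0,0,-1⟩]), (5, [⟨0,0,0,0⟩,⟨-1,0,0,-1⟩])],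
   [(1, [⟨1,0,0,0⟩]), (4, [⟨-1,-2,-2,0⟩,⟨0,1,1,1⟩]), (5, [⟨-1,-1,-2,-1⟩,⟨0,0,0,1⟩])],
   [(2, [⟨1,0,0,0⟩]), (4, [⟨-1,0,1,0⟩])],
   [(3, [⟨1,0,0,0⟩]), (5, [⟨-2,-1,-1,-1⟩])],
   [(4, [⟨0,0,1,0⟩,⟨1,0,0,0⟩]), (5, [⟨0,0,0,0⟩,⟨1,0,1,0⟩])],
   [(4, [⟨-2,-2,-1,0⟩,⟨0,1,1,0⟩]), (5, [⟨-1,-1,-1,-1⟩,⟨-1,0,0,0⟩])]],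
  [[(0, [⟨-5,-5,-5,0⟩]), (2, [⟨5,0,0,0⟩,⟨2,-1,1,3⟩]), (3, [⟨0,0,0,0⟩,⟨2,-1,1,3⟩]), (4, [⟨0,0,5,0⟩,⟨2,-1,1,-2⟩]), (5, [⟨0,0,0,0⟩,⟨-1,-2,2,-4⟩])],
   [(1, [⟨0,-5,-5,0⟩]), (2, [⟨-5,-5,-5,0⟩,⟨-1,3,2,1⟩]), (3, [⟨-5,-5,-5,0⟩,⟨-1,3,2,1⟩]), (4, [⟨5,5,0,0⟩,⟨-1,-2,-3,1⟩]), (5, [⟨0,0,5,0⟩,⟨3,1,-1,2⟩])],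
   [(0, [⟨0,0,0,5⟩]), (2, [⟨0,-5,-5,-5⟩,⟨0,-5,0,0⟩]), (3, [⟨0,0,0,0⟩,⟨0,-5,0,0⟩]), (4, [⟨0,0,5,0⟩,⟨0,0,0,-5⟩]), (5, [⟨0,0,0,0⟩,⟨-5,0,0,-5⟩])],
   [(0, [⟨-5,0,0,-5⟩]), (1, [⟨-5,0,-5,0⟩]), (2, [⟨-5,0,0,5⟩,⟨0,5,0,0⟩]), (3, [⟨-5,-5,0,0⟩,⟨0,5,0,0⟩]), (4, [⟨5,0,-5,0⟩,⟨0,0,0,5⟩]), (5, [⟨5,0,5,0⟩,⟨5,0,0,5⟩])],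
   [(0, [⟨0,0,0,5⟩]), (2, [⟨5,0,0,0⟩,⟨-2,-4,-1,-3⟩]), (3, [⟨0,0,0,0⟩,⟨-2,-4,-1,-3⟩]), (4, [⟨-5,-5,0,-5⟩,⟨-2,1,-1,-3⟩]), (5, [⟨0,0,0,0⟩,⟨-4,2,-2,-1⟩])],
   [(1, [⟨0,0,0,5⟩]), (2, [⟨0,5,5,5⟩,⟨1,2,-2,-1⟩]), (3, [⟨0,5,5,5⟩,⟨1,2,-2,-1⟩]), (4, [⟨0,-5,-5,0⟩,⟨1,2,3,4⟩]), (5, [⟨0,-5,0,-5⟩,⟨2,-1,1,3⟩])]],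
  [[(0, [⟨1,1,2,1⟩,⟨1,0,0,-1⟩]), (1, [⟨0,0,0,0⟩,⟨0,0,1,-1⟩]), (2, [⟨0,0,1,0⟩])],
   [(0, [⟨0,-1,-3,-1⟩,⟨-1,0,0,1⟩]), (1, [⟨2,1,1,1⟩,⟨0,0,-1,1⟩]), (3, [⟨1,0,0,0⟩])],
   [(0, [⟨0,0,1,0⟩,⟨0,0,0,-1⟩]), (1, [⟨0,0,0,0⟩,⟨-1,0,0,-1⟩])],
   [(0, [⟨-1,-2,-2,0⟩,⟨0,1,1,1⟩]), (1, [⟨1,0,0,0⟩,⟨0,0,0,1⟩])],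
   [(4, [⟨1,0,0,0⟩])],
   [(5, [⟨0,0,1,0⟩])]],
  [[(0, [⟨-1,-1,-1,-1⟩])],
   [(1, [⟨-1,-1,-1,-1⟩])],
   [(2, [⟨1,1,2,1⟩,⟨1,0,0,0⟩]), (3, [⟨0,0,0,0⟩,⟨0,0,0,1⟩]), (4, [⟨-1,-1,-1,-1⟩])],
   [(2, [⟨-2,-2,-1,0⟩,⟨0,1,1,0⟩]), (3, [⟨1,2,2,0⟩,⟨0,-1,-1,-1⟩]), (5, [⟨-1,-1,-1,-1⟩])],
   [(2, [⟨0,0,1,0⟩])],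
   [(3, [⟨1,0,0,0⟩])]],
  [[(0, [⟨1,0,0,0⟩]), (4, [⟨1,0,0,-1⟩,⟨0,-1,0,1⟩]), (5, [⟨0,0,0,0⟩,⟨0,0,1,-1⟩])],
   [(1, [⟨1,0,0,0⟩]), (4, [⟨1,4,4,1⟩,⟨0,-1,-2,-2⟩]), (5, [⟨-1,-1,-2,-1⟩,⟨-1,0,0,1⟩])],
   [(2, [⟨1,0,0,0⟩]), (4, [⟨-1,0,1,0⟩])],
   [(3, [⟨1,0,0,0⟩]), (4, [⟨2,1,1,1⟩]), (5, [⟨0,-1,1,0⟩])],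
   [(4, [⟨0,0,1,0⟩])],
   [(5, [⟨-1,-1,-1,-1⟩])]],
  [[(0, [⟨-5,-5,-5,0⟩,⟨-2,1,-1,-3⟩]), (1, [⟨0,0,0,0⟩,⟨-4,2,-2,-1⟩]), (2, [⟨0,0,0,5⟩,⟨-2,6,-1,2⟩]), (3, [⟨0,0,0,0⟩,⟨-2,1,-1,-3⟩]), (4, [⟨5,0,0,0⟩,⟨0,0,0,5⟩]), (5, [⟨0,0,0,0⟩,⟨5,0,0,5⟩])],
   [(0, [⟨0,-5,-5,0⟩,⟨1,2,3,4⟩]), (1, [⟨0,-5,-5,0⟩,⟨2,-1,1,3⟩]), (2, [⟨5,-5,-5,-5⟩,⟨1,-3,3,4⟩]), (3, [⟨0,-5,-5,0⟩,⟨1,2,3,4⟩]), (4, [⟨5,10,10,0⟩,⟨0,-5,-5,-5⟩]), (5, [⟨0,0,5,0⟩,⟨0,0,0,-5⟩])],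
   [(0, [⟨5,0,0,0⟩]), (2, [⟨0,-5,-5,-5⟩,⟨0,0,0,5⟩]), (3, [⟨0,0,0,0⟩,⟨0,5,0,0⟩]), (4, [⟨0,0,5,0⟩])],
   [(1, [⟨-5,-5,0,-5⟩]), (2, [⟨-5,-5,-10,-5⟩,⟨-5,0,0,0⟩]), (3, [⟨-5,-5,0,0⟩,⟨0,0,0,-5⟩]), (4, [⟨5,5,0,5⟩]), (5, [⟨5,5,0,5⟩])],
   [(0, [⟨5,0,0,0⟩,⟨2,-1,1,3⟩]), (1, [⟨0,0,0,0⟩,⟨4,-2,2,1⟩]), (2, [⟨5,0,0,0⟩,⟨2,-1,1,3⟩]), (3, [⟨0,0,0,0⟩,⟨2,4,1,3⟩]), (4, [⟨-5,-5,0,-5⟩])],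
   [(0, [⟨0,5,5,0⟩,⟨-1,-2,-3,-4⟩]), (1, [⟨0,0,0,5⟩,⟨-2,1,-1,-3⟩]), (2, [⟨0,-5,-5,-5⟩,⟨-1,-2,2,1⟩]), (3, [⟨0,0,5,5⟩,⟨4,3,2,1⟩]), (5, [⟨0,-5,0,-5⟩])]],
  [[(0, [⟨-1,0,0,1⟩]), (2, [⟨0,0,1,0⟩,⟨0,0,0,-1⟩]), (3, [⟨0,0,0,0⟩,⟨-1,0,0,-1⟩])],
   [(1, [⟨-1,0,0,1⟩]), (2, [⟨-1,-2,-2,0⟩,⟨0,1,1,1⟩]), (3, [⟨1,0,0,0⟩,⟨0,0,0,1⟩])],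
   [(0, [⟨0,0,0,1⟩])],
   [(1, [⟨0,0,0,1⟩])],
   [(4, [⟨1,0,0,0⟩])],
   [(5, [⟨0,0,1,0⟩])]],
  [[(0, [⟨1,0,0,0⟩])],
   [(1, [⟨0,0,1,0⟩])],
   [(2, [⟨1,1,2,1⟩,⟨1,0,0,-1⟩]), (3, [⟨0,0,0,0⟩,⟨0,0,1,-1⟩]), (4, [⟨-1,-1,-1,-1⟩])],
   [(2, [⟨0,-1,-3,-1⟩,⟨-1,0,0,1⟩]), (3, [⟨2,1,1,1⟩,⟨0,0,-1,1⟩]), (5, [⟨-1,-1,-1,-1⟩])],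
   [(2, [⟨0,0,1,0⟩,⟨0,0,0,-1⟩]), (3, [⟨0,0,0,0⟩,⟨-1,0,0,-1⟩])],
   [(2, [⟨-1,-2,-2,0⟩,⟨0,1,1,1⟩]), (3, [⟨1,0,0,0⟩,⟨0,0,0,1⟩])]],
  [[(0, [⟨1,0,0,0⟩]), (4, [⟨-1,-1,-2,-1⟩,⟨-1,0,0,0⟩]), (5, [⟨0,0,0,0⟩,⟨0,0,-1,0⟩])],
   [(1, [⟨1,0,0,0⟩]), (4, [⟨2,2,1,0⟩,⟨0,-1,-1,0⟩]), (5, [⟨-1,-1,1,1⟩,⟨1,1,1,0⟩])],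
   [(2, [⟨1,0,0,0⟩]), (4, [⟨-1,0,1,0⟩,⟨1,0,0,0⟩]), (5, [⟨0,0,0,0⟩,⟨1,0,0,0⟩])],
   [(3, [⟨1,0,0,0⟩]), (4, [⟨-2,-2,-1,0⟩,⟨0,1,1,0⟩]), (5, [⟨-2,-2,-1,0⟩,⟨0,1,1,0⟩])],
   [(4, [⟨0,0,1,0⟩])],
   [(5, [⟨-1,-1,-1,-1⟩])]],
  [[(0, [⟨-5,-5,-5,0⟩]), (2, [⟨0,0,5,0⟩,⟨2,-1,1,-2⟩]), (3, [⟨0,0,0,0⟩,⟨-1,-2,2,-4⟩]), (4, [⟨-5,-5,-5,-5⟩,⟨-3,-1,1,-2⟩]), (5, [⟨0,0,0,0⟩,⟨-3,-1,1,-2⟩])],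
   [(1, [⟨0,-5,-5,0⟩]), (2, [⟨5,5,0,0⟩,⟨-1,-2,-3,1⟩]), (3, [⟨0,0,5,0⟩,⟨3,1,-1,2⟩]), (4, [⟨5,5,0,0⟩,⟨-1,-2,-3,1⟩]), (5, [⟨5,5,0,0⟩,⟨-1,-2,-3,1⟩])],
   [(0, [⟨0,5,0,0⟩,⟨-5,-5,-5,-5⟩]), (1, [⟨0,0,0,0⟩,⟨0,5,0,5⟩]), (2, [⟨0,-5,-5,-5⟩,⟨-7,-9,-1,7⟩,⟨5,10,5,5⟩]), (3, [⟨0,0,0,0⟩,⟨1,-8,-2,-6⟩,⟨5,5,5,10⟩]), (4, [⟨0,0,5,0⟩,⟨3,1,-1,2⟩]), (5, [⟨0,0,0,0⟩,⟨-2,1,-1,2⟩])],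
   [(0, [⟨0,5,10,10⟩,⟨5,5,0,0⟩]), (1, [⟨5,0,0,0⟩,⟨0,-5,0,0⟩]), (2, [⟨15,25,20,5⟩,⟨1,-23,-32,-21⟩,⟨-5,-5,5,5⟩]), (3, [⟨-5,-5,0,0⟩,⟨7,9,1,-7⟩,⟨-5,-10,-5,-5⟩]), (4, [⟨-5,-5,0,0⟩,⟨1,2,3,-1⟩]), (5, [⟨5,5,5,0⟩,⟨1,-3,-2,-1⟩])],
   [(0, [⟨0,5,0,0⟩]), (2, [⟨5,0,0,0⟩,⟨0,-5,0,0⟩]), (3, [⟨0,0,0,0⟩,⟨0,-5,0,-5⟩]), (4, [⟨-5,-5,0,-5⟩])],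
   [(0, [⟨5,0,5,5⟩]), (1, [⟨0,-5,0,-5⟩]), (2, [⟨0,5,0,-5⟩,⟨-5,-5,-5,-5⟩]), (3, [⟨0,5,0,5⟩,⟨-5,0,-5,-5⟩]), (5, [⟨0,-5,0,-5⟩])]],
  [[(0, [⟨-1,-2,-1,-1⟩,⟨0,0,1,0⟩]), (1, [⟨0,0,0,0⟩,⟨0,0,1,0⟩]), (2, [⟨-1,-1,-1,-1⟩])],
   [(0, [⟨1,1,-1,-1⟩,⟨-1,-1,-1,0⟩]), (1, [⟨1,1,-1,-1⟩,⟨-1,-1,-1,0⟩]), (3, [⟨-1,-1,-1,-1⟩])],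
   [(0, [⟨-1,-1,-1,-1⟩])],
   [(1, [⟨-1,-1,-1,-1⟩])],
   [(4, [⟨-1,-1,-1,-1⟩])],
   [(5, [⟨-1,-1,-1,-1⟩])]],
  [[(0, [⟨1,0,0,0⟩])],
   [(1, [⟨0,0,1,0⟩])],
   [(2, [⟨-1,0,0,1⟩]), (4, [⟨0,0,1,0⟩,⟨0,0,0,-1⟩]), (5, [⟨0,0,0,0⟩,⟨-1,0,0,-1⟩])],
   [(3, [⟨-1,0,0,1⟩]), (4, [⟨-1,-2,-2,0⟩,⟨0,1,1,1⟩]), (5, [⟨1,0,0,0⟩,⟨0,0,0,1⟩])],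
   [(2, [⟨0,0,0,1⟩])],
   [(3, [⟨0,0,0,1⟩])]]]

def mats1 : List SM := [
  [[(0, [⟨1,0,0,0⟩]), (4, [⟨-1,0,1,0⟩])],
   [(1, [⟨1,0,0,0⟩]), (5, [⟨-2,-1,-1,-1⟩])],
   [(2, [⟨1,0,0,0⟩]), (4, [⟨-1,-1,-2,-1⟩,⟨-1,0,0,0⟩]), (5, [⟨0,0,0,0⟩,⟨-1,0,-1,0⟩])],
   [(3, [⟨1,0,0,0⟩]), (4, [⟨2,2,1,0⟩,⟨0,-1,-1,0⟩]), (5, [⟨-1,0,1,0⟩,⟨1,0,0,0⟩])],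
   [(4, [⟨0,0,1,0⟩,⟨1,0,0,0⟩]), (5, [⟨0,0,0,0⟩,⟨1,0,1,0⟩])],
   [(4, [⟨-2,-2,-1,0⟩,⟨0,1,1,0⟩]), (5, [⟨-1,-1,-1,-1⟩,⟨-1,0,0,0⟩])]],
  [[(0, [⟨-5,-5,-5,0⟩]), (2, [⟨0,0,0,5⟩]), (4, [⟨0,0,5,0⟩,⟨0,0,0,-5⟩]), (5, [⟨0,0,0,0⟩,⟨-5,0,0,-5⟩])],
   [(1, [⟨0,-5,-5,0⟩]), (2, [⟨-5,0,0,-5⟩]), (3, [⟨-5,0,-5,0⟩]), (4, [⟨5,0,-5,0⟩,⟨0,0,0,5⟩]), (5, [⟨5,0,5,0⟩,⟨5,0,0,5⟩])],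
   [(0, [⟨5,0,0,0⟩,⟨2,-1,1,3⟩]), (1, [⟨0,0,0,0⟩,⟨2,-1,1,-2⟩]), (2, [⟨0,-5,-5,-5⟩,⟨0,0,0,5⟩]), (3, [⟨0,0,0,0⟩,⟨5,0,0,5⟩]), (4, [⟨-5,-5,-5,-5⟩,⟨-3,-1,1,-2⟩]), (5, [⟨0,0,0,0⟩,⟨-6,-2,-3,-4⟩])],
   [(0, [⟨0,5,5,0⟩,⟨-1,-2,-3,-4⟩]), (1, [⟨-5,-5,-5,0⟩,⟨-1,3,2,1⟩]), (2, [⟨5,10,10,0⟩,⟨0,-5,-5,-5⟩]), (3, [⟨-5,-5,0,0⟩,⟨0,0,0,-5⟩]), (4, [⟨0,-5,-10,0⟩,⟨-1,3,2,6⟩]), (5, [⟨5,0,0,0⟩,⟨3,1,-1,7⟩])],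
   [(0, [⟨0,0,0,5⟩,⟨-2,1,-1,-3⟩]), (1, [⟨0,0,0,0⟩,⟨-2,1,-1,-3⟩]), (2, [⟨0,0,0,5⟩]), (4, [⟨-5,-5,0,-5⟩,⟨-2,1,-1,-3⟩]), (5, [⟨0,0,0,0⟩,⟨-4,2,-2,-1⟩])],
   [(0, [⟨0,-5,-5,0⟩,⟨1,2,3,4⟩]), (1, [⟨0,-5,-5,0⟩,⟨1,2,3,4⟩]), (3, [⟨0,0,0,5⟩]), (4, [⟨0,-5,-5,0⟩,⟨1,2,3,4⟩]), (5, [⟨0,-5,0,-5⟩,⟨2,-1,1,3⟩])]],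
  [[(0, [⟨1,0,0,0⟩]), (2, [⟨-1,0,1,0⟩])],
   [(1, [⟨1,0,0,0⟩]), (3, [⟨-2,-1,-1,-1⟩])],
   [(2, [⟨0,0,1,0⟩,⟨1,0,0,0⟩]), (3, [⟨0,0,0,0⟩,⟨1,0,1,0⟩])],
   [(2, [⟨-2,-2,-1,0⟩,⟨0,1,1,0⟩]), (3, [⟨-1,-1,-1,-1⟩,⟨-1,0,0,0⟩])],
   [(2, [⟨-1,0,1,0⟩,⟨0,0,0,-1⟩]), (3, [⟨0,0,0,0⟩,⟨-1,0,0,-1⟩]), (4, [⟨1,0,0,0⟩])],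
   [(2, [⟨-1,-2,-2,0⟩,⟨0,1,1,1⟩]), (3, [⟨-1,-1,-2,-1⟩,⟨0,0,0,1⟩]), (5, [⟨1,0,0,0⟩])]],
  [[(0, [⟨1,0,0,0⟩])],
   [(1, [⟨1,0,0,0⟩])],
   [(2, [⟨1,0,0,0⟩])],
   [(3, [⟨1,0,0,0⟩])],
   [(4, [⟨0,0,1,0⟩])],
   [(5, [⟨0,0,1,0⟩])]],
  [[(0, [⟨1,0,0,0⟩])],
   [(1, [⟨1,0,0,0⟩])],
   [(2, [⟨1,0,0,0⟩])],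
   [(3, [⟨1,0,0,0⟩])],
   [(4, [⟨1,0,0,0⟩])],
   [(5, [⟨1,0,0,0⟩])]],
  [[(0, [⟨1,0,0,0⟩]), (2, [⟨-1,0,1,0⟩])],
   [(1, [⟨1,0,0,0⟩]), (3, [⟨-1,0,1,0⟩])],
   [(2, [⟨0,0,1,0⟩])],
   [(3, [⟨-1,-1,-1,-1⟩])],
   [(2, [⟨-1,0,1,0⟩]), (4, [⟨1,0,0,0⟩])],
   [(2, [⟨2,1,1,1⟩]), (3, [⟨0,-1,1,0⟩]), (5, [⟨1,0,0,0⟩])]],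
  [[(0, [⟨1,0,0,0⟩]), (2, [⟨-1,0,1,0⟩,⟨0,0,0,-1⟩]), (3, [⟨0,0,0,0⟩,⟨0,0,0,-1⟩])],
   [(1, [⟨1,0,0,0⟩]), (2, [⟨-1,-2,-2,0⟩,⟨0,1,1,1⟩]), (3, [⟨-1,-2,-2,0⟩,⟨0,1,1,1⟩])],
   [(2, [⟨0,0,1,0⟩])],
   [(3, [⟨-1,-1,-1,-1⟩])],
   [(2, [⟨-1,0,1,0⟩,⟨1,0,0,0⟩]), (3, [⟨0,0,0,0⟩,⟨1,0,0,0⟩]), (4, [⟨1,0,0,0⟩])],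
   [(2, [⟨-2,-2,-1,0⟩,⟨0,1,1,0⟩]), (3, [⟨-2,-2,-1,0⟩,⟨0,1,1,0⟩]), (5, [⟨1,0,0,0⟩])]],
  [[(0, [⟨1,0,0,0⟩]), (2, [⟨1,0,0,-1⟩,⟨0,0,0,1⟩]), (3, [⟨0,0,0,0⟩,⟨0,1,0,0⟩])],
   [(1, [⟨1,0,0,0⟩]), (2, [⟨1,2,2,0⟩,⟨0,-1,-1,-1⟩]), (3, [⟨0,-2,-2,-1⟩,⟨0,0,1,1⟩])],
   [(2, [⟨0,0,1,0⟩])],
   [(3, [⟨-1,-1,-1,-1⟩])],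
   [(2, [⟨-1,0,1,0⟩,⟨0,0,0,-1⟩]), (3, [⟨0,0,0,0⟩,⟨0,0,0,-1⟩]), (4, [⟨1,0,0,0⟩])],
   [(2, [⟨-1,-2,-2,0⟩,⟨0,1,1,1⟩]), (3, [⟨-1,-2,-2,0⟩,⟨0,1,1,1⟩]), (5, [⟨1,0,0,0⟩])]],
  [[(0, [⟨1,0,0,0⟩]), (2, [⟨-1,-1,-2,-1⟩,⟨-1,0,0,0⟩]), (3, [⟨0,0,0,0⟩,⟨-1,0,-1,0⟩])],
   [(1, [⟨1,0,0,0⟩]), (2, [⟨2,2,1,0⟩,⟨0,-1,-1,0⟩]), (3, [⟨-1,0,1,0⟩,⟨1,0,0,0⟩])],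
   [(2, [⟨0,0,1,0⟩,⟨1,0,0,0⟩]), (3, [⟨0,0,0,0⟩,⟨1,0,1,0⟩])],
   [(2, [⟨-2,-2,-1,0⟩,⟨0,1,1,0⟩]), (3, [⟨-1,-1,-1,-1⟩,⟨-1,0,0,0⟩])],
   [(2, [⟨-1,0,1,0⟩]), (4, [⟨1,0,0,0⟩])],
   [(3, [⟨-2,-1,-1,-1⟩]), (5, [⟨1,0,0,0⟩])]],
  [[(0, [⟨1,0,0,0⟩]), (2, [⟨1,0,0,-1⟩])],
   [(1, [⟨1,0,0,0⟩]), (2, [⟨-1,1,0,0⟩]), (3, [⟨0,0,-1,1⟩])],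
   [(2, [⟨0,0,1,0⟩])],
   [(3, [⟨-1,-1,-1,-1⟩])],
   [(2, [⟨1,0,0,-1⟩,⟨0,-1,0,1⟩]), (3, [⟨0,0,0,0⟩,⟨0,0,1,-1⟩]), (4, [⟨1,0,0,0⟩])],
   [(2, [⟨1,4,4,1⟩,⟨0,-1,-2,-2⟩]), (3, [⟨-1,-1,-2,-1⟩,⟨-1,0,0,1⟩]), (5, [⟨1,0,0,0⟩])]],
  [[(0, [⟨0,-5,-5,-5⟩,⟨0,-5,0,0⟩]), (1, [⟨0,0,0,0⟩,⟨0,-5,0,0⟩]), (2, [⟨0,0,5,0⟩,⟨0,0,0,-5⟩]), (3, [⟨0,0,0,0⟩,⟨-5,0,0,-5⟩]), (4, [⟨0,0,0,5⟩])],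
   [(0, [⟨-5,0,0,5⟩,⟨0,5,0,0⟩]), (1, [⟨-5,-5,0,0⟩,⟨0,5,0,0⟩]), (2, [⟨5,0,-5,0⟩,⟨0,0,0,5⟩]), (3, [⟨5,0,5,0⟩,⟨5,0,0,5⟩]), (4, [⟨-5,0,0,-5⟩]), (5, [⟨-5,0,-5,0⟩])],
   [(0, [⟨5,0,0,0⟩,⟨-2,-4,-1,-3⟩]), (1, [⟨0,0,0,0⟩,⟨-2,-4,-1,-3⟩]), (2, [⟨-5,-5,0,-5⟩,⟨-2,1,-1,-3⟩]), (3, [⟨0,0,0,0⟩,⟨-4,2,-2,-1⟩]), (4, [⟨0,0,0,5⟩])],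
   [(0, [⟨0,5,5,5⟩,⟨1,2,-2,-1⟩]), (1, [⟨0,5,5,5⟩,⟨1,2,-2,-1⟩]), (2, [⟨0,-5,-5,0⟩,⟨1,2,3,4⟩]), (3, [⟨0,-5,0,-5⟩,⟨2,-1,1,3⟩]), (5, [⟨0,0,0,5⟩])],
   [(0, [⟨5,0,0,0⟩,⟨2,-1,1,3⟩]), (1, [⟨0,0,0,0⟩,⟨2,-1,1,3⟩]), (2, [⟨0,0,5,0⟩,⟨2,-1,1,-2⟩]), (3, [⟨0,0,0,0⟩,⟨-1,-2,2,-4⟩]), (4, [⟨-5,-5,-5,0⟩])],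
   [(0, [⟨-5,-5,-5,0⟩,⟨-1,3,2,1⟩]), (1, [⟨-5,-5,-5,0⟩,⟨-1,3,2,1⟩]), (2, [⟨5,5,0,0⟩,⟨-1,-2,-3,1⟩]), (3, [⟨0,0,5,0⟩,⟨3,1,-1,2⟩]), (5, [⟨0,-5,-5,0⟩])]],
  [[(0, [⟨1,0,0,0⟩])],
   [(1, [⟨1,0,0,0⟩])],
   [(2, [⟨1,0,0,0⟩])],
   [(3, [⟨1,0,0,0⟩])],
   [(0, [⟨1,2,1,1⟩,⟨0,0,-1,0⟩]), (1, [⟨0,0,0,0⟩,⟨0,0,-1,0⟩]), (2, [⟨0,-1,0,1⟩,⟨1,1,1,1⟩]), (3, [⟨0,0,0,0⟩,⟨1,0,1,1⟩]), (4, [⟨-1,-1,-1,-1⟩])],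
   [(0, [⟨0,-1,-2,-2⟩,⟨-1,-1,0,0⟩]), (1, [⟨0,-1,-2,-2⟩,⟨-1,-1,0,0⟩]), (2, [⟨0,2,2,1⟩,⟨0,0,-1,-1⟩]), (3, [⟨0,-1,0,1⟩,⟨0,1,0,0⟩]), (5, [⟨0,1,0,0⟩])]],
  [[(0, [⟨0,-5,-5,-5⟩,⟨-2,1,-1,2⟩]), (1, [⟨0,0,0,0⟩,⟨1,2,-2,4⟩]), (2, [⟨0,0,5,0⟩]), (4, [⟨0,0,0,5⟩,⟨-2,1,-1,-3⟩]), (5, [⟨0,0,0,0⟩,⟨-2,1,-1,-3⟩])],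
   [(0, [⟨5,5,5,0⟩,⟨1,-3,-2,-1⟩]), (1, [⟨-5,-5,0,0⟩,⟨2,-1,1,-2⟩]), (3, [⟨5,0,0,0⟩]), (4, [⟨0,-5,-5,0⟩,⟨1,2,3,4⟩]), (5, [⟨0,-5,-5,0⟩,⟨1,2,3,4⟩])],
   [(0, [⟨5,0,0,0⟩,⟨2,-1,1,3⟩]), (1, [⟨0,0,0,0⟩,⟨4,-2,2,1⟩]), (2, [⟨-5,-5,0,-5⟩]), (4, [⟨0,0,0,5⟩,⟨2,4,1,3⟩]), (5, [⟨0,0,0,0⟩,⟨2,4,1,3⟩])],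
   [(0, [⟨0,5,5,0⟩,⟨-1,-2,-3,-4⟩]), (1, [⟨0,0,0,5⟩,⟨-2,1,-1,-3⟩]), (3, [⟨0,-5,0,-5⟩]), (4, [⟨0,-5,-5,-5⟩,⟨-1,-2,2,1⟩]), (5, [⟨0,-5,-5,-5⟩,⟨-1,-2,2,1⟩])],
   [(0, [⟨5,0,0,0⟩]), (2, [⟨0,0,5,0⟩]), (4, [⟨-5,-5,-5,0⟩])],
   [(1, [⟨-5,-5,0,-5⟩]), (2, [⟨5,5,0,5⟩]), (3, [⟨5,5,0,5⟩]), (5, [⟨0,-5,-5,0⟩])]],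
  [[(0, [⟨1,0,0,0⟩])],
   [(1, [⟨1,0,0,0⟩])],
   [(2, [⟨1,0,0,0⟩])],
   [(3, [⟨1,0,0,0⟩])],
   [(0, [⟨1,2,1,1⟩]), (2, [⟨0,-1,0,1⟩]), (4, [⟨-1,-1,-1,-1⟩])],
   [(1, [⟨1,-1,0,0⟩]), (2, [⟨-1,1,0,0⟩]), (3, [⟨-1,1,0,0⟩]), (5, [⟨0,1,0,0⟩])]],
  [[(0, [⟨0,-5,-5,-5⟩,⟨0,-5,0,0⟩]), (1, [⟨0,0,0,0⟩,⟨0,-5,0,-5⟩]), (2, [⟨0,0,5,0⟩,⟨2,-1,1,-2⟩]), (3, [⟨0,0,0,0⟩,⟨2,-1,1,3⟩]), (4, [⟨0,0,0,5⟩,⟨2,4,1,3⟩]), (5, [⟨0,0,0,0⟩,⟨4,3,2,6⟩])],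
   [(0, [⟨0,10,10,5⟩,⟨0,0,-5,-5⟩]), (1, [⟨-5,-5,0,0⟩,⟨0,5,0,0⟩]), (2, [⟨-5,-5,-5,0⟩,⟨-1,3,2,1⟩]), (3, [⟨0,5,5,0⟩,⟨-1,-2,-3,-4⟩]), (4, [⟨0,-5,-5,-5⟩,⟨-1,-2,2,1⟩]), (5, [⟨5,0,0,0⟩,⟨-2,-4,-1,-3⟩])],
   [(0, [⟨5,0,0,0⟩]), (2, [⟨-5,-5,0,-5⟩]), (4, [⟨0,0,0,5⟩])],
   [(0, [⟨-5,0,0,-5⟩]), (1, [⟨-5,0,0,-5⟩]), (3, [⟨0,-5,0,-5⟩]), (5, [⟨5,0,0,5⟩])],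
   [(0, [⟨5,0,0,0⟩,⟨0,0,0,5⟩]), (1, [⟨0,0,0,0⟩,⟨5,0,0,5⟩]), (2, [⟨0,0,5,0⟩,⟨3,1,-1,2⟩]), (3, [⟨0,0,0,0⟩,⟨-2,1,-1,2⟩]), (4, [⟨-5,-5,-5,0⟩,⟨-2,1,-1,-3⟩]), (5, [⟨0,0,0,0⟩,⟨-4,2,-2,-1⟩])],
   [(0, [⟨5,10,10,0⟩,⟨0,-5,-5,-5⟩]), (1, [⟨0,0,5,0⟩,⟨0,0,0,-5⟩]), (2, [⟨-5,-5,0,0⟩,⟨1,2,3,-1⟩]), (3, [⟨5,5,5,0⟩,⟨1,-3,-2,-1⟩]), (4, [⟨0,-5,-5,0⟩,⟨1,2,3,4⟩]), (5, [⟨0,-5,-5,0⟩,⟨2,-1,1,3⟩])]],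
  [[(0, [⟨1,0,0,0⟩])],
   [(1, [⟨1,0,0,0⟩])],
   [(2, [⟨1,0,0,0⟩])],
   [(3, [⟨1,0,0,0⟩])],
   [(0, [⟨1,2,1,1⟩,⟨-1,-1,-2,-1⟩]), (1, [⟨0,0,0,0⟩,⟨0,1,-1,0⟩]), (2, [⟨0,-1,0,1⟩,⟨0,1,0,0⟩]), (3, [⟨0,0,0,0⟩,⟨-1,-1,-1,-1⟩]), (4, [⟨-1,-1,-1,-1⟩,⟨0,0,1,0⟩]), (5, [⟨0,0,0,0⟩,⟨-1,-1,0,-1⟩])],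
   [(0, [⟨-1,0,3,3⟩,⟨2,2,1,0⟩]), (1, [⟨0,-1,0,1⟩,⟨1,1,2,1⟩]), (2, [⟨0,-2,-2,-1⟩,⟨0,0,1,1⟩]), (3, [⟨0,1,2,2⟩,⟨1,1,0,0⟩]), (4, [⟨1,1,-1,-1⟩,⟨-1,-1,-1,0⟩]), (5, [⟨0,1,0,0⟩,⟨0,0,-1,0⟩])]],
  [[(0, [⟨0,-5,-5,-5⟩,⟨-7,-9,-1,7⟩,⟨5,10,5,5⟩]), (1, [⟨0,0,0,0⟩,⟨1,-8,-2,-6⟩,⟨5,5,5,10⟩]), (2, [⟨5,0,0,0⟩,⟨-2,1,-1,2⟩]), (3, [⟨0,0,0,0⟩,⟨-2,-4,-1,-3⟩]), (4, [⟨0,5,0,0⟩,⟨-5,-5,-5,-5⟩]), (5, [⟨0,0,0,0⟩,⟨0,5,0,5⟩])],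
   [(0, [⟨15,25,20,5⟩,⟨1,-23,-32,-21⟩,⟨-5,-5,5,5⟩]), (1, [⟨-5,-5,0,0⟩,⟨7,9,1,-7⟩,⟨-5,-10,-5,-5⟩]), (2, [⟨5,5,5,0⟩,⟨1,-3,-2,-1⟩]), (3, [⟨0,5,5,5⟩,⟨1,2,-2,-1⟩]), (4, [⟨0,5,10,10⟩,⟨5,5,0,0⟩]), (5, [⟨5,0,0,0⟩,⟨0,-5,0,0⟩])],
   [(0, [⟨0,0,5,0⟩,⟨0,0,0,-5⟩]), (1, [⟨0,0,0,0⟩,⟨-5,0,0,-5⟩]), (2, [⟨-5,-5,0,-5⟩]), (4, [⟨0,0,0,5⟩])],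
   [(0, [⟨5,0,-5,0⟩,⟨0,0,0,5⟩]), (1, [⟨5,0,5,0⟩,⟨5,0,0,5⟩]), (3, [⟨0,-5,0,-5⟩]), (4, [⟨-5,0,0,-5⟩]), (5, [⟨-5,0,-5,0⟩])],
   [(0, [⟨0,0,5,0⟩,⟨2,-1,1,-2⟩]), (1, [⟨0,0,0,0⟩,⟨-1,-2,2,-4⟩]), (2, [⟨0,0,5,0⟩,⟨2,-1,1,-2⟩]), (3, [⟨0,0,0,0⟩,⟨2,-1,1,3⟩]), (4, [⟨-5,-5,-5,0⟩])],
   [(0, [⟨5,5,0,0⟩,⟨-1,-2,-3,1⟩]), (1, [⟨0,0,5,0⟩,⟨3,1,-1,2⟩]), (2, [⟨-5,-5,-5,0⟩,⟨-1,3,2,1⟩]), (3, [⟨0,5,5,0⟩,⟨-1,-2,-3,-4⟩]), (5, [⟨0,-5,-5,0⟩])]],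
  [[(0, [⟨1,0,0,0⟩])],
   [(1, [⟨1,0,0,0⟩])],
   [(2, [⟨1,0,0,0⟩])],
   [(3, [⟨1,0,0,0⟩])],
   [(0, [⟨0,-1,0,1⟩,⟨1,1,1,1⟩]), (1, [⟨0,0,0,0⟩,⟨1,0,1,1⟩]), (2, [⟨0,-1,0,1⟩,⟨1,1,1,1⟩]), (3, [⟨0,0,0,0⟩,⟨0,0,-1,0⟩]), (4, [⟨-1,-1,-1,-1⟩])],
   [(0, [⟨0,2,2,1⟩,⟨0,0,-1,-1⟩]), (1, [⟨0,-1,0,1⟩,⟨0,1,0,0⟩]), (2, [⟨0,-1,-2,-2⟩,⟨-1,-1,0,0⟩]), (3, [⟨-1,-1,1,1⟩,⟨1,1,1,0⟩]), (5, [⟨0,1,0,0⟩])]],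
  [[(0, [⟨0,-5,-5,-5⟩,⟨0,0,0,5⟩]), (1, [⟨0,0,0,0⟩,⟨5,0,0,5⟩]), (2, [⟨-5,-5,-5,-5⟩,⟨-3,-1,1,-2⟩]), (3, [⟨0,0,0,0⟩,⟨-6,-2,-3,-4⟩]), (4, [⟨5,0,0,0⟩,⟨2,-1,1,3⟩]), (5, [⟨0,0,0,0⟩,⟨2,-1,1,-2⟩])],
   [(0, [⟨5,10,10,0⟩,⟨0,-5,-5,-5⟩]), (1, [⟨-5,-5,0,0⟩,⟨0,0,0,-5⟩]), (2, [⟨0,-5,-10,0⟩,⟨-1,3,2,6⟩]), (3, [⟨5,0,0,0⟩,⟨3,1,-1,7⟩]), (4, [⟨0,5,5,0⟩,⟨-1,-2,-3,-4⟩]), (5, [⟨-5,-5,-5,0⟩,⟨-1,3,2,1⟩])],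
   [(0, [⟨0,0,0,5⟩]), (2, [⟨-5,-5,0,-5⟩,⟨-2,1,-1,-3⟩]), (3, [⟨0,0,0,0⟩,⟨-4,2,-2,-1⟩]), (4, [⟨0,0,0,5⟩,⟨-2,1,-1,-3⟩]), (5, [⟨0,0,0,0⟩,⟨-2,1,-1,-3⟩])],
   [(1, [⟨0,0,0,5⟩]), (2, [⟨0,-5,-5,0⟩,⟨1,2,3,4⟩]), (3, [⟨0,-5,0,-5⟩,⟨2,-1,1,3⟩]), (4, [⟨0,-5,-5,0⟩,⟨1,2,3,4⟩]), (5, [⟨0,-5,-5,0⟩,⟨1,2,3,4⟩])],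
   [(0, [⟨0,0,0,5⟩]), (2, [⟨0,0,5,0⟩,⟨0,0,0,-5⟩]), (3, [⟨0,0,0,0⟩,⟨-5,0,0,-5⟩]), (4, [⟨-5,-5,-5,0⟩])],
   [(0, [⟨-5,0,0,-5⟩]), (1, [⟨-5,0,-5,0⟩]), (2, [⟨5,0,-5,0⟩,⟨0,0,0,5⟩]), (3, [⟨5,0,5,0⟩,⟨5,0,0,5⟩]), (5, [⟨0,-5,-5,0⟩])]],
  [[(0, [⟨1,0,0,0⟩])],
   [(1, [⟨1,0,0,0⟩])],
   [(2, [⟨1,0,0,0⟩])],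
   [(3, [⟨1,0,0,0⟩])],
   [(0, [⟨-1,-1,-2,-1⟩]), (2, [⟨0,-1,0,1⟩,⟨1,1,2,1⟩]), (3, [⟨0,0,0,0⟩,⟨0,-1,1,0⟩]), (4, [⟨-1,-1,-1,-1⟩])],
   [(0, [⟨0,-1,1,0⟩]), (1, [⟨-1,-1,-1,-2⟩]), (2, [⟨1,3,1,0⟩,⟨-1,-1,-2,-1⟩]), (3, [⟨1,1,1,2⟩,⟨0,1,-1,0⟩]), (5, [⟨0,1,0,0⟩])]],
  [[(0, [⟨0,-5,-5,-5⟩,⟨0,0,0,5⟩]), (1, [⟨0,0,0,0⟩,⟨0,0,0,5⟩]), (2, [⟨5,0,0,0⟩]), (4, [⟨0,0,0,5⟩])],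
   [(0, [⟨-5,0,5,0⟩,⟨0,0,0,-5⟩]), (1, [⟨-5,-5,0,0⟩,⟨0,0,0,-5⟩]), (2, [⟨-5,0,0,-5⟩]), (3, [⟨-5,0,0,-5⟩]), (5, [⟨5,0,0,5⟩])],
   [(0, [⟨0,0,5,0⟩,⟨2,-1,1,-2⟩]), (1, [⟨0,0,0,0⟩,⟨2,-1,1,-2⟩]), (2, [⟨-5,-5,0,-5⟩]), (4, [⟨5,0,0,0⟩,⟨2,-1,1,3⟩]), (5, [⟨0,0,0,0⟩,⟨4,-2,2,1⟩])],
   [(0, [⟨0,5,5,0⟩,⟨-1,-2,-3,-4⟩]), (1, [⟨0,5,5,0⟩,⟨-1,-2,-3,-4⟩]), (3, [⟨0,-5,0,-5⟩]), (4, [⟨0,5,5,0⟩,⟨-1,-2,-3,-4⟩]), (5, [⟨0,0,0,5⟩,⟨-2,1,-1,-3⟩])],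
   [(0, [⟨5,0,0,0⟩,⟨3,1,-1,7⟩]), (1, [⟨0,0,0,0⟩,⟨3,1,-1,2⟩]), (2, [⟨5,0,0,0⟩,⟨0,0,0,5⟩]), (3, [⟨0,0,0,0⟩,⟨5,0,0,5⟩]), (4, [⟨-5,-5,-5,0⟩,⟨-2,1,-1,-3⟩]), (5, [⟨0,0,0,0⟩,⟨-4,2,-2,-1⟩])],
   [(0, [⟨0,5,10,0⟩,⟨1,-3,-2,-6⟩]), (1, [⟨-5,-5,0,0⟩,⟨1,2,3,-1⟩]), (2, [⟨5,10,10,0⟩,⟨0,-5,-5,-5⟩]), (3, [⟨0,0,5,0⟩,⟨0,0,0,-5⟩]), (4, [⟨0,-5,-5,0⟩,⟨1,2,3,4⟩]), (5, [⟨0,-5,-5,0⟩,⟨2,-1,1,3⟩])]],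
  [[(0, [⟨1,0,0,0⟩])],
   [(1, [⟨1,0,0,0⟩])],
   [(2, [⟨1,0,0,0⟩])],
   [(3, [⟨1,0,0,0⟩])],
   [(0, [⟨1,2,1,1⟩,⟨-1,0,-2,-1⟩]), (1, [⟨0,0,0,0⟩,⟨0,1,0,0⟩]), (2, [⟨1,2,1,1⟩,⟨-1,-1,-2,-1⟩]), (3, [⟨0,0,0,0⟩,⟨0,1,-1,0⟩]), (4, [⟨-1,-1,-1,-1⟩,⟨0,0,1,0⟩]), (5, [⟨0,0,0,0⟩,⟨-1,-1,0,-1⟩])],
   [(0, [⟨-1,-2,1,2⟩,⟨2,2,2,1⟩]), (1, [⟨0,-2,-2,-1⟩,⟨0,0,1,1⟩]), (2, [⟨-1,0,3,3⟩,⟨2,2,1,0⟩]), (3, [⟨0,-1,0,1⟩,⟨1,1,2,1⟩]), (4, [⟨1,1,-1,-1⟩,⟨-1,-1,-1,0⟩]), (5, [⟨0,1,0,0⟩,⟨0,0,-1,0⟩])]]]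

def mats2 : List SM := [
  [[(0, [⟨0,0,1,0⟩])],
   [(1, [⟨-1,-1,-1,-1⟩])],
   [(0, [⟨-1,0,1,0⟩,⟨1,0,0,0⟩]), (1, [⟨0,0,0,0⟩,⟨1,0,0,0⟩]), (2, [⟨1,0,0,0⟩])],
   [(0, [⟨-2,-2,-1,0⟩,⟨0,1,1,0⟩]), (1, [⟨-2,-2,-1,0⟩,⟨0,1,1,0⟩]), (3, [⟨1,0,0,0⟩])],
   [(0, [⟨-1,0,1,0⟩,⟨0,0,0,-1⟩]), (1, [⟨0,0,0,0⟩,⟨0,0,0,-1⟩]), (4, [⟨1,0,0,0⟩])],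
   [(0, [⟨-1,-2,-2,0⟩,⟨0,1,1,1⟩]), (1, [⟨-1,-2,-2,0⟩,⟨0,1,1,1⟩]), (5, [⟨1,0,0,0⟩])]],
  [[(0, [⟨1,0,0,0⟩])],
   [(1, [⟨1,0,0,0⟩])],
   [(2, [⟨0,0,1,0⟩])],
   [(3, [⟨0,0,1,0⟩])],
   [(4, [⟨1,0,0,0⟩])],
   [(5, [⟨1,0,0,0⟩])]],
  [[(0, [⟨0,0,1,0⟩,⟨1,0,0,0⟩]), (1, [⟨0,0,0,0⟩,⟨1,0,1,0⟩])],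
   [(0, [⟨-2,-2,-1,0⟩,⟨0,1,1,0⟩]), (1, [⟨-1,-1,-1,-1⟩,⟨-1,0,0,0⟩])],
   [(0, [⟨-1,0,1,0⟩,⟨0,0,0,-1⟩]), (1, [⟨0,0,0,0⟩,⟨-1,0,0,-1⟩]), (2, [⟨1,0,0,0⟩])],
   [(0, [⟨-1,-2,-2,0⟩,⟨0,1,1,1⟩]), (1, [⟨-1,-1,-2,-1⟩,⟨0,0,0,1⟩]), (3, [⟨1,0,0,0⟩])],
   [(0, [⟨-1,0,1,0⟩]), (4, [⟨1,0,0,0⟩])],
   [(1, [⟨-2,-1,-1,-1⟩]), (5, [⟨1,0,0,0⟩])]],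
  [[(0, [⟨0,0,1,0⟩])],
   [(1, [⟨-1,-1,-1,-1⟩])],
   [(0, [⟨-1,0,1,0⟩]), (2, [⟨1,0,0,0⟩])],
   [(0, [⟨2,1,1,1⟩]), (1, [⟨0,-1,1,0⟩]), (3, [⟨1,0,0,0⟩])],
   [(0, [⟨-1,0,1,0⟩]), (4, [⟨1,0,0,0⟩])],
   [(1, [⟨-1,0,1,0⟩]), (5, [⟨1,0,0,0⟩])]],
  [[(0, [⟨0,0,1,0⟩,⟨1,0,0,0⟩]), (1, [⟨0,0,0,0⟩,⟨1,0,1,0⟩])],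
   [(0, [⟨-2,-2,-1,0⟩,⟨0,1,1,0⟩]), (1, [⟨-1,-1,-1,-1⟩,⟨-1,0,0,0⟩])],
   [(0, [⟨-1,-1,-2,-1⟩]), (2, [⟨1,0,0,0⟩])],
   [(1, [⟨1,1,1,2⟩]), (3, [⟨1,0,0,0⟩])],
   [(0, [⟨-1,-1,-2,-1⟩,⟨-1,0,0,0⟩]), (1, [⟨0,0,0,0⟩,⟨-1,0,-1,0⟩]), (4, [⟨1,0,0,0⟩])],
   [(0, [⟨2,2,1,0⟩,⟨0,-1,-1,0⟩]), (1, [⟨-1,0,1,0⟩,⟨1,0,0,0⟩]), (5, [⟨1,0,0,0⟩])]],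
  [[(0, [⟨0,0,1,0⟩])],
   [(1, [⟨-1,-1,-1,-1⟩])],
   [(0, [⟨1,0,0,-1⟩,⟨0,-1,0,1⟩]), (1, [⟨0,0,0,0⟩,⟨0,0,1,-1⟩]), (2, [⟨1,0,0,0⟩])],
   [(0, [⟨1,4,4,1⟩,⟨0,-1,-2,-2⟩]), (1, [⟨-1,-1,-2,-1⟩,⟨-1,0,0,1⟩]), (3, [⟨1,0,0,0⟩])],
   [(0, [⟨1,0,0,-1⟩]), (4, [⟨1,0,0,0⟩])],
   [(0, [⟨-1,1,0,0⟩]), (1, [⟨0,0,-1,1⟩]), (5, [⟨1,0,0,0⟩])]],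
  [[(0, [⟨0,0,1,0⟩])],
   [(1, [⟨-1,-1,-1,-1⟩])],
   [(0, [⟨-1,-1,-2,-1⟩,⟨-1,0,0,0⟩]), (1, [⟨0,0,0,0⟩,⟨0,0,-1,0⟩]), (2, [⟨1,0,0,0⟩])],
   [(0, [⟨2,2,1,0⟩,⟨0,-1,-1,0⟩]), (1, [⟨-1,-1,1,1⟩,⟨1,1,1,0⟩]), (3, [⟨1,0,0,0⟩])],
   [(0, [⟨-1,0,1,0⟩,⟨1,0,0,0⟩]), (1, [⟨0,0,0,0⟩,⟨1,0,0,0⟩]), (4, [⟨1,0,0,0⟩])],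
   [(0, [⟨-2,-2,-1,0⟩,⟨0,1,1,0⟩]), (1, [⟨-2,-2,-1,0⟩,⟨0,1,1,0⟩]), (5, [⟨1,0,0,0⟩])]],
  [[(0, [⟨1,0,0,0⟩])],
   [(1, [⟨1,0,0,0⟩])],
   [(2, [⟨1,0,0,0⟩])],
   [(3, [⟨1,0,0,0⟩])],
   [(0, [⟨1,2,1,1⟩,⟨0,0,-1,0⟩]), (1, [⟨0,0,0,0⟩,⟨0,0,-1,0⟩]), (2, [⟨1,0,0,-1⟩,⟨0,-1,0,0⟩]), (3, [⟨0,0,0,0⟩,⟨0,-1,0,-1⟩]), (4, [⟨-1,-1,-1,-1⟩])],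
   [(0, [⟨0,-1,-2,-2⟩,⟨-1,-1,0,0⟩]), (1, [⟨0,-1,-2,-2⟩,⟨-1,-1,0,0⟩]), (2, [⟨-1,-2,-2,0⟩,⟨0,1,1,1⟩]), (3, [⟨1,0,0,-1⟩,⟨0,0,0,1⟩]), (5, [⟨0,1,0,0⟩])]],
  [[(0, [⟨1,0,0,0⟩])],
   [(1, [⟨1,0,0,0⟩])],
   [(2, [⟨1,0,0,0⟩])],
   [(3, [⟨1,0,0,0⟩])],
   [(0, [⟨1,2,1,1⟩]), (2, [⟨1,0,0,-1⟩]), (4, [⟨-1,-1,-1,-1⟩])],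
   [(1, [⟨1,-1,0,0⟩]), (2, [⟨0,0,-1,1⟩]), (3, [⟨0,0,-1,1⟩]), (5, [⟨0,1,0,0⟩])]],
  [[(0, [⟨1,0,0,0⟩])],
   [(1, [⟨1,0,0,0⟩])],
   [(2, [⟨1,0,0,0⟩])],
   [(3, [⟨1,0,0,0⟩])],
   [(0, [⟨1,2,1,1⟩,⟨-1,-1,-2,-1⟩]), (1, [⟨0,0,0,0⟩,⟨0,1,-1,0⟩]), (2, [⟨1,0,0,-1⟩,⟨0,0,0,1⟩]), (3, [⟨0,0,0,0⟩,⟨0,1,0,0⟩]), (4, [⟨-1,-1,-1,-1⟩,⟨0,0,1,0⟩]), (5, [⟨0,0,0,0⟩,⟨-1,-1,0,-1⟩])],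
   [(0, [⟨-1,0,3,3⟩,⟨2,2,1,0⟩]), (1, [⟨0,-1,0,1⟩,⟨1,1,2,1⟩]), (2, [⟨1,2,2,0⟩,⟨0,-1,-1,-1⟩]), (3, [⟨0,-2,-2,-1⟩,⟨0,0,1,1⟩]), (4, [⟨1,1,-1,-1⟩,⟨-1,-1,-1,0⟩]), (5, [⟨0,1,0,0⟩,⟨0,0,-1,0⟩])]],
  [[(0, [⟨1,0,0,0⟩])],
   [(1, [⟨1,0,0,0⟩])],
   [(2, [⟨1,0,0,0⟩])],
   [(3, [⟨1,0,0,0⟩])],
   [(0, [⟨0,-1,0,1⟩,⟨1,1,1,1⟩]), (1, [⟨0,0,0,0⟩,⟨1,0,1,1⟩]), (2, [⟨1,0,0,-1⟩,⟨0,-1,0,0⟩]), (3, [⟨0,0,0,0⟩,⟨1,1,1,1⟩]), (4, [⟨-1,-1,-1,-1⟩])],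
   [(0, [⟨0,2,2,1⟩,⟨0,0,-1,-1⟩]), (1, [⟨0,-1,0,1⟩,⟨0,1,0,0⟩]), (2, [⟨0,2,2,1⟩,⟨0,0,-1,-1⟩]), (3, [⟨0,-1,-2,-2⟩,⟨-1,-1,0,0⟩]), (5, [⟨0,1,0,0⟩])]],
  [[(0, [⟨1,0,0,0⟩])],
   [(1, [⟨1,0,0,0⟩])],
   [(2, [⟨1,0,0,0⟩])],
   [(3, [⟨1,0,0,0⟩])],
   [(0, [⟨-1,-1,-2,-1⟩]), (2, [⟨1,0,0,-1⟩,⟨-1,-2,-1,-1⟩]), (3, [⟨0,0,0,0⟩,⟨-1,-1,-1,-2⟩]), (4, [⟨-1,-1,-1,-1⟩])],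
   [(0, [⟨0,-1,1,0⟩]), (1, [⟨-1,-1,-1,-2⟩]), (2, [⟨-1,-1,0,2⟩,⟨1,2,1,1⟩]), (3, [⟨1,-1,0,0⟩,⟨1,1,1,2⟩]), (5, [⟨0,1,0,0⟩])]],
  [[(0, [⟨1,0,0,0⟩])],
   [(1, [⟨1,0,0,0⟩])],
   [(2, [⟨1,0,0,0⟩])],
   [(3, [⟨1,0,0,0⟩])],
   [(0, [⟨1,2,1,1⟩,⟨-1,0,-2,-1⟩]), (1, [⟨0,0,0,0⟩,⟨0,1,0,0⟩]), (2, [⟨0,-1,0,1⟩,⟨1,2,1,1⟩]), (3, [⟨0,0,0,0⟩,⟨1,1,1,2⟩]), (4, [⟨-1,-1,-1,-1⟩,⟨0,0,1,0⟩]), (5, [⟨0,0,0,0⟩,⟨-1,-1,0,-1⟩])],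
   [(0, [⟨-1,-2,1,2⟩,⟨2,2,2,1⟩]), (1, [⟨0,-2,-2,-1⟩,⟨0,0,1,1⟩]), (2, [⟨0,-3,-4,-3⟩,⟨-1,-1,1,1⟩]), (3, [⟨1,0,0,-1⟩,⟨-1,-2,-1,-1⟩]), (4, [⟨1,1,-1,-1⟩,⟨-1,-1,-1,0⟩]), (5, [⟨0,1,0,0⟩,⟨0,0,-1,0⟩])]],
  [[(0, [⟨-5,-5,0,-5⟩]), (2, [⟨0,0,0,5⟩]), (4, [⟨5,0,0,0⟩])],
   [(1, [⟨0,-5,0,-5⟩]), (3, [⟨5,0,0,5⟩]), (4, [⟨-5,0,0,-5⟩]), (5, [⟨-5,0,0,-5⟩])],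
   [(0, [⟨0,0,5,0⟩,⟨3,1,-1,2⟩]), (1, [⟨0,0,0,0⟩,⟨-2,1,-1,2⟩]), (2, [⟨-5,-5,-5,0⟩,⟨-2,1,-1,-3⟩]), (3, [⟨0,0,0,0⟩,⟨-4,2,-2,-1⟩]), (4, [⟨5,0,0,0⟩,⟨0,0,0,5⟩]), (5, [⟨0,0,0,0⟩,⟨5,0,0,5⟩])],
   [(0, [⟨-5,-5,0,0⟩,⟨1,2,3,-1⟩]), (1, [⟨5,5,5,0⟩,⟨1,-3,-2,-1⟩]), (2, [⟨0,-5,-5,0⟩,⟨1,2,3,4⟩]), (3, [⟨0,-5,-5,0⟩,⟨2,-1,1,3⟩]), (4, [⟨5,10,10,0⟩,⟨0,-5,-5,-5⟩]), (5, [⟨0,0,5,0⟩,⟨0,0,0,-5⟩])],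
   [(0, [⟨0,0,5,0⟩,⟨2,-1,1,-2⟩]), (1, [⟨0,0,0,0⟩,⟨2,-1,1,3⟩]), (2, [⟨0,0,0,5⟩,⟨2,4,1,3⟩]), (3, [⟨0,0,0,0⟩,⟨4,3,2,6⟩]), (4, [⟨0,-5,-5,-5⟩,⟨0,-5,0,0⟩]), (5, [⟨0,0,0,0⟩,⟨0,-5,0,-5⟩])],
   [(0, [⟨-5,-5,-5,0⟩,⟨-1,3,2,1⟩]), (1, [⟨0,5,5,0⟩,⟨-1,-2,-3,-4⟩]), (2, [⟨0,-5,-5,-5⟩,⟨-1,-2,2,1⟩]), (3, [⟨5,0,0,0⟩,⟨-2,-4,-1,-3⟩]), (4, [⟨0,10,10,5⟩,⟨0,0,-5,-5⟩]), (5, [⟨-5,-5,0,0⟩,⟨0,5,0,0⟩])]],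
  [[(0, [⟨1,0,0,0⟩])],
   [(1, [⟨1,0,0,0⟩])],
   [(0, [⟨0,-1,0,1⟩,⟨0,1,0,0⟩]), (1, [⟨0,0,0,0⟩,⟨-1,-1,-1,-1⟩]), (2, [⟨-1,-1,-1,-1⟩,⟨0,0,1,0⟩]), (3, [⟨0,0,0,0⟩,⟨-1,-1,0,-1⟩]), (4, [⟨1,2,1,1⟩,⟨-1,-1,-2,-1⟩]), (5, [⟨0,0,0,0⟩,⟨0,1,-1,0⟩])],
   [(0, [⟨0,-2,-2,-1⟩,⟨0,0,1,1⟩]), (1, [⟨0,1,2,2⟩,⟨1,1,0,0⟩]), (2, [⟨1,1,-1,-1⟩,⟨-1,-1,-1,0⟩]), (3, [⟨0,1,0,0⟩,⟨0,0,-1,0⟩]), (4, [⟨-1,0,3,3⟩,⟨2,2,1,0⟩]), (5, [⟨0,-1,0,1⟩,⟨1,1,2,1⟩])],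
   [(4, [⟨1,0,0,0⟩])],
   [(5, [⟨1,0,0,0⟩])]],
  [[(0, [⟨-5,-5,0,-5⟩,⟨-2,1,-1,-3⟩]), (1, [⟨0,0,0,0⟩,⟨-4,2,-2,-1⟩]), (2, [⟨0,0,0,5⟩]), (4, [⟨5,0,0,0⟩,⟨-2,-4,-1,-3⟩]), (5, [⟨0,0,0,0⟩,⟨-2,-4,-1,-3⟩])],
   [(0, [⟨0,-5,-5,0⟩,⟨1,2,3,4⟩]), (1, [⟨0,-5,0,-5⟩,⟨2,-1,1,3⟩]), (3, [⟨0,0,0,5⟩]), (4, [⟨0,5,5,5⟩,⟨1,2,-2,-1⟩]), (5, [⟨0,5,5,5⟩,⟨1,2,-2,-1⟩])],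
   [(0, [⟨0,0,5,0⟩,⟨2,-1,1,-2⟩]), (1, [⟨0,0,0,0⟩,⟨-1,-2,2,-4⟩]), (2, [⟨-5,-5,-5,0⟩]), (4, [⟨5,0,0,0⟩,⟨2,-1,1,3⟩]), (5, [⟨0,0,0,0⟩,⟨2,-1,1,3⟩])],
   [(0, [⟨5,5,0,0⟩,⟨-1,-2,-3,1⟩]), (1, [⟨0,0,5,0⟩,⟨3,1,-1,2⟩]), (3, [⟨0,-5,-5,0⟩]), (4, [⟨-5,-5,-5,0⟩,⟨-1,3,2,1⟩]), (5, [⟨-5,-5,-5,0⟩,⟨-1,3,2,1⟩])],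
   [(0, [⟨0,0,5,0⟩,⟨0,0,0,-5⟩]), (1, [⟨0,0,0,0⟩,⟨-5,0,0,-5⟩]), (2, [⟨0,0,0,5⟩]), (4, [⟨0,-5,-5,-5⟩,⟨0,-5,0,0⟩]), (5, [⟨0,0,0,0⟩,⟨0,-5,0,0⟩])],
   [(0, [⟨5,0,-5,0⟩,⟨0,0,0,5⟩]), (1, [⟨5,0,5,0⟩,⟨5,0,0,5⟩]), (2, [⟨-5,0,0,-5⟩]), (3, [⟨-5,0,-5,0⟩]), (4, [⟨-5,0,0,5⟩,⟨0,5,0,0⟩]), (5, [⟨-5,-5,0,0⟩,⟨0,5,0,0⟩])]],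
  [[(0, [⟨1,0,0,0⟩])],
   [(1, [⟨1,0,0,0⟩])],
   [(0, [⟨0,-1,0,1⟩,⟨1,1,1,1⟩]), (1, [⟨0,0,0,0⟩,⟨1,0,1,1⟩]), (2, [⟨-1,-1,-1,-1⟩]), (4, [⟨1,2,1,1⟩,⟨0,0,-1,0⟩]), (5, [⟨0,0,0,0⟩,⟨0,0,-1,0⟩])],
   [(0, [⟨0,2,2,1⟩,⟨0,0,-1,-1⟩]), (1, [⟨0,-1,0,1⟩,⟨0,1,0,0⟩]), (3, [⟨0,1,0,0⟩]), (4, [⟨0,-1,-2,-2⟩,⟨-1,-1,0,0⟩]), (5, [⟨0,-1,-2,-2⟩,⟨-1,-1,0,0⟩])],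
   [(4, [⟨1,0,0,0⟩])],
   [(5, [⟨1,0,0,0⟩])]],
  [[(0, [⟨-5,-5,0,-5⟩]), (2, [⟨0,0,0,5⟩,⟨2,4,1,3⟩]), (3, [⟨0,0,0,0⟩,⟨2,4,1,3⟩]), (4, [⟨5,0,0,0⟩,⟨2,-1,1,3⟩]), (5, [⟨0,0,0,0⟩,⟨4,-2,2,1⟩])],
   [(1, [⟨0,-5,0,-5⟩]), (2, [⟨0,-5,-5,-5⟩,⟨-1,-2,2,1⟩]), (3, [⟨0,-5,-5,-5⟩,⟨-1,-2,2,1⟩]), (4, [⟨0,5,5,0⟩,⟨-1,-2,-3,-4⟩]), (5, [⟨0,0,0,5⟩,⟨-2,1,-1,-3⟩])],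
   [(0, [⟨0,0,5,0⟩]), (2, [⟨-5,-5,-5,0⟩]), (4, [⟨5,0,0,0⟩])],
   [(0, [⟨5,5,0,5⟩]), (1, [⟨5,5,0,5⟩]), (3, [⟨0,-5,-5,0⟩]), (5, [⟨-5,-5,0,-5⟩])],
   [(0, [⟨0,0,5,0⟩]), (2, [⟨0,0,0,5⟩,⟨-2,1,-1,-3⟩]), (3, [⟨0,0,0,0⟩,⟨-2,1,-1,-3⟩]), (4, [⟨0,-5,-5,-5⟩,⟨-2,1,-1,2⟩]), (5, [⟨0,0,0,0⟩,⟨1,2,-2,4⟩])],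
   [(1, [⟨5,0,0,0⟩]), (2, [⟨0,-5,-5,0⟩,⟨1,2,3,4⟩]), (3, [⟨0,-5,-5,0⟩,⟨1,2,3,4⟩]), (4, [⟨5,5,5,0⟩,⟨1,-3,-2,-1⟩]), (5, [⟨-5,-5,0,0⟩,⟨2,-1,1,-2⟩])]],
  [[(0, [⟨1,0,0,0⟩])],
   [(1, [⟨1,0,0,0⟩])],
   [(0, [⟨0,-1,0,1⟩]), (2, [⟨-1,-1,-1,-1⟩]), (4, [⟨1,2,1,1⟩])],
   [(0, [⟨-1,1,0,0⟩]), (1, [⟨-1,1,0,0⟩]), (3, [⟨0,1,0,0⟩]), (5, [⟨1,-1,0,0⟩])],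
   [(4, [⟨1,0,0,0⟩])],
   [(5, [⟨1,0,0,0⟩])]],
  [[(0, [⟨-5,-5,0,-5⟩,⟨-2,1,-1,-3⟩]), (1, [⟨0,0,0,0⟩,⟨-4,2,-2,-1⟩]), (2, [⟨0,5,0,0⟩,⟨-2,-4,-1,-3⟩]), (3, [⟨0,0,0,0⟩,⟨3,1,4,2⟩]), (4, [⟨0,0,0,5⟩])],
   [(0, [⟨0,-5,-5,0⟩,⟨1,2,3,4⟩]), (1, [⟨0,-5,0,-5⟩,⟨2,-1,1,3⟩]), (2, [⟨0,5,5,5⟩,⟨1,2,-2,-1⟩]), (3, [⟨0,0,-5,-5⟩,⟨-4,-3,-2,-1⟩]), (5, [⟨0,0,0,5⟩])],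
   [(0, [⟨-5,-5,-5,-5⟩,⟨-5,0,0,0⟩]), (1, [⟨0,0,0,0⟩,⟨-5,0,-5,0⟩]), (2, [⟨-5,-5,-5,0⟩]), (4, [⟨5,0,0,0⟩])],
   [(0, [⟨-5,-10,-5,-5⟩,⟨0,0,5,0⟩]), (1, [⟨-5,0,-5,-5⟩,⟨-5,-5,0,-5⟩]), (3, [⟨0,-5,-5,0⟩]), (4, [⟨5,5,0,5⟩]), (5, [⟨5,0,5,5⟩])],
   [(0, [⟨-5,-5,-5,-5⟩,⟨-3,-1,1,-2⟩]), (1, [⟨0,0,0,0⟩,⟨-6,-2,-3,-4⟩]), (2, [⟨0,0,0,5⟩,⟨2,4,1,3⟩]), (3, [⟨0,0,0,0⟩,⟨2,4,1,3⟩]), (4, [⟨0,-5,-5,-5⟩,⟨0,0,0,5⟩]), (5, [⟨0,0,0,0⟩,⟨5,0,0,5⟩])],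
   [(0, [⟨0,-5,-10,0⟩,⟨-1,3,2,6⟩]), (1, [⟨5,0,0,0⟩,⟨3,1,-1,7⟩]), (2, [⟨0,-5,-5,-5⟩,⟨-1,-2,2,1⟩]), (3, [⟨0,-5,-5,-5⟩,⟨-1,-2,2,1⟩]), (4, [⟨5,10,10,0⟩,⟨0,-5,-5,-5⟩]), (5, [⟨-5,-5,0,0⟩,⟨0,0,0,-5⟩])]],
  [[(0, [⟨1,0,0,0⟩])],
   [(1, [⟨1,0,0,0⟩])],
   [(0, [⟨1,0,0,-1⟩,⟨-1,-2,-1,-1⟩]), (1, [⟨0,0,0,0⟩,⟨-1,-1,-1,-2⟩]), (2, [⟨-1,-1,-1,-1⟩]), (4, [⟨1,2,1,1⟩])],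
   [(0, [⟨2,0,-1,-1⟩,⟨0,-1,0,1⟩]), (1, [⟨0,0,1,-1⟩,⟨1,-1,0,0⟩]), (3, [⟨0,1,0,0⟩]), (4, [⟨-1,1,0,0⟩]), (5, [⟨0,0,-1,1⟩])],
   [(4, [⟨1,0,0,0⟩])],
   [(5, [⟨1,0,0,0⟩])]],
  [[(0, [⟨-5,-5,0,-5⟩]), (2, [⟨5,0,0,0⟩,⟨2,-1,1,3⟩]), (3, [⟨0,0,0,0⟩,⟨4,-2,2,1⟩]), (4, [⟨0,0,5,0⟩,⟨2,-1,1,-2⟩]), (5, [⟨0,0,0,0⟩,⟨2,-1,1,-2⟩])],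
   [(1, [⟨0,-5,0,-5⟩]), (2, [⟨0,5,5,0⟩,⟨-1,-2,-3,-4⟩]), (3, [⟨0,0,0,5⟩,⟨-2,1,-1,-3⟩]), (4, [⟨0,5,5,0⟩,⟨-1,-2,-3,-4⟩]), (5, [⟨0,5,5,0⟩,⟨-1,-2,-3,-4⟩])],
   [(0, [⟨5,0,0,0⟩,⟨0,0,0,5⟩]), (1, [⟨0,0,0,0⟩,⟨5,0,0,5⟩]), (2, [⟨-5,-5,-5,0⟩,⟨-2,1,-1,-3⟩]), (3, [⟨0,0,0,0⟩,⟨-4,2,-2,-1⟩]), (4, [⟨5,0,0,0⟩,⟨3,1,-1,7⟩]), (5, [⟨0,0,0,0⟩,⟨3,1,-1,2⟩])],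
   [(0, [⟨5,10,10,0⟩,⟨0,-5,-5,-5⟩]), (1, [⟨0,0,5,0⟩,⟨0,0,0,-5⟩]), (2, [⟨0,-5,-5,0⟩,⟨1,2,3,4⟩]), (3, [⟨0,-5,-5,0⟩,⟨2,-1,1,3⟩]), (4, [⟨0,5,10,0⟩,⟨1,-3,-2,-6⟩]), (5, [⟨-5,-5,0,0⟩,⟨1,2,3,-1⟩])],
   [(0, [⟨5,0,0,0⟩]), (2, [⟨0,0,0,5⟩]), (4, [⟨0,-5,-5,-5⟩,⟨0,0,0,5⟩]), (5, [⟨0,0,0,0⟩,⟨0,0,0,5⟩])],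
   [(0, [⟨-5,0,0,-5⟩]), (1, [⟨-5,0,0,-5⟩]), (3, [⟨5,0,0,5⟩]), (4, [⟨-5,0,5,0⟩,⟨0,0,0,-5⟩]), (5, [⟨-5,-5,0,0⟩,⟨0,0,0,-5⟩])]]]

def mats3 : List SM := [
  [[(0, [⟨1,0,0,0⟩])],
   [(1, [⟨1,0,0,0⟩])],
   [(0, [⟨1,2,1,1⟩,⟨-1,-1,-2,-1⟩]), (1, [⟨0,0,0,0⟩,⟨0,1,-1,0⟩]), (2, [⟨-1,-1,-1,-1⟩,⟨0,0,1,0⟩]), (3, [⟨0,0,0,0⟩,⟨-1,-1,0,-1⟩]), (4, [⟨1,2,1,1⟩,⟨-1,0,-2,-1⟩]), (5, [⟨0,0,0,0⟩,⟨0,1,0,0⟩])],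
   [(0, [⟨-1,0,3,3⟩,⟨2,2,1,0⟩]), (1, [⟨0,-1,0,1⟩,⟨1,1,2,1⟩]), (2, [⟨1,1,-1,-1⟩,⟨-1,-1,-1,0⟩]), (3, [⟨0,1,0,0⟩,⟨0,0,-1,0⟩]), (4, [⟨-1,-2,1,2⟩,⟨2,2,2,1⟩]), (5, [⟨0,-2,-2,-1⟩,⟨0,0,1,1⟩])],
   [(4, [⟨1,0,0,0⟩])],
   [(5, [⟨1,0,0,0⟩])]],
  [[(0, [⟨-5,-5,0,-5⟩]), (2, [⟨0,5,0,0⟩]), (4, [⟨5,0,0,0⟩,⟨0,-5,0,0⟩]), (5, [⟨0,0,0,0⟩,⟨0,-5,0,-5⟩])],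
   [(1, [⟨0,-5,0,-5⟩]), (2, [⟨5,0,5,5⟩]), (3, [⟨0,-5,0,-5⟩]), (4, [⟨0,5,0,-5⟩,⟨-5,-5,-5,-5⟩]), (5, [⟨0,5,0,5⟩,⟨-5,0,-5,-5⟩])],
   [(0, [⟨-5,-5,-5,-5⟩,⟨-3,-1,1,-2⟩]), (1, [⟨0,0,0,0⟩,⟨-3,-1,1,-2⟩]), (2, [⟨-5,-5,-5,0⟩]), (4, [⟨0,0,5,0⟩,⟨2,-1,1,-2⟩]), (5, [⟨0,0,0,0⟩,⟨-1,-2,2,-4⟩])],
   [(0, [⟨5,5,0,0⟩,⟨-1,-2,-3,1⟩]), (1, [⟨5,5,0,0⟩,⟨-1,-2,-3,1⟩]), (3, [⟨0,-5,-5,0⟩]), (4, [⟨5,5,0,0⟩,⟨-1,-2,-3,1⟩]), (5, [⟨0,0,5,0⟩,⟨3,1,-1,2⟩])],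
   [(0, [⟨0,0,5,0⟩,⟨3,1,-1,2⟩]), (1, [⟨0,0,0,0⟩,⟨-2,1,-1,2⟩]), (2, [⟨0,5,0,0⟩,⟨-5,-5,-5,-5⟩]), (3, [⟨0,0,0,0⟩,⟨0,5,0,5⟩]), (4, [⟨0,-5,-5,-5⟩,⟨-7,-9,-1,7⟩,⟨5,10,5,5⟩]), (5, [⟨0,0,0,0⟩,⟨1,-8,-2,-6⟩,⟨5,5,5,10⟩])],
   [(0, [⟨-5,-5,0,0⟩,⟨1,2,3,-1⟩]), (1, [⟨5,5,5,0⟩,⟨1,-3,-2,-1⟩]), (2, [⟨0,5,10,10⟩,⟨5,5,0,0⟩]), (3, [⟨5,0,0,0⟩,⟨0,-5,0,0⟩]), (4, [⟨15,25,20,5⟩,⟨1,-23,-32,-21⟩,⟨-5,-5,5,5⟩]), (5, [⟨-5,-5,0,0⟩,⟨7,9,1,-7⟩,⟨-5,-10,-5,-5⟩])]],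
  [[(0, [⟨1,0,0,0⟩])],
   [(1, [⟨1,0,0,0⟩])],
   [(0, [⟨1,0,0,-1⟩,⟨0,-1,0,0⟩]), (1, [⟨0,0,0,0⟩,⟨0,-1,0,0⟩]), (2, [⟨-1,-1,-1,-1⟩]), (4, [⟨0,-1,0,1⟩,⟨1,1,1,1⟩]), (5, [⟨0,0,0,0⟩,⟨1,0,1,1⟩])],
   [(0, [⟨0,2,2,1⟩,⟨0,0,-1,-1⟩]), (1, [⟨0,2,2,1⟩,⟨0,0,-1,-1⟩]), (3, [⟨0,1,0,0⟩]), (4, [⟨0,2,2,1⟩,⟨0,0,-1,-1⟩]), (5, [⟨0,-1,0,1⟩,⟨0,1,0,0⟩])],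
   [(4, [⟨1,0,0,0⟩])],
   [(5, [⟨1,0,0,0⟩])]],
  [[(0, [⟨0,0,1,0⟩])],
   [(1, [⟨0,0,1,0⟩])],
   [(2, [⟨1,0,0,0⟩])],
   [(3, [⟨1,0,0,0⟩])],
   [(4, [⟨1,0,0,0⟩])],
   [(5, [⟨1,0,0,0⟩])]],
  [[(0, [⟨1,0,0,0⟩])],
   [(1, [⟨1,0,0,0⟩])],
   [(2, [⟨1,0,0,0⟩])],
   [(3, [⟨1,0,0,0⟩])],
   [(0, [⟨0,-1,0,1⟩,⟨1,1,1,1⟩]), (1, [⟨0,0,0,0⟩,⟨1,1,1,1⟩]), (2, [⟨1,0,0,-1⟩,⟨0,-1,0,0⟩]), (3, [⟨0,0,0,0⟩,⟨0,-1,0,-1⟩]), (4, [⟨-1,-1,-1,-1⟩])],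
   [(0, [⟨0,2,2,1⟩,⟨0,0,-1,-1⟩]), (1, [⟨0,2,2,1⟩,⟨0,0,-1,-1⟩]), (2, [⟨-1,-2,-2,0⟩,⟨0,1,1,1⟩]), (3, [⟨1,0,0,-1⟩,⟨0,0,0,1⟩]), (5, [⟨0,1,0,0⟩])]],
  [[(0, [⟨1,0,0,0⟩])],
   [(1, [⟨1,0,0,0⟩])],
   [(2, [⟨1,0,0,0⟩])],
   [(3, [⟨1,0,0,0⟩])],
   [(0, [⟨0,-1,0,1⟩]), (2, [⟨1,0,0,-1⟩]), (4, [⟨-1,-1,-1,-1⟩])],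
   [(1, [⟨0,0,1,-1⟩]), (2, [⟨0,0,-1,1⟩]), (3, [⟨0,0,-1,1⟩]), (5, [⟨0,1,0,0⟩])]],
  [[(0, [⟨1,0,0,0⟩])],
   [(1, [⟨1,0,0,0⟩])],
   [(2, [⟨1,0,0,0⟩])],
   [(3, [⟨1,0,0,0⟩])],
   [(0, [⟨0,-1,0,1⟩,⟨1,2,1,1⟩]), (1, [⟨0,0,0,0⟩,⟨1,1,1,2⟩]), (2, [⟨1,0,0,-1⟩,⟨0,0,0,1⟩]), (3, [⟨0,0,0,0⟩,⟨0,1,0,0⟩]), (4, [⟨-1,-1,-1,-1⟩,⟨0,0,1,0⟩]), (5, [⟨0,0,0,0⟩,⟨-1,-1,0,-1⟩])],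
   [(0, [⟨0,-3,-4,-3⟩,⟨-1,-1,1,1⟩]), (1, [⟨1,0,0,-1⟩,⟨-1,-2,-1,-1⟩]), (2, [⟨1,2,2,0⟩,⟨0,-1,-1,-1⟩]), (3, [⟨0,-2,-2,-1⟩,⟨0,0,1,1⟩]), (4, [⟨1,1,-1,-1⟩,⟨-1,-1,-1,0⟩]), (5, [⟨0,1,0,0⟩,⟨0,0,-1,0⟩])]],
  [[(0, [⟨1,0,0,0⟩])],
   [(1, [⟨1,0,0,0⟩])],
   [(2, [⟨1,0,0,0⟩])],
   [(3, [⟨1,0,0,0⟩])],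
   [(0, [⟨1,0,0,-1⟩,⟨0,-1,0,0⟩]), (1, [⟨0,0,0,0⟩,⟨0,-1,0,-1⟩]), (2, [⟨1,0,0,-1⟩,⟨0,-1,0,0⟩]), (3, [⟨0,0,0,0⟩,⟨1,1,1,1⟩]), (4, [⟨-1,-1,-1,-1⟩])],
   [(0, [⟨-1,-2,-2,0⟩,⟨0,1,1,1⟩]), (1, [⟨1,0,0,-1⟩,⟨0,0,0,1⟩]), (2, [⟨0,2,2,1⟩,⟨0,0,-1,-1⟩]), (3, [⟨0,-1,-2,-2⟩,⟨-1,-1,0,0⟩]), (5, [⟨0,1,0,0⟩])]],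
  [[(0, [⟨1,0,0,0⟩])],
   [(1, [⟨1,0,0,0⟩])],
   [(2, [⟨1,0,0,0⟩])],
   [(3, [⟨1,0,0,0⟩])],
   [(0, [⟨1,2,1,1⟩]), (2, [⟨1,0,0,-1⟩,⟨-1,-2,-1,-1⟩]), (3, [⟨0,0,0,0⟩,⟨-1,-1,-1,-2⟩]), (4, [⟨-1,-1,-1,-1⟩])],
   [(0, [⟨-1,-1,-1,-2⟩]), (1, [⟨-1,1,0,0⟩]), (2, [⟨-1,-1,0,2⟩,⟨1,2,1,1⟩]), (3, [⟨1,-1,0,0⟩,⟨1,1,1,2⟩]), (5, [⟨0,1,0,0⟩])]],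
  [[(0, [⟨1,0,0,0⟩])],
   [(1, [⟨1,0,0,0⟩])],
   [(2, [⟨1,0,0,0⟩])],
   [(3, [⟨1,0,0,0⟩])],
   [(0, [⟨0,-1,0,1⟩,⟨1,2,1,2⟩]), (1, [⟨0,0,0,0⟩,⟨0,0,0,1⟩]), (2, [⟨0,-1,0,1⟩,⟨1,2,1,1⟩]), (3, [⟨0,0,0,0⟩,⟨1,1,1,2⟩]), (4, [⟨-1,-1,-1,-1⟩,⟨0,0,1,0⟩]), (5, [⟨0,0,0,0⟩,⟨-1,-1,0,-1⟩])],
   [(0, [⟨1,-1,-2,-3⟩,⟨-1,-2,0,0⟩]), (1, [⟨1,2,2,0⟩,⟨0,-1,-1,-1⟩]), (2, [⟨0,-3,-4,-3⟩,⟨-1,-1,1,1⟩]), (3, [⟨1,0,0,-1⟩,⟨-1,-2,-1,-1⟩]), (4, [⟨1,1,-1,-1⟩,⟨-1,-1,-1,0⟩]), (5, [⟨0,1,0,0⟩,⟨0,0,-1,0⟩])]],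
  [[(0, [⟨1,0,0,0⟩])],
   [(1, [⟨1,0,0,0⟩])],
   [(0, [⟨1,0,0,-1⟩,⟨0,0,0,1⟩]), (1, [⟨0,0,0,0⟩,⟨0,1,0,0⟩]), (2, [⟨-1,-1,-1,-1⟩,⟨0,0,1,0⟩]), (3, [⟨0,0,0,0⟩,⟨-1,-1,0,-1⟩]), (4, [⟨1,2,1,1⟩,⟨-1,-1,-2,-1⟩]), (5, [⟨0,0,0,0⟩,⟨0,1,-1,0⟩])],
   [(0, [⟨1,2,2,0⟩,⟨0,-1,-1,-1⟩]), (1, [⟨0,-2,-2,-1⟩,⟨0,0,1,1⟩]), (2, [⟨1,1,-1,-1⟩,⟨-1,-1,-1,0⟩]), (3, [⟨0,1,0,0⟩,⟨0,0,-1,0⟩]), (4, [⟨-1,0,3,3⟩,⟨2,2,1,0⟩]), (5, [⟨0,-1,0,1⟩,⟨1,1,2,1⟩])],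
   [(4, [⟨1,0,0,0⟩])],
   [(5, [⟨1,0,0,0⟩])]],
  [[(0, [⟨1,0,0,0⟩])],
   [(1, [⟨1,0,0,0⟩])],
   [(0, [⟨1,0,0,-1⟩,⟨0,-1,0,0⟩]), (1, [⟨0,0,0,0⟩,⟨0,-1,0,-1⟩]), (2, [⟨-1,-1,-1,-1⟩]), (4, [⟨1,2,1,1⟩,⟨0,0,-1,0⟩]), (5, [⟨0,0,0,0⟩,⟨0,0,-1,0⟩])],
   [(0, [⟨-1,-2,-2,0⟩,⟨0,1,1,1⟩]), (1, [⟨1,0,0,-1⟩,⟨0,0,0,1⟩]), (3, [⟨0,1,0,0⟩]), (4, [⟨0,-1,-2,-2⟩,⟨-1,-1,0,0⟩]), (5, [⟨0,-1,-2,-2⟩,⟨-1,-1,0,0⟩])],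
   [(4, [⟨1,0,0,0⟩])],
   [(5, [⟨1,0,0,0⟩])]],
  [[(0, [⟨1,0,0,0⟩])],
   [(1, [⟨1,0,0,0⟩])],
   [(0, [⟨1,0,0,-1⟩]), (2, [⟨-1,-1,-1,-1⟩]), (4, [⟨1,2,1,1⟩])],
   [(0, [⟨0,0,-1,1⟩]), (1, [⟨0,0,-1,1⟩]), (3, [⟨0,1,0,0⟩]), (5, [⟨1,-1,0,0⟩])],
   [(4, [⟨1,0,0,0⟩])],
   [(5, [⟨1,0,0,0⟩])]],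
  [[(0, [⟨1,0,0,0⟩])],
   [(1, [⟨1,0,0,0⟩])],
   [(0, [⟨-1,0,1,0⟩,⟨0,1,0,-1⟩]), (1, [⟨0,0,0,0⟩,⟨-1,1,0,0⟩]), (2, [⟨-1,-1,-1,-1⟩]), (4, [⟨1,2,1,1⟩])],
   [(0, [⟨0,1,3,1⟩,⟨1,0,0,-1⟩]), (1, [⟨-2,-1,-1,-1⟩,⟨0,0,1,-1⟩]), (3, [⟨0,1,0,0⟩]), (4, [⟨-1,1,0,0⟩]), (5, [⟨0,0,-1,1⟩])],
   [(4, [⟨1,0,0,0⟩])],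
   [(5, [⟨1,0,0,0⟩])]],
  [[(0, [⟨1,0,0,0⟩])],
   [(1, [⟨1,0,0,0⟩])],
   [(0, [⟨0,-1,0,1⟩,⟨1,2,1,1⟩]), (1, [⟨0,0,0,0⟩,⟨1,1,1,2⟩]), (2, [⟨-1,-1,-1,-1⟩,⟨0,0,1,0⟩]), (3, [⟨0,0,0,0⟩,⟨-1,-1,0,-1⟩]), (4, [⟨1,2,1,1⟩,⟨-1,0,-2,-1⟩]), (5, [⟨0,0,0,0⟩,⟨0,1,0,0⟩])],
   [(0, [⟨0,-3,-4,-3⟩,⟨-1,-1,1,1⟩]), (1, [⟨1,0,0,-1⟩,⟨-1,-2,-1,-1⟩]), (2, [⟨1,1,-1,-1⟩,⟨-1,-1,-1,0⟩]), (3, [⟨0,1,0,0⟩,⟨0,0,-1,0⟩]), (4, [⟨-1,-2,1,2⟩,⟨2,2,2,1⟩]), (5, [⟨0,-2,-2,-1⟩,⟨0,0,1,1⟩])],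
   [(4, [⟨1,0,0,0⟩])],
   [(5, [⟨1,0,0,0⟩])]],
  [[(0, [⟨1,0,0,0⟩])],
   [(1, [⟨1,0,0,0⟩])],
   [(0, [⟨-1,0,1,0⟩,⟨0,0,0,-1⟩]), (1, [⟨0,0,0,0⟩,⟨0,0,0,-1⟩]), (2, [⟨-1,-1,-1,-1⟩]), (4, [⟨0,-1,0,1⟩,⟨1,1,1,1⟩]), (5, [⟨0,0,0,0⟩,⟨1,0,1,1⟩])],
   [(0, [⟨-1,-2,-2,0⟩,⟨0,1,1,1⟩]), (1, [⟨-1,-2,-2,0⟩,⟨0,1,1,1⟩]), (3, [⟨0,1,0,0⟩]), (4, [⟨0,2,2,1⟩,⟨0,0,-1,-1⟩]), (5, [⟨0,-1,0,1⟩,⟨0,1,0,0⟩])],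
   [(4, [⟨1,0,0,0⟩])],
   [(5, [⟨1,0,0,0⟩])]],
  [[(0, [⟨-1,-1,-1,-1⟩]), (2, [⟨1,2,1,1⟩]), (4, [⟨0,-1,0,1⟩])],
   [(1, [⟨0,1,0,0⟩]), (3, [⟨1,-1,0,0⟩]), (4, [⟨-1,1,0,0⟩]), (5, [⟨-1,1,0,0⟩])],
   [(2, [⟨1,0,0,0⟩])],
   [(3, [⟨1,0,0,0⟩])],
   [(4, [⟨1,0,0,0⟩])],
   [(5, [⟨1,0,0,0⟩])]],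
  [[(0, [⟨-1,-1,-1,-1⟩,⟨0,0,1,0⟩]), (1, [⟨0,0,0,0⟩,⟨-1,-1,0,-1⟩]), (2, [⟨1,2,1,1⟩,⟨-1,-1,-2,-1⟩]), (3, [⟨0,0,0,0⟩,⟨0,1,-1,0⟩]), (4, [⟨0,-1,0,1⟩,⟨0,1,0,0⟩]), (5, [⟨0,0,0,0⟩,⟨-1,-1,-1,-1⟩])],
   [(0, [⟨1,1,-1,-1⟩,⟨-1,-1,-1,0⟩]), (1, [⟨0,1,0,0⟩,⟨0,0,-1,0⟩]), (2, [⟨-1,0,3,3⟩,⟨2,2,1,0⟩]), (3, [⟨0,-1,0,1⟩,⟨1,1,2,1⟩]), (4, [⟨0,-2,-2,-1⟩,⟨0,0,1,1⟩]), (5, [⟨0,1,2,2⟩,⟨1,1,0,0⟩])],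
   [(2, [⟨1,0,0,0⟩])],
   [(3, [⟨1,0,0,0⟩])],
   [(4, [⟨1,0,0,0⟩])],
   [(5, [⟨1,0,0,0⟩])]],
  [[(0, [⟨-1,-1,-1,-1⟩]), (2, [⟨1,2,1,1⟩,⟨0,0,-1,0⟩]), (3, [⟨0,0,0,0⟩,⟨0,0,-1,0⟩]), (4, [⟨0,-1,0,1⟩,⟨1,1,1,1⟩]), (5, [⟨0,0,0,0⟩,⟨1,0,1,1⟩])],
   [(1, [⟨0,1,0,0⟩]), (2, [⟨0,-1,-2,-2⟩,⟨-1,-1,0,0⟩]), (3, [⟨0,-1,-2,-2⟩,⟨-1,-1,0,0⟩]), (4, [⟨0,2,2,1⟩,⟨0,0,-1,-1⟩]), (5, [⟨0,-1,0,1⟩,⟨0,1,0,0⟩])],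
   [(2, [⟨1,0,0,0⟩])],
   [(3, [⟨1,0,0,0⟩])],
   [(4, [⟨1,0,0,0⟩])],
   [(5, [⟨1,0,0,0⟩])]],
  [[(0, [⟨-1,-1,-1,-1⟩,⟨0,0,1,0⟩]), (1, [⟨0,0,0,0⟩,⟨-1,-1,0,-1⟩]), (2, [⟨-1,-1,-2,-1⟩,⟨-2,-1,0,-1⟩]), (3, [⟨0,0,0,0⟩,⟨0,0,1,0⟩]), (4, [⟨1,2,1,1⟩,⟨-1,-1,-2,-1⟩]), (5, [⟨0,0,0,0⟩,⟨0,1,-1,0⟩])],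
   [(0, [⟨1,1,-1,-1⟩,⟨-1,-1,-1,0⟩]), (1, [⟨0,1,0,0⟩,⟨0,0,-1,0⟩]), (2, [⟨3,4,2,1⟩,⟨0,-1,-2,0⟩]), (3, [⟨1,1,-1,-1⟩,⟨-1,-1,-1,0⟩]), (4, [⟨-1,0,3,3⟩,⟨2,2,1,0⟩]), (5, [⟨0,-1,0,1⟩,⟨1,1,2,1⟩])],
   [(2, [⟨1,0,0,0⟩])],
   [(3, [⟨1,0,0,0⟩])],
   [(4, [⟨1,0,0,0⟩])],
   [(5, [⟨1,0,0,0⟩])]],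
  [[(0, [⟨-1,-1,-1,-1⟩]), (2, [⟨0,-1,0,1⟩,⟨1,1,1,1⟩]), (3, [⟨0,0,0,0⟩,⟨1,0,1,1⟩]), (4, [⟨1,0,0,-1⟩,⟨0,-1,0,0⟩]), (5, [⟨0,0,0,0⟩,⟨0,-1,0,0⟩])],
   [(1, [⟨0,1,0,0⟩]), (2, [⟨0,2,2,1⟩,⟨0,0,-1,-1⟩]), (3, [⟨0,-1,0,1⟩,⟨0,1,0,0⟩]), (4, [⟨0,2,2,1⟩,⟨0,0,-1,-1⟩]), (5, [⟨0,2,2,1⟩,⟨0,0,-1,-1⟩])],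
   [(2, [⟨1,0,0,0⟩])],
   [(3, [⟨1,0,0,0⟩])],
   [(4, [⟨1,0,0,0⟩])],
   [(5, [⟨1,0,0,0⟩])]],
  [[(0, [⟨-1,-1,-1,-1⟩]), (2, [⟨-1,-1,-2,-1⟩]), (4, [⟨0,-1,0,1⟩,⟨1,1,2,1⟩]), (5, [⟨0,0,0,0⟩,⟨0,-1,1,0⟩])],
   [(1, [⟨0,1,0,0⟩]), (2, [⟨0,-1,1,0⟩]), (3, [⟨-1,-1,-1,-2⟩]), (4, [⟨1,3,1,0⟩,⟨-1,-1,-2,-1⟩]), (5, [⟨1,1,1,2⟩,⟨0,1,-1,0⟩])],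
   [(2, [⟨1,0,0,0⟩])],
   [(3, [⟨1,0,0,0⟩])],
   [(4, [⟨1,0,0,0⟩])],
   [(5, [⟨1,0,0,0⟩])]]]

def mats : List SM := mats0 ++ mats1 ++ mats2 ++ mats3

def permD : List (List ℕ) := [
  [3, 4, 5, 0, 1, 2, 9, 10, 11, 6, 7, 8, 15, 16, 17, 12, 13, 14, 36, 37, 38, 39, 40, 41, 42, 43, 44, 45, 46, 47, 48, 49, 50, 51, 52, 53, 18, 19, 20, 21, 22, 23, 24, 25, 26, 27, 28, 29, 30, 31, 32, 33, 34, 35, 54, 55, 56, 57, 58, 59],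
  [5, 3, 4, 1, 2, 0, 18, 19, 20, 21, 22, 23, 24, 25, 26, 27, 28, 29, 6, 7, 8, 9, 10, 11, 12, 13, 14, 15, 16, 17, 30, 31, 32, 33, 34, 35, 39, 40, 41, 36, 37, 38, 45, 46, 47, 42, 43, 44, 54, 55, 56, 57, 58, 59, 48, 49, 50, 51, 52, 53],
  [6, 7, 8, 9, 10, 11, 0, 1, 2, 3, 4, 5, 12, 13, 14, 15, 16, 17, 23, 21, 22, 19, 20, 18, 30, 31, 32, 33, 34, 35, 24, 25, 26, 27, 28, 29, 41, 39, 40, 37, 38, 36, 48, 49, 50, 51, 52, 53, 42, 43, 44, 45, 46, 47, 57, 58, 59, 54, 55, 56],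
  [0, 1, 2, 3, 4, 5, 12, 13, 14, 15, 16, 17, 6, 7, 8, 9, 10, 11, 24, 25, 26, 27, 28, 29, 18, 19, 20, 21, 22, 23, 35, 33, 34, 31, 32, 30, 42, 43, 44, 45, 46, 47, 36, 37, 38, 39, 40, 41, 53, 51, 52, 49, 50, 48, 59, 57, 58, 55, 56, 54]]

def midD : List (List ℕ) := [
  [0, 4, 8, 12, 16, 20, 0, 4, 8, 12, 16, 20, 0, 4, 8, 12, 16, 20, 44, 46, 47, 48, 49, 50, 44, 46, 47, 48, 49, 50, 44, 46, 47, 48, 49, 50, 69, 69, 69, 69, 69, 69, 69, 69, 69, 69, 69, 69, 69, 69, 69, 69, 69, 69, 3, 7, 11, 15, 19, 23],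
  [1, 5, 9, 13, 17, 21, 24, 27, 28, 29, 30, 31, 24, 27, 28, 29, 30, 31, 45, 45, 45, 45, 45, 45, 45, 45, 45, 45, 45, 45, 57, 59, 61, 63, 65, 67, 0, 4, 8, 12, 16, 20, 0, 4, 8, 12, 16, 20, 26, 26, 26, 26, 26, 26, 82, 83, 84, 85, 86, 87],
  [2, 6, 10, 14, 18, 22, 25, 25, 25, 25, 25, 25, 32, 34, 36, 38, 40, 42, 1, 5, 9, 13, 17, 21, 26, 26, 26, 26, 26, 26, 58, 60, 62, 64, 66, 68, 1, 5, 9, 13, 17, 21, 26, 26, 26, 26, 26, 26, 76, 77, 78, 79, 80, 81, 0, 4, 8, 12, 16, 20],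
  [3, 7, 11, 15, 19, 23, 26, 26, 26, 26, 26, 26, 33, 35, 37, 39, 41, 43, 26, 26, 26, 26, 26, 26, 51, 52, 53, 54, 55, 56, 1, 5, 9, 13, 17, 21, 26, 26, 26, 26, 26, 26, 70, 71, 72, 73, 74, 75, 1, 5, 9, 13, 17, 21, 1, 5, 9, 13, 17, 21]]

def expD : List (List ℕ) := [
  [0, 0, 0, 0, 0, 0, 0, 0, 0, 0, 0, 0, 0, 0, 0, 0, 0, 0, 0, 0, 0, 0, 0, 0, 0, 0, 0, 0, 0, 0, 0, 0, 0, 0, 0, 0, 0, 0, 0, 0, 0, 0, 0, 0, 0, 0, 0, 0, 0, 0, 0, 0, 0, 0, 1, 1, 1, 1, 1, 1],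
  [0, 0, 0, 0, 0, 0, 0, 0, 0, 0, 0, 0, 0, 0, 0, 0, 0, 0, 0, 0, 0, 0, 0, 0, 0, 0, 0, 0, 0, 0, 1, 1, 1, 1, 1, 1, 0, 0, 0, 0, 0, 0, 0, 0, 0, 0, 0, 0, 0, 0, 0, 0, 0, 0, 0, 0, 0, 0, 0, 0],
  [0, 0, 0, 0, 0, 0, 0, 0, 0, 0, 0, 0, 1, 1, 1, 1, 1, 1, 0, 0, 0, 0, 0, 0, 0, 0, 0, 0, 0, 0, 0, 0, 0, 0, 0, 0, 0, 0, 0, 0, 0, 0, 0, 0, 0, 0, 0, 0, 0, 0, 0, 0, 0, 0, 0, 0, 0, 0, 0, 0],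
  [1, 1, 1, 1, 1, 1, 0, 0, 0, 0, 0, 0, 0, 0, 0, 0, 0, 0, 0, 0, 0, 0, 0, 0, 0, 0, 0, 0, 0, 0, 0, 0, 0, 0, 0, 0, 0, 0, 0, 0, 0, 0, 0, 0, 0, 0, 0, 0, 0, 0, 0, 0, 0, 0, 0, 0, 0, 0, 0, 0]]

end W828
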