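import Pool.Agent.W_828d9b_h4.BPCheck

/-!
# Relations of the block monomial representation (kernel computation), part A
-/

namespace W828

theorem rel_b01_0 : relOn [0, 1, 0] [1, 0, 1] 0 10 = true := by decide +kernel
theorem rel_b01_10 : relOn [0, 1, 0] [1, 0, 1] 10 10 = true := by decide +kernel
theorem rel_b01_20 : relOn [0, 1, 0] [1, 0, 1] 20 10 = true := by decide +kernel
theorem rel_b01_30 : relOn [0, 1, 0] [1, 0, 1] 30 10 = true := by decide +kernel
theorem rel_b01_40 : relOn [0, 1, 0] [1, 0, 1] 40 10 = true := by decide +kernel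
theorem rel_b01_50 : relOn [0, 1, 0] [1, 0, 1] 50 10 = true := by decide +kernel

theorem rel_b01 (c : ℕ) (hc : c < 60) : relAt [0, 1, 0] [1, 0, 1] c = true :=
  relAll_of rel_b01_0 rel_b01_10 rel_b01_20 rel_b01_30 rel_b01_40 rel_b01_50 c hc

theorem rel_b12_0 : relOn [1, 2, 1] [2, 1, 2] 0 10 = true := by decide +kernel
theorem rel_b12_10 : relOn [1, 2, 1] [2, 1, 2] 10 10 = true := by decide +kernel
theorem rel_b12_20 : relOn [1, 2, 1] [2, 1, 2] 20 10 = true := by decide +kernel
theorem rel_b12_30 : relOn [1, 2, 1] [2, 1, 2] 30 10 = true := by decide +kernel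
theorem rel_b12_40 : relOn [1, 2, 1] [2, 1, 2] 40 10 = true := by decide +kernel
theorem rel_b12_50 : relOn [1, 2, 1] [2, 1, 2] 50 10 = true := by decide +kernel

theorem rel_b12 (c : ℕ) (hc : c < 60) : relAt [1, 2, 1] [2, 1, 2] c = true :=
  relAll_of rel_b12_0 rel_b12_10 rel_b12_20 rel_b12_30 rel_b12_40 rel_b12_50 c hc

theorem rel_b23_0 : relOn [2, 3, 2] [3, 2, 3] 0 10 = true := by decide +kernel
theorem rel_b23_10 : relOn [2, 3, 2] [3, 2, 3] 10 10 = true := by decide +kernel
theorem rel_b23_20 : relOn [2, 3, 2] [3, 2, 3] 20 10 = true := by decide +kernel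
theorem rel_b23_30 : relOn [2, 3, 2] [3, 2, 3] 30 10 = true := by decide +kernel
theorem rel_b23_40 : relOn [2, 3, 2] [3, 2, 3] 40 10 = true := by decide +kernel
theorem rel_b23_50 : relOn [2, 3, 2] [3, 2, 3] 50 10 = true := by decide +kernel

theorem rel_b23 (c : ℕ) (hc : c < 60) : relAt [2, 3, 2] [3, 2, 3] c = true :=
  relAll_of rel_b23_0 rel_b23_10 rel_b23_20 rel_b23_30 rel_b23_40 rel_b23_50 c hc

end W828
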