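import Pool.Agent.W_828d9b_h4.BPCheck

/-!
# Relations of the block monomial representation (kernel computation), part B
-/

namespace W828

theorem rel_c02_0 : relOn [0, 2] [2, 0] 0 10 = true := by decide +kernel
theorem rel_c02_10 : relOn [0, 2] [2, 0] 10 10 = true := by decide +kernel
theorem rel_c02_20 : relOn [0, 2] [2, 0] 20 10 = true := by decide +kernel
theorem rel_c02_30 : relOn [0, 2] [2, 0] 30 10 = true := by decide +kernel
theorem rel_c02_40 : relOn [0, 2] [2, 0] 40 10 = true := by decide +kernel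
theorem rel_c02_50 : relOn [0, 2] [2, 0] 50 10 = true := by decide +kernel

theorem rel_c02 (c : ℕ) (hc : c < 60) : relAt [0, 2] [2, 0] c = true :=
  relAll_of rel_c02_0 rel_c02_10 rel_c02_20 rel_c02_30 rel_c02_40 rel_c02_50 c hc

theorem rel_c03_0 : relOn [0, 3] [3, 0] 0 10 = true := by decide +kernel
theorem rel_c03_10 : relOn [0, 3] [3, 0] 10 10 = true := by decide +kernel
theorem rel_c03_20 : relOn [0, 3] [3, 0] 20 10 = true := by decide +kernel
theorem rel_c03_30 : relOn [0, 3] [3, 0] 30 10 = true := by decide +kernel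
theorem rel_c03_40 : relOn [0, 3] [3, 0] 40 10 = true := by decide +kernel
theorem rel_c03_50 : relOn [0, 3] [3, 0] 50 10 = true := by decide +kernel

theorem rel_c03 (c : ℕ) (hc : c < 60) : relAt [0, 3] [3, 0] c = true :=
  relAll_of rel_c03_0 rel_c03_10 rel_c03_20 rel_c03_30 rel_c03_40 rel_c03_50 c hc

theorem rel_c13_0 : relOn [1, 3] [3, 1] 0 10 = true := by decide +kernel
theorem rel_c13_10 : relOn [1, 3] [3, 1] 10 10 = true := by decide +kernel
theorem rel_c13_20 : relOn [1, 3] [3, 1] 20 10 = true := by decide +kernel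
theorem rel_c13_30 : relOn [1, 3] [3, 1] 30 10 = true := by decide +kernel
theorem rel_c13_40 : relOn [1, 3] [3, 1] 40 10 = true := by decide +kernel
theorem rel_c13_50 : relOn [1, 3] [3, 1] 50 10 = true := by decide +kernel

theorem rel_c13 (c : ℕ) (hc : c < 60) : relAt [1, 3] [3, 1] c = true :=
  relAll_of rel_c13_0 rel_c13_10 rel_c13_20 rel_c13_30 rel_c13_40 rel_c13_50 c hc

theorem rel_r1_0 : relOn [3, 2, 3, 2, 3, 2] [0, 0] 0 10 = true := by decide +kernel
theorem rel_r1_10 : relOn [3, 2, 3, 2, 3, 2] [0, 0] 10 10 = true := by decide +kernel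
theorem rel_r1_20 : relOn [3, 2, 3, 2, 3, 2] [0, 0] 20 10 = true := by decide +kernel
theorem rel_r1_30 : relOn [3, 2, 3, 2, 3, 2] [0, 0] 30 10 = true := by decide +kernel
theorem rel_r1_40 : relOn [3, 2, 3, 2, 3, 2] [0, 0] 40 10 = true := by decide +kernel
theorem rel_r1_50 : relOn [3, 2, 3, 2, 3, 2] [0, 0] 50 10 = true := by decide +kernel

theorem rel_r1 (c : ℕ) (hc : c < 60) : relAt [3, 2, 3, 2, 3, 2] [0, 0] c = true :=
  relAll_of rel_r1_0 rel_r1_10 rel_r1_20 rel_r1_30 rel_r1_40 rel_r1_50 c hc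

end W828
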