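import Pool.Agent.W_828d9b_h4.BPCheck

/-!
# Relations of the block monomial representation (kernel computation), part C
-/

namespace W828

theorem rel_r2_0 : relOn [1, 0, 1, 0, 1, 0] [3, 3] 0 10 = true := by decide +kernel
theorem rel_r2_10 : relOn [1, 0, 1, 0, 1, 0] [3, 3] 10 10 = true := by decide +kernel
theorem rel_r2_20 : relOn [1, 0, 1, 0, 1, 0] [3, 3] 20 10 = true := by decide +kernel
theorem rel_r2_30 : relOn [1, 0, 1, 0, 1, 0] [3, 3] 30 10 = true := by decide +kernel
theorem rel_r2_40 : relOn [1, 0, 1, 0, 1, 0] [3, 3] 40 10 = true := by decide +kernel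
theorem rel_r2_50 : relOn [1, 0, 1, 0, 1, 0] [3, 3] 50 10 = true := by decide +kernel

theorem rel_r2 (c : ℕ) (hc : c < 60) : relAt [1, 0, 1, 0, 1, 0] [3, 3] c = true :=
  relAll_of rel_r2_0 rel_r2_10 rel_r2_20 rel_r2_30 rel_r2_40 rel_r2_50 c hc

theorem rel_o0_0 : relOn [0, 0, 0, 0, 0, 0, 0, 0, 0, 0] [] 0 10 = true := by decide +kernel
theorem rel_o0_10 : relOn [0, 0, 0, 0, 0, 0, 0, 0, 0, 0] [] 10 10 = true := by decide +kernel
theorem rel_o0_20 : relOn [0, 0, 0, 0, 0, 0, 0, 0, 0, 0] [] 20 10 = true := by decide +kernel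
theorem rel_o0_30 : relOn [0, 0, 0, 0, 0, 0, 0, 0, 0, 0] [] 30 10 = true := by decide +kernel
theorem rel_o0_40 : relOn [0, 0, 0, 0, 0, 0, 0, 0, 0, 0] [] 40 10 = true := by decide +kernel
theorem rel_o0_50 : relOn [0, 0, 0, 0, 0, 0, 0, 0, 0, 0] [] 50 4 = true := by decide +kernel

/-- the blocks below 54; the other blocks are fixed by generator 0, see `quad_o0` -/
theorem rel_o0 (c : ℕ) (hc : c < 54) : relAt [0, 0, 0, 0, 0, 0, 0, 0, 0, 0] [] c = true := by
  rcases lt_or_ge c 10 with h | h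
  · exact relOn_at rel_o0_0 c (by omega) (by omega)
  rcases lt_or_ge c 20 with h | h
  · exact relOn_at rel_o0_10 c (by omega) (by omega)
  rcases lt_or_ge c 30 with h | h
  · exact relOn_at rel_o0_20 c (by omega) (by omega)
  rcases lt_or_ge c 40 with h | h
  · exact relOn_at rel_o0_30 c (by omega) (by omega)
  rcases lt_or_ge c 50 with h | h
  · exact relOn_at rel_o0_40 c (by omega) (by omega)
  · exact relOn_at rel_o0_50 c (by omega) (by omega)

/-- y = 5 a x + 25 b entrywise, a = eta^2 + eta^3 -/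
def eq3 : List PZ → List PZ → List PZ → Bool
  | [], [], [] => true
  | p :: y, q :: x, r :: b =>
    pzero (padd p (padd (pmul [⟨5, 10, 5, 5⟩] q) (pscale (-25) r))) && eq3 y x b
  | _, _, _ => false

/-- the sparse matrix A satisfies A^2 = 5 a A + 25, a = eta^2 + eta^3 -/
def quadAt (A : SM) : Bool :=
  basisV.all fun b => eq3 (appS A (appS A b)) (appS A b) b

/-- on the blocks 54, ..., 59, which are fixed by generator 0, its matrix M = A / 5 has only
the eigenvalues eta^2 and eta^3 -/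
theorem quad_o0 : ∀ c < 60, 54 ≤ c →
    permG 0 c = c ∧ expG 0 c = 1 ∧ quadAt (matG 0 c) = true := by decide +kernel

end W828
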