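import Pool.Agent.W_828d9b_h4.Grp

/-!
# Groups with four elements satisfying the relations of the presentation

The presentation: braid relations on s0, s1, s2, s3, (s2 s3)^3 = s0^2,
(s0 s1)^3 = s3^2, s0^10 = 1.
-/

namespace W828

variable {P : Type*} [Group P]

/-- The relations of the presentation. -/
structure BRel (s : Fin 4 → P) : Prop where
  b01 : s 0 * s 1 * s 0 = s 1 * s 0 * s 1
  b12 : s 1 * s 2 * s 1 = s 2 * s 1 * s 2
  b23 : s 2 * s 3 * s 2 = s 3 * s 2 * s 3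
  c02 : s 0 * s 2 = s 2 * s 0
  c03 : s 0 * s 3 = s 3 * s 0
  c13 : s 1 * s 3 = s 3 * s 1
  r1 : (s 2 * s 3) ^ 3 = s 0 ^ 2
  r2 : (s 0 * s 1) ^ 3 = s 3 ^ 2
  o : s 0 ^ 10 = 1

/-- the element w = s1 s0 s2 s1 -/
def wP (s : Fin 4 → P) : P := s 1 * s 0 * s 2 * s 1

/-- the images of the double coset representatives -/
def aP (s : Fin 4 → P) : Fin 7 → P :=
  ![1, s 3, s 3 ^ 2, s 1 * (s 3)⁻¹, s 1, s 3 ^ 3, (s 3 ^ 3)⁻¹]

/-- the image of an element of KK -/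
def rhoK (s : Fin 4 → P) (k : KK) : P :=
  s 0 ^ k.a.val * s 2 ^ k.b.val * (if k.c then wP s else 1)

/-- letters 0..7 stand for s0, s0⁻¹, s1, s1⁻¹, s2, s2⁻¹, s3, s3⁻¹; other numbers for 1 -/
def letter (s : Fin 4 → P) : ℕ → P
  | 0 => s 0
  | 1 => (s 0)⁻¹
  | 2 => s 1
  | 3 => (s 1)⁻¹
  | 4 => s 2
  | 5 => (s 2)⁻¹
  | 6 => s 3
  | 7 => (s 3)⁻¹
  | _ => 1

/-- evaluation of a word -/
def ev (s : Fin 4 → P) (l : List ℕ) : P := (l.map (letter s)).prod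

end W828
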