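import Pool.Agent.W_828d9b_h4.BPSound
import Pool.Agent.W_828d9b_h4.PRel
import Pool.Agent.W_828d9b_h4.BPRelA
import Pool.Agent.W_828d9b_h4.BPRelB
import Pool.Agent.W_828d9b_h4.BPRelC

/-!
# The four generators as units satisfying the relations

Only the relation s0 ^ 10 = 1 is checked in the kernel.  The relations (s2 s3)^3 = s0^2 and
(s0 s1)^3 = s3^2 show that all generators are units (the monoid of block monomial matrices is
Dedekind finite), and the braid relations show that they are conjugate.
-/

namespace W828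

open Matrix

variable {R : Type*} [CommRing R]

/-- one sided inverses are two sided -/
theorem BP.mul_eq_one_symm {x y : BP R} (h : x * y = 1) : y * x = 1 := by
  have hp : ∀ c, x.p (y.p c) = c := fun c => congrArg (fun z : BP R => z.p c) h
  have hm : ∀ c, x.m (y.p c) * y.m c = 1 := fun c => congrArg (fun z : BP R => z.m c) h
  have hinj : Function.Injective x.p :=
    Finite.injective_iff_surjective.2 fun c => ⟨y.p c, hp c⟩
  have hp' : ∀ c, y.p (x.p c) = c := fun c => hinj (hp (x.p c))
  apply BP.ext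
  · funext c
    exact hp' c
  · funext c
    show y.m (x.p c) * x.m c = 1
    have h1 := hm (x.p c)
    rw [hp'] at h1
    exact mul_eq_one_comm.1 h1

theorem BP.isUnit_of_mul_left {x y : BP R} (h : IsUnit (x * y)) : IsUnit x := by
  obtain ⟨u, hu⟩ := h
  have h1 : x * (y * ↑u⁻¹) = 1 := by
    rw [← mul_assoc, ← hu, Units.mul_inv]
  exact ⟨⟨x, y * ↑u⁻¹, h1, BP.mul_eq_one_symm h1⟩, rfl⟩

theorem BP.isUnit_of_mul_right {x y : BP R} (h : IsUnit (x * y)) : IsUnit y := by
  obtain ⟨u, hu⟩ := h
  have h1 : (↑u⁻¹ * x) * y = 1 := by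
    rw [mul_assoc, ← hu, Units.inv_mul]
  exact ⟨⟨y, ↑u⁻¹ * x, BP.mul_eq_one_symm h1, h1⟩, rfl⟩

/-- conjugate generators have the same order -/
theorem BP.pow_of_braid {x y : BP R} (hx : IsUnit x) (hy : IsUnit y)
    (h : x * y * x = y * x * y) {n : ℕ} (hn : x ^ n = 1) : y ^ n = 1 := by
  have h1 : SemiconjBy (x * y) x y := by
    show x * y * x = y * (x * y)
    rw [h, mul_assoc]
  have h2 : x * y * x ^ n = y ^ n * (x * y) := (h1.pow_right n : SemiconjBy _ _ _)
  rw [hn, mul_one] at h2
  have h3 : 1 * (x * y) = y ^ n * (x * y) := by rw [one_mul]; exact h2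
  exact ((hx.mul hy).mul_right_cancel h3).symm

section
variable (E : ED R)

theorem ED.g_b01 : E.gen 0 * E.gen 1 * E.gen 0 = E.gen 1 * E.gen 0 * E.gen 1 := by
  have h := E.rel_sound _ _ rel_b01
  simpa only [ED.word_cons, ED.word_nil, one_mul] using h

theorem ED.g_b12 : E.gen 1 * E.gen 2 * E.gen 1 = E.gen 2 * E.gen 1 * E.gen 2 := by
  have h := E.rel_sound _ _ rel_b12
  simpa only [ED.word_cons, ED.word_nil, one_mul] using h

theorem ED.g_b23 : E.gen 2 * E.gen 3 * E.gen 2 = E.gen 3 * E.gen 2 * E.gen 3 := by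
  have h := E.rel_sound _ _ rel_b23
  simpa only [ED.word_cons, ED.word_nil, one_mul] using h

theorem ED.g_r1 : (E.gen 2 * E.gen 3) ^ 3 = E.gen 0 ^ 2 := by
  have h := E.rel_sound _ _ rel_r1
  simp only [ED.word_cons, ED.word_nil, one_mul] at h
  rw [pow_succ, pow_succ, pow_succ, pow_zero, one_mul, pow_succ, pow_succ, pow_zero, one_mul]
  simpa only [mul_assoc] using h

theorem ED.g_r2 : (E.gen 0 * E.gen 1) ^ 3 = E.gen 3 ^ 2 := by
  have h := E.rel_sound _ _ rel_r2
  simp only [ED.word_cons, ED.word_nil, one_mul] at h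
  rw [pow_succ, pow_succ, pow_succ, pow_zero, one_mul, pow_succ, pow_succ, pow_zero, one_mul]
  simpa only [mul_assoc] using h

/-- the number a = eta^2 + eta^3 -/
def cA : Z5 := ⟨-1, -2, -1, -1⟩

/-- Fibonacci numbers for the recursion x^2 = a x + 1 -/
def fibA : ℕ → Z5 × Z5
  | 0 => (0, 1)
  | n + 1 => (cA * (fibA n).1 + (fibA n).2, (fibA n).1)

theorem fibA_ten : fibA 10 = (0, 1) := by decide +kernel

theorem ED.pow_fibA (M : Matrix (Fin 6) (Fin 6) R) (h : M * M = E.io cA • M + 1) (n : ℕ) :
    M ^ n = E.io (fibA n).1 • M + E.io (fibA n).2 • (1 : Matrix (Fin 6) (Fin 6) R) := by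
  induction n with
  | zero =>
    show M ^ 0 = E.io 0 • M + E.io 1 • (1 : Matrix (Fin 6) (Fin 6) R)
    rw [pow_zero, map_zero, map_one, zero_smul, one_smul, zero_add]
  | succ n ih =>
    show M ^ (n + 1) = E.io (cA * (fibA n).1 + (fibA n).2) • M + E.io (fibA n).1 • 1
    rw [pow_succ, ih, Matrix.add_mul, Matrix.smul_mul, Matrix.smul_mul, h, Matrix.one_mul,
      smul_add, smul_smul, map_add, map_mul, add_smul, mul_comm (E.io cA)]
    abel

theorem ED.eq3_sound (y x b : List PZ) (h : eq3 y x b = true) (i : ℕ) :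
    E.pz (y.getD i []) = 5 * E.io cA * E.pz (x.getD i []) + 25 * E.pz (b.getD i []) := by
  induction y generalizing x b i with
  | nil =>
    cases x with
    | nil =>
      cases b with
      | nil => simp [ED.pz]
      | cons r b => exact absurd h (by simp [eq3])
    | cons q x => exact absurd h (by simp [eq3])
  | cons p y ih =>
    cases x with
    | nil => exact absurd h (by simp [eq3])
    | cons q x =>
      cases b with
      | nil => exact absurd h (by simp [eq3])
      | cons r b =>
        rw [eq3, Bool.and_eq_true] at h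
        cases i with
        | zero =>
          have h1 := E.pz_of_pzero _ h.1
          have h2 : E.pz [(⟨5, 10, 5, 5⟩ : Z5)] = -(5 * E.io cA) := by
            have h3 : (⟨5, 10, 5, 5⟩ : Z5) = -(5 * cA) := by decide
            rw [h3, ED.pz, ED.pz, map_neg, map_mul, map_ofNat]
            ring
          rw [ED.pz_padd, ED.pz_padd, ED.pz_pscale, ED.pz_pmul, h2] at h1
          push_cast at h1
          simp only [List.getD_cons_zero]
          linear_combination h1
        | succ i =>
          simp only [List.getD_cons_succ]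
          exact ih x b h.2 i

theorem ED.quad_sound (A : SM) (hA : ∀ r ∈ A, ∀ x ∈ r, x.1 < 6) (h : quadAt A = true) :
    (E.f • E.sm A) * (E.f • E.sm A) = E.io cA • (E.f • E.sm A) + 1 := by
  have h5 : E.f * 5 = 1 := by rw [mul_comm]; exact E.hf
  ext i j
  have hj : basisV.getD j.val [] ∈ basisV := by
    fin_cases j <;> simp [basisV]
  have h1 := E.eq3_sound _ _ _ (List.all_eq_true.1 h _ hj) i.val
  have h2 : E.vec (appS A (appS A (basisV.getD j.val []))) i = (E.sm A * E.sm A) i j := by
    rw [E.vec_appS A hA, E.vec_appS A hA, E.vec_basis, Matrix.mulVec_mulVec,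
      Matrix.mulVec_single_one]
    rfl
  have h3 : E.vec (appS A (basisV.getD j.val [])) i = E.sm A i j := by
    rw [E.vec_appS A hA, E.vec_basis, Matrix.mulVec_single_one]
    rfl
  have h4 : E.vec (basisV.getD j.val []) i = (1 : Matrix (Fin 6) (Fin 6) R) i j := by
    rw [E.vec_basis, Matrix.one_apply, Pi.single_apply]
  rw [show E.pz ((appS A (appS A (basisV.getD j.val []))).getD i.val []) =
      E.vec (appS A (appS A (basisV.getD j.val []))) i from rfl,
    show E.pz ((appS A (basisV.getD j.val [])).getD i.val []) =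
      E.vec (appS A (basisV.getD j.val [])) i from rfl,
    show E.pz ((basisV.getD j.val []).getD i.val []) =
      E.vec (basisV.getD j.val []) i from rfl, h2, h3, h4] at h1
  rw [Matrix.smul_mul, Matrix.mul_smul, smul_smul]
  simp only [Matrix.add_apply, Matrix.smul_apply, smul_eq_mul]
  rw [h1]
  linear_combination (E.io cA * E.f * E.sm A i j +
    (E.f * 5 + 1) * (1 : Matrix (Fin 6) (Fin 6) R) i j) * h5

end

theorem BP.pow_fix (x : BP R) (c : Fin 60) (h : x.p c = c) (n : ℕ) :
    (x ^ n).p c = c ∧ (x ^ n).m c = x.m c ^ n := by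
  induction n with
  | zero => exact ⟨rfl, rfl⟩
  | succ n ih =>
    rw [pow_succ, pow_succ]
    refine ⟨?_, ?_⟩
    · rw [BP.mul_p, h, ih.1]
    · rw [BP.mul_m, h, ih.2]

theorem ED.g_o0 (E : ED R) : E.gen 0 ^ 10 = 1 := by
  have key : ∀ c : Fin 60, (E.gen 0 ^ 10).p c = c ∧ (E.gen 0 ^ 10).m c = 1 := by
    intro c
    by_cases hc : c.val < 54
    · have h1 := E.relAt_sound (List.replicate 10 0) [] c (rel_o0 c.val hc)
      rw [E.word_replicate, E.word_nil] at h1
      exact h1
    · obtain ⟨h1, h2, h3⟩ := quad_o0 c.val c.isLt (not_lt.1 hc)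
      have hp : (E.gen 0).p c = c := by
        show Fin.ofNat 60 (permG 0 c.val) = c
        rw [h1]
        apply Fin.ext
        exact Nat.mod_eq_of_lt c.isLt
      have hm : (E.gen 0).m c = E.f • E.sm (matG 0 c.val) := by
        show E.f ^ expG 0 c.val • E.sm (matG 0 c.val) = _
        rw [h2, pow_one]
      have hA : ∀ r ∈ matG 0 c.val, ∀ x ∈ r, x.1 < 6 :=
        BPSound_getD (fun A : SM => ∀ r ∈ A, ∀ x ∈ r, x.1 < 6) mats [] _ (by simp)
          fun A hA => (mats_ok A hA).2
      have h4 := BP.pow_fix (E.gen 0) c hp 10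
      refine ⟨h4.1, ?_⟩
      rw [h4.2, hm, E.pow_fibA _ (E.quad_sound _ hA h3) 10, fibA_ten]
      simp only [map_zero, map_one, zero_smul, one_smul, zero_add]
  apply BP.ext
  · funext c
    exact (key c).1
  · funext c
    exact (key c).2

theorem ED.gen_pow_ten (E : ED R) (i : Fin 4) : E.gen i.val ^ 10 = 1 := by
  have h0 := E.g_o0
  have u0 : IsUnit (E.gen 0) := IsUnit.of_pow_eq_one h0 (by norm_num)
  have u23 : IsUnit (E.gen 2 * E.gen 3) := by
    have h1 : IsUnit ((E.gen 2 * E.gen 3) ^ 3) := by
      rw [E.g_r1]; exact u0.pow 2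
    exact (isUnit_pow_iff (by norm_num)).1 h1
  have u2 := BP.isUnit_of_mul_left u23
  have u3 := BP.isUnit_of_mul_right u23
  have u01 : IsUnit (E.gen 0 * E.gen 1) := by
    have h1 : IsUnit ((E.gen 0 * E.gen 1) ^ 3) := by
      rw [E.g_r2]; exact u3.pow 2
    exact (isUnit_pow_iff (by norm_num)).1 h1
  have u1 := BP.isUnit_of_mul_right u01
  have h1 := BP.pow_of_braid u0 u1 E.g_b01 h0
  have h2 := BP.pow_of_braid u1 u2 E.g_b12 h1
  have h3 := BP.pow_of_braid u2 u3 E.g_b23 h2
  fin_cases i
  · exact h0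
  · exact h1
  · exact h2
  · exact h3

/-- the generators as units -/
def ED.s (E : ED R) (i : Fin 4) : (BP R)ˣ where
  val := E.gen i.val
  inv := E.gen i.val ^ 9
  val_inv := by rw [← pow_succ', E.gen_pow_ten i]
  inv_val := by rw [← pow_succ, E.gen_pow_ten i]

@[simp] theorem ED.s_val (E : ED R) (i : Fin 4) : (E.s i).val = E.gen i.val := rfl

theorem ED.s_rel (E : ED R) : BRel E.s where
  b01 := Units.ext (by
    have h := E.rel_sound _ _ rel_b01
    simp only [ED.word_cons, ED.word_nil, one_mul] at h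
    simpa [mul_assoc] using h)
  b12 := Units.ext (by
    have h := E.rel_sound _ _ rel_b12
    simp only [ED.word_cons, ED.word_nil, one_mul] at h
    simpa [mul_assoc] using h)
  b23 := Units.ext (by
    have h := E.rel_sound _ _ rel_b23
    simp only [ED.word_cons, ED.word_nil, one_mul] at h
    simpa [mul_assoc] using h)
  c02 := Units.ext (by
    have h := E.rel_sound _ _ rel_c02
    simp only [ED.word_cons, ED.word_nil, one_mul] at h
    simpa [mul_assoc] using h.symm)
  c03 := Units.ext (by
    have h := E.rel_sound _ _ rel_c03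
    simp only [ED.word_cons, ED.word_nil, one_mul] at h
    simpa [mul_assoc] using h.symm)
  c13 := Units.ext (by
    have h := E.rel_sound _ _ rel_c13
    simp only [ED.word_cons, ED.word_nil, one_mul] at h
    simpa [mul_assoc] using h.symm)
  r1 := Units.ext (by
    have h := E.rel_sound _ _ rel_r1
    simp only [ED.word_cons, ED.word_nil, one_mul] at h
    simpa [mul_assoc, pow_succ] using h)
  r2 := Units.ext (by
    have h := E.rel_sound _ _ rel_r2
    simp only [ED.word_cons, ED.word_nil, one_mul] at h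
    simpa [mul_assoc, pow_succ] using h)
  o := Units.ext (by
    rw [Units.val_pow_eq_pow_val, Units.val_one]
    exact E.gen_pow_ten 0)

end W828
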