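import Pool.Agent.W_828d9b_h4.BP

/-!
# Soundness of the kernel computations with sparse block matrices
-/

namespace W828

open Matrix

variable {R : Type*} [CommRing R]

theorem BPSound_getD {α : Type*} (P : α → Prop) (l : List α) (d : α) (n : ℕ) (hd : P d)
    (hl : ∀ x ∈ l, P x) : P (l.getD n d) := by
  rw [List.getD_eq_getElem?_getD]
  rcases h : l[n]? with _ | x
  · simpa using hd
  · simpa using hl x (List.mem_of_getElem? h)

/-- all columns used by the data are in range -/
theorem mats_ok : ∀ A ∈ mats, A.length ≤ 6 ∧ ∀ r ∈ A, ∀ x ∈ r, x.1 < 6 := by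
  decide +kernel

theorem BPSound_perm : ∀ l ∈ permD, ∀ x ∈ l, x < 60 := by
  decide +kernel

theorem permG_lt (i c : ℕ) : permG i c < 60 := by
  unfold permG
  refine BPSound_getD (fun x => x < 60) _ _ _ (by norm_num) ?_
  exact BPSound_getD (fun l : List ℕ => ∀ x ∈ l, x < 60) permD [] i (by simp) BPSound_perm

/-- value of a vector given by a list -/
def ED.vec (E : ED R) (v : List PZ) : Fin 6 → R := fun i => E.pz (v.getD i.val [])

theorem ED.pz_padd (E : ED R) (p q : PZ) : E.pz (padd p q) = E.pz p + E.pz q := by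
  induction p generalizing q with
  | nil => simp [padd, ED.pz]
  | cons a p ih =>
    cases q with
    | nil => simp [padd, ED.pz]
    | cons b q => rw [padd, ED.pz, ED.pz, ED.pz, ih, map_add]; ring

theorem ED.pz_mapmul (E : ED R) (a : Z5) (q : PZ) :
    E.pz (q.map (a * ·)) = E.io a * E.pz q := by
  induction q with
  | nil => simp [ED.pz]
  | cons b q ih => rw [List.map_cons, ED.pz, ED.pz, ih, map_mul]; ring

theorem ED.pz_pshift (E : ED R) (p : PZ) : E.pz (pshift p) = E.w * E.pz p := by
  cases p with
  | nil => simp [pshift, ED.pz]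
  | cons a p => rw [pshift, ED.pz, map_zero, zero_add]

theorem ED.pz_pmul (E : ED R) (p q : PZ) : E.pz (pmul p q) = E.pz p * E.pz q := by
  induction p with
  | nil => simp [pmul, ED.pz]
  | cons a p ih =>
    rw [pmul, ED.pz_padd, ED.pz_mapmul, ED.pz_pshift, ih, ED.pz]
    ring

theorem ED.pz_ptrim (E : ED R) (p : PZ) : E.pz (ptrim p) = E.pz p := by
  induction p with
  | nil => rfl
  | cons a p ih =>
    rw [ptrim]
    rcases h : ptrim p with _ | ⟨b, q⟩
    · rw [h] at ih
      have ih0 : E.pz p = 0 := by rw [← ih]; rfl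
      simp only
      split_ifs with ha
      · rw [ED.pz, ED.pz, ih0, ha, map_zero]
        ring
      · rw [ED.pz, ED.pz, ED.pz, ih0]
    · rw [h] at ih
      simp only
      rw [ED.pz, ih, ED.pz]

theorem ED.pz_pscale (E : ED R) (n : ℤ) (p : PZ) : E.pz (pscale n p) = (n : R) * E.pz p := by
  induction p with
  | nil => simp [pscale, ED.pz]
  | cons a p ih =>
    have e : pscale n (a :: p) = ⟨n * a.a, n * a.b, n * a.c, n * a.d⟩ :: pscale n p := rfl
    rw [e, ED.pz, ED.pz, ih]
    simp only [ED.io, Z5.lift_apply]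
    push_cast
    ring

theorem ED.pz_of_pzero (E : ED R) (p : PZ) (h : pzero p = true) : E.pz p = 0 := by
  induction p with
  | nil => rfl
  | cons a p ih =>
    have h' : (decide (a = 0) && pzero p) = true := h
    rw [Bool.and_eq_true, decide_eq_true_eq] at h'
    rw [ED.pz, ih h'.2, h'.1, map_zero]
    ring

theorem ED.pz_rdot_cons (E : ED R) (v : List PZ) (j : ℕ) (a : PZ) (r : List (ℕ × PZ)) :
    E.pz (rdot v ((j, a) :: r)) = E.pz a * E.pz (v.getD j []) + E.pz (rdot v r) := by
  rw [rdot]
  rcases h : v.getD j [] with _ | ⟨b, q⟩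
  · simp only
    rw [ED.pz]
    ring
  · simp only
    rw [ED.pz_padd, ED.pz_pmul]

theorem ED.pz_rdot (E : ED R) (v : List PZ) (r : List (ℕ × PZ)) (hr : ∀ x ∈ r, x.1 < 6) :
    E.pz (rdot v r) = ∑ j : Fin 6, E.row r j.val * E.vec v j := by
  induction r with
  | nil => simp [rdot, ED.pz, ED.row]
  | cons x r ih =>
    obtain ⟨i, a⟩ := x
    have hi : i < 6 := hr (i, a) (by simp)
    rw [ED.pz_rdot_cons, ih fun x hx => hr x (List.mem_cons_of_mem _ hx)]
    have e : ∀ j : Fin 6, E.row ((i, a) :: r) j.val * E.vec v j =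
        (if (⟨i, hi⟩ : Fin 6) = j then E.pz a * E.vec v j else 0) +
          E.row r j.val * E.vec v j := by
      intro j
      rw [ED.row, add_mul]
      congr 1
      by_cases hj : i = j.val
      · have hj' : (⟨i, hi⟩ : Fin 6) = j := Fin.ext hj
        rw [if_pos hj, if_pos hj']
      · have hj' : ¬ (⟨i, hi⟩ : Fin 6) = j := fun h => hj (congrArg Fin.val h)
        rw [if_neg hj, if_neg hj', zero_mul]
    rw [Finset.sum_congr rfl fun j _ => e j, Finset.sum_add_distrib, Finset.sum_ite_eq]
    simp [ED.vec]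

theorem ED.vec_appS (E : ED R) (A : SM) (hA : ∀ r ∈ A, ∀ x ∈ r, x.1 < 6) (v : List PZ) :
    E.vec (appS A v) = E.sm A *ᵥ E.vec v := by
  funext i
  have h1 : (appS A v).getD i.val [] = ptrim (rdot v (A.getD i.val [])) := by
    unfold appS
    exact List.getD_map (l := A) (d := []) (n := i.val) (fun r => ptrim (rdot v r))
  have h2 : ∀ x ∈ A.getD i.val [], x.1 < 6 :=
    BPSound_getD (fun r : List (ℕ × PZ) => ∀ x ∈ r, x.1 < 6) A [] i.val (by simp) hA
  show E.pz ((appS A v).getD i.val []) = _
  rw [h1, ED.pz_ptrim, ED.pz_rdot E v _ h2]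
  rfl

theorem ED.getD_eqV (E : ED R) (n m : ℤ) (v w : List PZ) (h : eqV n m v w = true) (i : ℕ) :
    (n : R) * E.pz (v.getD i []) = (m : R) * E.pz (w.getD i []) := by
  induction v generalizing w i with
  | nil =>
    cases w with
    | nil => simp [ED.pz]
    | cons q w => exact absurd h (by simp [eqV])
  | cons p v ih =>
    cases w with
    | nil => exact absurd h (by simp [eqV])
    | cons q w =>
      rw [eqV, Bool.and_eq_true] at h
      cases i with
      | zero =>
        have h1 := E.pz_of_pzero _ h.1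
        rw [ED.pz_padd, ED.pz_pscale, ED.pz_pscale] at h1
        push_cast at h1
        simp only [List.getD_cons_zero]
        linear_combination h1
      | succ i =>
        simp only [List.getD_cons_succ]
        exact ih w h.2 i

theorem ED.vec_eqV (E : ED R) (n m : ℤ) (v w : List PZ) (h : eqV n m v w = true) :
    (n : R) • E.vec v = (m : R) • E.vec w := by
  funext i
  exact E.getD_eqV n m v w h i.val

/-- soundness of the vector run -/
theorem ED.run_sound (E : ED R) (l : List ℕ) (c : Fin 60) (v : List PZ) (e : ℕ) :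
    ((E.word l).p c).val = (runB l c.val v e).1 ∧
    E.f ^ (runB l c.val v e).2.2 • E.vec (runB l c.val v e).2.1 =
      E.f ^ e • ((E.word l).m c *ᵥ E.vec v) := by
  induction l generalizing c v e with
  | nil =>
    refine ⟨rfl, ?_⟩
    rw [ED.word_nil, BP.one_m, Matrix.one_mulVec]
    rfl
  | cons i l ih =>
    have hc : ((E.gen i).p c).val = permG i c.val := by
      show (Fin.ofNat 60 (permG i c.val)).val = _
      rw [Fin.val_ofNat]
      exact Nat.mod_eq_of_lt (permG_lt i c.val)
    have hm : (E.gen i).m c = E.f ^ expG i c.val • E.sm (matG i c.val) := rfl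
    have hr : runB (i :: l) c.val v e =
        runB l (permG i c.val) (appS (matG i c.val) v) (e + expG i c.val) := rfl
    have hA : ∀ r ∈ matG i c.val, ∀ x ∈ r, x.1 < 6 :=
      BPSound_getD (fun A : SM => ∀ r ∈ A, ∀ x ∈ r, x.1 < 6) mats [] _ (by simp)
        fun A hA => (mats_ok A hA).2
    have h := ih ((E.gen i).p c) (appS (matG i c.val) v) (e + expG i c.val)
    rw [hc] at h
    rw [ED.word_cons, BP.mul_p, BP.mul_m, hr]
    refine ⟨h.1, ?_⟩
    rw [h.2, E.vec_appS _ hA, hm, Matrix.mul_smul, Matrix.smul_mulVec, Matrix.mulVec_mulVec,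
      smul_smul, pow_add]

theorem ED.vec_basis (E : ED R) (j : Fin 6) :
    E.vec (basisV.getD j.val []) = Pi.single j 1 := by
  have h1 : E.io 1 = 1 := map_one _
  funext i
  fin_cases j <;> fin_cases i <;> simp [ED.vec, basisV, ED.pz, h1]

theorem ED.pow_f (E : ED R) (n : ℕ) : (5 : R) ^ n * E.f ^ n = 1 := by
  rw [← mul_pow, E.hf, one_pow]

/-- the columns of the matrix of a word -/
theorem ED.run_col (E : ED R) (l : List ℕ) (c : Fin 60) (j i : Fin 6) :
    E.vec (runB l c.val (basisV.getD j.val []) 0).2.1 i =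
      (5 : R) ^ (runB l c.val (basisV.getD j.val []) 0).2.2 * (E.word l).m c i j := by
  have h := (E.run_sound l c (basisV.getD j.val []) 0).2
  rw [ED.vec_basis, pow_zero, one_smul, Matrix.mulVec_single_one] at h
  have h1 := congrFun h i
  simp only [Pi.smul_apply, smul_eq_mul, Matrix.col_apply] at h1
  rw [← h1, ← mul_assoc, E.pow_f, one_mul]

theorem ED.relAt_sound (E : ED R) (u v : List ℕ) (c : Fin 60) (h : relAt u v c.val = true) :
    (E.word u).p c = (E.word v).p c ∧ (E.word u).m c = (E.word v).m c := by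
  have h0 : ∀ j : Fin 6, (runB u c.val (basisV.getD j.val []) 0).1 =
      (runB v c.val (basisV.getD j.val []) 0).1 ∧
      eqV ((5 : ℤ) ^ (runB v c.val (basisV.getD j.val []) 0).2.2)
        ((5 : ℤ) ^ (runB u c.val (basisV.getD j.val []) 0).2.2)
        (runB u c.val (basisV.getD j.val []) 0).2.1
        (runB v c.val (basisV.getD j.val []) 0).2.1 = true := by
    intro j
    have hj : basisV.getD j.val [] ∈ basisV := by
      fin_cases j <;> simp [basisV]
    have h1 := List.all_eq_true.1 h _ hj
    simp only [Bool.and_eq_true, beq_iff_eq] at h1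
    exact h1
  constructor
  · apply Fin.ext
    rw [(E.run_sound u c (basisV.getD (0 : Fin 6).val []) 0).1,
      (E.run_sound v c (basisV.getD (0 : Fin 6).val []) 0).1]
    exact (h0 0).1
  · ext i j
    have h1 := E.getD_eqV _ _ _ _ (h0 j).2 i.val
    have h2 := E.run_col u c j i
    have h3 := E.run_col v c j i
    rw [show E.pz ((runB u c.val (basisV.getD j.val []) 0).2.1.getD i.val []) =
      E.vec (runB u c.val (basisV.getD j.val []) 0).2.1 i from rfl,
      show E.pz ((runB v c.val (basisV.getD j.val []) 0).2.1.getD i.val []) =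
      E.vec (runB v c.val (basisV.getD j.val []) 0).2.1 i from rfl, h2, h3] at h1
    push_cast at h1
    set x := (runB u c.val (basisV.getD j.val []) 0).2.2
    set y := (runB v c.val (basisV.getD j.val []) 0).2.2
    have e1 := E.pow_f x
    have e2 := E.pow_f y
    calc (E.word u).m c i j
        = (5 ^ x * E.f ^ x) * (5 ^ y * E.f ^ y) * (E.word u).m c i j := by
          rw [e1, e2]; ring
      _ = E.f ^ x * E.f ^ y * (5 ^ y * (5 ^ x * (E.word u).m c i j)) := by ring
      _ = E.f ^ x * E.f ^ y * (5 ^ x * (5 ^ y * (E.word v).m c i j)) := by rw [h1]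
      _ = (5 ^ x * E.f ^ x) * (5 ^ y * E.f ^ y) * (E.word v).m c i j := by ring
      _ = (E.word v).m c i j := by rw [e1, e2]; ring

theorem ED.rel_sound (E : ED R) (u v : List ℕ) (h : ∀ c < 60, relAt u v c = true) :
    E.word u = E.word v := by
  apply BP.ext
  · funext c
    exact (E.relAt_sound u v c (h c.val c.isLt)).1
  · funext c
    exact (E.relAt_sound u v c (h c.val c.isLt)).2

/-- the word l maps block c to block c' and 5 ^ n times its matrix has columns cols -/
def chkW (l : List ℕ) (c c' n : ℕ) (cols : List (List PZ)) : Bool :=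
  (List.range 6).all fun j =>
    let x := runB l c (basisV.getD j []) 0
    (x.1 == c') && eqV ((5 : ℤ) ^ n) ((5 : ℤ) ^ x.2.2) x.2.1 (cols.getD j [])

theorem ED.chkW_sound (E : ED R) (l : List ℕ) (c c' : Fin 60) (n : ℕ) (cols : List (List PZ))
    (h : chkW l c.val c'.val n cols = true) :
    (E.word l).p c = c' ∧
    ∀ i j : Fin 6, (5 : R) ^ n * (E.word l).m c i j = E.pz ((cols.getD j.val []).getD i.val []) := by
  have h0 : ∀ j : Fin 6, (runB l c.val (basisV.getD j.val []) 0).1 = c'.val ∧
      eqV ((5 : ℤ) ^ n) ((5 : ℤ) ^ (runB l c.val (basisV.getD j.val []) 0).2.2)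
        (runB l c.val (basisV.getD j.val []) 0).2.1 (cols.getD j.val []) = true := by
    intro j
    have h1 := List.all_eq_true.1 h j.val (List.mem_range.2 j.isLt)
    simp only [Bool.and_eq_true, beq_iff_eq] at h1
    exact h1
  constructor
  · apply Fin.ext
    rw [(E.run_sound l c (basisV.getD (0 : Fin 6).val []) 0).1]
    exact (h0 0).1
  · intro i j
    have h1 := E.getD_eqV _ _ _ _ (h0 j).2 i.val
    have h2 := E.run_col l c j i
    rw [show E.pz ((runB l c.val (basisV.getD j.val []) 0).2.1.getD i.val []) =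
      E.vec (runB l c.val (basisV.getD j.val []) 0).2.1 i from rfl, h2] at h1
    push_cast at h1
    set x := (runB l c.val (basisV.getD j.val []) 0).2.2
    have e1 := E.pow_f x
    calc (5 : R) ^ n * (E.word l).m c i j
        = (5 ^ x * E.f ^ x) * (5 ^ n * (E.word l).m c i j) := by rw [e1]; ring
      _ = E.f ^ x * (5 ^ n * (5 ^ x * (E.word l).m c i j)) := by ring
      _ = E.f ^ x * (5 ^ x * E.pz ((cols.getD j.val []).getD i.val [])) := by rw [h1]
      _ = (5 ^ x * E.f ^ x) * E.pz ((cols.getD j.val []).getD i.val []) := by ring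
      _ = E.pz ((cols.getD j.val []).getD i.val []) := by rw [e1]; ring

end W828
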