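import Pool.Agent.W_828d9b_h4.Emb

/-!
# The ball and the action of GHat on it
-/

namespace W828

/-- numerators and denominator of the fractional linear action -/
noncomputable def num1 (g : GHat) (p : ℂ × ℂ) : ℂ :=
  io (toMat g 0 0) * p.1 + io (toMat g 0 1) * p.2 + io (toMat g 0 2)
noncomputable def num2 (g : GHat) (p : ℂ × ℂ) : ℂ :=
  io (toMat g 1 0) * p.1 + io (toMat g 1 1) * p.2 + io (toMat g 1 2)
noncomputable def den (g : GHat) (p : ℂ × ℂ) : ℂ :=
  io (toMat g 2 0) * p.1 + io (toMat g 2 1) * p.2 + io (toMat g 2 2)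

/-- squared norm -/
noncomputable def sq (p : ℂ × ℂ) : ℝ := Complex.normSq p.1 + Complex.normSq p.2

theorem tr_pos : 0 < tr := lt_trans (by norm_num) tr_gt

/-- the entries of the unitarity relation -/
theorem unitary_entry (g : GHat) (i j : Fin 3) :
    star (io (toMat g 0 i)) * io (toMat g 0 j) + star (io (toMat g 1 i)) * io (toMat g 1 j)
      - (tr : ℂ) * (star (io (toMat g 2 i)) * io (toMat g 2 j)) = io (H i j) := by
  have h := congrFun (congrFun (toMat_unitary g) i) j
  rw [← h, ← io_tau]
  simp only [Matrix.mul_apply, Fin.sum_univ_three, Matrix.conjTranspose_apply, H, map_add,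
    map_mul, io_star]
  simp only [Fin.isValue, Matrix.of_apply, Matrix.cons_val', Matrix.cons_val_zero,
    Matrix.cons_val_fin_one, Matrix.cons_val_one, Matrix.cons_val, map_one, map_zero, map_neg]
  ring

/-- invariance of the form -/
theorem form_inv (g : GHat) (p : ℂ × ℂ) :
    Complex.normSq (num1 g p) + Complex.normSq (num2 g p) - tr * Complex.normSq (den g p)
      = sq p - tr := by
  have h00 := unitary_entry g 0 0
  have h01 := unitary_entry g 0 1
  have h02 := unitary_entry g 0 2
  have h10 := unitary_entry g 1 0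
  have h11 := unitary_entry g 1 1
  have h12 := unitary_entry g 1 2
  have h20 := unitary_entry g 2 0
  have h21 := unitary_entry g 2 1
  have h22 := unitary_entry g 2 2
  simp only [H, Fin.isValue, Matrix.of_apply, Matrix.cons_val', Matrix.cons_val_zero,
    Matrix.cons_val_fin_one, Matrix.cons_val_one, Matrix.cons_val, map_one, map_zero, map_neg,
    io_tau] at h00 h01 h02 h10 h11 h12 h20 h21 h22
  have key : ((Complex.normSq (num1 g p) + Complex.normSq (num2 g p)
      - tr * Complex.normSq (den g p) : ℝ) : ℂ) = ((sq p - tr : ℝ) : ℂ) := by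
    unfold sq
    push_cast
    rw [Complex.normSq_eq_conj_mul_self, Complex.normSq_eq_conj_mul_self,
      Complex.normSq_eq_conj_mul_self, Complex.normSq_eq_conj_mul_self,
      Complex.normSq_eq_conj_mul_self]
    unfold num1 num2 den
    simp only [map_add, map_mul]
    simp only [← starRingEnd_apply] at h00 h01 h02 h10 h11 h12 h20 h21 h22
    linear_combination
      ((starRingEnd ℂ) p.1 * p.1) * h00 + ((starRingEnd ℂ) p.1 * p.2) * h01 +
      (starRingEnd ℂ) p.1 * h02 + ((starRingEnd ℂ) p.2 * p.1) * h10 +
      ((starRingEnd ℂ) p.2 * p.2) * h11 + (starRingEnd ℂ) p.2 * h12 +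
      p.1 * h20 + p.2 * h21 + h22
  exact_mod_cast key

/-- the ball of squared radius tau -/
def X : Type := {p : ℂ × ℂ // sq p < tr}

noncomputable instance : TopologicalSpace X := instTopologicalSpaceSubtype

theorem den_ne_zero (g : GHat) (p : X) : den g p.1 ≠ 0 := by
  intro h
  have h1 := form_inv g p.1
  rw [h, Complex.normSq_zero, mul_zero, sub_zero] at h1
  have h2 := p.2
  have h3 := Complex.normSq_nonneg (num1 g p.1)
  have h4 := Complex.normSq_nonneg (num2 g p.1)
  linarith

theorem sq_quot (g : GHat) (p : ℂ × ℂ) (hd : den g p ≠ 0) :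
    sq (num1 g p / den g p, num2 g p / den g p) * Complex.normSq (den g p) =
      Complex.normSq (num1 g p) + Complex.normSq (num2 g p) := by
  have h0 : Complex.normSq (den g p) ≠ 0 := by
    rwa [Ne, Complex.normSq_eq_zero]
  unfold sq
  rw [Complex.normSq_div, Complex.normSq_div, add_mul, div_mul_cancel₀ _ h0,
    div_mul_cancel₀ _ h0]

/-- the action -/
noncomputable def act (g : GHat) (p : X) : X :=
  ⟨(num1 g p.1 / den g p.1, num2 g p.1 / den g p.1), by
    have hd := den_ne_zero g p
    have h0 : 0 < Complex.normSq (den g p.1) := Complex.normSq_pos.mpr hd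
    have h1 := sq_quot g p.1 hd
    have h2 := form_inv g p.1
    have h3 := p.2
    have h4 : sq (num1 g p.1 / den g p.1, num2 g p.1 / den g p.1) *
        Complex.normSq (den g p.1) < tr * Complex.normSq (den g p.1) := by
      rw [h1]
      linarith
    exact lt_of_mul_lt_mul_right h4 h0.le⟩

theorem num1_mul (g h : GHat) (p : ℂ × ℂ) : num1 (g * h) p =
    io (toMat g 0 0) * num1 h p + io (toMat g 0 1) * num2 h p + io (toMat g 0 2) * den h p := by
  unfold num1 num2 den
  simp only [toMat_mul, Matrix.mul_apply, Fin.sum_univ_three, map_add, map_mul]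
  ring

theorem num2_mul (g h : GHat) (p : ℂ × ℂ) : num2 (g * h) p =
    io (toMat g 1 0) * num1 h p + io (toMat g 1 1) * num2 h p + io (toMat g 1 2) * den h p := by
  unfold num1 num2 den
  simp only [toMat_mul, Matrix.mul_apply, Fin.sum_univ_three, map_add, map_mul]
  ring

theorem den_mul (g h : GHat) (p : ℂ × ℂ) : den (g * h) p =
    io (toMat g 2 0) * num1 h p + io (toMat g 2 1) * num2 h p + io (toMat g 2 2) * den h p := by
  unfold num1 num2 den
  simp only [toMat_mul, Matrix.mul_apply, Fin.sum_univ_three, map_add, map_mul]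
  ring

theorem quot_eq (a b c x y d : ℂ) (hd : d ≠ 0) :
    a * x + b * y + c * d = (a * (x / d) + b * (y / d) + c) * d := by
  field_simp

theorem num1_one (p : ℂ × ℂ) : num1 1 p = p.1 := by
  unfold num1
  rw [toMat_one, Matrix.one_apply_eq, Matrix.one_apply_ne (by decide),
    Matrix.one_apply_ne (by decide), map_one, map_zero]
  ring

theorem num2_one (p : ℂ × ℂ) : num2 1 p = p.2 := by
  unfold num2
  rw [toMat_one, Matrix.one_apply_eq, Matrix.one_apply_ne (by decide),
    Matrix.one_apply_ne (by decide), map_one, map_zero]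
  ring

theorem den_one (p : ℂ × ℂ) : den 1 p = 1 := by
  unfold den
  rw [toMat_one, Matrix.one_apply_eq, Matrix.one_apply_ne (by decide),
    Matrix.one_apply_ne (by decide), map_one, map_zero]
  ring

theorem act_one (p : X) : act 1 p = p := by
  apply Subtype.ext
  show (num1 1 p.1 / den 1 p.1, num2 1 p.1 / den 1 p.1) = p.1
  rw [num1_one, num2_one, den_one, div_one, div_one]

theorem act_mul (g h : GHat) (p : X) : act (g * h) p = act g (act h p) := by
  apply Subtype.ext
  have hd := den_ne_zero h p
  have e1 : num1 (g * h) p.1 = num1 g (act h p).1 * den h p.1 := by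
    rw [num1_mul]
    exact quot_eq _ _ _ _ _ _ hd
  have e2 : num2 (g * h) p.1 = num2 g (act h p).1 * den h p.1 := by
    rw [num2_mul]
    exact quot_eq _ _ _ _ _ _ hd
  have e3 : den (g * h) p.1 = den g (act h p).1 * den h p.1 := by
    rw [den_mul]
    exact quot_eq _ _ _ _ _ _ hd
  show (num1 (g * h) p.1 / den (g * h) p.1, num2 (g * h) p.1 / den (g * h) p.1) =
    (num1 g (act h p).1 / den g (act h p).1, num2 g (act h p).1 / den g (act h p).1)
  rw [e1, e2, e3, mul_div_mul_right _ _ hd, mul_div_mul_right _ _ hd]

noncomputable instance : MulAction GHat X where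
  smul := act
  one_smul := act_one
  mul_smul := act_mul

theorem smul_def (g : GHat) (p : X) : g • p = act g p := rfl

theorem continuous_num1 (g : GHat) : Continuous (num1 g) := by
  unfold num1
  fun_prop

theorem continuous_num2 (g : GHat) : Continuous (num2 g) := by
  unfold num2
  fun_prop

theorem continuous_den (g : GHat) : Continuous (den g) := by
  unfold den
  fun_prop

theorem continuous_sq : Continuous sq := by
  unfold sq
  exact (Complex.continuous_normSq.comp continuous_fst).add
    (Complex.continuous_normSq.comp continuous_snd)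

theorem continuous_X_val : Continuous (fun p : X => p.1) := continuous_subtype_val

instance : ContinuousConstSMul GHat X := by
  refine ⟨fun g => ?_⟩
  show Continuous (fun p : X => act g p)
  unfold act
  refine Continuous.subtype_mk ?_ _
  refine Continuous.prodMk ?_ ?_
  · exact ((continuous_num1 g).comp continuous_X_val).div
      ((continuous_den g).comp continuous_X_val) (fun p => den_ne_zero g p)
  · exact ((continuous_num2 g).comp continuous_X_val).div
      ((continuous_den g).comp continuous_X_val) (fun p => den_ne_zero g p)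

/-- balls are convex -/
theorem convex_sq_lt (c : ℝ) : Convex ℝ {p : ℂ × ℂ | sq p < c} := by
  have hre : ∀ (a b : ℝ) (x y : ℂ), 0 ≤ a → 0 ≤ b → a + b = 1 →
      Complex.normSq (a • x + b • y) ≤ a * Complex.normSq x + b * Complex.normSq y := by
    intro a b x y ha hb hab
    have hb' : b = 1 - a := by linarith
    subst hb'
    rw [Complex.normSq_apply, Complex.normSq_apply, Complex.normSq_apply]
    simp only [Complex.add_re, Complex.add_im, Complex.real_smul, Complex.re_ofReal_mul,
      Complex.im_ofReal_mul]
    nlinarith [mul_nonneg (mul_nonneg ha hb) (sq_nonneg (x.re - y.re)),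
      mul_nonneg (mul_nonneg ha hb) (sq_nonneg (x.im - y.im))]
  intro p hp q hq a b ha hb hab
  have h1 := hre a b p.1 q.1 ha hb hab
  have h2 := hre a b p.2 q.2 ha hb hab
  have h3 : sq (a • p + b • q) ≤ a * sq p + b * sq q := by
    unfold sq
    rw [Prod.fst_add, Prod.snd_add, Prod.smul_fst, Prod.smul_snd, Prod.smul_fst, Prod.smul_snd]
    linarith
  have hp' : sq p < c := hp
  have hq' : sq q < c := hq
  have h4 : a * sq p + b * sq q < c := by
    rcases eq_or_lt_of_le ha with h0 | h0
    · have hb1 : b = 1 := by linarith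
      rw [← h0, hb1]
      linarith
    · have e1 : a * sq p < a * c := mul_lt_mul_of_pos_left hp' h0
      have e2 : b * sq q ≤ b * c := mul_le_mul_of_nonneg_left hq'.le hb
      have e3 : a * c + b * c = c := by rw [← add_mul, hab, one_mul]
      linarith
  exact lt_of_le_of_lt h3 h4

theorem sq_zero : sq 0 = 0 := by
  unfold sq
  rw [Prod.fst_zero, Prod.snd_zero, Complex.normSq_zero, add_zero]

instance : SimplyConnectedSpace X := by
  have hc : ContractibleSpace ({p : ℂ × ℂ | sq p < tr} : Set (ℂ × ℂ)) :=
    (convex_sq_lt tr).contractibleSpace ⟨0, by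
      show sq 0 < tr
      rw [sq_zero]
      exact tr_pos⟩
  have h2 : SimplyConnectedSpace ({p : ℂ × ℂ | sq p < tr} : Set (ℂ × ℂ)) :=
    SimplyConnectedSpace.ofContractible _
  exact h2

instance : LocallyPathConnectedSpace X := by
  have ho : IsOpen {p : ℂ × ℂ | sq p < tr} := isOpen_lt continuous_sq continuous_const
  have h : LocallyPathConnectedSpace ({p : ℂ × ℂ | sq p < tr} : Set (ℂ × ℂ)) :=
    ho.locallyPathConnectedSpace
  exact h

/-- the open ball U of squared radius 0.57 tau -/
def U : Set X := {p | sq p.1 < 0.57 * tr}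

theorem isOpen_U : IsOpen U :=
  isOpen_lt (continuous_sq.comp continuous_X_val) continuous_const

theorem isPreconnected_U : IsPreconnected U := by
  have hind : Topology.IsInducing (fun p : X => p.1) := Topology.IsInducing.subtypeVal
  rw [← hind.isPreconnected_image]
  have himg : (fun p : X => p.1) '' U = {p : ℂ × ℂ | sq p < 0.57 * tr} := by
    ext p
    constructor
    · rintro ⟨q, hq, rfl⟩
      exact hq
    · intro hp
      have hp' : sq p < 0.57 * tr := hp
      have hlt : sq p < tr := by
        have := tr_pos
        linarith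
      exact ⟨⟨p, hlt⟩, hp, rfl⟩
  rw [himg]
  exact (convex_sq_lt _).isPreconnected

theorem U_nonempty : U.Nonempty := by
  refine ⟨⟨0, by rw [sq_zero]; exact tr_pos⟩, ?_⟩
  show sq 0 < 0.57 * tr
  rw [sq_zero]
  exact mul_pos (by norm_num) tr_pos

theorem sc_smul (u : ZMod 10) (p : X) : sc u • p = p := by
  rw [smul_def]
  apply Subtype.ext
  have hd := den_ne_zero (sc u) p
  have e1 : num1 (sc u) p.1 = p.1.1 * io (et u) := by
    unfold num1 sc
    rw [toMat_mkG]
    simp only [Fin.isValue, Matrix.of_apply, Matrix.cons_val', Matrix.cons_val_zero,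
      Matrix.cons_val_fin_one, Matrix.cons_val_one, Matrix.cons_val, map_zero]
    ring
  have e2 : num2 (sc u) p.1 = p.1.2 * io (et u) := by
    unfold num2 sc
    rw [toMat_mkG]
    simp only [Fin.isValue, Matrix.of_apply, Matrix.cons_val', Matrix.cons_val_zero,
      Matrix.cons_val_fin_one, Matrix.cons_val_one, Matrix.cons_val, map_zero]
    ring
  have e3 : den (sc u) p.1 = io (et u) := by
    unfold den sc
    rw [toMat_mkG]
    simp only [Fin.isValue, Matrix.of_apply, Matrix.cons_val', Matrix.cons_val_zero,
      Matrix.cons_val_fin_one, Matrix.cons_val_one, Matrix.cons_val, map_zero]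
    ring
  rw [e3] at hd
  show (num1 (sc u) p.1 / den (sc u) p.1, num2 (sc u) p.1 / den (sc u) p.1) = p.1
  rw [e1, e2, e3, mul_div_cancel_right₀ _ hd, mul_div_cancel_right₀ _ hd]

/-- transformation of tau - |p|^2 -/
theorem gap_smul (g : GHat) (p : X) :
    (tr - sq (g • p).1) * Complex.normSq (den g p.1) = tr - sq p.1 := by
  have h1 := sq_quot g p.1 (den_ne_zero g p)
  have h2 := form_inv g p.1
  have h3 : (g • p).1 = (num1 g p.1 / den g p.1, num2 g p.1 / den g p.1) := rfl
  rw [h3, sub_mul, h1]
  linarith

end W828
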