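import Pool.Agent.W_828d9b_h4.KB

/-!
# The 95 base relations and the table of all small products
-/

namespace W828

/-- base relations (i, k0, j, u, k1, l, k2):
G i * kap k0 * G j = sc u * kap k1 * G l * kap k2 -/
def base : List (Fin 7 × KK × Fin 7 × ZMod 10 × KK × Fin 7 × KK) :=
  [(1, ⟨0, 0, false⟩, 1, 0, ⟨0, 0, false⟩, 2, ⟨0, 0, false⟩),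
   (1, ⟨0, 0, true⟩, 1, 9, ⟨0, 1, true⟩, 3, ⟨1, 0, true⟩),
   (1, ⟨0, 1, false⟩, 1, 0, ⟨0, 1, false⟩, 1, ⟨0, 1, false⟩),
   (1, ⟨0, 9, false⟩, 1, 8, ⟨0, 9, false⟩, 6, ⟨2, 9, false⟩),
   (1, ⟨0, 2, false⟩, 1, 8, ⟨2, 8, false⟩, 0, ⟨0, 0, false⟩),
   (1, ⟨0, 3, false⟩, 1, 8, ⟨0, 9, false⟩, 1, ⟨2, 9, false⟩),
   (1, ⟨0, 4, false⟩, 1, 8, ⟨0, 9, false⟩, 2, ⟨2, 9, false⟩),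
   (1, ⟨0, 5, false⟩, 1, 8, ⟨0, 9, false⟩, 5, ⟨2, 9, false⟩),
   (1, ⟨0, 0, false⟩, 2, 0, ⟨0, 0, false⟩, 5, ⟨0, 0, false⟩),
   (1, ⟨0, 1, false⟩, 2, 0, ⟨0, 2, false⟩, 1, ⟨0, 1, false⟩),
   (1, ⟨0, 2, false⟩, 2, 8, ⟨0, 8, false⟩, 1, ⟨2, 0, false⟩),
   (1, ⟨0, 3, false⟩, 2, 6, ⟨0, 8, false⟩, 6, ⟨4, 9, false⟩),
   (1, ⟨0, 0, false⟩, 3, 0, ⟨0, 0, false⟩, 4, ⟨0, 0, false⟩),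
   (1, ⟨0, 1, false⟩, 3, 9, ⟨1, 9, false⟩, 3, ⟨2, 0, true⟩),
   (1, ⟨0, 2, false⟩, 3, 9, ⟨1, 9, false⟩, 4, ⟨2, 0, true⟩),
   (1, ⟨0, 2, true⟩, 3, 0, ⟨0, 2, true⟩, 3, ⟨0, 1, false⟩),
   (1, ⟨0, 3, true⟩, 3, 9, ⟨2, 0, true⟩, 1, ⟨0, 1, true⟩),
   (1, ⟨0, 4, true⟩, 3, 8, ⟨2, 0, true⟩, 3, ⟨0, 9, false⟩),
   (1, ⟨0, 1, false⟩, 4, 9, ⟨1, 0, false⟩, 3, ⟨2, 0, true⟩),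
   (1, ⟨0, 2, false⟩, 4, 8, ⟨2, 8, false⟩, 3, ⟨0, 0, false⟩),
   (1, ⟨0, 1, false⟩, 5, 0, ⟨0, 3, false⟩, 1, ⟨0, 1, false⟩),
   (1, ⟨0, 2, false⟩, 5, 8, ⟨0, 8, false⟩, 2, ⟨2, 0, false⟩),
   (1, ⟨0, 0, false⟩, 6, 2, ⟨0, 1, false⟩, 2, ⟨8, 1, false⟩),
   (1, ⟨0, 1, false⟩, 6, 0, ⟨0, 7, false⟩, 1, ⟨0, 1, false⟩),
   (2, ⟨0, 0, false⟩, 1, 0, ⟨0, 0, false⟩, 5, ⟨0, 0, false⟩),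
   (2, ⟨0, 1, false⟩, 1, 0, ⟨0, 1, false⟩, 1, ⟨0, 2, false⟩),
   (2, ⟨0, 2, false⟩, 1, 8, ⟨0, 0, false⟩, 1, ⟨2, 8, false⟩),
   (2, ⟨0, 3, false⟩, 1, 6, ⟨0, 9, false⟩, 6, ⟨4, 8, false⟩),
   (2, ⟨0, 1, false⟩, 2, 8, ⟨2, 9, false⟩, 0, ⟨0, 0, false⟩),
   (2, ⟨0, 2, true⟩, 3, 0, ⟨0, 2, true⟩, 3, ⟨0, 2, false⟩),
   (2, ⟨0, 3, true⟩, 3, 8, ⟨2, 1, true⟩, 3, ⟨0, 8, false⟩),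
   (2, ⟨0, 1, false⟩, 4, 9, ⟨1, 0, false⟩, 4, ⟨2, 0, true⟩),
   (2, ⟨0, 1, false⟩, 5, 8, ⟨0, 9, false⟩, 1, ⟨2, 0, false⟩),
   (2, ⟨0, 0, false⟩, 6, 2, ⟨0, 2, false⟩, 1, ⟨8, 2, false⟩),
   (3, ⟨0, 0, false⟩, 1, 0, ⟨0, 0, false⟩, 4, ⟨0, 0, false⟩),
   (3, ⟨0, 1, false⟩, 1, 9, ⟨0, 2, true⟩, 3, ⟨1, 9, false⟩),
   (3, ⟨0, 2, false⟩, 1, 9, ⟨9, 1, false⟩, 4, ⟨0, 2, true⟩),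
   (3, ⟨2, 0, true⟩, 1, 0, ⟨0, 1, false⟩, 3, ⟨2, 0, true⟩),
   (3, ⟨3, 0, true⟩, 1, 9, ⟨1, 0, true⟩, 1, ⟨0, 2, true⟩),
   (3, ⟨4, 0, true⟩, 1, 8, ⟨0, 9, false⟩, 3, ⟨0, 2, true⟩),
   (3, ⟨2, 0, true⟩, 2, 0, ⟨0, 2, false⟩, 3, ⟨2, 0, true⟩),
   (3, ⟨3, 0, true⟩, 2, 8, ⟨0, 8, false⟩, 3, ⟨1, 2, true⟩),
   (3, ⟨1, 0, false⟩, 3, 1, ⟨0, 1, false⟩, 4, ⟨2, 1, true⟩),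
   (3, ⟨1, 1, false⟩, 3, 0, ⟨0, 3, true⟩, 3, ⟨3, 0, true⟩),
   (3, ⟨2, 0, false⟩, 3, 8, ⟨8, 0, false⟩, 0, ⟨0, 0, false⟩),
   (3, ⟨1, 2, false⟩, 3, 0, ⟨9, 2, false⟩, 4, ⟨9, 2, false⟩),
   (3, ⟨2, 1, false⟩, 3, 8, ⟨0, 0, true⟩, 1, ⟨2, 0, true⟩),
   (3, ⟨2, 9, false⟩, 3, 0, ⟨2, 0, true⟩, 1, ⟨0, 2, true⟩),
   (3, ⟨3, 0, false⟩, 3, 8, ⟨9, 0, false⟩, 4, ⟨9, 0, false⟩),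
   (3, ⟨1, 2, true⟩, 3, 0, ⟨1, 2, true⟩, 3, ⟨1, 9, false⟩),
   (3, ⟨2, 1, true⟩, 3, 0, ⟨1, 9, false⟩, 3, ⟨2, 1, true⟩),
   (3, ⟨2, 2, false⟩, 3, 8, ⟨0, 0, true⟩, 2, ⟨2, 0, true⟩),
   (3, ⟨2, 8, false⟩, 3, 0, ⟨1, 0, true⟩, 2, ⟨0, 1, true⟩),
   (3, ⟨3, 9, false⟩, 3, 8, ⟨0, 1, true⟩, 3, ⟨1, 0, true⟩),
   (3, ⟨1, 3, true⟩, 3, 9, ⟨9, 3, true⟩, 3, ⟨1, 1, true⟩),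
   (3, ⟨2, 2, true⟩, 3, 9, ⟨0, 1, false⟩, 1, ⟨7, 1, false⟩),
   (3, ⟨2, 3, false⟩, 3, 8, ⟨0, 0, true⟩, 5, ⟨2, 0, true⟩),
   (3, ⟨2, 7, false⟩, 3, 8, ⟨0, 0, true⟩, 6, ⟨2, 0, true⟩),
   (3, ⟨3, 1, true⟩, 3, 9, ⟨1, 1, true⟩, 3, ⟨3, 9, true⟩),
   (3, ⟨3, 8, false⟩, 3, 9, ⟨0, 9, false⟩, 4, ⟨0, 1, true⟩),
   (3, ⟨2, 3, true⟩, 3, 8, ⟨9, 1, false⟩, 3, ⟨2, 9, true⟩),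
   (3, ⟨3, 2, true⟩, 3, 8, ⟨9, 2, true⟩, 3, ⟨9, 1, false⟩),
   (3, ⟨1, 0, false⟩, 4, 0, ⟨1, 0, false⟩, 3, ⟨1, 0, false⟩),
   (3, ⟨1, 1, false⟩, 4, 9, ⟨0, 2, false⟩, 1, ⟨8, 2, true⟩),
   (3, ⟨2, 0, false⟩, 4, 8, ⟨0, 0, false⟩, 1, ⟨8, 0, false⟩),
   (3, ⟨1, 2, false⟩, 4, 8, ⟨9, 2, false⟩, 3, ⟨1, 8, false⟩),
   (3, ⟨2, 1, false⟩, 4, 7, ⟨9, 0, false⟩, 3, ⟨1, 0, true⟩),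
   (3, ⟨2, 9, false⟩, 4, 9, ⟨1, 8, false⟩, 3, ⟨1, 2, true⟩),
   (3, ⟨2, 0, true⟩, 5, 0, ⟨0, 3, false⟩, 3, ⟨2, 0, true⟩),
   (3, ⟨2, 0, true⟩, 6, 0, ⟨0, 7, false⟩, 3, ⟨2, 0, true⟩),
   (4, ⟨0, 1, false⟩, 1, 9, ⟨0, 2, true⟩, 3, ⟨1, 0, false⟩),
   (4, ⟨0, 2, false⟩, 1, 8, ⟨0, 0, false⟩, 3, ⟨2, 8, false⟩),
   (4, ⟨0, 1, false⟩, 2, 9, ⟨9, 1, false⟩, 4, ⟨1, 2, true⟩),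
   (4, ⟨1, 0, false⟩, 3, 0, ⟨1, 0, false⟩, 3, ⟨1, 0, false⟩),
   (4, ⟨1, 1, false⟩, 3, 9, ⟨2, 0, true⟩, 1, ⟨8, 2, false⟩),
   (4, ⟨2, 0, false⟩, 3, 8, ⟨0, 0, false⟩, 1, ⟨8, 0, false⟩),
   (4, ⟨1, 2, false⟩, 3, 8, ⟨1, 8, false⟩, 3, ⟨9, 2, false⟩),
   (4, ⟨2, 1, false⟩, 3, 7, ⟨0, 1, true⟩, 3, ⟨9, 0, false⟩),
   (4, ⟨2, 9, false⟩, 3, 9, ⟨2, 1, true⟩, 3, ⟨1, 8, false⟩),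
   (4, ⟨0, 1, false⟩, 4, 0, ⟨0, 1, false⟩, 4, ⟨0, 1, false⟩),
   (4, ⟨0, 2, false⟩, 4, 8, ⟨1, 0, true⟩, 2, ⟨0, 1, true⟩),
   (4, ⟨1, 1, false⟩, 4, 7, ⟨0, 0, true⟩, 0, ⟨0, 0, false⟩),
   (4, ⟨1, 2, false⟩, 4, 7, ⟨0, 9, false⟩, 4, ⟨0, 1, true⟩),
   (5, ⟨0, 1, false⟩, 1, 0, ⟨0, 1, false⟩, 1, ⟨0, 3, false⟩),
   (5, ⟨0, 2, false⟩, 1, 8, ⟨0, 0, false⟩, 2, ⟨2, 8, false⟩),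
   (5, ⟨0, 1, false⟩, 2, 8, ⟨0, 0, false⟩, 1, ⟨2, 9, false⟩),
   (5, ⟨0, 2, true⟩, 3, 0, ⟨0, 2, true⟩, 3, ⟨0, 3, false⟩),
   (5, ⟨0, 1, false⟩, 5, 6, ⟨0, 9, false⟩, 6, ⟨4, 9, false⟩),
   (5, ⟨0, 0, false⟩, 6, 0, ⟨0, 0, false⟩, 0, ⟨0, 0, false⟩),
   (6, ⟨0, 0, false⟩, 1, 2, ⟨0, 1, false⟩, 2, ⟨8, 1, false⟩),
   (6, ⟨0, 1, false⟩, 1, 0, ⟨0, 1, false⟩, 1, ⟨0, 7, false⟩),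
   (6, ⟨0, 0, false⟩, 2, 2, ⟨0, 2, false⟩, 1, ⟨8, 2, false⟩),
   (6, ⟨0, 2, true⟩, 3, 0, ⟨0, 2, true⟩, 3, ⟨0, 7, false⟩),
   (6, ⟨0, 0, false⟩, 5, 0, ⟨0, 0, false⟩, 0, ⟨0, 0, false⟩),
   (6, ⟨0, 9, false⟩, 6, 4, ⟨0, 1, false⟩, 5, ⟨6, 1, false⟩)]

def tabC0 : List (Fin 7 × KK × Fin 7 × KK × ℕ × KK) :=
  [(1, ⟨0, 0, false⟩, 1, ⟨0, 0, false⟩, 0, ⟨0, 0, false⟩),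
   (1, ⟨0, 0, true⟩, 1, ⟨0, 0, false⟩, 1, ⟨0, 0, false⟩),
   (1, ⟨0, 1, false⟩, 1, ⟨0, 0, false⟩, 2, ⟨0, 0, false⟩),
   (1, ⟨0, 1, true⟩, 1, ⟨0, 0, false⟩, 1, ⟨1, 0, false⟩),
   (1, ⟨0, 2, false⟩, 1, ⟨0, 0, false⟩, 4, ⟨0, 0, false⟩),
   (1, ⟨0, 2, true⟩, 1, ⟨0, 0, false⟩, 1, ⟨2, 0, false⟩),
   (1, ⟨0, 3, false⟩, 1, ⟨0, 0, false⟩, 5, ⟨0, 0, false⟩),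
   (1, ⟨0, 3, true⟩, 1, ⟨0, 0, false⟩, 1, ⟨3, 0, false⟩),
   (1, ⟨0, 4, false⟩, 1, ⟨0, 0, false⟩, 6, ⟨0, 0, false⟩),
   (1, ⟨0, 4, true⟩, 1, ⟨0, 0, false⟩, 1, ⟨4, 0, false⟩),
   (1, ⟨0, 5, false⟩, 1, ⟨0, 0, false⟩, 7, ⟨0, 0, false⟩),
   (1, ⟨0, 5, true⟩, 1, ⟨0, 0, false⟩, 1, ⟨5, 0, false⟩),
   (1, ⟨0, 6, true⟩, 1, ⟨0, 0, false⟩, 1, ⟨6, 0, false⟩),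
   (1, ⟨0, 7, true⟩, 1, ⟨0, 0, false⟩, 1, ⟨7, 0, false⟩),
   (1, ⟨0, 8, true⟩, 1, ⟨0, 0, false⟩, 1, ⟨8, 0, false⟩),
   (1, ⟨0, 9, false⟩, 1, ⟨0, 0, false⟩, 3, ⟨0, 0, false⟩),
   (1, ⟨0, 9, true⟩, 1, ⟨0, 0, false⟩, 1, ⟨9, 0, false⟩),
   (1, ⟨1, 0, false⟩, 1, ⟨0, 0, false⟩, 0, ⟨1, 0, false⟩),
   (1, ⟨1, 0, true⟩, 1, ⟨1, 0, false⟩, 1, ⟨0, 0, false⟩),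
   (1, ⟨1, 1, false⟩, 1, ⟨0, 0, false⟩, 2, ⟨1, 0, false⟩),
   (1, ⟨1, 1, true⟩, 1, ⟨1, 0, false⟩, 1, ⟨1, 0, false⟩),
   (1, ⟨1, 2, false⟩, 1, ⟨0, 0, false⟩, 4, ⟨1, 0, false⟩),
   (1, ⟨1, 2, true⟩, 1, ⟨1, 0, false⟩, 1, ⟨2, 0, false⟩),
   (1, ⟨1, 3, false⟩, 1, ⟨0, 0, false⟩, 5, ⟨1, 0, false⟩),
   (1, ⟨1, 3, true⟩, 1, ⟨1, 0, false⟩, 1, ⟨3, 0, false⟩),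
   (1, ⟨1, 4, false⟩, 1, ⟨0, 0, false⟩, 6, ⟨1, 0, false⟩),
   (1, ⟨1, 4, true⟩, 1, ⟨1, 0, false⟩, 1, ⟨4, 0, false⟩),
   (1, ⟨1, 5, false⟩, 1, ⟨0, 0, false⟩, 7, ⟨1, 0, false⟩),
   (1, ⟨1, 5, true⟩, 1, ⟨1, 0, false⟩, 1, ⟨5, 0, false⟩),
   (1, ⟨1, 6, true⟩, 1, ⟨1, 0, false⟩, 1, ⟨6, 0, false⟩),
   (1, ⟨1, 7, true⟩, 1, ⟨1, 0, false⟩, 1, ⟨7, 0, false⟩),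
   (1, ⟨1, 8, true⟩, 1, ⟨1, 0, false⟩, 1, ⟨8, 0, false⟩),
   (1, ⟨1, 9, false⟩, 1, ⟨0, 0, false⟩, 3, ⟨1, 0, false⟩),
   (1, ⟨1, 9, true⟩, 1, ⟨1, 0, false⟩, 1, ⟨9, 0, false⟩),
   (1, ⟨2, 0, false⟩, 1, ⟨0, 0, false⟩, 0, ⟨2, 0, false⟩),
   (1, ⟨2, 0, true⟩, 1, ⟨2, 0, false⟩, 1, ⟨0, 0, false⟩),
   (1, ⟨2, 1, false⟩, 1, ⟨0, 0, false⟩, 2, ⟨2, 0, false⟩),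
   (1, ⟨2, 1, true⟩, 1, ⟨2, 0, false⟩, 1, ⟨1, 0, false⟩),
   (1, ⟨2, 2, false⟩, 1, ⟨0, 0, false⟩, 4, ⟨2, 0, false⟩),
   (1, ⟨2, 2, true⟩, 1, ⟨2, 0, false⟩, 1, ⟨2, 0, false⟩),
   (1, ⟨2, 3, false⟩, 1, ⟨0, 0, false⟩, 5, ⟨2, 0, false⟩),
   (1, ⟨2, 3, true⟩, 1, ⟨2, 0, false⟩, 1, ⟨3, 0, false⟩),
   (1, ⟨2, 4, false⟩, 1, ⟨0, 0, false⟩, 6, ⟨2, 0, false⟩),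
   (1, ⟨2, 4, true⟩, 1, ⟨2, 0, false⟩, 1, ⟨4, 0, false⟩),
   (1, ⟨2, 5, false⟩, 1, ⟨0, 0, false⟩, 7, ⟨2, 0, false⟩),
   (1, ⟨2, 5, true⟩, 1, ⟨2, 0, false⟩, 1, ⟨5, 0, false⟩),
   (1, ⟨2, 6, true⟩, 1, ⟨2, 0, false⟩, 1, ⟨6, 0, false⟩),
   (1, ⟨2, 7, true⟩, 1, ⟨2, 0, false⟩, 1, ⟨7, 0, false⟩),
   (1, ⟨2, 8, true⟩, 1, ⟨2, 0, false⟩, 1, ⟨8, 0, false⟩),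
   (1, ⟨2, 9, false⟩, 1, ⟨0, 0, false⟩, 3, ⟨2, 0, false⟩),
   (1, ⟨2, 9, true⟩, 1, ⟨2, 0, false⟩, 1, ⟨9, 0, false⟩),
   (1, ⟨3, 0, false⟩, 1, ⟨0, 0, false⟩, 0, ⟨3, 0, false⟩),
   (1, ⟨3, 0, true⟩, 1, ⟨3, 0, false⟩, 1, ⟨0, 0, false⟩),
   (1, ⟨3, 1, false⟩, 1, ⟨0, 0, false⟩, 2, ⟨3, 0, false⟩),
   (1, ⟨3, 1, true⟩, 1, ⟨3, 0, false⟩, 1, ⟨1, 0, false⟩),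
   (1, ⟨3, 2, false⟩, 1, ⟨0, 0, false⟩, 4, ⟨3, 0, false⟩),
   (1, ⟨3, 2, true⟩, 1, ⟨3, 0, false⟩, 1, ⟨2, 0, false⟩),
   (1, ⟨3, 3, false⟩, 1, ⟨0, 0, false⟩, 5, ⟨3, 0, false⟩),
   (1, ⟨3, 3, true⟩, 1, ⟨3, 0, false⟩, 1, ⟨3, 0, false⟩),
   (1, ⟨3, 4, false⟩, 1, ⟨0, 0, false⟩, 6, ⟨3, 0, false⟩),
   (1, ⟨3, 4, true⟩, 1, ⟨3, 0, false⟩, 1, ⟨4, 0, false⟩),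
   (1, ⟨3, 5, false⟩, 1, ⟨0, 0, false⟩, 7, ⟨3, 0, false⟩),
   (1, ⟨3, 5, true⟩, 1, ⟨3, 0, false⟩, 1, ⟨5, 0, false⟩),
   (1, ⟨3, 6, true⟩, 1, ⟨3, 0, false⟩, 1, ⟨6, 0, false⟩),
   (1, ⟨3, 7, true⟩, 1, ⟨3, 0, false⟩, 1, ⟨7, 0, false⟩),
   (1, ⟨3, 8, true⟩, 1, ⟨3, 0, false⟩, 1, ⟨8, 0, false⟩),
   (1, ⟨3, 9, false⟩, 1, ⟨0, 0, false⟩, 3, ⟨3, 0, false⟩),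
   (1, ⟨3, 9, true⟩, 1, ⟨3, 0, false⟩, 1, ⟨9, 0, false⟩),
   (1, ⟨4, 0, false⟩, 1, ⟨0, 0, false⟩, 0, ⟨4, 0, false⟩),
   (1, ⟨4, 0, true⟩, 1, ⟨4, 0, false⟩, 1, ⟨0, 0, false⟩),
   (1, ⟨4, 1, false⟩, 1, ⟨0, 0, false⟩, 2, ⟨4, 0, false⟩),
   (1, ⟨4, 1, true⟩, 1, ⟨4, 0, false⟩, 1, ⟨1, 0, false⟩),
   (1, ⟨4, 2, false⟩, 1, ⟨0, 0, false⟩, 4, ⟨4, 0, false⟩),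
   (1, ⟨4, 2, true⟩, 1, ⟨4, 0, false⟩, 1, ⟨2, 0, false⟩),
   (1, ⟨4, 3, false⟩, 1, ⟨0, 0, false⟩, 5, ⟨4, 0, false⟩),
   (1, ⟨4, 3, true⟩, 1, ⟨4, 0, false⟩, 1, ⟨3, 0, false⟩),
   (1, ⟨4, 4, false⟩, 1, ⟨0, 0, false⟩, 6, ⟨4, 0, false⟩),
   (1, ⟨4, 4, true⟩, 1, ⟨4, 0, false⟩, 1, ⟨4, 0, false⟩),
   (1, ⟨4, 5, false⟩, 1, ⟨0, 0, false⟩, 7, ⟨4, 0, false⟩),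
   (1, ⟨4, 5, true⟩, 1, ⟨4, 0, false⟩, 1, ⟨5, 0, false⟩),
   (1, ⟨4, 6, true⟩, 1, ⟨4, 0, false⟩, 1, ⟨6, 0, false⟩),
   (1, ⟨4, 7, true⟩, 1, ⟨4, 0, false⟩, 1, ⟨7, 0, false⟩),
   (1, ⟨4, 8, true⟩, 1, ⟨4, 0, false⟩, 1, ⟨8, 0, false⟩),
   (1, ⟨4, 9, false⟩, 1, ⟨0, 0, false⟩, 3, ⟨4, 0, false⟩),
   (1, ⟨4, 9, true⟩, 1, ⟨4, 0, false⟩, 1, ⟨9, 0, false⟩),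
   (1, ⟨5, 0, false⟩, 1, ⟨0, 0, false⟩, 0, ⟨5, 0, false⟩),
   (1, ⟨5, 0, true⟩, 1, ⟨5, 0, false⟩, 1, ⟨0, 0, false⟩),
   (1, ⟨5, 1, false⟩, 1, ⟨0, 0, false⟩, 2, ⟨5, 0, false⟩),
   (1, ⟨5, 1, true⟩, 1, ⟨5, 0, false⟩, 1, ⟨1, 0, false⟩),
   (1, ⟨5, 2, false⟩, 1, ⟨0, 0, false⟩, 4, ⟨5, 0, false⟩),
   (1, ⟨5, 2, true⟩, 1, ⟨5, 0, false⟩, 1, ⟨2, 0, false⟩),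
   (1, ⟨5, 3, false⟩, 1, ⟨0, 0, false⟩, 5, ⟨5, 0, false⟩),
   (1, ⟨5, 3, true⟩, 1, ⟨5, 0, false⟩, 1, ⟨3, 0, false⟩),
   (1, ⟨5, 4, false⟩, 1, ⟨0, 0, false⟩, 6, ⟨5, 0, false⟩),
   (1, ⟨5, 4, true⟩, 1, ⟨5, 0, false⟩, 1, ⟨4, 0, false⟩),
   (1, ⟨5, 5, false⟩, 1, ⟨0, 0, false⟩, 7, ⟨5, 0, false⟩),
   (1, ⟨5, 5, true⟩, 1, ⟨5, 0, false⟩, 1, ⟨5, 0, false⟩),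
   (1, ⟨5, 6, true⟩, 1, ⟨5, 0, false⟩, 1, ⟨6, 0, false⟩),
   (1, ⟨5, 7, true⟩, 1, ⟨5, 0, false⟩, 1, ⟨7, 0, false⟩),
   (1, ⟨5, 8, true⟩, 1, ⟨5, 0, false⟩, 1, ⟨8, 0, false⟩)]

def tabC1 : List (Fin 7 × KK × Fin 7 × KK × ℕ × KK) :=
  [(1, ⟨5, 9, false⟩, 1, ⟨0, 0, false⟩, 3, ⟨5, 0, false⟩),
   (1, ⟨5, 9, true⟩, 1, ⟨5, 0, false⟩, 1, ⟨9, 0, false⟩),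
   (1, ⟨6, 0, false⟩, 1, ⟨0, 0, false⟩, 0, ⟨6, 0, false⟩),
   (1, ⟨6, 0, true⟩, 1, ⟨6, 0, false⟩, 1, ⟨0, 0, false⟩),
   (1, ⟨6, 1, false⟩, 1, ⟨0, 0, false⟩, 2, ⟨6, 0, false⟩),
   (1, ⟨6, 1, true⟩, 1, ⟨6, 0, false⟩, 1, ⟨1, 0, false⟩),
   (1, ⟨6, 2, false⟩, 1, ⟨0, 0, false⟩, 4, ⟨6, 0, false⟩),
   (1, ⟨6, 2, true⟩, 1, ⟨6, 0, false⟩, 1, ⟨2, 0, false⟩),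
   (1, ⟨6, 3, false⟩, 1, ⟨0, 0, false⟩, 5, ⟨6, 0, false⟩),
   (1, ⟨6, 3, true⟩, 1, ⟨6, 0, false⟩, 1, ⟨3, 0, false⟩),
   (1, ⟨6, 4, false⟩, 1, ⟨0, 0, false⟩, 6, ⟨6, 0, false⟩),
   (1, ⟨6, 4, true⟩, 1, ⟨6, 0, false⟩, 1, ⟨4, 0, false⟩),
   (1, ⟨6, 5, false⟩, 1, ⟨0, 0, false⟩, 7, ⟨6, 0, false⟩),
   (1, ⟨6, 5, true⟩, 1, ⟨6, 0, false⟩, 1, ⟨5, 0, false⟩),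
   (1, ⟨6, 6, true⟩, 1, ⟨6, 0, false⟩, 1, ⟨6, 0, false⟩),
   (1, ⟨6, 7, true⟩, 1, ⟨6, 0, false⟩, 1, ⟨7, 0, false⟩),
   (1, ⟨6, 8, true⟩, 1, ⟨6, 0, false⟩, 1, ⟨8, 0, false⟩),
   (1, ⟨6, 9, false⟩, 1, ⟨0, 0, false⟩, 3, ⟨6, 0, false⟩),
   (1, ⟨6, 9, true⟩, 1, ⟨6, 0, false⟩, 1, ⟨9, 0, false⟩),
   (1, ⟨7, 0, false⟩, 1, ⟨0, 0, false⟩, 0, ⟨7, 0, false⟩),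
   (1, ⟨7, 0, true⟩, 1, ⟨7, 0, false⟩, 1, ⟨0, 0, false⟩),
   (1, ⟨7, 1, false⟩, 1, ⟨0, 0, false⟩, 2, ⟨7, 0, false⟩),
   (1, ⟨7, 1, true⟩, 1, ⟨7, 0, false⟩, 1, ⟨1, 0, false⟩),
   (1, ⟨7, 2, false⟩, 1, ⟨0, 0, false⟩, 4, ⟨7, 0, false⟩),
   (1, ⟨7, 2, true⟩, 1, ⟨7, 0, false⟩, 1, ⟨2, 0, false⟩),
   (1, ⟨7, 3, false⟩, 1, ⟨0, 0, false⟩, 5, ⟨7, 0, false⟩),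
   (1, ⟨7, 3, true⟩, 1, ⟨7, 0, false⟩, 1, ⟨3, 0, false⟩),
   (1, ⟨7, 4, false⟩, 1, ⟨0, 0, false⟩, 6, ⟨7, 0, false⟩),
   (1, ⟨7, 4, true⟩, 1, ⟨7, 0, false⟩, 1, ⟨4, 0, false⟩),
   (1, ⟨7, 5, false⟩, 1, ⟨0, 0, false⟩, 7, ⟨7, 0, false⟩),
   (1, ⟨7, 5, true⟩, 1, ⟨7, 0, false⟩, 1, ⟨5, 0, false⟩),
   (1, ⟨7, 6, true⟩, 1, ⟨7, 0, false⟩, 1, ⟨6, 0, false⟩),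
   (1, ⟨7, 7, true⟩, 1, ⟨7, 0, false⟩, 1, ⟨7, 0, false⟩),
   (1, ⟨7, 8, true⟩, 1, ⟨7, 0, false⟩, 1, ⟨8, 0, false⟩),
   (1, ⟨7, 9, false⟩, 1, ⟨0, 0, false⟩, 3, ⟨7, 0, false⟩),
   (1, ⟨7, 9, true⟩, 1, ⟨7, 0, false⟩, 1, ⟨9, 0, false⟩),
   (1, ⟨8, 0, false⟩, 1, ⟨0, 0, false⟩, 0, ⟨8, 0, false⟩),
   (1, ⟨8, 0, true⟩, 1, ⟨8, 0, false⟩, 1, ⟨0, 0, false⟩),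
   (1, ⟨8, 1, false⟩, 1, ⟨0, 0, false⟩, 2, ⟨8, 0, false⟩),
   (1, ⟨8, 1, true⟩, 1, ⟨8, 0, false⟩, 1, ⟨1, 0, false⟩),
   (1, ⟨8, 2, false⟩, 1, ⟨0, 0, false⟩, 4, ⟨8, 0, false⟩),
   (1, ⟨8, 2, true⟩, 1, ⟨8, 0, false⟩, 1, ⟨2, 0, false⟩),
   (1, ⟨8, 3, false⟩, 1, ⟨0, 0, false⟩, 5, ⟨8, 0, false⟩),
   (1, ⟨8, 3, true⟩, 1, ⟨8, 0, false⟩, 1, ⟨3, 0, false⟩),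
   (1, ⟨8, 4, false⟩, 1, ⟨0, 0, false⟩, 6, ⟨8, 0, false⟩),
   (1, ⟨8, 4, true⟩, 1, ⟨8, 0, false⟩, 1, ⟨4, 0, false⟩),
   (1, ⟨8, 5, false⟩, 1, ⟨0, 0, false⟩, 7, ⟨8, 0, false⟩),
   (1, ⟨8, 5, true⟩, 1, ⟨8, 0, false⟩, 1, ⟨5, 0, false⟩),
   (1, ⟨8, 6, true⟩, 1, ⟨8, 0, false⟩, 1, ⟨6, 0, false⟩),
   (1, ⟨8, 7, true⟩, 1, ⟨8, 0, false⟩, 1, ⟨7, 0, false⟩),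
   (1, ⟨8, 8, true⟩, 1, ⟨8, 0, false⟩, 1, ⟨8, 0, false⟩),
   (1, ⟨8, 9, false⟩, 1, ⟨0, 0, false⟩, 3, ⟨8, 0, false⟩),
   (1, ⟨8, 9, true⟩, 1, ⟨8, 0, false⟩, 1, ⟨9, 0, false⟩),
   (1, ⟨9, 0, false⟩, 1, ⟨0, 0, false⟩, 0, ⟨9, 0, false⟩),
   (1, ⟨9, 0, true⟩, 1, ⟨9, 0, false⟩, 1, ⟨0, 0, false⟩),
   (1, ⟨9, 1, false⟩, 1, ⟨0, 0, false⟩, 2, ⟨9, 0, false⟩),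
   (1, ⟨9, 1, true⟩, 1, ⟨9, 0, false⟩, 1, ⟨1, 0, false⟩),
   (1, ⟨9, 2, false⟩, 1, ⟨0, 0, false⟩, 4, ⟨9, 0, false⟩),
   (1, ⟨9, 2, true⟩, 1, ⟨9, 0, false⟩, 1, ⟨2, 0, false⟩),
   (1, ⟨9, 3, false⟩, 1, ⟨0, 0, false⟩, 5, ⟨9, 0, false⟩),
   (1, ⟨9, 3, true⟩, 1, ⟨9, 0, false⟩, 1, ⟨3, 0, false⟩),
   (1, ⟨9, 4, false⟩, 1, ⟨0, 0, false⟩, 6, ⟨9, 0, false⟩),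
   (1, ⟨9, 4, true⟩, 1, ⟨9, 0, false⟩, 1, ⟨4, 0, false⟩),
   (1, ⟨9, 5, false⟩, 1, ⟨0, 0, false⟩, 7, ⟨9, 0, false⟩),
   (1, ⟨9, 5, true⟩, 1, ⟨9, 0, false⟩, 1, ⟨5, 0, false⟩),
   (1, ⟨9, 6, true⟩, 1, ⟨9, 0, false⟩, 1, ⟨6, 0, false⟩),
   (1, ⟨9, 7, true⟩, 1, ⟨9, 0, false⟩, 1, ⟨7, 0, false⟩),
   (1, ⟨9, 8, true⟩, 1, ⟨9, 0, false⟩, 1, ⟨8, 0, false⟩),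
   (1, ⟨9, 9, false⟩, 1, ⟨0, 0, false⟩, 3, ⟨9, 0, false⟩),
   (1, ⟨9, 9, true⟩, 1, ⟨9, 0, false⟩, 1, ⟨9, 0, false⟩),
   (1, ⟨0, 0, false⟩, 2, ⟨0, 0, false⟩, 8, ⟨0, 0, false⟩),
   (1, ⟨0, 1, false⟩, 2, ⟨0, 0, false⟩, 9, ⟨0, 0, false⟩),
   (1, ⟨0, 2, false⟩, 2, ⟨0, 0, false⟩, 10, ⟨0, 0, false⟩),
   (1, ⟨0, 3, false⟩, 2, ⟨0, 0, false⟩, 11, ⟨0, 0, false⟩),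
   (1, ⟨1, 0, false⟩, 2, ⟨0, 0, false⟩, 8, ⟨1, 0, false⟩),
   (1, ⟨1, 1, false⟩, 2, ⟨0, 0, false⟩, 9, ⟨1, 0, false⟩),
   (1, ⟨1, 2, false⟩, 2, ⟨0, 0, false⟩, 10, ⟨1, 0, false⟩),
   (1, ⟨1, 3, false⟩, 2, ⟨0, 0, false⟩, 11, ⟨1, 0, false⟩),
   (1, ⟨2, 0, false⟩, 2, ⟨0, 0, false⟩, 8, ⟨2, 0, false⟩),
   (1, ⟨2, 1, false⟩, 2, ⟨0, 0, false⟩, 9, ⟨2, 0, false⟩),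
   (1, ⟨2, 2, false⟩, 2, ⟨0, 0, false⟩, 10, ⟨2, 0, false⟩),
   (1, ⟨2, 3, false⟩, 2, ⟨0, 0, false⟩, 11, ⟨2, 0, false⟩),
   (1, ⟨3, 0, false⟩, 2, ⟨0, 0, false⟩, 8, ⟨3, 0, false⟩),
   (1, ⟨3, 1, false⟩, 2, ⟨0, 0, false⟩, 9, ⟨3, 0, false⟩),
   (1, ⟨3, 2, false⟩, 2, ⟨0, 0, false⟩, 10, ⟨3, 0, false⟩),
   (1, ⟨3, 3, false⟩, 2, ⟨0, 0, false⟩, 11, ⟨3, 0, false⟩),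
   (1, ⟨4, 0, false⟩, 2, ⟨0, 0, false⟩, 8, ⟨4, 0, false⟩),
   (1, ⟨4, 1, false⟩, 2, ⟨0, 0, false⟩, 9, ⟨4, 0, false⟩),
   (1, ⟨4, 2, false⟩, 2, ⟨0, 0, false⟩, 10, ⟨4, 0, false⟩),
   (1, ⟨4, 3, false⟩, 2, ⟨0, 0, false⟩, 11, ⟨4, 0, false⟩),
   (1, ⟨5, 0, false⟩, 2, ⟨0, 0, false⟩, 8, ⟨5, 0, false⟩),
   (1, ⟨5, 1, false⟩, 2, ⟨0, 0, false⟩, 9, ⟨5, 0, false⟩),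
   (1, ⟨5, 2, false⟩, 2, ⟨0, 0, false⟩, 10, ⟨5, 0, false⟩),
   (1, ⟨5, 3, false⟩, 2, ⟨0, 0, false⟩, 11, ⟨5, 0, false⟩),
   (1, ⟨6, 0, false⟩, 2, ⟨0, 0, false⟩, 8, ⟨6, 0, false⟩),
   (1, ⟨6, 1, false⟩, 2, ⟨0, 0, false⟩, 9, ⟨6, 0, false⟩),
   (1, ⟨6, 2, false⟩, 2, ⟨0, 0, false⟩, 10, ⟨6, 0, false⟩),
   (1, ⟨6, 3, false⟩, 2, ⟨0, 0, false⟩, 11, ⟨6, 0, false⟩),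
   (1, ⟨7, 0, false⟩, 2, ⟨0, 0, false⟩, 8, ⟨7, 0, false⟩),
   (1, ⟨7, 1, false⟩, 2, ⟨0, 0, false⟩, 9, ⟨7, 0, false⟩)]

def tabC2 : List (Fin 7 × KK × Fin 7 × KK × ℕ × KK) :=
  [(1, ⟨7, 2, false⟩, 2, ⟨0, 0, false⟩, 10, ⟨7, 0, false⟩),
   (1, ⟨7, 3, false⟩, 2, ⟨0, 0, false⟩, 11, ⟨7, 0, false⟩),
   (1, ⟨8, 0, false⟩, 2, ⟨0, 0, false⟩, 8, ⟨8, 0, false⟩),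
   (1, ⟨8, 1, false⟩, 2, ⟨0, 0, false⟩, 9, ⟨8, 0, false⟩),
   (1, ⟨8, 2, false⟩, 2, ⟨0, 0, false⟩, 10, ⟨8, 0, false⟩),
   (1, ⟨8, 3, false⟩, 2, ⟨0, 0, false⟩, 11, ⟨8, 0, false⟩),
   (1, ⟨9, 0, false⟩, 2, ⟨0, 0, false⟩, 8, ⟨9, 0, false⟩),
   (1, ⟨9, 1, false⟩, 2, ⟨0, 0, false⟩, 9, ⟨9, 0, false⟩),
   (1, ⟨9, 2, false⟩, 2, ⟨0, 0, false⟩, 10, ⟨9, 0, false⟩),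
   (1, ⟨9, 3, false⟩, 2, ⟨0, 0, false⟩, 11, ⟨9, 0, false⟩),
   (1, ⟨0, 0, false⟩, 3, ⟨0, 0, false⟩, 12, ⟨0, 0, false⟩),
   (1, ⟨0, 1, false⟩, 3, ⟨0, 0, false⟩, 13, ⟨0, 0, false⟩),
   (1, ⟨0, 2, false⟩, 3, ⟨0, 0, false⟩, 14, ⟨0, 0, false⟩),
   (1, ⟨0, 2, true⟩, 3, ⟨0, 0, false⟩, 15, ⟨0, 0, false⟩),
   (1, ⟨0, 3, true⟩, 3, ⟨0, 0, false⟩, 16, ⟨0, 0, false⟩),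
   (1, ⟨0, 4, true⟩, 3, ⟨0, 0, false⟩, 17, ⟨0, 0, false⟩),
   (1, ⟨1, 0, false⟩, 3, ⟨1, 0, false⟩, 12, ⟨0, 0, false⟩),
   (1, ⟨1, 1, false⟩, 3, ⟨1, 0, false⟩, 13, ⟨0, 0, false⟩),
   (1, ⟨1, 2, false⟩, 3, ⟨1, 0, false⟩, 14, ⟨0, 0, false⟩),
   (1, ⟨1, 2, true⟩, 3, ⟨1, 0, false⟩, 15, ⟨0, 0, false⟩),
   (1, ⟨1, 3, true⟩, 3, ⟨1, 0, false⟩, 16, ⟨0, 0, false⟩),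
   (1, ⟨1, 4, true⟩, 3, ⟨1, 0, false⟩, 17, ⟨0, 0, false⟩),
   (1, ⟨2, 0, false⟩, 3, ⟨2, 0, false⟩, 12, ⟨0, 0, false⟩),
   (1, ⟨2, 1, false⟩, 3, ⟨2, 0, false⟩, 13, ⟨0, 0, false⟩),
   (1, ⟨2, 2, false⟩, 3, ⟨2, 0, false⟩, 14, ⟨0, 0, false⟩),
   (1, ⟨2, 2, true⟩, 3, ⟨2, 0, false⟩, 15, ⟨0, 0, false⟩),
   (1, ⟨2, 3, true⟩, 3, ⟨2, 0, false⟩, 16, ⟨0, 0, false⟩),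
   (1, ⟨2, 4, true⟩, 3, ⟨2, 0, false⟩, 17, ⟨0, 0, false⟩),
   (1, ⟨3, 0, false⟩, 3, ⟨3, 0, false⟩, 12, ⟨0, 0, false⟩),
   (1, ⟨3, 1, false⟩, 3, ⟨3, 0, false⟩, 13, ⟨0, 0, false⟩),
   (1, ⟨3, 2, false⟩, 3, ⟨3, 0, false⟩, 14, ⟨0, 0, false⟩),
   (1, ⟨3, 2, true⟩, 3, ⟨3, 0, false⟩, 15, ⟨0, 0, false⟩),
   (1, ⟨3, 3, true⟩, 3, ⟨3, 0, false⟩, 16, ⟨0, 0, false⟩),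
   (1, ⟨3, 4, true⟩, 3, ⟨3, 0, false⟩, 17, ⟨0, 0, false⟩),
   (1, ⟨4, 0, false⟩, 3, ⟨4, 0, false⟩, 12, ⟨0, 0, false⟩),
   (1, ⟨4, 1, false⟩, 3, ⟨4, 0, false⟩, 13, ⟨0, 0, false⟩),
   (1, ⟨4, 2, false⟩, 3, ⟨4, 0, false⟩, 14, ⟨0, 0, false⟩),
   (1, ⟨4, 2, true⟩, 3, ⟨4, 0, false⟩, 15, ⟨0, 0, false⟩),
   (1, ⟨4, 3, true⟩, 3, ⟨4, 0, false⟩, 16, ⟨0, 0, false⟩),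
   (1, ⟨4, 4, true⟩, 3, ⟨4, 0, false⟩, 17, ⟨0, 0, false⟩),
   (1, ⟨5, 0, false⟩, 3, ⟨5, 0, false⟩, 12, ⟨0, 0, false⟩),
   (1, ⟨5, 1, false⟩, 3, ⟨5, 0, false⟩, 13, ⟨0, 0, false⟩),
   (1, ⟨5, 2, false⟩, 3, ⟨5, 0, false⟩, 14, ⟨0, 0, false⟩),
   (1, ⟨5, 2, true⟩, 3, ⟨5, 0, false⟩, 15, ⟨0, 0, false⟩),
   (1, ⟨5, 3, true⟩, 3, ⟨5, 0, false⟩, 16, ⟨0, 0, false⟩),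
   (1, ⟨5, 4, true⟩, 3, ⟨5, 0, false⟩, 17, ⟨0, 0, false⟩),
   (1, ⟨6, 0, false⟩, 3, ⟨6, 0, false⟩, 12, ⟨0, 0, false⟩),
   (1, ⟨6, 1, false⟩, 3, ⟨6, 0, false⟩, 13, ⟨0, 0, false⟩),
   (1, ⟨6, 2, false⟩, 3, ⟨6, 0, false⟩, 14, ⟨0, 0, false⟩),
   (1, ⟨6, 2, true⟩, 3, ⟨6, 0, false⟩, 15, ⟨0, 0, false⟩),
   (1, ⟨6, 3, true⟩, 3, ⟨6, 0, false⟩, 16, ⟨0, 0, false⟩),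
   (1, ⟨6, 4, true⟩, 3, ⟨6, 0, false⟩, 17, ⟨0, 0, false⟩),
   (1, ⟨7, 0, false⟩, 3, ⟨7, 0, false⟩, 12, ⟨0, 0, false⟩),
   (1, ⟨7, 1, false⟩, 3, ⟨7, 0, false⟩, 13, ⟨0, 0, false⟩),
   (1, ⟨7, 2, false⟩, 3, ⟨7, 0, false⟩, 14, ⟨0, 0, false⟩),
   (1, ⟨7, 2, true⟩, 3, ⟨7, 0, false⟩, 15, ⟨0, 0, false⟩),
   (1, ⟨7, 3, true⟩, 3, ⟨7, 0, false⟩, 16, ⟨0, 0, false⟩),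
   (1, ⟨7, 4, true⟩, 3, ⟨7, 0, false⟩, 17, ⟨0, 0, false⟩),
   (1, ⟨8, 0, false⟩, 3, ⟨8, 0, false⟩, 12, ⟨0, 0, false⟩),
   (1, ⟨8, 1, false⟩, 3, ⟨8, 0, false⟩, 13, ⟨0, 0, false⟩),
   (1, ⟨8, 2, false⟩, 3, ⟨8, 0, false⟩, 14, ⟨0, 0, false⟩),
   (1, ⟨8, 2, true⟩, 3, ⟨8, 0, false⟩, 15, ⟨0, 0, false⟩),
   (1, ⟨8, 3, true⟩, 3, ⟨8, 0, false⟩, 16, ⟨0, 0, false⟩),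
   (1, ⟨8, 4, true⟩, 3, ⟨8, 0, false⟩, 17, ⟨0, 0, false⟩),
   (1, ⟨9, 0, false⟩, 3, ⟨9, 0, false⟩, 12, ⟨0, 0, false⟩),
   (1, ⟨9, 1, false⟩, 3, ⟨9, 0, false⟩, 13, ⟨0, 0, false⟩),
   (1, ⟨9, 2, false⟩, 3, ⟨9, 0, false⟩, 14, ⟨0, 0, false⟩),
   (1, ⟨9, 2, true⟩, 3, ⟨9, 0, false⟩, 15, ⟨0, 0, false⟩),
   (1, ⟨9, 3, true⟩, 3, ⟨9, 0, false⟩, 16, ⟨0, 0, false⟩),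
   (1, ⟨9, 4, true⟩, 3, ⟨9, 0, false⟩, 17, ⟨0, 0, false⟩),
   (1, ⟨0, 1, false⟩, 4, ⟨0, 0, false⟩, 18, ⟨0, 0, false⟩),
   (1, ⟨0, 2, false⟩, 4, ⟨0, 0, false⟩, 19, ⟨0, 0, false⟩),
   (1, ⟨0, 2, true⟩, 4, ⟨9, 0, false⟩, 18, ⟨1, 1, true⟩),
   (1, ⟨0, 3, true⟩, 4, ⟨9, 0, false⟩, 19, ⟨1, 1, true⟩),
   (1, ⟨1, 1, false⟩, 4, ⟨1, 0, false⟩, 18, ⟨0, 0, false⟩),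
   (1, ⟨1, 2, false⟩, 4, ⟨1, 0, false⟩, 19, ⟨0, 0, false⟩),
   (1, ⟨1, 2, true⟩, 4, ⟨0, 0, false⟩, 18, ⟨1, 1, true⟩),
   (1, ⟨1, 3, true⟩, 4, ⟨0, 0, false⟩, 19, ⟨1, 1, true⟩),
   (1, ⟨2, 1, false⟩, 4, ⟨2, 0, false⟩, 18, ⟨0, 0, false⟩),
   (1, ⟨2, 2, false⟩, 4, ⟨2, 0, false⟩, 19, ⟨0, 0, false⟩),
   (1, ⟨2, 2, true⟩, 4, ⟨1, 0, false⟩, 18, ⟨1, 1, true⟩),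
   (1, ⟨2, 3, true⟩, 4, ⟨1, 0, false⟩, 19, ⟨1, 1, true⟩),
   (1, ⟨3, 1, false⟩, 4, ⟨3, 0, false⟩, 18, ⟨0, 0, false⟩),
   (1, ⟨3, 2, false⟩, 4, ⟨3, 0, false⟩, 19, ⟨0, 0, false⟩),
   (1, ⟨3, 2, true⟩, 4, ⟨2, 0, false⟩, 18, ⟨1, 1, true⟩),
   (1, ⟨3, 3, true⟩, 4, ⟨2, 0, false⟩, 19, ⟨1, 1, true⟩),
   (1, ⟨4, 1, false⟩, 4, ⟨4, 0, false⟩, 18, ⟨0, 0, false⟩),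
   (1, ⟨4, 2, false⟩, 4, ⟨4, 0, false⟩, 19, ⟨0, 0, false⟩),
   (1, ⟨4, 2, true⟩, 4, ⟨3, 0, false⟩, 18, ⟨1, 1, true⟩),
   (1, ⟨4, 3, true⟩, 4, ⟨3, 0, false⟩, 19, ⟨1, 1, true⟩),
   (1, ⟨5, 1, false⟩, 4, ⟨5, 0, false⟩, 18, ⟨0, 0, false⟩),
   (1, ⟨5, 2, false⟩, 4, ⟨5, 0, false⟩, 19, ⟨0, 0, false⟩),
   (1, ⟨5, 2, true⟩, 4, ⟨4, 0, false⟩, 18, ⟨1, 1, true⟩),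
   (1, ⟨5, 3, true⟩, 4, ⟨4, 0, false⟩, 19, ⟨1, 1, true⟩),
   (1, ⟨6, 1, false⟩, 4, ⟨6, 0, false⟩, 18, ⟨0, 0, false⟩),
   (1, ⟨6, 2, false⟩, 4, ⟨6, 0, false⟩, 19, ⟨0, 0, false⟩),
   (1, ⟨6, 2, true⟩, 4, ⟨5, 0, false⟩, 18, ⟨1, 1, true⟩),
   (1, ⟨6, 3, true⟩, 4, ⟨5, 0, false⟩, 19, ⟨1, 1, true⟩),
   (1, ⟨7, 1, false⟩, 4, ⟨7, 0, false⟩, 18, ⟨0, 0, false⟩),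
   (1, ⟨7, 2, false⟩, 4, ⟨7, 0, false⟩, 19, ⟨0, 0, false⟩)]

def tabC3 : List (Fin 7 × KK × Fin 7 × KK × ℕ × KK) :=
  [(1, ⟨7, 2, true⟩, 4, ⟨6, 0, false⟩, 18, ⟨1, 1, true⟩),
   (1, ⟨7, 3, true⟩, 4, ⟨6, 0, false⟩, 19, ⟨1, 1, true⟩),
   (1, ⟨8, 1, false⟩, 4, ⟨8, 0, false⟩, 18, ⟨0, 0, false⟩),
   (1, ⟨8, 2, false⟩, 4, ⟨8, 0, false⟩, 19, ⟨0, 0, false⟩),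
   (1, ⟨8, 2, true⟩, 4, ⟨7, 0, false⟩, 18, ⟨1, 1, true⟩),
   (1, ⟨8, 3, true⟩, 4, ⟨7, 0, false⟩, 19, ⟨1, 1, true⟩),
   (1, ⟨9, 1, false⟩, 4, ⟨9, 0, false⟩, 18, ⟨0, 0, false⟩),
   (1, ⟨9, 2, false⟩, 4, ⟨9, 0, false⟩, 19, ⟨0, 0, false⟩),
   (1, ⟨9, 2, true⟩, 4, ⟨8, 0, false⟩, 18, ⟨1, 1, true⟩),
   (1, ⟨9, 3, true⟩, 4, ⟨8, 0, false⟩, 19, ⟨1, 1, true⟩),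
   (1, ⟨0, 1, false⟩, 5, ⟨0, 0, false⟩, 20, ⟨0, 0, false⟩),
   (1, ⟨0, 2, false⟩, 5, ⟨0, 0, false⟩, 21, ⟨0, 0, false⟩),
   (1, ⟨1, 1, false⟩, 5, ⟨0, 0, false⟩, 20, ⟨1, 0, false⟩),
   (1, ⟨1, 2, false⟩, 5, ⟨0, 0, false⟩, 21, ⟨1, 0, false⟩),
   (1, ⟨2, 1, false⟩, 5, ⟨0, 0, false⟩, 20, ⟨2, 0, false⟩),
   (1, ⟨2, 2, false⟩, 5, ⟨0, 0, false⟩, 21, ⟨2, 0, false⟩),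
   (1, ⟨3, 1, false⟩, 5, ⟨0, 0, false⟩, 20, ⟨3, 0, false⟩),
   (1, ⟨3, 2, false⟩, 5, ⟨0, 0, false⟩, 21, ⟨3, 0, false⟩),
   (1, ⟨4, 1, false⟩, 5, ⟨0, 0, false⟩, 20, ⟨4, 0, false⟩),
   (1, ⟨4, 2, false⟩, 5, ⟨0, 0, false⟩, 21, ⟨4, 0, false⟩),
   (1, ⟨5, 1, false⟩, 5, ⟨0, 0, false⟩, 20, ⟨5, 0, false⟩),
   (1, ⟨5, 2, false⟩, 5, ⟨0, 0, false⟩, 21, ⟨5, 0, false⟩),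
   (1, ⟨6, 1, false⟩, 5, ⟨0, 0, false⟩, 20, ⟨6, 0, false⟩),
   (1, ⟨6, 2, false⟩, 5, ⟨0, 0, false⟩, 21, ⟨6, 0, false⟩),
   (1, ⟨7, 1, false⟩, 5, ⟨0, 0, false⟩, 20, ⟨7, 0, false⟩),
   (1, ⟨7, 2, false⟩, 5, ⟨0, 0, false⟩, 21, ⟨7, 0, false⟩),
   (1, ⟨8, 1, false⟩, 5, ⟨0, 0, false⟩, 20, ⟨8, 0, false⟩),
   (1, ⟨8, 2, false⟩, 5, ⟨0, 0, false⟩, 21, ⟨8, 0, false⟩),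
   (1, ⟨9, 1, false⟩, 5, ⟨0, 0, false⟩, 20, ⟨9, 0, false⟩),
   (1, ⟨9, 2, false⟩, 5, ⟨0, 0, false⟩, 21, ⟨9, 0, false⟩),
   (1, ⟨0, 0, false⟩, 6, ⟨0, 0, false⟩, 22, ⟨0, 0, false⟩),
   (1, ⟨0, 1, false⟩, 6, ⟨0, 0, false⟩, 23, ⟨0, 0, false⟩),
   (1, ⟨1, 0, false⟩, 6, ⟨0, 0, false⟩, 22, ⟨1, 0, false⟩),
   (1, ⟨1, 1, false⟩, 6, ⟨0, 0, false⟩, 23, ⟨1, 0, false⟩),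
   (1, ⟨2, 0, false⟩, 6, ⟨0, 0, false⟩, 22, ⟨2, 0, false⟩),
   (1, ⟨2, 1, false⟩, 6, ⟨0, 0, false⟩, 23, ⟨2, 0, false⟩),
   (1, ⟨3, 0, false⟩, 6, ⟨0, 0, false⟩, 22, ⟨3, 0, false⟩),
   (1, ⟨3, 1, false⟩, 6, ⟨0, 0, false⟩, 23, ⟨3, 0, false⟩),
   (1, ⟨4, 0, false⟩, 6, ⟨0, 0, false⟩, 22, ⟨4, 0, false⟩),
   (1, ⟨4, 1, false⟩, 6, ⟨0, 0, false⟩, 23, ⟨4, 0, false⟩),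
   (1, ⟨5, 0, false⟩, 6, ⟨0, 0, false⟩, 22, ⟨5, 0, false⟩),
   (1, ⟨5, 1, false⟩, 6, ⟨0, 0, false⟩, 23, ⟨5, 0, false⟩),
   (1, ⟨6, 0, false⟩, 6, ⟨0, 0, false⟩, 22, ⟨6, 0, false⟩),
   (1, ⟨6, 1, false⟩, 6, ⟨0, 0, false⟩, 23, ⟨6, 0, false⟩),
   (1, ⟨7, 0, false⟩, 6, ⟨0, 0, false⟩, 22, ⟨7, 0, false⟩),
   (1, ⟨7, 1, false⟩, 6, ⟨0, 0, false⟩, 23, ⟨7, 0, false⟩),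
   (1, ⟨8, 0, false⟩, 6, ⟨0, 0, false⟩, 22, ⟨8, 0, false⟩),
   (1, ⟨8, 1, false⟩, 6, ⟨0, 0, false⟩, 23, ⟨8, 0, false⟩),
   (1, ⟨9, 0, false⟩, 6, ⟨0, 0, false⟩, 22, ⟨9, 0, false⟩),
   (1, ⟨9, 1, false⟩, 6, ⟨0, 0, false⟩, 23, ⟨9, 0, false⟩),
   (2, ⟨0, 0, false⟩, 1, ⟨0, 0, false⟩, 24, ⟨0, 0, false⟩),
   (2, ⟨0, 1, false⟩, 1, ⟨0, 0, false⟩, 25, ⟨0, 0, false⟩),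
   (2, ⟨0, 2, false⟩, 1, ⟨0, 0, false⟩, 26, ⟨0, 0, false⟩),
   (2, ⟨0, 3, false⟩, 1, ⟨0, 0, false⟩, 27, ⟨0, 0, false⟩),
   (2, ⟨1, 0, false⟩, 1, ⟨0, 0, false⟩, 24, ⟨1, 0, false⟩),
   (2, ⟨1, 1, false⟩, 1, ⟨0, 0, false⟩, 25, ⟨1, 0, false⟩),
   (2, ⟨1, 2, false⟩, 1, ⟨0, 0, false⟩, 26, ⟨1, 0, false⟩),
   (2, ⟨1, 3, false⟩, 1, ⟨0, 0, false⟩, 27, ⟨1, 0, false⟩),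
   (2, ⟨2, 0, false⟩, 1, ⟨0, 0, false⟩, 24, ⟨2, 0, false⟩),
   (2, ⟨2, 1, false⟩, 1, ⟨0, 0, false⟩, 25, ⟨2, 0, false⟩),
   (2, ⟨2, 2, false⟩, 1, ⟨0, 0, false⟩, 26, ⟨2, 0, false⟩),
   (2, ⟨2, 3, false⟩, 1, ⟨0, 0, false⟩, 27, ⟨2, 0, false⟩),
   (2, ⟨3, 0, false⟩, 1, ⟨0, 0, false⟩, 24, ⟨3, 0, false⟩),
   (2, ⟨3, 1, false⟩, 1, ⟨0, 0, false⟩, 25, ⟨3, 0, false⟩),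
   (2, ⟨3, 2, false⟩, 1, ⟨0, 0, false⟩, 26, ⟨3, 0, false⟩),
   (2, ⟨3, 3, false⟩, 1, ⟨0, 0, false⟩, 27, ⟨3, 0, false⟩),
   (2, ⟨4, 0, false⟩, 1, ⟨0, 0, false⟩, 24, ⟨4, 0, false⟩),
   (2, ⟨4, 1, false⟩, 1, ⟨0, 0, false⟩, 25, ⟨4, 0, false⟩),
   (2, ⟨4, 2, false⟩, 1, ⟨0, 0, false⟩, 26, ⟨4, 0, false⟩),
   (2, ⟨4, 3, false⟩, 1, ⟨0, 0, false⟩, 27, ⟨4, 0, false⟩),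
   (2, ⟨5, 0, false⟩, 1, ⟨0, 0, false⟩, 24, ⟨5, 0, false⟩),
   (2, ⟨5, 1, false⟩, 1, ⟨0, 0, false⟩, 25, ⟨5, 0, false⟩),
   (2, ⟨5, 2, false⟩, 1, ⟨0, 0, false⟩, 26, ⟨5, 0, false⟩),
   (2, ⟨5, 3, false⟩, 1, ⟨0, 0, false⟩, 27, ⟨5, 0, false⟩),
   (2, ⟨6, 0, false⟩, 1, ⟨0, 0, false⟩, 24, ⟨6, 0, false⟩),
   (2, ⟨6, 1, false⟩, 1, ⟨0, 0, false⟩, 25, ⟨6, 0, false⟩),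
   (2, ⟨6, 2, false⟩, 1, ⟨0, 0, false⟩, 26, ⟨6, 0, false⟩),
   (2, ⟨6, 3, false⟩, 1, ⟨0, 0, false⟩, 27, ⟨6, 0, false⟩),
   (2, ⟨7, 0, false⟩, 1, ⟨0, 0, false⟩, 24, ⟨7, 0, false⟩),
   (2, ⟨7, 1, false⟩, 1, ⟨0, 0, false⟩, 25, ⟨7, 0, false⟩),
   (2, ⟨7, 2, false⟩, 1, ⟨0, 0, false⟩, 26, ⟨7, 0, false⟩),
   (2, ⟨7, 3, false⟩, 1, ⟨0, 0, false⟩, 27, ⟨7, 0, false⟩),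
   (2, ⟨8, 0, false⟩, 1, ⟨0, 0, false⟩, 24, ⟨8, 0, false⟩),
   (2, ⟨8, 1, false⟩, 1, ⟨0, 0, false⟩, 25, ⟨8, 0, false⟩),
   (2, ⟨8, 2, false⟩, 1, ⟨0, 0, false⟩, 26, ⟨8, 0, false⟩),
   (2, ⟨8, 3, false⟩, 1, ⟨0, 0, false⟩, 27, ⟨8, 0, false⟩),
   (2, ⟨9, 0, false⟩, 1, ⟨0, 0, false⟩, 24, ⟨9, 0, false⟩),
   (2, ⟨9, 1, false⟩, 1, ⟨0, 0, false⟩, 25, ⟨9, 0, false⟩),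
   (2, ⟨9, 2, false⟩, 1, ⟨0, 0, false⟩, 26, ⟨9, 0, false⟩),
   (2, ⟨9, 3, false⟩, 1, ⟨0, 0, false⟩, 27, ⟨9, 0, false⟩),
   (2, ⟨0, 1, false⟩, 2, ⟨0, 0, false⟩, 28, ⟨0, 0, false⟩),
   (2, ⟨1, 1, false⟩, 2, ⟨0, 0, false⟩, 28, ⟨1, 0, false⟩),
   (2, ⟨2, 1, false⟩, 2, ⟨0, 0, false⟩, 28, ⟨2, 0, false⟩),
   (2, ⟨3, 1, false⟩, 2, ⟨0, 0, false⟩, 28, ⟨3, 0, false⟩),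
   (2, ⟨4, 1, false⟩, 2, ⟨0, 0, false⟩, 28, ⟨4, 0, false⟩),
   (2, ⟨5, 1, false⟩, 2, ⟨0, 0, false⟩, 28, ⟨5, 0, false⟩),
   (2, ⟨6, 1, false⟩, 2, ⟨0, 0, false⟩, 28, ⟨6, 0, false⟩),
   (2, ⟨7, 1, false⟩, 2, ⟨0, 0, false⟩, 28, ⟨7, 0, false⟩),
   (2, ⟨8, 1, false⟩, 2, ⟨0, 0, false⟩, 28, ⟨8, 0, false⟩),
   (2, ⟨9, 1, false⟩, 2, ⟨0, 0, false⟩, 28, ⟨9, 0, false⟩)]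

def tabC4 : List (Fin 7 × KK × Fin 7 × KK × ℕ × KK) :=
  [(2, ⟨0, 2, true⟩, 3, ⟨0, 0, false⟩, 29, ⟨0, 0, false⟩),
   (2, ⟨0, 3, true⟩, 3, ⟨0, 0, false⟩, 30, ⟨0, 0, false⟩),
   (2, ⟨1, 2, true⟩, 3, ⟨1, 0, false⟩, 29, ⟨0, 0, false⟩),
   (2, ⟨1, 3, true⟩, 3, ⟨1, 0, false⟩, 30, ⟨0, 0, false⟩),
   (2, ⟨2, 2, true⟩, 3, ⟨2, 0, false⟩, 29, ⟨0, 0, false⟩),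
   (2, ⟨2, 3, true⟩, 3, ⟨2, 0, false⟩, 30, ⟨0, 0, false⟩),
   (2, ⟨3, 2, true⟩, 3, ⟨3, 0, false⟩, 29, ⟨0, 0, false⟩),
   (2, ⟨3, 3, true⟩, 3, ⟨3, 0, false⟩, 30, ⟨0, 0, false⟩),
   (2, ⟨4, 2, true⟩, 3, ⟨4, 0, false⟩, 29, ⟨0, 0, false⟩),
   (2, ⟨4, 3, true⟩, 3, ⟨4, 0, false⟩, 30, ⟨0, 0, false⟩),
   (2, ⟨5, 2, true⟩, 3, ⟨5, 0, false⟩, 29, ⟨0, 0, false⟩),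
   (2, ⟨5, 3, true⟩, 3, ⟨5, 0, false⟩, 30, ⟨0, 0, false⟩),
   (2, ⟨6, 2, true⟩, 3, ⟨6, 0, false⟩, 29, ⟨0, 0, false⟩),
   (2, ⟨6, 3, true⟩, 3, ⟨6, 0, false⟩, 30, ⟨0, 0, false⟩),
   (2, ⟨7, 2, true⟩, 3, ⟨7, 0, false⟩, 29, ⟨0, 0, false⟩),
   (2, ⟨7, 3, true⟩, 3, ⟨7, 0, false⟩, 30, ⟨0, 0, false⟩),
   (2, ⟨8, 2, true⟩, 3, ⟨8, 0, false⟩, 29, ⟨0, 0, false⟩),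
   (2, ⟨8, 3, true⟩, 3, ⟨8, 0, false⟩, 30, ⟨0, 0, false⟩),
   (2, ⟨9, 2, true⟩, 3, ⟨9, 0, false⟩, 29, ⟨0, 0, false⟩),
   (2, ⟨9, 3, true⟩, 3, ⟨9, 0, false⟩, 30, ⟨0, 0, false⟩),
   (2, ⟨0, 1, false⟩, 4, ⟨0, 0, false⟩, 31, ⟨0, 0, false⟩),
   (2, ⟨0, 2, true⟩, 4, ⟨9, 0, false⟩, 31, ⟨1, 1, true⟩),
   (2, ⟨1, 1, false⟩, 4, ⟨1, 0, false⟩, 31, ⟨0, 0, false⟩),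
   (2, ⟨1, 2, true⟩, 4, ⟨0, 0, false⟩, 31, ⟨1, 1, true⟩),
   (2, ⟨2, 1, false⟩, 4, ⟨2, 0, false⟩, 31, ⟨0, 0, false⟩),
   (2, ⟨2, 2, true⟩, 4, ⟨1, 0, false⟩, 31, ⟨1, 1, true⟩),
   (2, ⟨3, 1, false⟩, 4, ⟨3, 0, false⟩, 31, ⟨0, 0, false⟩),
   (2, ⟨3, 2, true⟩, 4, ⟨2, 0, false⟩, 31, ⟨1, 1, true⟩),
   (2, ⟨4, 1, false⟩, 4, ⟨4, 0, false⟩, 31, ⟨0, 0, false⟩),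
   (2, ⟨4, 2, true⟩, 4, ⟨3, 0, false⟩, 31, ⟨1, 1, true⟩),
   (2, ⟨5, 1, false⟩, 4, ⟨5, 0, false⟩, 31, ⟨0, 0, false⟩),
   (2, ⟨5, 2, true⟩, 4, ⟨4, 0, false⟩, 31, ⟨1, 1, true⟩),
   (2, ⟨6, 1, false⟩, 4, ⟨6, 0, false⟩, 31, ⟨0, 0, false⟩),
   (2, ⟨6, 2, true⟩, 4, ⟨5, 0, false⟩, 31, ⟨1, 1, true⟩),
   (2, ⟨7, 1, false⟩, 4, ⟨7, 0, false⟩, 31, ⟨0, 0, false⟩),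
   (2, ⟨7, 2, true⟩, 4, ⟨6, 0, false⟩, 31, ⟨1, 1, true⟩),
   (2, ⟨8, 1, false⟩, 4, ⟨8, 0, false⟩, 31, ⟨0, 0, false⟩),
   (2, ⟨8, 2, true⟩, 4, ⟨7, 0, false⟩, 31, ⟨1, 1, true⟩),
   (2, ⟨9, 1, false⟩, 4, ⟨9, 0, false⟩, 31, ⟨0, 0, false⟩),
   (2, ⟨9, 2, true⟩, 4, ⟨8, 0, false⟩, 31, ⟨1, 1, true⟩),
   (2, ⟨0, 1, false⟩, 5, ⟨0, 0, false⟩, 32, ⟨0, 0, false⟩),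
   (2, ⟨1, 1, false⟩, 5, ⟨0, 0, false⟩, 32, ⟨1, 0, false⟩),
   (2, ⟨2, 1, false⟩, 5, ⟨0, 0, false⟩, 32, ⟨2, 0, false⟩),
   (2, ⟨3, 1, false⟩, 5, ⟨0, 0, false⟩, 32, ⟨3, 0, false⟩),
   (2, ⟨4, 1, false⟩, 5, ⟨0, 0, false⟩, 32, ⟨4, 0, false⟩),
   (2, ⟨5, 1, false⟩, 5, ⟨0, 0, false⟩, 32, ⟨5, 0, false⟩),
   (2, ⟨6, 1, false⟩, 5, ⟨0, 0, false⟩, 32, ⟨6, 0, false⟩),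
   (2, ⟨7, 1, false⟩, 5, ⟨0, 0, false⟩, 32, ⟨7, 0, false⟩),
   (2, ⟨8, 1, false⟩, 5, ⟨0, 0, false⟩, 32, ⟨8, 0, false⟩),
   (2, ⟨9, 1, false⟩, 5, ⟨0, 0, false⟩, 32, ⟨9, 0, false⟩),
   (2, ⟨0, 0, false⟩, 6, ⟨0, 0, false⟩, 33, ⟨0, 0, false⟩),
   (2, ⟨1, 0, false⟩, 6, ⟨0, 0, false⟩, 33, ⟨1, 0, false⟩),
   (2, ⟨2, 0, false⟩, 6, ⟨0, 0, false⟩, 33, ⟨2, 0, false⟩),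
   (2, ⟨3, 0, false⟩, 6, ⟨0, 0, false⟩, 33, ⟨3, 0, false⟩),
   (2, ⟨4, 0, false⟩, 6, ⟨0, 0, false⟩, 33, ⟨4, 0, false⟩),
   (2, ⟨5, 0, false⟩, 6, ⟨0, 0, false⟩, 33, ⟨5, 0, false⟩),
   (2, ⟨6, 0, false⟩, 6, ⟨0, 0, false⟩, 33, ⟨6, 0, false⟩),
   (2, ⟨7, 0, false⟩, 6, ⟨0, 0, false⟩, 33, ⟨7, 0, false⟩),
   (2, ⟨8, 0, false⟩, 6, ⟨0, 0, false⟩, 33, ⟨8, 0, false⟩),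
   (2, ⟨9, 0, false⟩, 6, ⟨0, 0, false⟩, 33, ⟨9, 0, false⟩),
   (3, ⟨0, 0, false⟩, 1, ⟨0, 0, false⟩, 34, ⟨0, 0, false⟩),
   (3, ⟨0, 1, false⟩, 1, ⟨0, 0, false⟩, 35, ⟨0, 0, false⟩),
   (3, ⟨0, 2, false⟩, 1, ⟨0, 0, false⟩, 36, ⟨0, 0, false⟩),
   (3, ⟨1, 0, false⟩, 1, ⟨0, 0, false⟩, 34, ⟨1, 0, false⟩),
   (3, ⟨1, 1, false⟩, 1, ⟨0, 0, false⟩, 35, ⟨1, 0, false⟩),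
   (3, ⟨1, 2, false⟩, 1, ⟨0, 0, false⟩, 36, ⟨1, 0, false⟩),
   (3, ⟨2, 0, false⟩, 1, ⟨0, 0, false⟩, 34, ⟨2, 0, false⟩),
   (3, ⟨2, 0, true⟩, 1, ⟨0, 0, false⟩, 37, ⟨0, 0, false⟩),
   (3, ⟨2, 1, false⟩, 1, ⟨0, 0, false⟩, 35, ⟨2, 0, false⟩),
   (3, ⟨2, 1, true⟩, 1, ⟨0, 0, false⟩, 37, ⟨1, 0, false⟩),
   (3, ⟨2, 2, false⟩, 1, ⟨0, 0, false⟩, 36, ⟨2, 0, false⟩),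
   (3, ⟨2, 2, true⟩, 1, ⟨0, 0, false⟩, 37, ⟨2, 0, false⟩),
   (3, ⟨2, 3, true⟩, 1, ⟨0, 0, false⟩, 37, ⟨3, 0, false⟩),
   (3, ⟨2, 4, true⟩, 1, ⟨0, 0, false⟩, 37, ⟨4, 0, false⟩),
   (3, ⟨2, 5, true⟩, 1, ⟨0, 0, false⟩, 37, ⟨5, 0, false⟩),
   (3, ⟨2, 6, true⟩, 1, ⟨0, 0, false⟩, 37, ⟨6, 0, false⟩),
   (3, ⟨2, 7, true⟩, 1, ⟨0, 0, false⟩, 37, ⟨7, 0, false⟩),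
   (3, ⟨2, 8, true⟩, 1, ⟨0, 0, false⟩, 37, ⟨8, 0, false⟩),
   (3, ⟨2, 9, true⟩, 1, ⟨0, 0, false⟩, 37, ⟨9, 0, false⟩),
   (3, ⟨3, 0, false⟩, 1, ⟨0, 0, false⟩, 34, ⟨3, 0, false⟩),
   (3, ⟨3, 0, true⟩, 1, ⟨0, 0, false⟩, 38, ⟨0, 0, false⟩),
   (3, ⟨3, 1, false⟩, 1, ⟨0, 0, false⟩, 35, ⟨3, 0, false⟩),
   (3, ⟨3, 1, true⟩, 1, ⟨0, 0, false⟩, 38, ⟨1, 0, false⟩),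
   (3, ⟨3, 2, false⟩, 1, ⟨0, 0, false⟩, 36, ⟨3, 0, false⟩),
   (3, ⟨3, 2, true⟩, 1, ⟨0, 0, false⟩, 38, ⟨2, 0, false⟩),
   (3, ⟨3, 3, true⟩, 1, ⟨0, 0, false⟩, 38, ⟨3, 0, false⟩),
   (3, ⟨3, 4, true⟩, 1, ⟨0, 0, false⟩, 38, ⟨4, 0, false⟩),
   (3, ⟨3, 5, true⟩, 1, ⟨0, 0, false⟩, 38, ⟨5, 0, false⟩),
   (3, ⟨3, 6, true⟩, 1, ⟨0, 0, false⟩, 38, ⟨6, 0, false⟩),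
   (3, ⟨3, 7, true⟩, 1, ⟨0, 0, false⟩, 38, ⟨7, 0, false⟩),
   (3, ⟨3, 8, true⟩, 1, ⟨0, 0, false⟩, 38, ⟨8, 0, false⟩),
   (3, ⟨3, 9, true⟩, 1, ⟨0, 0, false⟩, 38, ⟨9, 0, false⟩),
   (3, ⟨4, 0, false⟩, 1, ⟨0, 0, false⟩, 34, ⟨4, 0, false⟩),
   (3, ⟨4, 0, true⟩, 1, ⟨0, 0, false⟩, 39, ⟨0, 0, false⟩),
   (3, ⟨4, 1, false⟩, 1, ⟨0, 0, false⟩, 35, ⟨4, 0, false⟩),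
   (3, ⟨4, 1, true⟩, 1, ⟨0, 0, false⟩, 39, ⟨1, 0, false⟩),
   (3, ⟨4, 2, false⟩, 1, ⟨0, 0, false⟩, 36, ⟨4, 0, false⟩),
   (3, ⟨4, 2, true⟩, 1, ⟨0, 0, false⟩, 39, ⟨2, 0, false⟩),
   (3, ⟨4, 3, true⟩, 1, ⟨0, 0, false⟩, 39, ⟨3, 0, false⟩),
   (3, ⟨4, 4, true⟩, 1, ⟨0, 0, false⟩, 39, ⟨4, 0, false⟩)]

def tabC5 : List (Fin 7 × KK × Fin 7 × KK × ℕ × KK) :=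
  [(3, ⟨4, 5, true⟩, 1, ⟨0, 0, false⟩, 39, ⟨5, 0, false⟩),
   (3, ⟨4, 6, true⟩, 1, ⟨0, 0, false⟩, 39, ⟨6, 0, false⟩),
   (3, ⟨4, 7, true⟩, 1, ⟨0, 0, false⟩, 39, ⟨7, 0, false⟩),
   (3, ⟨4, 8, true⟩, 1, ⟨0, 0, false⟩, 39, ⟨8, 0, false⟩),
   (3, ⟨4, 9, true⟩, 1, ⟨0, 0, false⟩, 39, ⟨9, 0, false⟩),
   (3, ⟨5, 0, false⟩, 1, ⟨0, 0, false⟩, 34, ⟨5, 0, false⟩),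
   (3, ⟨5, 1, false⟩, 1, ⟨0, 0, false⟩, 35, ⟨5, 0, false⟩),
   (3, ⟨5, 2, false⟩, 1, ⟨0, 0, false⟩, 36, ⟨5, 0, false⟩),
   (3, ⟨6, 0, false⟩, 1, ⟨0, 0, false⟩, 34, ⟨6, 0, false⟩),
   (3, ⟨6, 1, false⟩, 1, ⟨0, 0, false⟩, 35, ⟨6, 0, false⟩),
   (3, ⟨6, 2, false⟩, 1, ⟨0, 0, false⟩, 36, ⟨6, 0, false⟩),
   (3, ⟨7, 0, false⟩, 1, ⟨0, 0, false⟩, 34, ⟨7, 0, false⟩),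
   (3, ⟨7, 1, false⟩, 1, ⟨0, 0, false⟩, 35, ⟨7, 0, false⟩),
   (3, ⟨7, 2, false⟩, 1, ⟨0, 0, false⟩, 36, ⟨7, 0, false⟩),
   (3, ⟨8, 0, false⟩, 1, ⟨0, 0, false⟩, 34, ⟨8, 0, false⟩),
   (3, ⟨8, 1, false⟩, 1, ⟨0, 0, false⟩, 35, ⟨8, 0, false⟩),
   (3, ⟨8, 2, false⟩, 1, ⟨0, 0, false⟩, 36, ⟨8, 0, false⟩),
   (3, ⟨9, 0, false⟩, 1, ⟨0, 0, false⟩, 34, ⟨9, 0, false⟩),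
   (3, ⟨9, 1, false⟩, 1, ⟨0, 0, false⟩, 35, ⟨9, 0, false⟩),
   (3, ⟨9, 2, false⟩, 1, ⟨0, 0, false⟩, 36, ⟨9, 0, false⟩),
   (3, ⟨2, 0, true⟩, 2, ⟨0, 0, false⟩, 40, ⟨0, 0, false⟩),
   (3, ⟨2, 1, true⟩, 2, ⟨0, 0, false⟩, 40, ⟨1, 0, false⟩),
   (3, ⟨2, 2, true⟩, 2, ⟨0, 0, false⟩, 40, ⟨2, 0, false⟩),
   (3, ⟨2, 3, true⟩, 2, ⟨0, 0, false⟩, 40, ⟨3, 0, false⟩),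
   (3, ⟨2, 4, true⟩, 2, ⟨0, 0, false⟩, 40, ⟨4, 0, false⟩),
   (3, ⟨2, 5, true⟩, 2, ⟨0, 0, false⟩, 40, ⟨5, 0, false⟩),
   (3, ⟨2, 6, true⟩, 2, ⟨0, 0, false⟩, 40, ⟨6, 0, false⟩),
   (3, ⟨2, 7, true⟩, 2, ⟨0, 0, false⟩, 40, ⟨7, 0, false⟩),
   (3, ⟨2, 8, true⟩, 2, ⟨0, 0, false⟩, 40, ⟨8, 0, false⟩),
   (3, ⟨2, 9, true⟩, 2, ⟨0, 0, false⟩, 40, ⟨9, 0, false⟩),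
   (3, ⟨3, 0, true⟩, 2, ⟨0, 0, false⟩, 41, ⟨0, 0, false⟩),
   (3, ⟨3, 1, true⟩, 2, ⟨0, 0, false⟩, 41, ⟨1, 0, false⟩),
   (3, ⟨3, 2, true⟩, 2, ⟨0, 0, false⟩, 41, ⟨2, 0, false⟩),
   (3, ⟨3, 3, true⟩, 2, ⟨0, 0, false⟩, 41, ⟨3, 0, false⟩),
   (3, ⟨3, 4, true⟩, 2, ⟨0, 0, false⟩, 41, ⟨4, 0, false⟩),
   (3, ⟨3, 5, true⟩, 2, ⟨0, 0, false⟩, 41, ⟨5, 0, false⟩),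
   (3, ⟨3, 6, true⟩, 2, ⟨0, 0, false⟩, 41, ⟨6, 0, false⟩),
   (3, ⟨3, 7, true⟩, 2, ⟨0, 0, false⟩, 41, ⟨7, 0, false⟩),
   (3, ⟨3, 8, true⟩, 2, ⟨0, 0, false⟩, 41, ⟨8, 0, false⟩),
   (3, ⟨3, 9, true⟩, 2, ⟨0, 0, false⟩, 41, ⟨9, 0, false⟩),
   (3, ⟨1, 0, false⟩, 3, ⟨0, 0, false⟩, 42, ⟨0, 0, false⟩),
   (3, ⟨1, 1, false⟩, 3, ⟨0, 0, false⟩, 43, ⟨0, 0, false⟩),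
   (3, ⟨1, 2, false⟩, 3, ⟨0, 0, false⟩, 45, ⟨0, 0, false⟩),
   (3, ⟨1, 2, true⟩, 3, ⟨0, 0, false⟩, 49, ⟨0, 0, false⟩),
   (3, ⟨1, 3, true⟩, 3, ⟨0, 0, false⟩, 54, ⟨0, 0, false⟩),
   (3, ⟨2, 0, false⟩, 3, ⟨0, 0, false⟩, 44, ⟨0, 0, false⟩),
   (3, ⟨2, 1, false⟩, 3, ⟨0, 0, false⟩, 46, ⟨0, 0, false⟩),
   (3, ⟨2, 1, true⟩, 3, ⟨0, 0, false⟩, 50, ⟨0, 0, false⟩),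
   (3, ⟨2, 2, false⟩, 3, ⟨0, 0, false⟩, 51, ⟨0, 0, false⟩),
   (3, ⟨2, 2, true⟩, 3, ⟨0, 0, false⟩, 55, ⟨0, 0, false⟩),
   (3, ⟨2, 3, false⟩, 3, ⟨0, 0, false⟩, 56, ⟨0, 0, false⟩),
   (3, ⟨2, 3, true⟩, 3, ⟨0, 0, false⟩, 60, ⟨0, 0, false⟩),
   (3, ⟨2, 7, false⟩, 3, ⟨0, 0, false⟩, 57, ⟨0, 0, false⟩),
   (3, ⟨2, 8, false⟩, 3, ⟨0, 0, false⟩, 52, ⟨0, 0, false⟩),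
   (3, ⟨2, 9, false⟩, 3, ⟨0, 0, false⟩, 47, ⟨0, 0, false⟩),
   (3, ⟨3, 0, false⟩, 3, ⟨0, 0, false⟩, 48, ⟨0, 0, false⟩),
   (3, ⟨3, 1, true⟩, 3, ⟨0, 0, false⟩, 58, ⟨0, 0, false⟩),
   (3, ⟨3, 2, true⟩, 3, ⟨0, 0, false⟩, 61, ⟨0, 0, false⟩),
   (3, ⟨3, 8, false⟩, 3, ⟨0, 0, false⟩, 59, ⟨0, 0, false⟩),
   (3, ⟨3, 9, false⟩, 3, ⟨0, 0, false⟩, 53, ⟨0, 0, false⟩),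
   (3, ⟨1, 0, false⟩, 4, ⟨0, 0, false⟩, 62, ⟨0, 0, false⟩),
   (3, ⟨1, 1, false⟩, 4, ⟨0, 0, false⟩, 63, ⟨0, 0, false⟩),
   (3, ⟨1, 2, false⟩, 4, ⟨0, 0, false⟩, 65, ⟨0, 0, false⟩),
   (3, ⟨2, 0, false⟩, 4, ⟨0, 0, false⟩, 64, ⟨0, 0, false⟩),
   (3, ⟨2, 1, false⟩, 4, ⟨0, 0, false⟩, 66, ⟨0, 0, false⟩),
   (3, ⟨2, 1, true⟩, 4, ⟨0, 0, false⟩, 62, ⟨1, 1, true⟩),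
   (3, ⟨2, 2, true⟩, 4, ⟨0, 0, false⟩, 63, ⟨1, 1, true⟩),
   (3, ⟨2, 3, true⟩, 4, ⟨0, 0, false⟩, 65, ⟨1, 1, true⟩),
   (3, ⟨2, 9, false⟩, 4, ⟨0, 0, false⟩, 67, ⟨0, 0, false⟩),
   (3, ⟨3, 0, true⟩, 4, ⟨0, 0, false⟩, 67, ⟨1, 1, true⟩),
   (3, ⟨3, 1, true⟩, 4, ⟨0, 0, false⟩, 64, ⟨1, 1, true⟩),
   (3, ⟨3, 2, true⟩, 4, ⟨0, 0, false⟩, 66, ⟨1, 1, true⟩),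
   (3, ⟨2, 0, true⟩, 5, ⟨0, 0, false⟩, 68, ⟨0, 0, false⟩),
   (3, ⟨2, 1, true⟩, 5, ⟨0, 0, false⟩, 68, ⟨1, 0, false⟩),
   (3, ⟨2, 2, true⟩, 5, ⟨0, 0, false⟩, 68, ⟨2, 0, false⟩),
   (3, ⟨2, 3, true⟩, 5, ⟨0, 0, false⟩, 68, ⟨3, 0, false⟩),
   (3, ⟨2, 4, true⟩, 5, ⟨0, 0, false⟩, 68, ⟨4, 0, false⟩),
   (3, ⟨2, 5, true⟩, 5, ⟨0, 0, false⟩, 68, ⟨5, 0, false⟩),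
   (3, ⟨2, 6, true⟩, 5, ⟨0, 0, false⟩, 68, ⟨6, 0, false⟩),
   (3, ⟨2, 7, true⟩, 5, ⟨0, 0, false⟩, 68, ⟨7, 0, false⟩),
   (3, ⟨2, 8, true⟩, 5, ⟨0, 0, false⟩, 68, ⟨8, 0, false⟩),
   (3, ⟨2, 9, true⟩, 5, ⟨0, 0, false⟩, 68, ⟨9, 0, false⟩),
   (3, ⟨2, 0, true⟩, 6, ⟨0, 0, false⟩, 69, ⟨0, 0, false⟩),
   (3, ⟨2, 1, true⟩, 6, ⟨0, 0, false⟩, 69, ⟨1, 0, false⟩),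
   (3, ⟨2, 2, true⟩, 6, ⟨0, 0, false⟩, 69, ⟨2, 0, false⟩),
   (3, ⟨2, 3, true⟩, 6, ⟨0, 0, false⟩, 69, ⟨3, 0, false⟩),
   (3, ⟨2, 4, true⟩, 6, ⟨0, 0, false⟩, 69, ⟨4, 0, false⟩),
   (3, ⟨2, 5, true⟩, 6, ⟨0, 0, false⟩, 69, ⟨5, 0, false⟩),
   (3, ⟨2, 6, true⟩, 6, ⟨0, 0, false⟩, 69, ⟨6, 0, false⟩),
   (3, ⟨2, 7, true⟩, 6, ⟨0, 0, false⟩, 69, ⟨7, 0, false⟩),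
   (3, ⟨2, 8, true⟩, 6, ⟨0, 0, false⟩, 69, ⟨8, 0, false⟩),
   (3, ⟨2, 9, true⟩, 6, ⟨0, 0, false⟩, 69, ⟨9, 0, false⟩),
   (4, ⟨0, 1, false⟩, 1, ⟨0, 0, false⟩, 70, ⟨0, 0, false⟩),
   (4, ⟨0, 2, false⟩, 1, ⟨0, 0, false⟩, 71, ⟨0, 0, false⟩),
   (4, ⟨1, 1, false⟩, 1, ⟨0, 0, false⟩, 70, ⟨1, 0, false⟩),
   (4, ⟨1, 2, false⟩, 1, ⟨0, 0, false⟩, 71, ⟨1, 0, false⟩),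
   (4, ⟨2, 0, true⟩, 1, ⟨1, 1, true⟩, 70, ⟨9, 0, false⟩),
   (4, ⟨2, 1, false⟩, 1, ⟨0, 0, false⟩, 70, ⟨2, 0, false⟩),
   (4, ⟨2, 1, true⟩, 1, ⟨1, 1, true⟩, 70, ⟨0, 0, false⟩),
   (4, ⟨2, 2, false⟩, 1, ⟨0, 0, false⟩, 71, ⟨2, 0, false⟩)]

def tabC6 : List (Fin 7 × KK × Fin 7 × KK × ℕ × KK) :=
  [(4, ⟨2, 2, true⟩, 1, ⟨1, 1, true⟩, 70, ⟨1, 0, false⟩),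
   (4, ⟨2, 3, true⟩, 1, ⟨1, 1, true⟩, 70, ⟨2, 0, false⟩),
   (4, ⟨2, 4, true⟩, 1, ⟨1, 1, true⟩, 70, ⟨3, 0, false⟩),
   (4, ⟨2, 5, true⟩, 1, ⟨1, 1, true⟩, 70, ⟨4, 0, false⟩),
   (4, ⟨2, 6, true⟩, 1, ⟨1, 1, true⟩, 70, ⟨5, 0, false⟩),
   (4, ⟨2, 7, true⟩, 1, ⟨1, 1, true⟩, 70, ⟨6, 0, false⟩),
   (4, ⟨2, 8, true⟩, 1, ⟨1, 1, true⟩, 70, ⟨7, 0, false⟩),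
   (4, ⟨2, 9, true⟩, 1, ⟨1, 1, true⟩, 70, ⟨8, 0, false⟩),
   (4, ⟨3, 0, true⟩, 1, ⟨1, 1, true⟩, 71, ⟨9, 0, false⟩),
   (4, ⟨3, 1, false⟩, 1, ⟨0, 0, false⟩, 70, ⟨3, 0, false⟩),
   (4, ⟨3, 1, true⟩, 1, ⟨1, 1, true⟩, 71, ⟨0, 0, false⟩),
   (4, ⟨3, 2, false⟩, 1, ⟨0, 0, false⟩, 71, ⟨3, 0, false⟩),
   (4, ⟨3, 2, true⟩, 1, ⟨1, 1, true⟩, 71, ⟨1, 0, false⟩),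
   (4, ⟨3, 3, true⟩, 1, ⟨1, 1, true⟩, 71, ⟨2, 0, false⟩),
   (4, ⟨3, 4, true⟩, 1, ⟨1, 1, true⟩, 71, ⟨3, 0, false⟩),
   (4, ⟨3, 5, true⟩, 1, ⟨1, 1, true⟩, 71, ⟨4, 0, false⟩),
   (4, ⟨3, 6, true⟩, 1, ⟨1, 1, true⟩, 71, ⟨5, 0, false⟩),
   (4, ⟨3, 7, true⟩, 1, ⟨1, 1, true⟩, 71, ⟨6, 0, false⟩),
   (4, ⟨3, 8, true⟩, 1, ⟨1, 1, true⟩, 71, ⟨7, 0, false⟩),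
   (4, ⟨3, 9, true⟩, 1, ⟨1, 1, true⟩, 71, ⟨8, 0, false⟩),
   (4, ⟨4, 1, false⟩, 1, ⟨0, 0, false⟩, 70, ⟨4, 0, false⟩),
   (4, ⟨4, 2, false⟩, 1, ⟨0, 0, false⟩, 71, ⟨4, 0, false⟩),
   (4, ⟨5, 1, false⟩, 1, ⟨0, 0, false⟩, 70, ⟨5, 0, false⟩),
   (4, ⟨5, 2, false⟩, 1, ⟨0, 0, false⟩, 71, ⟨5, 0, false⟩),
   (4, ⟨6, 1, false⟩, 1, ⟨0, 0, false⟩, 70, ⟨6, 0, false⟩),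
   (4, ⟨6, 2, false⟩, 1, ⟨0, 0, false⟩, 71, ⟨6, 0, false⟩),
   (4, ⟨7, 1, false⟩, 1, ⟨0, 0, false⟩, 70, ⟨7, 0, false⟩),
   (4, ⟨7, 2, false⟩, 1, ⟨0, 0, false⟩, 71, ⟨7, 0, false⟩),
   (4, ⟨8, 1, false⟩, 1, ⟨0, 0, false⟩, 70, ⟨8, 0, false⟩),
   (4, ⟨8, 2, false⟩, 1, ⟨0, 0, false⟩, 71, ⟨8, 0, false⟩),
   (4, ⟨9, 1, false⟩, 1, ⟨0, 0, false⟩, 70, ⟨9, 0, false⟩),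
   (4, ⟨9, 2, false⟩, 1, ⟨0, 0, false⟩, 71, ⟨9, 0, false⟩),
   (4, ⟨0, 1, false⟩, 2, ⟨0, 0, false⟩, 72, ⟨0, 0, false⟩),
   (4, ⟨1, 1, false⟩, 2, ⟨0, 0, false⟩, 72, ⟨1, 0, false⟩),
   (4, ⟨2, 0, true⟩, 2, ⟨1, 1, true⟩, 72, ⟨9, 0, false⟩),
   (4, ⟨2, 1, false⟩, 2, ⟨0, 0, false⟩, 72, ⟨2, 0, false⟩),
   (4, ⟨2, 1, true⟩, 2, ⟨1, 1, true⟩, 72, ⟨0, 0, false⟩),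
   (4, ⟨2, 2, true⟩, 2, ⟨1, 1, true⟩, 72, ⟨1, 0, false⟩),
   (4, ⟨2, 3, true⟩, 2, ⟨1, 1, true⟩, 72, ⟨2, 0, false⟩),
   (4, ⟨2, 4, true⟩, 2, ⟨1, 1, true⟩, 72, ⟨3, 0, false⟩),
   (4, ⟨2, 5, true⟩, 2, ⟨1, 1, true⟩, 72, ⟨4, 0, false⟩),
   (4, ⟨2, 6, true⟩, 2, ⟨1, 1, true⟩, 72, ⟨5, 0, false⟩),
   (4, ⟨2, 7, true⟩, 2, ⟨1, 1, true⟩, 72, ⟨6, 0, false⟩),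
   (4, ⟨2, 8, true⟩, 2, ⟨1, 1, true⟩, 72, ⟨7, 0, false⟩),
   (4, ⟨2, 9, true⟩, 2, ⟨1, 1, true⟩, 72, ⟨8, 0, false⟩),
   (4, ⟨3, 1, false⟩, 2, ⟨0, 0, false⟩, 72, ⟨3, 0, false⟩),
   (4, ⟨4, 1, false⟩, 2, ⟨0, 0, false⟩, 72, ⟨4, 0, false⟩),
   (4, ⟨5, 1, false⟩, 2, ⟨0, 0, false⟩, 72, ⟨5, 0, false⟩),
   (4, ⟨6, 1, false⟩, 2, ⟨0, 0, false⟩, 72, ⟨6, 0, false⟩),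
   (4, ⟨7, 1, false⟩, 2, ⟨0, 0, false⟩, 72, ⟨7, 0, false⟩),
   (4, ⟨8, 1, false⟩, 2, ⟨0, 0, false⟩, 72, ⟨8, 0, false⟩),
   (4, ⟨9, 1, false⟩, 2, ⟨0, 0, false⟩, 72, ⟨9, 0, false⟩),
   (4, ⟨0, 3, true⟩, 3, ⟨1, 1, true⟩, 78, ⟨0, 0, false⟩),
   (4, ⟨1, 0, false⟩, 3, ⟨0, 0, false⟩, 73, ⟨0, 0, false⟩),
   (4, ⟨1, 1, false⟩, 3, ⟨0, 0, false⟩, 74, ⟨0, 0, false⟩),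
   (4, ⟨1, 2, false⟩, 3, ⟨0, 0, false⟩, 76, ⟨0, 0, false⟩),
   (4, ⟨1, 2, true⟩, 3, ⟨1, 1, true⟩, 73, ⟨0, 0, false⟩),
   (4, ⟨1, 3, true⟩, 3, ⟨1, 1, true⟩, 75, ⟨0, 0, false⟩),
   (4, ⟨2, 0, false⟩, 3, ⟨0, 0, false⟩, 75, ⟨0, 0, false⟩),
   (4, ⟨2, 1, false⟩, 3, ⟨0, 0, false⟩, 77, ⟨0, 0, false⟩),
   (4, ⟨2, 2, true⟩, 3, ⟨1, 1, true⟩, 74, ⟨0, 0, false⟩),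
   (4, ⟨2, 3, true⟩, 3, ⟨1, 1, true⟩, 77, ⟨0, 0, false⟩),
   (4, ⟨2, 9, false⟩, 3, ⟨0, 0, false⟩, 78, ⟨0, 0, false⟩),
   (4, ⟨3, 2, true⟩, 3, ⟨1, 1, true⟩, 76, ⟨0, 0, false⟩),
   (4, ⟨0, 1, false⟩, 4, ⟨0, 0, false⟩, 79, ⟨0, 0, false⟩),
   (4, ⟨0, 2, false⟩, 4, ⟨0, 0, false⟩, 80, ⟨0, 0, false⟩),
   (4, ⟨1, 0, false⟩, 4, ⟨1, 1, true⟩, 79, ⟨1, 1, true⟩),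
   (4, ⟨1, 1, false⟩, 4, ⟨0, 0, false⟩, 81, ⟨0, 0, false⟩),
   (4, ⟨1, 2, false⟩, 4, ⟨0, 0, false⟩, 82, ⟨0, 0, false⟩),
   (4, ⟨1, 2, true⟩, 4, ⟨0, 0, false⟩, 79, ⟨1, 1, true⟩),
   (4, ⟨1, 3, true⟩, 4, ⟨0, 0, false⟩, 80, ⟨1, 1, true⟩),
   (4, ⟨2, 0, false⟩, 4, ⟨1, 1, true⟩, 80, ⟨1, 1, true⟩),
   (4, ⟨2, 1, false⟩, 4, ⟨1, 1, true⟩, 82, ⟨1, 1, true⟩),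
   (4, ⟨2, 1, true⟩, 4, ⟨1, 1, true⟩, 79, ⟨0, 0, false⟩),
   (4, ⟨2, 2, true⟩, 4, ⟨0, 0, false⟩, 81, ⟨1, 1, true⟩),
   (4, ⟨2, 3, true⟩, 4, ⟨0, 0, false⟩, 82, ⟨1, 1, true⟩),
   (4, ⟨3, 1, true⟩, 4, ⟨1, 1, true⟩, 80, ⟨0, 0, false⟩),
   (4, ⟨3, 2, true⟩, 4, ⟨1, 1, true⟩, 82, ⟨0, 0, false⟩),
   (5, ⟨0, 1, false⟩, 1, ⟨0, 0, false⟩, 83, ⟨0, 0, false⟩),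
   (5, ⟨0, 2, false⟩, 1, ⟨0, 0, false⟩, 84, ⟨0, 0, false⟩),
   (5, ⟨1, 1, false⟩, 1, ⟨0, 0, false⟩, 83, ⟨1, 0, false⟩),
   (5, ⟨1, 2, false⟩, 1, ⟨0, 0, false⟩, 84, ⟨1, 0, false⟩),
   (5, ⟨2, 1, false⟩, 1, ⟨0, 0, false⟩, 83, ⟨2, 0, false⟩),
   (5, ⟨2, 2, false⟩, 1, ⟨0, 0, false⟩, 84, ⟨2, 0, false⟩),
   (5, ⟨3, 1, false⟩, 1, ⟨0, 0, false⟩, 83, ⟨3, 0, false⟩),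
   (5, ⟨3, 2, false⟩, 1, ⟨0, 0, false⟩, 84, ⟨3, 0, false⟩),
   (5, ⟨4, 1, false⟩, 1, ⟨0, 0, false⟩, 83, ⟨4, 0, false⟩),
   (5, ⟨4, 2, false⟩, 1, ⟨0, 0, false⟩, 84, ⟨4, 0, false⟩),
   (5, ⟨5, 1, false⟩, 1, ⟨0, 0, false⟩, 83, ⟨5, 0, false⟩),
   (5, ⟨5, 2, false⟩, 1, ⟨0, 0, false⟩, 84, ⟨5, 0, false⟩),
   (5, ⟨6, 1, false⟩, 1, ⟨0, 0, false⟩, 83, ⟨6, 0, false⟩),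
   (5, ⟨6, 2, false⟩, 1, ⟨0, 0, false⟩, 84, ⟨6, 0, false⟩),
   (5, ⟨7, 1, false⟩, 1, ⟨0, 0, false⟩, 83, ⟨7, 0, false⟩),
   (5, ⟨7, 2, false⟩, 1, ⟨0, 0, false⟩, 84, ⟨7, 0, false⟩),
   (5, ⟨8, 1, false⟩, 1, ⟨0, 0, false⟩, 83, ⟨8, 0, false⟩),
   (5, ⟨8, 2, false⟩, 1, ⟨0, 0, false⟩, 84, ⟨8, 0, false⟩),
   (5, ⟨9, 1, false⟩, 1, ⟨0, 0, false⟩, 83, ⟨9, 0, false⟩),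
   (5, ⟨9, 2, false⟩, 1, ⟨0, 0, false⟩, 84, ⟨9, 0, false⟩),
   (5, ⟨0, 1, false⟩, 2, ⟨0, 0, false⟩, 85, ⟨0, 0, false⟩),
   (5, ⟨1, 1, false⟩, 2, ⟨0, 0, false⟩, 85, ⟨1, 0, false⟩)]

def tabC7 : List (Fin 7 × KK × Fin 7 × KK × ℕ × KK) :=
  [(5, ⟨2, 1, false⟩, 2, ⟨0, 0, false⟩, 85, ⟨2, 0, false⟩),
   (5, ⟨3, 1, false⟩, 2, ⟨0, 0, false⟩, 85, ⟨3, 0, false⟩),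
   (5, ⟨4, 1, false⟩, 2, ⟨0, 0, false⟩, 85, ⟨4, 0, false⟩),
   (5, ⟨5, 1, false⟩, 2, ⟨0, 0, false⟩, 85, ⟨5, 0, false⟩),
   (5, ⟨6, 1, false⟩, 2, ⟨0, 0, false⟩, 85, ⟨6, 0, false⟩),
   (5, ⟨7, 1, false⟩, 2, ⟨0, 0, false⟩, 85, ⟨7, 0, false⟩),
   (5, ⟨8, 1, false⟩, 2, ⟨0, 0, false⟩, 85, ⟨8, 0, false⟩),
   (5, ⟨9, 1, false⟩, 2, ⟨0, 0, false⟩, 85, ⟨9, 0, false⟩),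
   (5, ⟨0, 2, true⟩, 3, ⟨0, 0, false⟩, 86, ⟨0, 0, false⟩),
   (5, ⟨1, 2, true⟩, 3, ⟨1, 0, false⟩, 86, ⟨0, 0, false⟩),
   (5, ⟨2, 2, true⟩, 3, ⟨2, 0, false⟩, 86, ⟨0, 0, false⟩),
   (5, ⟨3, 2, true⟩, 3, ⟨3, 0, false⟩, 86, ⟨0, 0, false⟩),
   (5, ⟨4, 2, true⟩, 3, ⟨4, 0, false⟩, 86, ⟨0, 0, false⟩),
   (5, ⟨5, 2, true⟩, 3, ⟨5, 0, false⟩, 86, ⟨0, 0, false⟩),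
   (5, ⟨6, 2, true⟩, 3, ⟨6, 0, false⟩, 86, ⟨0, 0, false⟩),
   (5, ⟨7, 2, true⟩, 3, ⟨7, 0, false⟩, 86, ⟨0, 0, false⟩),
   (5, ⟨8, 2, true⟩, 3, ⟨8, 0, false⟩, 86, ⟨0, 0, false⟩),
   (5, ⟨9, 2, true⟩, 3, ⟨9, 0, false⟩, 86, ⟨0, 0, false⟩),
   (5, ⟨0, 1, false⟩, 5, ⟨0, 0, false⟩, 87, ⟨0, 0, false⟩),
   (5, ⟨1, 1, false⟩, 5, ⟨0, 0, false⟩, 87, ⟨1, 0, false⟩),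
   (5, ⟨2, 1, false⟩, 5, ⟨0, 0, false⟩, 87, ⟨2, 0, false⟩),
   (5, ⟨3, 1, false⟩, 5, ⟨0, 0, false⟩, 87, ⟨3, 0, false⟩),
   (5, ⟨4, 1, false⟩, 5, ⟨0, 0, false⟩, 87, ⟨4, 0, false⟩),
   (5, ⟨5, 1, false⟩, 5, ⟨0, 0, false⟩, 87, ⟨5, 0, false⟩),
   (5, ⟨6, 1, false⟩, 5, ⟨0, 0, false⟩, 87, ⟨6, 0, false⟩),
   (5, ⟨7, 1, false⟩, 5, ⟨0, 0, false⟩, 87, ⟨7, 0, false⟩),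
   (5, ⟨8, 1, false⟩, 5, ⟨0, 0, false⟩, 87, ⟨8, 0, false⟩),
   (5, ⟨9, 1, false⟩, 5, ⟨0, 0, false⟩, 87, ⟨9, 0, false⟩),
   (5, ⟨0, 0, false⟩, 6, ⟨0, 0, false⟩, 88, ⟨0, 0, false⟩),
   (5, ⟨1, 0, false⟩, 6, ⟨0, 0, false⟩, 88, ⟨1, 0, false⟩),
   (5, ⟨2, 0, false⟩, 6, ⟨0, 0, false⟩, 88, ⟨2, 0, false⟩),
   (5, ⟨3, 0, false⟩, 6, ⟨0, 0, false⟩, 88, ⟨3, 0, false⟩),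
   (5, ⟨4, 0, false⟩, 6, ⟨0, 0, false⟩, 88, ⟨4, 0, false⟩),
   (5, ⟨5, 0, false⟩, 6, ⟨0, 0, false⟩, 88, ⟨5, 0, false⟩),
   (5, ⟨6, 0, false⟩, 6, ⟨0, 0, false⟩, 88, ⟨6, 0, false⟩),
   (5, ⟨7, 0, false⟩, 6, ⟨0, 0, false⟩, 88, ⟨7, 0, false⟩),
   (5, ⟨8, 0, false⟩, 6, ⟨0, 0, false⟩, 88, ⟨8, 0, false⟩),
   (5, ⟨9, 0, false⟩, 6, ⟨0, 0, false⟩, 88, ⟨9, 0, false⟩),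
   (6, ⟨0, 0, false⟩, 1, ⟨0, 0, false⟩, 89, ⟨0, 0, false⟩),
   (6, ⟨0, 1, false⟩, 1, ⟨0, 0, false⟩, 90, ⟨0, 0, false⟩),
   (6, ⟨1, 0, false⟩, 1, ⟨0, 0, false⟩, 89, ⟨1, 0, false⟩),
   (6, ⟨1, 1, false⟩, 1, ⟨0, 0, false⟩, 90, ⟨1, 0, false⟩),
   (6, ⟨2, 0, false⟩, 1, ⟨0, 0, false⟩, 89, ⟨2, 0, false⟩),
   (6, ⟨2, 1, false⟩, 1, ⟨0, 0, false⟩, 90, ⟨2, 0, false⟩),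
   (6, ⟨3, 0, false⟩, 1, ⟨0, 0, false⟩, 89, ⟨3, 0, false⟩),
   (6, ⟨3, 1, false⟩, 1, ⟨0, 0, false⟩, 90, ⟨3, 0, false⟩),
   (6, ⟨4, 0, false⟩, 1, ⟨0, 0, false⟩, 89, ⟨4, 0, false⟩),
   (6, ⟨4, 1, false⟩, 1, ⟨0, 0, false⟩, 90, ⟨4, 0, false⟩),
   (6, ⟨5, 0, false⟩, 1, ⟨0, 0, false⟩, 89, ⟨5, 0, false⟩),
   (6, ⟨5, 1, false⟩, 1, ⟨0, 0, false⟩, 90, ⟨5, 0, false⟩),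
   (6, ⟨6, 0, false⟩, 1, ⟨0, 0, false⟩, 89, ⟨6, 0, false⟩),
   (6, ⟨6, 1, false⟩, 1, ⟨0, 0, false⟩, 90, ⟨6, 0, false⟩),
   (6, ⟨7, 0, false⟩, 1, ⟨0, 0, false⟩, 89, ⟨7, 0, false⟩),
   (6, ⟨7, 1, false⟩, 1, ⟨0, 0, false⟩, 90, ⟨7, 0, false⟩),
   (6, ⟨8, 0, false⟩, 1, ⟨0, 0, false⟩, 89, ⟨8, 0, false⟩),
   (6, ⟨8, 1, false⟩, 1, ⟨0, 0, false⟩, 90, ⟨8, 0, false⟩),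
   (6, ⟨9, 0, false⟩, 1, ⟨0, 0, false⟩, 89, ⟨9, 0, false⟩),
   (6, ⟨9, 1, false⟩, 1, ⟨0, 0, false⟩, 90, ⟨9, 0, false⟩),
   (6, ⟨0, 0, false⟩, 2, ⟨0, 0, false⟩, 91, ⟨0, 0, false⟩),
   (6, ⟨1, 0, false⟩, 2, ⟨0, 0, false⟩, 91, ⟨1, 0, false⟩),
   (6, ⟨2, 0, false⟩, 2, ⟨0, 0, false⟩, 91, ⟨2, 0, false⟩),
   (6, ⟨3, 0, false⟩, 2, ⟨0, 0, false⟩, 91, ⟨3, 0, false⟩),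
   (6, ⟨4, 0, false⟩, 2, ⟨0, 0, false⟩, 91, ⟨4, 0, false⟩),
   (6, ⟨5, 0, false⟩, 2, ⟨0, 0, false⟩, 91, ⟨5, 0, false⟩),
   (6, ⟨6, 0, false⟩, 2, ⟨0, 0, false⟩, 91, ⟨6, 0, false⟩),
   (6, ⟨7, 0, false⟩, 2, ⟨0, 0, false⟩, 91, ⟨7, 0, false⟩),
   (6, ⟨8, 0, false⟩, 2, ⟨0, 0, false⟩, 91, ⟨8, 0, false⟩),
   (6, ⟨9, 0, false⟩, 2, ⟨0, 0, false⟩, 91, ⟨9, 0, false⟩),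
   (6, ⟨0, 2, true⟩, 3, ⟨0, 0, false⟩, 92, ⟨0, 0, false⟩),
   (6, ⟨1, 2, true⟩, 3, ⟨1, 0, false⟩, 92, ⟨0, 0, false⟩),
   (6, ⟨2, 2, true⟩, 3, ⟨2, 0, false⟩, 92, ⟨0, 0, false⟩),
   (6, ⟨3, 2, true⟩, 3, ⟨3, 0, false⟩, 92, ⟨0, 0, false⟩),
   (6, ⟨4, 2, true⟩, 3, ⟨4, 0, false⟩, 92, ⟨0, 0, false⟩),
   (6, ⟨5, 2, true⟩, 3, ⟨5, 0, false⟩, 92, ⟨0, 0, false⟩),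
   (6, ⟨6, 2, true⟩, 3, ⟨6, 0, false⟩, 92, ⟨0, 0, false⟩),
   (6, ⟨7, 2, true⟩, 3, ⟨7, 0, false⟩, 92, ⟨0, 0, false⟩),
   (6, ⟨8, 2, true⟩, 3, ⟨8, 0, false⟩, 92, ⟨0, 0, false⟩),
   (6, ⟨9, 2, true⟩, 3, ⟨9, 0, false⟩, 92, ⟨0, 0, false⟩),
   (6, ⟨0, 0, false⟩, 5, ⟨0, 0, false⟩, 93, ⟨0, 0, false⟩),
   (6, ⟨1, 0, false⟩, 5, ⟨0, 0, false⟩, 93, ⟨1, 0, false⟩),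
   (6, ⟨2, 0, false⟩, 5, ⟨0, 0, false⟩, 93, ⟨2, 0, false⟩),
   (6, ⟨3, 0, false⟩, 5, ⟨0, 0, false⟩, 93, ⟨3, 0, false⟩),
   (6, ⟨4, 0, false⟩, 5, ⟨0, 0, false⟩, 93, ⟨4, 0, false⟩),
   (6, ⟨5, 0, false⟩, 5, ⟨0, 0, false⟩, 93, ⟨5, 0, false⟩),
   (6, ⟨6, 0, false⟩, 5, ⟨0, 0, false⟩, 93, ⟨6, 0, false⟩),
   (6, ⟨7, 0, false⟩, 5, ⟨0, 0, false⟩, 93, ⟨7, 0, false⟩),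
   (6, ⟨8, 0, false⟩, 5, ⟨0, 0, false⟩, 93, ⟨8, 0, false⟩),
   (6, ⟨9, 0, false⟩, 5, ⟨0, 0, false⟩, 93, ⟨9, 0, false⟩),
   (6, ⟨0, 9, false⟩, 6, ⟨0, 0, false⟩, 94, ⟨0, 0, false⟩),
   (6, ⟨1, 9, false⟩, 6, ⟨0, 0, false⟩, 94, ⟨1, 0, false⟩),
   (6, ⟨2, 9, false⟩, 6, ⟨0, 0, false⟩, 94, ⟨2, 0, false⟩),
   (6, ⟨3, 9, false⟩, 6, ⟨0, 0, false⟩, 94, ⟨3, 0, false⟩),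
   (6, ⟨4, 9, false⟩, 6, ⟨0, 0, false⟩, 94, ⟨4, 0, false⟩),
   (6, ⟨5, 9, false⟩, 6, ⟨0, 0, false⟩, 94, ⟨5, 0, false⟩),
   (6, ⟨6, 9, false⟩, 6, ⟨0, 0, false⟩, 94, ⟨6, 0, false⟩),
   (6, ⟨7, 9, false⟩, 6, ⟨0, 0, false⟩, 94, ⟨7, 0, false⟩),
   (6, ⟨8, 9, false⟩, 6, ⟨0, 0, false⟩, 94, ⟨8, 0, false⟩),
   (6, ⟨9, 9, false⟩, 6, ⟨0, 0, false⟩, 94, ⟨9, 0, false⟩)]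

/-- table (i, k, j, r, b, l): k = r * k0 * l with k0 from base relation number b,
for all i, j in 1..6 and k such that G i * kap k * G j is small -/
def tabC : List (Fin 7 × KK × Fin 7 × KK × ℕ × KK) :=
  tabC0 ++ tabC1 ++ tabC2 ++ tabC3 ++ tabC4 ++ tabC5 ++ tabC6 ++ tabC7

/-- words of the double coset representatives -/
def wG : Fin 7 → Wd := ![[], [6], [6, 6], [2, 7], [2], [6, 6, 6], [7, 7, 7]]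

/-- word of an element of KK, with exponents in -4..5 -/
def kw (k : KK) : Wd :=
  (if k.a.val ≤ 5 then List.replicate k.a.val 0 else List.replicate (10 - k.a.val) 1) ++
  (if k.b.val ≤ 5 then List.replicate k.b.val 4 else List.replicate (10 - k.b.val) 5) ++
  (if k.c then [2, 0, 4, 2] else [])

theorem base_words :
    base.map (fun b => (wG b.1 ++ kw b.2.1 ++ wG b.2.2.1,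
      kw b.2.2.2.2.1 ++ wG b.2.2.2.2.2.1 ++ kw b.2.2.2.2.2.2)) =
    (kbTests.take 95).map (fun e => (e.1, e.2.1)) := by decide +kernel

/-- last four tests: w s0 = s2 w, w s2 = s0 w, w w = s0⁻¹ s0⁻¹ s2⁻¹ s2⁻¹,
(w s0 s2) s1 = s1 (w s0 s2) -/
theorem extra_words : (kbTests.drop 95).map (fun e => (e.1, e.2.1)) =
    [([2, 0, 4, 2, 0], [4, 2, 0, 4, 2]), ([2, 0, 4, 2, 4], [0, 2, 0, 4, 2]),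
     ([2, 0, 4, 2, 2, 0, 4, 2], [1, 1, 5, 5]),
     ([2, 0, 4, 2, 0, 4, 2], [2, 2, 0, 4, 2, 0, 4])] := by decide +kernel

end W828
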