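import Pool.Agent.W_828d9b_h4.Ball

/-!
# Elements moving U to a set meeting U are small
-/

namespace W828

/-- the sesquilinear form of the third column with the image of `(p, 1)` -/
theorem bd_sesq (g : GHat) (p : ℂ × ℂ) :
    star (num1 g p) * io (toMat g 0 2) + star (num2 g p) * io (toMat g 1 2)
      - (tr : ℂ) * star (den g p) * io (toMat g 2 2) = -(tr : ℂ) := by
  have hM := toMat_unitary g
  have h0 := congrArg io (congrFun (congrFun hM 0) 2)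
  have h1 := congrArg io (congrFun (congrFun hM 1) 2)
  have h2 := congrArg io (congrFun (congrFun hM 2) 2)
  simp only [Matrix.mul_apply, Fin.sum_univ_three, H, Matrix.conjTranspose_apply, Matrix.of_apply,
    Matrix.cons_val', Matrix.cons_val_zero, Matrix.cons_val_one, Matrix.cons_val,
    mul_one, mul_zero, add_zero, zero_add, map_add, map_mul, map_neg, map_zero,
    io_star, io_tau] at h0 h1 h2
  simp only [num1, num2, den, star_add, star_mul']
  linear_combination star p.1 * h0 + star p.2 * h1 + h2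

/-- the real inequality -/
theorem bd_real (τ P Q k t m1 m2 b1 b2 : ℝ) (hτ : 0.61803 < τ) (hP0 : 0 ≤ P)
    (hP : P < 0.57 * τ) (hQ0 : 0 ≤ Q) (hQ : Q < 0.57 * τ) (hk : 0 ≤ k) (ht : 0 ≤ t)
    (hm1 : 0 ≤ m1) (hm2 : 0 ≤ m2) (hb1 : 0 ≤ b1) (hb2 : 0 ≤ b2)
    (hgap : (τ - Q) * k ^ 2 = τ - P)
    (hform : m1 ^ 2 + m2 ^ 2 - τ * k ^ 2 = P - τ)
    (h0 : b1 ^ 2 + b2 ^ 2 - τ * t ^ 2 = 0 - τ)
    (hcs : τ * k * t ≤ τ + (m1 * b1 + m2 * b2)) : t ^ 2 ≤ 13.34 := by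
  have hτ0 : 0 < τ := by linarith
  by_contra hcon
  rw [not_le] at hcon
  obtain ⟨A, hA⟩ : ∃ A, A = (τ - P) / τ := ⟨_, rfl⟩
  obtain ⟨B, hB⟩ : ∃ B, B = (τ - Q) / τ := ⟨_, rfl⟩
  have hAτ : A * τ = τ - P := by rw [hA]; field_simp
  have hBτ : B * τ = τ - Q := by rw [hB]; field_simp
  have hA1 : A ≤ 1 := by
    by_contra h
    rw [not_le] at h
    nlinarith
  have hB1 : B ≤ 1 := by
    by_contra h
    rw [not_le] at h
    nlinarith
  have hA2 : 0.43 < A := by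
    by_contra h
    rw [not_lt] at h
    nlinarith
  have hB2 : 0.43 < B := by
    by_contra h
    rw [not_lt] at h
    nlinarith
  have hkB : B * k ^ 2 = A := by
    have h1 : τ * (B * k ^ 2) = τ * A := by
      calc τ * (B * k ^ 2) = (B * τ) * k ^ 2 := by ring
        _ = τ * A := by rw [hBτ, hgap, ← hAτ]; ring
    exact mul_left_cancel₀ hτ0.ne' h1
  -- Cauchy-Schwarz
  obtain ⟨r, hr⟩ : ∃ r, r = m1 * b1 + m2 * b2 := ⟨_, rfl⟩
  rw [← hr] at hcs
  have hr0 : 0 ≤ r := by rw [hr]; positivity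
  have hr2 : r ^ 2 ≤ (m1 ^ 2 + m2 ^ 2) * (b1 ^ 2 + b2 ^ 2) := by
    rw [hr]
    nlinarith [sq_nonneg (m1 * b2 - m2 * b1)]
  have hm : m1 ^ 2 + m2 ^ 2 = τ * (k ^ 2 - A) := by
    linear_combination hform + hAτ
  have hb : b1 ^ 2 + b2 ^ 2 = τ * (t ^ 2 - 1) := by
    linear_combination h0
  rw [hm, hb] at hr2
  have ht1 : 3.652 < t := by
    by_contra h
    rw [not_lt] at h
    nlinarith
  have hk2 : 0.43 < k ^ 2 := by
    nlinarith [sq_nonneg k]
  have hk1 : 0.65 < k := by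
    by_contra h
    rw [not_lt] at h
    nlinarith
  have hkt : 1 < k * t := by nlinarith
  have hs1 : τ * (k * t - 1) ≤ r := by linarith
  have hs2 : (τ * (k * t - 1)) ^ 2 ≤ r ^ 2 := by
    apply pow_le_pow_left₀ _ hs1
    have : 0 ≤ k * t - 1 := by linarith
    positivity
  have hs3 : (k * t - 1) ^ 2 ≤ (k ^ 2 - A) * (t ^ 2 - 1) := by
    have h1 : τ ^ 2 * (k * t - 1) ^ 2 ≤ τ ^ 2 * ((k ^ 2 - A) * (t ^ 2 - 1)) := by
      calc τ ^ 2 * (k * t - 1) ^ 2 = (τ * (k * t - 1)) ^ 2 := by ring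
        _ ≤ τ * (k ^ 2 - A) * (τ * (t ^ 2 - 1)) := hs2.trans hr2
        _ = _ := by ring
    exact le_of_mul_le_mul_left h1 (by positivity)
  have hs4 : A * t ^ 2 - 2 * (k * t) + 1 + k ^ 2 - A ≤ 0 := by nlinarith
  have hB0 : 0 ≤ B := by linarith
  have hs5 : B * (A * t ^ 2 - 2 * (k * t) + 1 + k ^ 2 - A) ≤ 0 :=
    mul_nonpos_of_nonneg_of_nonpos hB0 hs4
  obtain ⟨z, hz⟩ : ∃ z, z = k * B := ⟨_, rfl⟩
  have hz0 : 0 ≤ z := by rw [hz]; positivity
  have hz2 : z ^ 2 = A * B := by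
    rw [hz, ← hkB]; ring
  have hs6 : (z * t - 1) ^ 2 ≤ (1 - A) * (1 - B) := by
    have h1 : (z * t - 1) ^ 2 = z ^ 2 * t ^ 2 - 2 * (z * t) + 1 := by ring
    rw [h1, hz2]
    have h2 : B * (A * t ^ 2 - 2 * (k * t) + 1 + k ^ 2 - A) =
        A * B * t ^ 2 - 2 * (z * t) + B + A - A * B := by
      rw [hz]
      linear_combination hkB
    rw [h2] at hs5
    linarith
  have hz1 : 0.43 < z := by
    by_contra h
    rw [not_lt] at h
    have h1 : z ^ 2 ≤ 0.43 ^ 2 := pow_le_pow_left₀ hz0 h 2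
    nlinarith
  have hzt : 0.5703 < z * t - 1 := by nlinarith
  have h1 : (0.5703 : ℝ) ^ 2 < (z * t - 1) ^ 2 := pow_lt_pow_left₀ hzt (by norm_num) two_ne_zero
  have h2 : (1 - A) * (1 - B) ≤ 0.57 * 0.57 := by
    apply mul_le_mul <;> linarith
  norm_num at h1 h2
  linarith

/-- Let x = (q,1), y = (p,1), G x = c y (c = den g q), alpha = tau - |q|^2,
beta = tau - |p|^2, both > 0.43 tau, and |c|^2 beta = alpha.  Writing
e3 = (tau/alpha) x + v and e3 = (tau/beta) y + v' with v ⟂ x, v' ⟂ y for the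
form h = diag(1,1,-tau), one gets -tau g33 = h(G e3, e3) = -(tau^2/alpha) c + h(Gv, v'),
and Cauchy-Schwarz on the positive definite space y^⊥ gives
|g33| ≤ tau/sqrt(alpha beta) + sqrt((tau-alpha)(tau-beta)/(alpha beta)) ≤ 1.57/0.43,
whose square is < 13.34. -/
theorem small_of_meet (g : GHat) (q : X) (hq : q ∈ U) (hp : g • q ∈ U) : Small g := by
  have hA : sq q.1 < 0.57 * tr := hq
  have hB : sq (g • q).1 < 0.57 * tr := hp
  have hgap := gap_smul g q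
  have hform := form_inv g q.1
  have h0 := form_inv g (0, 0)
  have hses := bd_sesq g q.1
  have htr := tr_gt
  have hsq1 : 0 ≤ sq q.1 := add_nonneg (Complex.normSq_nonneg _) (Complex.normSq_nonneg _)
  have hsq2 : 0 ≤ sq (g • q).1 := add_nonneg (Complex.normSq_nonneg _) (Complex.normSq_nonneg _)
  unfold Small
  rw [← normSq_io]
  simp only [num1, num2, den, sq, mul_zero, zero_add, Complex.normSq_zero, add_zero] at h0
  change Complex.normSq (num1 g q.1) + Complex.normSq (num2 g q.1)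
    - tr * Complex.normSq (den g q.1) = sq q.1 - tr at hform
  obtain ⟨n1, hn1⟩ : ∃ z, z = num1 g q.1 := ⟨_, rfl⟩
  obtain ⟨n2, hn2⟩ : ∃ z, z = num2 g q.1 := ⟨_, rfl⟩
  obtain ⟨c, hc⟩ : ∃ z, z = den g q.1 := ⟨_, rfl⟩
  obtain ⟨a1, ha1⟩ : ∃ z, z = io (toMat g 0 2) := ⟨_, rfl⟩
  obtain ⟨a2, ha2⟩ : ∃ z, z = io (toMat g 1 2) := ⟨_, rfl⟩
  obtain ⟨a, ha⟩ : ∃ z, z = io (toMat g 2 2) := ⟨_, rfl⟩
  rw [← hn1, ← hn2, ← hc] at hform hses
  rw [← hc] at hgap
  rw [← ha1, ← ha2, ← ha] at h0 hses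
  rw [← ha]
  simp only [Complex.normSq_eq_norm_sq] at *
  have hcs : tr * ‖c‖ * ‖a‖ ≤ tr + (‖n1‖ * ‖a1‖ + ‖n2‖ * ‖a2‖) := by
    have h1 : (tr : ℂ) * star c * a = (tr : ℂ) + (star n1 * a1 + star n2 * a2) := by
      linear_combination -hses
    have h2 : ‖(tr : ℂ) * star c * a‖ = tr * ‖c‖ * ‖a‖ := by
      rw [norm_mul, norm_mul, norm_star, Complex.norm_real, Real.norm_of_nonneg (by linarith)]
    rw [← h2, h1]
    refine (norm_add_le _ _).trans ?_
    rw [Complex.norm_real, Real.norm_of_nonneg (by linarith)]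
    refine add_le_add le_rfl ((norm_add_le _ _).trans ?_)
    rw [norm_mul, norm_mul, norm_star, norm_star]
  exact bd_real tr (sq q.1) (sq (g • q).1) ‖c‖ ‖a‖ ‖n1‖ ‖n2‖ ‖a1‖ ‖a2‖ htr hsq1 hA hsq2 hB
    (norm_nonneg _) (norm_nonneg _) (norm_nonneg _) (norm_nonneg _) (norm_nonneg _)
    (norm_nonneg _) hgap hform h0 hcs

end W828
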