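import Pool.Agent.W_828d9b_h4.Ball

/-!
# Covering: every point of the ball can be moved into U
-/

namespace W828

/-- The subgroup generated by the elements kap k and R 3. -/
def D0 : Subgroup GHat := Subgroup.closure (Set.range kap ∪ {R 3})

theorem et_succ_aux : ∀ u : ZMod 10, et (u + 1) = et u * Z5.eta := by decide

theorem et_pred_aux : ∀ u : ZMod 10, et (u - 1) = et u * star Z5.eta := by decide

theorem nsq_et_aux : ∀ u : ZMod 10, Z5.nA (et u) = 1 ∧ Z5.nB (et u) = 0 := by decide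

theorem normSq_io_et (u : ZMod 10) : Complex.normSq (io (et u)) = 1 := by
  rw [normSq_io, nsq, (nsq_et_aux u).1, (nsq_et_aux u).2]
  simp

theorem two_re_io_eta : 2 * (io Z5.eta).re = tr + 1 := by
  have h1 : io Z5.eta + io (star Z5.eta) = io (Z5.tau + 1) := by
    rw [← map_add]
    congr 1
  rw [io_star, map_add, io_tau, map_one] at h1
  have h2 := congrArg Complex.re h1
  simp at h2
  linarith

theorem im_io_eta_sq : (io Z5.eta).im ^ 2 = 1 - (io Z5.eta).re ^ 2 := by
  have h1 : Complex.normSq (io Z5.eta) = 1 := by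
    have := normSq_io_et 1
    rw [show et 1 = Z5.eta from by decide] at this
    exact this
  rw [Complex.normSq_apply] at h1
  linarith

/-- Planar lemma.  Among the ten powers of a primitive tenth root of unity one is within
angle pi/10 of a given complex number. Here in the form: if
0.285 tau ≤ |w|^2 ≤ tau then some u has |w - io (et u)|^2 ≤ 0.99 tau^2.
(Choose u maximising Re (w * conj (io (et u))), compare with u + 1 and u - 1 to get
2 x^2 ≥ |w|^2 (1 + cos 36°), cos 36° = (tr + 1) / 2; then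
|w|^2 - 2 x + 1 ≤ 0.99 tau^2 for |w|^2 in the given range.) -/
theorem exists_near (w : ℂ) (h1 : 0.285 * tr ≤ Complex.normSq w) (h2 : Complex.normSq w ≤ tr) :
    ∃ u : ZMod 10, Complex.normSq (w - io (et u)) ≤ 0.99 * tr ^ 2 := by
  have htsq := tr_sq
  have htg := tr_gt
  have htl := tr_lt
  obtain ⟨u, hu⟩ := Finite.exists_max
    (fun u : ZMod 10 => w.re * (io (et u)).re + w.im * (io (et u)).im)
  refine ⟨u, ?_⟩
  have hup := hu (u + 1)
  have hum := hu (u - 1)
  rw [et_succ_aux, map_mul, Complex.mul_re, Complex.mul_im] at hup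
  rw [et_pred_aux, map_mul, io_star] at hum
  have e1 : (io (et u) * star (io Z5.eta)).re
      = (io (et u)).re * (io Z5.eta).re + (io (et u)).im * (io Z5.eta).im := by
    rw [Complex.mul_re]
    simp
  have e2 : (io (et u) * star (io Z5.eta)).im
      = - (io (et u)).re * (io Z5.eta).im + (io (et u)).im * (io Z5.eta).re := by
    rw [Complex.mul_im]
    simp
  rw [e1, e2] at hum
  have hz : (io (et u)).re * (io (et u)).re + (io (et u)).im * (io (et u)).im = 1 := by
    have := normSq_io_et u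
    rwa [Complex.normSq_apply] at this
  have hc := two_re_io_eta
  have hs := im_io_eta_sq
  rw [Complex.normSq_apply] at h1 h2 ⊢
  rw [Complex.sub_re, Complex.sub_im]
  generalize (io (et u)).re = a at *
  generalize (io (et u)).im = b at *
  generalize (io Z5.eta).re = c at *
  generalize (io Z5.eta).im = s at *
  generalize w.re = p at *
  generalize w.im = q at *
  clear hu e1 e2
  -- x = p a + q b, y = q a - p b
  obtain ⟨x, hx⟩ : ∃ x, x = p * a + q * b := ⟨_, rfl⟩
  obtain ⟨y, hy⟩ : ∃ y, y = q * a - p * b := ⟨_, rfl⟩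
  obtain ⟨n, hn⟩ : ∃ n, n = p * p + q * q := ⟨_, rfl⟩
  have hxy : x ^ 2 + y ^ 2 = n := by
    rw [hx, hy, hn]
    linear_combination (p * p + q * q) * hz
  have hc1 : c < 1 := by linarith
  have hA : y * s ≤ x * (1 - c) := by rw [hx, hy]; linarith
  have hB : -(y * s) ≤ x * (1 - c) := by rw [hx, hy]; linarith
  have hx0 : 0 ≤ x := by
    by_contra hneg
    push Not at hneg
    have : x * (1 - c) < 0 := mul_neg_of_neg_of_pos hneg (by linarith)
    linarith
  have hsq : (y * s) ^ 2 ≤ (x * (1 - c)) ^ 2 := by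
    apply sq_le_sq'
    · linarith
    · exact hA
  have h3 : y ^ 2 * (1 + c) ≤ x ^ 2 * (1 - c) := by
    have h4 : (1 - c) * (y ^ 2 * (1 + c)) ≤ (1 - c) * (x ^ 2 * (1 - c)) := by
      have e3 : (1 - c) * (y ^ 2 * (1 + c)) = (y * s) ^ 2 := by
        linear_combination (-(y ^ 2)) * hs
      rw [e3]
      calc (y * s) ^ 2 ≤ (x * (1 - c)) ^ 2 := hsq
        _ = (1 - c) * (x ^ 2 * (1 - c)) := by ring
    exact le_of_mul_le_mul_left h4 (by linarith)
  have h5 : n * (tr + 3) ≤ (2 * x) ^ 2 := by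
    have e4 : n * (tr + 3) = 2 * (x ^ 2 * (1 + c) + y ^ 2 * (1 + c)) := by
      rw [← hxy]
      linear_combination (-(x ^ 2 + y ^ 2)) * hc
    rw [e4]
    linarith
  rw [← hn] at h1 h2
  have hprod : 0 ≤ (n - 0.285 * tr) * (tr - n) :=
    mul_nonneg (by linarith) (by linarith)
  have hprod2 : 0 ≤ (n - 0.285 * tr) * (2.98 - 2.265 * tr) :=
    mul_nonneg (by linarith) (by linarith)
  have h6 : (n + (0.01 + 0.99 * tr)) ^ 2 ≤ n * (tr + 3) := by
    have e5 : n * (tr + 3) - (n + (0.01 + 0.99 * tr)) ^ 2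
        = (n - 0.285 * tr) * (tr - n) + (n - 0.285 * tr) * (2.98 - 2.265 * tr)
          - (1.340625 * tr ^ 2 - 0.8295 * tr + 0.0001) := by ring
    have e6 : 1.340625 * tr ^ 2 - 0.8295 * tr + 0.0001 ≤ 0 := by
      rw [htsq]; linarith
    linarith
  have h7 : n + (0.01 + 0.99 * tr) ≤ 2 * x :=
    abs_le_of_sq_le_sq' (h6.trans h5) (by linarith) |>.2
  have e7 : (p - a) * (p - a) + (q - b) * (q - b) = n - 2 * x + 1 := by
    rw [hn, hx]
    linear_combination hz
  rw [e7, htsq]
  linarith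

/-- the two entries of the last row of R 3 -/
def A3 : Z5 := ⟨-1, -1, -1, 0⟩

theorem row_aux2 : ∀ u : ZMod 10,
    toMat (R 3 * kap ⟨0, 1 - u, false⟩) 2 0 = 0 ∧
    toMat (R 3 * kap ⟨0, 1 - u, false⟩) 2 1 = A3 * et (1 - u) ∧
    toMat (R 3 * kap ⟨0, 1 - u, false⟩) 2 2 = -(A3 * et (1 - u) * et u) := by decide

theorem row_aux1 : ∀ u : ZMod 10,
    toMat (R 3 * kap ⟨0, 2 - u, true⟩) 2 0 = A3 * et (1 - u) ∧
    toMat (R 3 * kap ⟨0, 2 - u, true⟩) 2 1 = 0 ∧
    toMat (R 3 * kap ⟨0, 2 - u, true⟩) 2 2 = -(A3 * et (1 - u) * et u) := by decide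

theorem nA3_aux : ∀ u : ZMod 10, Z5.nA (A3 * et (1 - u)) = 2 ∧ Z5.nB (A3 * et (1 - u)) = 1 := by
  decide

theorem step_bound (u : ZMod 10) (w : ℂ)
    (h : Complex.normSq (w - io (et u)) ≤ 0.99 * tr ^ 2) :
    Complex.normSq (io (A3 * et (1 - u)) * (w - io (et u))) ≤ 0.99 := by
  have htsq := tr_sq
  have htg := tr_gt
  rw [Complex.normSq_mul, normSq_io, nsq, (nA3_aux u).1, (nA3_aux u).2]
  have h1 : (((2 : ℤ) : ℝ) + ((1 : ℤ) : ℝ) * tr) * Complex.normSq (w - io (et u))
      ≤ (((2 : ℤ) : ℝ) + ((1 : ℤ) : ℝ) * tr) * (0.99 * tr ^ 2) := by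
    apply mul_le_mul_of_nonneg_left h
    push_cast
    linarith
  refine h1.trans (le_of_eq ?_)
  push_cast
  linear_combination (0.99 * (tr + 1)) * htsq

/-- One step of the descent.  For p outside U one of the two coordinates has
squared absolute value at least 0.285 tau.  The third row of R 3 is
(0, ⟨-1,-1,-1,0⟩, ⟨1,1,0,0⟩) whose last two entries have nsq = tau + 2 = phi^2 and whose
quotient is a root of unity, so den (R 3 * kap k) p = (root of unity) * phi * (p_i - root)
for k = ⟨0, b, false⟩ (coordinate 2) and for k = ⟨a, 0, true⟩ type elements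
(coordinate 1, exchanged by W0). -/
theorem descent_step (p : X) (hp : p ∉ U) :
    ∃ k : KK, Complex.normSq (den (R 3 * kap k) p.1) ≤ 0.99 := by
  have hpU : 0.57 * tr ≤ sq p.1 := by
    by_contra hlt
    exact hp (not_le.mp hlt)
  have hpX : sq p.1 < tr := p.2
  have hn1 := Complex.normSq_nonneg p.1.1
  have hn2 := Complex.normSq_nonneg p.1.2
  rw [sq] at hpU hpX
  rcases le_or_gt (0.285 * tr) (Complex.normSq p.1.2) with h | h
  · obtain ⟨u, hu⟩ := exists_near p.1.2 h (by linarith)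
    refine ⟨⟨0, 1 - u, false⟩, ?_⟩
    obtain ⟨r0, r1, r2⟩ := row_aux2 u
    have e : den (R 3 * kap ⟨0, 1 - u, false⟩) p.1
        = io (A3 * et (1 - u)) * (p.1.2 - io (et u)) := by
      rw [den, r0, r1, r2, map_zero, map_neg, map_mul io (A3 * et (1 - u)) (et u)]
      ring
    rw [e]
    exact step_bound u p.1.2 hu
  · obtain ⟨u, hu⟩ := exists_near p.1.1 (by linarith) (by linarith)
    refine ⟨⟨0, 2 - u, true⟩, ?_⟩
    obtain ⟨r0, r1, r2⟩ := row_aux1 u
    have e : den (R 3 * kap ⟨0, 2 - u, true⟩) p.1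
        = io (A3 * et (1 - u)) * (p.1.1 - io (et u)) := by
      rw [den, r0, r1, r2, map_zero, map_neg, map_mul io (A3 * et (1 - u)) (et u)]
      ring
    rw [e]
    exact step_bound u p.1.1 hu

theorem R3_mul_kap_mem (k : KK) : R 3 * kap k ∈ D0 :=
  D0.mul_mem (Subgroup.subset_closure (Or.inr rfl))
    (Subgroup.subset_closure (Or.inl ⟨k, rfl⟩))

theorem covering_aux (n : ℕ) : ∀ p : X, tr * 0.99 ^ n < tr - sq p.1 →
    ∃ g ∈ D0, g • p ∈ U := by
  induction n with
  | zero =>
    intro p hp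
    exfalso
    have hn1 := Complex.normSq_nonneg p.1.1
    have hn2 := Complex.normSq_nonneg p.1.2
    rw [sq] at hp
    simp at hp
    linarith
  | succ n ih =>
    intro p hp
    by_cases hU : p ∈ U
    · exact ⟨1, D0.one_mem, by rw [one_smul]; exact hU⟩
    obtain ⟨k, hk⟩ := descent_step p hU
    have hg := gap_smul (R 3 * kap k) p
    have hpos : sq ((R 3 * kap k) • p).1 < tr := ((R 3 * kap k) • p).2
    have h1 : tr * 0.99 ^ n < tr - sq ((R 3 * kap k) • p).1 := by
      have h2 : (tr - sq ((R 3 * kap k) • p).1) * Complex.normSq (den (R 3 * kap k) p.1)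
          ≤ (tr - sq ((R 3 * kap k) • p).1) * 0.99 :=
        mul_le_mul_of_nonneg_left hk (by linarith)
      rw [pow_succ] at hp
      have h3 : tr * 0.99 ^ n * 0.99 < (tr - sq ((R 3 * kap k) • p).1) * 0.99 := by
        calc tr * 0.99 ^ n * 0.99 = tr * (0.99 ^ n * 0.99) := by ring
          _ < tr - sq p.1 := hp
          _ = (tr - sq ((R 3 * kap k) • p).1) * Complex.normSq (den (R 3 * kap k) p.1) := hg.symm
          _ ≤ (tr - sq ((R 3 * kap k) • p).1) * 0.99 := h2
      exact lt_of_mul_lt_mul_right h3 (by norm_num)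
    obtain ⟨g, hgD, hgU⟩ := ih _ h1
    refine ⟨g * (R 3 * kap k), D0.mul_mem hgD (R3_mul_kap_mem k), ?_⟩
    rw [mul_smul]
    exact hgU

/-- Iterating: 1 / (tau - |p|^2) is multiplied by normSq den ≤ 0.99 at each step
(`gap_smul`) and stays ≥ 1 / tau. -/
theorem covering (p : X) : ∃ g ∈ D0, g • p ∈ U := by
  have htg := tr_gt
  have hpX : sq p.1 < tr := p.2
  obtain ⟨n, hn⟩ := exists_pow_lt_of_lt_one (y := (0.99 : ℝ))
    (show (0 : ℝ) < (tr - sq p.1) / tr from div_pos (by linarith) (by linarith)) (by norm_num)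
  refine covering_aux n p ?_
  rw [lt_div_iff₀ (by linarith)] at hn
  linarith

end W828
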