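import Pool.Agent.W_828d9b_h4.Latt
import Pool.Agent.W_828d9b_h4.Desc

/-!
# Cocompactness
-/

namespace W828

open Matrix

/-- scalars act trivially on the ball -/
theorem sc_mul_smul (u : ZMod 10) (g : GHat) (x : X) : (sc u * g) • x = g • x := by
  rw [mul_smul, sc_smul]

theorem coc_cube : ∀ v : ZMod 10, et (3 * v) * et (3 * v) * et (3 * v) * et v = 1 := by decide

theorem coc_units : ∀ a ∈ Finset.Icc (-1 : ℤ) 1, ∀ b ∈ Finset.Icc (-1 : ℤ) 1,
    ∀ c ∈ Finset.Icc (-1 : ℤ) 1, ∀ d ∈ Finset.Icc (-1 : ℤ) 1,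
    a ^ 2 + b ^ 2 + c ^ 2 + d ^ 2 + (a - b) ^ 2 + (a - c) ^ 2 +
      (a - d) ^ 2 + (b - c) ^ 2 + (b - d) ^ 2 + (c - d) ^ 2 = 4 →
    ∃ v : ZMod 10, (⟨a, b, c, d⟩ : Z5) = et v := by decide

theorem coc_root (x : Z5) (hx : x * star x = 1) : ∃ v : ZMod 10, x = et v := by
  rw [Z5.mul_star] at hx
  have h1 : x.nA - x.nB = 1 := congrArg Z5.a hx
  have h2 : -x.nB = 0 := congrArg Z5.c hx
  have h3 : x.a ^ 2 + x.b ^ 2 + x.c ^ 2 + x.d ^ 2 + (x.a - x.b) ^ 2 + (x.a - x.c) ^ 2 +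
      (x.a - x.d) ^ 2 + (x.b - x.c) ^ 2 + (x.b - x.d) ^ 2 + (x.c - x.d) ^ 2 = 4 := by
    unfold Z5.nA at h1
    unfold Z5.nB at h1 h2
    linear_combination 4 * h1 - 2 * h2
  obtain ⟨a, b, c, d⟩ := x
  simp only at h3
  have hm : ∀ n : ℤ, n ^ 2 * 5 ≤ 8 → n ∈ Finset.Icc (-1 : ℤ) 1 := by
    intro n hn
    rw [Finset.mem_Icc]
    constructor
    · by_contra h
      push Not at h
      nlinarith
    · by_contra h
      push Not at h
      nlinarith
  refine coc_units a (hm a ?_) b (hm b ?_) c (hm c ?_) d (hm d ?_) h3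
  · nlinarith [sq_nonneg (a - 2 * b), sq_nonneg (a - 2 * c), sq_nonneg (a - 2 * d),
      sq_nonneg (b - c), sq_nonneg (b - d), sq_nonneg (c - d)]
  · nlinarith [sq_nonneg (b - 2 * a), sq_nonneg (b - 2 * c), sq_nonneg (b - 2 * d),
      sq_nonneg (a - c), sq_nonneg (a - d), sq_nonneg (c - d)]
  · nlinarith [sq_nonneg (c - 2 * a), sq_nonneg (c - 2 * b), sq_nonneg (c - 2 * d),
      sq_nonneg (a - b), sq_nonneg (a - d), sq_nonneg (b - d)]
  · nlinarith [sq_nonneg (d - 2 * a), sq_nonneg (d - 2 * b), sq_nonneg (d - 2 * c),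
      sq_nonneg (a - b), sq_nonneg (a - c), sq_nonneg (b - c)]

theorem coc_det (g : GHat) : (toMat g).det * star (toMat g).det = 1 := by
  have h1 := congrArg det (toMat_unitary g)
  rw [det_mul, det_mul, det_conjTranspose] at h1
  have h2 : H.det * Hi.det = 1 := by rw [← det_mul, H_mul_Hi, det_one]
  calc (toMat g).det * star (toMat g).det
      = star (toMat g).det * H.det * (toMat g).det * Hi.det
        + (toMat g).det * star (toMat g).det * (1 - H.det * Hi.det) := by ring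
    _ = 1 := by rw [h1, h2]; ring

theorem coc_det_sc (u : ZMod 10) : (toMat (sc u)).det = et u * et u * et u := by
  unfold sc
  rw [toMat_mkG, Matrix.det_fin_three]
  simp

/-- every element of GHat has a scalar multiple of determinant one (the determinant d
satisfies d * star d = 1, so it is a power of eta, and cubes of powers of eta are all
powers of eta) -/
theorem adjust (g : GHat) : ∃ u : ZMod 10, sc u * g ∈ SG := by
  obtain ⟨v, hv⟩ := coc_root _ (coc_det g)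
  refine ⟨3 * v, ?_⟩
  show (toMat (sc (3 * v) * g)).det = 1
  rw [toMat_mul, det_mul, coc_det_sc, hv]
  exact coc_cube v

/-- the point of the ball attached to an element of SU(2,1): the third column (v0, v1, v2)
satisfies |v0|^2 + |v1|^2 - |v2|^2 = -1, the point is sqrt(tau) (v0 / v2, v1 / v2) -/
theorem exists_point (x : SUn 2) : ∃ p : X,
    (∀ g : SG, Complex.normSq (((psi g * x).1 : Matrix (Fin 3) (Fin 3) ℂ) 2 2) *
      (tr - sq (g.1 • p).1) = tr) := by
  have hs := latt_sq_tr_pos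
  have ht := latt_tr_pos
  obtain ⟨v0, hv0⟩ : ∃ v, v = lattM x 0 2 := ⟨_, rfl⟩
  obtain ⟨v1, hv1⟩ : ∃ v, v = lattM x 1 2 := ⟨_, rfl⟩
  obtain ⟨v2, hv2⟩ : ∃ v, v = lattM x 2 2 := ⟨_, rfl⟩
  have hx : Complex.normSq v0 + Complex.normSq v1 - Complex.normSq v2 = -1 := by
    have h1 : (lattM x)ᴴ * Jn 2 * lattM x = Jn 2 := x.2
    have h2 := congrFun (congrFun h1 2) 2
    rw [latt_Jn_two, diagonal_apply_eq, Matrix.mul_apply, Fin.sum_univ_three] at h2
    rw [mul_diagonal, mul_diagonal, mul_diagonal, conjTranspose_apply, conjTranspose_apply,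
      conjTranspose_apply, ← hv0, ← hv1, ← hv2] at h2
    have h3 : ((Complex.normSq v0 + Complex.normSq v1 - Complex.normSq v2 : ℝ) : ℂ) = ((-1 : ℝ) : ℂ) := by
      push_cast
      rw [Complex.normSq_eq_conj_mul_self, Complex.normSq_eq_conj_mul_self,
        Complex.normSq_eq_conj_mul_self]
      have e0 : lattJ 0 = 1 := rfl
      have e1 : lattJ 1 = 1 := rfl
      have e2 : lattJ 2 = -1 := rfl
      rw [e0, e1, e2] at h2
      simp only [← starRingEnd_apply] at h2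
      push_cast at h2
      linear_combination h2
    exact_mod_cast h3
  have hn0 := Complex.normSq_nonneg v0
  have hn1 := Complex.normSq_nonneg v1
  have hn2 : 0 < Complex.normSq v2 := by linarith
  have hv2ne : v2 ≠ 0 := Complex.normSq_pos.mp hn2
  obtain ⟨r, hr⟩ : ∃ r : ℝ, r = Real.sqrt tr := ⟨_, rfl⟩
  have hrr : r * r = tr := by rw [hr]; exact Real.mul_self_sqrt ht.le
  have hr0 : 0 < r := by rw [hr]; exact hs
  have hsq : sq ((r : ℂ) * (v0 / v2), (r : ℂ) * (v1 / v2)) * Complex.normSq v2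
      = tr * (Complex.normSq v2 - 1) := by
    unfold sq
    rw [Complex.normSq_mul, Complex.normSq_mul, Complex.normSq_div, Complex.normSq_div,
      Complex.normSq_ofReal, hrr, add_mul, mul_assoc, mul_assoc, div_mul_cancel₀ _ hn2.ne',
      div_mul_cancel₀ _ hn2.ne']
    linear_combination tr * hx
  have hlt : sq ((r : ℂ) * (v0 / v2), (r : ℂ) * (v1 / v2)) < tr := by
    have h1 : sq ((r : ℂ) * (v0 / v2), (r : ℂ) * (v1 / v2)) * Complex.normSq v2
        < tr * Complex.normSq v2 := by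
      rw [hsq]
      linarith
    exact lt_of_mul_lt_mul_right h1 hn2.le
  obtain ⟨p, hp⟩ : ∃ p : X, p.1 = ((r : ℂ) * (v0 / v2), (r : ℂ) * (v1 / v2)) := ⟨⟨_, hlt⟩, rfl⟩
  refine ⟨p, fun g => ?_⟩
  have hgap := gap_smul g.1 p
  rw [hp] at hgap
  generalize tr - sq (g.1 • p).1 = G0 at *
  have hentry : ((psi g * x).1 : Matrix (Fin 3) (Fin 3) ℂ) 2 2 =
      v2 * den g.1 ((r : ℂ) * (v0 / v2), (r : ℂ) * (v1 / v2)) := by
    have h1 : ((psi g * x).1 : Matrix (Fin 3) (Fin 3) ℂ) = psiM g.1 * lattM x := rfl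
    rw [h1, Matrix.mul_apply, Fin.sum_univ_three, ← hv0, ← hv1, ← hv2]
    have e1 : Dmi = diagonal ![1, 1, (((Real.sqrt tr)⁻¹ : ℝ) : ℂ)] := rfl
    have e2 : Dm = diagonal ![1, 1, ((Real.sqrt tr : ℝ) : ℂ)] := rfl
    unfold psiM
    rw [e1, e2, mul_diagonal, mul_diagonal, mul_diagonal, diagonal_mul, diagonal_mul,
      diagonal_mul, map_apply, map_apply, map_apply, ← hr]
    have f0 : (![1, 1, ((r⁻¹ : ℝ) : ℂ)] : Fin 3 → ℂ) 0 = 1 := rfl
    have f1 : (![1, 1, ((r⁻¹ : ℝ) : ℂ)] : Fin 3 → ℂ) 1 = 1 := rfl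
    have f2 : (![1, 1, ((r⁻¹ : ℝ) : ℂ)] : Fin 3 → ℂ) 2 = ((r⁻¹ : ℝ) : ℂ) := rfl
    have f3 : (![1, 1, (r : ℂ)] : Fin 3 → ℂ) 2 = (r : ℂ) := rfl
    rw [f0, f1, f2, f3]
    unfold den
    have hrc : (r : ℂ) ≠ 0 := by exact_mod_cast hr0.ne'
    push_cast
    field_simp
  rw [hentry, Complex.normSq_mul]
  have h2 : tr - sq ((r : ℂ) * (v0 / v2), (r : ℂ) * (v1 / v2)) = tr / Complex.normSq v2 := by
    rw [eq_div_iff hn2.ne', sub_mul, hsq]
    ring
  have h3 : G0 * Complex.normSq (den g.1 ((r : ℂ) * (v0 / v2), (r : ℂ) * (v1 / v2)))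
      = tr / Complex.normSq v2 := by
    rw [← h2]
    exact hgap
  calc Complex.normSq v2 * Complex.normSq (den g.1 ((r : ℂ) * (v0 / v2), (r : ℂ) * (v1 / v2))) * G0
      = Complex.normSq v2 *
        (G0 * Complex.normSq (den g.1 ((r : ℂ) * (v0 / v2), (r : ℂ) * (v1 / v2)))) := by ring
    _ = tr := by rw [h3, mul_div_cancel₀ _ hn2.ne']

/-- Cocompactness of a subgroup of finite index.  Given x take p as in exists_point, move p
into U by an element of GHat (covering), make its determinant one (adjust, sc_mul_smul),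
multiply by the inverse of one of the finitely many t. The corner entry of psi g * x has
squared absolute value < 1 / 0.43, so the point lies in the compact set of
isCompact_corner; C is the union of its translates by (psi t)⁻¹. -/
theorem cocompact (Γ0 : Subgroup GHat) (T : Finset GHat) (hTS : ∀ t ∈ T, t ∈ SG)
    (hT : ∀ g ∈ SG, ∃ t ∈ T, t⁻¹ * g ∈ Γ0) :
    ∃ C : Set (SUn 2), IsCompact C ∧ ∀ x : SUn 2, ∃ γ : SG, γ.1 ∈ Γ0 ∧ psi γ * x ∈ C := by
  classical
  let K : Set (SUn 2) := {g : SUn 2 | Complex.normSq ((g.1 : Matrix (Fin 3) (Fin 3) ℂ) 2 2) ≤ 3}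
  have hK : IsCompact K := isCompact_corner 3
  refine ⟨⋃ t : T, (fun y : SUn 2 => (psi ⟨t.1, hTS t.1 t.2⟩)⁻¹ * y) '' K, ?_, ?_⟩
  · exact isCompact_iUnion fun t => hK.image (continuous_const_mul _)
  · intro x
    obtain ⟨p, hp⟩ := exists_point x
    obtain ⟨g, -, hgU⟩ := covering p
    obtain ⟨u, hu⟩ := adjust g
    obtain ⟨t, htT, ht⟩ := hT _ hu
    have hh := hp ⟨sc u * g, hu⟩
    have hU : sq ((sc u * g) • p).1 < 0.57 * tr := by
      rw [sc_mul_smul]
      exact hgU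
    refine ⟨⟨t⁻¹ * (sc u * g), SG.mul_mem (SG.inv_mem (hTS t htT)) hu⟩, ht, ?_⟩
    rw [Set.mem_iUnion]
    refine ⟨⟨t, htT⟩, psi ⟨sc u * g, hu⟩ * x, ?_, ?_⟩
    · show Complex.normSq (((psi ⟨sc u * g, hu⟩ * x).1 : Matrix (Fin 3) (Fin 3) ℂ) 2 2) ≤ 3
      have hn := Complex.normSq_nonneg
        (((psi ⟨sc u * g, hu⟩ * x).1 : Matrix (Fin 3) (Fin 3) ℂ) 2 2)
      generalize Complex.normSq
        (((psi ⟨sc u * g, hu⟩ * x).1 : Matrix (Fin 3) (Fin 3) ℂ) 2 2) = N at *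
      have htr := latt_tr_pos
      have h1 : N * (tr - sq ((sc u * g) • p).1) = tr := hh
      by_contra hN
      push Not at hN
      have h2 : 0.43 * tr ≤ tr - sq ((sc u * g) • p).1 := by linarith
      have h3 : N * (0.43 * tr) ≤ N * (tr - sq ((sc u * g) • p).1) :=
        mul_le_mul_of_nonneg_left h2 hn
      rw [h1] at h3
      have h4 : 3 * (0.43 * tr) < N * (0.43 * tr) :=
        mul_lt_mul_of_pos_right hN (by linarith)
      linarith
    · show (psi ⟨t, _⟩)⁻¹ * (psi ⟨sc u * g, hu⟩ * x) = psi ⟨t⁻¹ * (sc u * g), _⟩ * x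
      rw [← mul_assoc, ← map_inv, ← map_mul]
      rfl

end W828
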