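import Pool.Agent.W_828d9b_h4.BPSound

/-!
# Data for the density and unboundedness statements

All words start and end at block 54 (first letter acts first).
-/

namespace W828


/-- the word of the element u = [R 0 squared, R 1 to the fourth] -/
def wU : List ℕ := [0, 0, 1, 1, 1, 1, 0, 0, 0, 0, 0, 0, 0, 0, 1, 1, 1, 1, 1, 1]

def colU : List (List PZ) := [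
  [[⟨5,-3,-11,-10⟩], [], [⟨-4,-7,-4,0⟩,⟨2,4,3,1⟩], [⟨0,-7,-11,-7⟩,⟨-3,-2,2,3⟩], [⟨-4,-7,-4,0⟩,⟨1,3,4,2⟩], [⟨4,0,-7,-7⟩,⟨-4,-5,-2,1⟩]],
  [[], [⟨8,3,-7,-8⟩], [⟨0,0,0,0⟩,⟨-2,-1,1,2⟩], [⟨7,11,7,0⟩,⟨-1,-5,-6,-3⟩], [⟨0,0,0,0⟩,⟨-2,-3,-1,1⟩], [⟨4,11,11,4⟩,⟨1,-2,-5,-4⟩]],
  [[⟨5,11,8,1⟩], [], [⟨2,0,-3,-3⟩,⟨-1,-1,1,1⟩], [⟨4,7,4,0⟩,⟨-1,-3,-4,-2⟩], [⟨1,0,-3,-3⟩,⟨-2,-2,-1,0⟩], [⟨3,7,7,3⟩,⟨1,-1,-3,-2⟩]],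
  [[], [⟨-2,-6,-7,-5⟩], [⟨0,0,0,0⟩,⟨1,1,2,1⟩], [⟨2,0,-3,-3⟩,⟨-2,-2,-1,0⟩], [⟨0,0,0,0⟩,⟨-1,0,1,0⟩], [⟨3,3,0,-1⟩,⟨-1,-2,-2,0⟩]],
  [[⟨-7,-8,-3,3⟩], [⟨2,6,7,5⟩], [⟨0,3,4,3⟩,⟨-1,-2,-4,-3⟩], [⟨-5,-4,3,6⟩,⟨4,6,4,1⟩], [⟨1,3,4,3⟩,⟨2,1,-2,-1⟩], [⟨-7,-10,-4,1⟩,⟨2,5,6,2⟩]],
  [[], [⟨2,6,7,5⟩], [⟨0,0,0,0⟩,⟨-1,-1,-2,-1⟩], [⟨-1,0,3,3⟩,⟨2,2,1,0⟩], [⟨0,0,0,0⟩,⟨1,0,-1,0⟩], [⟨-2,-3,0,1⟩,⟨1,2,2,0⟩]]]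

/-- the word of the element v = [R 2 squared, R 3 squared] -/
def wV : List ℕ := [2, 2, 3, 3, 2, 2, 2, 2, 2, 2, 2, 2, 3, 3, 3, 3, 3, 3, 3, 3]

def colV : List (List PZ) := [
  [[⟨-1,-4,-6,-3⟩,⟨-2,0,1,1⟩], [⟨4,8,7,1⟩,⟨0,-3,-4,-3⟩], [⟨-1,-1,0,2⟩,⟨1,2,1,1⟩], [⟨0,-3,-4,-3⟩,⟨-1,-1,1,1⟩], [⟨-4,-4,0,3⟩,⟨2,4,3,1⟩], []],
  [[], [⟨3,4,1,-2⟩,⟨-2,-3,-3,-2⟩], [⟨0,0,0,0⟩,⟨0,-1,0,1⟩], [⟨1,4,4,1⟩,⟨0,-1,-2,-2⟩], [], [⟨0,7,11,7⟩,⟨3,2,-2,-3⟩]],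
  [[⟨2,3,3,2⟩,⟨1,0,-1,0⟩], [⟨-5,-4,-2,1⟩,⟨0,3,2,0⟩], [⟨1,0,0,0⟩], [], [⟨2,0,-1,-1⟩,⟨0,-1,0,1⟩], [⟨0,-3,-4,-3⟩,⟨-1,-1,1,1⟩]],
  [[⟨0,0,0,0⟩,⟨2,1,1,1⟩], [⟨1,-1,-1,1⟩,⟨-2,1,0,1⟩], [], [⟨1,0,0,0⟩], [⟨0,0,0,0⟩,⟨1,-1,0,0⟩], [⟨1,1,0,-2⟩,⟨-1,-2,-1,-1⟩]],
  [[⟨0,1,3,1⟩], [], [⟨1,1,0,-2⟩,⟨0,-3,-2,0⟩], [⟨-2,4,8,5⟩,⟨2,2,-1,-3⟩], [⟨3,4,1,-2⟩,⟨-2,-3,-3,-2⟩], [⟨-7,-4,4,7⟩,⟨4,7,4,0⟩]],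
  [[], [⟨-2,-2,0,-1⟩], [⟨0,0,0,0⟩,⟨2,1,1,1⟩], [⟨-2,-3,-3,-2⟩,⟨-1,0,1,0⟩], [], [⟨-1,-4,-6,-3⟩,⟨-2,0,1,1⟩]]]

def wH0 : List ℕ := [1, 1]
def colH0 : List (List PZ) := [
  [[⟨-1,-1,-1,-1⟩], [], [], [], [], []],
  [[], [⟨0,1,0,0⟩], [], [], [], []],
  [[⟨1,2,1,1⟩], [], [⟨1,0,0,0⟩], [], [], []],
  [[], [⟨1,-1,0,0⟩], [], [⟨1,0,0,0⟩], [], []],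
  [[⟨0,-1,0,1⟩], [⟨-1,1,0,0⟩], [], [], [⟨1,0,0,0⟩], []],
  [[], [⟨-1,1,0,0⟩], [], [], [], [⟨1,0,0,0⟩]]]

def wH1 : List ℕ := [2, 2]
def colH1 : List (List PZ) := [
  [[⟨-1,-2,-1,0⟩,⟨-1,0,1,0⟩], [⟨2,3,3,2⟩,⟨1,0,-1,0⟩], [⟨-1,-2,-1,-1⟩,⟨-1,0,0,0⟩], [⟨2,2,1,0⟩,⟨0,-1,-1,0⟩], [], []],
  [[⟨0,0,0,0⟩,⟨-1,0,1,0⟩], [⟨1,2,2,1⟩,⟨1,0,-1,0⟩], [⟨0,0,0,0⟩,⟨-1,0,0,0⟩], [⟨2,2,1,0⟩,⟨0,-1,-1,0⟩], [], []],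
  [[⟨0,1,0,-1⟩,⟨-1,-1,-2,-1⟩], [⟨-1,-3,-1,0⟩,⟨1,1,2,1⟩], [⟨0,1,0,0⟩,⟨0,0,-1,0⟩], [⟨-1,-1,1,1⟩,⟨1,1,1,0⟩], [], []],
  [[⟨0,0,0,0⟩,⟨0,1,-1,0⟩], [⟨-1,-1,-1,-2⟩,⟨0,-1,1,0⟩], [⟨0,0,0,0⟩,⟨1,1,0,1⟩], [⟨-1,-1,-1,-1⟩,⟨0,0,1,0⟩], [], []],
  [[], [], [], [], [⟨-1,-1,-1,-1⟩], []],
  [[], [], [], [], [], [⟨0,1,0,0⟩]]]

def wH2 : List ℕ := [3, 3]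
def colH2 : List (List PZ) := [
  [[⟨-1,-1,-1,-1⟩], [], [], [], [], []],
  [[], [⟨0,1,0,0⟩], [], [], [], []],
  [[], [], [⟨-1,-2,-1,0⟩,⟨1,1,1,1⟩], [⟨0,-1,-2,-2⟩,⟨-1,-1,0,0⟩], [⟨-1,-2,-1,-1⟩,⟨0,0,1,0⟩], [⟨1,1,-1,-1⟩,⟨-1,-1,-1,0⟩]],
  [[], [], [⟨0,0,0,0⟩,⟨1,0,1,1⟩], [⟨1,2,2,1⟩,⟨-1,-1,-1,-1⟩], [⟨0,0,0,0⟩,⟨-1,-1,0,-1⟩], [⟨1,1,2,1⟩,⟨0,0,-1,0⟩]],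
  [[], [], [⟨0,1,0,-1⟩], [], [⟨0,1,0,0⟩], []],
  [[], [], [], [⟨-1,-2,-1,-1⟩], [], [⟨-1,-1,-1,-1⟩]]]

/-- the matrix of u at w = 1, z = 3 modulo 121 -/
def uN : List (List ℕ) := [[111, 0, 16, 0, 23, 0], [0, 101, 0, 24, 97, 97], [7, 58, 47, 49, 2, 72], [23, 73, 82, 119, 15, 3], [39, 7, 118, 8, 87, 113], [105, 86, 85, 81, 79, 41]]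

/-- u^3 = 1 + 11 xN modulo 121 -/
def x0N : List (List ℕ) := [[8, 0, 1, 0, 9, 0], [0, 6, 0, 7, 4, 4], [8, 5, 9, 2, 2, 9], [9, 8, 6, 1, 9, 10], [10, 8, 3, 1, 4, 10], [10, 4, 3, 6, 10, 5]]

/-- the matrices of the four conjugating elements modulo 11 -/
def hN : List (List (List ℕ)) := [
  [[4, 0, 10, 0, 2, 0], [0, 3, 0, 9, 2, 2], [0, 0, 1, 0, 0, 0], [0, 0, 0, 1, 0, 0], [0, 0, 0, 0, 1, 0], [0, 0, 0, 0, 0, 1]],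
  [[3, 8, 4, 5, 0, 0], [7, 0, 8, 5, 0, 0], [0, 10, 5, 9, 0, 0], [5, 5, 1, 2, 0, 0], [0, 0, 0, 0, 4, 0], [0, 0, 0, 0, 0, 3]],
  [[4, 0, 0, 0, 0, 0], [0, 3, 0, 0, 0, 0], [0, 0, 2, 4, 9, 0], [0, 0, 9, 1, 0, 1], [0, 0, 10, 2, 3, 0], [0, 0, 10, 7, 0, 4]]]

/-- their inverses modulo 11 -/
def hiN : List (List (List ℕ)) := [
  [[3, 0, 3, 0, 5, 0], [0, 4, 0, 8, 3, 3], [0, 0, 1, 0, 0, 0], [0, 0, 0, 1, 0, 0], [0, 0, 0, 0, 1, 0], [0, 0, 0, 0, 0, 1]],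
  [[4, 0, 10, 0, 0, 0], [0, 3, 0, 9, 0, 0], [4, 9, 1, 7, 0, 0], [10, 10, 2, 2, 0, 0], [0, 0, 0, 0, 3, 0], [0, 0, 0, 0, 0, 4]],
  [[3, 0, 0, 0, 0, 0], [0, 4, 0, 0, 0, 0], [0, 0, 2, 2, 5, 5], [0, 0, 10, 5, 3, 7], [0, 0, 5, 1, 0, 8], [0, 0, 5, 0, 7, 3]]]

/-- the matrices X_0, ..., X_34 modulo 11 -/
def xN : List (List (List ℕ)) := [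
  [[8, 0, 1, 0, 9, 0], [0, 6, 0, 7, 4, 4], [8, 5, 9, 2, 2, 9], [9, 8, 6, 1, 9, 10], [10, 8, 3, 1, 4, 10], [10, 4, 3, 6, 10, 5]],
  [[0, 0, 1, 0, 9, 0], [0, 5, 0, 10, 1, 1], [2, 9, 0, 9, 2, 2], [5, 10, 0, 10, 1, 1], [8, 10, 0, 10, 1, 1], [8, 5, 0, 5, 6, 6]],
  [[6, 7, 7, 9, 6, 10], [8, 1, 8, 7, 9, 4], [10, 8, 2, 7, 8, 7], [10, 7, 5, 4, 2, 9], [6, 2, 2, 6, 4, 6], [6, 0, 4, 9, 2, 5]],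
  [[9, 0, 2, 0, 7, 0], [0, 1, 0, 9, 2, 2], [6, 3, 6, 4, 6, 7], [4, 7, 4, 2, 1, 9], [2, 7, 2, 2, 5, 9], [2, 9, 2, 1, 6, 10]],
  [[0, 8, 5, 2, 1, 7], [4, 10, 1, 5, 10, 7], [7, 1, 8, 1, 10, 6], [0, 7, 8, 8, 8, 3], [0, 3, 4, 0, 1, 5], [4, 8, 6, 0, 10, 6]],
  [[1, 8, 9, 2, 6, 7], [7, 5, 0, 9, 0, 6], [8, 10, 10, 5, 5, 9], [8, 6, 2, 5, 7, 8], [7, 8, 9, 0, 7, 1], [7, 0, 0, 9, 10, 5]],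
  [[6, 9, 10, 5, 0, 1], [7, 4, 9, 7, 7, 2], [3, 5, 10, 0, 4, 8], [4, 5, 1, 4, 8, 6], [5, 6, 10, 0, 4, 8], [5, 4, 4, 6, 7, 5]],
  [[6, 2, 10, 7, 0, 0], [6, 1, 2, 4, 3, 2], [1, 6, 6, 3, 2, 6], [10, 8, 6, 4, 0, 10], [7, 4, 7, 10, 0, 2], [10, 10, 7, 1, 2, 5]],
  [[1, 0, 10, 7, 0, 4], [7, 4, 2, 1, 9, 8], [4, 4, 3, 3, 1, 5], [4, 9, 5, 10, 5, 8], [1, 5, 5, 5, 5, 1], [1, 0, 6, 5, 10, 10]],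
  [[1, 5, 10, 6, 6, 0], [5, 9, 1, 6, 8, 8], [10, 4, 7, 9, 4, 9], [0, 6, 8, 9, 7, 2], [0, 1, 4, 2, 10, 3], [1, 10, 7, 9, 10, 8]],
  [[2, 6, 6, 9, 5, 2], [3, 1, 9, 8, 7, 8], [1, 1, 4, 2, 6, 2], [8, 1, 10, 8, 1, 9], [9, 4, 5, 0, 1, 3], [10, 3, 6, 1, 2, 6]],
  [[0, 7, 5, 7, 1, 8], [3, 10, 4, 1, 9, 5], [9, 8, 3, 3, 4, 0], [3, 8, 9, 2, 9, 7], [1, 0, 2, 3, 8, 3], [5, 1, 10, 10, 6, 10]],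
  [[8, 9, 8, 10, 10, 3], [0, 10, 3, 0, 0, 5], [2, 7, 1, 8, 9, 6], [2, 2, 4, 9, 10, 4], [10, 10, 8, 9, 0, 3], [10, 0, 10, 9, 1, 5]],
  [[5, 4, 5, 0, 10, 8], [9, 3, 2, 6, 10, 6], [4, 1, 8, 4, 0, 4], [4, 7, 3, 5, 4, 8], [3, 2, 8, 1, 7, 5], [2, 6, 0, 10, 2, 5]],
  [[1, 7, 5, 4, 4, 6], [8, 5, 8, 3, 9, 1], [3, 2, 9, 7, 3, 2], [8, 10, 3, 2, 8, 1], [10, 5, 6, 9, 3, 3], [8, 7, 4, 4, 5, 2]],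
  [[5, 7, 0, 1, 2, 9], [0, 0, 9, 3, 5, 9], [9, 9, 8, 7, 1, 1], [1, 9, 2, 0, 10, 10], [4, 2, 3, 4, 3, 4], [4, 5, 8, 5, 0, 6]],
  [[8, 4, 3, 2, 6, 5], [7, 8, 3, 4, 7, 8], [6, 3, 9, 1, 2, 5], [4, 2, 2, 10, 0, 8], [9, 3, 9, 1, 4, 7], [2, 5, 0, 8, 8, 5]],
  [[6, 1, 3, 4, 2, 0], [8, 4, 3, 4, 9, 6], [3, 6, 8, 10, 5, 9], [9, 7, 3, 5, 8, 3], [5, 4, 10, 9, 0, 2], [3, 8, 6, 3, 5, 10]],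
  [[3, 4, 7, 10, 8, 8], [8, 5, 3, 6, 4, 7], [10, 4, 10, 4, 10, 10], [9, 10, 8, 10, 7, 1], [8, 7, 3, 2, 0, 10], [3, 1, 8, 5, 7, 5]],
  [[6, 10, 8, 0, 9, 0], [10, 1, 9, 4, 9, 6], [7, 1, 5, 3, 1, 3], [10, 2, 8, 6, 1, 2], [10, 0, 10, 7, 6, 6], [8, 8, 10, 4, 5, 9]],
  [[6, 2, 9, 6, 4, 9], [7, 5, 3, 2, 1, 9], [1, 5, 4, 2, 0, 6], [1, 3, 6, 5, 8, 2], [3, 9, 8, 1, 3, 5], [3, 0, 9, 5, 4, 10]],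
  [[5, 0, 5, 5, 6, 5], [6, 2, 9, 1, 0, 3], [5, 5, 8, 2, 2, 4], [8, 5, 4, 3, 3, 5], [10, 0, 1, 8, 5, 5], [3, 4, 1, 2, 2, 10]],
  [[1, 0, 0, 0, 0, 4], [8, 4, 0, 10, 9, 9], [0, 4, 3, 4, 6, 9], [2, 4, 7, 2, 9, 7], [10, 6, 4, 8, 7, 7], [7, 5, 3, 5, 1, 5]],
  [[4, 6, 1, 9, 9, 7], [7, 5, 5, 10, 4, 10], [8, 5, 4, 8, 0, 10], [0, 2, 8, 2, 3, 9], [0, 4, 4, 10, 2, 6], [3, 7, 10, 1, 1, 5]],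
  [[4, 7, 9, 0, 3, 0], [6, 9, 1, 10, 8, 9], [0, 6, 4, 5, 5, 0], [0, 4, 3, 9, 0, 3], [1, 5, 10, 10, 10, 4], [3, 10, 6, 9, 2, 8]],
  [[1, 3, 0, 4, 8, 10], [1, 9, 8, 10, 6, 9], [5, 10, 8, 1, 7, 2], [9, 10, 7, 0, 4, 9], [3, 0, 5, 3, 2, 3], [4, 4, 3, 7, 1, 2]],
  [[9, 3, 6, 7, 3, 6], [5, 5, 1, 9, 5, 3], [3, 4, 7, 10, 3, 5], [2, 4, 1, 5, 0, 1], [5, 5, 10, 10, 3, 4], [8, 1, 3, 3, 6, 4]],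
  [[0, 6, 8, 2, 3, 8], [9, 7, 3, 6, 0, 3], [10, 5, 10, 4, 8, 2], [10, 0, 10, 9, 6, 5], [4, 8, 6, 9, 1, 4], [2, 10, 5, 4, 7, 6]],
  [[2, 8, 9, 6, 9, 6], [5, 1, 2, 8, 1, 4], [4, 3, 5, 6, 8, 7], [4, 8, 10, 10, 0, 3], [5, 8, 3, 10, 9, 1], [10, 6, 9, 6, 9, 6]],
  [[5, 7, 10, 0, 1, 0], [10, 3, 7, 5, 10, 1], [7, 2, 10, 9, 1, 1], [7, 5, 9, 8, 7, 8], [3, 5, 6, 3, 8, 4], [7, 7, 9, 0, 10, 10]],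
  [[0, 2, 5, 8, 1, 6], [5, 10, 0, 0, 9, 1], [7, 5, 10, 1, 5, 8], [3, 5, 8, 8, 4, 5], [0, 10, 7, 9, 10, 9], [8, 10, 8, 10, 0, 6]],
  [[7, 9, 10, 2, 10, 5], [9, 8, 2, 1, 3, 7], [6, 6, 7, 9, 7, 5], [6, 8, 10, 3, 4, 10], [8, 7, 5, 1, 3, 0], [8, 0, 7, 9, 7, 5]],
  [[8, 8, 2, 10, 7, 9], [1, 7, 8, 6, 4, 4], [0, 9, 10, 4, 9, 2], [1, 4, 5, 3, 6, 7], [10, 9, 9, 7, 0, 4], [4, 1, 10, 0, 9, 5]],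
  [[8, 1, 9, 7, 1, 4], [0, 10, 5, 7, 7, 2], [9, 8, 7, 1, 2, 8], [2, 7, 5, 5, 1, 9], [8, 9, 3, 5, 2, 7], [2, 6, 6, 5, 0, 1]],
  [[0, 10, 6, 7, 1, 7], [10, 0, 4, 8, 9, 0], [1, 4, 9, 1, 1, 7], [1, 6, 4, 6, 1, 7], [9, 8, 6, 6, 6, 0], [6, 2, 6, 3, 8, 1]]]

/-- X_i = h_k X_j h_k^(-1), (j, k) for i = 1, ..., 34 (entry 0 is unused) -/
def parN : List (ℕ × ℕ) := [(0, 0), (0, 0), (0, 1), (1, 0), (1, 1), (2, 0), (2, 1), (2, 2), (3, 1), (4, 0), (4, 1), (4, 2), (5, 0), (5, 1), (5, 2), (6, 0), (6, 1), (6, 2), (7, 1), (7, 2), (8, 0), (8, 1), (8, 2), (9, 0), (9, 1), (9, 2), (10, 0), (10, 1), (10, 2), (11, 1), (11, 2), (12, 0), (12, 1), (12, 2), (13, 0)]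

/-- coefficients: the k-th basis matrix is the sum of cN[k][i] X_i modulo 11; the basis
matrix number 6 a + b is E_ab for a != b and E_aa - E_55 for a = b -/
def cN : List (List ℕ) := [
  [10, 0, 7, 3, 7, 1, 3, 2, 6, 6, 9, 5, 10, 6, 5, 2, 2, 9, 0, 4, 6, 3, 9, 10, 4, 9, 9, 3, 3, 4, 5, 7, 7, 2, 2],
  [8, 4, 1, 1, 2, 6, 6, 0, 10, 2, 7, 9, 3, 8, 9, 9, 5, 4, 8, 7, 7, 2, 0, 8, 8, 3, 8, 5, 6, 8, 9, 3, 0, 7, 7],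
  [1, 7, 6, 0, 10, 4, 10, 9, 5, 7, 8, 6, 3, 0, 7, 5, 7, 7, 6, 10, 1, 5, 6, 8, 8, 9, 10, 2, 5, 9, 8, 2, 3, 0, 3],
  [5, 5, 8, 3, 5, 7, 2, 7, 9, 4, 4, 4, 5, 3, 8, 9, 8, 0, 4, 1, 10, 10, 2, 9, 5, 0, 9, 1, 6, 6, 8, 7, 2, 2, 5],
  [8, 8, 0, 4, 0, 5, 4, 0, 3, 6, 7, 5, 2, 1, 9, 8, 4, 0, 8, 10, 9, 3, 10, 7, 8, 5, 7, 1, 2, 7, 0, 0, 2, 2, 9],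
  [6, 4, 5, 6, 3, 6, 2, 3, 5, 7, 6, 4, 3, 3, 1, 3, 0, 10, 2, 9, 1, 7, 9, 9, 8, 7, 8, 6, 4, 9, 7, 1, 9, 1, 8],
  [3, 2, 3, 5, 10, 3, 6, 5, 7, 1, 9, 6, 8, 8, 9, 8, 3, 6, 10, 0, 6, 0, 7, 0, 5, 2, 7, 3, 2, 4, 9, 2, 2, 8, 8],
  [4, 9, 10, 4, 3, 8, 0, 2, 1, 10, 0, 3, 8, 8, 4, 9, 1, 6, 1, 3, 0, 3, 2, 7, 10, 10, 3, 1, 0, 2, 2, 2, 6, 7, 5],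
  [8, 10, 7, 8, 7, 10, 5, 5, 5, 2, 3, 8, 3, 10, 5, 8, 8, 1, 10, 9, 3, 9, 10, 7, 10, 5, 1, 5, 9, 9, 5, 4, 2, 5, 1],
  [7, 4, 2, 3, 9, 5, 7, 7, 2, 2, 2, 9, 10, 1, 0, 4, 5, 4, 6, 2, 5, 10, 8, 7, 8, 4, 5, 3, 10, 3, 3, 0, 7, 10, 1],
  [10, 2, 3, 5, 5, 2, 0, 10, 5, 5, 5, 3, 8, 6, 0, 3, 4, 5, 9, 7, 2, 8, 5, 5, 6, 1, 9, 9, 1, 8, 3, 0, 0, 10, 8],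
  [8, 8, 8, 9, 3, 8, 3, 8, 8, 1, 6, 4, 1, 4, 7, 9, 6, 5, 6, 2, 0, 3, 9, 2, 5, 9, 5, 3, 8, 3, 10, 4, 10, 2, 4],
  [2, 6, 8, 2, 9, 7, 2, 7, 5, 9, 0, 4, 3, 9, 2, 6, 2, 10, 6, 3, 3, 4, 8, 4, 8, 4, 2, 6, 9, 5, 0, 7, 7, 6, 5],
  [10, 5, 2, 4, 3, 0, 6, 0, 5, 4, 9, 8, 6, 3, 6, 9, 3, 1, 4, 4, 3, 8, 9, 5, 4, 5, 0, 7, 5, 4, 9, 4, 6, 8, 2],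
  [1, 2, 0, 4, 0, 7, 7, 9, 3, 2, 7, 4, 3, 1, 0, 5, 9, 1, 7, 8, 4, 1, 0, 5, 9, 5, 10, 10, 2, 9, 7, 1, 1, 2, 9],
  [5, 8, 3, 5, 4, 8, 4, 0, 4, 1, 5, 0, 3, 4, 8, 5, 4, 7, 8, 6, 9, 10, 3, 1, 6, 9, 1, 5, 4, 0, 1, 5, 5, 1, 1],
  [7, 8, 0, 5, 2, 4, 1, 8, 2, 8, 7, 9, 6, 8, 6, 0, 8, 5, 1, 0, 7, 8, 9, 10, 1, 9, 7, 1, 2, 3, 7, 1, 0, 8, 7],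
  [6, 5, 3, 10, 6, 2, 0, 4, 4, 5, 2, 2, 0, 3, 3, 5, 7, 4, 7, 5, 9, 9, 2, 7, 4, 8, 1, 2, 0, 10, 8, 9, 7, 6, 7],
  [2, 5, 9, 3, 5, 6, 6, 4, 1, 2, 8, 1, 10, 5, 10, 10, 3, 5, 2, 6, 2, 9, 0, 8, 9, 3, 4, 1, 0, 4, 6, 6, 9, 5, 2],
  [3, 10, 4, 3, 6, 9, 10, 8, 2, 2, 10, 6, 7, 7, 8, 4, 7, 7, 10, 2, 0, 5, 9, 8, 0, 7, 5, 2, 0, 7, 6, 9, 9, 5, 5],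
  [2, 8, 9, 0, 0, 10, 2, 0, 2, 5, 8, 1, 2, 0, 1, 4, 10, 0, 2, 7, 7, 4, 4, 9, 2, 8, 1, 9, 7, 9, 4, 0, 9, 7, 0],
  [4, 2, 10, 2, 1, 5, 6, 2, 2, 0, 6, 4, 4, 2, 10, 1, 0, 5, 1, 4, 10, 4, 7, 8, 7, 3, 7, 0, 9, 4, 0, 8, 4, 1, 3],
  [9, 2, 6, 3, 7, 6, 10, 6, 0, 2, 10, 9, 2, 5, 4, 4, 4, 6, 6, 5, 2, 8, 2, 9, 5, 1, 6, 2, 4, 3, 2, 5, 2, 10, 0],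
  [9, 0, 1, 7, 5, 4, 3, 6, 7, 5, 9, 4, 4, 4, 7, 10, 6, 2, 8, 6, 5, 3, 3, 3, 6, 9, 9, 2, 7, 6, 0, 6, 5, 7, 2],
  [5, 9, 5, 6, 3, 2, 0, 2, 2, 7, 6, 5, 1, 3, 3, 5, 3, 1, 5, 0, 2, 7, 6, 9, 10, 1, 6, 1, 6, 7, 4, 1, 9, 5, 3],
  [7, 8, 3, 10, 8, 9, 5, 10, 5, 6, 3, 4, 9, 7, 6, 8, 5, 7, 6, 1, 1, 4, 9, 9, 4, 7, 3, 7, 2, 7, 4, 7, 5, 6, 2],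
  [3, 8, 0, 2, 10, 9, 2, 7, 2, 9, 10, 8, 4, 8, 2, 1, 2, 9, 3, 8, 2, 2, 2, 10, 4, 2, 5, 7, 7, 7, 1, 2, 9, 7, 0],
  [3, 0, 0, 3, 5, 9, 5, 1, 7, 1, 9, 1, 3, 7, 8, 5, 10, 1, 6, 4, 6, 2, 6, 2, 3, 5, 5, 3, 8, 6, 5, 3, 9, 3, 6],
  [8, 10, 2, 2, 8, 5, 7, 6, 2, 5, 10, 4, 2, 2, 1, 1, 10, 0, 6, 9, 3, 10, 8, 6, 1, 1, 0, 6, 9, 2, 7, 4, 8, 10, 6],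
  [2, 2, 3, 9, 5, 7, 8, 2, 5, 6, 6, 6, 8, 7, 8, 8, 0, 3, 3, 9, 1, 10, 0, 4, 1, 2, 7, 0, 7, 2, 2, 5, 7, 6, 1],
  [0, 6, 8, 7, 9, 10, 8, 2, 8, 1, 1, 8, 7, 3, 3, 7, 1, 9, 9, 1, 2, 9, 2, 4, 6, 4, 5, 0, 5, 8, 3, 10, 9, 7, 10],
  [10, 9, 0, 6, 9, 4, 6, 7, 0, 3, 6, 5, 7, 3, 0, 0, 0, 1, 1, 0, 10, 0, 10, 7, 6, 7, 3, 9, 4, 0, 5, 3, 1, 3, 1],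
  [7, 4, 1, 6, 8, 1, 5, 5, 5, 4, 7, 8, 1, 2, 4, 6, 1, 7, 1, 4, 4, 6, 2, 2, 6, 2, 2, 1, 3, 6, 2, 1, 8, 9, 10],
  [7, 3, 9, 4, 9, 4, 5, 0, 1, 2, 4, 6, 9, 5, 9, 6, 3, 9, 0, 8, 2, 3, 8, 4, 7, 1, 7, 3, 1, 7, 2, 5, 8, 2, 6],
  [6, 2, 7, 7, 8, 8, 5, 0, 6, 3, 5, 6, 1, 1, 4, 6, 9, 7, 5, 1, 7, 1, 4, 0, 7, 9, 0, 7, 3, 8, 9, 8, 5, 2, 6]]

end W828
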