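import Pool.Agent.W_828d9b_h4.PRel

/-!
# The finite group KK: homomorphism properties
-/

namespace W828

variable {P : Type*} [Group P]

theorem kp_et_add (a b : ZMod 10) : et (a + b) = et a * et b := by
  revert a b
  decide +kernel

theorem kp_et_zero : et 0 = 1 := by decide +kernel

theorem kp_dg_mul (a b a' b' : ZMod 10) : dg a b * dg a' b' = dg (a + a') (b + b') := by
  apply toMat_injective
  rw [toMat_mul]
  simp only [dg, toMat_mkG, kp_et_add]
  refine Matrix.ext fun i j => ?_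
  fin_cases i <;> fin_cases j <;> simp [Matrix.mul_apply, Fin.sum_univ_three]

theorem kp_W0_dg (a b : ZMod 10) : W0 * dg a b = dg b a * W0 := by
  apply toMat_injective
  rw [toMat_mul, toMat_mul]
  simp only [dg, W0, toMat_mkG]
  refine Matrix.ext fun i j => ?_
  fin_cases i <;> fin_cases j <;> simp [Matrix.mul_apply, Fin.sum_univ_three, mul_comm]

theorem kp_W0_W0 : W0 * W0 = dg (-2) (-2) := by
  apply toMat_injective
  rw [toMat_mul]
  simp only [dg, W0, toMat_mkG]
  decide +kernel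

theorem kp_kap_f (a b : ZMod 10) : kap ⟨a, b, false⟩ = dg a b := rfl

theorem kp_kap_t (a b : ZMod 10) : kap ⟨a, b, true⟩ = dg a b * W0 := rfl

/-- kap is a homomorphism (W0 * dg a b = dg b a * W0, W0 * W0 = dg (-2) (-2)) -/
theorem kap_mul (k k' : KK) : kap (k * k') = kap k * kap k' := by
  obtain ⟨a, b, c⟩ := k
  obtain ⟨a', b', c'⟩ := k'
  cases c <;> cases c'
  · rw [KK.mul_ff, kp_kap_f, kp_kap_f, kp_kap_f, kp_dg_mul]
  · rw [KK.mul_ft, kp_kap_f, kp_kap_t, kp_kap_t, ← mul_assoc, kp_dg_mul]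
  · rw [KK.mul_tf, kp_kap_f, kp_kap_t, kp_kap_t, mul_assoc, kp_W0_dg, ← mul_assoc, kp_dg_mul]
  · rw [KK.mul_tt, kp_kap_f, kp_kap_t, kp_kap_t, mul_assoc, ← mul_assoc W0, kp_W0_dg,
      mul_assoc (dg b' a'), kp_W0_W0, kp_dg_mul, kp_dg_mul]
    congr 1 <;> ring

theorem kap_one : kap 1 = 1 := by
  rw [KK.one_def, kp_kap_f]
  apply toMat_injective
  simp only [dg, toMat_mkG, toMat_one]
  decide +kernel

theorem sc_add (u v : ZMod 10) : sc (u + v) = sc u * sc v := by
  apply toMat_injective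
  rw [toMat_mul]
  simp only [sc, toMat_mkG, kp_et_add]
  refine Matrix.ext fun i j => ?_
  fin_cases i <;> fin_cases j <;> simp [Matrix.mul_apply, Fin.sum_univ_three]

theorem sc_zero : sc 0 = 1 := by
  apply toMat_injective
  simp only [sc, toMat_mkG, toMat_one]
  decide +kernel

/-- scalars are central -/
theorem sc_comm (u : ZMod 10) (g : GHat) : sc u * g = g * sc u := by
  apply toMat_injective
  rw [toMat_mul, toMat_mul]
  simp only [sc, toMat_mkG]
  refine Matrix.ext fun i j => ?_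
  fin_cases i <;> fin_cases j <;> simp [Matrix.mul_apply, Fin.sum_univ_three, mul_comm]

/-- R 0 and R 2 are the elements ⟨1,0,false⟩ and ⟨0,1,false⟩ -/
theorem R0_eq : R 0 = kap ⟨1, 0, false⟩ := by
  rw [kp_kap_f]
  apply toMat_injective
  simp only [dg, R, toMat_mkG]
  decide +kernel

theorem R2_eq : R 2 = kap ⟨0, 1, false⟩ := by
  rw [kp_kap_f]
  apply toMat_injective
  simp only [dg, R, toMat_mkG]
  decide +kernel

/-- R 1 R 0 R 2 R 1 is a scalar times W0 -/
theorem W_eq : R 1 * R 0 * R 2 * R 1 = sc 7 * kap ⟨0, 0, true⟩ := by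
  rw [kp_kap_t]
  apply toMat_injective
  simp only [toMat_mul]
  simp only [dg, R, W0, sc, toMat_mkG]
  decide +kernel

/-! ### powers with exponents modulo ten -/

/-- power with exponent modulo ten -/
def kpw (g : P) (a : ZMod 10) : P := g ^ a.val

theorem kpw_add {g : P} (hg : g ^ 10 = 1) (a b : ZMod 10) : kpw g (a + b) = kpw g a * kpw g b := by
  unfold kpw
  rw [ZMod.val_add, ← pow_eq_pow_mod _ hg, pow_add]

theorem kpw_zero (g : P) : kpw g 0 = 1 := by
  unfold kpw
  rw [ZMod.val_zero, pow_zero]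

theorem kpw_neg_two {g : P} (hg : g ^ 10 = 1) : kpw g (-2) = g⁻¹ * g⁻¹ := by
  have h1 : kpw g (-2) * kpw g 2 = 1 := by
    rw [← kpw_add hg, neg_add_cancel, kpw_zero]
  have h2 : kpw g 2 = g * g := by
    change g ^ (2 : ℕ) = g * g
    exact pow_two g
  rw [h2] at h1
  rw [← mul_inv_rev]
  exact eq_inv_of_mul_eq_one_left h1

theorem kpw_sub_two {g : P} (hg : g ^ 10 = 1) (a b : ZMod 10) :
    kpw g (a + b - 2) = kpw g a * kpw g b * (g⁻¹ * g⁻¹) := by
  rw [sub_eq_add_neg, kpw_add hg, kpw_add hg, kpw_neg_two hg]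

theorem kpw_comm {x y : P} (h : Commute x y) (a b : ZMod 10) :
    kpw x a * kpw y b = kpw y b * kpw x a := (h.pow_pow _ _).eq

theorem kpw_conj {x y w : P} (h : w * x = y * w) (a : ZMod 10) : w * kpw x a = kpw y a * w :=
  SemiconjBy.pow_right (a := w) (x := x) (y := y) h a.val

theorem kp_abs {x y w : P} (hc : Commute x y) (hx : x ^ 10 = 1) (hy : y ^ 10 = 1)
    (h1 : w * x = y * w) (h2 : w * y = x * w) (h3 : w * w = x⁻¹ * x⁻¹ * y⁻¹ * y⁻¹)
    (k k' : KK) :
    kpw x (k * k').a * kpw y (k * k').b * (if (k * k').c then w else 1)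
      = (kpw x k.a * kpw y k.b * (if k.c then w else 1))
        * (kpw x k'.a * kpw y k'.b * (if k'.c then w else 1)) := by
  obtain ⟨a, b, c⟩ := k
  obtain ⟨a', b', c'⟩ := k'
  have hff : kpw x (a + a') * kpw y (b + b') = kpw x a * kpw y b * (kpw x a' * kpw y b') := by
    rw [kpw_add hx, kpw_add hy]
    calc kpw x a * kpw x a' * (kpw y b * kpw y b')
        = kpw x a * (kpw x a' * kpw y b) * kpw y b' := by simp only [mul_assoc]
      _ = kpw x a * (kpw y b * kpw x a') * kpw y b' := by rw [kpw_comm hc]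
      _ = _ := by simp only [mul_assoc]
  have hw : w * (kpw x a' * kpw y b') = (kpw x b' * kpw y a') * w := by
    calc w * (kpw x a' * kpw y b') = (w * kpw x a') * kpw y b' := by rw [mul_assoc]
      _ = (kpw y a' * w) * kpw y b' := by rw [kpw_conj h1]
      _ = kpw y a' * (w * kpw y b') := by rw [mul_assoc]
      _ = kpw y a' * (kpw x b' * w) := by rw [kpw_conj h2]
      _ = (kpw y a' * kpw x b') * w := by rw [mul_assoc]
      _ = _ := by rw [kpw_comm hc]
  have hft : kpw x (a + b') * kpw y (b + a') = kpw x a * kpw y b * (kpw x b' * kpw y a') := by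
    rw [kpw_add hx, kpw_add hy]
    calc kpw x a * kpw x b' * (kpw y b * kpw y a')
        = kpw x a * (kpw x b' * kpw y b) * kpw y a' := by simp only [mul_assoc]
      _ = kpw x a * (kpw y b * kpw x b') * kpw y a' := by rw [kpw_comm hc]
      _ = _ := by simp only [mul_assoc]
  cases c <;> cases c'
  · rw [KK.mul_ff]
    simp only [Bool.false_eq_true, if_false, mul_one]
    exact hff
  · rw [KK.mul_ft]
    simp only [Bool.false_eq_true, if_false, if_true, mul_one]
    rw [hff]
    simp only [mul_assoc]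
  · rw [KK.mul_tf]
    simp only [Bool.false_eq_true, if_false, if_true, mul_one]
    rw [hft, mul_assoc _ w, hw]
    simp only [mul_assoc]
  · rw [KK.mul_tt]
    simp only [Bool.false_eq_true, if_false, if_true, mul_one]
    have e1 : a + b' - 2 = (a + b') + (-2) := by ring
    have e2 : b + a' - 2 = (b + a') + (-2) := by ring
    have e3 : kpw x a * kpw y b * w * (kpw x a' * kpw y b' * w)
        = kpw x a * kpw y b * (kpw x b' * kpw y a') * (w * w) := by
      calc kpw x a * kpw y b * w * (kpw x a' * kpw y b' * w)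
          = kpw x a * kpw y b * (w * (kpw x a' * kpw y b')) * w := by simp only [mul_assoc]
        _ = _ := by rw [hw]; simp only [mul_assoc]
    rw [e3, h3, ← hft, e1, e2, kpw_add hx, kpw_add hy, ← kpw_neg_two hx, mul_assoc (kpw x (-2)),
      ← kpw_neg_two hy]
    calc kpw x (a + b') * kpw x (-2) * (kpw y (b + a') * kpw y (-2))
        = kpw x (a + b') * (kpw x (-2) * kpw y (b + a')) * kpw y (-2) := by simp only [mul_assoc]
      _ = kpw x (a + b') * (kpw y (b + a') * kpw x (-2)) * kpw y (-2) := by rw [kpw_comm hc]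
      _ = _ := by simp only [mul_assoc]

/-- rhoK is a homomorphism. Needs: s0 and s2 commute, s2 = w s0 w⁻¹ hence s2^10 = 1,
w s0 = s2 w, w s2 = s0 w (both follow from the braid relations), and
w^2 = s0^(-2) s2^(-2): in the braid group on four strands (s0 s1 s2)^4 = w^2 s0^2 s2^2,
and (s0 s1 s2)^4 = 1 follows from the relations (see the KB certificate, `kb_w2`,
which may be assumed here as hypothesis `hw`). -/
theorem rhoK_mul (s : Fin 4 → P) (hs : BRel s)
    (hw : wP s * wP s = (s 0)⁻¹ * (s 0)⁻¹ * (s 2)⁻¹ * (s 2)⁻¹) (k k' : KK) :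
    rhoK s (k * k') = rhoK s k * rhoK s k' := by
  have h1 : wP s * s 0 = s 2 * wP s := by
    unfold wP
    calc s 1 * s 0 * s 2 * s 1 * s 0 = s 1 * (s 0 * s 2) * s 1 * s 0 := by simp only [mul_assoc]
      _ = s 1 * (s 2 * s 0) * s 1 * s 0 := by rw [hs.c02]
      _ = s 1 * s 2 * (s 0 * s 1 * s 0) := by simp only [mul_assoc]
      _ = s 1 * s 2 * (s 1 * s 0 * s 1) := by rw [hs.b01]
      _ = (s 1 * s 2 * s 1) * s 0 * s 1 := by simp only [mul_assoc]
      _ = (s 2 * s 1 * s 2) * s 0 * s 1 := by rw [hs.b12]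
      _ = s 2 * s 1 * (s 2 * s 0) * s 1 := by simp only [mul_assoc]
      _ = s 2 * s 1 * (s 0 * s 2) * s 1 := by rw [hs.c02]
      _ = s 2 * (s 1 * s 0 * s 2 * s 1) := by simp only [mul_assoc]
  have h2 : wP s * s 2 = s 0 * wP s := by
    unfold wP
    calc s 1 * s 0 * s 2 * s 1 * s 2 = s 1 * s 0 * (s 2 * s 1 * s 2) := by simp only [mul_assoc]
      _ = s 1 * s 0 * (s 1 * s 2 * s 1) := by rw [hs.b12]
      _ = (s 1 * s 0 * s 1) * s 2 * s 1 := by simp only [mul_assoc]
      _ = (s 0 * s 1 * s 0) * s 2 * s 1 := by rw [hs.b01]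
      _ = s 0 * (s 1 * s 0 * s 2 * s 1) := by simp only [mul_assoc]
  have hy : s 2 ^ 10 = 1 := by
    have h3 : wP s * s 0 ^ 10 = s 2 ^ 10 * wP s :=
      SemiconjBy.pow_right (a := wP s) (x := s 0) (y := s 2) h1 10
    rw [hs.o, mul_one] at h3
    exact (mul_eq_right.1 h3.symm)
  exact kp_abs (x := s 0) (y := s 2) (w := wP s) hs.c02 hs.o hy h1 h2 hw k k'

theorem rhoK_one (s : Fin 4 → P) : rhoK s 1 = 1 := by
  rw [KK.one_def]
  unfold rhoK
  simp

end W828
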