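import Pool.Agent.W_828d9b_h4.Enum
import Pool.Agent.W_828d9b_h4.KPart

/-!
# Small elements of GHat lie in the seven double cosets
-/

namespace W828

open Matrix

theorem dc_et_add (a b : ZMod 10) : et (a + b) = et a * et b := by
  revert a b; decide +kernel

theorem dc_et_star (u : ZMod 10) : et u * star (et u) = 1 := by
  revert u; decide +kernel

theorem dc_nAB {x y : Z5} (h : x * star x = y * star y) :
    Z5.nA x = Z5.nA y ∧ Z5.nB x = Z5.nB y := by
  rw [Z5.mul_star, Z5.mul_star] at h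
  have h1 := congrArg Z5.a h
  have h2 := congrArg Z5.c h
  simp only at h1 h2
  omega

theorem dc_nAB_et (u : ZMod 10) (x : Z5) :
    Z5.nA (et u * x) = Z5.nA x ∧ Z5.nB (et u * x) = Z5.nB x := by
  apply dc_nAB
  rw [star_mul]
  calc et u * x * (star x * star (et u)) = (et u * star (et u)) * (x * star x) := by ring
    _ = x * star x := by rw [dc_et_star, one_mul]

/-- the matrix equation, entry by entry -/
theorem dc_unit (g : GHat) (i j : Fin 3) :
    star (toMat g 0 i) * toMat g 0 j + star (toMat g 1 i) * toMat g 1 j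
      - Z5.tau * (star (toMat g 2 i) * toMat g 2 j) = H i j := by
  have h := congrFun (congrFun (toMat_unitary g) i) j
  rw [← h]
  simp only [Matrix.mul_apply, Fin.sum_univ_three, Matrix.conjTranspose_apply, H]
  simp
  ring

theorem dc_col (g : GHat) :
    Z5.nA (toMat g 0 2) + Z5.nA (toMat g 1 2) = Z5.nB (toMat g 2 2) ∧
    Z5.nB (toMat g 0 2) + Z5.nB (toMat g 1 2) = Z5.nA (toMat g 2 2) - 1 - Z5.nB (toMat g 2 2) := by
  have h := dc_unit g 2 2
  rw [mul_comm (star (toMat g 0 2)), mul_comm (star (toMat g 1 2)),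
    mul_comm (star (toMat g 2 2)), Z5.mul_star, Z5.mul_star, Z5.mul_star] at h
  have h1 := congrArg Z5.a h
  have h2 := congrArg Z5.c h
  simp [H, Z5.tau] at h1 h2
  constructor <;> linarith

theorem dc_nsq_nonneg (x : Z5) : 0 ≤ nsq x := by
  rw [← normSq_io]; exact Complex.normSq_nonneg _

theorem dc_nsq'_nonneg (x : Z5) : 0 ≤ nsq' x := by
  rw [← normSq_io']; exact Complex.normSq_nonneg _

/-- norm relation for the third column, standard embedding -/
theorem col_nsq (g : GHat) :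
    nsq (toMat g 0 2) + nsq (toMat g 1 2) = tr * (nsq (toMat g 2 2) - 1) := by
  obtain ⟨h1, h2⟩ := dc_col g
  have h1' : (Z5.nA (toMat g 0 2) : ℝ) + Z5.nA (toMat g 1 2) = Z5.nB (toMat g 2 2) := by
    exact_mod_cast h1
  have h2' : (Z5.nB (toMat g 0 2) : ℝ) + Z5.nB (toMat g 1 2) =
      Z5.nA (toMat g 2 2) - 1 - Z5.nB (toMat g 2 2) := by
    exact_mod_cast h2
  unfold nsq
  linear_combination h1' + tr * h2' - (Z5.nB (toMat g 2 2) : ℝ) * tr_sq

/-- norm relation for the third column, other embedding -/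
theorem col_nsq' (g : GHat) :
    nsq' (toMat g 0 2) + nsq' (toMat g 1 2) + (tr + 1) * nsq' (toMat g 2 2) = tr + 1 := by
  obtain ⟨h1, h2⟩ := dc_col g
  have h1' : (Z5.nA (toMat g 0 2) : ℝ) + Z5.nA (toMat g 1 2) = Z5.nB (toMat g 2 2) := by
    exact_mod_cast h1
  have h2' : (Z5.nB (toMat g 0 2) : ℝ) + Z5.nB (toMat g 1 2) =
      Z5.nA (toMat g 2 2) - 1 - Z5.nB (toMat g 2 2) := by
    exact_mod_cast h2
  unfold nsq'
  linear_combination h1' - (tr + 1) * h2' - (Z5.nB (toMat g 2 2) : ℝ) * tr_sq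

/-- the eight classes and zero -/
def clp : Fin 9 → Z5 := ![0, cl 0, cl 1, cl 2, cl 3, cl 4, cl 5, cl 6, cl 7]

theorem dc_rep (x : Z5) (h1 : nsq x ≤ 13.34) (h2 : nsq' x ≤ 1.62) :
    ∃ (j : Fin 9) (u : ZMod 10), x = et u * clp j ∧ Z5.nA x = Z5.nA (clp j) ∧
      Z5.nB x = Z5.nB (clp j) := by
  have key : ∀ (j : Fin 9) (u : ZMod 10), x = et u * clp j →
      ∃ (j : Fin 9) (u : ZMod 10), x = et u * clp j ∧ Z5.nA x = Z5.nA (clp j) ∧
      Z5.nB x = Z5.nB (clp j) := by
    intro j u h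
    refine ⟨j, u, h, ?_, ?_⟩
    · rw [h]; exact (dc_nAB_et u _).1
    · rw [h]; exact (dc_nAB_et u _).2
  rcases enum_small x h1 h2 with h | ⟨i, u, h⟩
  · exact key 0 0 (by rw [h]; decide +kernel)
  · refine key i.succ u ?_
    rw [h]
    have : ∀ i : Fin 8, cl i = clp i.succ := by decide +kernel
    rw [this]

theorem dc_sum_one : ∀ j0 j1 : Fin 9, Z5.nA (clp j0) + Z5.nA (clp j1) = 1 →
    (j0 = 0 ∧ j1 = 1) ∨ (j0 = 1 ∧ j1 = 0) := by
  decide +kernel

theorem dc_two (x y : Z5) (h : star x * x + star y * y = 1) :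
    (x = 0 ∧ ∃ u, y = et u) ∨ (y = 0 ∧ ∃ u, x = et u) := by
  have h' : Z5.nA x + Z5.nA y = 1 ∧ Z5.nB x + Z5.nB y = 0 := by
    rw [mul_comm (star x), mul_comm (star y), Z5.mul_star, Z5.mul_star] at h
    have h1 := congrArg Z5.a h
    have h2 := congrArg Z5.c h
    simp at h1 h2
    constructor <;> linarith
  have hA : (Z5.nA x : ℝ) + Z5.nA y = 1 := by exact_mod_cast h'.1
  have hB : (Z5.nB x : ℝ) + Z5.nB y = 0 := by exact_mod_cast h'.2
  have hn : nsq x + nsq y = 1 := by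
    unfold nsq; linear_combination hA + tr * hB
  have hn' : nsq' x + nsq' y = 1 := by
    unfold nsq'; linear_combination hA - (tr + 1) * hB
  have x1 := dc_nsq_nonneg x
  have x2 := dc_nsq'_nonneg x
  have y1 := dc_nsq_nonneg y
  have y2 := dc_nsq'_nonneg y
  obtain ⟨j0, u0, e0, a0, -⟩ := dc_rep x (by linarith) (by linarith)
  obtain ⟨j1, u1, e1, a1, -⟩ := dc_rep y (by linarith) (by linarith)
  have h3 := dc_sum_one j0 j1 (by rw [← a0, ← a1]; exact h'.1)
  have c0 : clp 0 = 0 := rfl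
  have c1 : clp 1 = 1 := rfl
  rcases h3 with ⟨r0, r1⟩ | ⟨r0, r1⟩
  · left
    subst r0 r1
    exact ⟨by rw [e0, c0, mul_zero], u1, by rw [e1, c1, mul_one]⟩
  · right
    subst r0 r1
    exact ⟨by rw [e1, c0, mul_zero], u0, by rw [e0, c1, mul_one]⟩

theorem dc_tau_mul {x : Z5} (h : Z5.tau * x = 0) : x = 0 := by
  have : Z5.phi * (Z5.tau * x) = 0 := by rw [h, mul_zero]
  rw [← mul_assoc, mul_comm Z5.phi, Z5.tau_mul_phi, one_mul] at this
  exact this

theorem dc_star_et_mul {u : ZMod 10} {x : Z5} (h : star (et u) * x = 0) : x = 0 := by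
  have : et u * (star (et u) * x) = 0 := by rw [h, mul_zero]
  rwa [← mul_assoc, dc_et_star, one_mul] at this

/-- an element fixing the third basis vector is some kap k -/
theorem fix_e3 (g : GHat) (h0 : toMat g 0 2 = 0) (h1 : toMat g 1 2 = 0) (h2 : toMat g 2 2 = 1) :
    ∃ k : KK, g = kap k := by
  have e20 := dc_unit g 2 0
  have e21 := dc_unit g 2 1
  have e00 := dc_unit g 0 0
  have e11 := dc_unit g 1 1
  have e01 := dc_unit g 0 1
  have s1 : star (1 : Z5) = 1 := star_one _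
  have s0 : star (0 : Z5) = 0 := star_zero _
  have H20 : H 2 0 = 0 := rfl
  have H21 : H 2 1 = 0 := rfl
  have H00 : H 0 0 = 1 := rfl
  have H11 : H 1 1 = 1 := rfl
  have H01 : H 0 1 = 0 := rfl
  rw [h0, h1, h2, s0, s1, zero_mul, zero_mul, one_mul, H20] at e20
  rw [h0, h1, h2, s0, s1, zero_mul, zero_mul, one_mul, H21] at e21
  have g20 : toMat g 2 0 = 0 := dc_tau_mul (by linear_combination -e20)
  have g21 : toMat g 2 1 = 0 := dc_tau_mul (by linear_combination -e21)
  rw [g20, H00, mul_zero, mul_zero, sub_zero] at e00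
  rw [g21, H11, mul_zero, mul_zero, sub_zero] at e11
  rw [g21, H01, mul_zero, mul_zero, sub_zero] at e01
  have hext : ∀ M : Mat, M 0 0 = toMat g 0 0 → M 0 1 = toMat g 0 1 → M 0 2 = 0 →
      M 1 0 = toMat g 1 0 → M 1 1 = toMat g 1 1 → M 1 2 = 0 → M 2 0 = 0 → M 2 1 = 0 →
      M 2 2 = 1 → toMat g = M := by
    intro M m00 m01 m02 m10 m11 m12 m20 m21 m22
    apply Matrix.ext
    intro i j
    fin_cases i <;> fin_cases j
    · exact m00.symm
    · exact m01.symm
    · exact h0.trans m02.symm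
    · exact m10.symm
    · exact m11.symm
    · exact h1.trans m12.symm
    · exact g20.trans m20.symm
    · exact g21.trans m21.symm
    · exact h2.trans m22.symm
  rcases dc_two _ _ e00 with ⟨a0, u, c⟩ | ⟨c0, u, a⟩
  · -- antidiagonal
    rw [a0, c, s0, zero_mul, zero_add] at e01
    have d0 := dc_star_et_mul e01
    rcases dc_two _ _ e11 with ⟨-, v, hv⟩ | ⟨-, v, hv⟩
    · exfalso
      rw [d0] at hv
      have := dc_et_star v
      rw [← hv, zero_mul] at this
      exact absurd this (by decide)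
    · refine ⟨⟨v + 1, u + 1, true⟩, toMat_injective ?_⟩
      have h9 : ∀ w : ZMod 10, et (w + 1) * et 9 = et w := by decide +kernel
      apply hext
      all_goals
        simp [kap, dg, W0, Matrix.mul_apply, Fin.sum_univ_three, h9, a0, c, d0, hv]
  · -- diagonal
    rw [c0, a, s0, zero_mul, add_zero] at e01
    have b0 := dc_star_et_mul e01
    rcases dc_two _ _ e11 with ⟨-, v, hv⟩ | ⟨-, v, hv⟩
    · refine ⟨⟨u, v, false⟩, toMat_injective ?_⟩
      apply hext
      all_goals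
        simp [kap, dg, a, c0, b0, hv]
    · exfalso
      rw [b0] at hv
      have := dc_et_star v
      rw [← hv, zero_mul] at this
      exact absurd this (by decide)

theorem dc_list : ∀ j0 j1 j2 : Fin 9,
    Z5.nA (clp j0) + Z5.nA (clp j1) = Z5.nB (clp j2) →
    Z5.nB (clp j0) + Z5.nB (clp j1) = Z5.nA (clp j2) - 1 - Z5.nB (clp j2) →
    (j0, j1, j2) ∈ ([(0, 0, 1), (0, 1, 2), (0, 3, 4), (0, 4, 7), (0, 4, 8), (1, 0, 2), (1, 2, 4), (2, 1, 4), (2, 2, 5), (3, 0, 4), (4, 0, 7), (4, 0, 8)] : List (Fin 9 × Fin 9 × Fin 9)) := by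
  decide +kernel

/-- the third column of kap ⟨0, 0, c⟩ * G i -/
def dcC (c : Bool) (i : Fin 7) (r : Fin 3) : Z5 := toMat (kap ⟨0, 0, c⟩ * G i) r 2

theorem dc_find (j0 j1 j2 : Fin 9)
    (h1 : Z5.nA (clp j0) + Z5.nA (clp j1) = Z5.nB (clp j2))
    (h2 : Z5.nB (clp j0) + Z5.nB (clp j1) = Z5.nA (clp j2) - 1 - Z5.nB (clp j2)) :
    ∃ (i : Fin 7) (c : Bool) (v0 v1 v2 : ZMod 10),
      dcC c i 0 = et v0 * clp j0 ∧ dcC c i 1 = et v1 * clp j1 ∧ dcC c i 2 = et v2 * clp j2 := by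
  have h := dc_list j0 j1 j2 h1 h2
  simp only [List.mem_cons, Prod.mk.injEq, List.not_mem_nil, or_false] at h
  rcases h with ⟨rfl, rfl, rfl⟩ | ⟨rfl, rfl, rfl⟩ | ⟨rfl, rfl, rfl⟩ | ⟨rfl, rfl, rfl⟩ | ⟨rfl, rfl, rfl⟩ | ⟨rfl, rfl, rfl⟩ | ⟨rfl, rfl, rfl⟩ | ⟨rfl, rfl, rfl⟩ | ⟨rfl, rfl, rfl⟩ | ⟨rfl, rfl, rfl⟩ | ⟨rfl, rfl, rfl⟩ | ⟨rfl, rfl, rfl⟩
  · exact ⟨0, false, 0, 0, 0, by decide +kernel⟩
  · exact ⟨1, false, 0, 8, 0, by decide +kernel⟩
  · exact ⟨2, false, 0, 9, 0, by decide +kernel⟩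
  · exact ⟨5, false, 0, 0, 0, by decide +kernel⟩
  · exact ⟨6, false, 0, 2, 2, by decide +kernel⟩
  · exact ⟨1, true, 7, 0, 0, by decide +kernel⟩
  · exact ⟨3, true, 8, 8, 0, by decide +kernel⟩
  · exact ⟨3, false, 9, 9, 0, by decide +kernel⟩
  · exact ⟨4, false, 9, 9, 9, by decide +kernel⟩
  · exact ⟨2, true, 8, 0, 0, by decide +kernel⟩
  · exact ⟨5, true, 9, 0, 0, by decide +kernel⟩
  · exact ⟨6, true, 1, 0, 2, by decide +kernel⟩

theorem dc_kap (a b : ZMod 10) (c : Bool) : kap ⟨a, b, c⟩ = dg a b * kap ⟨0, 0, c⟩ := by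
  have h0 : dg 0 0 = 1 := toMat_injective (by decide +kernel)
  cases c
  · simp [kap, h0]
  · simp [kap, h0]

theorem dc_kap_e (k : KK) : toMat (kap k) 2 0 = 0 ∧ toMat (kap k) 2 1 = 0 ∧
    toMat (kap k) 2 2 = 1 ∧ toMat (kap k) 0 2 = 0 ∧ toMat (kap k) 1 2 = 0 := by
  rcases k with ⟨a, b, c⟩
  cases c <;> simp [kap, dg, W0, Matrix.mul_apply, Fin.sum_univ_three]

/-- Every small element is (scalar) * kap k * G i * kap k'.
Proof: the third column y = (y0, y1, y2) has nsq y2 ≤ 13.34, nsq' y2 ≤ 1,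
nsq y0 + nsq y1 ≤ 7.63, nsq' y0, nsq' y1 ≤ 1.6181, so by `enum_small` each y_i is zero or
(root of unity) * cl j; the norm relations leave the possibilities (classes of y0, y1, y2)
(0,0,1), (phi^0,0,phi), (0,1,phi), (|.|^2 = 3.618, 0, 6.854) and swapped, (1, 2.618, 6.854) and
swapped, (2.618, 2.618, 9.472), (6.854, 0, 12.09) (two classes) and swapped.  In each case
y = (sc u * kap k * G i) e3 for suitable u, k (finite check), and then
(sc u * kap k * G i)⁻¹ * g fixes e3. -/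
theorem decomp (g : GHat) (hg : Small g) :
    ∃ (u : ZMod 10) (k : KK) (i : Fin 7) (k' : KK), g = sc u * kap k * G i * kap k' := by
  have ht := tr_gt
  have ht' := tr_lt
  have q1 := col_nsq g
  have q2 := col_nsq' g
  have p0 := dc_nsq_nonneg (toMat g 0 2)
  have p1 := dc_nsq_nonneg (toMat g 1 2)
  have p0' := dc_nsq'_nonneg (toMat g 0 2)
  have p1' := dc_nsq'_nonneg (toMat g 1 2)
  have p2' := dc_nsq'_nonneg (toMat g 2 2)
  have hg' : nsq (toMat g 2 2) ≤ 13.34 := hg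
  have b2 : tr * (nsq (toMat g 2 2) - 1) ≤ tr * 12.34 :=
    mul_le_mul_of_nonneg_left (by linarith) (by linarith)
  have b2' : 0 ≤ (tr + 1) * nsq' (toMat g 2 2) := mul_nonneg (by linarith) p2'
  have c2' : nsq' (toMat g 2 2) ≤ 1 := by
    have : (tr + 1) * nsq' (toMat g 2 2) ≤ (tr + 1) * 1 := by linarith
    exact le_of_mul_le_mul_left this (by linarith)
  obtain ⟨j0, u0, e0, a0, b0⟩ := dc_rep (toMat g 0 2) (by linarith) (by linarith)
  obtain ⟨j1, u1, e1, a1, b1⟩ := dc_rep (toMat g 1 2) (by linarith) (by linarith)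
  obtain ⟨j2, u2, e2, a2, b2⟩ := dc_rep (toMat g 2 2) hg' (by linarith)
  obtain ⟨r1, r2⟩ := dc_col g
  rw [a0, a1, b2] at r1
  rw [b0, b1, a2, b2] at r2
  obtain ⟨i, c, v0, v1, v2, f0, f1, f2⟩ := dc_find j0 j1 j2 r1 r2
  set u : ZMod 10 := u2 - v2 with hu
  set a : ZMod 10 := u0 - v0 - u with ha
  set b : ZMod 10 := u1 - v1 - u with hb
  set h : GHat := sc u * kap ⟨a, b, c⟩ * G i with hh
  have hcol : ∀ r : Fin 3, toMat h r 2 = toMat g r 2 := by
    have e : h = (sc u * dg a b) * (kap ⟨0, 0, c⟩ * G i) := by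
      rw [hh, dc_kap]; simp only [mul_assoc]
    have e' : ∀ r, toMat h r 2 = ∑ s, toMat (sc u * dg a b) r s * dcC c i s := by
      intro r
      rw [e, toMat_mul, Matrix.mul_apply]
      rfl
    have d00 : toMat (sc u * dg a b) 0 0 = et u * et a := by
      simp [sc, dg, Matrix.mul_apply, Fin.sum_univ_three]
    have d11 : toMat (sc u * dg a b) 1 1 = et u * et b := by
      simp [sc, dg, Matrix.mul_apply, Fin.sum_univ_three]
    have d22 : toMat (sc u * dg a b) 2 2 = et u := by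
      simp [sc, dg, Matrix.mul_apply, Fin.sum_univ_three]
    have d01 : toMat (sc u * dg a b) 0 1 = 0 := by
      simp [sc, dg, Matrix.mul_apply, Fin.sum_univ_three]
    have d02 : toMat (sc u * dg a b) 0 2 = 0 := by
      simp [sc, dg, Matrix.mul_apply, Fin.sum_univ_three]
    have d10 : toMat (sc u * dg a b) 1 0 = 0 := by
      simp [sc, dg, Matrix.mul_apply, Fin.sum_univ_three]
    have d12 : toMat (sc u * dg a b) 1 2 = 0 := by
      simp [sc, dg, Matrix.mul_apply, Fin.sum_univ_three]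
    have d20 : toMat (sc u * dg a b) 2 0 = 0 := by
      simp [sc, dg, Matrix.mul_apply, Fin.sum_univ_three]
    have d21 : toMat (sc u * dg a b) 2 1 = 0 := by
      simp [sc, dg, Matrix.mul_apply, Fin.sum_univ_three]
    intro r
    rw [e', Fin.sum_univ_three]
    fin_cases r
    · show toMat (sc u * dg a b) 0 0 * _ + toMat (sc u * dg a b) 0 1 * _ +
        toMat (sc u * dg a b) 0 2 * _ = toMat g 0 2
      rw [d00, d01, d02, f0, e0, zero_mul, zero_mul, add_zero, add_zero, ← mul_assoc,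
        ← dc_et_add, ← dc_et_add]
      congr 2
      rw [ha]; ring
    · show toMat (sc u * dg a b) 1 0 * _ + toMat (sc u * dg a b) 1 1 * _ +
        toMat (sc u * dg a b) 1 2 * _ = toMat g 1 2
      rw [d10, d11, d12, f1, e1, zero_mul, zero_mul, add_zero, zero_add, ← mul_assoc,
        ← dc_et_add, ← dc_et_add]
      congr 2
      rw [hb]; ring
    · show toMat (sc u * dg a b) 2 0 * _ + toMat (sc u * dg a b) 2 1 * _ +
        toMat (sc u * dg a b) 2 2 * _ = toMat g 2 2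
      rw [d20, d21, d22, f2, e2, zero_mul, zero_mul, zero_add, zero_add, ← mul_assoc,
        ← dc_et_add]
      congr 2
      rw [hu]; ring
  have hfix : ∀ r : Fin 3, toMat (h⁻¹ * g) r 2 = (1 : Mat) r 2 := by
    intro r
    have e1 : toMat (h⁻¹ * g) r 2 = toMat (h⁻¹ * h) r 2 := by
      rw [toMat_mul, toMat_mul, Matrix.mul_apply, Matrix.mul_apply]
      simp only [hcol]
    rw [e1, inv_mul_cancel, toMat_one]
  obtain ⟨k', hk'⟩ := fix_e3 (h⁻¹ * g) (by rw [hfix]; decide) (by rw [hfix]; decide)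
    (by rw [hfix]; decide)
  refine ⟨u, ⟨a, b, c⟩, i, k', ?_⟩
  rw [← hh, ← hk', mul_inv_cancel_left]

/-- the norm of the (3,3) entry is not changed by multiplication with sc, kap -/
theorem small_iff (u : ZMod 10) (k k' : KK) (g : GHat) :
    Small (sc u * kap k * g * kap k') ↔ Small g := by
  have h : toMat (sc u * kap k * g * kap k') 2 2 = et u * toMat g 2 2 := by
    obtain ⟨h20, h21, h22, -, -⟩ := dc_kap_e k
    obtain ⟨-, -, h22', h02', h12'⟩ := dc_kap_e k'
    have s20 : toMat (sc u) 2 0 = 0 := rfl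
    have s21 : toMat (sc u) 2 1 = 0 := rfl
    have s22 : toMat (sc u) 2 2 = et u := rfl
    simp only [toMat_mul, Matrix.mul_apply, Fin.sum_univ_three, h20, h21, h22, h22', h02', h12',
      s20, s21, s22]
    ring
  unfold Small
  rw [h, nsq_et]

end W828
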