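import Mathlib

/-!
# A criterion for Zariski density of a subgroup of SL_N(Z_ell)
-/

namespace W828

open Matrix

variable {ℓ : ℕ} [Fact ℓ.Prime] {N : ℕ}

/-- A ≡ 1 + ℓ^n X mod ℓ^(n+1), n ≥ 1, ℓ odd, implies A^ℓ ≡ 1 + ℓ^(n+1) X mod ℓ^(n+2). -/
theorem pow_ell (hℓ : ℓ ≠ 2) (n : ℕ) (hn : 1 ≤ n) (A X E : Matrix (Fin N) (Fin N) ℤ_[ℓ])
    (hA : A = 1 + (ℓ : ℤ_[ℓ]) ^ n • X + (ℓ : ℤ_[ℓ]) ^ (n + 1) • E) :
    ∃ E', A ^ ℓ = 1 + (ℓ : ℤ_[ℓ]) ^ (n + 1) • X + (ℓ : ℤ_[ℓ]) ^ (n + 2) • E' := by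
  have hp : ℓ.Prime := Fact.out
  have h2 := hp.two_le
  obtain ⟨m, hm⟩ : ∃ m, ℓ = m + 2 := ⟨ℓ - 2, by omega⟩
  set q : ℤ_[ℓ] := (ℓ : ℤ_[ℓ]) with hq
  obtain ⟨Z, hZ⟩ : ∃ Z, Z = X + q • E := ⟨_, rfl⟩
  have hA' : A = q ^ n • Z + 1 := by
    rw [hA, hZ, smul_add, smul_smul, ← pow_succ]
    abel
  have hterm : ∀ k ∈ Finset.range (m + 1), ∃ F : Matrix (Fin N) (Fin N) ℤ_[ℓ],
      (q ^ n • Z) ^ (k + 2) * ((ℓ.choose (k + 2) : ℕ) : Matrix (Fin N) (Fin N) ℤ_[ℓ]) =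
        q ^ (n + 2) • F := by
    intro k hk
    have hk' : k < m + 1 := Finset.mem_range.mp hk
    have hcast : ∀ (c : ℕ) (M : Matrix (Fin N) (Fin N) ℤ_[ℓ]),
        M * (c : Matrix (Fin N) (Fin N) ℤ_[ℓ]) = (c : ℤ_[ℓ]) • M := by
      intro c M
      rw [← (Nat.cast_commute c M).eq, ← nsmul_eq_mul, Nat.cast_smul_eq_nsmul]
    rw [hcast, smul_pow, smul_smul, ← pow_mul]
    by_cases hkl : k + 2 = ℓ
    · -- the top term
      have hl3 : 3 ≤ ℓ := by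
        rcases Nat.lt_or_ge ℓ 3 with h | h
        · exact absurd (by omega) hℓ
        · exact h
      obtain ⟨d, hd⟩ : ∃ d, n * (k + 2) = (n + 2) + d :=
        ⟨n * (k + 2) - (n + 2), by
          have h3 : n * 3 ≤ n * (k + 2) := Nat.mul_le_mul_left n (by omega)
          omega⟩
      refine ⟨((ℓ.choose (k + 2) : ℕ) * q ^ d : ℤ_[ℓ]) • Z ^ (k + 2), ?_⟩
      rw [smul_smul, hd, pow_add q (n + 2) d]
      congr 1
      ring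
    · -- a middle term
      have hdvd : ℓ ∣ ℓ.choose (k + 2) :=
        hp.dvd_choose_self (by omega) (by omega)
      obtain ⟨c, hc⟩ := hdvd
      obtain ⟨d, hd⟩ : ∃ d, n * (k + 2) + 1 = (n + 2) + d :=
        ⟨n * (k + 2) + 1 - (n + 2), by
          have h3 : n * 2 ≤ n * (k + 2) := Nat.mul_le_mul_left n (by omega)
          omega⟩
      refine ⟨((c : ℤ_[ℓ]) * q ^ d) • Z ^ (k + 2), ?_⟩
      rw [smul_smul, hc, Nat.cast_mul, ← hq]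
      congr 1
      calc q * (c : ℤ_[ℓ]) * q ^ (n * (k + 2)) = (c : ℤ_[ℓ]) * q ^ (n * (k + 2) + 1) := by ring
        _ = (c : ℤ_[ℓ]) * q ^ (n + 2 + d) := by rw [hd]
        _ = q ^ (n + 2) * ((c : ℤ_[ℓ]) * q ^ d) := by ring
  choose! F hF using hterm
  have hexp : A ^ ℓ = (q ^ n • Z) ^ 0 * ((ℓ.choose 0 : ℕ) : Matrix (Fin N) (Fin N) ℤ_[ℓ]) +
      (q ^ n • Z) ^ 1 * ((ℓ.choose 1 : ℕ) : Matrix (Fin N) (Fin N) ℤ_[ℓ]) +
      ∑ k ∈ Finset.range (m + 1),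
        (q ^ n • Z) ^ (k + 2) * ((ℓ.choose (k + 2) : ℕ) : Matrix (Fin N) (Fin N) ℤ_[ℓ]) := by
    rw [hA', (Commute.one_right (q ^ n • Z)).add_pow]
    have hl : ℓ + 1 = m + 1 + 1 + 1 := by omega
    rw [hl, Finset.sum_range_succ', Finset.sum_range_succ']
    simp only [one_pow, mul_one]
    abel
  refine ⟨E + ∑ k ∈ Finset.range (m + 1), F k, ?_⟩
  rw [hexp, Finset.sum_congr rfl hF, ← Finset.smul_sum, smul_add, ← add_assoc]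
  congr 1
  rw [Nat.choose_zero_right, Nat.choose_one_right, Nat.cast_one, pow_zero, mul_one, pow_one]
  have hcast : (q ^ n • Z) * ((ℓ : ℕ) : Matrix (Fin N) (Fin N) ℤ_[ℓ]) = q ^ (n + 1) • Z := by
    rw [← (Nat.cast_commute ℓ (q ^ n • Z)).eq, ← nsmul_eq_mul, ← Nat.cast_smul_eq_nsmul ℤ_[ℓ],
      ← hq, smul_smul, ← pow_succ']
  rw [hcast, hZ, smul_add, smul_smul, ← pow_succ]
  exact (add_assoc _ _ _).symm

/-- iterated powers -/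
theorem pow_ell_iter (hℓ : ℓ ≠ 2) (A X E : Matrix (Fin N) (Fin N) ℤ_[ℓ])
    (hA : A = 1 + (ℓ : ℤ_[ℓ]) • X + (ℓ : ℤ_[ℓ]) ^ 2 • E) (n : ℕ) :
    ∃ E', A ^ (ℓ ^ n) = 1 + (ℓ : ℤ_[ℓ]) ^ (n + 1) • X + (ℓ : ℤ_[ℓ]) ^ (n + 2) • E' := by
  induction n with
  | zero => exact ⟨E, by rw [pow_zero, pow_one, zero_add, pow_one]; exact hA⟩
  | succ n ih =>
    obtain ⟨E', hE'⟩ := ih
    obtain ⟨E'', hE''⟩ := pow_ell hℓ (n + 1) (by omega) _ X E' hE'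
    exact ⟨E'', by rw [pow_succ, pow_mul]; exact hE''⟩

/-- If S contains elements g i = 1 + ℓ X i (+ ℓ^2 E i) such that the X i span the matrices of
trace divisible by ℓ modulo ℓ, then every B in SL_N(Z_ℓ) congruent to 1 mod ℓ is
approximated by elements of S modulo every power of ℓ.
(Induction on n: B g⁻¹ = 1 + ℓ^n Y + ..., det = 1 gives trace Y ≡ 0 mod ℓ,
Y ≡ Σ c_i X_i, and (g i)^(ℓ^(n-1)) ≡ 1 + ℓ^n X_i mod ℓ^(n+1).) -/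
theorem approx (hℓ : ℓ ≠ 2) (S : Subgroup (SpecialLinearGroup (Fin N) ℤ_[ℓ]))
    {ι : Type*} [Fintype ι] (g : ι → SpecialLinearGroup (Fin N) ℤ_[ℓ]) (hg : ∀ i, g i ∈ S)
    (X E : ι → Matrix (Fin N) (Fin N) ℤ_[ℓ])
    (hX : ∀ i, (g i : Matrix (Fin N) (Fin N) ℤ_[ℓ]) =
      1 + (ℓ : ℤ_[ℓ]) • X i + (ℓ : ℤ_[ℓ]) ^ 2 • E i)
    (hspan : ∀ Y : Matrix (Fin N) (Fin N) ℤ_[ℓ], (ℓ : ℤ_[ℓ]) ∣ Y.trace →
      ∃ c : ι → ℕ, ∀ a b, (ℓ : ℤ_[ℓ]) ∣ (Y - ∑ i, c i • X i) a b)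
    (B : SpecialLinearGroup (Fin N) ℤ_[ℓ])
    (hB : ∀ a b, (ℓ : ℤ_[ℓ]) ∣ ((B : Matrix (Fin N) (Fin N) ℤ_[ℓ]) - 1) a b) (n : ℕ) :
    ∃ s ∈ S, ∀ a b, (ℓ : ℤ_[ℓ]) ^ n ∣ ((B : Matrix (Fin N) (Fin N) ℤ_[ℓ]) - s) a b := by
  have hp : ℓ.Prime := Fact.out
  have hq0 : (ℓ : ℤ_[ℓ]) ≠ 0 := by
    exact_mod_cast hp.ne_zero
  set q : ℤ_[ℓ] := (ℓ : ℤ_[ℓ]) with hq
  -- matrices divisible by a power
  have hdiv : ∀ (k : ℕ) (M : Matrix (Fin N) (Fin N) ℤ_[ℓ]), (∀ a b, q ^ k ∣ M a b) →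
      ∃ M', M = q ^ k • M' := by
    intro k M hM
    choose M' hM' using hM
    exact ⟨Matrix.of M', by
      ext a b
      rw [Matrix.smul_apply, smul_eq_mul, Matrix.of_apply]
      exact hM' a b⟩
  have hdiv' : ∀ (k : ℕ) (M' : Matrix (Fin N) (Fin N) ℤ_[ℓ]) (a b : Fin N),
      q ^ k ∣ (q ^ k • M') a b := by
    intro k M' a b
    rw [Matrix.smul_apply, smul_eq_mul]
    exact dvd_mul_right _ _
  induction n with
  | zero => exact ⟨1, S.one_mem, fun a b => by rw [pow_zero]; exact one_dvd _⟩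
  | succ n ih =>
    rcases Nat.eq_zero_or_pos n with hn | hn
    · subst hn
      refine ⟨1, S.one_mem, fun a b => ?_⟩
      rw [zero_add, pow_one, Matrix.SpecialLinearGroup.coe_one]
      exact hB a b
    obtain ⟨s, hs, hBs⟩ := ih
    obtain ⟨M, hM⟩ := hdiv n _ hBs
    -- the quotient
    have hsinv : (s : Matrix (Fin N) (Fin N) ℤ_[ℓ]) *
        ((s⁻¹ : SpecialLinearGroup (Fin N) ℤ_[ℓ]) : Matrix (Fin N) (Fin N) ℤ_[ℓ]) = 1 := by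
      rw [← Matrix.SpecialLinearGroup.coe_mul, mul_inv_cancel, Matrix.SpecialLinearGroup.coe_one]
    have hsinv' : ((s⁻¹ : SpecialLinearGroup (Fin N) ℤ_[ℓ]) : Matrix (Fin N) (Fin N) ℤ_[ℓ]) *
        (s : Matrix (Fin N) (Fin N) ℤ_[ℓ]) = 1 := by
      rw [← Matrix.SpecialLinearGroup.coe_mul, inv_mul_cancel, Matrix.SpecialLinearGroup.coe_one]
    obtain ⟨Y, hY⟩ : ∃ Y, Y = M *
      ((s⁻¹ : SpecialLinearGroup (Fin N) ℤ_[ℓ]) : Matrix (Fin N) (Fin N) ℤ_[ℓ]) := ⟨_, rfl⟩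
    have hC : ((B * s⁻¹ : SpecialLinearGroup (Fin N) ℤ_[ℓ]) : Matrix (Fin N) (Fin N) ℤ_[ℓ]) =
        1 + q ^ n • Y := by
      rw [Matrix.SpecialLinearGroup.coe_mul, hY, ← smul_mul_assoc, ← hM, sub_mul, hsinv]
      abel
    have hdet : (1 + q ^ n • Y).det = 1 := by
      rw [← hC]
      exact (B * s⁻¹).2
    rw [Matrix.det_one_add_smul] at hdet
    have htr : q ∣ Y.trace := by
      have h1 : q ^ n * (Y.trace + Polynomial.eval (q ^ n)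
          (1 + (Polynomial.X : Polynomial ℤ_[ℓ]) • Y.map Polynomial.C).det.divX.divX * q ^ n) =
          0 := by
        linear_combination hdet
      have h2 := (mul_eq_zero.mp h1).resolve_left (pow_ne_zero n hq0)
      have h3 : Y.trace = -(Polynomial.eval (q ^ n)
          (1 + (Polynomial.X : Polynomial ℤ_[ℓ]) • Y.map Polynomial.C).det.divX.divX * q ^ n) :=
        eq_neg_of_add_eq_zero_left h2
      rw [h3]
      exact (dvd_mul_of_dvd_right (dvd_pow_self q (by omega)) _).neg_right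
    obtain ⟨c, hc⟩ := hspan Y htr
    obtain ⟨F, hF⟩ := hdiv 1 (Y - ∑ i, c i • X i)
      (fun a b => by rw [pow_one]; exact hc a b)
    rw [pow_one] at hF
    -- elements of `S` congruent to `1 + q ^ n Z`
    have hQ0 : ∃ t ∈ S, ∃ E' : Matrix (Fin N) (Fin N) ℤ_[ℓ],
        (t : Matrix (Fin N) (Fin N) ℤ_[ℓ]) =
          1 + q ^ n • (0 : Matrix (Fin N) (Fin N) ℤ_[ℓ]) + q ^ (n + 1) • E' :=
      ⟨1, S.one_mem, 0, by rw [Matrix.SpecialLinearGroup.coe_one]; simp⟩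
    have hQadd : ∀ Z₁ Z₂ : Matrix (Fin N) (Fin N) ℤ_[ℓ],
        (∃ t ∈ S, ∃ E' : Matrix (Fin N) (Fin N) ℤ_[ℓ],
          (t : Matrix (Fin N) (Fin N) ℤ_[ℓ]) = 1 + q ^ n • Z₁ + q ^ (n + 1) • E') →
        (∃ t ∈ S, ∃ E' : Matrix (Fin N) (Fin N) ℤ_[ℓ],
          (t : Matrix (Fin N) (Fin N) ℤ_[ℓ]) = 1 + q ^ n • Z₂ + q ^ (n + 1) • E') →
        (∃ t ∈ S, ∃ E' : Matrix (Fin N) (Fin N) ℤ_[ℓ],
          (t : Matrix (Fin N) (Fin N) ℤ_[ℓ]) = 1 + q ^ n • (Z₁ + Z₂) + q ^ (n + 1) • E') := by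
      rintro Z₁ Z₂ ⟨t₁, ht₁, E₁, h₁⟩ ⟨t₂, ht₂, E₂, h₂⟩
      refine ⟨t₁ * t₂, S.mul_mem ht₁ ht₂,
        E₁ + E₂ + q ^ (n - 1) • (Z₁ * Z₂) + q ^ n • (Z₁ * E₂ + E₁ * Z₂) +
          q ^ (n + 1) • (E₁ * E₂), ?_⟩
      rw [Matrix.SpecialLinearGroup.coe_mul, h₁, h₂]
      have e1 : q ^ (n + 1) • q ^ (n - 1) • (Z₁ * Z₂) = q ^ n • q ^ n • (Z₁ * Z₂) := by
        rw [smul_smul, smul_smul, ← pow_add, ← pow_add]
        congr 2
        omega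
      simp only [smul_add, mul_add, add_mul, one_mul, mul_one, smul_mul_assoc, mul_smul_comm]
      rw [e1]
      simp only [smul_smul, mul_comm (q ^ n) (q ^ (n + 1))]
      abel
    have hQi : ∀ i, ∃ t ∈ S, ∃ E' : Matrix (Fin N) (Fin N) ℤ_[ℓ],
        (t : Matrix (Fin N) (Fin N) ℤ_[ℓ]) = 1 + q ^ n • X i + q ^ (n + 1) • E' := by
      intro i
      obtain ⟨E', hE'⟩ := pow_ell_iter hℓ _ (X i) (E i) (hX i) (n - 1)
      refine ⟨g i ^ (ℓ ^ (n - 1)), S.pow_mem (hg i) _, E', ?_⟩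
      rw [Matrix.SpecialLinearGroup.coe_pow, hE']
      have e1 : n - 1 + 1 = n := by omega
      have e2 : n - 1 + 2 = n + 1 := by omega
      rw [e1, e2]
    have hQn : ∀ (i : ι) (k : ℕ), ∃ t ∈ S, ∃ E' : Matrix (Fin N) (Fin N) ℤ_[ℓ],
        (t : Matrix (Fin N) (Fin N) ℤ_[ℓ]) = 1 + q ^ n • (k • X i) + q ^ (n + 1) • E' := by
      intro i k
      induction k with
      | zero => rw [zero_smul]; exact hQ0
      | succ k ihk => rw [succ_nsmul]; exact hQadd _ _ ihk (hQi i)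
    obtain ⟨t, ht, E', hE'⟩ := Finset.sum_induction (fun i => c i • X i)
      (fun Z => ∃ t ∈ S, ∃ E' : Matrix (Fin N) (Fin N) ℤ_[ℓ],
        (t : Matrix (Fin N) (Fin N) ℤ_[ℓ]) = 1 + q ^ n • Z + q ^ (n + 1) • E')
      (s := Finset.univ) hQadd hQ0 (fun i _ => hQn i (c i))
    refine ⟨t * s, S.mul_mem ht hs, ?_⟩
    have hfin : (B : Matrix (Fin N) (Fin N) ℤ_[ℓ]) -
        ((t * s : SpecialLinearGroup (Fin N) ℤ_[ℓ]) : Matrix (Fin N) (Fin N) ℤ_[ℓ]) =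
        q ^ (n + 1) • ((F - E') * (s : Matrix (Fin N) (Fin N) ℤ_[ℓ])) := by
      have hBC : (B : Matrix (Fin N) (Fin N) ℤ_[ℓ]) =
          (1 + q ^ n • Y) * (s : Matrix (Fin N) (Fin N) ℤ_[ℓ]) := by
        rw [← hC, Matrix.SpecialLinearGroup.coe_mul, Matrix.mul_assoc, hsinv', Matrix.mul_one]
      have hYF : Y = (∑ i, c i • X i) + q • F := by
        rw [← hF]
        abel
      rw [Matrix.SpecialLinearGroup.coe_mul, hBC, ← sub_mul, hE', ← smul_mul_assoc]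
      congr 1
      rw [hYF, smul_add, smul_smul, ← pow_succ, smul_sub]
      abel
    intro a b
    rw [hfin]
    exact hdiv' (n + 1) _ a b

end W828
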