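import Pool.Agent.W_828d9b_h4.DData

/-!
# Computations modulo 11 and 121 for the density statement
-/

namespace W828

open Matrix

theorem chkU : chkW wU 54 54 0 colU = true := by decide +kernel
theorem chkV : chkW wV 54 54 0 colV = true := by decide +kernel
theorem chkH0 : chkW wH0 54 54 0 colH0 = true := by decide +kernel
theorem chkH1 : chkW wH1 54 54 0 colH1 = true := by decide +kernel
theorem chkH2 : chkW wH2 54 54 0 colH2 = true := by decide +kernel

/-- matrix of natural numbers given by a list of rows -/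
def matN (R : Type*) [CommRing R] (l : List (List ℕ)) : Matrix (Fin 6) (Fin 6) R :=
  fun i j => (((l.getD i.val []).getD j.val 0 : ℕ) : R)

/-- the word of the conjugating element number k -/
def wH : Fin 3 → List ℕ := ![wH0, wH1, wH2]

/-- an entry of a list of rows -/
def eN (l : List (List ℕ)) (i j : ℕ) : ℕ := (l.getD i []).getD j 0

theorem matN_apply (R : Type*) [CommRing R] (l : List (List ℕ)) (i j : Fin 6) :
    matN R l i j = ((eN l i.val j.val : ℕ) : R) := rfl

/-- value at z = 3, w = 1 -/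
def evZ : PZ → ℤ
  | [] => 0
  | a :: p => (a.a + 3 * a.b + 9 * a.c + 27 * a.d) + evZ p

theorem pz_evZ {R : Type*} [CommRing R] (E : ED R) (hz : E.z = 3) (hw : E.w = 1) (p : PZ) :
    E.pz p = ((evZ p : ℤ) : R) := by
  induction p with
  | nil => simp [ED.pz, evZ]
  | cons a p ih =>
    rw [ED.pz, evZ, ih, hw, ED.io, Z5.lift_apply, hz]
    push_cast
    ring

theorem cast_eq_of_emod {N : ℕ} {a b : ℤ} (h : (a - b) % (N : ℤ) = 0) :
    (a : ZMod N) = (b : ZMod N) := by
  rw [← sub_eq_zero, ← Int.cast_sub, ZMod.intCast_zmod_eq_zero_iff_dvd]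
  exact Int.dvd_of_emod_eq_zero h

/-- comparison of the columns at z = 3, w = 1 with a matrix modulo N -/
def chkM (N : ℕ) (cols : List (List PZ)) (A : List (List ℕ)) : Bool :=
  (List.range 6).all fun i => (List.range 6).all fun j =>
    (evZ ((cols.getD j []).getD i []) - (eN A i j : ℤ)) % (N : ℤ) == 0

theorem chkM_sound {N : ℕ} {cols : List (List PZ)} {A : List (List ℕ)}
    (h : chkM N cols A = true) (i j : Fin 6) :
    ((evZ ((cols.getD j.val []).getD i.val []) : ℤ) : ZMod N) = matN (ZMod N) A i j := by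
  have h1 := List.all_eq_true.1 (List.all_eq_true.1 h i.val (List.mem_range.2 i.isLt)) j.val
    (List.mem_range.2 j.isLt)
  rw [beq_iff_eq] at h1
  rw [cast_eq_of_emod h1, matN_apply]
  push_cast
  rfl

theorem word_mod {N : ℕ} (E : ED (ZMod N)) (hz : E.z = 3) (hw : E.w = 1) (l : List ℕ)
    (cols : List (List PZ)) (h : chkW l 54 54 0 cols = true) (A : List (List ℕ))
    (hA : chkM N cols A = true) : (E.word l).m 54 = matN (ZMod N) A := by
  have h1 := (E.chkW_sound l 54 54 0 cols h).2
  ext i j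
  have h2 := h1 i j
  rw [pow_zero, one_mul] at h2
  rw [h2, pz_evZ E hz hw, chkM_sound hA]

theorem chkMU : chkM (11 ^ 2) colU uN = true := by decide +kernel

theorem wU_mod (E : ED (ZMod (11 ^ 2))) (hz : E.z = 3) (hw : E.w = 1) :
    (E.word wU).m 54 = matN (ZMod (11 ^ 2)) uN :=
  word_mod E hz hw wU colU chkU uN chkMU

/-- entry of a product -/
def dotN (A B : List (List ℕ)) (i j : ℕ) : ℕ :=
  eN A i 0 * eN B 0 j + eN A i 1 * eN B 1 j + eN A i 2 * eN B 2 j + eN A i 3 * eN B 3 j +
    eN A i 4 * eN B 4 j + eN A i 5 * eN B 5 j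

/-- product modulo N -/
def mulN (N : ℕ) (A B : List (List ℕ)) : List (List ℕ) :=
  (List.range 6).map fun i => (List.range 6).map fun j => dotN A B i j % N

theorem eN_table (f : ℕ → ℕ → ℕ) (i j : Fin 6) :
    eN ((List.range 6).map fun i => (List.range 6).map fun j => f i j) i.val j.val =
      f i.val j.val := by
  fin_cases i <;> fin_cases j <;> rfl

theorem eN_mulN (N : ℕ) (A B : List (List ℕ)) (i j : Fin 6) :
    eN (mulN N A B) i.val j.val = dotN A B i.val j.val % N :=
  eN_table (fun i j => dotN A B i j % N) i j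

theorem matN_mulN (N : ℕ) (A B : List (List ℕ)) :
    matN (ZMod N) (mulN N A B) = matN (ZMod N) A * matN (ZMod N) B := by
  ext i j
  rw [matN_apply, eN_mulN, Matrix.mul_apply, Fin.sum_univ_six]
  simp only [matN_apply]
  rw [ZMod.natCast_mod]
  unfold dotN
  push_cast
  rfl

/-- equality modulo N -/
def eqN (N : ℕ) (A B : List (List ℕ)) : Bool :=
  (List.range 6).all fun i => (List.range 6).all fun j => eN A i j % N == eN B i j % N

theorem eqN_sound {N : ℕ} {A B : List (List ℕ)} (h : eqN N A B = true) :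
    matN (ZMod N) A = matN (ZMod N) B := by
  ext i j
  have h1 := List.all_eq_true.1 (List.all_eq_true.1 h i.val (List.mem_range.2 i.isLt)) j.val
    (List.mem_range.2 j.isLt)
  rw [beq_iff_eq] at h1
  rw [matN_apply, matN_apply, ← ZMod.natCast_mod, h1, ZMod.natCast_mod]

/-- the identity matrix plus 11 times a matrix -/
def oneAdd (A : List (List ℕ)) : List (List ℕ) :=
  (List.range 6).map fun i => (List.range 6).map fun j => (if i = j then 1 else 0) + 11 * eN A i j

theorem matN_oneAdd (R : Type*) [CommRing R] (A : List (List ℕ)) :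
    matN R (oneAdd A) = 1 + (11 : R) • matN R A := by
  ext i j
  rw [matN_apply, Matrix.add_apply, Matrix.smul_apply, matN_apply, Matrix.one_apply]
  have h1 : eN (oneAdd A) i.val j.val = (if i.val = j.val then 1 else 0) + 11 * eN A i.val j.val :=
    eN_table (fun i j => (if i = j then 1 else 0) + 11 * eN A i j) i j
  rw [h1]
  by_cases hij : i = j
  · rw [if_pos hij, if_pos (congrArg Fin.val hij)]
    push_cast
    rfl
  · rw [if_neg hij, if_neg (fun h => hij (Fin.ext h))]
    push_cast
    rfl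

/-- the identity matrix -/
def idN : List (List ℕ) :=
  (List.range 6).map fun i => (List.range 6).map fun j => (if i = j then 1 else 0)

theorem matN_idN (R : Type*) [CommRing R] : matN R idN = 1 := by
  ext i j
  rw [matN_apply, Matrix.one_apply]
  have h1 : eN idN i.val j.val = (if i.val = j.val then 1 else 0) :=
    eN_table (fun i j => if i = j then 1 else 0) i j
  rw [h1]
  by_cases hij : i = j
  · rw [if_pos hij, if_pos (congrArg Fin.val hij), Nat.cast_one]
  · rw [if_neg hij, if_neg (fun h => hij (Fin.ext h)), Nat.cast_zero]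

theorem chk_cube : eqN (11 ^ 2) (mulN (11 ^ 2) (mulN (11 ^ 2) uN uN) uN) (oneAdd x0N) = true := by
  decide +kernel

theorem uN_cube : matN (ZMod (11 ^ 2)) uN ^ 3 = 1 + (11 : ZMod (11 ^ 2)) • matN (ZMod (11 ^ 2)) x0N := by
  rw [← matN_oneAdd, ← eqN_sound chk_cube, matN_mulN, matN_mulN,
    pow_three' (matN (ZMod (11 ^ 2)) uN)]

theorem chkMH0 : chkM 11 colH0 (hN.getD 0 []) = true := by decide +kernel
theorem chkMH1 : chkM 11 colH1 (hN.getD 1 []) = true := by decide +kernel
theorem chkMH2 : chkM 11 colH2 (hN.getD 2 []) = true := by decide +kernel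

theorem wH_mod (E : ED (ZMod 11)) (hz : E.z = 3) (hw : E.w = 1) (k : Fin 3) :
    (E.word (wH k)).m 54 = matN (ZMod 11) (hN.getD k.val []) := by
  fin_cases k
  · exact word_mod E hz hw wH0 colH0 chkH0 _ chkMH0
  · exact word_mod E hz hw wH1 colH1 chkH1 _ chkMH1
  · exact word_mod E hz hw wH2 colH2 chkH2 _ chkMH2

theorem chk_inv : ∀ k : Fin 3,
    eqN 11 (mulN 11 (hN.getD k.val []) (hiN.getD k.val [])) idN = true := by
  decide +kernel

theorem hN_mul (k : Fin 3) :
    matN (ZMod 11) (hN.getD k.val []) * matN (ZMod 11) (hiN.getD k.val []) = 1 := by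
  rw [← matN_mulN, eqN_sound (chk_inv k), matN_idN]

/-- the matrix number i -/
def XN (i : ℕ) : Matrix (Fin 6) (Fin 6) (ZMod 11) := matN (ZMod 11) (xN.getD i [])

theorem chk_zero : eqN 11 (xN.getD 0 []) x0N = true := by decide +kernel

theorem XN_zero : XN 0 = matN (ZMod 11) x0N := eqN_sound chk_zero

/-- check of the spinning relation number i -/
def chkR (i : ℕ) : Bool :=
  decide ((parN.getD i (0, 0)).1 < i) && (decide ((parN.getD i (0, 0)).2 < 3) &&
    eqN 11 (xN.getD i []) (mulN 11 (mulN 11 (hN.getD (parN.getD i (0, 0)).2 [])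
      (xN.getD (parN.getD i (0, 0)).1 [])) (hiN.getD (parN.getD i (0, 0)).2 [])))

theorem chk_rel : ((List.range 34).all fun i => chkR (i + 1)) = true := by decide +kernel

/-- the spinning relations -/
theorem XN_rel (i : ℕ) (h0 : 0 < i) (hi : i < 35) :
    ∃ (j : ℕ) (k : Fin 3), j < i ∧ XN i =
      matN (ZMod 11) (hN.getD k.val []) * XN j * matN (ZMod 11) (hiN.getD k.val []) := by
  have h1 := List.all_eq_true.1 chk_rel (i - 1) (List.mem_range.2 (by omega))
  rw [show i - 1 + 1 = i by omega] at h1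
  unfold chkR at h1
  rw [Bool.and_eq_true, Bool.and_eq_true, decide_eq_true_eq, decide_eq_true_eq] at h1
  obtain ⟨h2, h3, h4⟩ := h1
  refine ⟨(parN.getD i (0, 0)).1, ⟨(parN.getD i (0, 0)).2, h3⟩, h2, ?_⟩
  unfold XN
  rw [eqN_sound h4, matN_mulN, matN_mulN]

/-- entry (a, b) of the combination number k -/
def combN (k a b : ℕ) : ℕ :=
  ((List.range 35).map fun i => eN cN k i * eN (xN.getD i []) a b).sum

/-- check of the coefficients -/
def chkC (k : ℕ) : Bool :=
  (List.range 6).all fun a => (List.range 6).all fun b =>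
    combN k a b % 11 == ((if a = k / 6 ∧ b = k % 6 then 1 else 0) +
      (if k / 6 = k % 6 ∧ (a = 5 ∧ b = 5) then 10 else 0)) % 11

theorem chk_comb : ((List.range 36).all fun k => chkC k) = true := by decide +kernel

theorem combN_cast (k : ℕ) (a b : Fin 6) :
    ((combN k a.val b.val : ℕ) : ZMod 11) =
      ∑ i : Fin 35, ((eN cN k i.val : ℕ) : ZMod 11) * XN i.val a b := by
  have h1 : ∑ i : Fin 35, ((eN cN k i.val : ℕ) : ZMod 11) * XN i.val a b =
      ∑ i ∈ Finset.range 35, ((eN cN k i * eN (xN.getD i []) a.val b.val : ℕ) : ZMod 11) := by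
    rw [Finset.sum_range]
    apply Finset.sum_congr rfl
    intro i _
    unfold XN
    rw [matN_apply]
    push_cast
    rfl
  rw [h1, ← Nat.cast_sum]
  congr 1

theorem combN_eq (p q a b : Fin 6) :
    ((combN (6 * p.val + q.val) a.val b.val : ℕ) : ZMod 11) =
      (if a = p ∧ b = q then 1 else 0) + (if p = q ∧ (a = 5 ∧ b = 5) then 10 else 0) := by
  have hp := p.isLt
  have hq := q.isLt
  have h1 := List.all_eq_true.1 (List.all_eq_true.1 (List.all_eq_true.1 chk_comb
    (6 * p.val + q.val) (List.mem_range.2 (by omega))) a.val (List.mem_range.2 a.isLt)) b.val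
    (List.mem_range.2 b.isLt)
  rw [beq_iff_eq] at h1
  rw [← ZMod.natCast_mod, h1, ZMod.natCast_mod]
  have e1 : (6 * p.val + q.val) / 6 = p.val := by omega
  have e2 : (6 * p.val + q.val) % 6 = q.val := by omega
  rw [e1, e2]
  have e3 : (a.val = p.val ∧ b.val = q.val) = (a = p ∧ b = q) := by
    rw [Fin.ext_iff, Fin.ext_iff]
  have e4 : (p.val = q.val ∧ (a.val = 5 ∧ b.val = 5)) = (p = q ∧ (a = 5 ∧ b = 5)) := by
    rw [Fin.ext_iff, Fin.ext_iff, Fin.ext_iff]
    rfl
  simp only [e3, e4]
  push_cast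
  rfl

/-- the 35 matrices span the trace zero matrices modulo 11 -/
theorem XN_span (Y : Matrix (Fin 6) (Fin 6) (ZMod 11)) (hY : Y.trace = 0) :
    ∃ c : Fin 35 → ℕ, Y = ∑ i, c i • XN i.val := by
  refine ⟨fun i => ∑ p : Fin 6, ∑ q : Fin 6, (Y p q).val * eN cN (6 * p.val + q.val) i.val, ?_⟩
  ext a b
  rw [Matrix.sum_apply]
  have h1 : ∀ i : Fin 35, ((∑ p : Fin 6, ∑ q : Fin 6,
      (Y p q).val * eN cN (6 * p.val + q.val) i.val) • XN i.val) a b =
      ∑ p : Fin 6, ∑ q : Fin 6, Y p q *
        (((eN cN (6 * p.val + q.val) i.val : ℕ) : ZMod 11) * XN i.val a b) := by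
    intro i
    rw [Matrix.smul_apply, nsmul_eq_mul, Nat.cast_sum, Finset.sum_mul]
    apply Finset.sum_congr rfl
    intro p _
    rw [Nat.cast_sum, Finset.sum_mul]
    apply Finset.sum_congr rfl
    intro q _
    rw [Nat.cast_mul, ZMod.natCast_zmod_val, mul_assoc]
  simp only [h1]
  rw [Finset.sum_comm]
  have h2 : ∀ p : Fin 6, ∑ i : Fin 35, ∑ q : Fin 6, Y p q *
      (((eN cN (6 * p.val + q.val) i.val : ℕ) : ZMod 11) * XN i.val a b) =
      ∑ q : Fin 6, Y p q * ((if a = p ∧ b = q then 1 else 0) +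
        (if p = q ∧ (a = 5 ∧ b = 5) then 10 else 0)) := by
    intro p
    rw [Finset.sum_comm]
    apply Finset.sum_congr rfl
    intro q _
    rw [← Finset.mul_sum, ← combN_cast, combN_eq]
  simp only [h2]
  have h3 : ∀ p : Fin 6, ∑ q : Fin 6, Y p q * ((if a = p ∧ b = q then 1 else 0) +
        (if p = q ∧ (a = 5 ∧ b = 5) then 10 else 0)) =
      (if a = p then Y p b else 0) + Y p p * (if a = 5 ∧ b = 5 then 10 else 0) := by
    intro p
    simp only [mul_add, Finset.sum_add_distrib]
    congr 1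
    · by_cases hap : a = p
      · simp [hap]
      · simp [hap]
    · by_cases hab : a = 5 ∧ b = 5
      · simp [hab]
      · simp [hab]
  simp only [h3]
  rw [Finset.sum_add_distrib, ← Finset.sum_mul]
  have h4 : ∑ p : Fin 6, Y p p = 0 := hY
  rw [h4, zero_mul, add_zero]
  simp

end W828
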