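import Mathlib

/-!
# Polynomials vanishing on a congruence subgroup
-/

namespace W828

open Matrix

variable {ℓ : ℕ} [Fact ℓ.Prime] {N : ℕ}

/-- polynomial in the entries of a matrix -/
noncomputable def evM {k : Type*} [CommRing k] (A : Matrix (Fin N) (Fin N) k)
    (f : MvPolynomial (Fin N × Fin N) k) : k :=
  MvPolynomial.eval (fun ij => A ij.1 ij.2) f

/-- The polynomial `B ↦ f (A B)`. -/
private noncomputable def trL {k : Type*} [CommRing k] (A : Matrix (Fin N) (Fin N) k)
    (f : MvPolynomial (Fin N × Fin N) k) : MvPolynomial (Fin N × Fin N) k :=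
  MvPolynomial.bind₁ (fun ij => ∑ c, MvPolynomial.C (A ij.1 c) * MvPolynomial.X (c, ij.2)) f

/-- The polynomial `B ↦ f (B A)`. -/
private noncomputable def trR {k : Type*} [CommRing k] (A : Matrix (Fin N) (Fin N) k)
    (f : MvPolynomial (Fin N × Fin N) k) : MvPolynomial (Fin N × Fin N) k :=
  MvPolynomial.bind₁ (fun ij => ∑ c, MvPolynomial.X (ij.1, c) * MvPolynomial.C (A c ij.2)) f

private theorem evM_trL {k : Type*} [CommRing k] (A B : Matrix (Fin N) (Fin N) k)
    (f : MvPolynomial (Fin N × Fin N) k) : evM B (trL A f) = evM (A * B) f := by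
  unfold evM trL
  rw [← MvPolynomial.coe_aeval_eq_eval, ← MvPolynomial.coe_aeval_eq_eval]
  change MvPolynomial.aeval _ _ = MvPolynomial.aeval _ _
  rw [MvPolynomial.aeval_bind₁]
  congr 2
  funext ij
  rw [map_sum]
  simp [Matrix.mul_apply]

private theorem evM_trR {k : Type*} [CommRing k] (A B : Matrix (Fin N) (Fin N) k)
    (f : MvPolynomial (Fin N × Fin N) k) : evM B (trR A f) = evM (B * A) f := by
  unfold evM trR
  rw [← MvPolynomial.coe_aeval_eq_eval, ← MvPolynomial.coe_aeval_eq_eval]
  change MvPolynomial.aeval _ _ = MvPolynomial.aeval _ _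
  rw [MvPolynomial.aeval_bind₁]
  congr 2
  funext ij
  rw [map_sum]
  simp [Matrix.mul_apply]

/-- The points of the Zariski closure of a set of matrices. -/
private def ZC {k : Type*} [CommRing k] (G : Set (Matrix (Fin N) (Fin N) k))
    (A : Matrix (Fin N) (Fin N) k) : Prop :=
  ∀ f : MvPolynomial (Fin N × Fin N) k, (∀ B ∈ G, evM B f = 0) → evM A f = 0

private theorem ZC_mul {k : Type*} [CommRing k] {G : Set (Matrix (Fin N) (Fin N) k)}
    (hG : ∀ A ∈ G, ∀ B ∈ G, A * B ∈ G) {A A' : Matrix (Fin N) (Fin N) k} (h : ZC G A)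
    (h' : ZC G A') : ZC G (A * A') := by
  intro f hf
  rw [← evM_trR]
  apply h
  intro B hB
  rw [evM_trR, ← evM_trL]
  apply h'
  intro B' hB'
  rw [evM_trL]
  exact hf _ (hG B hB B' hB')

/-- One-parameter groups. -/
private theorem ZC_transvection {k : Type*} [Field k] {G : Set (Matrix (Fin N) (Fin N) k)}
    (i j : Fin N) (s : Set k) (hs : s.Infinite) (hG : ∀ z ∈ s, transvection i j z ∈ G) (z : k) :
    ZC G (transvection i j z) := by
  intro f hf
  set p : Polynomial k := MvPolynomial.eval₂ Polynomial.C
    (fun ab => Polynomial.C ((1 : Matrix (Fin N) (Fin N) k) ab.1 ab.2) +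
      Polynomial.X * Polynomial.C ((Matrix.single i j (1 : k)) ab.1 ab.2)) f with hp
  have hev : ∀ x : k, p.eval x = evM (transvection i j x) f := by
    intro x
    have h1 : p.eval x = Polynomial.evalRingHom x p := rfl
    rw [h1, hp, MvPolynomial.hom_eval₂]
    unfold evM
    rw [MvPolynomial.eval, MvPolynomial.coe_eval₂Hom]
    congr 1
    · ext y
      simp
    · funext ab
      have h2 : (Matrix.single i j x) ab.1 ab.2 = x * (Matrix.single i j (1 : k)) ab.1 ab.2 := by
        simp [Matrix.single_apply]
      simp only [Polynomial.coe_evalRingHom, Polynomial.eval_add, Polynomial.eval_C,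
        Polynomial.eval_mul, Polynomial.eval_X, transvection, Matrix.add_apply, h2]
  have hp0 : p = 0 := by
    apply Polynomial.eq_zero_of_infinite_isRoot
    refine hs.mono ?_
    intro x hx
    show p.IsRoot x
    rw [Polynomial.IsRoot.def, hev]
    exact hf _ (hG x hx)
  rw [← hev, hp0, Polynomial.eval_zero]

private theorem whitehead {k : Type*} [Field k] {i j : Fin N} (hij : i ≠ j) {c : k} (hc : c ≠ 0) :
    (diagonal fun a => if a = i then c else if a = j then c⁻¹ else 1) =
      transvection i j c * (transvection j i (-c⁻¹) * (transvection i j c *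
        (transvection i j (-1) * (transvection j i 1 * (transvection i j (-1) * 1))))) := by
  ext a b
  have hji : j ≠ i := hij.symm
  by_cases hai : a = i
  · subst hai
    simp only [transvection_mul_apply_same, transvection_mul_apply_of_ne _ _ _ _ hij,
      transvection_mul_apply_of_ne _ _ _ _ hji, diagonal_apply, one_apply, if_true]
    by_cases hb : a = b
    · subst hb
      simp only [if_true, hji, if_false]
      field_simp
      ring
    · by_cases hb' : j = b
      · subst hb'
        simp only [if_true, hij, if_false]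
        field_simp
        ring
      · simp [hb, hb']
  · by_cases haj : a = j
    · subst haj
      simp only [transvection_mul_apply_same, transvection_mul_apply_of_ne _ _ _ _ hij,
        transvection_mul_apply_of_ne _ _ _ _ hji, diagonal_apply, one_apply, if_true, hai,
        if_false]
      by_cases hb : a = b
      · subst hb
        simp only [if_true, hij, if_false]
        field_simp
        ring
      · by_cases hb' : i = b
        · subst hb'
          simp only [if_true, hji, if_false]
          field_simp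
          ring
        · simp [hb, hb']
    · simp only [transvection_mul_apply_of_ne _ _ _ _ hai, transvection_mul_apply_of_ne _ _ _ _ haj,
        diagonal_apply, one_apply, hai, haj, if_false]

/-- A polynomial vanishing on the principal congruence subgroup of SL_N(Z_ℓ) vanishes on
SL_N(Q_ℓ).  (Every element of SL_N over a field is a product of elementary matrices
1 + z E_ij, i ≠ j; for fixed positions the value of f on the product is a polynomial in the
parameters z vanishing on (ℓ Z_ℓ)^m, hence identically.) -/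
theorem vanish_of_congruence (f : MvPolynomial (Fin N × Fin N) ℚ_[ℓ])
    (hf : ∀ B : SpecialLinearGroup (Fin N) ℤ_[ℓ],
      (∀ a b, (ℓ : ℤ_[ℓ]) ∣ ((B : Matrix (Fin N) (Fin N) ℤ_[ℓ]) - 1) a b) →
      evM ((B : Matrix (Fin N) (Fin N) ℤ_[ℓ]).map (fun x => (x : ℚ_[ℓ]))) f = 0)
    (h : SpecialLinearGroup (Fin N) ℚ_[ℓ]) :
    evM (h : Matrix (Fin N) (Fin N) ℚ_[ℓ]) f = 0 := by
  set G : Set (Matrix (Fin N) (Fin N) ℚ_[ℓ]) :=
    {A | ∃ B : SpecialLinearGroup (Fin N) ℤ_[ℓ],
      (∀ a b, (ℓ : ℤ_[ℓ]) ∣ ((B : Matrix (Fin N) (Fin N) ℤ_[ℓ]) - 1) a b) ∧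
      A = (B : Matrix (Fin N) (Fin N) ℤ_[ℓ]).map (fun x => (x : ℚ_[ℓ]))} with hGdef
  have hGmul : ∀ A ∈ G, ∀ B ∈ G, A * B ∈ G := by
    rintro _ ⟨A, hA, rfl⟩ _ ⟨B, hB, rfl⟩
    refine ⟨A * B, ?_, ?_⟩
    · intro a b
      have h1 : A.1 * B.1 - 1 = (A.1 - 1) * B.1 + (B.1 - 1) := by
        noncomm_ring
      have h2 : (ℓ : ℤ_[ℓ]) ∣ ((A.1 - 1) * B.1 + (B.1 - 1)) a b := by
        rw [Matrix.add_apply, Matrix.mul_apply]
        exact dvd_add (Finset.dvd_sum fun c _ => Dvd.dvd.mul_right (hA a c) _) (hB a b)
      rw [← h1] at h2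
      exact h2
    · exact (Matrix.map_mul (L := A.1) (M := B.1) (f := PadicInt.Coe.ringHom (p := ℓ))).symm
  have hG1 : (1 : Matrix (Fin N) (Fin N) ℚ_[ℓ]) ∈ G := by
    refine ⟨1, ?_, ?_⟩
    · intro a b
      have h1 : (((1 : SpecialLinearGroup (Fin N) ℤ_[ℓ]) : Matrix (Fin N) (Fin N) ℤ_[ℓ]) - 1) a b =
          0 := by
        simp
      exact h1 ▸ dvd_zero _
    · exact (Matrix.map_one (fun x : ℤ_[ℓ] => (x : ℚ_[ℓ])) PadicInt.coe_zero PadicInt.coe_one).symm
  have hℓ : (ℓ : ℚ_[ℓ]) ≠ 0 := by
    exact_mod_cast (Fact.out : ℓ.Prime).ne_zero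
  have htr : ∀ i j : Fin N, i ≠ j → ∀ z : ℚ_[ℓ], ZC G (transvection i j z) := by
    intro i j hij z
    refine ZC_transvection i j (Set.range fun n : ℕ => (ℓ : ℚ_[ℓ]) * n) ?_ ?_ z
    · apply Set.infinite_range_of_injective
      intro a b hab
      have h1 : ((a : ℕ) : ℚ_[ℓ]) = b := mul_left_cancel₀ hℓ hab
      exact_mod_cast h1
    · rintro _ ⟨n, rfl⟩
      refine ⟨⟨transvection i j ((ℓ : ℤ_[ℓ]) * n), det_transvection_of_ne i j hij _⟩, ?_, ?_⟩
      · intro a b
        have h1 : (transvection i j ((ℓ : ℤ_[ℓ]) * n) - 1 : Matrix (Fin N) (Fin N) ℤ_[ℓ]) =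
            Matrix.single i j ((ℓ : ℤ_[ℓ]) * n) := by
          unfold transvection
          rw [add_sub_cancel_left]
        show (ℓ : ℤ_[ℓ]) ∣
          (transvection i j ((ℓ : ℤ_[ℓ]) * n) - 1 : Matrix (Fin N) (Fin N) ℤ_[ℓ]) a b
        rw [h1, Matrix.single_apply]
        split_ifs
        · exact dvd_mul_right _ _
        · exact dvd_zero _
      · ext a b
        show (transvection i j ((ℓ : ℚ_[ℓ]) * n)) a b =
          ((transvection i j ((ℓ : ℤ_[ℓ]) * n) : Matrix (Fin N) (Fin N) ℤ_[ℓ]) a b : ℚ_[ℓ])
        simp only [transvection, Matrix.add_apply, Matrix.one_apply, Matrix.single_apply]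
        split_ifs <;> simp
  have hone : ZC G 1 := fun f hf => hf _ hG1
  have hH : ∀ i j : Fin N, i ≠ j → ∀ c : ℚ_[ℓ], c ≠ 0 →
      ZC G (diagonal fun a => if a = i then c else if a = j then c⁻¹ else 1) := by
    intro i j hij c hc
    rw [whitehead hij hc]
    exact ZC_mul hGmul (htr i j hij _) (ZC_mul hGmul (htr j i hij.symm _)
      (ZC_mul hGmul (htr i j hij _) (ZC_mul hGmul (htr i j hij _)
      (ZC_mul hGmul (htr j i hij.symm _) (ZC_mul hGmul (htr i j hij _) hone)))))
  have hdiag : ∀ D : Fin N → ℚ_[ℓ], det (diagonal D) = 1 → ZC G (diagonal D) := by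
    intro D hD
    rw [det_diagonal] at hD
    have hD0 : ∀ a, D a ≠ 0 := by
      intro a ha
      rw [Finset.prod_eq_zero (Finset.mem_univ a) ha] at hD
      exact zero_ne_one hD
    rcases Nat.eq_zero_or_pos N with hN | hN
    · subst hN
      have h1 : (diagonal D : Matrix (Fin 0) (Fin 0) ℚ_[ℓ]) = 1 := by
        ext a
        exact a.elim0
      rw [h1]
      exact hone
    · set i0 : Fin N := ⟨0, hN⟩ with hi0
      have key : ∀ s : Finset (Fin N), i0 ∉ s →
          ZC G (diagonal fun a => if a = i0 then ∏ b ∈ s, (D b)⁻¹ else if a ∈ s then D a else 1) := by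
        intro s
        induction s using Finset.induction_on with
        | empty =>
          intro _
          have h1 : (diagonal fun a : Fin N => if a = i0 then ∏ b ∈ (∅ : Finset (Fin N)), (D b)⁻¹
              else if a ∈ (∅ : Finset (Fin N)) then D a else 1) = 1 := by
            rw [← diagonal_one]
            congr 1
            funext a
            simp
          rw [h1]
          exact hone
        | insert i s his ih =>
          intro hi0s
          rw [Finset.mem_insert, not_or] at hi0s
          have h1 := ZC_mul hGmul (hH i i0 (Ne.symm hi0s.1) (D i) (hD0 i)) (ih hi0s.2)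
          rw [diagonal_mul_diagonal] at h1
          have h2 : (fun a : Fin N => if a = i0 then ∏ b ∈ insert i s, (D b)⁻¹
              else if a ∈ insert i s then D a else 1) = fun a =>
                (if a = i then D i else if a = i0 then (D i)⁻¹ else 1) *
                if a = i0 then ∏ b ∈ s, (D b)⁻¹ else if a ∈ s then D a else 1 := by
            funext a
            by_cases ha0 : a = i0
            · rw [if_pos ha0, if_neg (fun h => hi0s.1 (ha0.symm.trans h)), if_pos ha0, if_pos ha0,
                Finset.prod_insert his]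
            · by_cases hai : a = i
              · subst hai
                simp [ha0, his]
              · simp [ha0, hai]
          rw [h2]
          exact h1
      have h1 := key (Finset.univ.erase i0) (Finset.notMem_erase _ _)
      have h2 : D = fun a : Fin N => if a = i0 then ∏ b ∈ Finset.univ.erase i0, (D b)⁻¹
              else if a ∈ Finset.univ.erase i0 then D a else 1 := by
        funext a
        by_cases ha0 : a = i0
        · rw [if_pos ha0, Finset.prod_inv_distrib, ha0]
          rw [← Finset.mul_prod_erase Finset.univ D (Finset.mem_univ i0)] at hD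
          exact eq_inv_of_mul_eq_one_left hD
        · simp [ha0]
      rw [h2]
      exact h1
  have hall : ZC G (h : Matrix (Fin N) (Fin N) ℚ_[ℓ]) := by
    refine diagonal_transvection_induction (ZC G) _ ?_ ?_ fun A B hA hB => ZC_mul hGmul hA hB
    · intro D hD
      apply hdiag
      rw [hD]
      exact h.2
    · intro t
      exact htr t.i t.j t.hij t.c
  apply hall
  rintro _ ⟨B, hB, rfl⟩
  exact hf B hB

end W828
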