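import Pool.Agent.W_828d9b_h4.Dens
import Pool.Agent.W_828d9b_h4.Van

/-!
# The density criterion
-/

namespace W828

open Matrix

variable {ℓ : ℕ} [Fact ℓ.Prime] {N : ℕ}

/-- The density criterion. -/
theorem dense_of_span (hℓ : ℓ ≠ 2) (S : Subgroup (SpecialLinearGroup (Fin N) ℤ_[ℓ]))
    {ι : Type*} [Fintype ι] (g : ι → SpecialLinearGroup (Fin N) ℤ_[ℓ]) (hg : ∀ i, g i ∈ S)
    (X E : ι → Matrix (Fin N) (Fin N) ℤ_[ℓ])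
    (hX : ∀ i, (g i : Matrix (Fin N) (Fin N) ℤ_[ℓ]) =
      1 + (ℓ : ℤ_[ℓ]) • X i + (ℓ : ℤ_[ℓ]) ^ 2 • E i)
    (hspan : ∀ Y : Matrix (Fin N) (Fin N) ℤ_[ℓ], (ℓ : ℤ_[ℓ]) ∣ Y.trace →
      ∃ c : ι → ℕ, ∀ a b, (ℓ : ℤ_[ℓ]) ∣ (Y - ∑ i, c i • X i) a b)
    (f : MvPolynomial (Fin N × Fin N) ℚ_[ℓ])
    (hf : ∀ s ∈ S, evM ((s : Matrix (Fin N) (Fin N) ℤ_[ℓ]).map (fun x => (x : ℚ_[ℓ]))) f = 0)
    (h : SpecialLinearGroup (Fin N) ℚ_[ℓ]) :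
    evM (h : Matrix (Fin N) (Fin N) ℚ_[ℓ]) f = 0 := by
  refine vanish_of_congruence f (fun B hB => ?_) h
  choose s hsS hs using approx hℓ S g hg X E hX hspan B hB
  have hℓ1 : 1 < (ℓ : ℝ) := by exact_mod_cast (Fact.out : ℓ.Prime).one_lt
  have h0 : Filter.Tendsto (fun n : ℕ => ((ℓ : ℝ)⁻¹) ^ n) Filter.atTop (nhds 0) :=
    tendsto_pow_atTop_nhds_zero_of_lt_one (by positivity) (inv_lt_one_of_one_lt₀ hℓ1)
  have hlim : Filter.Tendsto (fun n : ℕ => fun ij : Fin N × Fin N =>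
      (((s n : Matrix (Fin N) (Fin N) ℤ_[ℓ]) ij.1 ij.2 : ℤ_[ℓ]) : ℚ_[ℓ])) Filter.atTop
      (nhds fun ij : Fin N × Fin N =>
        (((B : Matrix (Fin N) (Fin N) ℤ_[ℓ]) ij.1 ij.2 : ℤ_[ℓ]) : ℚ_[ℓ])) := by
    rw [tendsto_pi_nhds]
    intro ij
    rw [tendsto_iff_norm_sub_tendsto_zero]
    refine squeeze_zero (fun _ => norm_nonneg _) (fun n => ?_) h0
    have h1 := hs n ij.1 ij.2
    rw [Matrix.sub_apply] at h1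
    have h2 : ‖(B : Matrix (Fin N) (Fin N) ℤ_[ℓ]) ij.1 ij.2
        - (s n : Matrix (Fin N) (Fin N) ℤ_[ℓ]) ij.1 ij.2‖ ≤ (ℓ : ℝ) ^ (-(n : ℤ)) :=
      (PadicInt.norm_le_pow_iff_mem_span_pow _ n).2 (Ideal.mem_span_singleton.2 h1)
    rw [norm_sub_rev, ← PadicInt.coe_sub, ← PadicInt.norm_def, inv_pow, ← zpow_natCast, ← _root_.zpow_neg]
    exact h2
  have hc := (MvPolynomial.continuous_eval f).tendsto (fun ij : Fin N × Fin N =>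
        (((B : Matrix (Fin N) (Fin N) ℤ_[ℓ]) ij.1 ij.2 : ℤ_[ℓ]) : ℚ_[ℓ]))
  have hc2 := hc.comp hlim
  have h3 : ∀ n, MvPolynomial.eval (fun ij : Fin N × Fin N =>
      (((s n : Matrix (Fin N) (Fin N) ℤ_[ℓ]) ij.1 ij.2 : ℤ_[ℓ]) : ℚ_[ℓ])) f = 0 :=
    fun n => hf (s n) (hsS n)
  have h4 : Filter.Tendsto (fun _ : ℕ => (0 : ℚ_[ℓ])) Filter.atTop
      (nhds (MvPolynomial.eval (fun ij : Fin N × Fin N =>
        (((B : Matrix (Fin N) (Fin N) ℤ_[ℓ]) ij.1 ij.2 : ℤ_[ℓ]) : ℚ_[ℓ])) f)) :=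
    hc2.congr (fun n => h3 n)
  exact (tendsto_nhds_unique h4 tendsto_const_nhds)

end W828
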