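import Pool.Agent.W_828d9b_h4.Van

/-!
# Transfer of Zariski density
-/

namespace W828

open Matrix

/-- Zariski density in SL_N of a set of matrices (given by a map) -/
def ZDense {k : Type*} [Field k] {Γ : Type*} {N : ℕ} (A : Γ → Matrix (Fin N) (Fin N) k) : Prop :=
  ∀ f : MvPolynomial (Fin N × Fin N) k, (∀ γ, evM (A γ) f = 0) →
    ∀ h : SpecialLinearGroup (Fin N) k, evM (h : Matrix (Fin N) (Fin N) k) f = 0

/-- Linearly independent functions have a nonzero minor of full size. -/
theorem genB_minor {k : Type*} [Field k] {Γ : Type*} {m : ℕ} (g : Fin m → Γ → k)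
    (hg : ∀ c : Fin m → k, (∀ γ, ∑ a, c a * g a γ = 0) → c = 0) :
    ∃ p : Fin m → Γ, (Matrix.of (fun a b => g a (p b))).det ≠ 0 := by
  set s : Set (Fin m → k) := Set.range (fun γ => fun a => g a γ) with hs
  have htop : Submodule.span k s = ⊤ := by
    by_contra hne
    obtain ⟨f, hf0, hf⟩ := Submodule.exists_le_ker_of_lt_top _ (lt_top_iff_ne_top.2 hne)
    have hc := hg (fun a => f (fun j => if a = j then 1 else 0)) (by
      intro γ
      have h1 : f (fun a => g a γ) = 0 := by
        have h2 : (fun a => g a γ) ∈ Submodule.span k s := Submodule.subset_span ⟨γ, rfl⟩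
        exact LinearMap.mem_ker.1 (hf h2)
      rw [LinearMap.pi_apply_eq_sum_univ f] at h1
      refine Eq.trans (Finset.sum_congr rfl ?_) h1
      intro a _
      rw [smul_eq_mul, mul_comm])
    apply hf0
    apply LinearMap.ext
    intro v
    rw [LinearMap.pi_apply_eq_sum_univ f v]
    apply Finset.sum_eq_zero
    intro a _
    have := congrFun hc a
    simp only [Pi.zero_apply] at this
    rw [this, smul_zero]
  have hfin : Module.finrank k (Submodule.span k s) = m := by
    rw [htop, finrank_top, Module.finrank_fin_fun]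
  have key := Submodule.exists_fun_fin_finrank_span_eq k s
  rw [hfin] at key
  obtain ⟨f, hfs, -, hli⟩ := key
  choose p hp using hfs
  refine ⟨p, ?_⟩
  have hcol : (Matrix.of (fun a b => g a (p b))).col = f := by
    funext b
    rw [← hp b]
    rfl
  have hunit := Matrix.linearIndependent_cols_iff_isUnit.1 (hcol ▸ hli)
  rw [Matrix.isUnit_iff_isUnit_det] at hunit
  exact hunit.ne_zero

/-- Evaluation on `SL_N` of the polynomials of total degree at most `d`. -/
noncomputable def genB_ev {k : Type*} [Field k] (N d : ℕ) :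
    MvPolynomial.restrictTotalDegree (Fin N × Fin N) k d →ₗ[k]
      (SpecialLinearGroup (Fin N) k → k) where
  toFun f := fun h => evM (h : Matrix (Fin N) (Fin N) k) f.1
  map_add' f f' := by
    funext h
    simp [evM]
  map_smul' c f := by
    funext h
    simp [evM]

theorem genB_eval {k : Type*} [Field k] {N : ℕ} (A : Matrix (Fin N) (Fin N) (Polynomial k))
    (f : MvPolynomial (Fin N × Fin N) k) (w : k) :
    (MvPolynomial.aeval (fun ij : Fin N × Fin N => A ij.1 ij.2) f : Polynomial k).eval w =
      evM (A.map (Polynomial.eval w)) f := by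
  have h := MvPolynomial.comp_aeval_apply (fun ij : Fin N × Fin N => A ij.1 ij.2)
    (Polynomial.aeval w : Polynomial k →ₐ[k] k) f
  rw [Polynomial.coe_aeval_eq_eval] at h
  rw [h, evM, MvPolynomial.aeval_eq_eval]
  rfl

theorem genB_one {k : Type*} [Field k] {Γ : Type*} {N : ℕ}
    (A : Γ → Matrix (Fin N) (Fin N) (Polynomial k)) (hdet : ∀ γ, (A γ).det = 1) (w0 : k)
    (hd : ZDense (fun γ => (A γ).map (Polynomial.eval w0))) (d : ℕ) :
    ∃ D : Polynomial k, D ≠ 0 ∧ ∀ w1 : k, D.eval w1 ≠ 0 →
      ∀ f : MvPolynomial (Fin N × Fin N) k, f.totalDegree ≤ d →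
        (∀ γ, evM ((A γ).map (Polynomial.eval w1)) f = 0) →
        ∀ h : SpecialLinearGroup (Fin N) k, evM (h : Matrix (Fin N) (Fin N) k) f = 0 := by
  classical
  have hdw : ∀ (w : k) (γ : Γ), ((A γ).map (Polynomial.eval w)).det = 1 := by
    intro w γ
    have h1 := RingHom.map_det (Polynomial.evalRingHom w) (A γ)
    rw [hdet γ, map_one] at h1
    rw [h1]
    rfl
  let pt : k → Γ → SpecialLinearGroup (Fin N) k := fun w γ =>
    ⟨(A γ).map (Polynomial.eval w), hdw w γ⟩
  let W := LinearMap.range (genB_ev (k := k) N d)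
  let b := Module.finBasis k W
  have hch : ∀ a, ∃ f : MvPolynomial.restrictTotalDegree (Fin N × Fin N) k d,
      genB_ev N d f = (b a : SpecialLinearGroup (Fin N) k → k) := fun a => (b a).2
  choose F hF using hch
  have hFa : ∀ a (h : SpecialLinearGroup (Fin N) k), evM (h : Matrix (Fin N) (Fin N) k) (F a).1 =
      (b a : SpecialLinearGroup (Fin N) k → k) h := fun a h => congrFun (hF a) h
  obtain ⟨p, hp⟩ := genB_minor (fun a γ => (b a : SpecialLinearGroup (Fin N) k → k) (pt w0 γ)) (by
    intro c hc
    obtain ⟨f, hf⟩ := (∑ a, c a • b a : W).2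
    have h1 : ∀ γ, evM ((A γ).map (Polynomial.eval w0)) f.1 = 0 := by
      intro γ
      have h2 := congrFun hf (pt w0 γ)
      have h3 : genB_ev N d f (pt w0 γ) = evM ((A γ).map (Polynomial.eval w0)) f.1 := rfl
      rw [← h3, h2, ← hc γ]
      simp only [Submodule.coe_sum, Submodule.coe_smul, Finset.sum_apply, Pi.smul_apply,
        smul_eq_mul]
    have h4 := hd f.1 h1
    have h5 : (∑ a, c a • b a : W) = 0 := by
      apply Subtype.ext
      rw [← hf]
      funext h
      exact h4 h
    have h6 := Fintype.linearIndependent_iff.1 b.linearIndependent c h5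
    funext a
    exact h6 a)
  refine ⟨(Matrix.of (fun a b' => (MvPolynomial.aeval
    (fun ij : Fin N × Fin N => A (p b') ij.1 ij.2) (F a).1 : Polynomial k))).det, ?_, ?_⟩
  · intro h0
    have h1 := congrArg (Polynomial.eval w0) h0
    rw [← Polynomial.coe_evalRingHom, RingHom.map_det, map_zero] at h1
    apply hp
    rw [← h1]
    congr 1
    ext a b'
    simp only [Matrix.of_apply, RingHom.mapMatrix_apply, Matrix.map_apply,
      Polynomial.coe_evalRingHom]
    rw [genB_eval, ← hFa]
  · intro w1 hw1 f hfd hf
    have hM : (Matrix.of (fun a b' =>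
        (b a : SpecialLinearGroup (Fin N) k → k) (pt w1 (p b')))).det ≠ 0 := by
      intro h0
      apply hw1
      rw [← Polynomial.coe_evalRingHom, RingHom.map_det, ← h0]
      congr 1
      ext a b'
      simp only [Matrix.of_apply, RingHom.mapMatrix_apply, Matrix.map_apply,
        Polynomial.coe_evalRingHom]
      rw [genB_eval, ← hFa]
    have hfmem : f ∈ MvPolynomial.restrictTotalDegree (Fin N × Fin N) k d :=
      (MvPolynomial.mem_restrictTotalDegree _ _ _).2 hfd
    let wf : W := ⟨genB_ev N d ⟨f, hfmem⟩, ⟨_, rfl⟩⟩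
    have hrep : ∀ h : SpecialLinearGroup (Fin N) k, evM (h : Matrix (Fin N) (Fin N) k) f =
        ∑ a, b.repr wf a * (b a : SpecialLinearGroup (Fin N) k → k) h := by
      intro h
      have h1 : (wf : SpecialLinearGroup (Fin N) k → k) h =
          evM (h : Matrix (Fin N) (Fin N) k) f := rfl
      rw [← h1]
      conv_lhs => rw [← b.sum_repr wf]
      simp only [Submodule.coe_sum, Submodule.coe_smul, Finset.sum_apply, Pi.smul_apply,
        smul_eq_mul]
    have hc0 : (fun a => b.repr wf a) = 0 := by
      apply Matrix.eq_zero_of_vecMul_eq_zero hM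
      funext b'
      simp only [Matrix.vecMul, dotProduct, Matrix.of_apply, Pi.zero_apply]
      rw [← hrep]
      exact hf (p b')
    intro h
    rw [hrep h]
    apply Finset.sum_eq_zero
    intro a _
    have := congrFun hc0 a
    simp only [Pi.zero_apply] at this
    rw [this, zero_mul]

/-- Density at one point implies density at all points outside the zeros of countably many
nonzero polynomials.  (For each degree d the functions on SL_N(k) given by polynomials of
total degree ≤ d form a finite dimensional space; choose polynomials f_1..f_m giving a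
basis of it.  By density at w0 the evaluations at the A γ(w0) span the dual space, so
det (evM (A (γ_b) (w0)) f_a) ≠ 0 for some γ_1..γ_m; take Δ_d(X) = det (evM (A γ_b (X)) f_a).) -/
theorem density_transfer {k : Type*} [Field k] {Γ : Type*} {N : ℕ}
    (A : Γ → Matrix (Fin N) (Fin N) (Polynomial k)) (hdet : ∀ γ, (A γ).det = 1) (w0 : k)
    (hd : ZDense (fun γ => (A γ).map (Polynomial.eval w0))) :
    ∃ D : ℕ → Polynomial k, (∀ d, D d ≠ 0) ∧
      ∀ w1 : k, (∀ d, (D d).eval w1 ≠ 0) → ZDense (fun γ => (A γ).map (Polynomial.eval w1)) := by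
  choose D hD0 hD using genB_one A hdet w0 hd
  refine ⟨D, hD0, ?_⟩
  intro w1 hw1 f hf h
  exact hD f.totalDegree w1 (hw1 _) f le_rfl hf h

end W828
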