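import Pool.Agent.W_828d9b_h4.Root11
import Pool.Agent.W_828d9b_h4.DensData
import Pool.Agent.W_828d9b_h4.DensF
import Pool.Agent.W_828d9b_h4.GenB

/-!
# Zariski density at w = 1
-/

namespace W828

open Matrix Polynomial

/-- the specialisation of rhoX at w = 1 over the 11-adic integers -/
noncomputable def rho1 : Gam0 →* SpecialLinearGroup (Fin 6) ℤ_[11] :=
  (SpecialLinearGroup.map (evalRingHom (1 : ℤ_[11]))).comp rhoX

/-- the evaluation data at w = 1 -/
noncomputable def E1 : ED ℤ_[11] := E0.map (evalRingHom (1 : ℤ_[11]))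

theorem DensZ_cast (x : ℤ_[11]) (n : ℕ)
    (h : PadicInt.toZModPow (p := 11) 2 x = (n : ZMod (11 ^ 2))) :
    PadicInt.toZMod (p := 11) x = (n : ZMod 11) := by
  have h1 : PadicInt.toZModPow (p := 11) 2 (x - n) = 0 := by
    rw [map_sub, map_natCast, h, sub_self]
  have h2 : x - n ∈ RingHom.ker (PadicInt.toZModPow (p := 11) 2) := h1
  rw [PadicInt.ker_toZModPow, Ideal.mem_span_singleton] at h2
  have h3 : x - n ∈ RingHom.ker (PadicInt.toZMod (p := 11)) := by
    rw [PadicInt.ker_toZMod, PadicInt.maximalIdeal_eq_span_p, Ideal.mem_span_singleton]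
    exact dvd_trans (dvd_pow_self _ (by norm_num)) h2
  have h4 : PadicInt.toZMod (p := 11) (x - n) = 0 := h3
  rw [map_sub, map_natCast, sub_eq_zero] at h4
  exact h4

theorem E1_mod_z : (E1.map (PadicInt.toZModPow 2)).z = 3 := by
  show PadicInt.toZModPow 2 ((evalRingHom (1 : ℤ_[11])) (C z11)) = 3
  rw [coe_evalRingHom, eval_C]
  exact z11_mod

theorem E1_mod_w : (E1.map (PadicInt.toZModPow 2)).w = 1 := by
  show PadicInt.toZModPow 2 ((evalRingHom (1 : ℤ_[11])) Polynomial.X) = 1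
  rw [coe_evalRingHom, eval_X, map_one]

theorem E1_mod_z' : (E1.map (PadicInt.toZMod (p := 11))).z = 3 := by
  show PadicInt.toZMod (p := 11) ((evalRingHom (1 : ℤ_[11])) (C z11)) = 3
  rw [coe_evalRingHom, eval_C]
  exact DensZ_cast z11 3 (by rw [z11_mod]; norm_num)

theorem E1_mod_w' : (E1.map (PadicInt.toZMod (p := 11))).w = 1 := by
  show PadicInt.toZMod (p := 11) ((evalRingHom (1 : ℤ_[11])) Polynomial.X) = 1
  rw [coe_evalRingHom, eval_X, map_one]

/-- Property of the index i: some element of Gam0 is congruent to 1 + 11 X modulo 121 where X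
reduces to XN i modulo 11. -/
def PropX (i : ℕ) : Prop := ∃ γ : Gam0, ∃ X E : Matrix (Fin 6) (Fin 6) ℤ_[11],
  (rho1 γ : Matrix (Fin 6) (Fin 6) ℤ_[11]) = 1 + (11 : ℤ_[11]) • X + (11 : ℤ_[11]) ^ 2 • E ∧
  X.map (PadicInt.toZMod (p := 11)) = XN i

/-- specialised block of an element of GHat -/
noncomputable def DensZ_b (g : GHat) : Matrix (Fin 6) (Fin 6) ℤ_[11] :=
  ((P0 g).val.m 54).map (evalRingHom (1 : ℤ_[11]))

theorem DensZ_rho (γ : Gam0) : (rho1 γ : Matrix (Fin 6) (Fin 6) ℤ_[11]) = DensZ_b γ.1 := rfl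

theorem DensZ_b_mul (g h : GHat) (hh : h ∈ St) : DensZ_b (g * h) = DensZ_b g * DensZ_b h := by
  unfold DensZ_b
  rw [map_mul, Units.val_mul, BP.mul_m, mem_St.1 hh, Matrix.map_mul]

theorem DensZ_b_one : DensZ_b 1 = 1 := by
  unfold DensZ_b
  rw [map_one]
  exact Matrix.map_one _ (map_zero _) (map_one _)

theorem DensZ_b_word (g : GHat) (l : List ℕ) (h : (P0 g).val = E0.word l) :
    DensZ_b g = (E1.word l).m 54 := by
  unfold DensZ_b E1
  rw [h, ED.map_word]
  rfl

theorem DensZ_mod {R' : Type*} [CommRing R'] (φ : ℤ_[11] →+* R') (l : List ℕ) :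
    ((E1.word l).m 54).map φ = ((E1.map φ).word l).m 54 := by
  rw [ED.map_word]
  rfl

theorem DensZ_perm (l : List ℕ) (h : (runB l 54 [] 0).1 = 54) : (E0.word l).p 54 = 54 := by
  apply Fin.ext
  rw [(E0.run_sound l 54 [] 0).1]
  exact h

theorem DensZ_s_pow (i : Fin 4) : (E0.s i) ^ 10 = 1 := by
  apply Units.ext
  rw [Units.val_pow_eq_pow_val, ED.s_val, E0.gen_pow_ten, Units.val_one]

theorem DensZ_P0_pow (i : Fin 4) (n : ℕ) :
    (P0 (R i ^ n)).val = E0.word (List.replicate n i.val) := by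
  rw [map_pow, P0_R, Units.val_pow_eq_pow_val, ED.s_val, E0.word_replicate]

theorem DensZ_inv (i : Fin 4) (n m : ℕ) (h : n + m = 10) :
    (P0 (R i ^ n)⁻¹).val = E0.word (List.replicate m i.val) := by
  have h1 : (P0 (R i ^ n)⁻¹) = (E0.s i) ^ m := by
    rw [map_inv, map_pow, P0_R]
    apply inv_eq_of_mul_eq_one_right
    rw [← pow_add, h, DensZ_s_pow]
  rw [h1, Units.val_pow_eq_pow_val, ED.s_val, E0.word_replicate]

theorem DensZ_lift (A B : Matrix (Fin 6) (Fin 6) ℤ_[11])
    (h : A.map (PadicInt.toZModPow (p := 11) 2) = B.map (PadicInt.toZModPow (p := 11) 2)) :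
    ∃ E : Matrix (Fin 6) (Fin 6) ℤ_[11], A = B + (11 : ℤ_[11]) ^ 2 • E := by
  have h1 : ∀ a b, (11 : ℤ_[11]) ^ 2 ∣ A a b - B a b := by
    intro a b
    have h2 : PadicInt.toZModPow (p := 11) 2 (A a b) = PadicInt.toZModPow (p := 11) 2 (B a b) :=
      congrFun (congrFun h a) b
    have h3 : A a b - B a b ∈ RingHom.ker (PadicInt.toZModPow (p := 11) 2) := by
      rw [RingHom.mem_ker, map_sub, h2, sub_self]
    rw [PadicInt.ker_toZModPow, Ideal.mem_span_singleton] at h3
    exact_mod_cast h3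
  choose E hE using h1
  refine ⟨Matrix.of E, ?_⟩
  ext a b
  rw [Matrix.add_apply, Matrix.smul_apply, Matrix.of_apply, smul_eq_mul, ← hE]
  ring

theorem DensZ_matN {R R' : Type*} [CommRing R] [CommRing R'] (φ : R →+* R')
    (l : List (List ℕ)) : (matN R l).map φ = matN R' l := by
  ext a b
  simp only [Matrix.map_apply, matN, map_natCast]

theorem DensZ_wU : wU = List.replicate 2 0 ++ (List.replicate 4 1 ++
    (List.replicate 8 0 ++ List.replicate 6 1)) := by
  decide

/-- the cube of the element of the word wU, which is a commutator g⁻¹ h⁻¹ g h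
of h = R 0 ^ 2 and g = R 1 ^ 4 (P0_word, comm_mem, chkU for the fixed block; R i ^ 10 = 1) -/
theorem propX_zero : PropX 0 := by
  have hg : R 1 ^ 4 ∈ St := by
    rw [mem_St, DensZ_P0_pow]
    exact DensZ_perm _ (by decide +kernel)
  have hh : R 0 ^ 2 ∈ St := by
    rw [mem_St, DensZ_P0_pow]
    exact DensZ_perm _ (by decide +kernel)
  have hu := comm_mem (R 1 ^ 4) (R 0 ^ 2) hg hh
  have hval : (P0 ((R 1 ^ 4)⁻¹ * (R 0 ^ 2)⁻¹ * R 1 ^ 4 * R 0 ^ 2)).val = E0.word wU := by
    rw [map_mul, map_mul, map_mul, Units.val_mul, Units.val_mul, Units.val_mul,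
      DensZ_inv 1 4 6 rfl, DensZ_inv 0 2 8 rfl, DensZ_P0_pow, DensZ_P0_pow, DensZ_wU,
      ED.word_append, ED.word_append, ED.word_append]
    rfl
  set u : Gam0 := ⟨_, hu⟩ with hudef
  have hU : (rho1 u : Matrix (Fin 6) (Fin 6) ℤ_[11]) = (E1.word wU).m 54 :=
    (DensZ_rho u).trans (DensZ_b_word _ _ hval)
  have hmod : (rho1 u : Matrix (Fin 6) (Fin 6) ℤ_[11]).map (PadicInt.toZModPow (p := 11) 2) =
      matN (ZMod (11 ^ 2)) uN := by
    rw [hU, DensZ_mod]
    exact wU_mod _ E1_mod_z E1_mod_w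
  have hpow : ((rho1 u : Matrix (Fin 6) (Fin 6) ℤ_[11]) ^ 3).map
      (PadicInt.toZModPow (p := 11) 2) =
      (1 + (11 : ℤ_[11]) • matN ℤ_[11] x0N).map (PadicInt.toZModPow (p := 11) 2) := by
    have h1 := map_pow (RingHom.mapMatrix (m := Fin 6) (PadicInt.toZModPow (p := 11) 2))
      (rho1 u : Matrix (Fin 6) (Fin 6) ℤ_[11]) 3
    rw [RingHom.mapMatrix_apply, RingHom.mapMatrix_apply, hmod, uN_cube] at h1
    rw [h1]
    ext a b
    simp only [Matrix.map_apply, Matrix.add_apply, Matrix.smul_apply, smul_eq_mul, map_add,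
      map_mul, map_ofNat, matN, map_natCast, Matrix.one_apply]
    congr 1
    split_ifs <;> simp
  obtain ⟨E, hE⟩ := DensZ_lift _ _ hpow
  refine ⟨u ^ 3, matN ℤ_[11] x0N, E, ?_, ?_⟩
  · rw [map_pow, Matrix.SpecialLinearGroup.coe_pow]
    exact hE
  · rw [XN_zero, DensZ_matN]

/-- the words of the conjugating elements -/
def DensZ_w : Fin 3 → List (Fin 4) := ![[1, 1], [2, 2], [3, 3]]

theorem DensZ_w_val (k : Fin 3) : (DensZ_w k).map Fin.val = wH k := by
  fin_cases k <;> rfl

theorem DensZ_w_St (k : Fin 3) : wordR (DensZ_w k) ∈ St := by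
  rw [mem_St, P0_word, DensZ_w_val]
  apply DensZ_perm
  revert k
  decide +kernel

/-- conjugate with the elements of the words wH k, which fix block 54 (conj_mem) -/
theorem propX_all (i : ℕ) (hi : i < 35) : PropX i := by
  induction i using Nat.strong_induction_on with
  | _ i ih =>
    rcases Nat.eq_zero_or_pos i with rfl | h0
    · exact propX_zero
    obtain ⟨j, k, hj, hrel⟩ := XN_rel i h0 hi
    obtain ⟨γ, X, E, hγ, hX⟩ := ih j hj (by omega)
    set h : GHat := wordR (DensZ_w k) with hh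
    have hSt : h ∈ St := DensZ_w_St k
    have hSt' : h⁻¹ ∈ St := St.inv_mem hSt
    have hγSt : γ.1 ∈ St := Gam0_le_St γ.2
    have hmem := conj_mem h γ.1 hSt γ.2
    have hbb : DensZ_b h * DensZ_b h⁻¹ = 1 := by
      rw [← DensZ_b_mul h h⁻¹ hSt', mul_inv_cancel, DensZ_b_one]
    have hrho : (rho1 ⟨_, hmem⟩ : Matrix (Fin 6) (Fin 6) ℤ_[11]) =
        DensZ_b h * (rho1 γ : Matrix (Fin 6) (Fin 6) ℤ_[11]) * DensZ_b h⁻¹ := by
      rw [DensZ_rho, DensZ_rho]
      show DensZ_b (h * γ.1 * h⁻¹) = _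
      rw [DensZ_b_mul _ _ hSt', DensZ_b_mul _ _ hγSt]
    have hmodh : (DensZ_b h).map (PadicInt.toZMod (p := 11)) =
        matN (ZMod 11) (hN.getD k.val []) := by
      rw [DensZ_b_word h (wH k) (by rw [hh, P0_word, DensZ_w_val]), DensZ_mod]
      exact wH_mod _ E1_mod_z' E1_mod_w' k
    have hmodi : (DensZ_b h⁻¹).map (PadicInt.toZMod (p := 11)) =
        matN (ZMod 11) (hiN.getD k.val []) := by
      have h1 : (DensZ_b h).map (PadicInt.toZMod (p := 11)) *
          (DensZ_b h⁻¹).map (PadicInt.toZMod (p := 11)) = 1 := by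
        rw [← Matrix.map_mul, hbb]
        exact Matrix.map_one _ (map_zero _) (map_one _)
      have h2 := hN_mul k
      rw [← hmodh] at h2
      have h3 := mul_eq_one_comm.1 h1
      calc (DensZ_b h⁻¹).map (PadicInt.toZMod (p := 11))
          = (DensZ_b h⁻¹).map (PadicInt.toZMod (p := 11)) *
            ((DensZ_b h).map (PadicInt.toZMod (p := 11)) *
              matN (ZMod 11) (hiN.getD k.val [])) := by rw [h2, mul_one]
        _ = matN (ZMod 11) (hiN.getD k.val []) := by rw [← mul_assoc, h3, one_mul]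
    refine ⟨⟨_, hmem⟩, DensZ_b h * X * DensZ_b h⁻¹, DensZ_b h * E * DensZ_b h⁻¹, ?_, ?_⟩
    · rw [hrho, hγ, mul_add, mul_add, add_mul, add_mul, mul_one, hbb, Matrix.mul_smul,
        Matrix.smul_mul, Matrix.mul_smul, Matrix.smul_mul]
    · rw [Matrix.map_mul, Matrix.map_mul, hmodh, hmodi, hX, hrel]

/-- the density criterion dense_of_span applied to the range of rho1 -/
theorem zdense_one : ZDense (fun γ : Gam0 => (AX γ).map (Polynomial.eval (1 : ℚ_[11]))) := by
  classical
  intro f hf h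
  choose γ X E hγ hX using fun i : Fin 35 => propX_all i.val i.isLt
  refine dense_of_span (ℓ := 11) (by norm_num) rho1.range (fun i => rho1 (γ i))
    (fun i => ⟨γ i, rfl⟩) X E (fun i => by exact_mod_cast hγ i) ?_ f ?_ h
  · intro Y hY
    have htr : (Y.map (PadicInt.toZMod (p := 11))).trace = 0 := by
      have h1 : (Y.map (PadicInt.toZMod (p := 11))).trace = PadicInt.toZMod (p := 11) Y.trace :=
        (AddMonoidHom.map_trace (PadicInt.toZMod (p := 11)).toAddMonoidHom Y).symm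
      rw [h1]
      have h2 : Y.trace ∈ RingHom.ker (PadicInt.toZMod (p := 11)) := by
        rw [PadicInt.ker_toZMod, PadicInt.maximalIdeal_eq_span_p, Ideal.mem_span_singleton]
        exact hY
      exact h2
    obtain ⟨c, hc⟩ := XN_span _ htr
    refine ⟨c, fun a b => ?_⟩
    have h3 : (Y - ∑ i, c i • X i) a b ∈ RingHom.ker (PadicInt.toZMod (p := 11)) := by
      rw [RingHom.mem_ker, Matrix.sub_apply, Matrix.sum_apply, map_sub, map_sum]
      have h4 := congrFun (congrFun hc a) b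
      rw [Matrix.map_apply, Matrix.sum_apply] at h4
      rw [h4, sub_eq_zero]
      refine Finset.sum_congr rfl fun i _ => ?_
      rw [Matrix.smul_apply, Matrix.smul_apply, map_nsmul, ← hX i, Matrix.map_apply]
    rw [PadicInt.ker_toZMod, PadicInt.maximalIdeal_eq_span_p, Ideal.mem_span_singleton] at h3
    exact h3
  · rintro _ ⟨δ, rfl⟩
    have h1 : ((rho1 δ : SpecialLinearGroup (Fin 6) ℤ_[11]) :
        Matrix (Fin 6) (Fin 6) ℤ_[11]).map (fun x => (x : ℚ_[11])) =
        (AX δ).map (Polynomial.eval (1 : ℚ_[11])) := by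
      ext a b
      show ((((P0 δ.1).val.m 54 a b).eval (1 : ℤ_[11]) : ℤ_[11]) : ℚ_[11]) =
        (((P0 δ.1).val.m 54 a b).map (PadicInt.Coe.ringHom (p := 11))).eval (1 : ℚ_[11])
      rw [Polynomial.eval_map, ← (map_one (PadicInt.Coe.ringHom (p := 11))),
        Polynomial.eval₂_at_apply]
      rfl
    rw [h1]
    exact hf δ

end W828
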