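import Mathlib

/-!
# Macbeath's theorem (homomorphism form)

A group G acts by homeomorphisms on a simply connected, locally path connected space X;
U is a connected open set whose translates cover X.  A map m defined on the group and
multiplicative whenever the three translates in question meet U pairwise
extends to a homomorphism.

Proof: the open sets g • U (g in G) with the constants c(g,h) = m (g⁻¹ h) are gluing data
(`FiberBundleCore` with fibre P, P discrete) for a covering space of X
(`FiberBundle.isCoveringMap` or a similar statement), which has a global section because X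
is simply connected and locally path connected (lift the identity map).  Over the connected
set g • U the section is a constant phi g, so m (g⁻¹ h) = (phi g)⁻¹ * phi h whenever
g • U meets h • U.  By uniqueness of sections (connectedness of X) there is a g with
phi (gamma * g) = a gamma * phi g for all g, and normalising phi 1 = 1 gives the
homomorphism.
-/

namespace W828

open Pointwise

/-- A function on the group which takes the same value at g and h whenever the translates
of U by g and h meet is constant. -/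
theorem mac_const {G X α : Type*} [Group G] [TopologicalSpace X] [MulAction G X]
    [ContinuousConstSMul G X] [PreconnectedSpace X]
    (U : Set X) (hU : IsOpen U) (hUn : U.Nonempty)
    (hcov : ∀ x : X, ∃ g : G, g • x ∈ U) (r : G → α)
    (hr : ∀ g h : G, (∃ x ∈ U, (g⁻¹ * h)⁻¹ • x ∈ U) → r g = r h) (g h : G) : r g = r h := by
  classical
  choose c hc using hcov
  let f : X → α := fun x => r (c x)⁻¹
  have key : ∀ (g : G) (x : X), g⁻¹ • x ∈ U → f x = r g := by
    intro g x hx
    apply hr
    refine ⟨c x • x, hc x, ?_⟩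
    simpa [mul_smul] using hx
  have hloc : IsLocallyConstant f := by
    rw [IsLocallyConstant.iff_exists_open]
    intro x
    refine ⟨(fun y => c x • y) ⁻¹' U, hU.preimage (continuous_const_smul _), hc x, ?_⟩
    intro y hy
    exact key (c x)⁻¹ y (by simpa using hy)
  obtain ⟨u, hu⟩ := hUn
  have h1 := key g (g • u) (by simpa using hu)
  have h2 := key h (h • u) (by simpa using hu)
  rw [← h1, ← h2]
  exact hloc.apply_eq_of_preconnectedSpace _ _

theorem macbeath {G X P : Type*} [Group G] [TopologicalSpace X] [MulAction G X]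
    [ContinuousConstSMul G X] [SimplyConnectedSpace X] [LocallyPathConnectedSpace X] [Group P]
    (U : Set X) (hU : IsOpen U) (hUc : IsPreconnected U) (hUn : U.Nonempty)
    (hcov : ∀ x : X, ∃ g : G, g • x ∈ U)
    (m : G → P)
    (hm : ∀ s t : G, (∃ x ∈ U, s⁻¹ • x ∈ U) → (∃ x ∈ U, t⁻¹ • x ∈ U) →
      (∃ x ∈ U, (s * t)⁻¹ • x ∈ U) → m (s * t) = m s * m t) :
    ∃ F : G →* P, ∀ s : G, (∃ x ∈ U, s⁻¹ • x ∈ U) → F s = m s := by
  classical
  let _ : TopologicalSpace P := ⊥
  have _ : DiscreteTopology P := ⟨rfl⟩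
  obtain ⟨u, hu⟩ := hUn
  have hm1 : m 1 = 1 := by
    have h := hm 1 1 ⟨u, hu, by simpa using hu⟩ ⟨u, hu, by simpa using hu⟩
      ⟨u, hu, by simpa using hu⟩
    rw [mul_one] at h
    exact (mul_eq_left.mp h.symm)
  -- intersections of translates
  have hmeet : ∀ (g h : G) (x : X), g⁻¹ • x ∈ U → h⁻¹ • x ∈ U →
      ∃ y ∈ U, (g⁻¹ * h)⁻¹ • y ∈ U := by
    intro g h x hg hh
    exact ⟨g⁻¹ • x, hg, by simpa [mul_smul] using hh⟩
  choose c hc using hcov
  let Z : FiberBundleCore G X P :=
    { baseSet := fun g => (fun x => g⁻¹ • x) ⁻¹' U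
      isOpen_baseSet := fun g => hU.preimage (continuous_const_smul _)
      indexAt := fun x => (c x)⁻¹
      mem_baseSet_at := fun x => by simpa using hc x
      coordChange := fun i j _ v => m (j⁻¹ * i) * v
      coordChange_self := fun i x _ v => by simp [hm1]
      continuousOn_coordChange := fun i j => by
        apply Continuous.continuousOn
        exact (continuous_of_discreteTopology (f := fun v : P => m (j⁻¹ * i) * v)).comp
          continuous_snd
      coordChange_comp := fun i j k x hx v => by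
        have hi : i⁻¹ • x ∈ U := hx.1.1
        have hj : j⁻¹ • x ∈ U := hx.1.2
        have hk : k⁻¹ • x ∈ U := hx.2
        have h := hm (k⁻¹ * j) (j⁻¹ * i) (hmeet k j x hk hj) (hmeet j i x hj hi) (by
          have h3 := hmeet k i x hk hi
          have h4 : k⁻¹ * j * (j⁻¹ * i) = k⁻¹ * i := by group
          rw [h4]; exact h3)
        have h4 : k⁻¹ * j * (j⁻¹ * i) = k⁻¹ * i := by group
        rw [h4] at h
        show m (k⁻¹ * j) * (m (j⁻¹ * i) * v) = m (k⁻¹ * i) * v
        rw [h, mul_assoc] }
  have hcovm : IsCoveringMap (Bundle.TotalSpace.proj : Z.TotalSpace → X) :=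
    FiberBundle.isCoveringMap (F := P) (E := Z.Fiber)
  obtain ⟨σ, ⟨hσ0, hσ⟩, -⟩ := hcovm.existsUnique_continuousMap_lifts (ContinuousMap.id X) u
    (⟨u, (1 : P)⟩ : Z.TotalSpace) rfl
  have hproj : ∀ x, (σ x).proj = x := fun x => congrFun hσ x
  let e : X → P := fun x => (σ x).2
  -- local coordinates of the section
  let φ : G → X → P := fun g x => (Z.localTriv g (σ x)).2
  have hφ : ∀ (g : G) (x : X), φ g x = m (g⁻¹ * (c x)⁻¹) * e x := by
    intro g x
    show (Z.localTriv g (σ x)).2 = _
    rw [Z.localTriv_apply]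
    show m (g⁻¹ * (c (σ x).proj)⁻¹) * e x = _
    rw [hproj x]
  have htr : ∀ (g h : G) (x : X), g⁻¹ • x ∈ U → h⁻¹ • x ∈ U →
      φ h x = m (h⁻¹ * g) * φ g x := by
    intro g h x hg hh
    have hk : ((c x)⁻¹)⁻¹ • x ∈ U := by simpa using hc x
    rw [hφ, hφ, ← mul_assoc]
    congr 1
    have h1 := hm (h⁻¹ * g) (g⁻¹ * (c x)⁻¹) (hmeet h g x hh hg) (hmeet g _ x hg hk) (by
      have h3 := hmeet h _ x hh hk
      have h4 : h⁻¹ * g * (g⁻¹ * (c x)⁻¹) = h⁻¹ * (c x)⁻¹ := by group
      rw [h4]; exact h3)
    have h4 : h⁻¹ * g * (g⁻¹ * (c x)⁻¹) = h⁻¹ * (c x)⁻¹ := by group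
    rw [h4] at h1
    exact h1
  have hcont : ∀ g : G, ContinuousOn (φ g) (Z.baseSet g) := by
    intro g
    have h1 : ContinuousOn (fun x => Z.localTriv g (σ x)) (Z.baseSet g) := by
      refine (Z.localTriv g).continuousOn.comp σ.continuous.continuousOn ?_
      intro x hx
      rw [Z.mem_localTriv_source, hproj x]
      exact hx
    exact continuous_snd.comp_continuousOn h1
  have hbase : ∀ g : G, IsPreconnected (Z.baseSet g) := by
    intro g
    have h1 : Z.baseSet g = (fun x => g • x) '' U := by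
      ext x
      constructor
      · intro hx
        exact ⟨g⁻¹ • x, hx, by simp⟩
      · rintro ⟨y, hy, rfl⟩
        show g⁻¹ • (g • y) ∈ U
        simpa using hy
    rw [h1]
    exact hUc.image _ (continuous_const_smul g).continuousOn
  let Φ : G → P := fun g => φ g (g • u)
  have hΦ : ∀ (g : G) (x : X), g⁻¹ • x ∈ U → φ g x = Φ g := by
    intro g x hx
    refine (hbase g).constant (hcont g) hx ?_
    show g⁻¹ • (g • u) ∈ U
    simpa using hu
  have hstep : ∀ g h : G, (∃ x ∈ U, (g⁻¹ * h)⁻¹ • x ∈ U) → Φ g = m (g⁻¹ * h) * Φ h := by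
    rintro g h ⟨x, hx, hx2⟩
    have h1 : g⁻¹ • (g • x) ∈ U := by simpa using hx
    have h2 : h⁻¹ • (g • x) ∈ U := by
      have : (g⁻¹ * h)⁻¹ • x = h⁻¹ • (g • x) := by simp [mul_smul]
      rw [← this]; exact hx2
    rw [← hΦ g (g • x) h1, ← hΦ h (g • x) h2]
    exact htr h g (g • x) h2 h1
  have hmain : ∀ s t : G, (Φ t)⁻¹ * Φ (s * t) = (Φ 1)⁻¹ * Φ s := by
    intro s t
    have h := mac_const U hU ⟨u, hu⟩ (fun x => ⟨c x, hc x⟩)
      (fun t : G => (Φ t)⁻¹ * Φ (s * t)) (by
        intro g h hgh
        have e1 := hstep g h hgh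
        have e2 := hstep (s * g) (s * h) (by
          have e3 : (s * g)⁻¹ * (s * h) = g⁻¹ * h := by group
          rw [e3]; exact hgh)
        have e3 : (s * g)⁻¹ * (s * h) = g⁻¹ * h := by group
        rw [e3] at e2
        show (Φ g)⁻¹ * Φ (s * g) = (Φ h)⁻¹ * Φ (s * h)
        rw [e1, e2]
        group) t 1
    simpa using h
  refine ⟨MonoidHom.mk' (fun s => Φ 1 * (Φ s)⁻¹) ?_, ?_⟩
  · intro s t
    have h := hmain s t
    have h2 : Φ (s * t) = Φ t * ((Φ 1)⁻¹ * Φ s) := by
      rw [← h]; group
    show Φ 1 * (Φ (s * t))⁻¹ = Φ 1 * (Φ s)⁻¹ * (Φ 1 * (Φ t)⁻¹)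
    rw [h2]; group
  · intro s hs
    have h := hstep 1 s (by simpa using hs)
    show Φ 1 * (Φ s)⁻¹ = m s
    rw [h]
    simp

/-- Translates of U: the elements g with g U ∩ U nonempty generate G. -/
theorem macbeath_gen {G X : Type*} [Group G] [TopologicalSpace X] [MulAction G X]
    [ContinuousConstSMul G X] [PreconnectedSpace X]
    (U : Set X) (hU : IsOpen U) (hUn : U.Nonempty)
    (hcov : ∀ x : X, ∃ g : G, g • x ∈ U) :
    Subgroup.closure {g : G | ∃ x ∈ U, g⁻¹ • x ∈ U} = ⊤ := by
  rw [eq_top_iff]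
  intro g _
  set H := Subgroup.closure {g : G | ∃ x ∈ U, g⁻¹ • x ∈ U} with hH
  have h := mac_const U hU hUn hcov (fun g : G => (g : G ⧸ H)) (by
    intro a b hab
    exact (QuotientGroup.eq).mpr (Subgroup.subset_closure hab)) 1 g
  have h2 := (QuotientGroup.eq (s := H)).mp h
  simpa using h2

end W828
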