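import Pool.Agent.W_828d9b_h4.TabM
import Pool.Agent.W_828d9b_h4.Mac
import Pool.Agent.W_828d9b_h4.Desc
import Pool.Agent.W_828d9b_h4.Bound

/-!
# The presentation theorem

Any four elements of a group P satisfying the relations `BRel` are the images of
R 0, ..., R 3 under a homomorphism from GHat which kills the scalars.
-/

namespace W828

/-- elements moving a point of U into U are small -/
theorem small_of_inv_meet (g : GHat) (h : ∃ x ∈ U, g⁻¹ • x ∈ U) : Small g := by
  obtain ⟨x, hx, hgx⟩ := h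
  refine small_of_meet g (g⁻¹ • x) hgx ?_
  rwa [smul_inv_smul]

/-- criterion for g U to meet U, in terms of an explicit point -/
theorem meet_of (g : GHat) (q : ℂ × ℂ) (hq : sq q < 0.57 * tr)
    (hd : Complex.normSq (den g q) * (0.43 * tr) < tr - sq q) : ∃ x ∈ U, g⁻¹ • x ∈ U := by
  have htr := tr_pos
  have hq' : sq q < tr := by nlinarith
  let p : X := ⟨q, hq'⟩
  refine ⟨g • p, ?_, ?_⟩
  · show sq (g • p).1 < 0.57 * tr
    have h1 := gap_smul g p
    have h2 : (0 : ℝ) ≤ Complex.normSq (den g q) := Complex.normSq_nonneg _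
    have h3 : (tr - sq (g • p).1) * Complex.normSq (den g q) = tr - sq q := h1
    rw [← h3] at hd
    have h4 : 0.43 * tr < tr - sq (g • p).1 := by
      by_contra hcon
      push Not at hcon
      have h5 := mul_le_mul_of_nonneg_right hcon h2
      linarith
    linarith
  · rw [inv_smul_smul]
    exact hq

theorem nsq_eq (x : Z5) : Complex.normSq (io x) = (Z5.nA x : ℝ) + (Z5.nB x : ℝ) * tr :=
  normSq_io x

theorem meet_origin (g : GHat) (h2 : toMat g 2 2 = 1) : ∃ x ∈ U, g⁻¹ • x ∈ U := by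
  have htr := tr_pos
  have hs : sq (0, 0) = 0 := by simp [sq]
  refine meet_of g (0, 0) ?_ ?_
  · rw [hs]; linarith
  · have hd : den g (0, 0) = 1 := by simp [den, h2]
    rw [hs, hd, map_one]
    linarith

theorem meet_R3 : ∃ x ∈ U, (R 3)⁻¹ • x ∈ U := by
  have h1 := tr_gt
  have h2 := tr_lt
  have h3 := tr_sq
  have hn : Complex.normSq (io Z5.eta / 2) = 1 / 4 := by
    rw [map_div₀, normSq_io]
    simp only [nsq, Z5.nA, Z5.nB, Z5.eta]
    norm_num
  have hsq : sq (0, io Z5.eta / 2) = 1 / 4 := by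
    unfold sq
    rw [hn, map_zero, zero_add]
  have hden : den (R 3) (0, io Z5.eta / 2) = io ⟨1, 1, 0, 0⟩ / 2 := by
    have e1 : toMat (R 3) 2 1 = ⟨-1, -1, -1, 0⟩ := rfl
    have e2 : toMat (R 3) 2 2 = ⟨1, 1, 0, 0⟩ := rfl
    have e3 : (⟨-1, -1, -1, 0⟩ : Z5) * Z5.eta = -⟨1, 1, 0, 0⟩ := by decide
    have e4 : io ⟨-1, -1, -1, 0⟩ * io Z5.eta = - io ⟨1, 1, 0, 0⟩ := by
      rw [← map_mul, e3, map_neg]
    unfold den
    rw [e1, e2]
    show io (toMat (R 3) 2 0) * 0 + io ⟨-1, -1, -1, 0⟩ * (io Z5.eta / 2) + io ⟨1, 1, 0, 0⟩ =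
      io ⟨1, 1, 0, 0⟩ / 2
    linear_combination e4 / 2
  have hdn : Complex.normSq (den (R 3) (0, io Z5.eta / 2)) = (2 + tr) / 4 := by
    rw [hden, map_div₀, normSq_io]
    simp only [nsq, Z5.nA, Z5.nB]
    norm_num
  refine meet_of (R 3) (0, io Z5.eta / 2) ?_ ?_
  · rw [hsq]; linarith
  · rw [hdn, hsq]; nlinarith

theorem meet_R1 : ∃ x ∈ U, (R 1)⁻¹ • x ∈ U := by
  have h1 := tr_gt
  have h2 := tr_lt
  have h3 := tr_sq
  have hn : Complex.normSq (io ⟨-1, -1, -1, -2⟩ / 3) = (2 - tr) / 9 := by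
    rw [map_div₀, normSq_io]
    simp only [nsq, Z5.nA, Z5.nB]
    norm_num
    ring
  have hsq : sq (io ⟨-1, -1, -1, -2⟩ / 3, io ⟨-1, -1, -1, -2⟩ / 3) = 2 * (2 - tr) / 9 := by
    unfold sq
    rw [hn]
    ring
  have hden : den (R 1) (io ⟨-1, -1, -1, -2⟩ / 3, io ⟨-1, -1, -1, -2⟩ / 3) =
      io ⟨2, 2, 1, 0⟩ / 3 := by
    have e0 : toMat (R 1) 2 0 = ⟨-1, -2, -1, 0⟩ := rfl
    have e1 : toMat (R 1) 2 1 = ⟨-1, -2, -1, 0⟩ := rfl
    have e2 : toMat (R 1) 2 2 = ⟨2, 2, 1, 0⟩ := rfl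
    have e3 : (⟨-1, -2, -1, 0⟩ : Z5) * ⟨-1, -1, -1, -2⟩ = -⟨2, 2, 1, 0⟩ := by decide
    have e4 : io ⟨-1, -2, -1, 0⟩ * io ⟨-1, -1, -1, -2⟩ = - io ⟨2, 2, 1, 0⟩ := by
      rw [← map_mul, e3, map_neg]
    unfold den
    rw [e0, e1, e2]
    linear_combination (2 / 3) * e4
  have hdn : Complex.normSq (den (R 1) (io ⟨-1, -1, -1, -2⟩ / 3, io ⟨-1, -1, -1, -2⟩ / 3)) =
      (7 + 4 * tr) / 9 := by
    rw [hden, map_div₀, normSq_io]
    simp only [nsq, Z5.nA, Z5.nB]
    norm_num
  refine meet_of (R 1) (io ⟨-1, -1, -1, -2⟩ / 3, io ⟨-1, -1, -1, -2⟩ / 3) ?_ ?_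
  · rw [hsq]; linarith
  · rw [hdn, hsq]; nlinarith

/-- Apply `macbeath` to GHat acting on X, U, with m g = rhoK k * aP i * rhoK k' for a
decomposition g = sc u * kap k * G i * kap k' (`decomp`) when g is small, and 1 otherwise.
Well-definedness from `wd`, multiplicativity from `rel_table` and `small_iff`. -/
theorem presentation {P : Type*} [Group P] (s : Fin 4 → P) (hs : BRel s) :
    ∃ F : GHat →* P, (∀ i, F (R i) = s i) ∧ ∀ u, F (sc u) = 1 := by
  classical
  have hmul := rhoK_mul s hs (kb_w2 s hs)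
  have hinv : ∀ k : KK, rhoK s k⁻¹ = (rhoK s k)⁻¹ := by
    intro k
    rw [eq_inv_iff_mul_eq_one, ← hmul, inv_mul_cancel, rhoK_one]
  have kinv : ∀ k : KK, kap k⁻¹ = (kap k)⁻¹ := by
    intro k
    rw [eq_inv_iff_mul_eq_one, ← kap_mul, inv_mul_cancel, kap_one]
  let D : GHat → P → Prop := fun g p => ∃ (u : ZMod 10) (k : KK) (i : Fin 7) (k' : KK),
    g = sc u * kap k * G i * kap k' ∧ p = rhoK s k * aP s i * rhoK s k'
  have hD : ∀ g p q, D g p → D g q → p = q := by
    rintro g p q ⟨u, k, i, k', hg, hp⟩ ⟨v, l, j, l', hg', hq⟩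
    have h1 : sc (u - v) * kap (l⁻¹ * k) * G i = G j * kap (l' * k'⁻¹) := by
      have h2 : sc v * kap l * G j * kap l' = sc u * kap k * G i * kap k' := hg'.symm.trans hg
      have h3 : sc u = sc v * sc (u - v) := by rw [← sc_add]; congr 1; ring
      rw [kap_mul, kap_mul, kinv, kinv]
      have h4 : sc v * (kap l * (G j * kap l')) =
          sc v * (sc (u - v) * (kap k * (G i * kap k'))) := by
        rw [h3] at h2
        simpa only [mul_assoc] using h2
      have h5 := mul_left_cancel h4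
      have h6 : G j * kap l' = (kap l)⁻¹ * (sc (u - v) * (kap k * (G i * kap k'))) := by
        rw [← h5, inv_mul_cancel_left]
      calc sc (u - v) * ((kap l)⁻¹ * kap k) * G i
          = (sc (u - v) * (kap l)⁻¹) * kap k * G i := by simp only [mul_assoc]
        _ = ((kap l)⁻¹ * sc (u - v)) * kap k * G i := by rw [sc_comm]
        _ = ((kap l)⁻¹ * (sc (u - v) * (kap k * (G i * kap k')))) * (kap k')⁻¹ := by
            simp only [mul_assoc, mul_inv_cancel, mul_one]
        _ = G j * kap l' * (kap k')⁻¹ := by rw [h6]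
        _ = G j * (kap l' * (kap k')⁻¹) := by rw [mul_assoc]
    obtain ⟨_, h7⟩ := wd s hs i j (u - v) (l⁻¹ * k) (l' * k'⁻¹) h1
    rw [hmul, hmul, hinv, hinv] at h7
    rw [hp, hq]
    have h8 : rhoK s k * aP s i = rhoK s l * (aP s j * (rhoK s l' * (rhoK s k')⁻¹)) := by
      rw [← h7]
      simp only [mul_assoc, mul_inv_cancel_left]
    rw [h8]
    simp only [mul_assoc, inv_mul_cancel, mul_one]
  let m : GHat → P := fun g => if h : ∃ p, D g p then h.choose else 1
  have hm : ∀ g p, D g p → m g = p := by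
    intro g p h
    have h1 : ∃ p, D g p := ⟨p, h⟩
    have h2 : m g = h1.choose := dif_pos h1
    rw [h2]
    exact hD g _ _ h1.choose_spec h
  have hDmul : ∀ g h, Small (g * h) → ∀ p q, D g p → D h q → D (g * h) (p * q) := by
    rintro g h hsm p q ⟨u, k, i, k', hg, hp⟩ ⟨v, l, j, l', hg', hq⟩
    have h1 : g * h = sc (u + v) * kap k * (G i * kap (k' * l) * G j) * kap l' := by
      rw [hg, hg', kap_mul, sc_add]
      calc sc u * kap k * G i * kap k' * (sc v * kap l * G j * kap l')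
          = sc u * (kap k * G i * kap k' * sc v) * kap l * G j * kap l' := by
            simp only [mul_assoc]
        _ = sc u * (sc v * (kap k * G i * kap k')) * kap l * G j * kap l' := by
            rw [← sc_comm v]
        _ = _ := by simp only [mul_assoc]
    have h2 : Small (G i * kap (k' * l) * G j) := by
      rw [h1] at hsm
      exact (small_iff _ _ _ _).1 hsm
    obtain ⟨w, k1, n, k2, h3, h4⟩ := rel_table s hs i j (k' * l) h2
    refine ⟨u + v + w, k * k1, n, k2 * l', ?_, ?_⟩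
    · rw [h1, h3, kap_mul, kap_mul, sc_add (u + v) w]
      calc sc (u + v) * kap k * (sc w * kap k1 * G n * kap k2) * kap l'
          = sc (u + v) * (kap k * sc w) * kap k1 * G n * kap k2 * kap l' := by
            simp only [mul_assoc]
        _ = sc (u + v) * (sc w * kap k) * kap k1 * G n * kap k2 * kap l' := by
            rw [← sc_comm w]
        _ = _ := by simp only [mul_assoc]
    · rw [hp, hq, hmul, hmul]
      rw [hmul] at h4
      calc rhoK s k * aP s i * rhoK s k' * (rhoK s l * aP s j * rhoK s l')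
          = rhoK s k * (aP s i * (rhoK s k' * rhoK s l) * aP s j) * rhoK s l' := by
            simp only [mul_assoc]
        _ = rhoK s k * (rhoK s k1 * aP s n * rhoK s k2) * rhoK s l' := by rw [h4]
        _ = _ := by simp only [mul_assoc]
  have hdec : ∀ g, Small g → ∃ p, D g p := by
    intro g hg
    obtain ⟨u, k, i, k', h⟩ := decomp g hg
    exact ⟨_, u, k, i, k', h, rfl⟩
  obtain ⟨F, hF⟩ := macbeath (G := GHat) (X := X) U isOpen_U isPreconnected_U U_nonempty
    (fun x => (covering x).imp fun g hg => hg.2) m (by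
      intro g h hg hh hgh
      obtain ⟨p, hp⟩ := hdec g (small_of_inv_meet g hg)
      obtain ⟨q, hq⟩ := hdec h (small_of_inv_meet h hh)
      rw [hm g p hp, hm h q hq]
      exact hm _ _ (hDmul g h (small_of_inv_meet _ hgh) p q hp hq))
  refine ⟨F, ?_, ?_⟩
  · have hs2 : s 2 ^ 10 = 1 := s2_pow s hs
    have c0 : F (R 0) = s 0 := by
      have h0 : ∃ x ∈ U, (R 0)⁻¹ • x ∈ U := meet_origin (R 0) rfl
      rw [hF _ h0]
      refine hm _ _ ⟨0, ⟨1, 0, false⟩, 0, 1, ?_, ?_⟩
      · have h0 : G 0 = 1 := rfl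
        rw [h0, kap_one, mul_one, mul_one, sc_zero, one_mul, R0_eq]
      · have h0 : aP s 0 = 1 := rfl
        rw [h0, rhoK_one, mul_one, mul_one]
        have e1 : (1 : ZMod 10).val = 1 := rfl
        have e2 : (0 : ZMod 10).val = 0 := rfl
        simp [rhoK, e1, e2]
    have c2 : F (R 2) = s 2 := by
      have h0 : ∃ x ∈ U, (R 2)⁻¹ • x ∈ U := meet_origin (R 2) rfl
      rw [hF _ h0]
      refine hm _ _ ⟨0, ⟨0, 1, false⟩, 0, 1, ?_, ?_⟩
      · have h0 : G 0 = 1 := rfl
        rw [h0, kap_one, mul_one, mul_one, sc_zero, one_mul, R2_eq]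
      · have h0 : aP s 0 = 1 := rfl
        rw [h0, rhoK_one, mul_one, mul_one]
        have e1 : (1 : ZMod 10).val = 1 := rfl
        have e2 : (0 : ZMod 10).val = 0 := rfl
        simp [rhoK, e1, e2]
    have c1 : F (R 1) = s 1 := by
      rw [hF _ meet_R1]
      refine hm _ _ ⟨0, 1, 4, 1, ?_, ?_⟩
      · have h0 : G 4 = R 1 := rfl
        rw [h0, kap_one, sc_zero, mul_one, mul_one, one_mul]
      · have h0 : aP s 4 = s 1 := rfl
        rw [h0, rhoK_one, mul_one, one_mul]
    have c3 : F (R 3) = s 3 := by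
      rw [hF _ meet_R3]
      refine hm _ _ ⟨0, 1, 1, 1, ?_, ?_⟩
      · have h0 : G 1 = R 3 := rfl
        rw [h0, kap_one, sc_zero, mul_one, mul_one, one_mul]
      · have h0 : aP s 1 = s 3 := rfl
        rw [h0, rhoK_one, mul_one, one_mul]
    intro i
    fin_cases i
    · exact c0
    · exact c1
    · exact c2
    · exact c3
  · intro u
    have h1 : ∃ x ∈ U, (sc u)⁻¹ • x ∈ U := by
      obtain ⟨x, hx⟩ := U_nonempty
      refine ⟨x, hx, ?_⟩
      have h2 : (sc u)⁻¹ • x = x := by rw [inv_smul_eq_iff, sc_smul]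
      rwa [h2]
    rw [hF _ h1]
    refine hm _ _ ⟨u, 1, 0, 1, ?_, ?_⟩
    · have h0 : G 0 = 1 := rfl
      rw [h0, kap_one, mul_one, mul_one, mul_one]
    · have h0 : aP s 0 = 1 := rfl
      rw [h0, rhoK_one, mul_one, mul_one]

/-- GHat is generated by R 0, ..., R 3 and the scalars. -/
theorem gen_GHat : Subgroup.closure (Set.range R ∪ Set.range sc) = ⊤ := by
  set C := Subgroup.closure (Set.range R ∪ Set.range sc) with hC
  have hR : ∀ i, R i ∈ C := fun i => Subgroup.subset_closure (Or.inl ⟨i, rfl⟩)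
  have hsc : ∀ u, sc u ∈ C := fun u => Subgroup.subset_closure (Or.inr ⟨u, rfl⟩)
  have hpa : ∀ n : ℕ, kap ⟨(n : ZMod 10), 0, false⟩ = R 0 ^ n := by
    intro n
    induction n with
    | zero => rw [pow_zero, Nat.cast_zero]; exact kap_one
    | succ n ih =>
      rw [pow_succ, ← ih, R0_eq, ← kap_mul, KK.mul_ff, Nat.cast_succ, add_zero]
  have hpb : ∀ n : ℕ, kap ⟨0, (n : ZMod 10), false⟩ = R 2 ^ n := by
    intro n
    induction n with
    | zero => rw [pow_zero, Nat.cast_zero]; exact kap_one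
    | succ n ih =>
      rw [pow_succ, ← ih, R2_eq, ← kap_mul, KK.mul_ff, Nat.cast_succ, add_zero]
  have hW : kap ⟨0, 0, true⟩ ∈ C := by
    have h1 : kap ⟨0, 0, true⟩ = (sc 7)⁻¹ * (R 1 * R 0 * R 2 * R 1) := by
      rw [W_eq, inv_mul_cancel_left]
    rw [h1]
    exact C.mul_mem (C.inv_mem (hsc 7))
      (C.mul_mem (C.mul_mem (C.mul_mem (hR 1) (hR 0)) (hR 2)) (hR 1))
  have hk : ∀ k : KK, kap k ∈ C := by
    rintro ⟨a, b, c⟩
    have ha : kap ⟨a, 0, false⟩ ∈ C := by
      have := hpa a.val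
      rw [ZMod.natCast_zmod_val] at this
      rw [this]
      exact C.pow_mem (hR 0) _
    have hb : kap ⟨0, b, false⟩ ∈ C := by
      have := hpb b.val
      rw [ZMod.natCast_zmod_val] at this
      rw [this]
      exact C.pow_mem (hR 2) _
    have hab : kap ⟨a, b, false⟩ ∈ C := by
      have h1 : (⟨a, b, false⟩ : KK) = ⟨a, 0, false⟩ * ⟨0, b, false⟩ := by
        rw [KK.mul_ff, add_zero, zero_add]
      rw [h1, kap_mul]
      exact C.mul_mem ha hb
    cases c
    · exact hab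
    · have h1 : (⟨a, b, true⟩ : KK) = ⟨a, b, false⟩ * ⟨0, 0, true⟩ := by
        rw [KK.mul_ft, add_zero, add_zero]
      rw [h1, kap_mul]
      exact C.mul_mem hab hW
  have hG : ∀ i, G i ∈ C := by
    intro i
    fin_cases i
    · exact C.one_mem
    · exact hR 3
    · exact C.pow_mem (hR 3) 2
    · exact C.mul_mem (hR 1) (C.inv_mem (hR 3))
    · exact hR 1
    · exact C.pow_mem (hR 3) 3
    · exact C.inv_mem (C.pow_mem (hR 3) 3)
  rw [eq_top_iff, ← macbeath_gen (G := GHat) (X := X) U isOpen_U U_nonempty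
    (fun x => (covering x).imp fun g hg => hg.2), Subgroup.closure_le]
  intro g hg
  obtain ⟨u, k, i, k', h⟩ := decomp g (small_of_inv_meet g hg)
  rw [h]
  exact C.mul_mem (C.mul_mem (C.mul_mem (hsc u) (hk k)) (hG i)) (hk k')

end W828
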