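import Pool.Agent.W_828d9b_h4.BPGen
import Pool.Agent.W_828d9b_h4.Pres

/-!
# Determinants of the blocks
-/

namespace W828

open Matrix

variable {R : Type*} [CommRing R]

/-- the entry of a sparse row at column j -/
def rowAt : List (ℕ × PZ) → ℕ → PZ
  | [], _ => []
  | (i, a) :: r, j => if i = j then padd a (rowAt r j) else rowAt r j

/-- determinant of a sparse matrix by cofactor expansion along the first row; the
list `cs` holds the remaining columns in increasing order -/
def dets : SM → List ℕ → PZ
  | [], _ => [1]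
  | r :: A, cs =>
    (List.range cs.length).foldr (fun k acc =>
      match rowAt r (cs.getD k 0) with
      | [] => acc
      | a :: p => padd (pmul (if k % 2 = 0 then a :: p else (a :: p).map (fun x => -x))
          (dets A (cs.eraseIdx k))) acc) []

/-- the determinant is a power of eta: checked through the tenth power -/
def detL (A : SM) : Bool :=
  decide (A.length = 6) &&
    (List.range 10).any fun k => decide (ptrim (dets A [0, 1, 2, 3, 4, 5]) = [Z5.eta ^ k])

/-- the matrices occurring in blocks which are moved by the generator -/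
def movM : List ℕ := 
  [0, 1, 2, 4, 5, 6, 8, 9, 10, 12, 13, 14, 16, 17, 18, 20, 21, 22, 24, 25, 26, 27, 28, 29,
  30, 31, 33, 35, 37, 39, 41, 43, 44, 45, 46, 47, 48, 49, 50, 51, 52, 53, 54, 55, 56, 58,
  60, 62, 64, 66, 68, 69, 70, 71, 72, 73, 74, 75, 76, 77, 78, 79, 80, 81, 82, 83, 84, 85,
  86, 87]

theorem movM_ok : ∀ m ∈ movM, detL (mats.getD m []) = true := by decide +kernel

/-- blocks fixed by the generator, or blocks with one of the matrices of `movM` -/
theorem fix_or_mov : ∀ i : Fin 4, ∀ c : Fin 60, permG i.val c.val = c.val ∨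
    (expG i.val c.val = 0 ∧ (midD.getD i.val []).getD c.val 0 ∈ movM) := by decide +kernel

theorem ED.pz_rowAt (E : ED R) (r : List (ℕ × PZ)) (j : ℕ) :
    E.pz (rowAt r j) = E.row r j := by
  induction r with
  | nil => rfl
  | cons x r ih =>
    obtain ⟨i, a⟩ := x
    rw [rowAt, ED.row]
    split_ifs with h
    · rw [ED.pz_padd, ih]
    · rw [ih, zero_add]

theorem ED.pz_neg (E : ED R) (p : PZ) : E.pz (p.map (fun x => -x)) = -E.pz p := by
  induction p with
  | nil => simp [ED.pz]
  | cons a p ih =>
    rw [List.map_cons, ED.pz, ED.pz, ih, map_neg]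
    ring

theorem ED.pz_foldr (E : ED R) (r : List (ℕ × PZ)) (A : SM) (cs : List ℕ) (L : List ℕ) :
    E.pz (L.foldr (fun k acc =>
      match rowAt r (cs.getD k 0) with
      | [] => acc
      | a :: p => padd (pmul (if k % 2 = 0 then a :: p else (a :: p).map (fun x => -x))
          (dets A (cs.eraseIdx k))) acc) []) =
    (L.map fun k => (-1) ^ k * E.row r (cs.getD k 0) * E.pz (dets A (cs.eraseIdx k))).sum := by
  induction L with
  | nil => rfl
  | cons k L ih =>
    rw [List.foldr_cons, List.map_cons, List.sum_cons, ← ih, ← ED.pz_rowAt]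
    split
    · rename_i h
      rw [h]
      simp [ED.pz]
    · rename_i a p h
      rw [h, ED.pz_padd, ED.pz_pmul]
      congr 2
      split_ifs with hk
      · rw [Even.neg_one_pow (Nat.even_iff.2 hk), one_mul]
      · rw [Odd.neg_one_pow (Nat.odd_iff.2 (by omega)), ED.pz_neg]
        ring

/-- soundness of the cofactor expansion -/
theorem ED.dets_sound (E : ED R) (A : SM) : ∀ (n : ℕ) (cs : List ℕ), A.length = n →
    cs.length = n → E.pz (dets A cs) =
      (Matrix.of fun (i j : Fin n) => E.row (A.getD i.val []) (cs.getD j.val 0)).det := by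
  induction A with
  | nil =>
    intro n cs hn _
    have hn0 : n = 0 := by simpa using hn.symm
    subst hn0
    rw [Matrix.det_isEmpty]
    simp [dets, ED.pz]
  | cons r A ih =>
    intro n cs hn hcs
    rw [List.length_cons] at hn
    subst hn
    rw [dets, ED.pz_foldr, Matrix.det_succ_row_zero, hcs]
    have h1 : ∀ f : ℕ → R, ((List.range (A.length + 1)).map f).sum =
        ∑ j : Fin (A.length + 1), f j.val := by
      intro f
      rw [← Finset.sum_range f]
      rfl
    rw [h1]
    apply Finset.sum_congr rfl
    intro j _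
    have h2 : (cs.eraseIdx j.val).length = A.length := by
      rw [List.length_eraseIdx, if_pos (by rw [hcs]; exact j.isLt), hcs]
      rfl
    rw [ih A.length (cs.eraseIdx j.val) rfl h2]
    congr 2
    ext i k
    show E.row (A.getD i.val []) ((cs.eraseIdx j.val).getD k.val 0) =
      E.row ((r :: A).getD (i.val + 1) []) (cs.getD (j.succAbove k).val 0)
    rw [List.getD_cons_succ]
    congr 1
    rw [List.getD_eq_getElem?_getD, List.getD_eq_getElem?_getD, List.getElem?_eraseIdx]
    by_cases hk : k.val < j.val
    · rw [if_pos hk, Fin.succAbove_of_castSucc_lt _ _ (by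
        rw [Fin.lt_def]; exact hk)]
      rfl
    · rw [if_neg hk, Fin.succAbove_of_le_castSucc _ _ (by
        rw [Fin.le_def]; exact not_lt.1 hk)]
      rfl

theorem ED.det_sm (E : ED R) (A : SM) (h : detL A = true) : (E.sm A).det ^ 10 = 1 := by
  rw [detL, Bool.and_eq_true, decide_eq_true_eq, List.any_eq_true] at h
  obtain ⟨hA, k, -, hk⟩ := h
  rw [decide_eq_true_eq] at hk
  have h1 := E.dets_sound A 6 [0, 1, 2, 3, 4, 5] hA rfl
  have h2 : (Matrix.of fun (i j : Fin 6) =>
      E.row (A.getD i.val []) (([0, 1, 2, 3, 4, 5] : List ℕ).getD j.val 0)) = E.sm A := by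
    ext i j
    show E.row _ _ = E.row _ _
    congr 1
    fin_cases j <;> rfl
  rw [h2, ← ED.pz_ptrim, hk] at h1
  rw [← h1]
  have h3 : E.pz [Z5.eta ^ k] = E.io Z5.eta ^ k := by
    simp [ED.pz]
  rw [h3, ← pow_mul, mul_comm, pow_mul, ← map_pow, Z5.eta_pow_ten, map_one, one_pow]

/-- The determinant of every block of a generator is a power of eta.  For the blocks fixed by
the generator this follows from the relation gen ^ 10 = 1; the others are computed by sparse
cofactor expansions. -/
theorem ED.gen_det (E : ED R) (i : Fin 4) (c : Fin 60) :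
    ((E.gen i.val).m c).det ^ 10 = 1 := by
  rcases fix_or_mov i c with h | ⟨h1, h2⟩
  · have h1 : (E.gen i.val).p c = c := by
      show Fin.ofNat 60 (permG i.val c.val) = c
      rw [h]
      apply Fin.ext
      exact Nat.mod_eq_of_lt c.isLt
    have h2 := (BP.pow_fix (E.gen i.val) c h1 10).2
    rw [E.gen_pow_ten i, BP.one_m] at h2
    rw [← Matrix.det_pow, ← h2, Matrix.det_one]
  · have h3 : (E.gen i.val).m c = E.sm (matG i.val c.val) := by
      show E.f ^ expG i.val c.val • E.sm (matG i.val c.val) = _
      rw [h1, pow_zero, one_smul]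
    rw [h3]
    exact E.det_sm _ (movM_ok _ h2)

/-- closure induction along gen_GHat -/
theorem det_pow_ten (E : ED R) (F : GHat →* (BP R)ˣ)
    (hF : ∀ i, (F (W828.R i)).val = E.gen i.val) (hsc : ∀ u, F (sc u) = 1) (g : GHat)
    (c : Fin 60) : ((F g).val.m c).det ^ 10 = 1 := by
  have hg : g ∈ Subgroup.closure (Set.range W828.R ∪ Set.range sc) := by
    rw [gen_GHat]; exact Subgroup.mem_top g
  revert c
  induction hg using Subgroup.closure_induction with
  | mem x hx =>
    intro c
    rcases hx with ⟨i, rfl⟩ | ⟨u, rfl⟩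
    · rw [hF]
      exact E.gen_det i c
    · rw [hsc, Units.val_one, BP.one_m, Matrix.det_one, one_pow]
  | one =>
    intro c
    rw [map_one, Units.val_one, BP.one_m, Matrix.det_one, one_pow]
  | mul x y _ _ hx hy =>
    intro c
    rw [map_mul, Units.val_mul, BP.mul_m, Matrix.det_mul, mul_pow, hx, hy, one_mul]
  | inv x _ hx =>
    intro c
    have h1 : (F x * F x⁻¹ : (BP R)ˣ) = 1 := by rw [← map_mul, mul_inv_cancel, map_one]
    have h2 := congrArg (fun u : (BP R)ˣ => (u.val.m c).det) h1
    simp only [Units.val_mul, BP.mul_m, Matrix.det_mul, Units.val_one, BP.one_m,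
      Matrix.det_one] at h2
    have h3 := congrArg (fun t : R => t ^ 10) h2
    simp only [mul_pow, one_pow] at h3
    rw [hx, one_mul] at h3
    exact h3

end W828
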