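import Pool.Agent.W_828d9b_h4.Grp

/-!
# The two complex embeddings of Z5
-/

namespace W828

theorem tr_sq : tr ^ 2 = 1 - tr := by
  have h : Real.sqrt 5 ^ 2 = 5 := Real.sq_sqrt (by norm_num)
  unfold tr
  linear_combination h / 4

theorem tr_gt : 0.61803 < tr := by
  have h : (2.23606 : ℝ) < Real.sqrt 5 := by
    apply Real.lt_sqrt_of_sq_lt
    norm_num
  unfold tr
  linarith

theorem tr_lt : tr < 0.618034 := by
  have h : Real.sqrt 5 < (2.236068 : ℝ) := by
    rw [Real.sqrt_lt' (by norm_num)]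
    norm_num
  unfold tr
  linarith

/-- exp (2 pi i / 5), written algebraically -/
noncomputable def zc : ℂ := ⟨tr / 2, Real.sqrt (1 - (tr / 2) ^ 2)⟩

theorem tr_sqC : (tr : ℂ) ^ 2 = 1 - (tr : ℂ) := by
  have h := tr_sq
  exact_mod_cast congrArg (fun t : ℝ => (t : ℂ)) h

theorem zc_quad : zc ^ 2 = (tr : ℂ) * zc - 1 := by
  have h1 := tr_gt
  have h2 := tr_lt
  have hs : zc.im ^ 2 = 1 - (tr / 2) ^ 2 := by
    apply Real.sq_sqrt
    nlinarith
  have hr : zc.re = tr / 2 := rfl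
  apply Complex.ext
  · simp only [pow_two zc, Complex.mul_re, Complex.sub_re, Complex.ofReal_re, Complex.ofReal_im,
      Complex.one_re, hr]
    linear_combination (-1 : ℝ) * hs
  · simp only [pow_two zc, Complex.mul_im, Complex.sub_im, Complex.ofReal_re, Complex.ofReal_im,
      Complex.one_im, hr]
    ring

theorem zc_rel : zc ^ 4 + zc ^ 3 + zc ^ 2 + zc + 1 = 0 := by
  have h1 := zc_quad
  have h2 := tr_sqC
  linear_combination (zc ^ 2 + (1 + (tr : ℂ)) * zc + 1) * h1 + zc ^ 2 * h2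

theorem star_zc : star zc = zc ^ 4 := by
  have h1 := zc_quad
  have h2 := tr_sqC
  have h3 : star zc = (tr : ℂ) - zc := by
    apply Complex.ext
    · simp only [zc, Complex.star_def, Complex.conj_re, Complex.sub_re, Complex.ofReal_re]
      ring
    · simp only [zc, Complex.star_def, Complex.conj_im, Complex.sub_im, Complex.ofReal_im]
      ring
  rw [h3]
  linear_combination (-(zc ^ 2 + (tr : ℂ) * zc - 1) - (tr : ℂ) ^ 2) * h1
    + (-((tr : ℂ) - 1) * zc + 1) * h2

theorem zc_five : zc ^ 5 = 1 := by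
  linear_combination (zc - 1) * zc_rel

theorem zc_rel' : (zc ^ 2) ^ 4 + (zc ^ 2) ^ 3 + (zc ^ 2) ^ 2 + zc ^ 2 + 1 = 0 := by
  linear_combination (1 + (zc ^ 3 + zc) * (zc - 1)) * zc_rel

/-- the standard embedding z ↦ exp (2 pi i / 5) -/
noncomputable def io : Z5 →+* ℂ := Z5.lift zc zc_rel
/-- the other embedding z ↦ exp (4 pi i / 5) -/
noncomputable def io' : Z5 →+* ℂ := Z5.lift (zc ^ 2) zc_rel'

theorem io_star (x : Z5) : io (star x) = star (io x) := by
  have h5 := zc_five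
  have h4 := zc_rel
  simp only [io, Z5.lift_apply, star_add, star_mul', star_pow, star_zc, star_intCast,
    Z5.star_a, Z5.star_b, Z5.star_c, Z5.star_d, Int.cast_sub, Int.cast_neg]
  linear_combination (-(x.b : ℂ)) * h4 + (-(x.c : ℂ) * zc ^ 3 -
    (x.d : ℂ) * (zc ^ 7 + zc ^ 2)) * h5

theorem io'_star (x : Z5) : io' (star x) = star (io' x) := by
  have h5 := zc_five
  have h4 := zc_rel
  simp only [io', Z5.lift_apply, star_add, star_mul', star_pow, star_zc, star_intCast,
    Z5.star_a, Z5.star_b, Z5.star_c, Z5.star_d, Int.cast_sub, Int.cast_neg]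
  linear_combination (-(x.b : ℂ)) * zc_rel' + (-(x.c : ℂ) * (zc ^ 11 + zc ^ 6) -
    (x.d : ℂ) * (zc ^ 19 + zc ^ 14 + zc ^ 9 + zc ^ 4)) * h5

theorem zc_four : zc ^ 4 = (tr : ℂ) - zc := by
  have h1 := zc_quad
  have h2 := tr_sqC
  linear_combination ((zc ^ 2 + (tr : ℂ) * zc - 1) + (tr : ℂ) ^ 2) * h1
    + (((tr : ℂ) - 1) * zc - 1) * h2

theorem io_tau : io Z5.tau = (tr : ℂ) := by
  simp only [io, Z5.lift_apply, Z5.tau, Int.cast_neg, Int.cast_one, Int.cast_zero]
  linear_combination zc_four - zc_rel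

theorem io'_tau : io' Z5.tau = -((tr : ℂ) + 1) := by
  simp only [io', Z5.lift_apply, Z5.tau, Int.cast_neg, Int.cast_one, Int.cast_zero]
  linear_combination -zc_four - zc * zc_five

theorem normSq_io (x : Z5) : Complex.normSq (io x) = nsq x := by
  have h1 : ((Complex.normSq (io x) : ℝ) : ℂ) = io (x * star x) := by
    rw [map_mul, io_star]
    exact (Complex.mul_conj (io x)).symm
  have h2 : io (x * star x) = ((nsq x : ℝ) : ℂ) := by
    have ht := io_tau
    rw [Z5.mul_star]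
    simp only [io, Z5.lift_apply, Z5.tau, Int.cast_neg, Int.cast_one, Int.cast_zero,
      Int.cast_sub, nsq, Complex.ofReal_add, Complex.ofReal_mul, Complex.ofReal_intCast] at ht ⊢
    linear_combination (Z5.nB x : ℂ) * ht
  rw [h2] at h1
  exact_mod_cast h1

theorem normSq_io' (x : Z5) : Complex.normSq (io' x) = nsq' x := by
  have h1 : ((Complex.normSq (io' x) : ℝ) : ℂ) = io' (x * star x) := by
    rw [map_mul, io'_star]
    exact (Complex.mul_conj (io' x)).symm
  have h2 : io' (x * star x) = ((nsq' x : ℝ) : ℂ) := by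
    have ht := io'_tau
    rw [Z5.mul_star]
    simp only [io', Z5.lift_apply, Z5.tau, Int.cast_neg, Int.cast_one, Int.cast_zero,
      Int.cast_sub, nsq', Complex.ofReal_add, Complex.ofReal_sub, Complex.ofReal_mul,
      Complex.ofReal_intCast, Complex.ofReal_one] at ht ⊢
    linear_combination (Z5.nB x : ℂ) * ht
  rw [h2] at h1
  exact_mod_cast h1

theorem io_injective : Function.Injective io := by
  rw [injective_iff_map_eq_zero]
  intro x hx
  have h1 : nsq x = 0 := by rw [← normSq_io, hx, map_zero]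
  have hB : Z5.nB x = 0 := by
    by_contra hB
    have hB' : (Z5.nB x : ℝ) ≠ 0 := by exact_mod_cast hB
    have hirr : Irrational (Real.sqrt 5) := by
      have := Nat.Prime.irrational_sqrt (show Nat.Prime 5 by norm_num)
      simpa using this
    apply hirr
    refine ⟨((-2 * Z5.nA x + Z5.nB x : ℤ) : ℚ) / ((Z5.nB x : ℤ) : ℚ), ?_⟩
    push_cast
    rw [div_eq_iff hB']
    unfold nsq tr at h1
    linear_combination (-2 : ℝ) * h1
  have hA : Z5.nA x = 0 := by
    unfold nsq at h1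
    rw [hB] at h1
    simpa using h1
  have h2 : x.a ^ 2 + x.b ^ 2 + x.c ^ 2 + x.d ^ 2 + (x.a - x.b) ^ 2 + (x.a - x.c) ^ 2 +
      (x.a - x.d) ^ 2 + (x.b - x.c) ^ 2 + (x.b - x.d) ^ 2 + (x.c - x.d) ^ 2 = 0 := by
    unfold Z5.nA at hA
    unfold Z5.nB at hB
    linear_combination 4 * hA - 2 * hB
  have ha : x.a ^ 2 = 0 := by
    nlinarith [sq_nonneg x.a, sq_nonneg x.b, sq_nonneg x.c, sq_nonneg x.d,
      sq_nonneg (x.a - x.b), sq_nonneg (x.a - x.c), sq_nonneg (x.a - x.d),
      sq_nonneg (x.b - x.c), sq_nonneg (x.b - x.d), sq_nonneg (x.c - x.d)]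
  have hb : x.b ^ 2 = 0 := by
    nlinarith [sq_nonneg x.a, sq_nonneg x.b, sq_nonneg x.c, sq_nonneg x.d,
      sq_nonneg (x.a - x.b), sq_nonneg (x.a - x.c), sq_nonneg (x.a - x.d),
      sq_nonneg (x.b - x.c), sq_nonneg (x.b - x.d), sq_nonneg (x.c - x.d)]
  have hc : x.c ^ 2 = 0 := by
    nlinarith [sq_nonneg x.a, sq_nonneg x.b, sq_nonneg x.c, sq_nonneg x.d,
      sq_nonneg (x.a - x.b), sq_nonneg (x.a - x.c), sq_nonneg (x.a - x.d),
      sq_nonneg (x.b - x.c), sq_nonneg (x.b - x.d), sq_nonneg (x.c - x.d)]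
  have hd : x.d ^ 2 = 0 := by
    nlinarith [sq_nonneg x.a, sq_nonneg x.b, sq_nonneg x.c, sq_nonneg x.d,
      sq_nonneg (x.a - x.b), sq_nonneg (x.a - x.c), sq_nonneg (x.a - x.d),
      sq_nonneg (x.b - x.c), sq_nonneg (x.b - x.d), sq_nonneg (x.c - x.d)]
  apply Z5.ext
  · exact pow_eq_zero_iff (two_ne_zero) |>.mp ha
  · exact pow_eq_zero_iff (two_ne_zero) |>.mp hb
  · exact pow_eq_zero_iff (two_ne_zero) |>.mp hc
  · exact pow_eq_zero_iff (two_ne_zero) |>.mp hd

end W828
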