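import Pool.Agent.W_828d9b_h4.Emb

/-!
# Small elements of Z5
-/

namespace W828

/-- representatives of the small elements modulo the tenth roots of unity -/
def cl : Fin 8 → Z5 := ![⟨1, 0, 0, 0⟩, ⟨1, 1, 0, 0⟩, ⟨1, 0, 0, -1⟩, ⟨1, 1, 0, -1⟩,
  ⟨1, 1, -1, -1⟩, ⟨2, 2, 0, 0⟩, ⟨2, 1, 0, -1⟩, ⟨1, 2, 0, -1⟩]

/-- the nonzero small elements, with the index of the representative and of the root of unity -/
def smallTab : List (Z5 × Fin 8 × ZMod 10) :=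
  [(⟨1, 0, 0, 0⟩, 0, 0), (⟨0, 0, -1, 0⟩, 0, 1), (⟨-1, -1, -1, -1⟩, 0, 2), (⟨0, -1, 0, 0⟩, 0, 3), (⟨0,
   0, 0, 1⟩, 0, 4), (⟨-1, 0, 0, 0⟩, 0, 5), (⟨0, 0, 1, 0⟩, 0, 6), (⟨1, 1, 1, 1⟩, 0, 7), (⟨0, 1, 0, 0⟩,
   0, 8), (⟨0, 0, 0, -1⟩, 0, 9), (⟨1, 1, 0, 0⟩, 1, 0), (⟨0, 0, -1, -1⟩, 1, 1), (⟨0, -1, -1, -1⟩, 1, 2),
   (⟨0, -1, -1, 0⟩, 1, 3), (⟨-1, -1, -1, 0⟩, 1, 4), (⟨-1, -1, 0, 0⟩, 1, 5), (⟨0, 0, 1, 1⟩, 1, 6), (⟨0,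
   1, 1, 1⟩, 1, 7), (⟨0, 1, 1, 0⟩, 1, 8), (⟨1, 1, 1, 0⟩, 1, 9), (⟨1, 0, 0, -1⟩, 2, 0), (⟨1, 0, -1, 0⟩,
   2, 1), (⟨-1, -1, -2, -1⟩, 2, 2), (⟨-1, -2, -1, -1⟩, 2, 3), (⟨0, -1, 0, 1⟩, 2, 4), (⟨-1, 0, 0, 1⟩, 2,
   5), (⟨-1, 0, 1, 0⟩, 2, 6), (⟨1, 1, 2, 1⟩, 2, 7), (⟨1, 2, 1, 1⟩, 2, 8), (⟨0, 1, 0, -1⟩, 2, 9), (⟨1,
   1, 0, -1⟩, 3, 0), (⟨1, 0, -1, -1⟩, 3, 1), (⟨0, -1, -2, -1⟩, 3, 2), (⟨-1, -2, -2, -1⟩, 3, 3), (⟨-1,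
   -2, -1, 0⟩, 3, 4), (⟨-1, -1, 0, 1⟩, 3, 5), (⟨-1, 0, 1, 1⟩, 3, 6), (⟨0, 1, 2, 1⟩, 3, 7), (⟨1, 2, 2,
   1⟩, 3, 8), (⟨1, 2, 1, 0⟩, 3, 9), (⟨1, 1, -1, -1⟩, 4, 0), (⟨0, -1, -2, -2⟩, 4, 1), (⟨0, -2, -2, -1⟩,
   4, 2), (⟨-1, -2, -2, 0⟩, 4, 3), (⟨-2, -2, -1, 0⟩, 4, 4), (⟨-1, -1, 1, 1⟩, 4, 5), (⟨0, 1, 2, 2⟩, 4,
   6), (⟨0, 2, 2, 1⟩, 4, 7), (⟨1, 2, 2, 0⟩, 4, 8), (⟨2, 2, 1, 0⟩, 4, 9), (⟨2, 2, 0, 0⟩, 5, 0), (⟨0, 0,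
   -2, -2⟩, 5, 1), (⟨0, -2, -2, -2⟩, 5, 2), (⟨0, -2, -2, 0⟩, 5, 3), (⟨-2, -2, -2, 0⟩, 5, 4), (⟨-2, -2,
   0, 0⟩, 5, 5), (⟨0, 0, 2, 2⟩, 5, 6), (⟨0, 2, 2, 2⟩, 5, 7), (⟨0, 2, 2, 0⟩, 5, 8), (⟨2, 2, 2, 0⟩, 5,
   9), (⟨2, 1, 0, -1⟩, 6, 0), (⟨1, 0, -2, -1⟩, 6, 1), (⟨-1, -2, -3, -2⟩, 6, 2), (⟨-1, -3, -2, -1⟩, 6,
   3), (⟨-1, -2, -1, 1⟩, 6, 4), (⟨-2, -1, 0, 1⟩, 6, 5), (⟨-1, 0, 2, 1⟩, 6, 6), (⟨1, 2, 3, 2⟩, 6, 7),
   (⟨1, 3, 2, 1⟩, 6, 8), (⟨1, 2, 1, -1⟩, 6, 9), (⟨1, 2, 0, -1⟩, 7, 0), (⟨1, 0, -1, -2⟩, 7, 1), (⟨1, -1,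
   -2, -1⟩, 7, 2), (⟨-1, -2, -3, -1⟩, 7, 3), (⟨-2, -3, -2, -1⟩, 7, 4), (⟨-1, -2, 0, 1⟩, 7, 5), (⟨-1, 0,
   1, 2⟩, 7, 6), (⟨-1, 1, 2, 1⟩, 7, 7), (⟨1, 2, 3, 1⟩, 7, 8), (⟨2, 3, 2, 1⟩, 7, 9)]

theorem smallTab_ok : (smallTab.all fun t => decide (t.1 = et t.2.2 * cl t.2.1)) = true := by
  decide +kernel

/-- the finite check for one element -/
def smallOk (a b c d : ℤ) : Bool :=
  let s := a * c + b * d + a * d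
  let nA := a * a + b * b + c * c + d * d - s
  let nB := a * b + b * c + c * d - s
  decide (14 < 2 * nA - nB) || decide (0 ≤ nB ∧ 1334000 < 100000 * nA + 61803 * nB) ||
  decide (0 ≤ nB ∧ 1620000 < 1000000 * nA - 1618034 * nB) ||
  decide (nB < 0 ∧ 13340000 < 1000000 * nA + 618034 * nB) ||
  decide (nB < 0 ∧ 162000 < 100000 * nA - 161803 * nB) ||
  decide ((⟨a, b, c, d⟩ : Z5) = 0) || smallTab.any fun t => decide ((⟨a, b, c, d⟩ : Z5) = t.1)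

/-- the range of the coordinates -/
def smallRng : List ℤ := [-5, -4, -3, -2, -1, 0, 1, 2, 3, 4, 5]

theorem smallOk_all : (smallRng.all fun a => smallRng.all fun b => smallRng.all fun c =>
    smallRng.all fun d => smallOk a b c d) = true := by
  decide +kernel

theorem mem_smallRng {a : ℤ} (h : a ^ 2 ≤ 28) : a ∈ smallRng := by
  have h1 : -5 ≤ a := by nlinarith
  have h2 : a ≤ 5 := by nlinarith
  simp only [smallRng, List.mem_cons, List.not_mem_nil, or_false]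
  omega

/-- If |x|^2 ≤ 13.34 and |x'|^2 ≤ 1.62 (x' the conjugate) then x = 0 or x is a tenth root of
unity times one of eight elements.
Proof: nsq x + nsq' x = 2 nA x - nB x = (5 Σ a_i^2 - (Σ a_i)^2)/2 ≥ (1/2) Σ a_i^2, so all
coordinates are at most 5 in absolute value; then a finite check of 11^4 cases with the
integer consequences of the two inequalities (use 0.61803 < tr < 0.618034). -/
theorem enum_small (x : Z5) (h1 : nsq x ≤ 13.34) (h2 : nsq' x ≤ 1.62) :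
    x = 0 ∨ ∃ (i : Fin 8) (u : ZMod 10), x = et u * cl i := by
  have hlo := tr_gt
  have hhi := tr_lt
  obtain ⟨a, b, c, d⟩ := x
  obtain ⟨nA, hnA⟩ : ∃ n, n = Z5.nA ⟨a, b, c, d⟩ := ⟨_, rfl⟩
  obtain ⟨nB, hnB⟩ : ∃ n, n = Z5.nB ⟨a, b, c, d⟩ := ⟨_, rfl⟩
  have h1' : (nA : ℝ) + (nB : ℝ) * tr ≤ 13.34 := by rw [hnA, hnB]; exact h1
  have h2' : (nA : ℝ) - (nB : ℝ) * (tr + 1) ≤ 1.62 := by rw [hnA, hnB]; exact h2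
  have h3 : 2 * nA - nB ≤ 14 := by
    have h4 : (2 * nA - nB : ℝ) < 15 := by
      have : (2 * nA - nB : ℝ) = ((nA : ℝ) + (nB : ℝ) * tr) + ((nA : ℝ) - (nB : ℝ) * (tr + 1)) := by
        ring
      rw [this]; linarith
    have h5 : (2 * nA - nB : ℤ) < 15 := by exact_mod_cast h4
    omega
  have h6 : 2 * (2 * nA - nB) = 5 * (a ^ 2 + b ^ 2 + c ^ 2 + d ^ 2) - (a + b + c + d) ^ 2 := by
    rw [hnA, hnB]; simp only [Z5.nA, Z5.nB]; ring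
  have h7 : a ^ 2 + b ^ 2 + c ^ 2 + d ^ 2 ≤ 28 := by
    nlinarith [sq_nonneg (a - b), sq_nonneg (a - c), sq_nonneg (a - d), sq_nonneg (b - c),
      sq_nonneg (b - d), sq_nonneg (c - d)]
  have ha : a ^ 2 ≤ 28 := by nlinarith [sq_nonneg b, sq_nonneg c, sq_nonneg d]
  have hb : b ^ 2 ≤ 28 := by nlinarith [sq_nonneg a, sq_nonneg c, sq_nonneg d]
  have hc : c ^ 2 ≤ 28 := by nlinarith [sq_nonneg a, sq_nonneg b, sq_nonneg d]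
  have hd : d ^ 2 ≤ 28 := by nlinarith [sq_nonneg a, sq_nonneg b, sq_nonneg c]
  have h8 := List.all_eq_true.1 (List.all_eq_true.1 (List.all_eq_true.1
    (List.all_eq_true.1 smallOk_all a (mem_smallRng ha)) b (mem_smallRng hb)) c
      (mem_smallRng hc)) d (mem_smallRng hd)
  have eA : a * a + b * b + c * c + d * d - (a * c + b * d + a * d) = nA := by
    rw [hnA]; simp only [Z5.nA]; ring
  have eB : a * b + b * c + c * d - (a * c + b * d + a * d) = nB := by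
    rw [hnB]; simp only [Z5.nB]
  simp only [smallOk, eA, eB, Bool.or_eq_true, decide_eq_true_eq] at h8
  rcases h8 with (((((h9 | h9) | h9) | h9) | h9) | h9) | h9
  · omega
  · exfalso
    have e1 : (0 : ℝ) ≤ nB := by exact_mod_cast h9.1
    have e2 : (1334000 : ℝ) < 100000 * nA + 61803 * nB := by exact_mod_cast h9.2
    nlinarith
  · exfalso
    have e1 : (0 : ℝ) ≤ nB := by exact_mod_cast h9.1
    have e2 : (1620000 : ℝ) < 1000000 * nA - 1618034 * nB := by exact_mod_cast h9.2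
    nlinarith
  · exfalso
    have e1 : (nB : ℝ) < 0 := by exact_mod_cast h9.1
    have e2 : (13340000 : ℝ) < 1000000 * nA + 618034 * nB := by exact_mod_cast h9.2
    nlinarith
  · exfalso
    have e1 : (nB : ℝ) < 0 := by exact_mod_cast h9.1
    have e2 : (162000 : ℝ) < 100000 * nA - 161803 * nB := by exact_mod_cast h9.2
    nlinarith
  · exact Or.inl h9
  · right
    obtain ⟨t, ht, ht2⟩ := List.any_eq_true.1 h9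
    have h10 := List.all_eq_true.1 smallTab_ok t ht
    rw [decide_eq_true_eq] at ht2 h10
    exact ⟨t.2.1, t.2.2, ht2.trans h10⟩

/-- the values of (nA, nB) on representatives -/
theorem cl_norms : ∀ i, (Z5.nA (cl i), Z5.nB (cl i)) =
    (![(1, 0), (2, 1), (3, 1), (5, 3), (7, 4), (8, 4), (9, 5), (9, 5)] : Fin 8 → ℤ × ℤ) i := by decide

theorem nAB_et (u : ZMod 10) (x : Z5) :
    Z5.nA (et u * x) = Z5.nA x ∧ Z5.nB (et u * x) = Z5.nB x := by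
  have hs : ∀ y : Z5, Z5.nA (Z5.eta * y) = Z5.nA y ∧ Z5.nB (Z5.eta * y) = Z5.nB y := by
    intro y
    constructor
    · simp [Z5.nA, Z5.eta]; ring
    · simp [Z5.nB, Z5.eta]; ring
  unfold et
  induction u.val with
  | zero => simp
  | succ k ih =>
    rw [pow_succ', mul_assoc]
    exact ⟨(hs _).1.trans ih.1, (hs _).2.trans ih.2⟩

theorem nsq_et (u : ZMod 10) (x : Z5) : nsq (et u * x) = nsq x := by
  unfold nsq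
  rw [(nAB_et u x).1, (nAB_et u x).2]

theorem nsq'_et (u : ZMod 10) (x : Z5) : nsq' (et u * x) = nsq' x := by
  unfold nsq'
  rw [(nAB_et u x).1, (nAB_et u x).2]

end W828
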