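import Pool.Agent.W_828d9b_h4.SpecQ
import Pool.Agent.W_828d9b_h4.Pres

/-!
# Faithfulness at w = 0
-/

namespace W828

open Matrix

variable {K : Type*} [Field K]

theorem fa_io_tau (E : ED K) : E.io Z5.tau ^ 2 = 1 - E.io Z5.tau := by
  have h : Z5.tau ^ 2 = 1 - Z5.tau := by decide
  rw [← map_pow, h, map_sub, map_one]

theorem fa_mul_star (x : Z5) : x * star x = (Z5.nA x : Z5) + (Z5.nB x : Z5) * Z5.tau := by
  have hint : ∀ n : ℤ, (n : Z5) = ⟨n, 0, 0, 0⟩ := by
    intro n
    induction n using Int.induction_on with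
    | zero => rw [Int.cast_zero]; rfl
    | succ i ih => rw [Int.cast_add, ih, Int.cast_one]; ext <;> simp
    | pred i ih => rw [Int.cast_sub, ih, Int.cast_one]; ext <;> simp
  rw [Z5.mul_star, hint, hint]
  ext <;> (simp [Z5.tau]; try ring)

/-- Z5 embeds in any field of characteristic zero (a nonzero x divides the nonzero
integer x * sigma_2 x * sigma_3 x * sigma_4 x, Z5 is a domain by Emb). -/
theorem ED.io_injective [CharZero K] (E : ED K) : Function.Injective E.io := by
  rw [injective_iff_map_eq_zero]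
  intro x hx
  have h1 : E.io (x * star x) = 0 := by rw [map_mul, hx, zero_mul]
  rw [fa_mul_star, map_add, map_mul, map_intCast, map_intCast] at h1
  have h2 := fa_io_tau E
  have h3 : ((Z5.nA x ^ 2 - Z5.nA x * Z5.nB x - Z5.nB x ^ 2 : ℤ) : K) = 0 := by
    push_cast
    linear_combination ((Z5.nA x : K) - (Z5.nB x : K) * (E.io Z5.tau + 1)) * h1
      + (Z5.nB x : K) ^ 2 * h2
  have h4 : Z5.nA x ^ 2 - Z5.nA x * Z5.nB x - Z5.nB x ^ 2 = 0 := by exact_mod_cast h3
  have h5 : nsq x * nsq' x = 0 := by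
    have h6 : ((Z5.nA x ^ 2 - Z5.nA x * Z5.nB x - Z5.nB x ^ 2 : ℤ) : ℝ) = 0 := by
      rw [h4, Int.cast_zero]
    push_cast at h6
    have h7 := tr_sq
    unfold nsq nsq'
    linear_combination h6 - (Z5.nB x : ℝ) ^ 2 * h7
  have h8 : nsq x = 0 := by
    rcases mul_eq_zero.1 h5 with h | h
    · exact h
    · have hB : Z5.nB x = 0 := by
        by_contra hB
        have hB' : (Z5.nB x : ℝ) ≠ 0 := by exact_mod_cast hB
        have hirr : Irrational (Real.sqrt 5) := by
          have := Nat.Prime.irrational_sqrt (show Nat.Prime 5 by norm_num)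
          simpa using this
        apply hirr
        refine ⟨((2 * Z5.nA x - Z5.nB x : ℤ) : ℚ) / ((Z5.nB x : ℤ) : ℚ), ?_⟩
        push_cast
        rw [div_eq_iff hB']
        unfold nsq' tr at h
        linear_combination (2 : ℝ) * h
      have hA : Z5.nA x = 0 := by
        unfold nsq' at h
        rw [hB] at h
        simpa using h
      unfold nsq
      rw [hA, hB]
      simp
  have h9 : Complex.normSq (W828.io x) = 0 := by rw [normSq_io, h8]
  have h10 : W828.io x = 0 := Complex.normSq_eq_zero.1 h9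
  exact (injective_iff_map_eq_zero W828.io).1 W828.io_injective x h10

theorem fa_toMat_pow (g : GHat) (n : ℕ) : toMat (g ^ n) = toMat g ^ n := by
  induction n with
  | zero => rw [pow_zero, pow_zero, toMat_one]
  | succ n ih => rw [pow_succ, pow_succ, toMat_mul, ih]

/-- R i has order ten (R 0 is diagonal, the others: matrix computation) -/
theorem R_pow_ten (i : Fin 4) : R i ^ 10 = 1 := by
  apply toMat_injective
  rw [fa_toMat_pow, toMat_one, R, toMat_mkG]
  revert i
  decide +kernel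

theorem fa_sum (f : Fin 6 → K) : ∑ k, f k = ∑ a : Fin 3, f (ix a) + ∑ a : Fin 3, f (jx a) := by
  rw [Fin.sum_univ_six, Fin.sum_univ_three, Fin.sum_univ_three]
  show f 0 + f 1 + f 2 + f 3 + f 4 + f 5 = (f 0 + f 2 + f 4) + (f 1 + f 3 + f 5)
  ring

theorem fa_ix_ne (a b : Fin 3) : ix a ≠ jx b := by
  revert a b
  decide

theorem fa_ix_inj : Function.Injective ix := by
  intro a b
  revert a b
  decide

/-- the property of the blocks -/
def FaP (E : ED K) (x : BP K) (A : Mat) : Prop :=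
  ∀ c : Fin 60, (∀ a b : Fin 3, x.m c (ix a) (jx b) = 0) ∧
    ∃ l : K, l ≠ 0 ∧ (x.m c).submatrix ix ix * (Qm c.val).map E.io =
      l • ((Qm (x.p c).val).map E.io * A.map E.io)

theorem fa_mul (E : ED K) (x y : BP K) (A B : Mat) (hx : FaP E x A) (hy : FaP E y B) :
    FaP E (x * y) (A * B) := by
  intro c
  obtain ⟨h1, l, hl, h2⟩ := hy c
  obtain ⟨h3, k, hk, h4⟩ := hx (y.p c)
  refine ⟨?_, k * l, mul_ne_zero hk hl, ?_⟩
  · intro a b
    rw [BP.mul_m, Matrix.mul_apply, fa_sum]
    have e1 : ∑ i : Fin 3, x.m (y.p c) (ix a) (ix i) * y.m c (ix i) (jx b) = 0 :=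
      Finset.sum_eq_zero fun i _ => by rw [h1, mul_zero]
    have e2 : ∑ i : Fin 3, x.m (y.p c) (ix a) (jx i) * y.m c (jx i) (jx b) = 0 :=
      Finset.sum_eq_zero fun i _ => by rw [h3, zero_mul]
    rw [e1, e2, add_zero]
  · have e3 : ((x * y).m c).submatrix ix ix =
        (x.m (y.p c)).submatrix ix ix * (y.m c).submatrix ix ix := by
      refine Matrix.ext fun a b => ?_
      rw [BP.mul_m, Matrix.submatrix_apply, Matrix.mul_apply, fa_sum, Matrix.mul_apply]
      have e2 : ∑ i : Fin 3, x.m (y.p c) (ix a) (jx i) * y.m c (jx i) (ix b) = 0 :=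
        Finset.sum_eq_zero fun i _ => by rw [h3, zero_mul]
      rw [e2, add_zero]
      rfl
    rw [e3, Matrix.mul_assoc, h2, Matrix.mul_smul, ← Matrix.mul_assoc, h4, Matrix.smul_mul,
      smul_smul, Matrix.mul_assoc, Matrix.map_mul, BP.mul_p, mul_comm l k]

theorem fa_one (E : ED K) : FaP E 1 1 := by
  intro c
  refine ⟨?_, 1, one_ne_zero, ?_⟩
  · intro a b
    rw [BP.one_m]
    exact Matrix.one_apply_ne (fa_ix_ne a b)
  · rw [BP.one_m, Matrix.submatrix_one ix fa_ix_inj, Matrix.one_mul, one_smul, BP.one_p,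
      Matrix.map_one _ E.io.map_zero E.io.map_one, Matrix.mul_one]

theorem fa_scalar (E : ED K) (y : Z5) (hy : E.io y ≠ 0) : FaP E 1 (y • (1 : Mat)) := by
  intro c
  refine ⟨?_, (E.io y)⁻¹, inv_ne_zero hy, ?_⟩
  · intro a b
    rw [BP.one_m]
    exact Matrix.one_apply_ne (fa_ix_ne a b)
  · have e : (y • (1 : Mat)).map E.io = E.io y • (1 : Matrix (Fin 3) (Fin 3) K) := by
      refine Matrix.ext fun a b => ?_
      rw [Matrix.map_apply, Matrix.smul_apply, Matrix.smul_apply, smul_eq_mul, smul_eq_mul,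
        map_mul]
      congr 1
      by_cases h : a = b
      · rw [h, Matrix.one_apply_eq, Matrix.one_apply_eq, map_one]
      · rw [Matrix.one_apply_ne h, Matrix.one_apply_ne h, map_zero]
    rw [BP.one_m, Matrix.submatrix_one ix fa_ix_inj, Matrix.one_mul, BP.one_p, e,
      Matrix.mul_smul, Matrix.mul_one, smul_smul, inv_mul_cancel₀ hy, one_smul]

theorem fa_pow (E : ED K) (x : BP K) (A : Mat) (hx : FaP E x A) (n : ℕ) :
    FaP E (x ^ n) (A ^ n) := by
  induction n with
  | zero => rw [pow_zero, pow_zero]; exact fa_one E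
  | succ n ih => rw [pow_succ, pow_succ]; exact fa_mul E _ _ _ _ ih hx

theorem fa_z_ne (E : ED K) : E.io Z5.zeta ≠ 0 := by
  intro h
  have h1 := congrArg E.io Z5.zeta_rel
  simp only [map_add, map_pow, map_one, map_zero, h] at h1
  norm_num at h1

theorem fa_et_ne (E : ED K) (u : ZMod 10) : E.io (et u) ≠ 0 := by
  intro h
  have h1 : et (-u) * et u = 1 := by rw [← kp_et_add, neg_add_cancel, kp_et_zero]
  have h2 := congrArg E.io h1
  rw [map_mul, h, mul_zero, map_one] at h2
  exact zero_ne_one h2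

theorem fa_sc (u : ZMod 10) : toMat (sc u) = et u • (1 : Mat) := by
  rw [sc, toMat_mkG]
  refine Matrix.ext fun i j => ?_
  fin_cases i <;> fin_cases j <;> simp

theorem fa_quot (E : ED K) (hw : E.w = 0) (F : GHat →* (BP K)ˣ)
    (hF : ∀ i, (F (R i)).val = E.gen i.val) (hsc : ∀ u, F (sc u) = 1) (g : GHat) :
    FaP E (F g).val (toMat g) := by
  have hR : ∀ i, FaP E (F (R i)).val (toMat (R i)) := by
    intro i c
    rw [hF]
    refine ⟨E.odd_w0 hw i c, _, ?_, E.even_w0 hw i c⟩
    rw [map_pow]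
    exact pow_ne_zero _ (fa_z_ne E)
  have hS : ∀ u, FaP E (F (sc u)).val (toMat (sc u)) := by
    intro u
    rw [hsc, Units.val_one, fa_sc]
    exact fa_scalar E _ (fa_et_ne E u)
  have hpow : ∀ x : GHat, FaP E (F x).val (toMat x) → ∀ n : ℕ,
      FaP E (F (x ^ n)).val (toMat (x ^ n)) := by
    intro x hx n
    rw [map_pow, Units.val_pow_eq_pow_val, fa_toMat_pow]
    exact fa_pow E _ _ hx n
  have hg : g ∈ Subgroup.closure (Set.range R ∪ Set.range sc) := by
    rw [gen_GHat]
    trivial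
  induction hg using Subgroup.closure_induction'' with
  | mem x hx =>
    rcases hx with ⟨i, rfl⟩ | ⟨u, rfl⟩
    · exact hR i
    · exact hS u
  | inv_mem x hx =>
    rcases hx with ⟨i, rfl⟩ | ⟨u, rfl⟩
    · have e : (R i)⁻¹ = R i ^ 9 := by
        rw [inv_eq_iff_mul_eq_one, ← pow_succ', R_pow_ten]
      rw [e]
      exact hpow _ (hR i) 9
    · have e : (sc u)⁻¹ = sc (-u) := by
        rw [inv_eq_iff_mul_eq_one, ← sc_add, add_neg_cancel, sc_zero]
      rw [e]
      exact hS _
  | one =>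
    rw [map_one, Units.val_one, toMat_one]
    exact fa_one E
  | mul x y _ _ hx hy =>
    rw [map_mul, Units.val_mul, toMat_mul]
    exact fa_mul E _ _ _ _ hx hy

/-- The relation between the even part of the blocks at w = 0 and the standard
representation: closure induction along gen_GHat (inverses of generators are
positive powers). -/
theorem quot_w0 (E : ED K) (hw : E.w = 0) (F : GHat →* (BP K)ˣ)
    (hF : ∀ i, (F (R i)).val = E.gen i.val) (hsc : ∀ u, F (sc u) = 1) (g : GHat) (c : Fin 60) :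
    (∀ a b : Fin 3, (F g).val.m c (ix a) (jx b) = 0) ∧
    ∃ l : K, l ≠ 0 ∧ ((F g).val.m c).submatrix ix ix * (Qm c.val).map E.io =
      l • ((Qm ((F g).val.p c).val).map E.io * (toMat g).map E.io) :=
  fa_quot E hw F hF hsc g c

theorem fa_box : ∀ a ∈ Finset.Icc (-2 : ℤ) 2, ∀ b ∈ Finset.Icc (-2 : ℤ) 2,
    ∀ c ∈ Finset.Icc (-2 : ℤ) 2, ∀ d ∈ Finset.Icc (-2 : ℤ) 2,
    a ^ 2 + b ^ 2 + c ^ 2 + d ^ 2 - (a * c + b * d + a * d) = 1 →
    a * b + b * c + c * d - (a * c + b * d + a * d) = 0 →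
    ∃ u : ZMod 10, (⟨a, b, c, d⟩ : Z5) = et u := by
  decide +kernel

/-- An element of Z5 with x * star x = 1 is a power of eta (compare KPart). -/
theorem unit_circle (x : Z5) (h : x * star x = 1) : ∃ u : ZMod 10, x = et u := by
  rw [Z5.mul_star] at h
  have hB : Z5.nB x = 0 := by
    have := congrArg Z5.c h
    simpa using this
  have hA : Z5.nA x = 1 := by
    have := congrArg Z5.a h
    simpa [hB] using this
  have h2 : x.a ^ 2 + x.b ^ 2 + x.c ^ 2 + x.d ^ 2 + (x.a - x.b) ^ 2 + (x.a - x.c) ^ 2 +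
      (x.a - x.d) ^ 2 + (x.b - x.c) ^ 2 + (x.b - x.d) ^ 2 + (x.c - x.d) ^ 2 = 4 := by
    unfold Z5.nA at hA
    unfold Z5.nB at hB
    linear_combination 4 * hA - 2 * hB
  have hbd : ∀ t : ℤ, t ^ 2 ≤ 4 → t ∈ Finset.Icc (-2 : ℤ) 2 := by
    intro t ht
    rw [Finset.mem_Icc]
    constructor <;> nlinarith
  have s1 := sq_nonneg x.a
  have s2 := sq_nonneg x.b
  have s3 := sq_nonneg x.c
  have s4 := sq_nonneg x.d
  have s5 := sq_nonneg (x.a - x.b)
  have s6 := sq_nonneg (x.a - x.c)
  have s7 := sq_nonneg (x.a - x.d)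
  have s8 := sq_nonneg (x.b - x.c)
  have s9 := sq_nonneg (x.b - x.d)
  have s10 := sq_nonneg (x.c - x.d)
  exact fa_box x.a (hbd _ (by linarith)) x.b (hbd _ (by linarith)) x.c (hbd _ (by linarith))
    x.d (hbd _ (by linarith)) hA hB

/-- An element of determinant one fixing block 54 whose block at w = 0 is scalar is trivial:
by quot_w0 its matrix is scalar, by unitarity the scalar is a power of eta, whose cube is
the determinant. -/
theorem eq_one_of_scalar [CharZero K] (E : ED K) (hw : E.w = 0) (F : GHat →* (BP K)ˣ)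
    (hF : ∀ i, (F (R i)).val = E.gen i.val) (hsc : ∀ u, F (sc u) = 1) (g : GHat)
    (hdet : (toMat g).det = 1) (hp : (F g).val.p 54 = 54) (a : K)
    (ha : (F g).val.m 54 = a • (1 : Matrix (Fin 6) (Fin 6) K)) : g = 1 := by
  obtain ⟨-, l, hl, h1⟩ := quot_w0 E hw F hF hsc g 54
  rw [hp, ha] at h1
  have hQ := E.Q_mul 54
  have hQ' := mul_eq_one_comm.1 hQ
  -- the matrix is scalar over K
  have h2 : (toMat g).map E.io = (l⁻¹ * a) • (1 : Matrix (Fin 3) (Fin 3) K) := by
    have h3 : (a • (1 : Matrix (Fin 6) (Fin 6) K)).submatrix ix ix =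
        a • (1 : Matrix (Fin 3) (Fin 3) K) := by
      rw [Matrix.submatrix_smul, Pi.smul_apply, Pi.smul_apply, Matrix.submatrix_one ix fa_ix_inj]
    rw [h3, Matrix.smul_mul, Matrix.one_mul] at h1
    have h4 := congrArg (fun M => l⁻¹ • ((Qi (54 : Fin 60).val).map E.io * M)) h1
    simp only [Matrix.mul_smul, smul_smul, inv_mul_cancel₀ hl, one_smul] at h4
    rw [hQ', ← Matrix.mul_assoc, hQ', Matrix.one_mul] at h4
    exact h4.symm
  have h5 : ∀ i j, i ≠ j → toMat g i j = 0 := by
    intro i j hij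
    apply E.io_injective
    have := congrFun (congrFun h2 i) j
    rw [Matrix.map_apply, Matrix.smul_apply, Matrix.one_apply_ne hij, smul_zero] at this
    rw [this, map_zero]
  have h6 : ∀ i, toMat g i i = toMat g 0 0 := by
    intro i
    apply E.io_injective
    have e1 := congrFun (congrFun h2 i) i
    have e2 := congrFun (congrFun h2 0) 0
    rw [Matrix.map_apply, Matrix.smul_apply, Matrix.one_apply_eq] at e1 e2
    rw [e1, e2]
  have h7 : toMat g = toMat g 0 0 • (1 : Mat) := by
    refine Matrix.ext fun i j => ?_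
    by_cases hij : i = j
    · subst hij
      rw [Matrix.smul_apply, Matrix.one_apply_eq, h6 i, smul_eq_mul, mul_one]
    · rw [h5 i j hij, Matrix.smul_apply, Matrix.one_apply_ne hij, smul_zero]
  have h8 : toMat g 0 0 * star (toMat g 0 0) = 1 := by
    have hu := toMat_unitary g
    rw [h7] at hu
    have := congrFun (congrFun hu 0) 0
    simpa [H, Matrix.mul_apply, Fin.sum_univ_three, Matrix.conjTranspose_apply, mul_comm] using this
  obtain ⟨u, hu⟩ := unit_circle _ h8
  rw [hu] at h7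
  have h9 : et u ^ 3 = 1 := by
    rw [h7, Matrix.det_smul, Matrix.det_one, mul_one, Fintype.card_fin] at hdet
    exact hdet
  have h10 : ∀ u : ZMod 10, et u ^ 3 = 1 → u = 0 := by decide +kernel
  rw [h10 u h9, kp_et_zero, one_smul] at h7
  apply toMat_injective
  rw [h7, toMat_one]

end W828
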