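import Mathlib

/-!
# Countable avoidance
-/

namespace W828

open Matrix

/-- Countable avoidance: over a complete nontrivially normed field, a countable family of
nonzero polynomials has a common non-root of norm greater than C. -/
theorem exists_avoid {k : Type*} [NontriviallyNormedField k] [CompleteSpace k]
    {ι : Type*} [Countable ι] (Q : ι → Polynomial k) (hQ : ∀ i, Q i ≠ 0) (C : ℝ) :
    ∃ w : k, C < ‖w‖ ∧ ∀ i, (Q i).eval w ≠ 0 := by
  have hS : (⋃ i, {w : k | (Q i).eval w = 0}).Countable := by
    refine Set.countable_iUnion fun i => Set.Finite.countable ?_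
    refine ((Q i).rootSet_finite k).subset ?_
    intro w hw
    rw [Polynomial.mem_rootSet]
    exact ⟨hQ i, by simpa using hw⟩
  have hd : Dense (⋃ i, {w : k | (Q i).eval w = 0})ᶜ := hS.dense_compl k
  have ho : IsOpen {w : k | C < ‖w‖} := isOpen_lt continuous_const continuous_norm
  have hn : {w : k | C < ‖w‖}.Nonempty := NormedField.exists_lt_norm k C
  obtain ⟨w, hw1, hw2⟩ := hd.inter_open_nonempty _ ho hn
  refine ⟨w, hw1, fun i hi => hw2 ?_⟩
  exact Set.mem_iUnion.2 ⟨i, hi⟩

end W828
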