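import Mathlib

/-!
# Unbounded powers
-/

namespace W828

open Matrix

/-- Powers of an integral p-adic matrix with unit trace have an entry of norm one. -/
theorem entry_norm_one {p : ℕ} [Fact p.Prime] {N : ℕ} (B : Matrix (Fin N) (Fin N) ℤ_[p])
    (hB : ‖B.trace‖ = 1) (n : ℕ) : ∃ i j, ‖(B ^ n) i j‖ = 1 := by
  by_contra hcon
  push Not at hcon
  have hz : ∀ x : ℤ_[p], ‖x‖ ≠ 1 → PadicInt.toZMod x = 0 := by
    intro x hx
    have h1 : x ∈ RingHom.ker (PadicInt.toZMod (p := p)) := by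
      rw [PadicInt.ker_toZMod, IsLocalRing.mem_maximalIdeal, PadicInt.mem_nonunits]
      exact lt_of_le_of_ne (PadicInt.norm_le_one x) hx
    exact h1
  have h1 : ((B.map (PadicInt.toZMod (p := p))) ^ n) = 0 := by
    have h2 : (PadicInt.toZMod (p := p)).mapMatrix (B ^ n) = 0 := by
      ext i j
      simpa using hz _ (hcon i j)
    rw [map_pow] at h2
    exact h2
  have h2 : IsNilpotent (B.map (PadicInt.toZMod (p := p))) := ⟨n, h1⟩
  have h3 := Matrix.isNilpotent_trace_of_isNilpotent h2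
  have h4 : (B.map (PadicInt.toZMod (p := p))).trace = PadicInt.toZMod B.trace := by
    simp [Matrix.trace, map_sum]
  rw [h4] at h3
  have h5 : PadicInt.toZMod B.trace = 0 := h3.eq_zero
  have h6 : B.trace ∈ RingHom.ker (PadicInt.toZMod (p := p)) := h5
  rw [PadicInt.ker_toZMod, IsLocalRing.mem_maximalIdeal, PadicInt.mem_nonunits, hB] at h6
  exact lt_irrefl _ h6

/-- Unboundedness of the powers of N0 + w N1 for |w| > 1 when N1 has unit trace. -/
theorem unbounded_pow {p : ℕ} [Fact p.Prime] {N : ℕ} (N0 N1 : Matrix (Fin N) (Fin N) ℤ_[p])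
    (h1 : ‖N1.trace‖ = 1) (w : ℚ_[p]) (hw : 1 < ‖w‖) (C : ℝ) :
    ∃ n : ℕ, ∃ i j, C < ‖((N0.map (fun x => (x : ℚ_[p])) +
      w • N1.map (fun x => (x : ℚ_[p]))) ^ n) i j‖ := by
  have hw0 : w ≠ 0 := by
    rintro rfl
    rw [norm_zero] at hw
    linarith
  have hu : ‖w⁻¹‖ < 1 := by
    rw [norm_inv]
    exact inv_lt_one_of_one_lt₀ hw
  let u : ℤ_[p] := ⟨w⁻¹, hu.le⟩
  have hun : ‖u‖ < 1 := hu
  have htr : ‖(N1 + u • N0).trace‖ = 1 := by
    rw [Matrix.trace_add, Matrix.trace_smul, smul_eq_mul]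
    have h2 : ‖u * N0.trace‖ < ‖N1.trace‖ := by
      rw [h1, norm_mul]
      have h3 := PadicInt.norm_le_one N0.trace
      have h4 := norm_nonneg u
      nlinarith [norm_nonneg N0.trace]
    rw [PadicInt.norm_add_eq_max_of_ne h2.ne', max_eq_left h2.le, h1]
  obtain ⟨n, hn⟩ := pow_unbounded_of_one_lt C hw
  obtain ⟨i, j, hij⟩ := entry_norm_one (N1 + u • N0) htr n
  refine ⟨n, i, j, ?_⟩
  have h2 : N0.map (fun x => (x : ℚ_[p])) + w • N1.map (fun x => (x : ℚ_[p])) =
      w • (PadicInt.Coe.ringHom (p := p)).mapMatrix (N1 + u • N0) := by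
    ext a b
    simp only [Matrix.add_apply, Matrix.smul_apply, Matrix.map_apply, smul_eq_mul,
      RingHom.mapMatrix_apply]
    have h3 : (PadicInt.Coe.ringHom (p := p)) (N1 a b + u * N0 a b) =
        (N1 a b : ℚ_[p]) + w⁻¹ * (N0 a b : ℚ_[p]) := by
      rw [map_add, map_mul]
      rfl
    rw [h3]
    field_simp
    ring
  rw [h2, smul_pow, ← map_pow, Matrix.smul_apply, smul_eq_mul, norm_mul, norm_pow]
  have h4 : ‖((PadicInt.Coe.ringHom (p := p)).mapMatrix ((N1 + u • N0) ^ n)) i j‖ = 1 := hij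
  rw [h4, mul_one]
  exact hn

end W828
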