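import Pool.Agent.W_828d9b_h4.Root11
import Pool.Agent.W_828d9b_h4.DensData
import Pool.Agent.W_828d9b_h4.GenC
import Pool.Agent.W_828d9b_h4.Faith

/-!
# Unboundedness
-/

namespace W828
open Matrix Polynomial

/-- the coefficient matrices of the word wV -/
def NV (k : ℕ) : Matrix (Fin 6) (Fin 6) Z5 :=
  fun i j => ((colV.getD j.val []).getD i.val []).getD k 0

theorem trace_NV : (NV 1).trace = ⟨-8, -6, -4, -2⟩ := by decide +kernel

theorem St_of (i : Fin 4) (h : (runB (List.replicate 2 i.val) 54 [] 0).1 = 54) : R i ^ 2 ∈ St := by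
  rw [mem_St, map_pow, P0_R, Units.val_pow_eq_pow_val, ED.s_val, ← ED.word_replicate]
  apply Fin.ext
  rw [(E0.run_sound _ 54 [] 0).1]
  exact h

theorem comm_wV : (P0 ((R 3 ^ 2)⁻¹ * (R 2 ^ 2)⁻¹ * R 3 ^ 2 * R 2 ^ 2)).val = E0.word wV := by
  have h8 : ∀ i, (R i ^ 2)⁻¹ = R i ^ 8 := by
    intro i
    rw [inv_eq_iff_mul_eq_one, ← pow_add]
    exact R_pow_ten i
  rw [h8, h8]
  rw [map_mul, map_mul, map_mul, map_pow, map_pow, map_pow, map_pow, P0_R, P0_R, Units.val_mul, Units.val_mul, Units.val_mul,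
    Units.val_pow_eq_pow_val, Units.val_pow_eq_pow_val, Units.val_pow_eq_pow_val, Units.val_pow_eq_pow_val, ED.s_val, ED.s_val]
  have hw : wV = List.replicate 2 2 ++ (List.replicate 2 3 ++ (List.replicate 8 2 ++
    List.replicate 8 3)) := by decide
  rw [hw, ED.word_append, ED.word_append, ED.word_append, ED.word_replicate,
    ED.word_replicate, ED.word_replicate, ED.word_replicate]
  rfl

theorem run2 : (runB (List.replicate 2 2) 54 [] 0).1 = 54 := by decide +kernel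
theorem run3 : (runB (List.replicate 2 3) 54 [] 0).1 = 54 := by decide +kernel

theorem mem_wV : (R 3 ^ 2)⁻¹ * (R 2 ^ 2)⁻¹ * R 3 ^ 2 * R 2 ^ 2 ∈ Gam0 :=
  comm_mem _ _ (St_of 3 run3) (St_of 2 run2)

/-- the word wV = [2,2,3,3,2^8,3^8] as an element of Gam0 (a commutator, R i ^ 10 = 1) -/
theorem wV_mem : ∃ γ : Gam0, (P0 γ.1).val = E0.word wV := ⟨⟨_, mem_wV⟩, comm_wV⟩

theorem len_V : ∀ j < 6, ∀ i < 6, ((colV.getD j []).getD i []).length ≤ 2 := by decide +kernel

theorem pz_two (E : ED (ℤ_[11])[X]) (p : PZ) (hp : p.length ≤ 2) :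
    E.pz p = E.io (p.getD 0 0) + E.w * E.io (p.getD 1 0) := by
  match p, hp with
  | [], _ => simp [ED.pz]
  | [a], _ => simp [ED.pz]
  | [a, b], _ => simp [ED.pz]
  | a :: b :: c :: p, h => simp at h

/-- values in the 11-adic integers -/
noncomputable def io11 : Z5 →+* ℤ_[11] := Z5.lift z11 z11_spec

theorem io_E0 (x : Z5) : E0.io x = C (io11 x) := by
  have h1 : E0.io x = (x.a : (ℤ_[11])[X]) + x.b * C z11 + x.c * C z11 ^ 2 + x.d * C z11 ^ 3 := rfl
  have h2 : io11 x = (x.a : ℤ_[11]) + x.b * z11 + x.c * z11 ^ 2 + x.d * z11 ^ 3 := rfl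
  rw [h1, h2]
  simp

theorem block_wV (i j : Fin 6) : (E0.word wV).m 54 i j =
    C (io11 (NV 0 i j)) + Polynomial.X * C (io11 (NV 1 i j)) := by
  have h := (E0.chkW_sound wV 54 54 0 colV chkV).2 i j
  rw [pow_zero, one_mul] at h
  rw [h, pz_two E0 _ (len_V j.val j.isLt i.val i.isLt), io_E0, io_E0]
  rfl

theorem unit_trace : ‖((NV 1).map io11).trace‖ = 1 := by
  have h1 : ((NV 1).map io11).trace = io11 ⟨-8, -6, -4, -2⟩ := by
    rw [← trace_NV, Matrix.trace, Matrix.trace, map_sum]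
    rfl
  have h2 : (⟨-8, -6, -4, -2⟩ : Z5) * (1 - Z5.zeta) = -10 := by decide
  have h3 : io11 ⟨-8, -6, -4, -2⟩ * io11 (1 - Z5.zeta) = -10 := by
    rw [← map_mul, h2, map_neg, map_ofNat]
  rw [h1]
  have h4 : ‖(-10 : ℤ_[11])‖ = 1 := by
    rw [norm_neg]
    have h5 : ‖((10 : ℕ) : ℤ_[11])‖ = 1 := by
      rw [PadicInt.norm_natCast_eq_one_iff]
      norm_num
    exact_mod_cast h5
  have h6 := congrArg norm h3
  rw [norm_mul, h4] at h6
  have h7 := PadicInt.norm_le_one (io11 ⟨-8, -6, -4, -2⟩)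
  have h8 := PadicInt.norm_le_one (io11 (1 - Z5.zeta))
  have h9 := norm_nonneg (io11 ⟨-8, -6, -4, -2⟩)
  nlinarith [norm_nonneg (io11 (1 - Z5.zeta))]

/-- powers of the element of the word wV; its block is N0 + X N1 by chkV -/
theorem unb (w : ℚ_[11]) (hw : 1 < ‖w‖) (C : ℝ) :
    ∃ γ : Gam0, ∃ i j, C < ‖((AX γ).map (Polynomial.eval w)) i j‖ := by
  obtain ⟨γ, hγ⟩ := wV_mem
  obtain ⟨n, i, j, h⟩ := unbounded_pow ((NV 0).map io11) ((NV 1).map io11) unit_trace w hw C
  refine ⟨γ ^ n, i, j, ?_⟩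
  have h1 : (AX (γ ^ n)).map (Polynomial.eval w) = ((AX γ).map (Polynomial.eval w)) ^ n := by
    rw [← rhoW_apply, ← rhoW_apply, map_pow]
    rfl
  have h2 : (AX γ).map (Polynomial.eval w) = ((NV 0).map io11).map (fun x => (x : ℚ_[11])) +
      w • ((NV 1).map io11).map (fun x => (x : ℚ_[11])) := by
    ext a b
    show Polynomial.eval w (toQ ((P0 γ.1).val.m 54 a b)) = _
    rw [hγ, block_wV]
    have e1 : ∀ y : ℤ_[11], Polynomial.eval w (toQ (Polynomial.C y)) = (y : ℚ_[11]) := by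
      intro y
      show Polynomial.eval w ((Polynomial.C y).map (PadicInt.Coe.ringHom (p := 11))) = _
      rw [Polynomial.map_C, Polynomial.eval_C]
      rfl
    have e2 : Polynomial.eval w (toQ Polynomial.X) = w := by
      show Polynomial.eval w ((Polynomial.X).map (PadicInt.Coe.ringHom (p := 11))) = _
      rw [Polynomial.map_X, Polynomial.eval_X]
    rw [map_add, map_mul, Polynomial.eval_add, Polynomial.eval_mul, e1, e1, e2]
    rfl
  rw [h1, h2]
  exact h
end W828
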