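import Pool.Agent.W_828d9b_h4.Coc
import Pool.Agent.W_828d9b_h4.DensZ
import Pool.Agent.W_828d9b_h4.Unb
import Pool.Agent.W_828d9b_h4.Faith
import Pool.Agent.W_828d9b_h4.GenA

/-!
# Assembly
-/

namespace W828

open Matrix Polynomial

instance : Countable Z5 :=
  Function.Injective.countable (f := fun x : Z5 => (x.a, x.b, x.c, x.d)) (by
    intro x y h
    simp only [Prod.mk.injEq] at h
    exact Z5.ext h.1 h.2.1 h.2.2.1 h.2.2.2)

instance : Countable Mat := by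
  unfold Mat Matrix
  infer_instance

instance : Countable GHat := toMat_injective.countable

/-- the evaluation data over the field at w -/
noncomputable def EQ (w : ℚ_[11]) : ED ℚ_[11] := E0.map ((evalRingHom w).comp toQ)

theorem EQ_w (w : ℚ_[11]) : (EQ w).w = w := by
  show (Polynomial.X.map (PadicInt.Coe.ringHom (p := 11))).eval w = w
  rw [Polynomial.map_X, Polynomial.eval_X]

/-- the block monomial representation at w over the field -/
noncomputable def PQ (w : ℚ_[11]) : GHat →* (BP ℚ_[11])ˣ :=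
  (Units.map (BP.map ((evalRingHom w).comp toQ))).comp P0

theorem PQ_R (w : ℚ_[11]) (i : Fin 4) : (PQ w (R i)).val = (EQ w).gen i.val := by
  show BP.map ((evalRingHom w).comp toQ) (P0 (R i)).val = _
  rw [P0_R, ED.s_val, EQ, ED.map_gen]

theorem PQ_sc (w : ℚ_[11]) (u : ZMod 10) : PQ w (sc u) = 1 := by
  show Units.map _ (P0 (sc u)) = 1
  rw [P0_sc, map_one]

theorem PQ_block (w : ℚ_[11]) (γ : Gam0) :
    (PQ w γ.1).val.m 54 = (AX γ).map (Polynomial.eval w) := rfl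

theorem PQ_p (w : ℚ_[11]) (γ : Gam0) : (PQ w γ.1).val.p 54 = 54 := γ.2.2.1

/-- a nontrivial element is scalar only at finitely many parameters -/
theorem exists_bad (γ : Gam0) (hγ : γ ≠ 1) : ∃ Q : (ℚ_[11])[X], Q ≠ 0 ∧ ∀ w : ℚ_[11],
    (∃ a : ℚ_[11], (AX γ).map (Polynomial.eval w) = a • (1 : Matrix (Fin 6) (Fin 6) ℚ_[11])) →
      Q.eval w = 0 := by
  by_contra hcon
  push Not at hcon
  have hoff : ∀ i j, i ≠ j → AX γ i j = 0 := by
    intro i j hij
    by_contra h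
    obtain ⟨w, ⟨a, ha⟩, hw⟩ := hcon _ h
    apply hw
    have h1 := congrFun (congrFun ha i) j
    simpa [hij] using h1
  have hdiag : ∀ i, AX γ i i = AX γ 0 0 := by
    intro i
    by_contra h
    obtain ⟨w, ⟨a, ha⟩, hw⟩ := hcon _ (sub_ne_zero.2 h)
    apply hw
    have h1 := congrFun (congrFun ha i) i
    have h2 := congrFun (congrFun ha 0) 0
    simp only [Matrix.map_apply, Matrix.smul_apply, Matrix.one_apply_eq, smul_eq_mul,
      mul_one] at h1 h2
    rw [Polynomial.eval_sub, h1, h2, sub_self]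
  apply hγ
  apply Subtype.ext
  refine eq_one_of_scalar (EQ 0) (EQ_w 0) (PQ 0) (PQ_R 0) (PQ_sc 0) γ.1 γ.2.1 (PQ_p 0 γ)
    ((AX γ 0 0).eval 0) ?_
  rw [PQ_block]
  ext i j
  rcases eq_or_ne i j with rfl | hij
  · simp only [Matrix.map_apply, Matrix.smul_apply, Matrix.one_apply_eq, smul_eq_mul, mul_one]
    rw [hdiag]
  · simp [hoff i j hij, hij]

/-- the choice of the parameter -/
theorem exists_w : ∃ w : ℚ_[11], 1 < ‖w‖ ∧
    ZDense (fun γ : Gam0 => (AX γ).map (Polynomial.eval w)) ∧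
    ∀ γ : Gam0, (∃ a : ℚ_[11], (AX γ).map (Polynomial.eval w) =
      a • (1 : Matrix (Fin 6) (Fin 6) ℚ_[11])) → γ = 1 := by
  classical
  obtain ⟨D, hD, hDz⟩ := density_transfer AX AX_det 1 zdense_one
  choose Q hQ hQw using exists_bad
  let fam : ℕ ⊕ {γ : Gam0 // γ ≠ 1} → (ℚ_[11])[X] := Sum.elim D (fun γ => Q γ.1 γ.2)
  obtain ⟨w, hw, hfam⟩ := exists_avoid fam (by
    rintro (d | γ)
    · exact hD d
    · exact hQ γ.1 γ.2) 1
  refine ⟨w, hw, hDz w (fun d => hfam (Sum.inl d)), ?_⟩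
  intro γ hγ
  by_contra h
  exact hfam (Sum.inr ⟨γ, h⟩) (hQw γ h w hγ)

/-- the lattice -/
noncomputable def Lat : Subgroup (SUn 2) := (Gam0.subgroupOf SG).map psi

noncomputable def eLat : Lat ≃* Gam0 :=
  ((Gam0.subgroupOf SG).equivMapOfInjective psi psi_injective).symm.trans
    (Subgroup.subgroupOfEquivOfLe Gam0_le_SG)

theorem Lat_discrete : DiscreteTopology Lat := by
  apply discrete_of_le
  rintro _ ⟨g, _, rfl⟩
  exact ⟨g, rfl⟩

theorem Lat_cocompact : ∃ C : Set (SUn 2), IsCompact C ∧ ∀ x : SUn 2, ∃ γ ∈ Lat, γ * x ∈ C := by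
  obtain ⟨T, hTS, hT⟩ := finite_cosets
  obtain ⟨C, hC, h⟩ := cocompact Gam0 T hTS hT
  refine ⟨C, hC, fun x => ?_⟩
  obtain ⟨γ, hγ, hx⟩ := h x
  exact ⟨psi γ, ⟨γ, hγ, rfl⟩, hx⟩

/-- the image is not contained in a compact set -/
theorem not_compact (w : ℚ_[11]) (hw : 1 < ‖w‖) :
    ¬ ∃ C : Set (SpecialLinearGroup (Fin 6) ℚ_[11]), IsCompact C ∧ ∀ γ : Gam0, rhoW w γ ∈ C := by
  rintro ⟨C, hC, h⟩
  have hbd : ∀ i j : Fin 6, ∃ B : ℝ, ∀ g ∈ C, ‖(g : Matrix (Fin 6) (Fin 6) ℚ_[11]) i j‖ ≤ B := by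
    intro i j
    have hcont : Continuous (fun g : SpecialLinearGroup (Fin 6) ℚ_[11] =>
        ‖(g : Matrix (Fin 6) (Fin 6) ℚ_[11]) i j‖) := by
      have h1 : Continuous (fun g : SpecialLinearGroup (Fin 6) ℚ_[11] =>
        (g : Matrix (Fin 6) (Fin 6) ℚ_[11])) := continuous_subtype_val
      exact (h1.matrix_elem i j).norm
    obtain ⟨B, hB⟩ := (hC.image hcont).bddAbove
    exact ⟨B, fun g hg => hB ⟨g, hg, rfl⟩⟩
  choose B hB using hbd
  obtain ⟨γ, i, j, hij⟩ := unb w hw (∑ i, ∑ j, |B i j|)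
  have h1 := hB i j (rhoW w γ) (h γ)
  rw [rhoW_apply] at h1
  have h2 : |B i j| ≤ ∑ i, ∑ j, |B i j| :=
    (Finset.single_le_sum (f := fun j => |B i j|) (fun _ _ => abs_nonneg _)
      (Finset.mem_univ j)).trans
      (Finset.single_le_sum (f := fun i => ∑ j, |B i j|)
        (fun _ _ => Finset.sum_nonneg fun _ _ => abs_nonneg _) (Finset.mem_univ i))
  have h3 := le_abs_self (B i j)
  linarith

/-- The main theorem. -/
theorem main : ∃ (Γ : Subgroup (SU 2)) (ρ : Γ →* SLQ 6 11),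
    IsCocompactLattice Γ ∧ Faithful ρ ∧ ZariskiDense ρ ∧ ¬ RelativelyCompact ρ := by
  obtain ⟨w, hw, hd, hf⟩ := exists_w
  let ρ : Lat →* SpecialLinearGroup (Fin 6) ℚ_[11] := (rhoW w).comp eLat.toMonoidHom
  have hscal : ∀ γ : Lat, IsScalarMat ((ρ γ : SpecialLinearGroup (Fin 6) ℚ_[11]) :
      Matrix (Fin 6) (Fin 6) ℚ_[11]) → γ = 1 := by
    rintro γ ⟨a, ha⟩
    have h1 := hf (eLat γ) ⟨a, by rw [← rhoW_apply]; exact ha⟩
    rwa [EmbeddingLike.map_eq_one_iff] at h1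
  refine ⟨(Lat : Subgroup (SUn 2)), (ρ : Lat →* SpecialLinearGroup (Fin 6) ℚ_[11]),
    ⟨Lat_discrete, ?_⟩, ⟨?_, hscal⟩, ?_, ?_⟩
  · obtain ⟨C, hC, h2⟩ := Lat_cocompact
    have hcont : Continuous (fun x : SUn 2 => (QuotientGroup.mk (x⁻¹) : SUn 2 ⧸ Lat)) :=
      QuotientGroup.continuous_mk.comp continuous_inv
    have himg : (fun x : SUn 2 => (QuotientGroup.mk (x⁻¹) : SUn 2 ⧸ Lat)) '' C = Set.univ := by
      rw [Set.eq_univ_iff_forall]
      intro y
      obtain ⟨g, rfl⟩ := QuotientGroup.mk_surjective y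
      obtain ⟨γ, hγ, hx⟩ := h2 g⁻¹
      refine ⟨γ * g⁻¹, hx, ?_⟩
      show (QuotientGroup.mk ((γ * g⁻¹)⁻¹) : SUn 2 ⧸ Lat) = QuotientGroup.mk g
      rw [QuotientGroup.eq]
      have h7 : ((γ * g⁻¹)⁻¹)⁻¹ * g = γ := by group
      rw [h7]
      exact hγ
    have hc : CompactSpace (SUn 2 ⧸ Lat) := by
      rw [← isCompact_univ_iff, ← himg]
      exact hC.image hcont
    exact hc
  · have hinj : Function.Injective ρ := by
      rw [injective_iff_map_eq_one]
      intro γ hγ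
      apply hscal γ
      exact ⟨1, by rw [hγ, one_smul]; rfl⟩
    exact hinj
  · intro f hfz h
    refine hd f (fun γ => ?_) h
    have h1 := hfz (eLat.symm γ)
    have h2 : ρ (eLat.symm γ) = rhoW w γ := by simp [ρ]
    have h3 : entryEval ((ρ (eLat.symm γ) : SpecialLinearGroup (Fin 6) ℚ_[11]) :
      Matrix (Fin 6) (Fin 6) ℚ_[11]) f = 0 := h1
    rw [h2, rhoW_apply] at h3
    exact h3
  · rintro ⟨C, hC, h⟩
    refine not_compact w hw ⟨C, hC, fun γ => ?_⟩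
    have h2 : ρ (eLat.symm γ) = rhoW w γ := by simp [ρ]
    have h1 : ρ (eLat.symm γ) ∈ (C : Set (SpecialLinearGroup (Fin 6) ℚ_[11])) :=
      h (eLat.symm γ)
    rw [h2] at h1
    exact h1

end W828
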