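import Mathlib

namespace W828

/-- axiom rules, newest first -/
def kbAx : List (List ℕ × List ℕ) :=
  [([0,2,0,2,0,2],[6,6]),
   ([4,6,4,6,4,6],[0,0]),
   ([2,6],[6,2]),
   ([0,6],[6,0]),
   ([0,4],[4,0]),
   ([4,6,4],[6,4,6]),
   ([2,4,2],[4,2,4]),
   ([0,2,0],[2,0,2]),
   ([7,6],[]),
   ([6,7],[]),
   ([5,4],[]),
   ([4,5],[]),
   ([3,2],[]),
   ([2,3],[]),
   ([1,0],[]),
   ([0,1],[])]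

def kbR0 : List (List ℕ × List ℕ × List ℕ × List (ℕ × ℕ) × List (ℕ × ℕ)) :=
  [([0,1],[],[0,1],[],[(0,15)]),
   ([1,0],[],[1,0],[],[(0,15)]),
   ([2,3],[],[2,3],[],[(0,15)]),
   ([3,2],[],[3,2],[],[(0,15)]),
   ([4,5],[],[4,5],[],[(0,15)]),
   ([5,4],[],[5,4],[],[(0,15)]),
   ([6,7],[],[6,7],[],[(0,15)]),
   ([7,6],[],[7,6],[],[(0,15)]),
   ([4,0],[0,4],[0,4],[(0,12)],[]),
   ([6,0],[0,6],[0,6],[(0,12)],[]),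
   ([6,2],[2,6],[2,6],[(0,12)],[]),
   ([0,4,1],[4],[4,0,1],[(0,2)],[(1,10)]),
   ([5,0,4],[0],[5,4,0],[(1,3)],[(0,6)]),
   ([0,6,1],[6],[6,0,1],[(0,3)],[(1,12)]),
   ([7,0,6],[0],[7,6,0],[(1,4)],[(0,6)]),
   ([2,6,3],[6],[6,2,3],[(0,4)],[(1,12)]),
   ([7,2,6],[2],[7,6,2],[(1,5)],[(0,8)]),
   ([4,1],[1,4],[1,0,4,1],[(0,15)],[(1,5)]),
   ([5,0],[0,5],[5,0,4,5],[(2,13)],[(0,5)]),
   ([6,1],[1,6],[1,0,6,1],[(0,17)],[(1,5)]),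
   ([7,0],[0,7],[7,0,6,7],[(2,13)],[(0,5)]),
   ([6,3],[3,6],[3,2,6,3],[(0,17)],[(1,5)]),
   ([7,2],[2,7],[7,2,6,7],[(2,15)],[(0,5)]),
   ([5,1,4],[1],[5,4,1],[(1,5)],[(0,17)]),
   ([7,1,6],[1],[7,6,1],[(1,4)],[(0,16)]),
   ([7,3,6],[3],[7,6,3],[(1,3)],[(0,17)]),
   ([5,1],[1,5],[5,1,4,5],[(2,21)],[(0,2)]),
   ([7,1],[1,7],[7,1,6,7],[(2,20)],[(0,2)]),
   ([7,3],[3,7],[7,3,6,7],[(2,21)],[(0,2)]),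
   ([2,0,2],[0,2,0],[0,2,0],[(0,36)],[]),
   ([4,2,4],[2,4,2],[2,4,2],[(0,36)],[]),
   ([6,4,6],[4,6,4],[4,6,4],[(0,36)],[]),
   ([0,2,0,3],[2,0],[2,0,2,3],[(0,2)],[(2,29)]),
   ([3,0,2,0],[0,2],[3,2,0,2],[(1,3)],[(0,29)]),
   ([2,4,2,5],[4,2],[4,2,4,5],[(0,3)],[(2,29)]),
   ([5,2,4,2],[2,4],[5,4,2,4],[(1,4)],[(0,29)]),
   ([4,6,4,7],[6,4],[6,4,6,7],[(0,4)],[(2,29)]),
   ([7,4,6,4],[4,6],[7,6,4,6],[(1,5)],[(0,29)]),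
   ([2,0,3],[1,2,0],[1,0,2,0,3],[(0,36)],[(1,5)]),
   ([3,0,2],[0,2,1],[3,0,2,0,1],[(3,38)],[(0,5)]),
   ([4,2,5],[3,4,2],[3,2,4,2,5],[(0,36)],[(1,5)]),
   ([5,2,4],[2,4,3],[5,2,4,2,3],[(3,38)],[(0,5)]),
   ([6,4,7],[5,6,4],[5,4,6,4,7],[(0,36)],[(1,5)]),
   ([7,4,6],[4,6,5],[7,4,6,4,5],[(3,38)],[(0,5)]),
   ([3,1,2,0],[0,3],[3,2,0,3],[(1,5)],[(0,40)]),
   ([0,2,1,3],[3,0],[3,0,2,3],[(0,5)],[(2,42)]),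
   ([5,3,4,2],[2,5],[5,4,2,5],[(1,5)],[(0,40)]),
   ([2,4,3,5],[5,2],[5,2,4,5],[(0,5)],[(2,42)]),
   ([7,5,6,4],[4,7],[7,6,4,7],[(1,5)],[(0,40)]),
   ([4,6,5,7],[7,4],[7,4,6,7],[(0,5)],[(2,42)])]

def kbR1 : List (List ℕ × List ℕ × List ℕ × List (ℕ × ℕ) × List (ℕ × ℕ)) :=
  [([3,1,2],[0,3,1],[3,1,2,0,1],[(3,49)],[(0,5)]),
   ([2,1,3],[1,3,0],[1,0,2,1,3],[(0,49)],[(1,5)]),
   ([5,3,4],[2,5,3],[5,3,4,2,3],[(3,49)],[(0,5)]),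
   ([4,3,5],[3,5,2],[3,2,4,3,5],[(0,49)],[(1,5)]),
   ([7,5,6],[4,7,5],[7,5,6,4,5],[(3,49)],[(0,5)]),
   ([6,5,7],[5,7,4],[5,4,6,5,7],[(0,49)],[(1,5)]),
   ([0,3,1,3],[3,1],[3,1,2,3],[(0,5)],[(2,53)]),
   ([2,5,3,5],[5,3],[5,3,4,5],[(0,4)],[(2,52)]),
   ([4,7,5,7],[7,5],[7,5,6,7],[(0,3)],[(2,51)]),
   ([3,1,3],[1,3,1],[1,0,3,1,3],[(0,57)],[(1,2)]),
   ([5,3,5],[3,5,3],[3,2,5,3,5],[(0,56)],[(1,2)]),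
   ([7,5,7],[5,7,5],[5,4,7,5,7],[(0,55)],[(1,2)]),
   ([4,4,6,4,4,6],[0,0],[4,6,4,6,4,6],[(1,30)],[(0,63)]),
   ([0,0,2,0,0,2],[6,6],[0,2,0,2,0,2],[(1,33)],[(0,63)]),
   ([4,2,0,4],[2,4,2,0],[4,2,4,0],[(2,55)],[(0,33)]),
   ([4,2,1,4],[2,4,2,1],[4,2,4,1],[(2,47)],[(0,34)]),
   ([6,4,2,6],[4,6,4,2],[6,4,6,2],[(2,55)],[(0,34)]),
   ([0,2,0,0,3],[2,2,0],[2,0,2,0,3],[(0,37)],[(1,34)]),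
   ([3,0,0,2,0],[0,2,2],[3,0,2,0,2],[(2,38)],[(0,34)]),
   ([2,4,2,0,5],[4,2,0],[2,4,2,5,0],[(3,50)],[(0,34)]),
   ([2,4,2,2,5],[4,4,2],[4,2,4,2,5],[(0,39)],[(1,35)]),
   ([5,2,2,4,2],[2,4,4],[5,2,4,2,4],[(2,40)],[(0,35)]),
   ([4,6,4,2,7],[6,4,2],[4,6,4,7,2],[(3,49)],[(0,35)]),
   ([4,6,4,4,7],[6,6,4],[6,4,6,4,7],[(0,41)],[(1,36)]),
   ([7,4,4,6,4],[4,6,6],[7,4,6,4,6],[(2,42)],[(0,36)]),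
   ([5,2,0,4],[2,4,3,0],[5,2,4,0],[(2,66)],[(0,33)]),
   ([5,2,1,4],[2,4,3,1],[5,2,4,1],[(2,58)],[(0,34)]),
   ([6,4,2,7],[5,6,4,2],[6,4,7,2],[(2,54)],[(0,34)]),
   ([7,4,3,6],[4,6,5,3],[7,4,6,3],[(2,56)],[(0,34)]),
   ([3,1,1,2,0],[0,3,3],[3,1,2,0,3],[(2,40)],[(0,34)]),
   ([0,2,1,1,3],[3,3,0],[3,0,2,1,3],[(0,40)],[(1,34)]),
   ([5,3,3,4,2],[2,5,5],[5,3,4,2,5],[(2,40)],[(0,34)]),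
   ([2,4,3,3,5],[5,5,2],[5,2,4,3,5],[(0,40)],[(1,34)]),
   ([5,3,0,4],[2,5,3,0],[5,3,4,0],[(2,74)],[(0,30)]),
   ([5,3,1,4],[2,5,3,1],[5,3,4,1],[(2,66)],[(0,31)]),
   ([7,5,2,6],[4,7,5,2],[7,5,6,2],[(2,74)],[(0,30)]),
   ([6,5,2,7],[5,7,4,2],[6,5,7,2],[(2,63)],[(0,30)]),
   ([5,3,1,5],[3,5,3,1],[5,3,5,1],[(2,60)],[(0,26)]),
   ([7,5,2,7],[5,7,5,2],[7,5,7,2],[(2,65)],[(0,26)]),
   ([7,5,3,7],[5,7,5,3],[7,5,7,3],[(2,60)],[(0,27)]),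
   ([4,6,4,4,6],[0,0,5],[5,4,4,6,4,4,6],[(0,84)],[(1,27),(0,71),(1,71)]),
   ([4,4,6,4,4],[0,0,7],[4,4,6,4,4,6,7],[(5,84)],[(0,28)]),
   ([0,2,0,0,2],[1,6,6],[1,0,0,2,0,0,2],[(0,90)],[(1,28)]),
   ([0,0,2,0,0],[3,6,6],[0,0,2,0,0,2,3],[(5,90)],[(0,29),(1,71),(0,71)]),
   ([2,0,0,3],[1,2,2,0],[1,0,2,0,0,3],[(0,92)],[(1,26)]),
   ([3,0,0,2],[0,2,2,1],[3,0,0,2,0,1],[(4,94)],[(0,26)]),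
   ([4,2,2,5],[3,4,4,2],[3,2,4,2,2,5],[(0,92)],[(1,25)]),
   ([5,2,2,4],[2,4,4,3],[5,2,2,4,2,3],[(4,94)],[(0,25)]),
   ([6,4,4,7],[5,6,6,4],[5,4,6,4,4,7],[(0,92)],[(1,24)]),
   ([7,4,4,6],[4,6,6,5],[7,4,4,6,4,5],[(4,94)],[(0,24)])]

def kbR2 : List (List ℕ × List ℕ × List ℕ × List (ℕ × ℕ) × List (ℕ × ℕ)) :=
  [([3,1,1,2],[0,3,3,1],[3,1,1,2,0,1],[(4,99)],[(0,20)]),
   ([2,1,1,3],[1,3,3,0],[1,0,2,1,1,3],[(0,99)],[(1,20)]),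
   ([5,3,3,4],[2,5,5,3],[5,3,3,4,2,3],[(4,99)],[(0,20)]),
   ([4,3,3,5],[3,5,5,2],[3,2,4,3,3,5],[(0,99)],[(1,20)]),
   ([6,4,4,6],[0,0,5,5],[5,4,6,4,4,6],[(0,98)],[(1,13),(0,85),(1,85)]),
   ([4,6,4,4],[0,0,5,7],[4,6,4,4,6,7],[(4,98)],[(0,14)]),
   ([4,4,6,4],[0,0,7,5],[4,4,6,4,4,5],[(4,101)],[(0,14)]),
   ([4,6,6,4],[0,0,7,7],[4,4,6,4,4,7],[(1,33)],[(0,15)]),
   ([2,0,0,2],[1,1,6,6],[1,0,2,0,0,2],[(0,106)],[(1,15)]),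
   ([1,3,6,6],[0,2,0,0],[0,2,0,0,2,3],[(0,16),(2,87),(1,87)],[(4,106)]),
   ([3,1,6,6],[0,0,2,0],[0,0,2,0,0,1],[(0,16),(2,90),(1,90)],[(4,109)]),
   ([3,3,6,6],[0,2,2,0],[0,0,2,0,0,3],[(0,17),(2,89),(1,89)],[(1,43)]),
   ([0,0,5,7,7],[6,6,4],[4,6,4,4,7],[(0,6)],[(0,38)]),
   ([0,0,7,5,5],[4,4,6],[6,7,4,4,6],[(1,13),(0,81),(1,81),(0,6)],[(0,106)]),
   ([0,0,5,5,7],[6,4,4],[6,4,4,6,7],[(0,9)],[(3,107)]),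
   ([0,0,5,7,5],[4,6,4],[4,6,4,4,5],[(0,9)],[(3,110)]),
   ([0,0,7,7,5],[4,6,6],[4,6,6,4,5],[(0,8)],[(3,111)]),
   ([3,1,1,6,6],[0,0,2],[3,2,0,0,2],[(1,8)],[(0,113)]),
   ([0,2,0,0,7],[1,3,6],[1,3,6,6,7],[(0,8)],[(3,111)]),
   ([0,0,2,0,7],[3,1,6],[3,1,6,6,7],[(0,8)],[(3,112)]),
   ([1,4,4,6],[0,7,5,5],[1,0,0,7,5,5],[(1,6)],[(0,118)]),
   ([1,6,4,4],[0,5,5,7],[1,0,0,5,5,7],[(1,6)],[(0,119)]),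
   ([1,4,6,4],[0,5,7,5],[1,0,0,5,7,5],[(1,6)],[(0,120)]),
   ([1,4,6,6],[0,7,7,5],[1,0,0,7,7,5],[(1,6)],[(0,121)]),
   ([3,1,1,6],[0,0,2,7],[3,1,1,6,6,7],[(4,117)],[(0,6)]),
   ([2,0,0,7],[1,1,3,6],[1,0,2,0,0,7],[(0,123)],[(1,6)]),
   ([1,3,1,6],[0,2,0,7],[1,0,0,2,0,7],[(1,6)],[(0,124)]),
   ([0,5,7,5,5],[1,4,6],[1,4,6,4,5],[(0,4)],[(3,122)]),
   ([0,0,2,7,7],[3,1,1],[3,1,1,6,7],[(0,3)],[(3,121)]),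
   ([0,2,0,7,7],[1,3,1],[1,3,1,6,7],[(0,2)],[(3,122)]),
   ([5,7,5,5],[1,1,4,6],[1,0,5,7,5,5],[(0,128)],[(1,2)]),
   ([1,3,1,1],[0,2,7,7],[1,0,0,2,7,7],[(1,2)],[(0,129)]),
   ([2,0,7,7],[1,1,3,1],[1,0,2,0,7,7],[(0,130)],[(1,2)]),
   ([4,2,2,4,2],[2,4,2,2,4],[4,2,4,2,4],[(2,102)],[(0,102)]),
   ([5,3,3,5,2],[2,5,3,3,5],[5,3,4,3,5],[(2,80)],[(0,81)]),
   ([0,2,2,7,7],[3,3,1],[3,1,3,1,2],[(0,75),(0,3),(3,112),(2,112)],[(2,84),(1,133)]),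
   ([3,3,1,6],[0,2,2,7],[0,2,2,7,7,6],[(0,0)],[(4,128)]),
   ([4,2,0,0,4],[2,4,2,0,0],[4,2,0,4,0],[(3,128)],[(0,72)]),
   ([0,2,0,0,0,3],[2,2,2,0],[2,0,2,0,0,3],[(0,108)],[(1,70)]),
   ([2,4,2,2,0,5],[4,4,2,0],[4,2,4,2,0,5],[(0,108)],[(1,69)]),
   ([2,4,2,2,2,5],[4,4,4,2],[4,2,4,2,2,5],[(0,109)],[(1,69)]),
   ([0,0,5,2,7,7],[6,6,4,2],[6,4,6,4,2,7],[(0,109),(0,35),(3,118)],[(1,68)]),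
   ([5,2,0,0,4],[2,4,3,0,0],[5,2,0,4,0],[(3,133)],[(0,66)]),
   ([6,4,2,0,7],[5,6,4,2,0],[6,4,2,7,0],[(3,122)],[(0,65)]),
   ([5,3,1,1,4],[2,5,3,1,1],[5,3,1,4,1],[(3,126)],[(0,59)]),
   ([6,5,2,1,7],[5,7,4,2,1],[6,5,2,7,1],[(3,117)],[(0,58)]),
   ([7,5,2,1,7],[5,7,5,2,1],[7,5,2,7,1],[(3,118)],[(0,57)]),
   ([4,2,2,0,5],[3,4,4,2,0],[4,2,2,5,0],[(3,128)],[(0,50)]),
   ([5,2,2,0,4],[2,4,4,3,0],[5,2,2,4,0],[(3,139)],[(0,50)]),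
   ([6,4,4,2,7],[5,6,6,4,2],[6,4,4,7,2],[(3,126)],[(0,50)])]

def kbR3 : List (List ℕ × List ℕ × List ℕ × List (ℕ × ℕ) × List (ℕ × ℕ)) :=
  [([1,5,6,6,4],[0,5,5,7,7],[6,4,4,7,1],[(0,51),(3,132),(2,130),(1,130),(0,123)],[(3,122),(2,132),(1,132),(0,130),(0,28)]),
   ([5,3,3,1,4],[2,5,5,3,1],[5,3,3,4,1],[(3,133)],[(0,48)]),
   ([4,3,3,1,5],[3,5,5,2,1],[4,3,3,5,1],[(3,125)],[(0,48)]),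
   ([1,4,3,6,6],[0,4,2,0,0],[4,1,3,6,6],[(0,135)],[(1,43),(0,144)]),
   ([0,0,5,5,2,7],[6,4,4,2],[0,0,5,5,7,2],[(4,131)],[(0,39)]),
   ([0,2,0,0,0,7],[1,3,0,6],[0,2,0,0,7,0],[(4,134)],[(0,36),(2,145)]),
   ([1,3,6,5,5],[0,2,4,4,6],[0,2,0,0,7,5,5],[(0,37)],[(2,42)]),
   ([0,2,4,6,6],[1,3,5],[0,2,0,0,7,7,5],[(2,40)],[(0,38),(2,150)]),
   ([2,4,6,6],[1,1,3,5],[1,0,2,4,6,6],[(0,156)],[(1,0)]),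
   ([1,3,5,7],[0,2,4,6],[0,2,4,6,6,7],[(0,1)],[(4,152)]),
   ([0,0,2,4,6],[3,5,7],[0,1,3,5,7],[(1,0)],[(0,159)]),
   ([1,4,4,4,6],[0,4,7,5,5],[4,1,4,4,6],[(0,143)],[(1,40),(0,152)]),
   ([1,4,4,3,6],[0,7,5,5,3],[1,4,4,6,3],[(3,140)],[(0,41)]),
   ([0,7,7,5,3],[0,4,2,0,0],[1,4,6,6,3],[(0,39)],[(3,141),(2,141),(0,9)]),
   ([1,4,6,5,6],[0,7,7,7,5],[7,1,4,6,6],[(0,136),(1,120)],[(1,40),(0,143)]),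
   ([3,1,1,1,6],[0,0,2,1,7],[3,1,1,6,1],[(3,145)],[(0,40),(3,137)]),
   ([1,5,3,1,6],[0,5,2,0,7],[5,1,3,1,6],[(0,139)],[(1,39),(0,147)]),
   ([6,6,4,2],[5,3,1,1],[5,0,0,2,7,7],[(0,148),(1,148),(0,25)],[(1,38)]),
   ([7,5,3,1,1],[6,4,2],[7,6,6,4,2],[(1,0)],[(0,160)]),
   ([7,5,3,1],[6,4,2,0],[7,5,3,1,1,0],[(4,167)],[(0,0)]),
   ([6,4,2,0,0],[7,5,3],[7,5,3,1,0],[(0,0)],[(3,168)]),
   ([7,7,5,3],[4,2,0,0],[7,6,4,2,0,0],[(1,0)],[(0,163)]),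
   ([2,0,0,0,3],[1,2,2,2,0],[1,0,2,0,0,0,3],[(0,170)],[(1,33)]),
   ([4,2,2,2,5],[3,4,4,4,2],[3,2,4,2,2,2,5],[(0,169)],[(1,32)]),
   ([0,2,4,3,6,6],[1,3,5,3],[5,0,2,4,6,6],[(0,155),(1,132)],[(1,16),(0,147),(1,113)]),
   ([2,0,4,6,6],[1,1,3,0,5],[2,4,6,6,0],[(3,165),(2,165),(1,166)],[(0,16),(3,156)]),
   ([2,4,3,6,6],[1,1,3,5,3],[2,4,6,6,3],[(3,154),(2,154)],[(0,17)]),
   ([1,3,5,2,7],[0,2,4,2,6],[4,1,3,5,7],[(0,159),(1,123)],[(1,17),(0,168),(1,146)]),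
   ([1,3,0,5,7],[0,2,0,4,6],[1,3,5,7,0],[(3,157),(2,159)],[(0,18),(3,168),(2,169)]),
   ([1,3,5,3,7],[0,2,4,3,6],[5,1,3,5,7],[(0,152),(1,118)],[(1,19),(0,160),(1,137)]),
   ([1,3,1,5,7],[0,2,1,4,6],[1,3,5,7,1],[(3,152),(2,153)],[(0,20),(3,160),(2,162)]),
   ([0,0,2,0,4,6],[3,0,5,7],[0,0,2,4,6,0],[(4,171),(3,172)],[(0,20),(2,160),(1,162)]),
   ([0,2,2,1,4,6],[3,3,5,7],[3,0,0,2,4,6],[(0,86)],[(1,21)]),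
   ([0,7,5,3,3,1],[6,4,2,2],[7,5,3,1,1,2],[(2,82),(1,164),(0,162)],[(0,14)]),
   ([1,6,4,2,2,0],[7,5,3,3],[6,4,2,0,0,3],[(2,89),(1,166),(0,164)],[(0,13)]),
   ([2,2,1,4,6],[1,3,3,5,7],[1,0,2,2,1,4,6],[(0,183)],[(1,2)]),
   ([6,4,2,2,0],[0,7,5,3,3],[0,7,5,3,3,1,0],[(0,2)],[(5,184)]),
   ([7,5,3,3,1],[1,6,4,2,2],[1,0,7,5,3,3,1],[(0,185)],[(1,3)]),
   ([6,4,4,4,7,5],[5,6,6,6],[6,4,4,7,5,6],[(3,133)],[(0,89),(3,183)]),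
   ([6,4,4,4,7],[5,6,6,6,4],[6,4,4,4,7,5,4],[(5,183)],[(0,0)]),
   ([5,7,4,4,4,6],[6,6,6,5],[6,5,7,4,4,6],[(0,134)],[(2,90),(1,184)]),
   ([3,3,0,0,5,7],[0,2,2,0,4,6],[3,3,6,6,4,6],[(3,159),(2,159),(2,85)],[(0,79)]),
   ([6,4,4,4,6],[0,0,5,6,5],[0,0,5,5,7,4,6],[(0,77)],[(4,148),(3,186)]),
   ([1,3,6,5,2,2],[0,5,5,3,7,5],[1,6,4,4,3,5],[(3,139),(2,139),(1,171)],[(0,71),(3,164)]),
   ([1,4,2,6,4,2],[0,5,2,7,4,3],[1,4,6,4,2,4],[(3,163),(2,183)],[(0,71),(3,152),(2,171)]),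
   ([1,4,3,6,5,2],[0,5,3,7,5,3],[1,4,6,4,3,5],[(3,141),(2,173)],[(0,72),(3,134),(2,166)]),
   ([2,0,0,4,2,0],[1,1,3,5,3,1],[5,2,1,4,6,6],[(0,119),(2,85),(1,187),(2,187)],[(2,72),(1,63),(0,169),(1,169),(2,108)]),
   ([0,0,2,7,4,4],[3,5,5,7],[3,1,1,6,4,4],[(0,72)],[(2,75),(1,195)]),
   ([1,3,5,5,7],[0,2,7,4,4],[1,0,0,2,7,4,4],[(1,0)],[(0,196)]),
   ([2,0,0,4,6,5],[1,1,3,4,6,4],[2,0,0,7,4,6],[(3,155)],[(0,73),(3,167)])]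

def kbR4 : List (List ℕ × List ℕ × List ℕ × List (ℕ × ℕ) × List (ℕ × ℕ)) :=
  [([1,3,1,5,6,4],[0,2,0,7,4,7],[1,3,1,6,4,7],[(3,157)],[(0,73)]),
   ([1,3,0,5,5,7],[0,2,0,7,4,4],[1,3,1,6,4,4],[(2,79)],[(0,74)]),
   ([3,5,3,7,5,5],[2,0,0,5,2,7],[5,3,5,7,5,5],[(0,141)],[(2,71),(0,57),(2,77),(1,183),(2,183)]),
   ([2,0,7,4,7,5],[1,1,3,1,5,6],[2,0,7,7,5,6],[(3,148)],[(0,70)]),
   ([3,3,1,5,7,4],[0,2,2,5,7,5],[3,3,1,6,5,7],[(3,148)],[(0,67),(3,142)]),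
   ([2,0,7,5,3,3,5],[6,4,4,2,0],[6,2,4,2,2,0,5],[(0,194),(1,18)],[(1,65)]),
   ([5,3,1,1,1,4],[2,5,3,1,1,1],[5,3,1,1,4,1],[(4,188)],[(0,61)]),
   ([6,4,4,2,0,7],[5,5,3,1],[6,4,4,2,7,0],[(4,186)],[(0,57),(1,39),(4,205)]),
   ([6,4,4,2,0],[5,5,3,1,6],[6,4,4,2,0,7,6],[(5,200)],[(0,0)]),
   ([7,5,5,3,1],[4,4,2,0,7],[7,6,4,4,2,0,7],[(1,1)],[(0,201)]),
   ([1,3,0,6,5,5],[0,2,0,4,4,6],[0,2,0,0,0,7,5,5],[(0,54)],[(3,96)]),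
   ([1,3,3,0,5,7],[2,2,4,6],[2,1,1,3,5,7],[(0,109)],[(2,51),(1,209)]),
   ([3,3,0,5,7],[0,2,2,4,6],[0,1,3,3,0,5,7],[(0,211)],[(1,0)]),
   ([1,4,4,4,3,6],[0,4,7,5,5,3],[1,4,4,4,6,3],[(4,191)],[(0,51)]),
   ([1,4,4,3,0,6],[0,7,5,5,3,0],[1,4,4,3,6,0],[(4,204)],[(0,51)]),
   ([2,0,4,2,0,0],[1,1,3,1,5,3],[2,0,7,7,5,3],[(1,51)],[(0,82)]),
   ([1,4,6,5,5,6],[0,7,7,7,7,5],[7,1,4,6,5,6],[(0,188),(1,172)],[(1,51),(0,195)]),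
   ([1,5,5,3,1,6],[0,5,5,2,0,7],[5,1,5,3,1,6],[(0,190)],[(1,50),(0,198)]),
   ([3,3,5,3,1,1],[0,2,2,0,4,2],[3,3,6,6,4,2],[(2,50)],[(0,106)]),
   ([1,5,5,3,1,1],[0,5,5,2,7,7],[1,5,6,6,4,2],[(2,51)],[(0,68),(4,196),(3,196)]),
   ([5,3,3,7,5,3],[2,2,4,6,4,2],[6,4,2,0,0,7,5,5],[(0,49),(0,130),(2,159),(1,191),(3,159),(2,191)],[(3,106),(1,189),(0,209),(2,189),(1,209),(2,153)]),
   ([1,6,4,2,2,2,0],[7,5,3,0,3],[6,4,2,0,0,0,3],[(2,48),(1,203),(0,201)],[(0,50)]),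
   ([4,2,2,2,0,5],[3,4,4,4,2,0],[4,2,2,2,5,0],[(4,203)],[(0,48)]),
   ([0,2,0,4,2,2,0],[1,3,5,3,3],[5,0,2,4,3,6,6],[(0,204),(1,181),(3,111),(2,214)],[(1,48),(0,196),(1,162)]),
   ([2,0,4,2,6,6],[1,1,3,0,5,2],[2,0,4,6,6,2],[(4,213),(3,213)],[(0,48)]),
   ([2,0,4,2,2,0],[1,1,3,5,3,3],[2,4,3,6,6,3],[(4,203),(3,203),(2,113),(1,216)],[(0,48)]),
   ([1,3,5,2,1,7],[0,2,4,2,1,6],[1,3,5,2,7,1],[(4,198)],[(0,48),(4,206)]),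
   ([1,3,0,5,2,7],[0,2,0,4,2,6],[2,1,3,5,2,7],[(0,175)],[(1,49),(0,197)]),
   ([1,3,5,3,1,7],[0,2,4,3,1,6],[1,3,5,3,7,1],[(4,200)],[(0,48),(4,208)]),
   ([1,3,1,5,3,7],[0,2,1,4,3,6],[3,1,3,5,3,7],[(0,169)],[(1,49),(0,189)]),
   ([0,0,2,0,4,2,6],[3,0,5,2,7],[0,0,2,0,4,6,2],[(5,219)],[(0,48),(3,207)]),
   ([0,7,5,3,0,3,1],[6,4,2,2,2],[0,7,5,3,3,1,2],[(4,180)],[(0,47)]),
   ([0,2,4,4,2,0,7],[6,4,2,2,4],[0,7,5,3,3,1,4],[(2,80),(1,209),(2,22)],[(0,48)]),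
   ([1,3,5,5,3,1,6],[7,5,3,3,5],[1,6,4,2,2,0,5],[(2,85),(1,211),(2,24)],[(0,48)]),
   ([2,2,1,4,3,6],[1,3,3,5,3,7],[2,2,1,4,6,3],[(4,212)],[(0,48),(4,205)]),
   ([3,5,5,3,1,6],[0,7,5,3,3,5],[6,4,2,2,0,5],[(1,87),(0,213),(1,26)],[(0,48)]),
   ([6,4,4,4,2,7],[5,6,5,3,1,1],[6,4,4,4,7,2],[(4,213)],[(0,46),(2,68)]),
   ([1,3,3,5,3,7],[0,5,2,7,4,4],[5,1,3,5,5,7],[(0,210),(1,176),(2,176)],[(1,38),(0,218)]),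
   ([5,5,3,1,6,4],[2,0,7,5,3,3],[2,0,7,5,3,3,5,4],[(0,32),(0,29)],[(6,232)]),
   ([4,4,2,0,7,5],[3,1,6,4,2,2],[7,5,5,3,1,5],[(0,29)],[(2,151),(1,178),(0,210),(1,51)]),
   ([1,1,3,1,5,3,1],[2,0,4,2,0],[2,0,4,2,0,0,1],[(0,24)],[(5,239)]),
   ([0,2,2,0,4,2,0],[3,3,5,3,1],[3,3,5,3,1,1,0],[(0,22)],[(5,239)]),
   ([2,2,4,6,4,2,2],[5,3,3,7,5],[5,3,3,7,5,3,2],[(0,21)],[(5,238)]),
   ([4,2,2,4,6,4,2],[3,3,7,5,3],[4,5,3,3,7,5,3],[(1,22)],[(0,238)]),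
   ([6,4,2,2,2,0],[0,7,5,3,0,3],[0,1,6,4,2,2,2,0],[(0,243)],[(1,22)]),
   ([1,3,5,3,3,1],[0,2,0,4,2,2],[0,2,0,4,2,2,0,1],[(0,21)],[(6,244)]),
   ([6,4,2,2,4,6],[0,2,4,4,2,0],[0,2,4,4,2,0,7,6],[(0,13)],[(6,238)]),
   ([7,5,3,3,5,7],[1,3,5,5,3,1],[1,3,5,5,3,1,6,7],[(0,13)],[(6,240)]),
   ([1,3,1,5,3,1],[0,2,0,4,2,0],[0,1,1,3,1,5,3,1],[(0,247)],[(1,7)]),
   ([2,2,0,4,2,0],[1,3,3,5,3,1],[1,0,2,2,0,4,2,0],[(0,247)],[(1,7)])]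

def kbR5 : List (List ℕ × List ℕ × List ℕ × List (ℕ × ℕ) × List (ℕ × ℕ)) :=
  [([3,5,3,3,7,5],[2,4,6,4,2,2],[3,2,2,4,6,4,2,2],[(1,7)],[(0,246)]),
   ([4,2,2,4,6,4],[3,3,7,5,3,3],[4,2,2,4,6,4,2,3],[(6,248)],[(0,7)]),
   ([0,0,2,0,4,2,2],[3,5,3,3,1],[0,1,3,5,3,3,1],[(1,6)],[(0,251)]),
   ([0,2,7,4,4,2,0],[4,2,2,4,6],[7,6,4,2,2,4,6],[(1,6),(0,232),(1,230)],[(0,245)]),
   ([0,0,2,0,4,2,0],[3,1,5,3,1],[0,1,3,1,5,3,1],[(1,5)],[(0,253)]),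
   ([2,4,6,4,2,2,4],[3,5,3,3,7],[3,5,3,3,7,5,4],[(0,4)],[(5,249)]),
   ([3,3,7,5,3,3,5],[4,2,2,4,6],[4,2,2,4,6,4,5],[(0,4)],[(5,251)]),
   ([2,7,4,4,2,0],[1,4,2,2,4,6],[1,0,2,7,4,4,2,0],[(0,255)],[(1,3)]),
   ([3,7,5,3,3,5],[2,4,2,2,4,6],[2,3,3,7,5,3,3,5],[(0,255)],[(1,1)]),
   ([2,2,4,2,2,4,6],[7,5,3,3,5],[2,3,7,5,3,3,5],[(1,0)],[(0,256)]),
   ([2,2,4,2,2,4],[1,3,5,5,3,1],[2,2,4,2,2,4,6,7],[(6,253)],[(0,0),(0,12)]),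
   ([1,3,1,5,5,3,1],[2,4,2,2,4],[3,2,2,4,2,2,4],[(1,0),(0,201)],[(0,257)]),
   ([1,3,3,5,3,3,1],[2,2,4,2,2],[2,2,4,2,2,4,5],[(0,1),(3,174),(2,201)],[(5,257)]),
   ([2,2,4,2,2,0],[1,3,3,5,3,3],[1,3,3,5,3,3,1,0],[(0,0)],[(6,261)]),
   ([2,5,5,3,6,4,4],[0,2,4,4,3,0,6],[5,3,3,4,6,4,4],[(0,161)],[(3,158),(1,72),(0,245),(1,115)]),
   ([6,4,4,4,4,6],[0,0,5,6,6,5],[0,0,5,5,7,4,4,6],[(0,150)],[(4,165),(3,259)]),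
   ([3,5,3,1,7,5,5],[2,0,0,5,2,1,7],[5,3,1,5,7,5,5],[(0,178)],[(3,135),(0,59),(2,100),(1,247),(2,247)]),
   ([6,4,4,4,2,0,0],[5,6,5,3,6],[6,4,4,7,7,5,3],[(3,95)],[(0,168),(2,224),(4,262),(3,245)]),
   ([6,4,4,4,2,0],[5,6,5,3,1,6],[6,4,4,4,2,0,0,1],[(6,267)],[(0,0),(4,248)]),
   ([6,4,4,4,4,4,6],[0,0,5,6,6,6,5],[0,0,5,5,7,4,4,4,6],[(0,154)],[(3,78)]),
   ([1,2,4,2,6,4,2],[0,2,4,3,6,5,3],[1,4,2,6,4,2,6],[(3,203),(1,239)],[(0,75),(3,191),(1,228)]),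
   ([2,4,3,0,0,6,5],[1,1,2,5,3,6,4],[5,2,0,0,4,6,5],[(0,128)],[(1,71),(0,244),(1,244),(2,218)]),
   ([1,3,0,5,5,2,7],[0,2,0,7,4,4,2],[1,3,0,5,5,7,2],[(5,249)],[(0,70)]),
   ([3,5,5,2,1,7,4],[0,3,4,4,2,7,5],[4,3,3,1,5,7,4],[(0,120)],[(1,68),(0,264),(1,176)]),
   ([6,5,5,3,1,6],[2,0,5,3,3,5],[6,2,0,7,5,3,3,5],[(1,68),(1,65)],[(0,263),(1,264),(2,267)]),
   ([1,4,6,5,5,5,6],[0,7,7,7,7,7,5],[7,1,4,6,5,5,6],[(0,247),(1,231)],[(1,58),(0,254)]),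
   ([2,0,7,4,2,2,0],[1,1,3,7,5,3,3],[7,2,0,4,2,2,0],[(0,253),(1,255)],[(1,50),(0,248),(1,248),(2,247)]),
   ([0,7,5,3,0,0,3,1],[6,4,2,2,2,2],[0,7,5,3,0,3,1,2],[(5,226)],[(0,45)]),
   ([0,5,2,7,4,4,2],[1,3,3,5,7],[2,2,1,4,3,6,2],[(0,43),(0,40)],[(5,267),(4,274),(0,92)]),
   ([5,2,7,4,4,2],[1,1,3,3,5,7],[1,0,5,2,7,4,4,2],[(0,277)],[(1,0)]),
   ([3,0,5,5,3,1,6],[0,2,7,5,3,3,5],[3,5,5,3,1,6,2],[(5,269),(3,229),(2,261),(1,261)],[(0,44),(2,145),(1,257)]),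
   ([3,0,5,2,7,4,4],[2,1,4,3,6],[3,1,3,3,5,3,7],[(1,43)],[(0,221),(1,221),(1,51),(0,279)]),
   ([3,0,5,2,7,4],[2,1,4,3,6,5],[3,0,5,2,7,4,4,5],[(6,277)],[(0,0)]),
   ([3,5,6,5,3,1,6],[0,7,5,3,0,3,5],[6,4,2,2,2,0,5],[(1,60),(0,261),(1,14)],[(0,38)]),
   ([3,5,3,3,1,7,5],[2,4,6,4,2,2,1],[3,5,3,3,7,5,1],[(5,257),(4,256)],[(0,33)]),
   ([2,0,4,2,7,5,5,3],[3,5,3,3,0,7],[2,4,6,4,2,2,4,0],[(6,276),(2,98),(1,276),(4,182),(3,262)],[(0,29),(4,264)]),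
   ([2,0,7,4,4,2,0],[1,2,4,2,2,4,6],[2,7,4,4,2,0,2],[(4,256),(3,277),(2,277),(1,265)],[(0,28),(5,275),(1,152)]),
   ([0,2,0,7,4,4,2,7],[2,4,2,2,1,4],[1,3,1,5,5,3,1,1],[(2,67),(0,14)],[(0,25),(4,269)]),
   ([0,2,0,7,5,5,3,0],[5,5,3,6,4,4],[3,2,5,5,3,6,4,4],[(1,23),(0,248),(2,73)],[(0,284)]),
   ([5,6,5,3,1,6,4],[2,0,7,5,3,0,3],[6,4,4,4,2,0,4],[(0,20)],[(3,224),(2,258),(1,258),(0,278),(1,44)]),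
   ([1,2,0,4,4,2,7,5],[5,5,2,1,7,4],[2,3,5,5,2,1,7,4],[(1,16),(0,251)],[(0,287)]),
   ([6,4,2,2,2,2,0],[0,7,5,3,0,0,3],[0,7,5,3,0,0,3,1,0],[(0,13)],[(7,289)]),
   ([0,2,0,4,2,6,4,4],[1,2,1,4,3,6],[1,3,0,5,2,7,4,4],[(0,64)],[(1,10)]),
   ([3,0,5,2,1,1,7],[2,0,4,2,7,5,5],[2,0,4,2,7,5,5,3,2],[(0,7),(5,270),(3,253),(2,253),(1,274)],[(7,289)]),
   ([2,0,7,4,4,2,7],[1,2,4,2,2,1,4],[1,0,2,0,7,4,4,2,7],[(0,292)],[(1,6)]),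
   ([2,0,7,5,5,3,0],[1,5,5,3,6,4,4],[1,0,2,0,7,5,5,3,0],[(0,293)],[(1,6)]),
   ([5,5,2,1,7,4,4],[1,2,0,4,4,2,7],[1,2,0,4,4,2,7,5,4],[(0,5)],[(7,290)]),
   ([2,0,4,2,6,4,4],[1,1,2,1,4,3,6],[1,0,2,0,4,2,6,4,4],[(0,295)],[(1,4)]),
   ([0,5,5,2,0,7,4,4],[2,0,7,5,5,3],[2,0,7,5,5,3,0,1],[(0,2),(6,280),(5,280),(4,278),(0,80)],[(6,297)]),
   ([5,5,2,0,7,4,4],[1,2,0,7,5,5,3],[1,0,5,5,2,0,7,4,4],[(0,297)],[(1,0)])]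

/-- derived rules in order -/
def kbRules : List (List ℕ × List ℕ × List ℕ × List (ℕ × ℕ) × List (ℕ × ℕ)) :=
  kbR0 ++ kbR1 ++ kbR2 ++ kbR3 ++ kbR4 ++ kbR5

/-- tests: left word, right word, common reduct, steps, steps -/
def kbTests : List (List ℕ × List ℕ × List ℕ × List (ℕ × ℕ) × List (ℕ × ℕ)) :=
  [([6,6],[6,6],[6,6],[],[]),
   ([6,2,0,4,2,6],[4,2,0,4,2,2,7,0,2,0,4,2],[2,0,4,6,4,2],[(0,289),(1,290),(2,233)],[(0,235),(2,270),(1,291),(3,270),(2,291),(0,103),(1,71),(0,298),(4,290),(3,298),(3,289),(2,296),(2,290),(1,291)]),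
   ([6,4,6],[4,6,4],[4,6,4],[(0,268)],[]),
   ([6,5,6],[5,7,7,7,0,0,5],[6,5,6],[],[(3,279),(2,279),(1,279),(0,281),(4,279),(3,279),(2,279),(1,281),(0,187),(1,257),(3,295)]),
   ([6,4,4,6],[0,0,5,5],[0,0,5,5],[(0,195)],[]),
   ([6,4,4,4,6],[5,6,0,0,5],[0,0,5,6,5],[(0,107)],[(1,290),(0,281),(2,290),(1,281)]),
   ([6,4,4,4,4,6],[5,6,6,0,0,5],[0,0,5,6,6,5],[(0,34)],[(2,290),(1,290),(0,281),(3,290),(2,290),(1,281)]),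
   ([6,4,4,4,4,4,6],[5,6,6,6,0,0,5],[0,0,5,6,6,6,5],[(0,30)],[(3,290),(2,290),(1,290),(0,281),(4,290),(3,290),(2,290),(1,281)]),
   ([6,6,6],[6,6,6],[6,6,6],[],[]),
   ([6,4,6,6],[4,4,6,4],[0,0,7,5],[(0,268),(1,268),(0,193)],[(0,193)]),
   ([6,4,4,6,6],[5,5,6,0,0],[0,0,5,5,6],[(0,195)],[(2,290),(1,281),(0,281),(3,290),(2,281),(1,281)]),
   ([6,4,4,4,6,6],[5,5,7,7,7,0,0,0,0,5],[0,0,5,6,5,6],[(0,107)],[(4,279),(3,279),(2,279),(1,281),(0,281),(5,279),(4,279),(3,279),(2,281),(1,281),(0,185),(0,201),(2,257),(4,291),(3,290),(2,281),(1,290),(0,281),(5,291),(4,290),(3,281),(2,290),(1,281),(6,295)]),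
   ([6,2,7],[2],[2],[(0,289),(1,293)],[]),
   ([6,4,2,7],[0,5,2,7,0,0,2,0,4,2],[5,6,4,2],[(0,222)],[(3,279),(4,279),(2,174),(1,273),(0,299),(0,273),(3,289),(2,296),(2,290),(1,281),(0,298)]),
   ([6,4,4,2,7],[0,5,2,0,0,2,0,4,2],[5,5,3,1,1],[(0,150),(1,132)],[(2,191),(1,273),(0,299),(0,273),(3,290),(2,290),(1,281),(0,298),(1,132)]),
   ([6,4,4,2,0,4,2,2,7],[4,4,2,0,4,2,2,7,4],[2,0,5,7,5],[(0,91),(0,61),(5,296),(4,296),(2,238)],[(1,235),(0,269),(3,270),(2,270),(1,291),(0,84),(5,296),(1,119),(0,298),(1,177)]),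
   ([6,4,4,4,2,0,4,2,2,7],[0,0,2,0,4,2,6,4,2,0,4,2],[2,4,6,4,2,1],[(0,31),(0,10),(6,296),(4,260),(3,281),(2,279),(0,174),(3,154),(1,140),(0,298)],[(0,69),(0,17),(1,104),(5,216),(4,277),(3,296),(5,260),(4,281),(3,279),(2,281),(1,184)]),
   ([6,4,4,4,4,2,0,4,2,2,7],[0,0,2,0,4,2,2,7,5],[2,4,6,4,2,2,1],[(4,235),(3,269),(2,269),(1,269),(0,289),(1,8),(7,296),(4,204),(3,281),(2,279),(0,174),(1,106),(0,298),(4,273),(3,272),(4,238),(1,212),(0,239),(0,15)],[(0,47),(0,15)]),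
   ([6,4,2],[0,2,7,0,0,2,0,4,2],[6,4,2],[],[(2,279),(3,279),(1,174),(0,299),(2,289),(1,296),(1,290),(0,298)]),
   ([6,4,4,2],[0,0,5,5,2,7],[6,4,4,2],[],[(0,145)]),
   ([6,4,6,6,6],[4,4,4,6,4],[0,0,4,7,5],[(0,268),(1,268),(0,193),(2,245)],[(1,193),(0,291),(1,291)]),
   ([6,4,4,6,6,6],[5,5,6,6,0,0],[0,0,5,5,6,6],[(0,195)],[(3,290),(2,290),(1,281),(0,281),(4,290),(3,290),(2,281),(1,281)]),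
   ([6,7,7,7],[4,6,6,1,1,4],[7,7],[(0,293)],[(2,280),(1,280),(0,282),(0,176),(3,273),(2,272),(1,272),(0,299),(2,294)]),
   ([6,4,7,7,7],[5,5,5,6,4],[5,5,5,6,4],[(0,257),(1,257),(2,257)],[]),
   ([6,6,6],[6,6,6],[6,6,6],[],[]),
   ([6,6,4,6],[4,6,4,4],[0,0,5,7],[(1,268),(0,268),(0,194)],[(0,194)]),
   ([6,6,4,4,6],[6,0,0,5,5],[0,0,6,5,5],[(1,195),(0,290),(1,290)],[(0,290),(1,290)]),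
   ([6,6,4,4,4,6],[5,7,7,7,0,0,0,0,5,5],[0,0,6,5,6,5],[(1,107),(0,290),(1,290)],[(3,279),(2,279),(1,279),(0,281),(4,279),(3,279),(2,279),(1,281),(0,187),(1,257),(3,291),(2,290),(1,281),(0,290),(4,291),(3,290),(2,281),(1,290),(5,295)]),
   ([6,6,4,6,6],[0,0,5],[0,0,5],[(1,268),(0,268),(0,194),(3,292)],[]),
   ([6,6,4,4,2,0,4,2,2,7],[4,4,2,0,4,2,2,7,4,4],[2,0,5,7],[(1,91),(0,25),(5,294),(4,296),(3,296)],[(1,235),(0,269),(3,270),(2,270),(1,291),(0,84),(5,296),(1,119),(0,298),(1,177),(4,294)]),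
   ([6,6,4,4,4,2,0,4,2,2,7],[0,0,4,2,0,4,2,2,7,5,5],[2,0,0,5,2,1,7],[(1,31),(1,10),(0,289),(1,290),(2,293),(5,296),(3,260),(2,281)],[(2,235),(4,270),(3,291),(0,45),(3,249),(2,281),(1,298),(0,33)]),
   ([6,6,4,2],[0,2,0,0,2,0,4,2],[5,3,1,1],[(0,132)],[(1,191),(0,299),(2,290),(1,290),(0,298),(0,132)]),
   ([6,6,4,6,6,6],[5,6,0,0],[0,0,5,6],[(1,268),(0,268),(0,194),(3,292)],[(1,290),(0,281),(2,290),(1,281)]),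
   ([6,6,7,7,7],[4,4,6,1,1,4,4],[7],[(1,293),(0,293)],[(2,280),(1,282),(0,282),(0,179),(3,273),(2,273),(1,272),(0,299),(2,294),(1,294)]),
   ([2,7,6],[2],[2],[(1,292)],[]),
   ([2,7,4,6],[4,4,2,0,4,2,2,7,0,5],[2,4,6,5],[(1,256)],[(1,235),(0,269),(3,270),(2,270),(1,291),(0,84),(5,296),(1,119),(0,298),(3,290),(2,291),(1,298)]),
   ([2,7,4,4,6],[1,4,2,4,4,2,0,4,2],[1,1,3,5,5],[(1,200),(0,141)],[(1,269),(2,269),(1,36),(4,197),(3,296),(5,296)]),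
   ([2,7,0,0,2,0,4,2,6],[4,2,7,0,0,2,0,4,2],[0,5,7,5,2],[(1,279),(2,279),(0,174),(3,289),(2,296),(2,290),(1,298),(1,233),(0,177)],[(2,279),(3,279),(1,174),(0,282),(1,282),(4,289),(3,296),(3,290),(2,291),(1,298),(0,177)]),
   ([2,7,0,0,0,2,0,4,2,6],[0,2,0,4,2,6,4,4,2,0,4,2],[1,2,4,6,4,2],[(1,279),(2,279),(0,174),(3,290),(4,289),(2,260),(1,298),(3,290),(2,298),(2,233)],[(1,2),(0,299),(5,289),(4,296),(4,290),(3,291),(2,298)]),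
   ([2,7,0,0,0,0,2,0,4,2,6],[5,2,7,4,4,2,0,4,2],[1,2,2,4,6,4,2],[(1,279),(2,279),(0,174),(3,290),(4,290),(5,289),(2,204),(1,298),(4,290),(3,298),(3,233)],[(0,20),(5,279),(4,281),(2,87),(1,298)]),
   ([2,7,0,0,2,0,4,2,6,6],[4,4,2,7,0,0,2,0,4,2],[0,7,5,2],[(1,279),(2,279),(0,174),(3,289),(2,296),(2,290),(1,298),(1,233),(0,177),(2,214),(1,294)],[(3,279),(4,279),(2,174),(1,282),(0,282),(2,282),(1,282),(1,137),(0,298),(3,296),(2,281),(1,281),(0,279),(3,294)]),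
   ([2,7,0,0,0,2,0,4,2,6,6],[5,5,2,7,0,4,4,2,0,4,2],[1,1,1,3,6,5,2],[(1,279),(2,279),(0,174),(3,290),(4,289),(2,260),(1,298),(3,290),(2,298),(2,233),(3,233),(2,193),(1,174)],[(3,279),(0,0),(6,296),(5,281),(4,281),(3,279),(1,174),(2,143),(1,298),(2,193),(1,174)]),
   ([2,7,0,2,7],[4,2,0,0,4,2,0,4,2],[1,3,1],[(1,279),(2,277),(0,270),(1,167),(0,299)],[(0,162),(2,191),(1,282),(2,282),(2,176),(1,298),(3,281),(2,279),(1,279),(0,167),(4,294),(2,249),(1,298)]),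
   ([2,7,0,4,2,7],[4,4,4,2,0,4,2,2,7,0,0,0,2,0,4,2],[2,0,7,4,2,7],[(1,279)],[(2,235),(1,269),(0,269),(4,270),(3,270),(2,270),(1,291),(0,84),(5,260),(4,281),(3,298),(1,73),(0,298),(4,290),(3,298),(3,290),(4,290),(5,289),(2,191),(1,282),(2,282),(2,176),(1,298),(2,245),(4,281),(3,279),(2,291),(1,279),(0,96),(1,99),(0,298),(4,277)]),
   ([2,7,0,0,2,7],[1,1],[1,1],[(1,279),(2,279),(0,174),(3,289),(2,296),(2,293)],[]),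
   ([2,7,0,4,4,2,7],[1,4,4,2,1,4,4],[1,2,4,2,2,1,4],[(1,279),(0,5)],[(2,234),(1,269)]),
   ([2,7,0,0,4,2,7],[2,0,4,2,6,0,0,2,0,4,2],[1,1,3,5,6,4,2],[(1,279),(2,279),(0,174),(3,222)],[(4,290),(5,290),(0,84),(6,289),(5,296),(5,290),(4,281),(3,298)]),
   ([2,7,0,0,5,2,7],[0,0,2,0,4,2,6,4,4,2,0,4,2],[2,4,6,4,2],[(1,279),(2,279),(0,174),(3,213),(1,140),(0,298)],[(0,69),(0,17),(5,294),(4,289),(3,296),(3,290),(2,291),(1,298)]),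
   ([2,7,0,0,0,2,7],[1,2,1],[1,2,1],[(1,279),(2,279),(0,174),(3,290),(4,289),(2,260),(1,298),(3,293)],[]),
   ([2,7,0,4,4,2,0,4,2,2,7],[0,4,4,2,0,4,2,2,7,0,5],[0,2,4,6,5],[(1,279),(0,13),(2,48),(1,297),(5,296),(4,296),(2,238),(0,140)],[(2,235),(1,269),(4,270),(3,270),(2,291),(1,84),(0,299),(4,296),(0,119),(4,290),(3,291),(2,298)]),
   ([2,7,0,0,4,2,0,4,2,2,7],[0,5,2,7,0,0,4,2,0,4,2],[5,6,4,2,0],[(1,279),(2,279),(0,174),(4,235),(3,289),(2,296),(4,270),(3,291),(2,290),(1,298),(3,270),(2,291),(1,290),(0,298),(0,156)],[(3,279),(4,279),(2,174),(1,273),(0,299),(0,273),(4,235),(3,289),(2,296),(4,270),(3,291),(2,290),(1,281),(0,298)]),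
   ([2,7,0,0,4,4,2,7],[2,0,4,2,6,6,0,0,2,0,4,2],[1,1,3,5,5,3,1,1],[(1,279),(2,279),(0,174),(3,150),(4,132)],[(0,75),(5,191),(4,273),(3,299),(3,273),(6,290),(5,290),(4,281),(3,298),(4,132)]),
   ([2,7,0,0,5,5,2,7],[0,2,0,4,2,6,6,4,2,0,4,2],[2,4,4,2],[(1,279),(2,279),(0,174),(1,143),(0,298),(3,289),(4,293)],[(1,75),(0,299),(3,258),(1,260),(0,298),(3,296),(2,291),(1,298)]),
   ([2,7,0,0,0,5,2,7],[4,2,0,4,2,2,7,0,2,0,4,2],[2,0,4,6,4,2],[(1,279),(2,279),(0,174),(3,290),(4,213),(1,121),(0,298)],[(0,235),(2,270),(1,291),(3,270),(2,291),(0,103),(1,71),(0,298),(4,290),(3,298),(3,289),(2,296),(2,290),(1,291)]),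
   ([2,7,0,4,4,4,2,0,4,2,2,7],[1,4,4,4,2,0,4,2,2,7,0,4,2,0,4,2],[0,2,0,4,6,5,2,1],[(1,279),(5,235),(4,269),(3,269),(2,277),(0,270),(7,270),(1,23),(0,299),(5,296),(4,260),(3,281),(2,279),(3,153),(0,121)],[(3,235),(2,269),(1,269),(5,270),(4,270),(3,270),(2,291),(1,84),(6,260),(5,281),(4,298),(2,73),(1,298),(5,290),(4,298),(0,29),(5,216),(4,289),(3,296),(5,260),(4,281),(3,290),(2,291)]),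
   ([2,7,0,0,4,4,2,0,4,2,2,7],[4,6,1,1,1,4],[1,5,7,5],[(1,279),(2,279),(0,174),(3,91),(2,64),(1,298),(5,294),(4,296),(3,296),(1,238)],[(1,280),(0,282),(2,280),(1,282),(3,280),(2,282),(2,177),(1,298)]),
   ([2,7,0,0,4,4,4,2,7],[2,0,4,2,6,6,6,0,0,2,0,4,2],[1,1,3,5,6,5,3,1,1],[(1,279),(2,279),(0,174),(3,63)],[(0,75),(6,290),(7,290),(8,289),(5,191),(4,273),(3,299),(3,273),(7,290),(6,290),(5,290),(4,281),(3,298),(5,132)]),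
   ([2,7,0,0,5,5,5,2,7],[2,0,4,2,7,7,7,0,0,2,0,4,2],[2,4,7,4,2],[(1,279),(2,279),(0,174),(1,143),(0,298),(3,213),(2,295)],[(6,279),(5,279),(4,279),(3,167),(2,282),(1,299),(1,282),(5,279),(4,298),(4,277),(3,296),(3,279),(2,291),(1,298)]),
   ([2,7,0,0,0,4,2,0,4,2,2,7],[0,4,2,0,4,2,2,7,0,0,0,5,2,0,4,2],[1,2,0,5,6,4,2,0],[(1,279),(2,279),(0,174),(3,290),(5,235),(4,289),(2,260),(1,298),(5,270),(4,291),(3,290),(2,298),(4,270),(3,291),(2,290),(3,156)],[(1,235),(3,270),(2,291),(4,270),(3,291),(1,103),(0,299),(0,71),(5,290),(4,298),(4,290),(5,290),(1,28),(0,299),(5,235),(4,289),(3,296),(5,270),(4,291),(3,290),(2,281)]),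
   ([2,7,0,0,0,5,5,2,7],[5,2,4,2,0,4,2],[2,0,4,4,2],[(1,279),(2,279),(0,174),(3,290),(1,89),(0,298),(4,289),(5,293)],[(0,258),(2,296),(1,291)]),
   ([2,7,0,0,4,4,4,2,0,4,2,2,7],[1,4,2,7,0,0,5,2,0,4,2],[5,7,5,2,1],[(1,279),(2,279),(0,174),(3,31),(2,16),(1,298),(6,294),(5,296),(3,260),(2,281),(1,279),(0,298),(0,153)],[(3,279),(4,279),(2,174),(1,282),(2,282),(2,104),(1,298),(4,216),(3,277),(2,296),(4,260),(3,281),(2,279),(1,281),(0,298)]),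
   ([2,7,0,0,0,4,4,2,0,4,2,2,7],[1,4,4,2,0,4,2,2,7,1,4],[1,2,5,7,5],[(1,279),(2,279),(0,174),(3,290),(4,91),(2,19),(1,298),(6,294),(5,296),(4,296),(2,238)],[(2,235),(1,269),(4,270),(3,270),(2,291),(1,84),(6,296),(2,119),(1,298),(4,280),(3,282),(3,177),(2,298)]),
   ([2,7,0,2],[0,2,7,0],[0,2,0,7],[(1,279),(2,277),(0,270)],[(2,279)]),
   ([2,7,0,4,2],[4,4,6,1,1,4,4,2,0,4,2],[2,0,7,4,2],[(1,279)],[(2,280),(1,282),(0,282),(0,179),(3,273),(2,273),(1,272),(0,299),(2,294),(1,294),(0,277),(1,279)]),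
   ([2,7,0,0,2],[6,1,1],[1,1,6],[(1,279),(2,279),(0,174),(3,289),(2,296)],[(0,280),(1,280)]),
   ([2,7,0,4,4,2],[1,4,4,2,7,0,5,5],[2,0,7,4,4,2],[(1,279)],[(4,279),(1,60),(0,173),(4,203),(3,271),(1,261),(0,299)]),
   ([2,7,0,0,4,2],[1,2,7,0,2,0,4,2],[1,1,3,6,4,2],[(1,279),(2,279),(0,174)],[(2,279),(3,277),(1,270),(0,298),(2,279),(0,174)]),
   ([2,7,0,0,5,2],[0,5,5,2,7,0,4,4,2,0,4,2],[1,1,3,6,5,2],[(1,279),(2,279),(0,174)],[(4,279),(1,0),(0,299),(5,296),(4,281),(3,281),(2,279),(0,174),(1,143),(0,298),(1,193),(0,174)]),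
   ([2,7,0,0,2,0,4,2,6,6,6],[4,4,4,2,7,0,0,2,0,4,2],[0,4,7,5,2],[(1,279),(2,279),(0,174),(3,289),(2,296),(2,290),(1,298),(1,233),(0,177),(2,214),(1,294),(1,214)],[(4,279),(5,279),(3,174),(2,282),(1,282),(0,282),(3,282),(2,282),(1,282),(1,86),(0,298),(4,296),(3,281),(2,281),(1,279),(0,291),(4,294)]),
   ([2,7,0,0,2,0,4,2,7,7,7],[5,5,5,2,7,0,0,2,0,4,2],[1,5,5,5,6,4,2],[(1,279),(2,279),(0,174),(3,289),(2,296),(2,290),(1,298),(1,222),(2,222),(3,222)],[(4,279),(5,279),(3,174),(2,273),(1,273),(0,273),(3,273),(2,273),(1,273),(6,289),(5,296),(5,290),(4,281),(3,281),(2,281),(1,298)]),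
   ([2,4,6],[4,4,2,0,4,2,2,7,0],[2,4,6],[],[(1,235),(0,269),(3,270),(2,270),(1,291),(0,84),(5,296),(1,119),(0,298),(3,290),(2,291),(1,298)]),
   ([2,4,4,6],[2,7,0,0,5,5],[2,4,4,6],[],[(1,279),(2,279),(0,174),(1,143),(0,298)]),
   ([2,4,6,6],[1,4,2,0,4,4,2,0,4,2],[1,1,3,5],[(0,141)],[(1,235),(2,235),(4,270),(3,291),(1,50),(6,298),(4,247),(3,296),(4,296)]),
   ([2,0,2,7],[0,2,7,0],[0,2,0,7],[(0,270)],[(2,279)]),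
   ([2,0,4,2,7],[0,0,2,0,4,2,6,1,1,4,4],[2,0,4,2,7],[],[(0,69),(4,272),(5,272),(0,6),(6,294),(5,294)]),
   ([2,0,0,2,7],[6,1,1],[1,1,6],[(0,191),(3,293)],[(0,280),(1,280)]),
   ([2,0,4,4,2,7],[0,5,5,2,7,1,4,4],[2,0,4,4,2,7],[],[(4,272),(1,3),(0,299)]),
   ([2,0,0,4,2,7],[4,2,0,4,2,2,7,1],[2,0,0,4,2,7],[],[(0,235),(2,270),(1,291),(3,270),(2,291),(0,103),(1,71),(0,298),(4,280),(2,175),(1,291),(2,291)]),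
   ([2,0,0,5,2,7],[0,0,4,2,0,4,2,2,7,0,5,5],[2,0,0,5,2,7],[],[(2,235),(4,270),(3,291),(0,45),(3,249),(2,281),(1,298),(4,279),(3,298),(0,97)]),
   ([2,4,2],[4,2,4],[2,4,2],[],[(0,269)]),
   ([2,4,4,2],[0,2,0,4,2,6,6,4,2,0,4,2],[2,4,4,2],[],[(1,75),(0,299),(3,258),(1,260),(0,298),(3,296),(2,291),(1,298)]),
   ([2,0,4,2],[2,0,4,2],[2,0,4,2],[],[]),
   ([2,0,4,4,2],[5,2,4,2,0,4,2],[2,0,4,4,2],[],[(0,258),(2,296),(1,291)]),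
   ([6,6,6,4,6],[4,6,4,4,4],[0,0,5,7,4],[(2,268),(1,268),(0,268),(0,194)],[(0,194)]),
   ([6,6,6,4,4,6],[6,6,0,0,5,5],[0,0,6,6,5,5],[(2,195),(1,290),(0,290),(2,290),(1,290)],[(1,290),(0,290),(2,290),(1,290)]),
   ([6,6,6,4,6,6],[6,0,0,5],[0,0,6,5],[(2,268),(1,268),(0,268),(0,194),(3,256),(2,294)],[(0,290),(1,290)]),
   ([6,6,6,4,4,2,0,4,2,2,7],[4,4,2,0,4,2,2,7,4,4,4],[2,0,5,7,4],[(2,91),(1,25),(0,289),(1,290),(6,294),(5,296),(4,296),(2,244)],[(1,235),(0,269),(3,270),(2,270),(1,291),(0,84),(5,296),(1,119),(0,298),(1,177),(4,294)]),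
   ([6,6,6,4,6,6,6],[5,7,7,7,0,0,0,0,5],[0,0,6,5,6],[(2,268),(1,268),(0,268),(0,194),(3,256),(2,294)],[(3,279),(2,279),(1,279),(0,281),(4,279),(3,279),(2,279),(1,281),(0,187),(1,257),(3,291),(2,290),(1,281),(0,290),(4,291),(3,290),(2,281),(1,290),(5,295)]),
   ([6,6,6,7,7,7],[],[],[(2,293),(1,293),(0,293)],[]),
   ([7,7,7,6],[4,6,6,1,1,4],[7,7],[(2,292)],[(2,280),(1,280),(0,282),(0,176),(3,273),(2,272),(1,272),(0,299),(2,294)]),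
   ([7,7,7,4,6],[4,6,5,5,5],[4,6,5,5,5],[(2,256),(1,256),(0,256)],[]),
   ([7,7,7,6,6],[4,4,6,1,1,4,4],[7],[(2,292),(1,292)],[(2,280),(1,282),(0,282),(0,179),(3,273),(2,273),(1,272),(0,299),(2,294),(1,294)]),
   ([7,7,7,4,4,2,0,4,2,2,7],[4,4,2,0,4,2,2,7,5,5,5],[2,1,4,6,5,5,5],[(4,235),(3,269),(2,277),(1,277),(0,277),(6,270),(5,270),(4,291),(3,279),(2,279),(1,279),(0,167),(6,191),(5,282),(4,272),(1,168),(0,298),(4,282),(3,272),(2,272),(1,272),(4,256),(3,256),(2,256),(1,24),(0,167),(6,238),(5,238),(4,238),(1,119),(0,298)],[(1,235),(0,269),(3,270),(2,270),(1,291),(0,84),(5,296),(1,119),(0,298)]),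
   ([7,7,7,6,6,6],[],[],[(2,292),(1,292),(0,292)],[]),
   ([7,7,7,5,7,7,7],[4,6,6,6,1,1,1,1,4],[1,1,7,4,7],[(2,238),(1,238),(0,238),(0,169),(3,244),(2,295)],[(3,280),(2,280),(1,280),(0,282),(0,176),(2,245),(4,273),(3,272),(2,282),(1,272),(0,299),(3,273),(2,272),(1,282),(0,272),(4,273),(3,272),(2,282),(1,272),(5,294)]),
   ([2,0,4,2,0],[4,2,0,4,2],[2,0,4,2,0],[],[(0,235),(2,270),(1,291)]),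
   ([2,0,4,2,4],[0,2,0,4,2],[0,2,0,4,2],[(2,269),(0,270)],[]),
   ([2,0,4,2,2,0,4,2],[1,1,5,5],[1,1,5,5],[(0,74),(3,197),(2,296),(4,296)],[]),
   ([2,0,4,2,0,4,2],[2,2,0,4,2,0,4],[1,3,5,3,1],[(2,235),(0,270),(4,270),(3,291),(1,103),(0,299)],[(0,50),(3,215),(2,296)])]

end W828
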