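import Pool.Agent.W_828d9b_h4.PRel
import Pool.Agent.W_828d9b_h4.KBData

/-!
# Rewriting certificate: consequences of the braid relations
-/

namespace W828

abbrev Wd := List ℕ

/-- one rewriting step at a position with the rule of the given index -/
def stepW (rs : List (Wd × Wd)) (w : Wd) (st : ℕ × ℕ) : Option Wd :=
  match rs[st.2]? with
  | none => none
  | some p =>
    if (w.drop st.1).take p.1.length = p.1 then
      some (w.take st.1 ++ p.2 ++ w.drop (st.1 + p.1.length))
    else none

def runW (rs : List (Wd × Wd)) : Wd → List (ℕ × ℕ) → Option Wd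
  | w, [] => some w
  | w, st :: sts =>
    match stepW rs w st with
    | none => none
    | some w' => runW rs w' sts

def checkAll : List (Wd × Wd) → List (Wd × Wd × Wd × List (ℕ × ℕ) × List (ℕ × ℕ)) →
    Option (List (Wd × Wd))
  | rs, [] => some rs
  | rs, e :: es =>
    if runW rs e.2.2.1 e.2.2.2.1 = some e.1 ∧ runW rs e.2.2.1 e.2.2.2.2 = some e.2.1 then
      checkAll ((e.1, e.2.1) :: rs) es
    else none

def testOk (rs : List (Wd × Wd)) (e : Wd × Wd × Wd × List (ℕ × ℕ) × List (ℕ × ℕ)) : Bool :=
  decide (runW rs e.1 e.2.2.2.1 = some e.2.2.1) && decide (runW rs e.2.1 e.2.2.2.2 = some e.2.2.1)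

def checkTests : Bool :=
  match checkAll kbAx kbRules with
  | none => false
  | some rs => kbTests.all (testOk rs)

set_option maxRecDepth 100000 in
theorem checkTests_true : checkTests = true := by decide +kernel

variable {P : Type*} [Group P]

theorem ev_append (s : Fin 4 → P) (u v : Wd) : ev s (u ++ v) = ev s u * ev s v := by
  simp [ev]

theorem stepW_sound (s : Fin 4 → P) (rs : List (Wd × Wd))
    (hrs : ∀ p ∈ rs, ev s p.1 = ev s p.2) (w w' : Wd) (st : ℕ × ℕ)
    (h : stepW rs w st = some w') : ev s w = ev s w' := by
  unfold stepW at h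
  split at h
  · simp at h
  · rename_i p hp
    split_ifs at h with hc
    have hmem : p ∈ rs := List.mem_of_getElem? hp
    have h1 : w = w.take st.1 ++ (p.1 ++ w.drop (st.1 + p.1.length)) := by
      conv_lhs => rw [← List.take_append_drop st.1 w]
      congr 1
      conv_lhs => rw [← List.take_append_drop p.1.length (w.drop st.1)]
      rw [hc, List.drop_drop]
    have h2 : w' = w.take st.1 ++ p.2 ++ w.drop (st.1 + p.1.length) := by
      simpa using h.symm
    rw [h2, h1]
    simp only [ev_append, hrs p hmem]
    rw [← h1]
    simp [mul_assoc]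

theorem runW_sound (s : Fin 4 → P) (rs : List (Wd × Wd))
    (hrs : ∀ p ∈ rs, ev s p.1 = ev s p.2) (sts : List (ℕ × ℕ)) :
    ∀ (w w' : Wd), runW rs w sts = some w' → ev s w = ev s w' := by
  induction sts with
  | nil => intro w w' h; simp [runW] at h; rw [h]
  | cons st sts ih =>
    intro w w' h
    unfold runW at h
    split at h
    · simp at h
    · rename_i w1 hw1
      rw [stepW_sound s rs hrs w w1 st hw1]
      exact ih w1 w' h

theorem checkAll_sound (s : Fin 4 → P)
    (es : List (Wd × Wd × Wd × List (ℕ × ℕ) × List (ℕ × ℕ))) :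
    ∀ (rs rs' : List (Wd × Wd)), (∀ p ∈ rs, ev s p.1 = ev s p.2) →
      checkAll rs es = some rs' → ∀ p ∈ rs', ev s p.1 = ev s p.2 := by
  induction es with
  | nil => intro rs rs' hrs h; simp [checkAll] at h; rw [← h]; exact hrs
  | cons e es ih =>
    intro rs rs' hrs h
    unfold checkAll at h
    split_ifs at h with hc
    refine ih _ _ ?_ h
    intro p hp
    rcases List.mem_cons.mp hp with rfl | hp
    · have h1 := runW_sound s rs hrs _ _ _ hc.1
      have h2 := runW_sound s rs hrs _ _ _ hc.2
      exact h1.symm.trans h2
    · exact hrs p hp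

theorem ax_sound (s : Fin 4 → P) (hs : BRel s) : ∀ p ∈ kbAx, ev s p.1 = ev s p.2 := by
  have h1 := hs.r1
  have h2 := hs.r2
  simp only [pow_succ, pow_zero, one_mul] at h1 h2
  intro p hp
  simp only [kbAx, List.mem_cons, List.not_mem_nil, or_false] at hp
  rcases hp with rfl | rfl | rfl | rfl | rfl | rfl | rfl | rfl | rfl | rfl | rfl | rfl | rfl |
    rfl | rfl | rfl
  · simpa [ev, letter, mul_assoc] using h2
  · simpa [ev, letter, mul_assoc] using h1
  · simpa [ev, letter, mul_assoc] using hs.c13
  · simpa [ev, letter, mul_assoc] using hs.c03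
  · simpa [ev, letter, mul_assoc] using hs.c02
  · simpa [ev, letter, mul_assoc] using hs.b23
  · simpa [ev, letter, mul_assoc] using hs.b12
  · simpa [ev, letter, mul_assoc] using hs.b01
  all_goals simp [ev, letter]

/-- every test of the certificate is an identity in any group with the relations -/
theorem kb_tests (s : Fin 4 → P) (hs : BRel s) : ∀ e ∈ kbTests, ev s e.1 = ev s e.2.1 := by
  have hck := checkTests_true
  unfold checkTests at hck
  split at hck
  · simp at hck
  · rename_i rs hrs
    have hall := checkAll_sound s kbRules kbAx rs (ax_sound s hs) hrs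
    intro e he
    have := List.all_eq_true.mp hck e he
    simp only [testOk, Bool.and_eq_true, decide_eq_true_eq] at this
    exact (runW_sound s rs hall _ _ _ this.1).trans (runW_sound s rs hall _ _ _ this.2).symm

end W828
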