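import Mathlib

/-!
# Definitions for the statement

The group SU(n,1), cocompact lattices, Zariski density in SL_N.
-/

namespace W828

open Matrix

/-- the Hermitian form |x_0|^2 + ... + |x_{n-1}|^2 - |x_n|^2 -/
def Jn (n : ℕ) : Matrix (Fin (n + 1)) (Fin (n + 1)) ℂ :=
  diagonal (fun i => if i = Fin.last n then (-1 : ℂ) else 1)

/-- The matrix g preserves the Hermitian form: the conjugate transpose of g times Jn n times g
is Jn n. -/
def PreservesJ (n : ℕ) (g : SpecialLinearGroup (Fin (n + 1)) ℂ) : Prop :=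
  (g : Matrix (Fin (n + 1)) (Fin (n + 1)) ℂ)ᴴ * Jn n *
    (g : Matrix (Fin (n + 1)) (Fin (n + 1)) ℂ) = Jn n

theorem SUn_mul (n : ℕ) {x y : SpecialLinearGroup (Fin (n + 1)) ℂ}
    (hx : PreservesJ n x) (hy : PreservesJ n y) : PreservesJ n (x * y) := by
  unfold PreservesJ at *
  change ((x : Matrix (Fin (n + 1)) (Fin (n + 1)) ℂ) *
    (y : Matrix (Fin (n + 1)) (Fin (n + 1)) ℂ))ᴴ * Jn n *
    ((x : Matrix (Fin (n + 1)) (Fin (n + 1)) ℂ) *
    (y : Matrix (Fin (n + 1)) (Fin (n + 1)) ℂ)) = Jn n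
  rw [conjTranspose_mul]
  calc (y : Matrix (Fin (n + 1)) (Fin (n + 1)) ℂ)ᴴ *
        (x : Matrix (Fin (n + 1)) (Fin (n + 1)) ℂ)ᴴ * Jn n *
        ((x : Matrix (Fin (n + 1)) (Fin (n + 1)) ℂ) * (y : Matrix (Fin (n + 1)) (Fin (n + 1)) ℂ))
      = (y : Matrix (Fin (n + 1)) (Fin (n + 1)) ℂ)ᴴ *
        ((x : Matrix (Fin (n + 1)) (Fin (n + 1)) ℂ)ᴴ * Jn n *
          (x : Matrix (Fin (n + 1)) (Fin (n + 1)) ℂ)) *
        (y : Matrix (Fin (n + 1)) (Fin (n + 1)) ℂ) := by
        simp only [Matrix.mul_assoc]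
    _ = Jn n := by rw [hx]; exact hy

theorem SUn_one (n : ℕ) : PreservesJ n 1 := by
  unfold PreservesJ
  simp

theorem SUn_inv (n : ℕ) {x : SpecialLinearGroup (Fin (n + 1)) ℂ}
    (hx : PreservesJ n x) : PreservesJ n x⁻¹ := by
  unfold PreservesJ at *
  have h1 : (x : Matrix (Fin (n + 1)) (Fin (n + 1)) ℂ) *
      ((x⁻¹ : SpecialLinearGroup (Fin (n + 1)) ℂ) : Matrix (Fin (n + 1)) (Fin (n + 1)) ℂ) = 1 :=
    congrArg Subtype.val (mul_inv_cancel x)
  have h2 : ((x⁻¹ : SpecialLinearGroup (Fin (n + 1)) ℂ) :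
      Matrix (Fin (n + 1)) (Fin (n + 1)) ℂ)ᴴ *
      (x : Matrix (Fin (n + 1)) (Fin (n + 1)) ℂ)ᴴ = 1 := by
    rw [← conjTranspose_mul, h1, conjTranspose_one]
  generalize ((x⁻¹ : SpecialLinearGroup (Fin (n + 1)) ℂ) :
      Matrix (Fin (n + 1)) (Fin (n + 1)) ℂ) = B at *
  generalize (x : Matrix (Fin (n + 1)) (Fin (n + 1)) ℂ) = A at *
  calc Bᴴ * Jn n * B = Bᴴ * (Aᴴ * Jn n * A) * B := by rw [hx]
    _ = (Bᴴ * Aᴴ) * Jn n * (A * B) := by simp only [Matrix.mul_assoc]
    _ = Jn n := by rw [h1, h2]; simp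

/-- SU(n,1) as a subgroup of SL_{n+1}(C): the matrices preserving the form Jn n. -/
def SUn (n : ℕ) : Subgroup (SpecialLinearGroup (Fin (n + 1)) ℂ) where
  carrier := {g | PreservesJ n g}
  mul_mem' := SUn_mul n
  one_mem' := SUn_one n
  inv_mem' := SUn_inv n

/-- The group SU(n,1), with the topology of SL_{n+1}(C). -/
def SU (n : ℕ) : Type := SUn n

/-- the group structure of SU(n,1) (that of a subgroup of SL_{n+1}(C)) -/
noncomputable instance SU.group (n : ℕ) : Group (SU n) := inferInstanceAs (Group (SUn n))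

/-- the topology of SU(n,1) (the subspace topology) -/
instance SU.topologicalSpace (n : ℕ) : TopologicalSpace (SU n) :=
  inferInstanceAs (TopologicalSpace (SUn n))

/-- A cocompact (uniform) lattice: a discrete subgroup with compact quotient space. -/
def IsCocompactLattice {G : Type*} [Group G] [TopologicalSpace G] (Γ : Subgroup G) : Prop :=
  DiscreteTopology Γ ∧ CompactSpace (G ⧸ Γ)

/-- The group SL_N(Q_p). -/
def SLQ (N p : ℕ) [Fact p.Prime] : Type := SpecialLinearGroup (Fin N) ℚ_[p]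

/-- the group structure of SL_N(Q_p) -/
noncomputable instance SLQ.group (N p : ℕ) [Fact p.Prime] : Group (SLQ N p) :=
  inferInstanceAs (Group (SpecialLinearGroup (Fin N) ℚ_[p]))

/-- the p-adic topology of SL_N(Q_p) -/
noncomputable instance SLQ.topologicalSpace (N p : ℕ) [Fact p.Prime] :
    TopologicalSpace (SLQ N p) :=
  inferInstanceAs (TopologicalSpace (SpecialLinearGroup (Fin N) ℚ_[p]))

/-- The matrix of an element of SL_N(Q_p). -/
def SLQ.mat {N p : ℕ} [Fact p.Prime] : SLQ N p → Matrix (Fin N) (Fin N) ℚ_[p] :=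
  fun g : SpecialLinearGroup (Fin N) ℚ_[p] => g.1

/-- The matrix A is a scalar multiple of the identity. -/
def IsScalarMat {k : Type*} [Field k] {N : ℕ} (A : Matrix (Fin N) (Fin N) k) : Prop :=
  ∃ a : k, A = a • (1 : Matrix (Fin N) (Fin N) k)

/-- The value at the entries of A of a polynomial in N^2 variables. -/
noncomputable def entryEval {k : Type*} [Field k] {N : ℕ} (A : Matrix (Fin N) (Fin N) k)
    (f : MvPolynomial (Fin N × Fin N) k) : k :=
  MvPolynomial.eval (fun ij => A ij.1 ij.2) f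

section

variable {Γ : Type*} [Group Γ] {N p : ℕ} [Fact p.Prime]

/-- ρ is injective, and only the identity has a scalar image; so the composition of ρ with
the projection of SL_N to PGL_N is injective as well. -/
def Faithful (ρ : Γ →* SLQ N p) : Prop :=
  Function.Injective ρ ∧ ∀ γ : Γ, IsScalarMat (ρ γ).mat → γ = 1

/-- The image of ρ is Zariski dense in SL_N: every polynomial over Q_p in the matrix entries
which vanishes on the image vanishes on SL_N(Q_p). -/
def ZariskiDense (ρ : Γ →* SLQ N p) : Prop :=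
  ∀ f : MvPolynomial (Fin N × Fin N) ℚ_[p], (∀ γ : Γ, entryEval (ρ γ).mat f = 0) →
    ∀ h : SLQ N p, entryEval h.mat f = 0

/-- The image of ρ is contained in a compact subset of SL_N(Q_p). -/
def RelativelyCompact (ρ : Γ →* SLQ N p) : Prop :=
  ∃ C : Set (SLQ N p), IsCompact C ∧ ∀ γ : Γ, ρ γ ∈ C

end

instance fact11 : Fact (Nat.Prime 11) := ⟨by norm_num⟩

end W828
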