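import Pool.Agent.W_828d9b_h4.Emb
import Pool.Agent.W_828d9b_h4.Statement

/-!
# SU(n,1) and the lattice in SU(2,1)
-/

namespace W828

open Matrix

/-- the elements of GHat of determinant one -/
def SG : Subgroup GHat where
  carrier := {g | (toMat g).det = 1}
  mul_mem' := by
    intro x y hx hy
    simp only [Set.mem_ofPred_eq] at *
    rw [toMat_mul, det_mul, hx, hy, one_mul]
  one_mem' := by
    simp only [Set.mem_ofPred_eq]
    rw [toMat_one, det_one]
  inv_mem' := by
    intro x hx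
    simp only [Set.mem_ofPred_eq] at *
    have h : toMat x⁻¹ * toMat x = 1 := by rw [← toMat_mul, inv_mul_cancel, toMat_one]
    have h2 := congrArg det h
    rw [det_mul, hx, mul_one, det_one] at h2
    exact h2

/-- the matrix diag(1,1,sqrt tau) conjugates the form diag(1,1,-1) to diag(1,1,-tau) -/
noncomputable def Dm : Matrix (Fin 3) (Fin 3) ℂ :=
  diagonal ![1, 1, ((Real.sqrt tr : ℝ) : ℂ)]
noncomputable def Dmi : Matrix (Fin 3) (Fin 3) ℂ :=
  diagonal ![1, 1, (((Real.sqrt tr)⁻¹ : ℝ) : ℂ)]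

/-- the matrix of psi g -/
noncomputable def psiM (g : GHat) : Matrix (Fin 3) (Fin 3) ℂ :=
  Dm * (toMat g).map io * Dmi

theorem latt_tr_pos : 0 < tr := lt_trans (by norm_num) tr_gt

theorem latt_sq_tr_pos : 0 < Real.sqrt tr := Real.sqrt_pos.2 latt_tr_pos

theorem latt_sq_tr_ne : ((Real.sqrt tr : ℝ) : ℂ) ≠ 0 := by
  exact_mod_cast latt_sq_tr_pos.ne'

theorem latt_sq_tr_sq : ((Real.sqrt tr : ℝ) : ℂ) * ((Real.sqrt tr : ℝ) : ℂ) = (tr : ℂ) := by
  rw [← Complex.ofReal_mul, Real.mul_self_sqrt latt_tr_pos.le]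

theorem Dm_mul_Dmi : Dm * Dmi = 1 := by
  unfold Dm Dmi
  rw [diagonal_mul_diagonal, ← diagonal_one]
  congr 1
  funext i
  fin_cases i
  · simp
  · simp
  · show ((Real.sqrt tr : ℝ) : ℂ) * (((Real.sqrt tr)⁻¹ : ℝ) : ℂ) = 1
    rw [Complex.ofReal_inv, mul_inv_cancel₀ latt_sq_tr_ne]

theorem Dmi_mul_Dm : Dmi * Dm = 1 := mul_eq_one_comm.mp Dm_mul_Dmi

theorem psiM_mul (g h : GHat) : psiM (g * h) = psiM g * psiM h := by
  unfold psiM
  rw [toMat_mul, Matrix.map_mul]
  calc Dm * ((toMat g).map io * (toMat h).map io) * Dmi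
      = Dm * (toMat g).map io * 1 * (toMat h).map io * Dmi := by
        rw [Matrix.mul_one]
        simp only [Matrix.mul_assoc]
    _ = Dm * (toMat g).map io * (Dmi * Dm) * (toMat h).map io * Dmi := by rw [Dmi_mul_Dm]
    _ = Dm * (toMat g).map io * Dmi * (Dm * (toMat h).map io * Dmi) := by
        simp only [Matrix.mul_assoc]

theorem psiM_one : psiM 1 = 1 := by
  unfold psiM
  rw [toMat_one, Matrix.map_one _ (map_zero io) (map_one io), Matrix.mul_one, Dm_mul_Dmi]

/-- the complex form diag(1,1,-tau) -/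
theorem latt_H_map : H.map io = Dmᴴ * Jn 2 * Dm := by
  have e : Dmᴴ * Jn 2 * Dm = diagonal ![1, 1, -(tr : ℂ)] := by
    unfold Dm Jn
    rw [diagonal_conjTranspose, diagonal_mul_diagonal, diagonal_mul_diagonal]
    congr 1
    funext i
    fin_cases i
    · simp [Fin.last]
    · simp [Fin.last]
    · have h1 : (if (2 : Fin 3) = Fin.last 2 then (-1 : ℂ) else 1) = -1 := if_pos rfl
      show star (((Real.sqrt tr : ℝ) : ℂ)) * (if (2 : Fin 3) = Fin.last 2 then (-1 : ℂ) else 1) *
        ((Real.sqrt tr : ℝ) : ℂ) = -(tr : ℂ)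
      rw [h1]
      have h2 : star (((Real.sqrt tr : ℝ) : ℂ)) = ((Real.sqrt tr : ℝ) : ℂ) := Complex.conj_ofReal _
      rw [h2, mul_neg_one, neg_mul, latt_sq_tr_sq]
  rw [e]
  ext i j
  rw [map_apply]
  fin_cases i <;> fin_cases j <;> simp [H, io_tau]

theorem psiM_unitary (g : GHat) : (psiM g)ᴴ * Jn 2 * psiM g = Jn 2 := by
  have h1 : ((toMat g).map io)ᴴ = ((toMat g)ᴴ).map io := by
    rw [conjTranspose_map _ (fun x => io_star x)]
  have h2 : ((toMat g).map io)ᴴ * (H.map io) * ((toMat g).map io) = H.map io := by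
    rw [h1, ← Matrix.map_mul, ← Matrix.map_mul, toMat_unitary]
  have h3 : Dmiᴴ * Dmᴴ = 1 := by
    rw [← conjTranspose_mul, Dm_mul_Dmi, conjTranspose_one]
  unfold psiM
  rw [conjTranspose_mul, conjTranspose_mul]
  calc Dmiᴴ * (((toMat g).map io)ᴴ * Dmᴴ) * Jn 2 * (Dm * (toMat g).map io * Dmi)
      = Dmiᴴ * (((toMat g).map io)ᴴ * (Dmᴴ * Jn 2 * Dm) * (toMat g).map io) * Dmi := by
        simp only [Matrix.mul_assoc]
    _ = Dmiᴴ * (Dmᴴ * Jn 2 * Dm) * Dmi := by rw [← latt_H_map, h2]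
    _ = (Dmiᴴ * Dmᴴ) * Jn 2 * (Dm * Dmi) := by simp only [Matrix.mul_assoc]
    _ = Jn 2 := by rw [h3, Dm_mul_Dmi]; simp

theorem psiM_det (g : GHat) (hg : (toMat g).det = 1) : (psiM g).det = 1 := by
  unfold psiM
  have h1 : ((toMat g).map io).det = 1 := by
    have := RingHom.map_det io (toMat g)
    rw [hg, map_one] at this
    exact this.symm
  have h2 : Dm.det * Dmi.det = 1 := by rw [← det_mul, Dm_mul_Dmi, det_one]
  rw [det_mul, det_mul, h1, mul_one, h2]

/-- the embedding of SG in SU(2,1) -/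
noncomputable def psi : SG →* SUn 2 where
  toFun g := ⟨⟨psiM g.1, by
    exact psiM_det g.1 g.2⟩, by
    exact psiM_unitary g.1⟩
  map_one' := by
    apply Subtype.ext
    apply Subtype.ext
    exact psiM_one
  map_mul' := by
    intro g h
    apply Subtype.ext
    apply Subtype.ext
    exact psiM_mul g.1 h.1

theorem psi_apply (g : SG) : ((psi g).1 : Matrix (Fin 3) (Fin 3) ℂ) = psiM g.1 := rfl

theorem map_eq_psiM (g : GHat) : (toMat g).map io = Dmi * psiM g * Dm := by
  unfold psiM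
  calc (toMat g).map io = 1 * (toMat g).map io * 1 := by rw [Matrix.one_mul, Matrix.mul_one]
    _ = (Dmi * Dm) * (toMat g).map io * (Dmi * Dm) := by rw [Dmi_mul_Dm]
    _ = Dmi * (Dm * (toMat g).map io * Dmi) * Dm := by simp only [Matrix.mul_assoc]

theorem psi_injective : Function.Injective psi := by
  intro g h hgh
  have h1 : psiM g.1 = psiM h.1 := by rw [← psi_apply, ← psi_apply, hgh]
  have h2 : (toMat g.1).map io = (toMat h.1).map io := by
    rw [map_eq_psiM, map_eq_psiM, h1]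
  apply Subtype.ext
  apply toMat_injective
  ext i j : 1
  · have h3 := congrFun (congrFun h2 i) j
    exact io_injective h3

theorem latt_nsq_add (x : Z5) : ((x.a : ℝ) ^ 2 + (x.b : ℝ) ^ 2 + (x.c : ℝ) ^ 2 + (x.d : ℝ) ^ 2) / 2 ≤
    nsq x + nsq' x := by
  unfold nsq nsq' Z5.nA Z5.nB
  push_cast
  nlinarith [sq_nonneg ((x.a : ℝ) - x.b), sq_nonneg ((x.a : ℝ) - x.c), sq_nonneg ((x.a : ℝ) - x.d),
    sq_nonneg ((x.b : ℝ) - x.c), sq_nonneg ((x.b : ℝ) - x.d), sq_nonneg ((x.c : ℝ) - x.d)]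

theorem latt_finite_Z5 (B : ℝ) : {x : Z5 | nsq x + nsq' x ≤ B}.Finite := by
  have hinj : Function.Injective (fun x : Z5 => ((x.a, x.b, x.c, x.d) : ℤ × ℤ × ℤ × ℤ)) := by
    intro x y h
    simp only [Prod.mk.injEq] at h
    exact Z5.ext h.1 h.2.1 h.2.2.1 h.2.2.2
  have hfin : (Set.Icc (-⌈2 * B⌉) ⌈2 * B⌉ ×ˢ (Set.Icc (-⌈2 * B⌉) ⌈2 * B⌉ ×ˢ
      (Set.Icc (-⌈2 * B⌉) ⌈2 * B⌉ ×ˢ Set.Icc (-⌈2 * B⌉) ⌈2 * B⌉)) : Set (ℤ × ℤ × ℤ × ℤ)).Finite :=
    (Set.finite_Icc _ _).prod ((Set.finite_Icc _ _).prod ((Set.finite_Icc _ _).prod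
      (Set.finite_Icc _ _)))
  refine (hfin.preimage hinj.injOn).subset ?_
  intro x hx
  simp only [Set.mem_ofPred_eq] at hx
  have h1 := (latt_nsq_add x).trans hx
  have hint : ∀ n : ℤ, (n : ℝ) ^ 2 ≤ 2 * B → n ∈ Set.Icc (-⌈2 * B⌉) ⌈2 * B⌉ := by
    intro n hn
    have h3 : |n| ≤ n ^ 2 := by
      rcases le_or_gt 0 n with h | h
      · rw [abs_of_nonneg h]; nlinarith
      · rw [abs_of_neg h]; nlinarith
    have h4 : ((|n| : ℤ) : ℝ) ≤ 2 * B := by
      calc ((|n| : ℤ) : ℝ) ≤ ((n ^ 2 : ℤ) : ℝ) := by exact_mod_cast h3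
        _ = (n : ℝ) ^ 2 := by push_cast; ring
        _ ≤ 2 * B := hn
    have h5 : |n| ≤ ⌈2 * B⌉ := by exact_mod_cast h4.trans (Int.le_ceil _)
    exact abs_le.1 h5
  refine ⟨hint _ ?_, hint _ ?_, hint _ ?_, hint _ ?_⟩
  · nlinarith [sq_nonneg (x.b : ℝ), sq_nonneg (x.c : ℝ), sq_nonneg (x.d : ℝ)]
  · nlinarith [sq_nonneg (x.a : ℝ), sq_nonneg (x.c : ℝ), sq_nonneg (x.d : ℝ)]
  · nlinarith [sq_nonneg (x.b : ℝ), sq_nonneg (x.a : ℝ), sq_nonneg (x.d : ℝ)]
  · nlinarith [sq_nonneg (x.b : ℝ), sq_nonneg (x.c : ℝ), sq_nonneg (x.a : ℝ)]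

/-- the weights of the definite form diag(1,1,tau+1) -/
noncomputable def lattW : Fin 3 → ℝ := ![1, 1, tr + 1]

theorem latt_H_map' : H.map io' = diagonal (fun i => ((lattW i : ℝ) : ℂ)) := by
  ext i j
  rw [map_apply]
  fin_cases i <;> fin_cases j <;> simp [H, lattW, io'_tau]

theorem latt_hw_le (i : Fin 3) : lattW i ≤ 2 := by
  have := tr_lt
  fin_cases i
  · show (1 : ℝ) ≤ 2
    norm_num
  · show (1 : ℝ) ≤ 2
    norm_num
  · show tr + 1 ≤ 2
    linarith

theorem latt_one_le_hw (i : Fin 3) : 1 ≤ lattW i := by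
  have := latt_tr_pos
  fin_cases i
  · show (1 : ℝ) ≤ 1
    norm_num
  · show (1 : ℝ) ≤ 1
    norm_num
  · show 1 ≤ tr + 1
    linarith

theorem latt_nsq'_le (g : GHat) (i j : Fin 3) : nsq' (toMat g i j) ≤ 2 := by
  have h1 : ((toMat g).map io')ᴴ = ((toMat g)ᴴ).map io' := by
    rw [conjTranspose_map _ (fun x => io'_star x)]
  have h2 : ((toMat g).map io')ᴴ * (H.map io') * ((toMat g).map io') = H.map io' := by
    rw [h1, ← Matrix.map_mul, ← Matrix.map_mul, toMat_unitary]
  rw [latt_H_map'] at h2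
  have h3 := congrFun (congrFun h2 j) j
  rw [diagonal_apply_eq, Matrix.mul_apply] at h3
  have h4 : ∑ k, lattW k * nsq' (toMat g k j) = lattW j := by
    have h5 : ((∑ k, lattW k * nsq' (toMat g k j) : ℝ) : ℂ) = ((lattW j : ℝ) : ℂ) := by
      rw [← h3]
      push_cast
      refine Finset.sum_congr rfl fun k _ => ?_
      rw [mul_diagonal, conjTranspose_apply, map_apply, ← normSq_io',
        Complex.normSq_eq_conj_mul_self]
      show _ = (starRingEnd ℂ) (io' (toMat g k j)) * _ * _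
      ring
    exact_mod_cast h5
  have hnn : ∀ k, 0 ≤ lattW k * nsq' (toMat g k j) := by
    intro k
    rw [← normSq_io']
    exact mul_nonneg (zero_le_one.trans (latt_one_le_hw k)) (Complex.normSq_nonneg _)
  have h6 : lattW i * nsq' (toMat g i j) ≤ lattW j := by
    rw [← h4]
    exact Finset.single_le_sum (f := fun k => lattW k * nsq' (toMat g k j)) (fun k _ => hnn k)
      (Finset.mem_univ i)
  have h7 : 0 ≤ nsq' (toMat g i j) := by
    rw [← normSq_io']
    exact Complex.normSq_nonneg _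
  calc nsq' (toMat g i j) = 1 * nsq' (toMat g i j) := (one_mul _).symm
    _ ≤ lattW i * nsq' (toMat g i j) := mul_le_mul_of_nonneg_right (latt_one_le_hw i) h7
    _ ≤ lattW j := h6
    _ ≤ 2 := latt_hw_le j

/-- in every bounded set there are only finitely many elements of GHat (the entries of the
conjugate matrices (toMat g).map io' are bounded because diag(1,1,tau+1) is definite,
and an element of Z5 with bounded nsq and nsq' lies in a finite set,
nsq x + nsq' x = 2 nA x - nB x ≥ (a^2+b^2+c^2+d^2)/2). -/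
theorem finite_bounded (C : ℝ) : {g : GHat | ∀ i j, ‖io (toMat g i j)‖ ≤ C}.Finite := by
  have hfin : (Set.univ.pi fun _ : Fin 3 => (Set.univ.pi fun _ : Fin 3 =>
      {x : Z5 | nsq x + nsq' x ≤ C ^ 2 + 2})).Finite :=
    Set.Finite.pi fun _ => Set.Finite.pi fun _ => latt_finite_Z5 _
  have hinj : Function.Injective (fun (g : GHat) (i j : Fin 3) => toMat g i j) := by
    intro g h hgh
    apply toMat_injective
    ext i j : 1
    exact congrFun (congrFun hgh i) j
  refine (hfin.preimage hinj.injOn).subset ?_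
  intro g hg
  simp only [Set.mem_ofPred_eq] at hg
  intro i _ j _
  show nsq (toMat g i j) + nsq' (toMat g i j) ≤ C ^ 2 + 2
  have h1 : nsq (toMat g i j) ≤ C ^ 2 := by
    rw [← normSq_io, Complex.normSq_eq_norm_sq]
    exact pow_le_pow_left₀ (norm_nonneg _) (hg i j) 2
  have h2 := latt_nsq'_le g i j
  linarith

/-- the matrix of an element of SU(n,1) -/
def lattM {n : ℕ} (g : SUn n) : Matrix (Fin (n + 1)) (Fin (n + 1)) ℂ := g.1.1

theorem lattM_inducing (n : ℕ) : Topology.IsInducing (lattM : SUn n → _) :=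
  Topology.IsInducing.subtypeVal.comp Topology.IsInducing.subtypeVal

theorem lattM_injective (n : ℕ) : Function.Injective (lattM : SUn n → _) := by
  intro g h hgh
  exact Subtype.ext (Subtype.ext hgh)

theorem continuous_lattM (n : ℕ) (i j : Fin (n + 1)) : Continuous fun g : SUn n => lattM g i j :=
  (continuous_apply_apply i j).comp (lattM_inducing n).continuous

/-- every subgroup of the range of psi is discrete -/
theorem discrete_of_le (Γ : Subgroup (SUn 2)) (h : Γ ≤ psi.range) : DiscreteTopology Γ := by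
  apply discreteTopology_of_isOpen_singleton_one
  -- the neighbourhood of the identity
  let U : Set Γ := {γ | ∀ i j, ‖lattM γ.1 i j‖ < 2}
  have hU : IsOpen U := by
    have : U = ⋂ i, ⋂ j, {γ : Γ | ‖lattM γ.1 i j‖ < 2} := by
      ext γ
      simp [U]
    rw [this]
    refine isOpen_iInter_of_finite fun i => isOpen_iInter_of_finite fun j => ?_
    exact isOpen_lt (((continuous_lattM 2 i j).comp continuous_subtype_val).norm) continuous_const
  have h1U : (1 : Γ) ∈ U := by
    intro i j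
    show ‖(1 : Matrix (Fin 3) (Fin 3) ℂ) i j‖ < 2
    rw [Matrix.one_apply]
    split_ifs <;> norm_num
  have hfin : U.Finite := by
    have hr : 0 < Real.sqrt tr := latt_sq_tr_pos
    obtain ⟨C, hC⟩ : ∃ C : ℝ, ∀ i j : Fin 3, ‖Dmi i i‖ * 2 * ‖Dm j j‖ ≤ C := by
      refine ⟨∑ i, ∑ j, ‖Dmi i i‖ * 2 * ‖Dm j j‖, fun i j => ?_⟩
      refine le_trans ?_ (Finset.single_le_sum (f := fun i => ∑ j, ‖Dmi i i‖ * 2 * ‖Dm j j‖)
        (fun k _ => Finset.sum_nonneg fun l _ => by positivity) (Finset.mem_univ i))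
      exact Finset.single_le_sum (f := fun j => ‖Dmi i i‖ * 2 * ‖Dm j j‖)
        (fun l _ => by positivity) (Finset.mem_univ j)
    have hfb := finite_bounded C
    have hpre : ∀ γ : Γ, ∃ g : SG, psi g = γ.1 := fun γ => h γ.2
    choose f hf using hpre
    have hfinj : Function.Injective (fun γ : Γ => ((f γ : SG) : GHat)) := by
      intro γ δ hγδ
      have h1 : f γ = f δ := Subtype.ext hγδ
      apply Subtype.ext
      rw [← hf γ, ← hf δ, h1]
    refine (hfb.preimage hfinj.injOn).subset ?_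
    intro γ hγ
    show ∀ i j, ‖io (toMat (f γ : GHat) i j)‖ ≤ C
    intro i j
    have h2 : psiM (f γ : GHat) = lattM γ.1 := by
      rw [← psi_apply]
      show lattM (psi (f γ)) = lattM γ.1
      rw [hf]
    have h3 : io (toMat (f γ : GHat) i j) = Dmi i i * lattM γ.1 i j * Dm j j := by
      have h4 := congrFun (congrFun (map_eq_psiM (f γ : GHat)) i) j
      rw [map_apply, h2] at h4
      rw [h4]
      have e1 : Dmi = diagonal ![1, 1, (((Real.sqrt tr)⁻¹ : ℝ) : ℂ)] := rfl
      have e2 : Dm = diagonal ![1, 1, ((Real.sqrt tr : ℝ) : ℂ)] := rfl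
      rw [e1, e2, mul_diagonal, diagonal_mul, diagonal_apply_eq, diagonal_apply_eq]
    rw [h3, norm_mul, norm_mul]
    refine le_trans ?_ (hC i j)
    have h5 : ‖lattM γ.1 i j‖ ≤ 2 := (hγ i j).le
    gcongr
  have hset : ({1} : Set Γ) = U \ (U \ {1}) := by
    ext γ
    simp only [Set.mem_singleton_iff, Set.mem_sdiff, not_and, not_not]
    constructor
    · rintro rfl
      exact ⟨h1U, fun _ => rfl⟩
    · rintro ⟨h2, h3⟩
      exact h3 h2
  rw [hset]
  exact hU.sdiff (hfin.subset Set.sdiff_subset).isClosed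

/-- the diagonal of the form Jn 2 -/
def lattJ : Fin 3 → ℝ := ![1, 1, -1]

theorem latt_Jn_two : Jn 2 = diagonal (fun i : Fin 3 => ((lattJ i : ℝ) : ℂ)) := by
  unfold Jn lattJ
  congr 1
  funext i
  fin_cases i
  · simp [Fin.last]
  · simp [Fin.last]
  · show (if (2 : Fin 3) = Fin.last 2 then (-1 : ℂ) else 1) = (((-1 : ℝ)) : ℂ)
    have h1 : (if (2 : Fin 3) = Fin.last 2 then (-1 : ℂ) else 1) = -1 := if_pos rfl
    rw [h1]
    simp

/-- the set of elements with bounded corner entry is compact -/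
theorem isCompact_corner (C : ℝ) :
    IsCompact {g : SUn 2 | Complex.normSq ((g.1 : Matrix (Fin 3) (Fin 3) ℂ) 2 2) ≤ C} := by
  rw [(lattM_inducing 2).isCompact_iff]
  have himg : lattM '' {g : SUn 2 | Complex.normSq ((g.1 : Matrix (Fin 3) (Fin 3) ℂ) 2 2) ≤ C} =
      {M : Matrix (Fin 3) (Fin 3) ℂ | M.det = 1 ∧ Mᴴ * Jn 2 * M = Jn 2 ∧
        Complex.normSq (M 2 2) ≤ C} := by
    ext M
    constructor
    · rintro ⟨g, hg, rfl⟩
      exact ⟨g.1.2, g.2, hg⟩
    · rintro ⟨h1, h2, h3⟩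
      exact ⟨⟨⟨M, h1⟩, h2⟩, h3, rfl⟩
  rw [himg]
  have hK : IsCompact (Set.univ.pi fun _ : Fin 3 => (Set.univ.pi fun _ : Fin 3 =>
      Metric.closedBall (0 : ℂ) (1 + |C|))) :=
    isCompact_univ_pi fun _ => isCompact_univ_pi fun _ => isCompact_closedBall _ _
  refine IsCompact.of_isClosed_subset (hK : IsCompact (X := Matrix (Fin 3) (Fin 3) ℂ) _) ?_ ?_
  · have c1 : IsClosed {M : Matrix (Fin 3) (Fin 3) ℂ | M.det = 1} :=
      isClosed_eq (continuous_id.matrix_det) continuous_const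
    have c2 : IsClosed {M : Matrix (Fin 3) (Fin 3) ℂ | Mᴴ * Jn 2 * M = Jn 2} :=
      isClosed_eq ((continuous_id.matrix_conjTranspose.matrix_mul continuous_const).matrix_mul
        continuous_id) continuous_const
    have c3 : IsClosed {M : Matrix (Fin 3) (Fin 3) ℂ | Complex.normSq (M 2 2) ≤ C} :=
      isClosed_le (Complex.continuous_normSq.comp (continuous_id.matrix_elem 2 2)) continuous_const
    exact c1.inter (c2.inter c3)
  · rintro M ⟨-, h2, h3⟩
    have hJ : Jn 2 * Jn 2 = 1 := by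
      unfold Jn
      rw [diagonal_mul_diagonal, ← diagonal_one]
      congr 1
      funext i
      split_ifs <;> norm_num
    have h4 : M * Jn 2 * Mᴴ = Jn 2 := by
      have h5 : (Jn 2 * Mᴴ * Jn 2) * M = 1 := by
        calc (Jn 2 * Mᴴ * Jn 2) * M = Jn 2 * (Mᴴ * Jn 2 * M) := by simp only [Matrix.mul_assoc]
          _ = 1 := by rw [h2, hJ]
      have h6 : M * (Jn 2 * Mᴴ * Jn 2) = 1 := mul_eq_one_comm.mp h5
      calc M * Jn 2 * Mᴴ = M * Jn 2 * Mᴴ * (Jn 2 * Jn 2) := by rw [hJ, Matrix.mul_one]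
        _ = M * (Jn 2 * Mᴴ * Jn 2) * Jn 2 := by simp only [Matrix.mul_assoc]
        _ = Jn 2 := by rw [h6, Matrix.one_mul]
    have hrow : ∀ i : Fin 3, Complex.normSq (M i 0) + Complex.normSq (M i 1) -
        Complex.normSq (M i 2) ≤ 1 := by
      intro i
      have h7 := congrFun (congrFun h4 i) i
      rw [latt_Jn_two, diagonal_apply_eq, Matrix.mul_apply] at h7
      have h8 : ∑ k, lattJ k * Complex.normSq (M i k) = lattJ i := by
        have h9 : ((∑ k, lattJ k * Complex.normSq (M i k) : ℝ) : ℂ) = ((lattJ i : ℝ) : ℂ) := by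
          rw [← h7]
          push_cast
          refine Finset.sum_congr rfl fun k _ => ?_
          rw [mul_diagonal, conjTranspose_apply, Complex.normSq_eq_conj_mul_self]
          show _ = _ * _ * (starRingEnd ℂ) (M i k)
          ring
        exact_mod_cast h9
      rw [Fin.sum_univ_three] at h8
      have e0 : lattJ 0 = 1 := rfl
      have e1 : lattJ 1 = 1 := rfl
      have e2 : lattJ 2 = -1 := rfl
      have e3 : lattJ i ≤ 1 := by
        fin_cases i
        · exact e0.le
        · exact e1.le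
        · show lattJ 2 ≤ 1
          rw [e2]
          norm_num
      rw [e0, e1, e2] at h8
      linarith
    have hcol : Complex.normSq (M 0 2) + Complex.normSq (M 1 2) - Complex.normSq (M 2 2) = -1 := by
      have h7 := congrFun (congrFun h2 2) 2
      rw [latt_Jn_two, diagonal_apply_eq, Matrix.mul_apply] at h7
      have h8 : ∑ k, lattJ k * Complex.normSq (M k 2) = lattJ 2 := by
        have h9 : ((∑ k, lattJ k * Complex.normSq (M k 2) : ℝ) : ℂ) = ((lattJ 2 : ℝ) : ℂ) := by
          rw [← h7]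
          push_cast
          refine Finset.sum_congr rfl fun k _ => ?_
          rw [mul_diagonal, conjTranspose_apply, Complex.normSq_eq_conj_mul_self]
          show _ = (starRingEnd ℂ) (M k 2) * _ * _
          ring
        exact_mod_cast h9
      rw [Fin.sum_univ_three] at h8
      have e0 : lattJ 0 = 1 := rfl
      have e1 : lattJ 1 = 1 := rfl
      have e2 : lattJ 2 = -1 := rfl
      rw [e0, e1, e2] at h8
      linarith
    have h22 : Complex.normSq (M 2 2) ≤ C := h3
    have n02 := Complex.normSq_nonneg (M 0 2)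
    have n12 := Complex.normSq_nonneg (M 1 2)
    have n22 := Complex.normSq_nonneg (M 2 2)
    have hC0 : 0 ≤ C := n22.trans h22
    have hlast : ∀ i, Complex.normSq (M i 2) ≤ C := by
      intro i
      fin_cases i
      · show Complex.normSq (M 0 2) ≤ C
        linarith
      · show Complex.normSq (M 1 2) ≤ C
        linarith
      · exact h22
    have hall : ∀ i j, Complex.normSq (M i j) ≤ 1 + C := by
      intro i j
      have r1 := hrow i
      have r2 := hlast i
      have m0 := Complex.normSq_nonneg (M i 0)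
      have m1 := Complex.normSq_nonneg (M i 1)
      fin_cases j
      · show Complex.normSq (M i 0) ≤ 1 + C
        linarith
      · show Complex.normSq (M i 1) ≤ 1 + C
        linarith
      · show Complex.normSq (M i 2) ≤ 1 + C
        linarith
    intro i _ j _
    rw [mem_closedBall_zero_iff]
    have h10 := hall i j
    rw [Complex.normSq_eq_norm_sq] at h10
    rw [abs_of_nonneg hC0]
    have h11 := norm_nonneg (M i j)
    nlinarith

end W828
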