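import Pool.Agent.W_828d9b_h4.BP

/-!
# Intertwiners at w = 0 (data)
-/

namespace W828


def qL : List (List (List Z5)) := [
  [[⟨1,0,0,0⟩, ⟨0,1,0,0⟩, ⟨0,0,0,1⟩], [⟨0,0,0,-1⟩, ⟨0,1,0,0⟩, ⟨0,0,0,1⟩], [⟨0,0,0,0⟩, ⟨0,1,0,1⟩, ⟨0,0,0,0⟩]],
  [[⟨1,0,0,0⟩, ⟨0,1,0,0⟩, ⟨0,0,0,1⟩], [⟨0,0,0,-1⟩, ⟨0,1,0,0⟩, ⟨0,0,0,1⟩], [⟨0,0,0,0⟩, ⟨0,1,0,1⟩, ⟨0,0,0,0⟩]],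
  [[⟨1,0,0,0⟩, ⟨0,1,0,0⟩, ⟨0,0,0,1⟩], [⟨0,0,0,-1⟩, ⟨0,1,0,0⟩, ⟨0,0,0,1⟩], [⟨0,0,0,0⟩, ⟨0,1,0,1⟩, ⟨0,0,0,0⟩]],
  [[⟨1,0,0,0⟩, ⟨0,1,0,0⟩, ⟨0,0,0,1⟩], [⟨-1,0,0,0⟩, ⟨0,0,0,1⟩, ⟨1,0,0,0⟩], [⟨0,0,0,0⟩, ⟨1,0,0,1⟩, ⟨0,0,0,0⟩]],
  [[⟨0,0,1,0⟩, ⟨0,0,0,1⟩, ⟨1,0,0,0⟩], [⟨0,0,0,-1⟩, ⟨0,1,0,0⟩, ⟨0,0,0,1⟩], [⟨0,0,0,0⟩, ⟨0,1,0,1⟩, ⟨0,0,0,0⟩]],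
  [[⟨1,0,0,0⟩, ⟨0,1,0,0⟩, ⟨0,0,0,1⟩], [⟨-1,0,0,0⟩, ⟨0,0,0,1⟩, ⟨1,0,0,0⟩], [⟨0,0,0,0⟩, ⟨0,1,0,1⟩, ⟨0,0,0,0⟩]],
  [[⟨1,0,0,0⟩, ⟨0,0,0,-1⟩, ⟨0,0,0,1⟩], [⟨0,0,0,-1⟩, ⟨0,0,0,-1⟩, ⟨0,0,0,1⟩], [⟨0,0,0,0⟩, ⟨0,-1,0,-1⟩, ⟨0,0,0,0⟩]],
  [[⟨1,0,0,0⟩, ⟨0,0,0,-1⟩, ⟨0,0,0,1⟩], [⟨0,0,0,-1⟩, ⟨0,0,0,-1⟩, ⟨0,0,0,1⟩], [⟨0,0,0,0⟩, ⟨0,-1,0,-1⟩, ⟨0,0,0,0⟩]],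
  [[⟨0,0,1,0⟩, ⟨-1,0,0,0⟩, ⟨1,0,0,0⟩], [⟨-1,0,0,0⟩, ⟨-1,0,0,0⟩, ⟨1,0,0,0⟩], [⟨0,0,0,0⟩, ⟨-1,0,0,-1⟩, ⟨0,0,0,0⟩]],
  [[⟨0,0,0,1⟩, ⟨0,-1,0,0⟩, ⟨0,1,0,0⟩], [⟨0,0,0,-1⟩, ⟨0,0,0,-1⟩, ⟨0,0,0,1⟩], [⟨0,0,0,0⟩, ⟨0,-1,0,-1⟩, ⟨0,0,0,0⟩]],
  [[⟨0,0,1,0⟩, ⟨-1,0,0,0⟩, ⟨1,0,0,0⟩], [⟨0,0,0,-1⟩, ⟨0,0,0,-1⟩, ⟨0,0,0,1⟩], [⟨0,0,0,0⟩, ⟨0,-1,0,-1⟩, ⟨0,0,0,0⟩]],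
  [[⟨0,0,1,0⟩, ⟨-1,0,0,0⟩, ⟨1,0,0,0⟩], [⟨0,0,-1,0⟩, ⟨0,0,-1,0⟩, ⟨0,0,1,0⟩], [⟨0,0,0,0⟩, ⟨-1,0,0,-1⟩, ⟨0,0,0,0⟩]],
  [[⟨0,0,0,1⟩, ⟨0,-1,0,0⟩, ⟨0,1,0,0⟩], [⟨0,-1,0,0⟩, ⟨0,-1,0,0⟩, ⟨0,1,0,0⟩], [⟨0,0,0,0⟩, ⟨0,-1,0,0⟩, ⟨-1,0,0,-1⟩]],
  [[⟨0,0,0,1⟩, ⟨0,-1,0,0⟩, ⟨0,1,0,0⟩], [⟨0,-1,0,0⟩, ⟨0,-1,0,0⟩, ⟨0,1,0,0⟩], [⟨0,0,0,0⟩, ⟨0,-1,0,0⟩, ⟨-1,0,0,-1⟩]],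
  [[⟨0,0,0,1⟩, ⟨0,-1,0,0⟩, ⟨0,1,0,0⟩], [⟨0,-1,0,0⟩, ⟨0,-1,0,0⟩, ⟨0,1,0,0⟩], [⟨0,0,0,0⟩, ⟨0,-1,0,0⟩, ⟨-1,0,0,-1⟩]],
  [[⟨0,0,0,1⟩, ⟨0,-1,0,0⟩, ⟨0,1,0,0⟩], [⟨0,0,0,-1⟩, ⟨0,0,0,-1⟩, ⟨0,0,0,1⟩], [⟨0,0,0,0⟩, ⟨0,0,0,-1⟩, ⟨-1,0,-1,0⟩]],
  [[⟨1,0,0,0⟩, ⟨0,0,0,-1⟩, ⟨0,0,0,1⟩], [⟨0,-1,0,0⟩, ⟨0,-1,0,0⟩, ⟨0,1,0,0⟩], [⟨0,0,0,0⟩, ⟨0,-1,0,0⟩, ⟨-1,0,0,-1⟩]],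
  [[⟨0,0,0,1⟩, ⟨0,-1,0,0⟩, ⟨0,1,0,0⟩], [⟨0,0,0,-1⟩, ⟨0,0,0,-1⟩, ⟨0,0,0,1⟩], [⟨0,0,0,0⟩, ⟨0,-1,0,0⟩, ⟨-1,0,0,-1⟩]],
  [[⟨1,0,1,0⟩, ⟨0,0,0,0⟩, ⟨0,0,0,0⟩], [⟨1,0,0,0⟩, ⟨1,0,0,0⟩, ⟨-1,0,0,0⟩], [⟨1,0,0,0⟩, ⟨0,0,0,-1⟩, ⟨-1,0,0,0⟩]],
  [[⟨1,0,0,1⟩, ⟨0,0,0,0⟩, ⟨0,0,0,0⟩], [⟨0,0,0,1⟩, ⟨0,0,0,1⟩, ⟨0,0,0,-1⟩], [⟨0,0,0,1⟩, ⟨0,-1,0,0⟩, ⟨0,0,0,-1⟩]],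
  [[⟨1,0,0,1⟩, ⟨0,0,0,0⟩, ⟨0,0,0,0⟩], [⟨0,0,0,1⟩, ⟨0,0,0,1⟩, ⟨0,0,0,-1⟩], [⟨0,0,0,1⟩, ⟨0,-1,0,0⟩, ⟨0,0,0,-1⟩]],
  [[⟨1,0,0,1⟩, ⟨0,0,0,0⟩, ⟨0,0,0,0⟩], [⟨1,0,0,0⟩, ⟨1,0,0,0⟩, ⟨-1,0,0,0⟩], [⟨1,0,0,0⟩, ⟨0,0,0,-1⟩, ⟨-1,0,0,0⟩]],
  [[⟨1,0,1,0⟩, ⟨0,0,0,0⟩, ⟨0,0,0,0⟩], [⟨0,0,0,1⟩, ⟨0,0,0,1⟩, ⟨0,0,0,-1⟩], [⟨0,0,0,1⟩, ⟨0,-1,0,0⟩, ⟨0,0,0,-1⟩]],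
  [[⟨1,0,1,0⟩, ⟨0,0,0,0⟩, ⟨0,0,0,0⟩], [⟨0,0,1,0⟩, ⟨0,0,1,0⟩, ⟨0,0,-1,0⟩], [⟨1,0,0,0⟩, ⟨0,0,0,-1⟩, ⟨-1,0,0,0⟩]],
  [[⟨1,0,1,0⟩, ⟨0,0,0,0⟩, ⟨0,0,0,0⟩], [⟨1,0,0,0⟩, ⟨1,0,0,0⟩, ⟨-1,0,0,0⟩], [⟨1,0,0,0⟩, ⟨0,0,0,0⟩, ⟨0,1,0,1⟩]],
  [[⟨1,0,1,0⟩, ⟨0,0,0,0⟩, ⟨0,0,0,0⟩], [⟨1,0,0,0⟩, ⟨1,0,0,0⟩, ⟨-1,0,0,0⟩], [⟨1,0,0,0⟩, ⟨0,0,0,0⟩, ⟨0,1,0,1⟩]],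
  [[⟨1,0,1,0⟩, ⟨0,0,0,0⟩, ⟨0,0,0,0⟩], [⟨1,0,0,0⟩, ⟨1,0,0,0⟩, ⟨-1,0,0,0⟩], [⟨1,0,0,0⟩, ⟨0,0,0,0⟩, ⟨0,1,0,1⟩]],
  [[⟨1,0,0,1⟩, ⟨0,0,0,0⟩, ⟨0,0,0,0⟩], [⟨1,0,0,0⟩, ⟨1,0,0,0⟩, ⟨-1,0,0,0⟩], [⟨1,0,0,0⟩, ⟨0,0,0,0⟩, ⟨0,1,0,1⟩]],
  [[⟨-1,-1,0,-1⟩, ⟨0,0,0,0⟩, ⟨0,0,0,0⟩], [⟨1,0,0,0⟩, ⟨1,0,0,0⟩, ⟨-1,0,0,0⟩], [⟨1,0,0,0⟩, ⟨0,0,0,0⟩, ⟨0,1,0,1⟩]],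
  [[⟨1,0,1,0⟩, ⟨0,0,0,0⟩, ⟨0,0,0,0⟩], [⟨0,0,1,0⟩, ⟨0,0,1,0⟩, ⟨0,0,-1,0⟩], [⟨1,0,0,0⟩, ⟨0,0,0,0⟩, ⟨0,1,0,1⟩]],
  [[⟨1,0,1,0⟩, ⟨0,0,0,0⟩, ⟨0,0,0,0⟩], [⟨1,0,0,0⟩, ⟨0,0,0,-1⟩, ⟨-1,0,0,0⟩], [⟨1,0,0,0⟩, ⟨0,0,0,0⟩, ⟨0,1,0,1⟩]],
  [[⟨1,0,1,0⟩, ⟨0,0,0,0⟩, ⟨0,0,0,0⟩], [⟨1,0,0,0⟩, ⟨0,0,0,-1⟩, ⟨-1,0,0,0⟩], [⟨1,0,0,0⟩, ⟨0,0,0,0⟩, ⟨0,1,0,1⟩]],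
  [[⟨1,0,1,0⟩, ⟨0,0,0,0⟩, ⟨0,0,0,0⟩], [⟨1,0,0,0⟩, ⟨0,0,0,-1⟩, ⟨-1,0,0,0⟩], [⟨1,0,0,0⟩, ⟨0,0,0,0⟩, ⟨0,1,0,1⟩]],
  [[⟨1,0,0,1⟩, ⟨0,0,0,0⟩, ⟨0,0,0,0⟩], [⟨1,0,0,0⟩, ⟨0,0,0,-1⟩, ⟨-1,0,0,0⟩], [⟨1,0,0,0⟩, ⟨0,0,0,0⟩, ⟨0,1,0,1⟩]],
  [[⟨1,0,1,0⟩, ⟨0,0,0,0⟩, ⟨0,0,0,0⟩], [⟨0,0,0,1⟩, ⟨0,-1,0,0⟩, ⟨0,0,0,-1⟩], [⟨0,0,0,1⟩, ⟨0,0,0,0⟩, ⟨-1,0,-1,-1⟩]],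
  [[⟨1,0,1,0⟩, ⟨0,0,0,0⟩, ⟨0,0,0,0⟩], [⟨0,0,1,0⟩, ⟨-1,0,0,0⟩, ⟨0,0,-1,0⟩], [⟨1,0,0,0⟩, ⟨0,0,0,0⟩, ⟨0,1,0,1⟩]],
  [[⟨-1,0,-1,0⟩, ⟨0,0,0,0⟩, ⟨0,0,0,0⟩], [⟨0,0,-1,0⟩, ⟨1,0,0,0⟩, ⟨-1,0,0,0⟩], [⟨0,0,-1,0⟩, ⟨0,0,0,-1⟩, ⟨-1,0,0,0⟩]],
  [[⟨-1,0,0,-1⟩, ⟨0,0,0,0⟩, ⟨0,0,0,0⟩], [⟨-1,0,0,0⟩, ⟨0,0,0,1⟩, ⟨0,0,0,-1⟩], [⟨-1,0,0,0⟩, ⟨0,-1,0,0⟩, ⟨0,0,0,-1⟩]],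
  [[⟨-1,0,0,-1⟩, ⟨0,0,0,0⟩, ⟨0,0,0,0⟩], [⟨-1,0,0,0⟩, ⟨0,0,0,1⟩, ⟨0,0,0,-1⟩], [⟨-1,0,0,0⟩, ⟨0,-1,0,0⟩, ⟨0,0,0,-1⟩]],
  [[⟨-1,0,0,-1⟩, ⟨0,0,0,0⟩, ⟨0,0,0,0⟩], [⟨0,0,-1,0⟩, ⟨1,0,0,0⟩, ⟨-1,0,0,0⟩], [⟨0,0,-1,0⟩, ⟨0,0,0,-1⟩, ⟨-1,0,0,0⟩]],
  [[⟨-1,0,-1,0⟩, ⟨0,0,0,0⟩, ⟨0,0,0,0⟩], [⟨-1,0,0,0⟩, ⟨0,0,0,1⟩, ⟨0,0,0,-1⟩], [⟨-1,0,0,0⟩, ⟨0,-1,0,0⟩, ⟨0,0,0,-1⟩]],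
  [[⟨-1,0,0,-1⟩, ⟨0,0,0,0⟩, ⟨0,0,0,0⟩], [⟨0,0,-1,0⟩, ⟨1,0,0,0⟩, ⟨-1,0,0,0⟩], [⟨-1,0,0,0⟩, ⟨0,-1,0,0⟩, ⟨0,0,0,-1⟩]],
  [[⟨-1,0,-1,0⟩, ⟨0,0,0,0⟩, ⟨0,0,0,0⟩], [⟨0,0,-1,0⟩, ⟨1,0,0,0⟩, ⟨-1,0,0,0⟩], [⟨0,0,-1,0⟩, ⟨0,0,0,0⟩, ⟨0,1,0,1⟩]],
  [[⟨-1,0,-1,0⟩, ⟨0,0,0,0⟩, ⟨0,0,0,0⟩], [⟨0,0,-1,0⟩, ⟨1,0,0,0⟩, ⟨-1,0,0,0⟩], [⟨0,0,-1,0⟩, ⟨0,0,0,0⟩, ⟨0,1,0,1⟩]],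
  [[⟨-1,0,-1,0⟩, ⟨0,0,0,0⟩, ⟨0,0,0,0⟩], [⟨0,0,-1,0⟩, ⟨1,0,0,0⟩, ⟨-1,0,0,0⟩], [⟨0,0,-1,0⟩, ⟨0,0,0,0⟩, ⟨0,1,0,1⟩]],
  [[⟨-1,0,0,-1⟩, ⟨0,0,0,0⟩, ⟨0,0,0,0⟩], [⟨0,0,-1,0⟩, ⟨1,0,0,0⟩, ⟨-1,0,0,0⟩], [⟨0,0,-1,0⟩, ⟨0,0,0,0⟩, ⟨0,1,0,1⟩]],
  [[⟨1,1,0,1⟩, ⟨0,0,0,0⟩, ⟨0,0,0,0⟩], [⟨0,0,-1,0⟩, ⟨1,0,0,0⟩, ⟨-1,0,0,0⟩], [⟨0,0,-1,0⟩, ⟨0,0,0,0⟩, ⟨0,1,0,1⟩]],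
  [[⟨0,-1,0,-1⟩, ⟨0,0,0,0⟩, ⟨0,0,0,0⟩], [⟨-1,0,0,0⟩, ⟨0,0,0,1⟩, ⟨0,0,0,-1⟩], [⟨0,0,0,-1⟩, ⟨0,0,0,0⟩, ⟨-1,-1,0,-1⟩]],
  [[⟨-1,0,-1,0⟩, ⟨0,0,0,0⟩, ⟨0,0,0,0⟩], [⟨0,0,-1,0⟩, ⟨0,0,0,-1⟩, ⟨-1,0,0,0⟩], [⟨0,0,-1,0⟩, ⟨0,0,0,0⟩, ⟨0,1,0,1⟩]],
  [[⟨-1,0,-1,0⟩, ⟨0,0,0,0⟩, ⟨0,0,0,0⟩], [⟨0,0,-1,0⟩, ⟨0,0,0,-1⟩, ⟨-1,0,0,0⟩], [⟨0,0,-1,0⟩, ⟨0,0,0,0⟩, ⟨0,1,0,1⟩]],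
  [[⟨-1,0,-1,0⟩, ⟨0,0,0,0⟩, ⟨0,0,0,0⟩], [⟨0,0,-1,0⟩, ⟨0,0,0,-1⟩, ⟨-1,0,0,0⟩], [⟨0,0,-1,0⟩, ⟨0,0,0,0⟩, ⟨0,1,0,1⟩]],
  [[⟨-1,0,0,-1⟩, ⟨0,0,0,0⟩, ⟨0,0,0,0⟩], [⟨0,0,-1,0⟩, ⟨0,0,0,-1⟩, ⟨-1,0,0,0⟩], [⟨0,0,-1,0⟩, ⟨0,0,0,0⟩, ⟨0,1,0,1⟩]],
  [[⟨-1,0,-1,0⟩, ⟨0,0,0,0⟩, ⟨0,0,0,0⟩], [⟨-1,0,0,0⟩, ⟨0,-1,0,0⟩, ⟨0,0,0,-1⟩], [⟨-1,0,0,0⟩, ⟨0,0,0,0⟩, ⟨-1,0,-1,-1⟩]],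
  [[⟨0,-1,0,-1⟩, ⟨0,0,0,0⟩, ⟨0,0,0,0⟩], [⟨-1,0,0,0⟩, ⟨0,-1,0,0⟩, ⟨0,0,0,-1⟩], [⟨0,0,0,-1⟩, ⟨0,0,0,0⟩, ⟨-1,-1,0,-1⟩]],
  [[⟨0,0,-1,0⟩, ⟨1,0,0,0⟩, ⟨-1,0,0,0⟩], [⟨0,0,-1,0⟩, ⟨0,0,0,-1⟩, ⟨-1,0,0,0⟩], [⟨0,0,-1,0⟩, ⟨0,0,0,0⟩, ⟨0,1,0,1⟩]],
  [[⟨0,0,-1,0⟩, ⟨1,0,0,0⟩, ⟨-1,0,0,0⟩], [⟨0,0,-1,0⟩, ⟨0,0,0,-1⟩, ⟨-1,0,0,0⟩], [⟨0,0,-1,0⟩, ⟨0,0,0,0⟩, ⟨0,1,0,1⟩]],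
  [[⟨0,0,-1,0⟩, ⟨1,0,0,0⟩, ⟨-1,0,0,0⟩], [⟨0,0,-1,0⟩, ⟨0,0,0,-1⟩, ⟨-1,0,0,0⟩], [⟨0,0,-1,0⟩, ⟨0,0,0,0⟩, ⟨0,1,0,1⟩]],
  [[⟨-1,0,0,0⟩, ⟨0,0,0,1⟩, ⟨0,0,0,-1⟩], [⟨0,0,-1,0⟩, ⟨0,0,0,-1⟩, ⟨-1,0,0,0⟩], [⟨0,0,-1,0⟩, ⟨0,0,0,0⟩, ⟨0,1,0,1⟩]],
  [[⟨0,0,-1,0⟩, ⟨1,0,0,0⟩, ⟨-1,0,0,0⟩], [⟨-1,0,0,0⟩, ⟨0,-1,0,0⟩, ⟨0,0,0,-1⟩], [⟨-1,0,0,0⟩, ⟨0,0,0,0⟩, ⟨-1,0,-1,-1⟩]],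
  [[⟨0,0,0,-1⟩, ⟨0,1,0,0⟩, ⟨0,-1,0,0⟩], [⟨-1,0,0,0⟩, ⟨0,-1,0,0⟩, ⟨0,0,0,-1⟩], [⟨0,0,0,-1⟩, ⟨0,0,0,0⟩, ⟨-1,-1,0,-1⟩]]]

def qiL : List (List (List Z5)) := [
  [[⟨1,1,1,0⟩, ⟨-1,-1,-1,0⟩, ⟨0,0,0,0⟩], [⟨0,0,0,0⟩, ⟨0,0,0,0⟩, ⟨-1,-1,0,0⟩], [⟨1,1,1,0⟩, ⟨-1,-1,0,0⟩, ⟨-1,-1,-1,0⟩]],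
  [[⟨1,1,1,0⟩, ⟨-1,-1,-1,0⟩, ⟨0,0,0,0⟩], [⟨0,0,0,0⟩, ⟨0,0,0,0⟩, ⟨-1,-1,0,0⟩], [⟨1,1,1,0⟩, ⟨-1,-1,0,0⟩, ⟨-1,-1,-1,0⟩]],
  [[⟨1,1,1,0⟩, ⟨-1,-1,-1,0⟩, ⟨0,0,0,0⟩], [⟨0,0,0,0⟩, ⟨0,0,0,0⟩, ⟨-1,-1,0,0⟩], [⟨1,1,1,0⟩, ⟨-1,-1,0,0⟩, ⟨-1,-1,-1,0⟩]],
  [[⟨1,1,1,0⟩, ⟨0,1,1,0⟩, ⟨0,0,0,0⟩], [⟨0,0,0,0⟩, ⟨0,0,0,0⟩, ⟨1,1,1,0⟩], [⟨1,1,1,0⟩, ⟨1,1,1,0⟩, ⟨0,1,1,0⟩]],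
  [[⟨0,-1,-1,0⟩, ⟨-1,-1,-1,0⟩, ⟨0,0,0,0⟩], [⟨0,0,0,0⟩, ⟨0,0,0,0⟩, ⟨-1,-1,0,0⟩], [⟨0,-1,-1,0⟩, ⟨-1,-1,0,0⟩, ⟨-1,-1,-1,0⟩]],
  [[⟨1,1,1,0⟩, ⟨0,1,1,0⟩, ⟨0,0,0,0⟩], [⟨0,0,0,0⟩, ⟨0,0,0,0⟩, ⟨-1,-1,0,0⟩], [⟨1,1,1,0⟩, ⟨1,1,1,0⟩, ⟨-1,-1,-1,0⟩]],
  [[⟨1,1,1,0⟩, ⟨-1,-1,-1,0⟩, ⟨0,0,0,0⟩], [⟨0,0,0,0⟩, ⟨0,0,0,0⟩, ⟨1,1,0,0⟩], [⟨1,1,1,0⟩, ⟨-1,-1,0,0⟩, ⟨1,1,0,0⟩]],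
  [[⟨1,1,1,0⟩, ⟨-1,-1,-1,0⟩, ⟨0,0,0,0⟩], [⟨0,0,0,0⟩, ⟨0,0,0,0⟩, ⟨1,1,0,0⟩], [⟨1,1,1,0⟩, ⟨-1,-1,0,0⟩, ⟨1,1,0,0⟩]],
  [[⟨0,-1,-1,0⟩, ⟨0,1,1,0⟩, ⟨0,0,0,0⟩], [⟨0,0,0,0⟩, ⟨0,0,0,0⟩, ⟨-1,-1,-1,0⟩], [⟨0,-1,-1,0⟩, ⟨1,1,1,0⟩, ⟨-1,-1,-1,0⟩]],
  [[⟨-1,-1,0,0⟩, ⟨-1,-1,-1,0⟩, ⟨0,0,0,0⟩], [⟨0,0,0,0⟩, ⟨0,0,0,0⟩, ⟨1,1,0,0⟩], [⟨-1,-1,0,0⟩, ⟨-1,-1,0,0⟩, ⟨1,1,0,0⟩]],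
  [[⟨0,-1,-1,0⟩, ⟨-1,-1,-1,0⟩, ⟨0,0,0,0⟩], [⟨0,0,0,0⟩, ⟨0,0,0,0⟩, ⟨1,1,0,0⟩], [⟨0,-1,-1,0⟩, ⟨-1,-1,0,0⟩, ⟨1,1,0,0⟩]],
  [[⟨0,-1,-1,0⟩, ⟨0,-1,-1,-1⟩, ⟨0,0,0,0⟩], [⟨0,0,0,0⟩, ⟨0,0,0,0⟩, ⟨-1,-1,-1,0⟩], [⟨0,-1,-1,0⟩, ⟨0,-1,-1,0⟩, ⟨-1,-1,-1,0⟩]],
  [[⟨-1,-1,0,0⟩, ⟨1,1,0,0⟩, ⟨0,0,0,0⟩], [⟨0,-1,-1,0⟩, ⟨1,1,1,0⟩, ⟨0,1,1,1⟩], [⟨-1,-2,-1,0⟩, ⟨1,1,0,-1⟩, ⟨0,1,1,1⟩]],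
  [[⟨-1,-1,0,0⟩, ⟨1,1,0,0⟩, ⟨0,0,0,0⟩], [⟨0,-1,-1,0⟩, ⟨1,1,1,0⟩, ⟨0,1,1,1⟩], [⟨-1,-2,-1,0⟩, ⟨1,1,0,-1⟩, ⟨0,1,1,1⟩]],
  [[⟨-1,-1,0,0⟩, ⟨1,1,0,0⟩, ⟨0,0,0,0⟩], [⟨0,-1,-1,0⟩, ⟨1,1,1,0⟩, ⟨0,1,1,1⟩], [⟨-1,-2,-1,0⟩, ⟨1,1,0,-1⟩, ⟨0,1,1,1⟩]],
  [[⟨-1,-1,0,0⟩, ⟨-1,-1,-1,0⟩, ⟨0,0,0,0⟩], [⟨0,-1,-1,0⟩, ⟨0,-1,-1,0⟩, ⟨0,0,-1,-1⟩], [⟨-1,-2,-1,0⟩, ⟨-1,-2,-1,0⟩, ⟨0,0,-1,-1⟩]],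
  [[⟨1,1,1,0⟩, ⟨1,1,0,0⟩, ⟨0,0,0,0⟩], [⟨0,1,1,1⟩, ⟨1,1,1,0⟩, ⟨0,1,1,1⟩], [⟨1,2,2,1⟩, ⟨1,1,0,-1⟩, ⟨0,1,1,1⟩]],
  [[⟨-1,-1,0,0⟩, ⟨-1,-1,-1,0⟩, ⟨0,0,0,0⟩], [⟨0,-1,-1,0⟩, ⟨0,-1,-1,0⟩, ⟨0,1,1,1⟩], [⟨-1,-2,-1,0⟩, ⟨-1,-2,-1,0⟩, ⟨0,1,1,1⟩]],
  [[⟨0,-1,-1,0⟩, ⟨0,0,0,0⟩, ⟨0,0,0,0⟩], [⟨0,0,0,0⟩, ⟨1,1,1,0⟩, ⟨-1,-1,-1,0⟩], [⟨0,-1,-1,0⟩, ⟨0,1,1,0⟩, ⟨-1,-1,-1,0⟩]],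
  [[⟨1,1,1,0⟩, ⟨0,0,0,0⟩, ⟨0,0,0,0⟩], [⟨0,0,0,0⟩, ⟨-1,-1,0,0⟩, ⟨1,1,0,0⟩], [⟨1,1,1,0⟩, ⟨-1,-1,-1,0⟩, ⟨1,1,0,0⟩]],
  [[⟨1,1,1,0⟩, ⟨0,0,0,0⟩, ⟨0,0,0,0⟩], [⟨0,0,0,0⟩, ⟨-1,-1,0,0⟩, ⟨1,1,0,0⟩], [⟨1,1,1,0⟩, ⟨-1,-1,-1,0⟩, ⟨1,1,0,0⟩]],
  [[⟨1,1,1,0⟩, ⟨0,0,0,0⟩, ⟨0,0,0,0⟩], [⟨0,0,0,0⟩, ⟨1,1,1,0⟩, ⟨-1,-1,-1,0⟩], [⟨1,1,1,0⟩, ⟨0,1,1,0⟩, ⟨-1,-1,-1,0⟩]],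
  [[⟨0,-1,-1,0⟩, ⟨0,0,0,0⟩, ⟨0,0,0,0⟩], [⟨0,0,0,0⟩, ⟨-1,-1,0,0⟩, ⟨1,1,0,0⟩], [⟨0,-1,-1,0⟩, ⟨-1,-1,-1,0⟩, ⟨1,1,0,0⟩]],
  [[⟨0,-1,-1,0⟩, ⟨0,0,0,0⟩, ⟨0,0,0,0⟩], [⟨0,0,0,0⟩, ⟨0,-1,-1,0⟩, ⟨-1,-1,-1,0⟩], [⟨0,-1,-1,0⟩, ⟨0,-1,-1,-1⟩, ⟨-1,-1,-1,0⟩]],
  [[⟨0,-1,-1,0⟩, ⟨0,0,0,0⟩, ⟨0,0,0,0⟩], [⟨0,0,-1,-1⟩, ⟨1,0,0,0⟩, ⟨-1,-1,0,0⟩], [⟨0,-1,-2,-1⟩, ⟨0,0,0,0⟩, ⟨-1,-1,0,0⟩]],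
  [[⟨0,-1,-1,0⟩, ⟨0,0,0,0⟩, ⟨0,0,0,0⟩], [⟨0,0,-1,-1⟩, ⟨1,0,0,0⟩, ⟨-1,-1,0,0⟩], [⟨0,-1,-2,-1⟩, ⟨0,0,0,0⟩, ⟨-1,-1,0,0⟩]],
  [[⟨0,-1,-1,0⟩, ⟨0,0,0,0⟩, ⟨0,0,0,0⟩], [⟨0,0,-1,-1⟩, ⟨1,0,0,0⟩, ⟨-1,-1,0,0⟩], [⟨0,-1,-2,-1⟩, ⟨0,0,0,0⟩, ⟨-1,-1,0,0⟩]],
  [[⟨1,1,1,0⟩, ⟨0,0,0,0⟩, ⟨0,0,0,0⟩], [⟨0,1,1,1⟩, ⟨1,0,0,0⟩, ⟨-1,-1,0,0⟩], [⟨1,2,2,1⟩, ⟨0,0,0,0⟩, ⟨-1,-1,0,0⟩]],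
  [[⟨0,1,1,1⟩, ⟨0,0,0,0⟩, ⟨0,0,0,0⟩], [⟨-1,-1,0,0⟩, ⟨1,0,0,0⟩, ⟨-1,-1,0,0⟩], [⟨-1,0,1,1⟩, ⟨0,0,0,0⟩, ⟨-1,-1,0,0⟩]],
  [[⟨0,-1,-1,0⟩, ⟨0,0,0,0⟩, ⟨0,0,0,0⟩], [⟨0,0,-1,-1⟩, ⟨0,0,0,1⟩, ⟨-1,-1,0,0⟩], [⟨0,-1,-2,-1⟩, ⟨0,0,0,0⟩, ⟨-1,-1,0,0⟩]],
  [[⟨0,-1,-1,0⟩, ⟨0,0,0,0⟩, ⟨0,0,0,0⟩], [⟨0,-1,-1,-1⟩, ⟨0,0,-1,0⟩, ⟨0,0,1,1⟩], [⟨0,-1,-2,-1⟩, ⟨0,0,0,0⟩, ⟨-1,-1,0,0⟩]],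
  [[⟨0,-1,-1,0⟩, ⟨0,0,0,0⟩, ⟨0,0,0,0⟩], [⟨0,-1,-1,-1⟩, ⟨0,0,-1,0⟩, ⟨0,0,1,1⟩], [⟨0,-1,-2,-1⟩, ⟨0,0,0,0⟩, ⟨-1,-1,0,0⟩]],
  [[⟨0,-1,-1,0⟩, ⟨0,0,0,0⟩, ⟨0,0,0,0⟩], [⟨0,-1,-1,-1⟩, ⟨0,0,-1,0⟩, ⟨0,0,1,1⟩], [⟨0,-1,-2,-1⟩, ⟨0,0,0,0⟩, ⟨-1,-1,0,0⟩]],
  [[⟨1,1,1,0⟩, ⟨0,0,0,0⟩, ⟨0,0,0,0⟩], [⟨0,1,1,0⟩, ⟨0,0,-1,0⟩, ⟨0,0,1,1⟩], [⟨1,2,2,1⟩, ⟨0,0,0,0⟩, ⟨-1,-1,0,0⟩]],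
  [[⟨0,-1,-1,0⟩, ⟨0,0,0,0⟩, ⟨0,0,0,0⟩], [⟨0,-1,-1,-1⟩, ⟨1,1,1,1⟩, ⟨0,-1,-1,-1⟩], [⟨0,-1,-2,-1⟩, ⟨0,0,0,0⟩, ⟨0,0,-1,-1⟩]],
  [[⟨0,-1,-1,0⟩, ⟨0,0,0,0⟩, ⟨0,0,0,0⟩], [⟨0,-1,-1,-1⟩, ⟨-1,0,0,0⟩, ⟨0,0,1,1⟩], [⟨0,-1,-2,-1⟩, ⟨0,0,0,0⟩, ⟨-1,-1,0,0⟩]],
  [[⟨0,1,1,0⟩, ⟨0,0,0,0⟩, ⟨0,0,0,0⟩], [⟨0,0,0,0⟩, ⟨1,1,1,0⟩, ⟨-1,-1,-1,0⟩], [⟨1,1,1,0⟩, ⟨0,1,1,0⟩, ⟨-1,-1,-1,0⟩]],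
  [[⟨-1,-1,-1,0⟩, ⟨0,0,0,0⟩, ⟨0,0,0,0⟩], [⟨0,0,0,0⟩, ⟨-1,-1,0,0⟩, ⟨1,1,0,0⟩], [⟨-1,-1,0,0⟩, ⟨-1,-1,-1,0⟩, ⟨1,1,0,0⟩]],
  [[⟨-1,-1,-1,0⟩, ⟨0,0,0,0⟩, ⟨0,0,0,0⟩], [⟨0,0,0,0⟩, ⟨-1,-1,0,0⟩, ⟨1,1,0,0⟩], [⟨-1,-1,0,0⟩, ⟨-1,-1,-1,0⟩, ⟨1,1,0,0⟩]],
  [[⟨-1,-1,-1,0⟩, ⟨0,0,0,0⟩, ⟨0,0,0,0⟩], [⟨0,0,0,0⟩, ⟨1,1,1,0⟩, ⟨-1,-1,-1,0⟩], [⟨-1,-1,0,0⟩, ⟨0,1,1,0⟩, ⟨-1,-1,-1,0⟩]],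
  [[⟨0,1,1,0⟩, ⟨0,0,0,0⟩, ⟨0,0,0,0⟩], [⟨0,0,0,0⟩, ⟨-1,-1,0,0⟩, ⟨1,1,0,0⟩], [⟨1,1,1,0⟩, ⟨-1,-1,-1,0⟩, ⟨1,1,0,0⟩]],
  [[⟨-1,-1,-1,0⟩, ⟨0,0,0,0⟩, ⟨0,0,0,0⟩], [⟨0,0,0,0⟩, ⟨1,1,1,0⟩, ⟨1,1,0,0⟩], [⟨-1,-1,0,0⟩, ⟨0,1,1,0⟩, ⟨1,1,0,0⟩]],
  [[⟨0,1,1,0⟩, ⟨0,0,0,0⟩, ⟨0,0,0,0⟩], [⟨0,1,1,1⟩, ⟨1,0,0,0⟩, ⟨-1,-1,0,0⟩], [⟨1,2,2,1⟩, ⟨0,0,0,0⟩, ⟨-1,-1,0,0⟩]],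
  [[⟨0,1,1,0⟩, ⟨0,0,0,0⟩, ⟨0,0,0,0⟩], [⟨0,1,1,1⟩, ⟨1,0,0,0⟩, ⟨-1,-1,0,0⟩], [⟨1,2,2,1⟩, ⟨0,0,0,0⟩, ⟨-1,-1,0,0⟩]],
  [[⟨0,1,1,0⟩, ⟨0,0,0,0⟩, ⟨0,0,0,0⟩], [⟨0,1,1,1⟩, ⟨1,0,0,0⟩, ⟨-1,-1,0,0⟩], [⟨1,2,2,1⟩, ⟨0,0,0,0⟩, ⟨-1,-1,0,0⟩]],
  [[⟨-1,-1,-1,0⟩, ⟨0,0,0,0⟩, ⟨0,0,0,0⟩], [⟨0,-1,-1,0⟩, ⟨1,0,0,0⟩, ⟨-1,-1,0,0⟩], [⟨-1,-2,-1,0⟩, ⟨0,0,0,0⟩, ⟨-1,-1,0,0⟩]],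
  [[⟨0,-1,-1,-1⟩, ⟨0,0,0,0⟩, ⟨0,0,0,0⟩], [⟨0,0,-1,-1⟩, ⟨1,0,0,0⟩, ⟨-1,-1,0,0⟩], [⟨0,-1,-2,-1⟩, ⟨0,0,0,0⟩, ⟨-1,-1,0,0⟩]],
  [[⟨1,1,0,0⟩, ⟨0,0,0,0⟩, ⟨0,0,0,0⟩], [⟨1,1,1,0⟩, ⟨0,0,1,0⟩, ⟨0,1,1,1⟩], [⟨1,1,0,-1⟩, ⟨0,0,0,0⟩, ⟨0,1,1,1⟩]],
  [[⟨0,1,1,0⟩, ⟨0,0,0,0⟩, ⟨0,0,0,0⟩], [⟨0,1,1,0⟩, ⟨0,0,-1,0⟩, ⟨0,0,1,1⟩], [⟨1,2,2,1⟩, ⟨0,0,0,0⟩, ⟨-1,-1,0,0⟩]],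
  [[⟨0,1,1,0⟩, ⟨0,0,0,0⟩, ⟨0,0,0,0⟩], [⟨0,1,1,0⟩, ⟨0,0,-1,0⟩, ⟨0,0,1,1⟩], [⟨1,2,2,1⟩, ⟨0,0,0,0⟩, ⟨-1,-1,0,0⟩]],
  [[⟨0,1,1,0⟩, ⟨0,0,0,0⟩, ⟨0,0,0,0⟩], [⟨0,1,1,0⟩, ⟨0,0,-1,0⟩, ⟨0,0,1,1⟩], [⟨1,2,2,1⟩, ⟨0,0,0,0⟩, ⟨-1,-1,0,0⟩]],
  [[⟨-1,-1,-1,0⟩, ⟨0,0,0,0⟩, ⟨0,0,0,0⟩], [⟨-1,-1,-1,0⟩, ⟨0,0,-1,0⟩, ⟨0,0,1,1⟩], [⟨-1,-2,-1,0⟩, ⟨0,0,0,0⟩, ⟨-1,-1,0,0⟩]],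
  [[⟨0,1,1,0⟩, ⟨0,0,0,0⟩, ⟨0,0,0,0⟩], [⟨0,1,1,0⟩, ⟨1,1,1,1⟩, ⟨0,-1,-1,-1⟩], [⟨1,2,2,1⟩, ⟨0,0,0,0⟩, ⟨0,0,-1,-1⟩]],
  [[⟨1,1,0,0⟩, ⟨0,0,0,0⟩, ⟨0,0,0,0⟩], [⟨1,1,0,0⟩, ⟨1,1,1,1⟩, ⟨0,1,1,0⟩], [⟨1,1,0,-1⟩, ⟨0,0,0,0⟩, ⟨0,1,1,1⟩]],
  [[⟨1,1,1,0⟩, ⟨-1,-1,0,0⟩, ⟨0,0,-1,-1⟩], [⟨1,1,1,0⟩, ⟨-1,-1,-1,0⟩, ⟨0,0,0,0⟩], [⟨1,2,1,0⟩, ⟨-1,-1,0,1⟩, ⟨0,-1,-1,-1⟩]],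
  [[⟨1,1,1,0⟩, ⟨-1,-1,0,0⟩, ⟨0,0,-1,-1⟩], [⟨1,1,1,0⟩, ⟨-1,-1,-1,0⟩, ⟨0,0,0,0⟩], [⟨1,2,1,0⟩, ⟨-1,-1,0,1⟩, ⟨0,-1,-1,-1⟩]],
  [[⟨1,1,1,0⟩, ⟨-1,-1,0,0⟩, ⟨0,0,-1,-1⟩], [⟨1,1,1,0⟩, ⟨-1,-1,-1,0⟩, ⟨0,0,0,0⟩], [⟨1,2,1,0⟩, ⟨-1,-1,0,1⟩, ⟨0,-1,-1,-1⟩]],
  [[⟨-1,-1,0,0⟩, ⟨-1,-1,0,0⟩, ⟨0,0,-1,-1⟩], [⟨-1,-1,0,0⟩, ⟨-1,-1,-1,0⟩, ⟨0,0,0,0⟩], [⟨-1,-1,0,1⟩, ⟨-1,-1,0,1⟩, ⟨0,-1,-1,-1⟩]],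
  [[⟨1,1,1,0⟩, ⟨0,0,-1,-1⟩, ⟨0,1,1,1⟩], [⟨1,1,1,0⟩, ⟨1,1,0,0⟩, ⟨0,0,0,0⟩], [⟨1,2,1,0⟩, ⟨1,0,-1,-1⟩, ⟨0,1,1,0⟩]],
  [[⟨0,0,-1,-1⟩, ⟨0,0,-1,-1⟩, ⟨0,-1,-1,0⟩], [⟨0,0,-1,-1⟩, ⟨1,1,0,0⟩, ⟨0,0,0,0⟩], [⟨1,0,-1,-1⟩, ⟨1,0,-1,-1⟩, ⟨-1,-1,-1,0⟩]]]

def lamL : List (List ℕ) := [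
  [2, 4, 0, 2, 0, 4, 4, 4, 0, 0, 0, 4, 2, 4, 0, 2, 0, 4, 0, 0, 0, 0, 0, 2, 0, 0, 0, 0, 0, 4, 0, 0, 0, 0, 0, 4, 0, 0, 0, 0, 0, 3, 0, 0, 0, 0, 0, 1, 0, 0, 0, 0, 0, 1, 4, 4, 4, 4, 4, 4],
  [4, 0, 2, 4, 2, 0, 3, 0, 2, 3, 0, 0, 1, 1, 1, 3, 1, 1, 2, 0, 3, 2, 0, 0, 4, 4, 4, 2, 4, 4, 4, 4, 4, 4, 4, 4, 4, 4, 0, 0, 0, 4, 4, 4, 4, 0, 0, 0, 0, 0, 0, 0, 0, 0, 0, 0, 0, 0, 0, 0],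
  [0, 0, 3, 2, 0, 3, 0, 0, 2, 3, 0, 2, 4, 4, 4, 4, 4, 4, 4, 0, 2, 4, 2, 0, 0, 0, 0, 0, 2, 0, 0, 0, 0, 0, 3, 0, 1, 0, 2, 4, 2, 3, 0, 0, 0, 0, 2, 0, 0, 0, 0, 0, 3, 0, 4, 1, 4, 0, 3, 0],
  [4, 4, 4, 4, 4, 4, 2, 2, 4, 0, 2, 4, 3, 3, 1, 0, 3, 1, 0, 3, 3, 0, 3, 0, 0, 2, 2, 0, 2, 0, 4, 2, 4, 2, 0, 0, 0, 3, 3, 0, 3, 2, 0, 2, 2, 0, 2, 3, 3, 2, 4, 2, 0, 1, 3, 2, 4, 2, 0, 1]]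

/-- the intertwiner of block c -/
def Qm (c : ℕ) : Mat := fun i j => ((qL.getD c []).getD i.val []).getD j.val 0
/-- its inverse -/
def Qi (c : ℕ) : Mat := fun i j => ((qiL.getD c []).getD i.val []).getD j.val 0
/-- the exponent of the scalar power of zeta -/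
def lam (i c : ℕ) : ℕ := (lamL.getD i []).getD c 0

/-- even and odd indices -/
def ix (a : Fin 3) : Fin 6 := ⟨2 * a.val, by omega⟩
def jx (a : Fin 3) : Fin 6 := ⟨2 * a.val + 1, by omega⟩

/-- constant coefficient of the entry j of a sparse row -/
def rowC : List (ℕ × PZ) → ℕ → Z5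
  | [], _ => 0
  | (i, a) :: r, j => (if i = j then a.headD 0 else 0) + rowC r j

/-- the even part at w = 0 of a sparse matrix -/
def evC (A : SM) : Mat := fun a b => rowC (A.getD (ix a).val []) (ix b).val

/-- the check for generator i and block c -/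
def specAt (i : Fin 4) (c : ℕ) : Bool :=
  decide (∀ a b : Fin 3, rowC ((matG i.val c).getD (ix a).val []) (jx b).val = 0) &&
  decide (evC (matG i.val c) * Qm c =
    ((5 : Z5) ^ expG i.val c * Z5.zeta ^ lam i.val c) • (Qm (permG i.val c) * RM i))

end W828
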