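import Pool.Agent.W_828d9b_h4.BPGen
import Pool.Agent.W_828d9b_h4.DetB
import Pool.Agent.W_828d9b_h4.Latt

/-!
# The representation over the polynomial ring over the 11-adic integers
-/

namespace W828

open Matrix Polynomial

theorem Root11_dec : ∀ u : ZMod (11 ^ 2),
    (3 + 11 * u) ^ 4 + (3 + 11 * u) ^ 3 + (3 + 11 * u) ^ 2 + (3 + 11 * u) + 1 = 0 →
      3 + 11 * u = 3 := by
  decide +kernel

/-- Hensel (3^4 + 3^3 + 3^2 + 3 + 1 = 121, derivative a unit); a root congruent to 3 modulo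
11 is congruent to 3 modulo 121. -/
theorem exists_root : ∃ z : ℤ_[11], z ^ 4 + z ^ 3 + z ^ 2 + z + 1 = 0 ∧
    PadicInt.toZModPow 2 z = 3 := by
  obtain ⟨F, hF⟩ : ∃ F : ℤ[X], F = Polynomial.X ^ 4 + Polynomial.X ^ 3 + Polynomial.X ^ 2 +
    Polynomial.X + 1 := ⟨_, rfl⟩
  have e1 : aeval (3 : ℤ_[11]) F = ((121 : ℤ) : ℤ_[11]) := by
    simp only [hF, map_add, map_pow, aeval_X, map_one]
    norm_num
  have e2 : aeval (3 : ℤ_[11]) (derivative F) = ((142 : ℕ) : ℤ_[11]) := by
    simp only [hF, derivative_X_pow, derivative_X, derivative_one, map_add,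
      map_mul, map_pow, aeval_X, map_one, map_natCast, add_zero]
    norm_num
  have n1 : ‖((121 : ℤ) : ℤ_[11])‖ < 1 := by
    rw [PadicInt.norm_int_lt_one_iff_dvd]
    exact ⟨11, by norm_num⟩
  have n2 : ‖((142 : ℕ) : ℤ_[11])‖ = 1 := by
    rw [PadicInt.norm_natCast_eq_one_iff]
    norm_num
  have hn : ‖aeval (3 : ℤ_[11]) F‖ < ‖aeval (3 : ℤ_[11]) (derivative F)‖ ^ 2 := by
    rw [e1, e2, n2, one_pow]
    exact n1
  obtain ⟨z, hz, hz3, -, -⟩ := hensels_lemma hn
  rw [e2, n2] at hz3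
  simp only [hF, map_add, map_pow, aeval_X, map_one] at hz
  refine ⟨z, hz, ?_⟩
  rw [PadicInt.norm_lt_one_iff_dvd] at hz3
  obtain ⟨t, ht⟩ := hz3
  have hz4 : z = 3 + 11 * t := by
    have h5 := sub_eq_iff_eq_add'.1 ht
    exact_mod_cast h5
  have hw := congrArg (PadicInt.toZModPow (p := 11) 2) hz
  rw [hz4] at hw ⊢
  simp only [map_add, map_pow, map_mul, map_one, map_ofNat, map_zero] at hw ⊢
  generalize PadicInt.toZModPow (p := 11) 2 t = u at hw ⊢
  exact Root11_dec u hw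

theorem exists_inv5 : ∃ f : ℤ_[11], 5 * f = 1 := by
  have h : IsUnit ((5 : ℕ) : ℤ_[11]) := by
    rw [PadicInt.isUnit_iff, PadicInt.norm_natCast_eq_one_iff]
    norm_num
  obtain ⟨f, hf⟩ := h.exists_right_inv
  exact ⟨f, by exact_mod_cast hf⟩

/-- the chosen root -/
noncomputable def z11 : ℤ_[11] := exists_root.choose
theorem z11_spec : z11 ^ 4 + z11 ^ 3 + z11 ^ 2 + z11 + 1 = 0 := exists_root.choose_spec.1
theorem z11_mod : PadicInt.toZModPow 2 z11 = 3 := exists_root.choose_spec.2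

/-- the inverse of 5 -/
noncomputable def f11 : ℤ_[11] := exists_inv5.choose
theorem f11_spec : 5 * f11 = 1 := exists_inv5.choose_spec

/-- the generic evaluation data -/
noncomputable def E0 : ED (ℤ_[11])[X] where
  z := C z11
  hz := by
    have h := congrArg (C : ℤ_[11] →+* (ℤ_[11])[X]) z11_spec
    simpa using h
  f := C f11
  hf := by
    have h := congrArg (C : ℤ_[11] →+* (ℤ_[11])[X]) f11_spec
    rw [map_mul, map_one, map_ofNat] at h
    exact h
  w := Polynomial.X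

theorem exists_P0 : ∃ F : GHat →* (BP (ℤ_[11])[X])ˣ, (∀ i, F (R i) = E0.s i) ∧
    ∀ u, F (sc u) = 1 := presentation _ E0.s_rel

/-- the block monomial representation of GHat -/
noncomputable def P0 : GHat →* (BP (ℤ_[11])[X])ˣ := exists_P0.choose
theorem P0_R (i : Fin 4) : P0 (R i) = E0.s i := exists_P0.choose_spec.1 i
theorem P0_sc (u : ZMod 10) : P0 (sc u) = 1 := exists_P0.choose_spec.2 u

/-- stabiliser of block 54 -/
def St : Subgroup GHat where
  carrier := {g | (P0 g).val.p 54 = 54}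
  mul_mem' := by
    intro g h hg hh
    show (P0 (g * h)).val.p 54 = 54
    rw [map_mul, Units.val_mul, BP.mul_p]
    rw [show (P0 h).val.p 54 = 54 from hh]
    exact hg
  one_mem' := by
    show (P0 1).val.p 54 = 54
    rw [map_one]
    rfl
  inv_mem' := by
    intro g hg
    have hg' : (P0 g).val.p 54 = 54 := hg
    show (P0 g⁻¹).val.p 54 = 54
    have h1 : (P0 (g⁻¹ * g)).val.p 54 = 54 := by rw [inv_mul_cancel, map_one]; rfl
    rw [map_mul, Units.val_mul, BP.mul_p, hg'] at h1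
    exact h1

theorem mem_St {g : GHat} : g ∈ St ↔ (P0 g).val.p 54 = 54 := Iff.rfl

/-- the block of a stabilising element -/
noncomputable def blk : St →* Matrix (Fin 6) (Fin 6) (ℤ_[11])[X] where
  toFun g := (P0 g.1).val.m 54
  map_one' := by
    show (P0 1).val.m 54 = 1
    rw [map_one]
    rfl
  map_mul' g h := by
    show (P0 (g.1 * h.1)).val.m 54 = _
    rw [map_mul, Units.val_mul, BP.mul_m, mem_St.1 h.2]

theorem blk_apply (g : St) : blk g = (P0 g.1).val.m 54 := rfl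

/-- the subgroup of St of elements with determinant one in both representations -/
def Gam0 : Subgroup GHat where
  carrier := {g | (toMat g).det = 1 ∧ (P0 g).val.p 54 = 54 ∧ ((P0 g).val.m 54).det = 1}
  mul_mem' := by
    rintro g h ⟨hg1, hg2, hg3⟩ ⟨hh1, hh2, hh3⟩
    refine ⟨?_, St.mul_mem hg2 hh2, ?_⟩
    · rw [toMat_mul, det_mul, hg1, hh1, one_mul]
    · rw [map_mul, Units.val_mul, BP.mul_m, hh2, det_mul, hg3, hh3, one_mul]
  one_mem' := by
    refine ⟨by rw [toMat_one, det_one], St.one_mem, ?_⟩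
    rw [map_one]
    exact det_one
  inv_mem' := by
    rintro g ⟨hg1, hg2, hg3⟩
    refine ⟨?_, St.inv_mem hg2, ?_⟩
    · have h1 : toMat g⁻¹ * toMat g = 1 := by rw [← toMat_mul, inv_mul_cancel, toMat_one]
      have h2 := congrArg det h1
      rwa [det_mul, hg1, mul_one, det_one] at h2
    · have h1 : (P0 (g⁻¹ * g)).val.m 54 = 1 := by rw [inv_mul_cancel, map_one]; rfl
      rw [map_mul, Units.val_mul, BP.mul_m, hg2] at h1
      have h2 := congrArg det h1
      rwa [det_mul, hg3, mul_one, det_one] at h2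

theorem Gam0_le_SG : Gam0 ≤ SG := fun _ h => h.1
theorem Gam0_le_St : Gam0 ≤ St := fun _ h => h.2.1

theorem Root11_detM_inv (g : GHat) : (toMat g⁻¹).det * (toMat g).det = 1 := by
  rw [← det_mul, ← toMat_mul, inv_mul_cancel, toMat_one, det_one]

theorem Root11_detB_inv (g : St) : (blk g⁻¹).det * (blk g).det = 1 := by
  rw [← det_mul, ← map_mul, inv_mul_cancel, map_one, det_one]

theorem Root11_mem_of {g : GHat} (hg : g ∈ St) (h1 : (toMat g).det = 1)
    (h2 : ((P0 g).val.m 54).det = 1) : g ∈ Gam0 := ⟨h1, hg, h2⟩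

/-- commutators of elements of St lie in Gam0 -/
theorem comm_mem (g h : GHat) (hg : g ∈ St) (hh : h ∈ St) : g⁻¹ * h⁻¹ * g * h ∈ Gam0 := by
  refine Root11_mem_of (St.mul_mem (St.mul_mem (St.mul_mem (St.inv_mem hg) (St.inv_mem hh)) hg) hh)
    ?_ ?_
  · have h1 := Root11_detM_inv g
    have h2 := Root11_detM_inv h
    simp only [toMat_mul, det_mul]
    calc (toMat g⁻¹).det * (toMat h⁻¹).det * (toMat g).det * (toMat h).det
        = ((toMat g⁻¹).det * (toMat g).det) * ((toMat h⁻¹).det * (toMat h).det) := by ring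
      _ = 1 := by rw [h1, h2, one_mul]
  · have h1 := Root11_detB_inv ⟨g, hg⟩
    have h2 := Root11_detB_inv ⟨h, hh⟩
    show (blk ((⟨g, hg⟩ : St)⁻¹ * (⟨h, hh⟩ : St)⁻¹ * ⟨g, hg⟩ * ⟨h, hh⟩)).det = 1
    rw [map_mul, map_mul, map_mul, det_mul, det_mul, det_mul]
    calc (blk (⟨g, hg⟩ : St)⁻¹).det * (blk (⟨h, hh⟩ : St)⁻¹).det * (blk ⟨g, hg⟩).det *
          (blk ⟨h, hh⟩).det
        = ((blk (⟨g, hg⟩ : St)⁻¹).det * (blk ⟨g, hg⟩).det) *
          ((blk (⟨h, hh⟩ : St)⁻¹).det * (blk ⟨h, hh⟩).det) := by ring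
      _ = 1 := by rw [h1, h2, one_mul]

/-- Gam0 is normal in St -/
theorem conj_mem (g h : GHat) (hg : g ∈ St) (hh : h ∈ Gam0) : g * h * g⁻¹ ∈ Gam0 := by
  refine Root11_mem_of (St.mul_mem (St.mul_mem hg hh.2.1) (St.inv_mem hg)) ?_ ?_
  · have h1 := Root11_detM_inv g
    simp only [toMat_mul, det_mul]
    rw [show (toMat h).det = 1 from hh.1, mul_one, mul_comm, h1]
  · have h1 := Root11_detB_inv ⟨g, hg⟩
    show (blk ((⟨g, hg⟩ : St) * ⟨h, hh.2.1⟩ * (⟨g, hg⟩ : St)⁻¹)).det = 1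
    rw [map_mul, map_mul, det_mul, det_mul,
      show (blk ⟨h, hh.2.1⟩).det = 1 from hh.2.2, mul_one, mul_comm, h1]

/-- the representation of Gam0 over the polynomial ring -/
noncomputable def rhoX : Gam0 →* SpecialLinearGroup (Fin 6) (ℤ_[11])[X] where
  toFun g := ⟨(P0 g.1).val.m 54, g.2.2.2⟩
  map_one' := by
    apply Subtype.ext
    show (P0 1).val.m 54 = 1
    rw [map_one]
    rfl
  map_mul' g h := by
    apply Subtype.ext
    show (P0 (g.1 * h.1)).val.m 54 = (P0 g.1).val.m 54 * (P0 h.1).val.m 54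
    rw [map_mul, Units.val_mul, BP.mul_m, h.2.2.1]

theorem rhoX_apply (g : Gam0) :
    ((rhoX g : SpecialLinearGroup (Fin 6) (ℤ_[11])[X]) : Matrix (Fin 6) (Fin 6) (ℤ_[11])[X]) =
      (P0 g.1).val.m 54 := rfl

/-- passage to polynomials over the field of 11-adic numbers -/
noncomputable def toQ : (ℤ_[11])[X] →+* (ℚ_[11])[X] :=
  Polynomial.mapRingHom (PadicInt.Coe.ringHom (p := 11))

/-- the representation of Gam0 over the polynomial ring over the field -/
noncomputable def AX (γ : Gam0) : Matrix (Fin 6) (Fin 6) (ℚ_[11])[X] :=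
  ((rhoX γ : SpecialLinearGroup (Fin 6) (ℤ_[11])[X]) :
    Matrix (Fin 6) (Fin 6) (ℤ_[11])[X]).map toQ

/-- the specialisation at w -/
noncomputable def rhoW (w : ℚ_[11]) : Gam0 →* SpecialLinearGroup (Fin 6) ℚ_[11] :=
  (SpecialLinearGroup.map ((evalRingHom w).comp toQ)).comp rhoX

theorem rhoW_apply (w : ℚ_[11]) (γ : Gam0) :
    ((rhoW w γ : SpecialLinearGroup (Fin 6) ℚ_[11]) : Matrix (Fin 6) (Fin 6) ℚ_[11]) =
      (AX γ).map (Polynomial.eval w) := by
  ext i j
  rfl

theorem AX_det (γ : Gam0) : (AX γ).det = 1 := by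
  have h := congrArg toQ (rhoX γ).2
  rw [RingHom.map_det, map_one] at h
  exact h

/-- the element of GHat of a word (first letter acts first) -/
def wordR : List (Fin 4) → GHat
  | [] => 1
  | i :: l => wordR l * R i

theorem P0_word (l : List (Fin 4)) : (P0 (wordR l)).val = E0.word (l.map Fin.val) := by
  induction l with
  | nil => rw [wordR, map_one]; rfl
  | cons i l ih =>
    rw [wordR, map_mul, Units.val_mul, ih, P0_R, List.map_cons, ED.word_cons]
    rfl

/-- the determinant of a block is a power of eta -/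
theorem P0_det (g : GHat) (c : Fin 60) : ((P0 g).val.m c).det ^ 10 = 1 :=
  det_pow_ten E0 P0 (fun i => by rw [P0_R]; rfl) P0_sc g c

/-- Gam0 has finite index in SG: an element g of SG is determined up to right
multiplication by Gam0 by the block (P0 g).p 54 and by the determinant of (P0 g).m 54,
a root of X^10 - 1 in a domain. -/
theorem finite_cosets : ∃ T : Finset GHat, (∀ t ∈ T, t ∈ SG) ∧
    ∀ g ∈ SG, ∃ t ∈ T, t⁻¹ * g ∈ Gam0 := by
  classical
  obtain ⟨F, hF⟩ : ∃ F : SG → Fin 60 × (ℤ_[11])[X],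
      F = fun g => ((P0 g.1).val.p 54, ((P0 g.1).val.m 54).det) := ⟨_, rfl⟩
  have hfin : (Set.range F).Finite := by
    refine Set.Finite.subset
      ((Finset.univ ×ˢ nthRootsFinset 10 (1 : (ℤ_[11])[X])).finite_toSet) ?_
    rintro v ⟨g, rfl⟩
    rw [hF]
    simp only [Finset.coe_product, Set.mem_prod, Finset.mem_coe, Finset.mem_univ, true_and]
    rw [mem_nthRootsFinset (by norm_num)]
    exact P0_det g.1 54
  choose r hr using fun v : Set.range F => v.2
  have hf : Finite (Set.range F) := hfin.to_subtype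
  have hft : Fintype (Set.range F) := Fintype.ofFinite _
  refine ⟨Finset.univ.image (fun v : Set.range F => (r v).1), ?_, ?_⟩
  · intro t ht
    obtain ⟨v, -, rfl⟩ := Finset.mem_image.1 ht
    exact (r v).2
  · intro g hg
    obtain ⟨v, hv⟩ : ∃ v : Set.range F, (v : Fin 60 × (ℤ_[11])[X]) = F ⟨g, hg⟩ :=
      ⟨⟨F ⟨g, hg⟩, ⟨⟨g, hg⟩, rfl⟩⟩, rfl⟩
    refine ⟨(r v).1, Finset.mem_image_of_mem _ (Finset.mem_univ v), ?_⟩
    have hv2 : F (r v) = F ⟨g, hg⟩ := (hr v).trans hv
    rw [hF] at hv2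
    beta_reduce at hv2
    obtain ⟨hp, hm⟩ := Prod.mk.inj hv2
    refine Root11_mem_of ?_ (SG.mul_mem (SG.inv_mem (r v).2) hg) ?_
    · show (P0 ((r v).1⁻¹ * g)).val.p 54 = 54
      have h1 : (P0 ((r v).1⁻¹ * (r v).1)).val.p 54 = 54 := by
        rw [inv_mul_cancel, map_one]
        rfl
      rw [map_mul, Units.val_mul, BP.mul_p] at h1 ⊢
      rw [← hp]
      exact h1
    · have h1 : ((P0 ((r v).1⁻¹ * (r v).1)).val.m 54).det = 1 := by
        rw [inv_mul_cancel, map_one]
        exact det_one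
      rw [map_mul, Units.val_mul, BP.mul_m, det_mul] at h1 ⊢
      rw [← hp, ← hm]
      exact h1

end W828
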