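import Pool.Agent.W_828d9b_h4.QData
import Pool.Agent.W_828d9b_h4.BPSound

/-!
# The block representation at w = 0 has the standard representation as a quotient
-/

namespace W828

open Matrix

set_option maxRecDepth 100000 in
theorem spec_check : ∀ i : Fin 4, ∀ c < 60, specAt i c = true := by decide +kernel

theorem Q_check : ∀ c < 60, Qm c * Qi c = 1 := by decide +kernel

variable {R : Type*} [CommRing R]

theorem ED.pz_w0 (E : ED R) (hw : E.w = 0) (p : PZ) : E.pz p = E.io (p.headD 0) := by
  cases p with
  | nil => exact (map_zero E.io).symm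
  | cons a p =>
    show E.io a + E.w * E.pz p = E.io a
    rw [hw, zero_mul, add_zero]

theorem ED.row_w0 (E : ED R) (hw : E.w = 0) (r : List (ℕ × PZ)) (j : ℕ) :
    E.row r j = E.io (rowC r j) := by
  induction r with
  | nil => exact (map_zero E.io).symm
  | cons x r ih =>
    obtain ⟨i, a⟩ := x
    show (if i = j then E.pz a else 0) + E.row r j =
      E.io ((if i = j then a.headD 0 else 0) + rowC r j)
    rw [map_add, ih]
    split_ifs with h
    · rw [E.pz_w0 hw]
    · rw [map_zero]

theorem SpecQ_odd (i : Fin 4) (c : Fin 60) (a b : Fin 3) :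
    rowC ((matG i.val c.val).getD (ix a).val []) (jx b).val = 0 := by
  have h := spec_check i c.val c.isLt
  unfold specAt at h
  rw [Bool.and_eq_true] at h
  exact of_decide_eq_true h.1 a b

theorem SpecQ_even (i : Fin 4) (c : Fin 60) :
    evC (matG i.val c.val) * Qm c.val =
      ((5 : Z5) ^ expG i.val c.val * Z5.zeta ^ lam i.val c.val) •
        (Qm (permG i.val c.val) * RM i) := by
  have h := spec_check i c.val c.isLt
  unfold specAt at h
  rw [Bool.and_eq_true] at h
  exact of_decide_eq_true h.2

theorem ED.odd_w0 (E : ED R) (hw : E.w = 0) (i : Fin 4) (c : Fin 60) (a b : Fin 3) :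
    (E.gen i.val).m c (ix a) (jx b) = 0 := by
  show E.f ^ expG i.val c.val *
    E.row ((matG i.val c.val).getD (ix a).val []) (jx b).val = 0
  rw [E.row_w0 hw, SpecQ_odd, map_zero, mul_zero]

theorem SpecQ_sub (E : ED R) (hw : E.w = 0) (i : Fin 4) (c : Fin 60) :
    ((E.gen i.val).m c).submatrix ix ix =
      E.f ^ expG i.val c.val • (evC (matG i.val c.val)).map E.io := by
  ext a b
  show E.f ^ expG i.val c.val *
    E.row ((matG i.val c.val).getD (ix a).val []) (ix b).val =
    E.f ^ expG i.val c.val *
      E.io (rowC ((matG i.val c.val).getD (ix a).val []) (ix b).val)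
  rw [E.row_w0 hw]

/-- permG i c < 60, so (E.gen i).p c has value permG i c (permG_lt is in BPSound) -/
theorem ED.even_w0 (E : ED R) (hw : E.w = 0) (i : Fin 4) (c : Fin 60) :
    ((E.gen i.val).m c).submatrix ix ix * (Qm c.val).map E.io =
      E.io (Z5.zeta ^ lam i.val c.val) •
        ((Qm ((E.gen i.val).p c).val).map E.io * (RM i).map E.io) := by
  have hp : ((E.gen i.val).p c).val = permG i.val c.val :=
    Nat.mod_eq_of_lt (permG_lt i.val c.val)
  rw [hp, SpecQ_sub E hw, Matrix.smul_mul, ← Matrix.map_mul, SpecQ_even, ← Matrix.map_mul]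
  ext a b
  show E.f ^ expG i.val c.val * E.io ((5 ^ expG i.val c.val * Z5.zeta ^ lam i.val c.val) *
      (Qm (permG i.val c.val) * RM i) a b) =
    E.io (Z5.zeta ^ lam i.val c.val) * E.io ((Qm (permG i.val c.val) * RM i) a b)
  have h5 : E.io (5 ^ expG i.val c.val) = 5 ^ expG i.val c.val := by
    rw [map_pow, map_ofNat]
  have hf : E.f ^ expG i.val c.val * 5 ^ expG i.val c.val = 1 := by
    rw [← mul_pow, mul_comm E.f, E.hf, one_pow]
  rw [map_mul, map_mul, h5]
  linear_combination (E.io (Z5.zeta ^ lam i.val c.val) *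
    E.io ((Qm (permG i.val c.val) * RM i) a b)) * hf

theorem ED.Q_mul (E : ED R) (c : Fin 60) : (Qm c.val).map E.io * (Qi c.val).map E.io = 1 := by
  rw [← Matrix.map_mul, Q_check c.val c.isLt]
  exact Matrix.map_one _ (map_zero E.io) (map_one E.io)

end W828
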