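import Pool.Agent.W_828d9b_h4.TabP
import Pool.Agent.W_828d9b_h4.Decomp

/-!
# Matrix form of the base relations
-/

namespace W828

/-- table of the powers of eta -/
def etT (a : ZMod 10) : Z5 := (![⟨1, 0, 0, 0⟩,
  ⟨0, 0, -1, 0⟩,
  ⟨-1, -1, -1, -1⟩,
  ⟨0, -1, 0, 0⟩,
  ⟨0, 0, 0, 1⟩,
  ⟨-1, 0, 0, 0⟩,
  ⟨0, 0, 1, 0⟩,
  ⟨1, 1, 1, 1⟩,
  ⟨0, 1, 0, 0⟩,
  ⟨0, 0, 0, -1⟩] : Fin 10 → Z5) a

theorem et_eq : ∀ a : ZMod 10, et a = etT a := by decide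

/-- matrices of the double coset representatives -/
def GM : Fin 7 → Mat := ![
  !![⟨1, 0, 0, 0⟩, ⟨0, 0, 0, 0⟩, ⟨0, 0, 0, 0⟩;
    ⟨0, 0, 0, 0⟩, ⟨1, 0, 0, 0⟩, ⟨0, 0, 0, 0⟩;
    ⟨0, 0, 0, 0⟩, ⟨0, 0, 0, 0⟩, ⟨1, 0, 0, 0⟩],
  !![⟨1, 0, 0, 0⟩, ⟨0, 0, 0, 0⟩, ⟨0, 0, 0, 0⟩;
    ⟨0, 0, 0, 0⟩, ⟨0, -1, -1, 0⟩, ⟨0, 1, 0, 0⟩;
    ⟨0, 0, 0, 0⟩, ⟨-1, -1, -1, 0⟩, ⟨1, 1, 0, 0⟩],
  !![⟨1, 0, 0, 0⟩, ⟨0, 0, 0, 0⟩, ⟨0, 0, 0, 0⟩;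
    ⟨0, 0, 0, 0⟩, ⟨-1, -2, -1, 0⟩, ⟨0, 1, 0, -1⟩;
    ⟨0, 0, 0, 0⟩, ⟨-2, -2, -1, 0⟩, ⟨1, 1, 0, -1⟩],
  !![⟨0, -1, -1, 0⟩, ⟨-1, -1, -1, 0⟩, ⟨1, 1, 1, 0⟩;
    ⟨-1, -1, -1, 0⟩, ⟨0, 0, 0, 0⟩, ⟨0, 0, 0, -1⟩;
    ⟨-1, -2, -1, 0⟩, ⟨-1, -1, 0, 0⟩, ⟨1, 1, 0, -1⟩],
  !![⟨0, -1, -1, 0⟩, ⟨-1, -1, -1, 0⟩, ⟨1, 1, 1, 0⟩;
    ⟨-1, -1, -1, 0⟩, ⟨0, -1, -1, 0⟩, ⟨1, 1, 1, 0⟩;
    ⟨-1, -2, -1, 0⟩, ⟨-1, -2, -1, 0⟩, ⟨2, 2, 1, 0⟩],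
  !![⟨1, 0, 0, 0⟩, ⟨0, 0, 0, 0⟩, ⟨0, 0, 0, 0⟩;
    ⟨0, 0, 0, 0⟩, ⟨-1, -2, 0, 1⟩, ⟨1, 1, 0, -1⟩;
    ⟨0, 0, 0, 0⟩, ⟨-2, -2, 0, 1⟩, ⟨2, 1, 0, -1⟩],
  !![⟨1, 0, 0, 0⟩, ⟨0, 0, 0, 0⟩, ⟨0, 0, 0, 0⟩;
    ⟨0, 0, 0, 0⟩, ⟨1, 2, 3, 2⟩, ⟨0, -1, -2, -1⟩;
    ⟨0, 0, 0, 0⟩, ⟨0, 2, 3, 2⟩, ⟨1, -1, -2, -1⟩]]

theorem GM_eq : ∀ i : Fin 7, toMat (G i) = GM i := by decide +kernel

/-- scalars of the monomial matrix of kap k -/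
def kc (k : KK) : Fin 3 → Z5 := match k.c with
  | false => ![etT k.a, etT k.b, 1]
  | true => ![etT k.a * etT 9, etT k.b * etT 9, 1]
/-- permutation of the monomial matrix of kap k -/
def ks (k : KK) : Fin 3 → Fin 3 := match k.c with
  | false => ![0, 1, 2]
  | true => ![1, 0, 2]

theorem kap_mul_mat (k : KK) (A : Mat) (p q : Fin 3) :
    (toMat (kap k) * A) p q = kc k p * A (ks k p) q := by
  obtain ⟨a, b, c⟩ := k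
  cases c <;> fin_cases p <;>
    simp [kap, dg, W0, Matrix.mul_apply, Fin.sum_univ_three, kc, ks, et_eq]

theorem mat_mul_kap (k : KK) (A : Mat) (p q : Fin 3) :
    (A * toMat (kap k)) p q = A p (ks k q) * kc k (ks k q) := by
  obtain ⟨a, b, c⟩ := k
  cases c <;> fin_cases q <;>
    simp [kap, dg, W0, Matrix.mul_apply, Fin.sum_univ_three, kc, ks, et_eq]

theorem sc_mul_mat (u : ZMod 10) (A : Mat) (p q : Fin 3) :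
    (toMat (sc u) * A) p q = etT u * A p q := by
  fin_cases p <;>
    simp [sc, Matrix.mul_apply, Fin.sum_univ_three, et_eq]

/-- boolean check of a base relation -/
def chkB (b : Fin 7 × KK × Fin 7 × ZMod 10 × KK × Fin 7 × KK) : Bool :=
  decide (∀ p q : Fin 3,
    GM b.1 p (ks b.2.1 0) * kc b.2.1 (ks b.2.1 0) * GM b.2.2.1 0 q +
    GM b.1 p (ks b.2.1 1) * kc b.2.1 (ks b.2.1 1) * GM b.2.2.1 1 q +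
    GM b.1 p (ks b.2.1 2) * kc b.2.1 (ks b.2.1 2) * GM b.2.2.1 2 q =
    etT b.2.2.2.1 * (kc b.2.2.2.2.1 p * GM b.2.2.2.2.2.1 (ks b.2.2.2.2.1 p) (ks b.2.2.2.2.2.2 q)
      * kc b.2.2.2.2.2.2 (ks b.2.2.2.2.2.2 q)))

theorem chkB_all : base.all chkB = true := by decide +kernel

/-- boolean check of commutation -/
def chkS (i : Fin 7) (r : KK) : Bool :=
  decide (∀ p q : Fin 3, GM i p (ks r q) * kc r (ks r q) = kc r p * GM i (ks r p) q)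

theorem chkS_all : ∀ i : Fin 7, (RS i).all (chkS i) = true := by decide +kernel

/-- boolean check of a table entry -/
def chkT (t : Fin 7 × KK × Fin 7 × KK × ℕ × KK) : Bool :=
  match base[t.2.2.2.2.1]? with
  | none => false
  | some e => decide (e.1 = t.1 ∧
    e.2.2.1 = t.2.2.1 ∧ t.2.1 = t.2.2.2.1 * e.2.1 * t.2.2.2.2.2 ∧
    t.2.2.2.1 ∈ RS t.1 ∧ t.2.2.2.2.2 ∈ RS t.2.2.1)

theorem chkT_all : tabC.all chkT = true := by decide +kernel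

/-- the base relations hold in GHat (matrix identities, finite check) -/
theorem base_M : ∀ b ∈ base, G b.1 * kap b.2.1 * G b.2.2.1 =
    sc b.2.2.2.1 * kap b.2.2.2.2.1 * G b.2.2.2.2.2.1 * kap b.2.2.2.2.2.2 := by
  intro b hb
  have h := List.all_eq_true.mp chkB_all b hb
  unfold chkB at h
  rw [decide_eq_true_iff] at h
  apply toMat_injective
  ext1 p q
  simp only [toMat_mul]
  have h1 : (toMat (G b.1) * toMat (kap b.2.1) * toMat (G b.2.2.1)) p q =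
      GM b.1 p (ks b.2.1 0) * kc b.2.1 (ks b.2.1 0) * GM b.2.2.1 0 q +
      GM b.1 p (ks b.2.1 1) * kc b.2.1 (ks b.2.1 1) * GM b.2.2.1 1 q +
      GM b.1 p (ks b.2.1 2) * kc b.2.1 (ks b.2.1 2) * GM b.2.2.1 2 q := by
    rw [Matrix.mul_apply, Fin.sum_univ_three, mat_mul_kap, mat_mul_kap, mat_mul_kap,
      GM_eq, GM_eq]
  have h2 : (toMat (sc b.2.2.2.1) * toMat (kap b.2.2.2.2.1) * toMat (G b.2.2.2.2.2.1) *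
      toMat (kap b.2.2.2.2.2.2)) p q =
      etT b.2.2.2.1 *
        (kc b.2.2.2.2.1 p * GM b.2.2.2.2.2.1 (ks b.2.2.2.2.1 p) (ks b.2.2.2.2.2.2 q) *
          kc b.2.2.2.2.2.2 (ks b.2.2.2.2.2.2 q)) := by
    rw [Matrix.mul_assoc, Matrix.mul_assoc, sc_mul_mat, kap_mul_mat, mat_mul_kap, GM_eq]
    ring
  exact h1.trans ((h p q).trans h2.symm)

theorem stab_M (i : Fin 7) : ∀ r ∈ RS i, G i * kap r = kap r * G i := by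
  intro r hr
  have h := List.all_eq_true.mp (chkS_all i) r hr
  unfold chkS at h
  rw [decide_eq_true_iff] at h
  apply toMat_injective
  ext1 p q
  simp only [toMat_mul]
  rw [mat_mul_kap, kap_mul_mat, GM_eq]
  exact h p q

/-- each table entry (i, k, j, r, b, l): base relation b has the same i, j, and
k = r * k0 * l, r ∈ RS i, l ∈ RS j -/
theorem tab_ok : ∀ t ∈ tabC, ∃ e, base[t.2.2.2.2.1]? = some e ∧ e.1 = t.1 ∧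
    e.2.2.1 = t.2.2.1 ∧ t.2.1 = t.2.2.2.1 * e.2.1 * t.2.2.2.2.2 ∧
    t.2.2.2.1 ∈ RS t.1 ∧ t.2.2.2.2.2 ∈ RS t.2.2.1 := by
  intro t ht
  have h := List.all_eq_true.mp chkT_all t ht
  unfold chkT at h
  split at h
  · exact absurd h (by simp)
  · rename_i e he
    rw [decide_eq_true_iff] at h
    exact ⟨e, he, h⟩

end W828
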