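import Pool.Agent.W_828d9b_h4.TabP
import Pool.Agent.W_828d9b_h4.Decomp

/-!
# Completeness of the table of small products
-/

namespace W828

namespace TC

open Matrix

/-- multiplication by eta -/
def me (x : Z5) : Z5 := ⟨x.c - x.d, x.c, x.c - x.a, x.c - x.b⟩

theorem me_eq (x : Z5) : me x = Z5.eta * x := by
  ext <;> simp [me, Z5.eta] <;> ring

/-- multiplication by eta ^ n -/
def pw (x : Z5) : ℕ → Z5
  | 0 => x
  | n + 1 => me (pw x n)

theorem pw_eq (x : Z5) (n : ℕ) : pw x n = Z5.eta ^ n * x := by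
  induction n with
  | zero => rw [pw, pow_zero, one_mul]
  | succ n ih => rw [pw, ih, me_eq, pow_succ, mul_comm (Z5.eta ^ n) Z5.eta, mul_assoc]

/-- third rows of the representatives -/
def rowL : Fin 7 → Z5 × Z5 × Z5 := ![(⟨0, 0, 0, 0⟩, ⟨0, 0, 0, 0⟩, ⟨1, 0, 0, 0⟩),
    (⟨0, 0, 0, 0⟩, ⟨-1, -1, -1, 0⟩, ⟨1, 1, 0, 0⟩), (⟨0, 0, 0, 0⟩, ⟨-2, -2, -1, 0⟩, ⟨1, 1, 0, -1⟩),
    (⟨-1, -2, -1, 0⟩, ⟨-1, -1, 0, 0⟩, ⟨1, 1, 0, -1⟩),
    (⟨-1, -2, -1, 0⟩, ⟨-1, -2, -1, 0⟩, ⟨2, 2, 1, 0⟩),
    (⟨0, 0, 0, 0⟩, ⟨-2, -2, 0, 1⟩, ⟨2, 1, 0, -1⟩),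
    (⟨0, 0, 0, 0⟩, ⟨0, 2, 3, 2⟩, ⟨1, -1, -2, -1⟩)]

/-- third columns of the representatives -/
def colL : Fin 7 → Z5 × Z5 × Z5 := ![(⟨0, 0, 0, 0⟩, ⟨0, 0, 0, 0⟩, ⟨1, 0, 0, 0⟩),
    (⟨0, 0, 0, 0⟩, ⟨0, 1, 0, 0⟩, ⟨1, 1, 0, 0⟩), (⟨0, 0, 0, 0⟩, ⟨0, 1, 0, -1⟩, ⟨1, 1, 0, -1⟩),
    (⟨1, 1, 1, 0⟩, ⟨0, 0, 0, -1⟩, ⟨1, 1, 0, -1⟩), (⟨1, 1, 1, 0⟩, ⟨1, 1, 1, 0⟩, ⟨2, 2, 1, 0⟩),
    (⟨0, 0, 0, 0⟩, ⟨1, 1, 0, -1⟩, ⟨2, 1, 0, -1⟩),
    (⟨0, 0, 0, 0⟩, ⟨0, -1, -2, -1⟩, ⟨1, -1, -2, -1⟩)]

theorem row_eq (i : Fin 7) : toMat (G i) 2 0 = (rowL i).1 ∧ toMat (G i) 2 1 = (rowL i).2.1 ∧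
    toMat (G i) 2 2 = (rowL i).2.2 := by
  revert i; decide +kernel

theorem col_eq (i : Fin 7) : toMat (G i) 0 2 = (colL i).1 ∧ toMat (G i) 1 2 = (colL i).2.1 ∧
    toMat (G i) 2 2 = (colL i).2.2 := by
  revert i; decide +kernel

theorem toMat_kap_f (a b : ZMod 10) :
    toMat (kap ⟨a, b, false⟩) = !![et a, 0, 0; 0, et b, 0; 0, 0, 1] := rfl

theorem toMat_kap_t (a b : ZMod 10) :
    toMat (kap ⟨a, b, true⟩) = !![0, et a * et 9, 0; et b * et 9, 0, 0; 0, 0, 1] := by
  show toMat (dg a b * W0) = _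
  rw [toMat_mul]
  show !![et a, 0, 0; 0, et b, 0; 0, 0, 1] * !![0, et 9, 0; et 9, 0, 0; 0, 0, 1] = _
  ext i j : 1
  fin_cases i <;> fin_cases j <;> simp [Matrix.mul_apply, Fin.sum_univ_three]

theorem ent_f (M N : Mat) (x y : Z5) : (M * !![x, 0, 0; 0, y, 0; 0, 0, 1] * N) 2 2 =
    x * (M 2 0 * N 0 2) + y * (M 2 1 * N 1 2) + M 2 2 * N 2 2 := by
  simp [Matrix.mul_apply, Fin.sum_univ_three]
  ring

theorem ent_t (M N : Mat) (x y : Z5) : (M * !![0, x, 0; y, 0, 0; 0, 0, 1] * N) 2 2 =
    x * (M 2 0 * N 1 2) + y * (M 2 1 * N 0 2) + M 2 2 * N 2 2 := by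
  simp [Matrix.mul_apply, Fin.sum_univ_three]
  ring

/-- first coefficient of the (3,3) entry -/
def cP (i j : Fin 7) (c : Bool) : Z5 :=
  match c with
  | false => (rowL i).1 * (colL j).1
  | true => pw ((rowL i).1 * (colL j).2.1) 9

/-- second coefficient of the (3,3) entry -/
def cQ (i j : Fin 7) (c : Bool) : Z5 :=
  match c with
  | false => (rowL i).2.1 * (colL j).2.1
  | true => pw ((rowL i).2.1 * (colL j).1) 9

/-- constant term of the (3,3) entry -/
def cW (i j : Fin 7) : Z5 := (rowL i).2.2 * (colL j).2.2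

theorem ent_eq (i j : Fin 7) (k : KK) : toMat (G i * kap k * G j) 2 2 =
    (pw (cP i j k.c) k.a.val + cW i j) + pw (cQ i j k.c) k.b.val := by
  obtain ⟨a, b, c⟩ := k
  obtain ⟨r0, r1, r2⟩ := row_eq i
  obtain ⟨c0, c1, c2⟩ := col_eq j
  rw [toMat_mul, toMat_mul]
  have h9 : (9 : ZMod 10).val = 9 := rfl
  cases c
  · rw [toMat_kap_f, ent_f, r0, r1, r2, c0, c1, c2]
    simp only [cP, cQ, cW, pw_eq, et]
    ring
  · rw [toMat_kap_t, ent_t, r0, r1, r2, c0, c1, c2]
    simp only [cP, cQ, cW, pw_eq, et, h9]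
    ring

/-- nonnegative integers -/
def pos (z : ℤ) : Bool :=
  match z with
  | .ofNat _ => true
  | .negSucc _ => false

theorem pos_spec {z : ℤ} (h : pos z = true) : 0 ≤ z := by
  cases z with
  | ofNat n => exact Int.natCast_nonneg n
  | negSucc n => simp [pos] at h

/-- nsq is greater than 13.34, in terms of nA and nB -/
def bigAB (A B : ℤ) : Bool :=
  pos (Int.sub (Int.add (Int.mul 1000000 A) (Int.mul 618030 B)) 13340001) &&
  pos (Int.sub (Int.add (Int.mul 1000000 A) (Int.mul 618034 B)) 13340001)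

/-- nsq is greater than 13.34, in terms of the coordinates -/
def bigI (a b c d : ℤ) : Bool :=
  bigAB
    (Int.sub (Int.add (Int.add (Int.mul a a) (Int.mul b b)) (Int.add (Int.mul c c) (Int.mul d d)))
      (Int.add (Int.mul a (Int.add c d)) (Int.mul b d)))
    (Int.sub (Int.add (Int.mul b (Int.add a c)) (Int.mul c d))
      (Int.add (Int.mul a (Int.add c d)) (Int.mul b d)))

/-- nsq is greater than 13.34 -/
def big (x : Z5) : Bool := bigI x.a x.b x.c x.d

theorem tr_lo : (0.61803 : ℝ) ≤ tr := by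
  unfold tr
  have h : (2.23606 : ℝ) ≤ Real.sqrt 5 := Real.le_sqrt_of_sq_le (by norm_num)
  linarith

theorem tr_hi : tr ≤ 0.618034 := by
  unfold tr
  have h : Real.sqrt 5 ≤ 2.236068 := by
    rw [Real.sqrt_le_left (by norm_num)]
    norm_num
  linarith

theorem big_spec {x : Z5} (h : big x = true) : 13.34 < nsq x := by
  rw [big, bigI] at h
  have e1 : Int.sub (Int.add (Int.add (Int.mul x.a x.a) (Int.mul x.b x.b))
      (Int.add (Int.mul x.c x.c) (Int.mul x.d x.d)))
      (Int.add (Int.mul x.a (Int.add x.c x.d)) (Int.mul x.b x.d)) = Z5.nA x := by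
    show (x.a * x.a + x.b * x.b + (x.c * x.c + x.d * x.d)) - (x.a * (x.c + x.d) + x.b * x.d) = _
    rw [Z5.nA]; ring
  have e2 : Int.sub (Int.add (Int.mul x.b (Int.add x.a x.c)) (Int.mul x.c x.d))
      (Int.add (Int.mul x.a (Int.add x.c x.d)) (Int.mul x.b x.d)) = Z5.nB x := by
    show (x.b * (x.a + x.c) + x.c * x.d) - (x.a * (x.c + x.d) + x.b * x.d) = _
    rw [Z5.nB]; ring
  rw [e1, e2, bigAB, Bool.and_eq_true] at h
  have h1 : 0 ≤ 1000000 * Z5.nA x + 618030 * Z5.nB x - 13340001 := pos_spec h.1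
  have h2 : 0 ≤ 1000000 * Z5.nA x + 618034 * Z5.nB x - 13340001 := pos_spec h.2
  have h1' : (0 : ℝ) ≤ 1000000 * (Z5.nA x : ℝ) + 618030 * (Z5.nB x : ℝ) - 13340001 := by
    exact_mod_cast h1
  have h2' : (0 : ℝ) ≤ 1000000 * (Z5.nA x : ℝ) + 618034 * (Z5.nB x : ℝ) - 13340001 := by
    exact_mod_cast h2
  unfold nsq
  rcases le_total 0 (Z5.nB x : ℝ) with h3 | h3
  · have := mul_le_mul_of_nonneg_left tr_lo h3
    linarith
  · have := mul_le_mul_of_nonpos_left tr_hi h3
    linarith

/-- code of a triple -/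
def code (i j : Fin 7) (c : Bool) (a b : ℕ) : ℕ :=
  ((i.val * 7 + j.val) * 2 + (match c with | false => 0 | true => 1)) * 100 + (10 * a + b)

/-- bit mask of a table -/
def maskOf (l : List (Fin 7 × KK × Fin 7 × KK × ℕ × KK)) : ℕ :=
  l.foldr (fun t m => (1 <<< code t.1 t.2.2.1 t.2.1.c t.2.1.a.val t.2.1.b.val) ||| m) 0

theorem maskOf_spec (l : List (Fin 7 × KK × Fin 7 × KK × ℕ × KK)) (n : ℕ)
    (h : (maskOf l).testBit n = true) :
    ∃ t ∈ l, code t.1 t.2.2.1 t.2.1.c t.2.1.a.val t.2.1.b.val = n := by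
  induction l with
  | nil => simp [maskOf] at h
  | cons t l ih =>
    rw [maskOf, List.foldr_cons, Nat.testBit_or, Bool.or_eq_true] at h
    rcases h with h | h
    · refine ⟨t, List.mem_cons_self, ?_⟩
      rw [Nat.one_shiftLeft, Nat.testBit_two_pow] at h
      exact of_decide_eq_true h
    · obtain ⟨t', h1, h2⟩ := ih h
      exact ⟨t', List.mem_cons_of_mem _ h1, h2⟩

/-- the mask of the table -/
def mask : ℕ :=
  0x802008020080200802008020000000000000000000000000000040100401004010040100401000000000000000000000000000000000000000000000000000100401004010040100401004000000000000000000000000000000000000000000000000000040100401004010040100401000000000000000000000000000c0300c0300c0300c0300c0300000000000000000000000000000000000000000000000000000000000000000000000000000401004010040100401004010000000000000000000000000008020080200802008020080200000000000000000000000000000000000000000000000000010040100401004010040100400000000000000000000000000000000000000000000000000008020080200802008020080200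0000000000000000000000001806018060180601806018060000000000000000000000000000000000000000000000000000000000000000000000000000000000000000000000000000000000000000000000000000000000000000000000000000000000000000000000180e030000000000000000000000301c060000000000000000100c030080000000000000000020301c00000000000000000003ff000000080200802008020080200802000000000000000fffff00000018060180601806018060180600000000000000000000000000000000000000000000000000000000000000000003ff000000000000000000000000000000000000000000000003ff00000000000000000000000000000000000000000000001c0e000000000000000000000020301c000000000000000000180e03000000000000000000c078f01c00000000000000000fffff0000000000000000000000000000000000000000003fffffff0000001c0701c0701c0701c0701c07000000000000000000000000000000000000000000000000000000000000000000000000000004010040100401004010040100000000000000000000000000080200802008020080200802010040100401004010040100400802008020080200802008020300c0300c0300c0300c0300c0000000000000000000000000000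00000000000000000000000080200802008020080200802000000000000000000000000003c0f03c0f03c0f03c0f03c0f00000000000000000000000000000000000000000000000000000000000000000000000000000c0300c0300c0300c0300c03000000000000000000000000001806018060180601806018060300c0300c0300c0300c0300c01806018060180601806018060701c0701c0701c0701c0701c01c0701c0701c0701c0701c07000000000000000000000000003c0f03c0f03c0f03c0f03c0ffffffffffffffffffffffffff8fe3f8fe3f8fe3f8fe3f8fe3f0000000000000000000000000000000000000000000000000000000000000000000000000000000000000000000000000000000000000000000000000000000000000000000000000000000000000000000000000000000000000000000000000000000000000000000000000000000000000000000000000000000000000000000000000000000000000000000000000000000000000000000000000000000000000000000000000000000000000000000000000000000000000000000000000000000000000000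

theorem mask_eq : maskOf tabC = mask := by decide +kernel

/-- exponents to be checked -/
def rng (x : Z5) : List ℕ := if x = 0 then [0] else List.range 10

/-- exponents represented by a -/
def rep (x : Z5) (a : ℕ) : List ℕ := if x = 0 then List.range 10 else [a]

theorem rng_rep (x : Z5) (a : ℕ) (ha : a < 10) :
    ∃ a' ∈ rng x, a ∈ rep x a' ∧ pw x a = pw x a' := by
  by_cases hx : x = 0
  · refine ⟨0, ?_, ?_, ?_⟩
    · rw [rng, if_pos hx]; exact List.mem_singleton.2 rfl
    · rw [rep, if_pos hx]; exact List.mem_range.2 ha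
    · rw [pw_eq, pw_eq, hx, mul_zero, mul_zero]
  · refine ⟨a, ?_, ?_, rfl⟩
    · rw [rng, if_neg hx]; exact List.mem_range.2 ha
    · rw [rep, if_neg hx]; exact List.mem_singleton.2 rfl

/-- the check for given coefficients -/
def chk0 (P Q W : Z5) (n : ℕ) : Bool :=
  (rng P).all fun a => (rng Q).all fun b => big ((pw P a + W) + pw Q b) ||
    ((rep P a).all fun a' => (rep Q b).all fun b' => mask.testBit (n + (10 * a' + b')))

theorem chk0_spec {P Q W : Z5} {n : ℕ} (h : chk0 P Q W n = true) (a b : ℕ) (ha : a < 10)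
    (hb : b < 10) :
    big ((pw P a + W) + pw Q b) = true ∨ mask.testBit (n + (10 * a + b)) = true := by
  obtain ⟨a', ha', ha'', ea⟩ := rng_rep P a ha
  obtain ⟨b', hb', hb'', eb⟩ := rng_rep Q b hb
  have h1 := List.all_eq_true.1 h a' ha'
  have h2 := List.all_eq_true.1 h1 b' hb'
  rw [Bool.or_eq_true] at h2
  rw [ea, eb]
  rcases h2 with h2 | h2
  · exact Or.inl h2
  · exact Or.inr (List.all_eq_true.1 (List.all_eq_true.1 h2 a ha'') b hb'')

/-- the check for one pair of representatives -/
def chk (i j : Fin 7) (c : Bool) : Bool :=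
  chk0 (cP i j c) (cQ i j c) (cW i j) (code i j c 0 0)

theorem chk_all : ∀ i j : Fin 7, i ≠ 0 → j ≠ 0 → ∀ c, chk i j c = true := by decide +kernel

end TC

open TC in
/-- all small products occur in the table: for the remaining 6402 triples
nsq of the (3,3) entry is > 13.34 (use 0.61803 < tr < 0.618034; a finite check with
integers nA, nB of the entry; the smallest value that occurs is above 13.7). -/
theorem tab_complete (i j : Fin 7) (hi : i ≠ 0) (hj : j ≠ 0) (k : KK)
    (h : Small (G i * kap k * G j)) : ∃ t ∈ tabC, t.1 = i ∧ t.2.1 = k ∧ t.2.2.1 = j := by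
  have h1 := chk0_spec (chk_all i j hi hj k.c) k.a.val k.b.val (ZMod.val_lt k.a) (ZMod.val_lt k.b)
  rcases h1 with h1 | h1
  · have h2 := big_spec h1
    rw [← ent_eq] at h2
    exact absurd h (not_le.2 h2)
  · rw [← mask_eq] at h1
    obtain ⟨t, ht, h2⟩ := maskOf_spec _ _ h1
    obtain ⟨i', ⟨a', b', c'⟩, j', r⟩ := t
    obtain ⟨a, b, c⟩ := k
    refine ⟨_, ht, ?_⟩
    have ha := ZMod.val_lt a
    have hb := ZMod.val_lt b
    have ha' := ZMod.val_lt a'
    have hb' := ZMod.val_lt b'
    have hi' := i'.2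
    have hi2 := i.2
    have hj' := j'.2
    have hj2 := j.2
    simp only [code] at h2
    have hc : c' = c := by
      cases c <;> cases c' <;> simp only at h2 ⊢ <;> omega
    subst hc
    have h3 : i'.val = i.val ∧ j'.val = j.val ∧ a'.val = a.val ∧ b'.val = b.val := by
      cases c' <;> simp only at h2 <;> omega
    have ea : a' = a := ZMod.val_injective 10 h3.2.2.1
    have eb : b' = b := ZMod.val_injective 10 h3.2.2.2
    exact ⟨Fin.ext h3.1, by rw [ea, eb], Fin.ext h3.2.1⟩

end W828
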