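import Pool.Agent.W_828d9b_h4.TabA

/-!
# Well-definedness of decompositions
-/

namespace W828

/-- finite check of the third columns -/
theorem wd_fin : ∀ (i j : Fin 7) (c : Bool) (u : ZMod 10), etT u * (1 * GM i 2 2) = GM j 2 2 →
    ∀ a : ZMod 10, etT u * (kc ⟨a, 0, c⟩ 0 * GM i (ks ⟨a, 0, c⟩ 0) 2) = GM j 0 2 →
    ∀ b : ZMod 10, etT u * (kc ⟨0, b, c⟩ 1 * GM i (ks ⟨0, b, c⟩ 1) 2) = GM j 1 2 →
      i = j ∧ u = 0 ∧ (i = 0 ∨ (⟨a, b, c⟩ : KK) ∈ RS i) := by
  decide +kernel

/-- finite check: kc and ks determine k -/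
theorem wd_inj : ∀ k : KK, kc k 0 = 1 → kc k 1 = 1 → ks k 0 = 0 → k = 1 := by
  decide +kernel

theorem kap_inj {k k' : KK} (h : kap k = kap k') : k = k' := by
  have h1 : kap (k * k'⁻¹) = 1 := by
    have h2 : kap k'⁻¹ = (kap k')⁻¹ := by
      refine eq_inv_of_mul_eq_one_left ?_
      rw [← kap_mul, inv_mul_cancel, kap_one]
    rw [kap_mul, h, h2, mul_inv_cancel]
  have h3 : ∀ l : KK, kap l = 1 → l = 1 := by
    intro l hl
    have h4 : ∀ p q : Fin 3, kc l p * (1 : Mat) (ks l p) q = (1 : Mat) p q := by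
      intro p q
      rw [← kap_mul_mat, hl, toMat_one, Matrix.one_mul]
    obtain ⟨a, b, c⟩ := l
    cases c
    · refine wd_inj _ ?_ ?_ rfl
      · have := h4 0 0
        rwa [show ks ⟨a, b, false⟩ 0 = 0 from rfl, Matrix.one_apply_eq, mul_one] at this
      · have := h4 1 1
        rwa [show ks ⟨a, b, false⟩ 1 = 1 from rfl, Matrix.one_apply_eq, mul_one] at this
    · exfalso
      have := h4 0 0
      rw [show ks ⟨a, b, true⟩ 0 = 1 from rfl, Matrix.one_apply_ne (by decide), mul_zero,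
        Matrix.one_apply_eq] at this
      exact absurd this (by decide)
  exact mul_inv_eq_one.1 (h3 _ h1)

/-- Well-definedness: if sc u * kap k * G i = G j * kap k' then i = j and the same relation
holds in P.  (Third columns: both sides applied to e3; kap k' e3 = e3.  For i = j one finds
k ∈ RS i up to the case i = 0; finite check over u, i, j, k of the third columns.) -/
theorem wd {P : Type*} [Group P] (s : Fin 4 → P) (hs : BRel s) (i j : Fin 7) (u : ZMod 10)
    (k k' : KK) (h : sc u * kap k * G i = G j * kap k') :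
    i = j ∧ rhoK s k * aP s i = aP s j * rhoK s k' := by
  have hcol : ∀ p : Fin 3, etT u * (kc k p * GM i (ks k p) 2) = GM j p 2 := by
    intro p
    have h1 : toMat (sc u * kap k * G i) p 2 = etT u * (kc k p * GM i (ks k p) 2) := by
      rw [toMat_mul, toMat_mul, Matrix.mul_assoc, sc_mul_mat, kap_mul_mat, GM_eq]
    have h2 : toMat (G j * kap k') p 2 = GM j p 2 := by
      rw [toMat_mul, mat_mul_kap, GM_eq]
      obtain ⟨a, b, c⟩ := k'
      cases c
      · show GM j p 2 * 1 = _
        rw [mul_one]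
      · show GM j p 2 * 1 = _
        rw [mul_one]
    rw [← h1, h, h2]
  obtain ⟨hij, hu, hk⟩ : i = j ∧ u = 0 ∧ (i = 0 ∨ k ∈ RS i) := by
    obtain ⟨a, b, c⟩ := k
    cases c
    · exact wd_fin i j false u (hcol 2) a (hcol 0) b (hcol 1)
    · exact wd_fin i j true u (hcol 2) a (hcol 0) b (hcol 1)
  subst hij
  subst hu
  rw [sc_zero, one_mul] at h
  refine ⟨rfl, ?_⟩
  rcases hk with hk | hk
  · subst hk
    have h0 : G 0 = 1 := rfl
    have h0' : aP s 0 = 1 := rfl
    rw [h0, mul_one, one_mul] at h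
    rw [h0', mul_one, one_mul, kap_inj h]
  · rw [← stab_M i k hk] at h
    have h1 := kap_inj (mul_left_cancel h)
    rw [← h1, stab_P s hs i k hk]

end W828
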