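import Pool.Agent.W_828d9b_h4.TabA
import Pool.Agent.W_828d9b_h4.TabC
import Pool.Agent.W_828d9b_h4.TabW

/-!
# The relation needed for Macbeath's theorem
-/

namespace W828

/-- the relation needed for Macbeath's theorem -/
theorem rel_table {P : Type*} [Group P] (s : Fin 4 → P) (hs : BRel s) (i j : Fin 7) (k : KK)
    (h : Small (G i * kap k * G j)) :
    ∃ (u : ZMod 10) (k1 : KK) (l : Fin 7) (k2 : KK),
      G i * kap k * G j = sc u * kap k1 * G l * kap k2 ∧
      aP s i * rhoK s k * aP s j = rhoK s k1 * aP s l * rhoK s k2 := by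
  have hmul := rhoK_mul s hs (kb_w2 s hs)
  by_cases hi : i = 0
  · subst hi
    refine ⟨0, k, j, 1, ?_, ?_⟩
    · have h0 : G 0 = 1 := rfl
      rw [h0, sc_zero, kap_one, one_mul, mul_one]
    · have h0 : aP s 0 = 1 := rfl
      rw [h0, rhoK_one, one_mul, mul_one]
  by_cases hj : j = 0
  · subst hj
    refine ⟨0, 1, i, k, ?_, ?_⟩
    · have h0 : G 0 = 1 := rfl
      rw [h0, sc_zero, kap_one, one_mul, one_mul, mul_one]
    · have h0 : aP s 0 = 1 := rfl
      rw [h0, rhoK_one, one_mul, mul_one]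
  obtain ⟨t, ht, ht1, ht2, ht3⟩ := tab_complete i j hi hj k h
  obtain ⟨e, he, he1, he2, he3, he4, he5⟩ := tab_ok t ht
  rw [ht1] at he1 he4
  rw [ht3] at he2 he5
  rw [ht2] at he3
  have hem : e ∈ base := List.mem_of_getElem? he
  have hM := base_M e hem
  have hP := base_P s hs e hem
  rw [he1, he2] at hM hP
  have h1 := stab_M i _ he4
  have h2 := stab_M j _ he5
  have h3 := stab_P s hs i _ he4
  have h4 := stab_P s hs j _ he5
  refine ⟨e.2.2.2.1, t.2.2.2.1 * e.2.2.2.2.1, e.2.2.2.2.2.1,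
    e.2.2.2.2.2.2 * t.2.2.2.2.2, ?_, ?_⟩
  · rw [he3, kap_mul, kap_mul, kap_mul, kap_mul]
    calc G i * (kap t.2.2.2.1 * kap e.2.1 * kap t.2.2.2.2.2) * G j
        = (G i * kap t.2.2.2.1) * kap e.2.1 * (kap t.2.2.2.2.2 * G j) := by
          simp only [mul_assoc]
      _ = (kap t.2.2.2.1 * G i) * kap e.2.1 * (G j * kap t.2.2.2.2.2) := by rw [h1, h2]
      _ = kap t.2.2.2.1 * (G i * kap e.2.1 * G j) * kap t.2.2.2.2.2 := by
          simp only [mul_assoc]
      _ = (kap t.2.2.2.1 * sc e.2.2.2.1) * kap e.2.2.2.2.1 * G e.2.2.2.2.2.1 *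
            kap e.2.2.2.2.2.2 * kap t.2.2.2.2.2 := by
          rw [hM]; simp only [mul_assoc]
      _ = _ := by rw [← sc_comm]; simp only [mul_assoc]
  · rw [he3, hmul, hmul, hmul, hmul]
    calc aP s i * (rhoK s t.2.2.2.1 * rhoK s e.2.1 * rhoK s t.2.2.2.2.2) * aP s j
        = (aP s i * rhoK s t.2.2.2.1) * rhoK s e.2.1 * (rhoK s t.2.2.2.2.2 * aP s j) := by
          simp only [mul_assoc]
      _ = (rhoK s t.2.2.2.1 * aP s i) * rhoK s e.2.1 * (aP s j * rhoK s t.2.2.2.2.2) := by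
          rw [h3, h4]
      _ = rhoK s t.2.2.2.1 * (aP s i * rhoK s e.2.1 * aP s j) * rhoK s t.2.2.2.2.2 := by
          simp only [mul_assoc]
      _ = _ := by rw [hP]; simp only [mul_assoc]

end W828
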