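import Pool.Agent.W_828d9b_h4.Base
import Pool.Agent.W_828d9b_h4.KPart

/-!
# The base relations in a group with the relations `BRel`
-/

namespace W828

variable {P : Type*} [Group P]

/-- the identities given by the certificate, as pairs of words -/
theorem TabP_pair (s : Fin 4 → P) (hs : BRel s) (p : Wd × Wd)
    (hp : p ∈ kbTests.map (fun e => (e.1, e.2.1))) : ev s p.1 = ev s p.2 := by
  obtain ⟨e, he, rfl⟩ := List.mem_map.1 hp
  exact kb_tests s hs e he

theorem TabP_extra (s : Fin 4 → P) (hs : BRel s) (p : Wd × Wd)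
    (hp : p ∈ [(([2, 0, 4, 2, 0] : Wd), ([4, 2, 0, 4, 2] : Wd)), ([2, 0, 4, 2, 4], [0, 2, 0, 4, 2]),
     ([2, 0, 4, 2, 2, 0, 4, 2], [1, 1, 5, 5]),
     ([2, 0, 4, 2, 0, 4, 2], [2, 2, 0, 4, 2, 0, 4])]) : ev s p.1 = ev s p.2 := by
  rw [← extra_words] at hp
  obtain ⟨e, he, rfl⟩ := List.mem_map.1 hp
  exact kb_tests s hs e (List.mem_of_mem_drop he)

theorem TabP_w0 (s : Fin 4 → P) (hs : BRel s) : wP s * s 0 = s 2 * wP s := by
  have h := TabP_extra s hs ([2, 0, 4, 2, 0], [4, 2, 0, 4, 2]) (by simp)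
  simpa [ev, letter, wP, mul_assoc] using h

theorem TabP_w2 (s : Fin 4 → P) (hs : BRel s) : wP s * s 2 = s 0 * wP s := by
  have h := TabP_extra s hs ([2, 0, 4, 2, 4], [0, 2, 0, 4, 2]) (by simp)
  simpa [ev, letter, wP, mul_assoc] using h

theorem TabP_w1 (s : Fin 4 → P) (hs : BRel s) :
    wP s * s 0 * s 2 * s 1 = s 1 * (wP s * s 0 * s 2) := by
  have h := TabP_extra s hs ([2, 0, 4, 2, 0, 4, 2], [2, 2, 0, 4, 2, 0, 4]) (by simp)
  simpa [ev, letter, wP, mul_assoc] using h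

/-- s2^10 = 1 (s2 is conjugate to s0 by w = s1 s0 s2 s1, see `extra_words`, `kb_tests`) -/
theorem s2_pow (s : Fin 4 → P) (hs : BRel s) : s 2 ^ 10 = 1 := by
  have h1 : s 2 = wP s * s 0 * (wP s)⁻¹ := by
    rw [TabP_w0 s hs, mul_assoc, mul_inv_cancel, mul_one]
  rw [h1, conj_pow, hs.o, mul_one, mul_inv_cancel]

/-- the hypothesis hw of `rhoK_mul` -/
theorem kb_w2 (s : Fin 4 → P) (hs : BRel s) :
    wP s * wP s = (s 0)⁻¹ * (s 0)⁻¹ * (s 2)⁻¹ * (s 2)⁻¹ := by
  have h := TabP_extra s hs ([2, 0, 4, 2, 2, 0, 4, 2], [1, 1, 5, 5]) (by simp)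
  simpa [ev, letter, wP, mul_assoc] using h

theorem ev_wG (s : Fin 4 → P) (i : Fin 7) : ev s (wG i) = aP s i := by
  fin_cases i <;> simp [wG, aP, ev, letter, pow_succ, mul_assoc]

theorem TabP_replicate (s : Fin 4 → P) (n a : ℕ) :
    ev s (List.replicate n a) = letter s a ^ n := by
  simp [ev]

theorem TabP_ev_pow (s : Fin 4 → P) (g : P) (a b : ℕ) (hg : g ^ 10 = 1) (ha : letter s a = g)
    (hb : letter s b = g⁻¹) (x : ZMod 10) :
    ev s (if x.val ≤ 5 then List.replicate x.val a else List.replicate (10 - x.val) b) =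
      g ^ x.val := by
  split_ifs with h
  · rw [TabP_replicate, ha]
  · rw [TabP_replicate, hb, inv_pow, inv_eq_iff_mul_eq_one, ← pow_add]
    have h1 : 10 - x.val + x.val = 10 := by
      have h2 : x.val < 10 := ZMod.val_lt x
      omega
    rw [h1, hg]

theorem ev_kw (s : Fin 4 → P) (hs : BRel s) (k : KK) : ev s (kw k) = rhoK s k := by
  unfold kw rhoK
  rw [ev_append, ev_append, TabP_ev_pow s (s 0) 0 1 hs.o rfl rfl,
    TabP_ev_pow s (s 2) 4 5 (s2_pow s hs) rfl rfl]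
  congr 1
  split_ifs
  · simp [ev, letter, wP, mul_assoc]
  · simp [ev]

/-- the base relations hold in P -/
theorem base_P (s : Fin 4 → P) (hs : BRel s) : ∀ b ∈ base,
    aP s b.1 * rhoK s b.2.1 * aP s b.2.2.1 =
      rhoK s b.2.2.2.2.1 * aP s b.2.2.2.2.2.1 * rhoK s b.2.2.2.2.2.2 := by
  intro b hb
  have h1 : (wG b.1 ++ kw b.2.1 ++ wG b.2.2.1,
      kw b.2.2.2.2.1 ++ wG b.2.2.2.2.2.1 ++ kw b.2.2.2.2.2.2) ∈
      (kbTests.take 95).map (fun e => (e.1, e.2.1)) := by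
    rw [← base_words]
    exact List.mem_map.2 ⟨b, hb, rfl⟩
  obtain ⟨e, he, hee⟩ := List.mem_map.1 h1
  have h2 := kb_tests s hs e (List.mem_of_mem_take he)
  have h3 : e.1 = wG b.1 ++ kw b.2.1 ++ wG b.2.2.1 := congrArg Prod.fst hee
  have h4 : e.2.1 = kw b.2.2.2.2.1 ++ wG b.2.2.2.2.2.1 ++ kw b.2.2.2.2.2.2 :=
    congrArg Prod.snd hee
  rw [h3, h4] at h2
  simpa only [ev_append, ev_wG, ev_kw s hs] using h2

/-- elements of KK commuting with the representative number i -/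
def RS : Fin 7 → List KK :=
  let A : List KK := (List.range 10).map (fun n => ⟨(n : ZMod 10), 0, false⟩)
  ![[1], A, A, [1], [1, ⟨1, 1, true⟩], A, A]

theorem TabP_rhoA (s : Fin 4 → P) (a : ZMod 10) :
    rhoK s ⟨a, 0, false⟩ = s 0 ^ a.val := by
  simp [rhoK]

theorem TabP_A (s : Fin 4 → P) (g : P) (hg : Commute g (s 0)) (r : KK)
    (hr : r ∈ (List.range 10).map (fun n => (⟨(n : ZMod 10), 0, false⟩ : KK))) :
    g * rhoK s r = rhoK s r * g := by
  obtain ⟨n, _, rfl⟩ := List.mem_map.1 hr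
  rw [TabP_rhoA]
  exact hg.pow_right _

/-- s3 commutes with s0, and s1 commutes with delta = w s0 s2 -/
theorem stab_P (s : Fin 4 → P) (hs : BRel s) (i : Fin 7) :
    ∀ r ∈ RS i, aP s i * rhoK s r = rhoK s r * aP s i := by
  intro r hr
  have h30 : Commute (s 3) (s 0) := hs.c03.symm
  have hone : ∀ g : P, g * rhoK s 1 = rhoK s 1 * g := by
    intro g
    rw [rhoK_one, one_mul, mul_one]
  fin_cases i
  · rw [List.mem_singleton.1 hr]; exact hone _
  · exact TabP_A s _ h30 r hr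
  · exact TabP_A s _ (h30.pow_left 2) r hr
  · rw [List.mem_singleton.1 hr]; exact hone _
  · rcases List.mem_cons.1 hr with h | h
    · rw [h]; exact hone _
    · rw [List.mem_singleton.1 h]
      have h1 : rhoK s ⟨1, 1, true⟩ = wP s * s 0 * s 2 := by
        have h2 : rhoK s ⟨1, 1, true⟩ = s 0 ^ 1 * s 2 ^ 1 * wP s := rfl
        rw [h2, pow_one, pow_one, TabP_w0 s hs, mul_assoc (s 2), TabP_w2 s hs, ← mul_assoc,
          hs.c02]
      rw [h1]
      exact (TabP_w1 s hs).symm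
  · exact TabP_A s _ (h30.pow_left 3) r hr
  · exact TabP_A s _ ((h30.pow_left 3).inv_left) r hr

end W828
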