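import Mathlib

/-!
# The ring of integers of the fifth cyclotomic field, in coordinates

`Z5` is the ring of integer combinations of 1, z, z^2, z^3 with
z^4 = -1 - z - z^2 - z^3 (z a primitive fifth root of unity).
-/

namespace W828

/-- Elements a + b z + c z^2 + d z^3. -/
@[ext] structure Z5 where
  a : ℤ
  b : ℤ
  c : ℤ
  d : ℤ
deriving DecidableEq, Repr

namespace Z5

instance : Zero Z5 := ⟨⟨0, 0, 0, 0⟩⟩
instance : One Z5 := ⟨⟨1, 0, 0, 0⟩⟩
instance : Add Z5 := ⟨fun x y => ⟨x.a + y.a, x.b + y.b, x.c + y.c, x.d + y.d⟩⟩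
instance : Neg Z5 := ⟨fun x => ⟨-x.a, -x.b, -x.c, -x.d⟩⟩
instance : Sub Z5 := ⟨fun x y => ⟨x.a - y.a, x.b - y.b, x.c - y.c, x.d - y.d⟩⟩
/-- multiplication, using z^5 = 1 and z^4 = -1 - z - z^2 - z^3 -/
instance : Mul Z5 := ⟨fun x y =>
  ⟨x.a * y.a + (x.b * y.d + x.c * y.c + x.d * y.b) * (-1) + (x.c * y.d + x.d * y.c),
   x.a * y.b + x.b * y.a - (x.b * y.d + x.c * y.c + x.d * y.b) + x.d * y.d,
   x.a * y.c + x.b * y.b + x.c * y.a - (x.b * y.d + x.c * y.c + x.d * y.b),
   x.a * y.d + x.b * y.c + x.c * y.b + x.d * y.a - (x.b * y.d + x.c * y.c + x.d * y.b)⟩⟩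

@[simp] theorem zero_a : (0 : Z5).a = 0 := rfl
@[simp] theorem zero_b : (0 : Z5).b = 0 := rfl
@[simp] theorem zero_c : (0 : Z5).c = 0 := rfl
@[simp] theorem zero_d : (0 : Z5).d = 0 := rfl
@[simp] theorem one_a : (1 : Z5).a = 1 := rfl
@[simp] theorem one_b : (1 : Z5).b = 0 := rfl
@[simp] theorem one_c : (1 : Z5).c = 0 := rfl
@[simp] theorem one_d : (1 : Z5).d = 0 := rfl
@[simp] theorem add_a (x y : Z5) : (x + y).a = x.a + y.a := rfl
@[simp] theorem add_b (x y : Z5) : (x + y).b = x.b + y.b := rfl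
@[simp] theorem add_c (x y : Z5) : (x + y).c = x.c + y.c := rfl
@[simp] theorem add_d (x y : Z5) : (x + y).d = x.d + y.d := rfl
@[simp] theorem neg_a (x : Z5) : (-x).a = -x.a := rfl
@[simp] theorem neg_b (x : Z5) : (-x).b = -x.b := rfl
@[simp] theorem neg_c (x : Z5) : (-x).c = -x.c := rfl
@[simp] theorem neg_d (x : Z5) : (-x).d = -x.d := rfl
@[simp] theorem sub_a (x y : Z5) : (x - y).a = x.a - y.a := rfl
@[simp] theorem sub_b (x y : Z5) : (x - y).b = x.b - y.b := rfl
@[simp] theorem sub_c (x y : Z5) : (x - y).c = x.c - y.c := rfl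
@[simp] theorem sub_d (x y : Z5) : (x - y).d = x.d - y.d := rfl
@[simp] theorem mul_a (x y : Z5) : (x * y).a =
    x.a * y.a + (x.b * y.d + x.c * y.c + x.d * y.b) * (-1) + (x.c * y.d + x.d * y.c) := rfl
@[simp] theorem mul_b (x y : Z5) : (x * y).b =
    x.a * y.b + x.b * y.a - (x.b * y.d + x.c * y.c + x.d * y.b) + x.d * y.d := rfl
@[simp] theorem mul_c (x y : Z5) : (x * y).c =
    x.a * y.c + x.b * y.b + x.c * y.a - (x.b * y.d + x.c * y.c + x.d * y.b) := rfl
@[simp] theorem mul_d (x y : Z5) : (x * y).d =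
    x.a * y.d + x.b * y.c + x.c * y.b + x.d * y.a
      - (x.b * y.d + x.c * y.c + x.d * y.b) := rfl

instance : CommRing Z5 where
  add_assoc x y z := by ext <;> simp <;> ring
  zero_add x := by ext <;> simp
  add_zero x := by ext <;> simp
  add_comm x y := by ext <;> simp <;> ring
  neg_add_cancel x := by ext <;> simp
  sub_eq_add_neg x y := by ext <;> simp <;> ring
  mul_assoc x y z := by ext <;> simp <;> ring
  one_mul x := by ext <;> simp
  mul_one x := by ext <;> simp
  left_distrib x y z := by ext <;> simp <;> ring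
  right_distrib x y z := by ext <;> simp <;> ring
  mul_comm x y := by ext <;> simp <;> ring
  zero_mul x := by ext <;> simp
  mul_zero x := by ext <;> simp
  nsmul := nsmulRec
  zsmul := zsmulRec
  npow := npowRec

/-- complex conjugation z ↦ z^4 -/
def conj (x : Z5) : Z5 := ⟨x.a - x.b, -x.b, x.d - x.b, x.c - x.b⟩

instance : StarRing Z5 where
  star := conj
  star_involutive x := by
    show conj (conj x) = x
    ext <;> simp [conj]
  star_mul x y := by
    show conj (x * y) = conj y * conj x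
    ext <;> simp [conj] <;> ring
  star_add x y := by
    show conj (x + y) = conj x + conj y
    ext <;> simp [conj] <;> ring

@[simp] theorem star_a (x : Z5) : (star x).a = x.a - x.b := rfl
@[simp] theorem star_b (x : Z5) : (star x).b = -x.b := rfl
@[simp] theorem star_c (x : Z5) : (star x).c = x.d - x.b := rfl
@[simp] theorem star_d (x : Z5) : (star x).d = x.c - x.b := rfl

/-- the root of unity z -/
def zeta : Z5 := ⟨0, 1, 0, 0⟩
/-- tau = z + z^4 = (sqrt 5 - 1)/2 -/
def tau : Z5 := ⟨-1, 0, -1, -1⟩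
/-- phi = -(z^2 + z^3) = (sqrt 5 + 1)/2, the inverse of tau -/
def phi : Z5 := ⟨0, 0, -1, -1⟩
/-- eta = - z^2, of order ten -/
def eta : Z5 := ⟨0, 0, -1, 0⟩

theorem zeta_rel : zeta ^ 4 + zeta ^ 3 + zeta ^ 2 + zeta + 1 = 0 := by decide
theorem tau_mul_phi : tau * phi = 1 := by decide
theorem phi_eq : phi = tau + 1 := by decide
theorem phi_sq : phi * phi = phi + 1 := by decide
theorem star_tau : star tau = tau := by decide
theorem star_phi : star phi = phi := by decide
theorem eta_pow_ten : eta ^ 10 = 1 := by decide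
theorem star_eta_mul : star eta * eta = 1 := by decide

/-- The ring homomorphism to any commutative ring sending z to a root of
X^4 + X^3 + X^2 + X + 1. -/
def lift {R : Type*} [CommRing R] (z : R) (hz : z ^ 4 + z ^ 3 + z ^ 2 + z + 1 = 0) :
    Z5 →+* R where
  toFun x := (x.a : R) + (x.b : R) * z + (x.c : R) * z ^ 2 + (x.d : R) * z ^ 3
  map_one' := by simp
  map_zero' := by simp
  map_add' x y := by simp; ring
  map_mul' x y := by
    simp
    have h5 : z ^ 5 = 1 := by linear_combination (z - 1) * hz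
    have h4 : z ^ 4 = - z ^ 3 - z ^ 2 - z - 1 := by linear_combination hz
    have h6 : z ^ 6 = z := by linear_combination z * h5
    linear_combination (-(x.b * y.d + x.c * y.c + x.d * y.b : R)) * h4
      - (x.c * y.d + x.d * y.c : R) * h5 - (x.d * y.d : R) * h6

theorem lift_apply {R : Type*} [CommRing R] (z : R)
    (hz : z ^ 4 + z ^ 3 + z ^ 2 + z + 1 = 0) (x : Z5) :
    lift z hz x = (x.a : R) + (x.b : R) * z + (x.c : R) * z ^ 2 + (x.d : R) * z ^ 3 := rfl

theorem lift_zeta {R : Type*} [CommRing R] (z : R)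
    (hz : z ^ 4 + z ^ 3 + z ^ 2 + z + 1 = 0) : lift z hz zeta = z := by
  simp [lift_apply, zeta]

/-- x * star x = nA x + nB x * tau -/
def nA (x : Z5) : ℤ :=
  x.a ^ 2 + x.b ^ 2 + x.c ^ 2 + x.d ^ 2 - (x.a * x.c + x.b * x.d + x.a * x.d)
def nB (x : Z5) : ℤ :=
  x.a * x.b + x.b * x.c + x.c * x.d - (x.a * x.c + x.b * x.d + x.a * x.d)

theorem mul_star (x : Z5) : x * star x = ⟨nA x - nB x, 0, - nB x, - nB x⟩ := by
  ext <;> simp [nA, nB] <;> ring

end Z5

end W828
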